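import Pool.Agent.Lib.MP_cafdd5_nt.Defs

namespace Pool.Agent.Szpiro98

open Pool.Agent.Lib.MP_cafdd5_nt

/-- The prime-to-6 part of the conductor of the minimal short model `y^2 = x^3 - a x - b`: a prime
`p ≥ 5` dividing `D` has exponent 2 if the reduction has a cusp (`p ∣ a`) and 1 if it has a node. -/
def cond (a b : ℤ) : ℕ :=
  ∏ p ∈ (disc a b).natAbs.primeFactors.filter (5 ≤ ·), p ^ (if (p : ℤ) ∣ a then 2 else 1)

end Pool.Agent.Szpiro98
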