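import Pool.Agent.Lib.Szpiro98.Blue4

/-! Block COORD4: integer coordinates on a group of units of bounded rank with logarithms. -/

namespace Pool.Agent.Szpiro98.V4

open Finset Module NumberField IsDedekindDomain NormedSpace

namespace Coord4

lemma exists_S {K : Type} [Field K] [NumberField K] (T : Set K) (hT : T.Finite) :
    ∃ S : Finset (HOS K), ∀ x ∈ T, x ≠ 0 → SU S x := by
  have f : (⋃ x ∈ T, (HeightOneSpectrum.Support (𝓞 K) x ∪ HeightOneSpectrum.Support (𝓞 K) x⁻¹)).Finite :=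
    hT.biUnion fun x _ => (HeightOneSpectrum.Support.finite _ x).union (HeightOneSpectrum.Support.finite _ x⁻¹)
  refine ⟨f.toFinset, fun x hx x0 => ⟨x0, fun v hv => ?_⟩⟩
  rw [Set.Finite.mem_toFinset, Set.mem_iUnion₂, not_exists] at hv
  have h := not_exists.1 (hv x) hx
  simp only [Set.mem_union, HeightOneSpectrum.Support, Set.mem_ofPred_eq, not_or, not_lt, map_inv₀] at h
  have v0 : v.valuation K x ≠ 0 := by simpa using x0
  exact le_antisymm h.1 ((inv_le_one₀ (zero_lt_iff.2 v0)).1 h.2)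

lemma SU.div {K : Type} [Field K] [NumberField K] {S : Finset (HOS K)} {x y : K} (hx : SU S x) (hy : SU S y) :
    SU S (x / y) :=
  ⟨div_ne_zero hx.1 hy.1, fun v hv => by rw [map_div₀, hx.2 v hv, hy.2 v hv, div_one]⟩

lemma lv_mul {K : Type} [Field K] [NumberField K] {x y : K} (x0 : x ≠ 0) (y0 : y ≠ 0) :
    lv (x * y) = lv x + lv y := by
  refine Prod.ext (funext fun v => ?_) (funext fun w => ?_)
  · have a : v.valuation K x ≠ 0 := by simpa using x0
    have b : v.valuation K y ≠ 0 := by simpa using y0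
    simp [lv, WithZero.log_mul a b]
  · simp [lv, Real.log_mul (InfinitePlace.pos_iff.2 x0).ne' (InfinitePlace.pos_iff.2 y0).ne']

lemma lv_one {K : Type} [Field K] [NumberField K] : lv (1 : K) = 0 := by
  have := lv_mul (K := K) one_ne_zero one_ne_zero
  rw [mul_one] at this
  exact left_eq_add.1 this

lemma lv_inv {K : Type} [Field K] [NumberField K] {x : K} (x0 : x ≠ 0) : lv x⁻¹ = -lv x := by
  rw [eq_neg_iff_add_eq_zero, ← lv_mul (inv_ne_zero x0) x0, inv_mul_cancel₀ x0, lv_one]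

lemma small {D N : ℕ} (h1 : 1 ≤ N) (h : D ≤ N) : 3 ^ (2 * D) * (3 / 2 * om N) < 1 := by
  have n1 : (1 : ℝ) ≤ N := by exact_mod_cast h1
  have d1 : (D : ℝ) ≤ N := by exact_mod_cast h
  have a : (3 : ℝ) ≤ Real.exp 2 := by linarith [Real.add_one_le_exp (2 : ℝ)]
  have b : (3 : ℝ) ^ (2 * D) ≤ Real.exp (4 * D) := by
    rw [show (4 * D : ℝ) = (2 * D : ℕ) * 2 by push_cast; ring, Real.exp_nat_mul]
    exact pow_le_pow_left₀ (by norm_num) a _
  calc (3 : ℝ) ^ (2 * D) * (3 / 2 * om N) ≤ Real.exp (4 * D) * (Real.exp 2 * om N) := by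
        have : 0 < om N := Real.exp_pos _
        gcongr
        linarith
    _ = Real.exp (4 * D + 2 + -(2000 * N)) := by rw [om, Real.exp_add, Real.exp_add, mul_assoc]
    _ < 1 := Real.exp_lt_one_iff.2 (by linarith)

variable {p : ℕ} [Fact p.Prime] (ι : Qb →+* ℂ_[p]) {N D : ℕ} {L : IntermediateField ℚ Qb} [FiniteDimensional ℚ L]
  {W : ℝ → ℝ} {Dom : AddSubgroup ℂ_[p]}

/-- A unit of small house with a small logarithm is `1`. -/
lemma key (an : An ℂ_[p] 2 (om N) W Dom) (N1 : 1 ≤ N) (DN : D ≤ N) (dL : finrank ℚ L ≤ D) {u : L} {t : ℂ_[p]}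
    (u0 : u ≠ 0) (h : ∀ v : HOS L, v.valuation L u = 1) (hw : ∀ w : InfinitePlace L, |Real.log (w u)| < 1 / 2)
    (ht : ‖t‖ ≤ om N) (hL : exp t = ι u) : t = 0 ∧ u = 1 := by
  have E2 : Real.exp (1 / 2) ≤ 2 := by
    have := Real.abs_exp_sub_one_le (x := 1 / 2) (by rw [abs_of_pos] <;> norm_num)
    rw [abs_of_pos (by norm_num : (0 : ℝ) < 1 / 2)] at this
    linarith [le_abs_self (Real.exp (1 / 2) - 1)]
  have k1 : Hk u 2 := ⟨Coord.integral_of_val h, fun φ => by
    refine le_trans ?_ E2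
    rw [← InfinitePlace.apply, ← Real.log_le_iff_le_exp (InfinitePlace.pos_iff.2 u0)]
    exact (abs_lt.1 (hw _)).2.le⟩
  have k2 : Hs (u : Qb) 2 := k1.hs (algebraMap L Qb)
  have ω2 := (LOCP.om_le N1).2
  have nr := an.near t (by linarith)
  have one : Hs (1 : Qb) 1 := by simpa using Hs.int 1
  have st : (u : Qb) = 1 := by
    by_contra ne
    have := liou ι (fun θ M hM h => (LOCP.norm_le ι h.1).trans hM) an.int_ge (sub_ne_zero.2 ne)
      ((k2.sub one).mono (N := 3) (by linarith)) (by norm_num) one_pos (L := L)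
      (by rw [pow_one]; exact sub_mem u.2 (one_mem _)) dL
    rw [map_sub, ← hL, map_one] at this
    have e1 : ‖exp t - 1‖ ≤ 3 / 2 * om N := by
      have := norm_add_le (exp t - 1 - t) t
      rw [sub_add_cancel] at this
      linarith
    have e2 := small N1 DN
    have e3 := mul_le_mul_of_nonneg_left e1 (show (0 : ℝ) ≤ 3 ^ (2 * D) by positivity)
    linarith
  refine ⟨?_, Subtype.ext st⟩
  rw [hL, st, map_one, sub_self, zero_sub, norm_neg] at nr
  exact norm_le_zero_iff.1 (by linarith)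

variable (V : Submodule ℝ ((HOS L → ℝ) × (InfinitePlace L → ℝ))) (S : Finset (HOS L))

/-- Pairs of an `S`-unit with logarithmic vector in `V` and a small logarithm of it. -/
def G (an : An ℂ_[p] 2 (om N) (fun _ => om N) Dom) : AddSubgroup (Additive Lˣ × ℂ_[p]) where
  carrier := {x | lv (x.1.toMul : L) ∈ V ∧ SU S (x.1.toMul : L) ∧ ‖x.2‖ ≤ om N ∧
    exp x.2 = ι ((x.1.toMul : L) : Qb)}
  zero_mem' := by
    refine ⟨?_, ⟨by simp, fun v _ => by simp⟩, ?_, by simp⟩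
    · simp [lv_one]
    · rw [Prod.snd_zero, norm_zero]
      exact (Real.exp_pos _).le
  add_mem' := by
    rintro ⟨u, t⟩ ⟨u', t'⟩ ⟨a0, a1, a2, a3⟩ ⟨b0, b1, b2, b3⟩
    refine ⟨?_, ⟨Units.ne_zero _, fun v hv => ?_⟩,
      (IsUltrametricDist.norm_add_le_max _ _).trans (max_le a2 b2), ?_⟩
    · simp only [Prod.fst_add, toMul_add, Units.val_mul]
      rw [lv_mul (Units.ne_zero _) (Units.ne_zero _)]
      exact add_mem a0 b0
    · have := a1.2 v hv
      have := b1.2 v hv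
      simp_all
    · simp only [Prod.fst_add, Prod.snd_add, toMul_add, Units.val_mul, MulMemClass.coe_mul, map_mul] at a3 b3 ⊢
      rw [an.add _ (an.dom 0 _ a2) _ (an.dom 0 _ b2), ← a3, ← b3]
  neg_mem' := by
    rintro ⟨u, t⟩ ⟨a0, a1, a2, a3⟩
    refine ⟨?_, ⟨Units.ne_zero _, fun v hv => ?_⟩, by simpa using a2, ?_⟩
    · simp only [Prod.fst_neg, toMul_neg, Units.val_inv_eq_inv_val]
      rw [lv_inv (Units.ne_zero _)]
      exact neg_mem a0
    · have := a1.2 v hv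
      simp_all
    · have e := an.add _ (an.dom 0 _ a2) _ (neg_mem (an.dom 0 _ a2))
      simp only [Prod.fst_neg, Prod.snd_neg, toMul_neg, Units.val_inv_eq_inv_val, IntermediateField.coe_inv,
        map_inv₀] at a3 e ⊢
      rw [add_neg_cancel, exp_zero] at e
      rw [← a3, ← eq_inv_of_mul_eq_one_right e.symm]

/-- Restriction to the places in `S` and the infinite places. -/
def pj : ((HOS L → ℝ) × (InfinitePlace L → ℝ)) →ₗ[ℝ] ((S → ℝ) × (InfinitePlace L → ℝ)) where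
  toFun x := (fun v => x.1 v, x.2)
  map_add' _ _ := rfl
  map_smul' _ _ := rfl

open scoped Classical

variable (an : An ℂ_[p] 2 (om N) (fun _ => om N) Dom)

noncomputable def phi : G ι V S an →+ V.map (pj S) :=
  AddMonoidHom.mk' (fun x => ⟨pj S (lv (x.1.1.toMul : L)), Submodule.mem_map_of_mem x.2.1⟩) (by
    rintro ⟨⟨u, t⟩, _⟩ ⟨⟨u', t'⟩, _⟩
    refine Subtype.ext ?_
    change pj S (lv ((u.toMul : L) * u'.toMul)) = pj S _ + pj S _
    rw [lv_mul (Units.ne_zero _) (Units.ne_zero _), map_add])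

lemma norm_phi (x : G ι V S an) : ‖phi ι V S an x‖ = ‖pj S (lv (x.1.1.toMul : L))‖ := rfl

lemma phi_le (x : G ι V S an) {B : ℝ} (B0 : 0 ≤ B) (h1 : Sz (x.1.1.toMul : L) B) : ‖phi ι V S an x‖ ≤ B := by
  rw [norm_phi, Prod.norm_def, max_le_iff, pi_norm_le_iff_of_nonneg B0, pi_norm_le_iff_of_nonneg B0]
  exact ⟨fun v => h1.1 v, fun w => h1.2 w⟩

lemma phi_small (N1 : 1 ≤ N) (DN : D ≤ N) (dL : finrank ℚ L ≤ D) (x : G ι V S an)
    (h : ‖phi ι V S an x‖ < 1 / 2) : x.1.2 = 0 ∧ phi ι V S an x = 0 := by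
  obtain ⟨⟨u, t⟩, a0, a1, a2, a3⟩ := x
  have δ0 : (0 : ℝ) < 1 / 2 := by norm_num
  rw [norm_phi, Prod.norm_def, max_lt_iff, pi_norm_lt_iff δ0, pi_norm_lt_iff δ0] at h
  obtain ⟨h1, h2⟩ := h
  have hv : ∀ v : HOS L, v.valuation L (u.toMul : L) = 1 := fun v => by
    by_cases k : v ∈ S
    swap
    · exact a1.2 v k
    have b : |((WithZero.log (v.valuation L (u.toMul : L)) : ℤ) : ℝ)| < 1 :=
      (h1 ⟨v, k⟩).trans (by norm_num)
    have b : WithZero.log (v.valuation L (u.toMul : L)) = 0 := Int.abs_lt_one_iff.1 (by exact_mod_cast b)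
    rw [← WithZero.exp_log (x := v.valuation L (u.toMul : L)) (by simp), b, WithZero.exp_zero]
  obtain ⟨t0, hu⟩ := key ι an N1 DN dL (Units.ne_zero _) hv h2 a2 a3
  refine ⟨t0, Subtype.ext ?_⟩
  change pj S (lv (u.toMul : L)) = 0
  rw [hu, lv_one, map_zero]

include an in
lemma coords [FiniteDimensional ℝ V] {n R : ℕ} (hn : finrank ℝ V ≤ n) (nR : n ≤ R) (N1 : 1 ≤ N) (DN : D ≤ N)
    (dL : finrank ℚ L ≤ D) : ∃ c : Fin n → ℂ_[p], ∀ (u : L) (t : ℂ_[p]) (B : ℝ), 0 ≤ B → lv u ∈ V → SU S u →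
    ‖t‖ ≤ om N → exp t = ι u → Sz u B → ∃ a : Fin n → ℤ, t = ∑ k, c k * a k ∧
      ∀ k, |(a k : ℝ)| ≤ Real.exp (3 * R ^ 2) * (2 * B) := by
  obtain ⟨y, hy⟩ := lat n (V.map (pj S)) ((Submodule.finrank_map_le _ _).trans hn) (G ι V S an)
    (phi ι V S an) (1 / 2) (by norm_num) fun x hx => (phi_small ι V S an N1 DN dL x hx).2
  refine ⟨fun k => (y k).1.2, fun u t B B0 a0 a1 a2 a3 a4 => ?_⟩
  set x : G ι V S an := ⟨(Additive.ofMul (Units.mk0 u a1.1), t), a0, a1, a2, a3⟩ with hx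
  obtain ⟨a, e, ha⟩ := hy x
  refine ⟨a, ?_, fun k => ?_⟩
  · have := (phi_small ι V S an N1 DN dL (x - ∑ k, a k • y k) (by
      rw [map_sub, map_sum]
      simp only [map_zsmul]
      rw [← e, sub_self, norm_zero]; norm_num)).1
    simp only [AddSubgroupClass.coe_sub, AddSubmonoidClass.coe_finsetSum, AddSubgroupClass.coe_zsmul, Prod.snd_sub,
      Prod.snd_sum, Prod.smul_snd, zsmul_eq_mul, sub_eq_zero] at this
    exact this.trans (sum_congr rfl fun k _ => mul_comm _ _)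
  · have b := (ha k).trans (mul_le_mul_of_nonneg_left (phi_le ι V S an x B0 a4) (Real.exp_pos _).le)
    have : (n : ℝ) ≤ R := by exact_mod_cast nR
    have := pow_le_pow_left₀ (Nat.cast_nonneg _) this 2
    have := mul_le_mul_of_nonneg_right (Real.exp_le_exp.2 (show 3 * (n : ℝ) ^ 2 ≤ 3 * R ^ 2 by linarith)) B0
    linarith

end Coord4

theorem coord (h1 : CoreStmt) (h2 : LvStmt) : CoordStmt := by
  intro p _ ι R N D h L _ p2 dL h1' DN G n nR hG I t J A0 B a b tb hB hI hII hc hA DA aL bL a0 b0 ha hb abG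
    e1 e2 e3
  classical
  obtain ⟨V, fV, dV, hV⟩ := hG
  obtain ⟨hF, hi, hu⟩ := anp p
  have hp : p.Prime := Fact.out
  have D1 : 1 ≤ D := finrank_pos.trans_le dL
  have DN' : D ≤ N := (Nat.le_mul_of_pos_right _ h1').trans DN
  have N1 : 1 ≤ N := D1.trans DN'
  have hpq : ¬ p ∣ 2 := fun k => p2 ((Nat.prime_dvd_prime_iff_eq hp Nat.prime_two).1 k)
  have ω0 : 0 < om N := Real.exp_pos _
  have an := an_ultra hF Nat.prime_two.pos (hu 2 hpq) ω0.le (LOCP.om_le N1).2 hi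
  obtain ⟨S, hS⟩ := Coord4.exists_S (K := L) (Subtype.val ⁻¹' (insert a (insert b I) : Finset Qb))
    ((Finset.finite_toSet _).preimage Subtype.val_injective.injOn)
  obtain ⟨c, hcc⟩ := Coord4.coords ι V S an dV nR N1 DN' dL
  have B0 : 0 ≤ B := le_trans (by positivity) hB
  have key : ∀ (x y : Qb) (s : ℂ_[p]), x ∈ (insert a (insert b I) : Finset Qb) →
      y ∈ (insert a (insert b I) : Finset Qb) → x ∈ L → y ∈ L → x ≠ 0 → y ≠ 0 → Hs x (Real.exp B) →
      Hs y (Real.exp B) → x / y ∈ G → ι x = ι y * exp s → ‖s‖ ≤ om N → ∃ a : Fin n → ℤ, s = ∑ k, c k * a k ∧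
        ∀ k, |(a k : ℝ)| ≤ Real.exp (3 * R ^ 2) * (4 * D * B) := by
    intro x y s mx my xL yL x0 y0 hx hy xy es ns
    have x0' : (⟨x, xL⟩ : L) ≠ 0 := fun k => x0 (congrArg Subtype.val k)
    have y0' : (⟨y, yL⟩ : L) ≠ 0 := fun k => y0 (congrArg Subtype.val k)
    have i0 : ι y ≠ 0 := by simpa using y0
    obtain ⟨a, k1, k2⟩ := hcc (⟨x, xL⟩ / ⟨y, yL⟩) s (2 * D * B) (by positivity) (hV _ (by simpa using xy))
      (Coord4.SU.div (hS _ mx x0') (hS _ my y0')) ns
      (by rw [IntermediateField.coe_div, map_div₀, es, mul_div_cancel_left₀ _ i0])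
      (h2 L D dL _ _ B B0 x0' y0' hx hy)
    exact ⟨a, k1, fun k => (k2 k).trans_eq (by ring)⟩
  obtain ⟨β, eb, hβ⟩ := key a b tb (by simp) (by simp) aL bL a0 b0 ha hb abG e1 e2
  have β0 : β ≠ 0 := by
    rintro rfl
    exact e3 (by simpa using eb)
  have q0 : (0 : ℝ) < 2 * 2 ^ J := by positivity
  have D0 : (0 : ℝ) < D := by exact_mod_cast D1
  have A1 : (0 : ℝ) < A0 := by exact_mod_cast D1.trans DA
  have ne : I.Nonempty := by
    rw [← card_pos, ← Nat.cast_pos (α := ℝ)]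
    exact (mul_pos_iff_of_pos_right q0).1 (lt_of_lt_of_le (by positivity) hc)
  obtain ⟨i0, hi0⟩ := ne
  have nt : ∀ i ∈ I, ∀ j ∈ I, ‖t i - t j‖ ≤ om N := fun i hi j hj => by
    rw [sub_eq_add_neg]
    exact (IsUltrametricDist.norm_add_le_max _ _).trans
      (max_le (hI i hi).2.2.2 (by rw [norm_neg]; exact (hI j hj).2.2.2))
  have ex : ∀ i, ∃ a : Fin n → ℤ, i ∈ I → t i - t i0 = ∑ k, c k * a k ∧
      ∀ k, |(a k : ℝ)| ≤ Real.exp (3 * R ^ 2) * (4 * D * B) := fun i => by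
    by_cases hi : i ∈ I
    · obtain ⟨a, ha⟩ := key i i0 _ (by simp [hi]) (by simp [hi0]) (hI i hi).1 (hI i0 hi0).1 (hI i hi).2.1
        (hI i0 hi0).2.1 ((hI i hi).2.2.1.mono (Real.exp_le_exp.2 hB))
        ((hI i0 hi0).2.2.1.mono (Real.exp_le_exp.2 hB)) (hII i hi i0 hi0).1 (hII i hi i0 hi0).2 (nt i hi i0 hi0)
      exact ⟨a, fun _ => ha⟩
    · exact ⟨0, fun h => absurd h hi⟩
  choose μ hμ using ex
  cases n with
  | zero => exact absurd (Subsingleton.elim _ _) β0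
  | succ m =>
    rw [eb]
    refine h1 ℂ_[p] 2 R N D h _ _ Nat.prime_two (by norm_num) an ι
      (fun θ M hM h => (LOCP.norm_le ι h.1).trans hM) L dL h1' DN (fun ζ hζ => ?_) m Qb I μ β c id _ J A0 nR β0 hβ
      (fun i hi => (hμ i hi).2) hA DA (fun i hi => ⟨(hI i hi).1, (hI i hi).2.1, ?_⟩)
      (fun i hi j hj e => ?_) (fun i hi j hj => ?_) ?_
    · rcases sq_eq_one_iff.1 hζ with k | k <;> simp [k]
    · simpa using (hI i hi).2.2.1
    · simp only at e
      rw [← (hμ i hi).1, ← (hμ j hj).1] at e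
      have := (hII i hi j hj).2
      rw [sub_left_injective e, sub_self, exp_zero, mul_one] at this
      exact ι.injective this
    · rw [← (hμ i hi).1, ← (hμ j hj).1, sub_sub_sub_cancel_right]
      exact ⟨(hII i hi j hj).2, nt i hi j hj⟩
    · rw [pow_succ, ← mul_assoc] at hc
      simpa using le_of_mul_le_mul_right hc q0

end Pool.Agent.Szpiro98.V4
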