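import Pool.Agent.Lib.Szpiro98.Blue4

namespace Pool.Agent.Szpiro98.V4

open Finset Module NormedSpace Core

section
/-- The state of the descent at one level. -/
structure St {F : Type} [NormedField F] (q R N h : ℕ) (W : ℝ → ℝ) (ι : Qb →+* F) (L : IntermediateField ℚ Qb)
    {κ : Type} {m n : ℕ} (p : κ → ℤ) (lam : κ → Fin m → ℤ) (μ : κ → Fin n → ℤ) (I : Finset κ) (z : κ → Qb)
    (c : Fin n → F) (τ A k : ℕ) : Prop where
  ne : ∃ i ∈ I, p i ≠ 0
  hz : ∀ i ∈ I, z i ≠ 0 ∧ Hs (z i) (Real.exp (h * τ)) ∧ z i ^ k ∈ L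
  hr : ∀ i ∈ I, ∀ j ∈ I, z i / z j ∈ L ∧ ι (z i) = ι (z j) * exp (lf c (μ i) - lf c (μ j)) ∧
    ‖lf c (μ i) - lf c (μ j)‖ ≤ W (N * τ)
  van : Van q p lam I z (2 * (2 * R + 1) * τ) A

variable {F : Type} [NormedField F] [CharZero F] {q R N D h : ℕ} {W : ℝ → ℝ} {Dom : AddSubgroup F}
  (an : An F q (om N) W Dom) {ι : Qb →+* F} (hι : ∀ θ M, 1 ≤ M → Hs θ M → ‖ι θ‖ ≤ M) (hq : q.Prime) (q3 : q ≤ 3)
  (N1 : 1 ≤ N) {κ : Type} {m n : ℕ} {p : κ → ℤ} {lam : κ → Fin m → ℤ} {μ : κ → Fin n → ℤ}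
  {L : IntermediateField ℚ Qb} [FiniteDimensional ℚ L] (hL : finrank ℚ L ≤ D) (Dh : D * h ≤ N)

include an hι hq q3 N1 in
lemma dbl4 {I : Finset κ} {i0 : κ} (h0 : i0 ∈ I) {z : κ → Qb} {d : κ → F} {u0 : F} {u : Fin m → F}
    {τ A T0 k Z D h : ℕ} {δ : ℝ} (τ1 : 1 ≤ τ) (A1 : 1 ≤ A) (z0 : z i0 ≠ 0)
    (hz : ∀ i ∈ I, ι (z i) = ι (z i0) * exp (d i) ∧ ‖d i‖ ≤ W (N * τ) ∧ ‖d i - (u0 + ∑ k, u k * lam i k)‖ ≤ δ)
    (hδ : δ * (24 * Z) ^ (Z + 1) ≤ om N ^ Z) {L : IntermediateField ℚ Qb} [FiniteDimensional ℚ L]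
    (hD : finrank ℚ L ≤ D) (Dh : D * h ≤ N) (hρ : ∀ i ∈ I, Hs (z i) (Real.exp (h * τ)) ∧ z i / z i0 ∈ L) (k0 : 0 < k)
    (zk : z i0 ^ k ∈ L) (hE : ∀ α : Fin m → ℕ, ∑ k, α k ≤ T0 →
      ∑ i ∈ I, |((p i * mon (lam i) α : ℤ) : ℝ)| ≤ Real.exp (40 * (h * (A * τ)))) (r : ℕ) :
    ∀ T, T + r * τ ≤ T0 → 2 ^ r * A * τ ≤ Z → Van q p lam I z (T + r * τ) A → Van q p lam I z T (2 ^ r * A) := by
  induction r with
  | zero => intro T _ _ h; simpa using h
  | succ r ih =>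
    intro T h1 h2 h3 α hα a ha
    have e : T + (r + 1) * τ = T + τ + r * τ := by ring
    have hZ : 2 ^ r * A * τ ≤ Z := le_trans (by rw [pow_succ]; nlinarith [Nat.zero_le (2 ^ r * A * τ)]) h2
    have A2 : A ≤ 2 ^ r * A := Nat.le_mul_of_pos_left _ (by positivity)
    have hs : q * a + 1 ≤ 2 * q * (2 ^ r * A) := by
      have := hq.pos; rw [pow_succ] at ha; nlinarith
    refine ext_step an hι hq q3 N1 h0 (e := 0) τ1 (A1.trans A2) z0 hz hZ hδ (ih _ (e ▸ h1) hZ (e ▸ h3)) hD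
      (fun i hi => by simpa using ⟨(hz i hi).1, an.dom _ _ (hz i hi).2.1, hρ i hi⟩) z0 k0 zk hα
      (hE α (by omega)) (by positivity) (by positivity) (by simpa using hs) ?_
    have a1 : ((q * a + 1 : ℕ) : ℝ) ≤ 6 * (2 ^ r * A : ℕ) := by exact_mod_cast hs.trans (by nlinarith)
    have a2 : (A : ℝ) ≤ (2 ^ r * A : ℕ) := by exact_mod_cast A2
    have a3 : (0 : ℝ) ≤ h * τ := by positivity
    have d1 : (1 : ℝ) ≤ D := by exact_mod_cast finrank_pos.trans_le hD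
    have d2 : (D : ℝ) * h ≤ N := by exact_mod_cast Dh
    have b1 := mul_le_mul_of_nonneg_left a1 a3
    have b2 := mul_le_mul_of_nonneg_left a2 a3
    generalize ((2 ^ r * A : ℕ) : ℝ) = A' at *
    have a0 : 0 ≤ A' := (Nat.cast_nonneg _).trans a2
    calc _ ≤ (3 * D) * (46 * (h * τ * A')) := mul_le_mul (by linarith) (by linarith) (by positivity) (by positivity)
      _ = 138 * (D * h) * (A' * τ) := by ring
      _ ≤ 138 * N * (A' * τ) := by gcongr
      _ ≤ _ := by nlinarith [show (0 : ℝ) ≤ N * (A' * τ) by positivity]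

include an hι hq q3 N1 hL Dh

lemma step (hμ : ∀ ζ : Qb, ζ ^ q = 1 → ζ ∈ L) (R1 : 1 ≤ R) (nN : n ≤ R) {I : Finset κ} {z : κ → Qb} {c : Fin n → F}
    {τ A k Z : ℕ} {δ : ℝ} {u : Fin m → F} (τ1 : 1 ≤ τ) (A1 : 1 ≤ A) (k0 : 0 < k)
    (S : St q R N h W ι L p lam μ I z c (q * τ) A k)
    (hu : ∀ i ∈ I, ∀ j ∈ I, ‖lf c (μ i) - lf c (μ j) - (∑ k, u k * lam i k - ∑ k, u k * lam j k)‖ ≤ δ)
    (hZ : 4 ^ R * A * (q * τ) ≤ Z) (hδ : δ * (24 * Z) ^ (Z + 1) ≤ om N ^ Z)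
    (hE : ∀ α : Fin m → ℕ, ∑ k, α k ≤ 2 * (2 * R + 1) * (q * τ) →
      ∑ i ∈ I, |((p i * mon (lam i) α : ℤ) : ℝ)| ≤ Real.exp (40 * (h * (A * (q * τ : ℕ))))) :
    ∃ I' ⊆ I, ∃ z', St q R N h W ι L p lam μ I' z' (fun k => c k / q) τ (q * A) (q * k) := by
  classical
  obtain ⟨i0, h0, p0⟩ := S.ne
  have q2 := hq.two_le
  have q0 : (q : F) ≠ 0 := by exact_mod_cast hq.ne_zero
  have t1 : 1 ≤ q * τ := Nat.mul_pos hq.pos τ1
  have z0 := (S.hz i0 h0).1
  set d : κ → F := fun i => lf c (μ i) - lf c (μ i0) with hd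
  have hz : ∀ i ∈ I, ι (z i) = ι (z i0) * exp (d i) ∧ ‖d i‖ ≤ W (N * (q * τ : ℕ)) ∧
      ‖d i - (-(∑ k, u k * lam i0 k) + ∑ k, u k * lam i k)‖ ≤ δ := fun i hi =>
    ⟨(S.hr i hi i0 h0).2.1, (S.hr i hi i0 h0).2.2, by rw [neg_add_eq_sub]; exact hu i hi i0 h0⟩
  have e4 : 2 ^ (2 * R) = 4 ^ R := by rw [pow_mul]; norm_num
  have i1 := Nat.mul_le_mul_left ((2 * R + 1) * τ) q2
  have i2 : 2 * (2 * R + 1) * τ + q * τ + 2 * R * (q * τ) ≤ 2 * (2 * R + 1) * (q * τ) := by nlinarith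
  have V := dbl4 an hι hq q3 N1 h0 t1 A1 z0 hz hδ hL Dh (fun i hi => ⟨(S.hz i hi).2.1, (S.hr i hi i0 h0).1⟩) k0
    (S.hz i0 h0).2.2 hE (2 * R) (2 * (2 * R + 1) * τ + q * τ) i2 (e4 ▸ hZ)
    fun α hα => S.van α (hα.trans i2)
  rw [e4] at V
  have hW : ∀ i ∈ I, ∀ j ∈ I, ‖(lf c (μ i) - lf c (μ j)) / q‖ ≤ W (N * τ) := fun i hi j hj =>
    an.div _ _ (by have := (S.hr i hi j hj).2.2; push_cast at this; rwa [mul_left_comm])
  have hD : ∀ i ∈ I, d i / q ∈ Dom := fun i hi => an.dom _ _ (hW i hi i0 h0)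
  have hq' : ∀ i ∈ I, exp (d i / q) ^ q = exp (d i) := fun i hi => by
    rw [← exp_nat an (hD i hi), div_mul_cancel₀ _ q0]
  obtain ⟨r0, hr0⟩ := IsAlgClosed.exists_pow_nat_eq (z i0) hq.pos
  have : ∀ i, ∃ r, i ∈ I → ι r = ι r0 * exp (d i / q) ∧ r ^ q = z i := fun i => by
    by_cases hi : i ∈ I
    · obtain ⟨r, h⟩ := exists_root ι hq.pos (w := ι r0 * exp (d i / q)) (y := z i)
        (by rw [mul_pow, ← map_pow, hr0, hq' i hi, (hz i hi).1])
      exact ⟨r, fun _ => h⟩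
    · exact ⟨0, fun h => absurd h hi⟩
  choose ρ hρ using this
  have ρ0 : ρ i0 = r0 := ι.injective (by simp [(hρ i0 h0).1, hd])
  subst ρ0
  have ρn : ∀ i ∈ I, ρ i ≠ 0 := fun i hi h => (S.hz i hi).1 (by rw [← (hρ i hi).2, h, zero_pow hq.ne_zero])
  have ρH : ∀ i ∈ I, Hs (ρ i) (Real.exp (h * τ)) := fun i hi => Hs.root hq.pos (Real.exp_pos _).le (by
    rw [(hρ i hi).2, ← Real.exp_nat_mul, mul_left_comm]; simpa using (S.hz i hi).2.1)
  have ρq : ∀ i ∈ I, (ρ i / ρ i0) ^ q = z i / z i0 := fun i hi => by rw [div_pow, (hρ i hi).2, hr0]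
  have ι0 := (map_ne_zero ι).2 (ρn i0 h0)
  obtain ⟨L', f, l1, l2, l3⟩ := deg an hq.pos ι (fun k => c k / q) L
  have m1 : ∀ i ∈ I, ρ i / ρ i0 ∈ L' := fun i hi => by
    have e : ∑ k, c k / q * ((μ i - μ i0) k : ℤ) = d i / q := by
      rw [← lf, lf_div, lf_sub]
    obtain ⟨-, y, y1, y2⟩ := l3 (x := μ i - μ i0) ⟨e ▸ hD i hi, _, (S.hr i hi i0 h0).1, by
      rw [e, hq' i hi, map_div₀, (hz i hi).1, mul_div_cancel_left₀ _ ((map_ne_zero ι).2 z0)]⟩
    rwa [show ρ i / ρ i0 = y from ι.injective (by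
      rw [y2, e, pow_one, map_div₀, (hρ i hi).1, mul_div_cancel_left₀ _ ι0])]
  have ρk : ∀ i ∈ I, ρ i ^ (q * k) ∈ L := fun i hi => by rw [pow_mul, (hρ i hi).2]; exact (S.hz i hi).2.2
  have f4 : 4 ≤ 4 ^ R := Nat.le_self_pow (by omega) 4
  refine ⟨I.filter fun i => ρ i / ρ i0 ∈ L, filter_subset _ _, ρ, ⟨i0, mem_filter.2 ⟨h0, by
    rw [div_self (ρn i0 h0)]; exact one_mem _⟩, p0⟩, fun i hi => ?_, fun i hi j hj => ?_, fun α hα a ha => ?_⟩
  · have := (mem_filter.1 hi).1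
    exact ⟨ρn i this, ρH i this, ρk i this⟩
  · obtain ⟨hi, li⟩ := mem_filter.1 hi
    obtain ⟨hj, lj⟩ := mem_filter.1 hj
    rw [lf_div, lf_div, ← sub_div]
    refine ⟨by simpa [div_div_div_cancel_right₀ (ρn i0 h0)] using div_mem li lj, ?_, hW i hi j hj⟩
    rw [(hρ i hi).1, (hρ j hj).1, mul_assoc, ← an.add _ (hD j hj) _ (an.dom _ _ (hW i hi j hj))]
    congr 2; simp only [hd]; ring
  have hs : q * a + 1 ≤ q * (q * A) := by nlinarith
  have v := ext_step an hι hq q3 N1 h0 (e := 1) (s := q * a + 1) t1 (Nat.mul_pos (by omega) A1) z0 hz hZ hδ V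
    (l2.trans (Nat.mul_le_mul hL ((Nat.pow_le_pow_left (q3.trans (by norm_num : 3 ≤ 4)) n).trans
      (Nat.pow_le_pow_right (by norm_num) nN))))
    (fun i hi => by simpa using ⟨(hρ i hi).1, hD i hi, ρH i hi, m1 i hi⟩) (ρn i0 h0) (Nat.mul_pos hq.pos k0)
    (l1 (ρk i0 h0)) hα (hE α (by omega)) (by positivity) (by positivity)
    (hs.trans (by rw [pow_one]; nlinarith [Nat.zero_le (q * q * A)])) (by
      have a1 : ((q * a + 1 : ℕ) : ℝ) ≤ 3 * (q * A) := by exact_mod_cast hs.trans (Nat.mul_le_mul_right _ q3)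
      have a2 : (4 : ℝ) ≤ 4 ^ R := by exact_mod_cast f4
      have a3 := mul_le_mul_of_nonneg_left a1 (by positivity : (0 : ℝ) ≤ h * τ)
      have d1 : (1 : ℝ) ≤ D := by exact_mod_cast finrank_pos.trans_le hL
      have d2 : (D : ℝ) * h ≤ N := by exact_mod_cast Dh
      have d3 : (1 : ℝ) ≤ D * 4 ^ R := one_le_mul_of_one_le_of_one_le d1 (by linarith)
      push_cast at *
      calc _ ≤ (3 * (D * 4 ^ R) : ℝ) * (43 * (h * (A * (q * τ)))) :=
            mul_le_mul (by linarith) (by linarith) (by positivity) (by positivity)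
        _ = 129 * (D * h) * (4 ^ R * A * (q * τ)) := by ring
        _ ≤ 129 * N * (4 ^ R * A * (q * τ)) := by gcongr
        _ ≤ _ := by nlinarith [show (0 : ℝ) ≤ N * (4 ^ R * A * (q * τ)) by positivity])
  have w := kummer_split hq L hμ I (fun i => p i * mon (lam i) α) (fun i => (ρ i / ρ i0) ^ (q * a + 1))
    (fun i hi => by rw [pow_right_comm, ρq i hi]; exact pow_mem (S.hr i hi i0 h0).1 _) (by
      simp only [div_pow, ← mul_div_assoc]; rw [← sum_div, v, zero_div])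
  rw [filter_congr (q := fun i => ρ i / ρ i0 ∈ L) fun i hi => by
    have := pow_mem (S.hr i hi i0 h0).1 a
    rw [pow_succ, pow_mul, ρq i hi]
    exact ⟨fun h => by simpa [(S.hz i hi).1, z0] using mul_mem (inv_mem this) h, mul_mem this⟩] at w
  simp only [div_pow, ← mul_div_assoc] at w
  rwa [← sum_div, div_eq_zero_iff, or_iff_left (pow_ne_zero _ (ρn i0 h0))] at w

omit hq q3 in
lemma last (h1 : 1 ≤ h) {I : Finset κ} {z : κ → Qb} {c : Fin n → F} {A k : ℕ} (A1 : 1 ≤ A) (k0 : 0 < k)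
    (S : St q R N h W ι L p lam μ I z c 1 A k) (inj : Set.InjOn (fun i => lf c (μ i)) I) : False := by
  obtain ⟨i0, h0, p0⟩ := S.ne
  have n1 : (1 : ℝ) ≤ N := by exact_mod_cast N1
  have o := om_small N1
  have z0 := (S.hz i0 h0).1
  have : ∀ i ∈ I, i = i0 := fun i hi => by
    obtain ⟨a, b, e⟩ := S.hr i hi i0 h0
    set t := lf c (μ i) - lf c (μ i0) with ht
    have e1 : ‖t‖ ≤ N * om N := by simpa using e.trans (an.small _ (by simpa using n1))
    have e2 := an.near t (by linarith)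
    have e3 : ‖exp t - 1‖ ≤ 2 * ‖t‖ := by
      have := norm_add_le (exp t - 1 - t) t
      rw [sub_add_cancel] at this; linarith [norm_nonneg t]
    have g1 : (1 : ℝ) ≤ h := by exact_mod_cast h1
    have d1 : (1 : ℝ) ≤ D := by exact_mod_cast finrank_pos.trans_le hL
    have d2 : (D : ℝ) * h ≤ N := by exact_mod_cast Dh
    have H : ∀ j ∈ I, Hs (z j) (Real.exp h) := fun j hj => by simpa using (S.hz j hj).2.1
    have e4 : z i - z i0 = 0 := zero ι hι an.int_ge (G := 2 * h) (y := 1) (by positivity)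
      (((H i hi).sub (H i0 h0)).mono (by
        have := Real.add_one_le_exp (h : ℝ)
        rw [two_mul, Real.exp_add]; nlinarith)) k0 (by
        rw [show z i - z i0 = z i0 * (z i / z i0 - 1) by field_simp, mul_pow]
        exact mul_mem (S.hz i0 h0).2.2 (pow_mem (sub_mem a (one_mem _)) _)) hL N1 le_rfl (by push_cast; nlinarith) (by
        rw [map_sub, b, ← mul_sub_one, norm_mul, pow_one, Nat.cast_one, mul_one]
        refine mul_le_mul ((hι _ _ (Real.one_le_exp (by linarith)) (H i0 h0)).trans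
          ((Real.exp_le_exp.2 (by linarith)).trans
          (le_mul_of_one_le_right (by positivity) (Real.one_le_exp (by linarith))))) (by linarith [norm_nonneg t])
          (norm_nonneg _) (by positivity))
    rw [sub_eq_zero.1 e4, eq_comm, mul_eq_left₀ ((map_ne_zero ι).2 z0)] at b
    rw [b, sub_self, zero_sub, norm_neg] at e2
    exact inj hi h0 (sub_eq_zero.1 (norm_le_zero_iff.1 (by linarith)))
  have v := S.van 0 (by simp) 0 A1
  rw [sum_eq_single_of_mem i0 h0 fun i hi h => absurd (this i hi) h] at v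
  simp [mon, p0, z0] at v

end

lemma start {q R D h m τ A : ℕ} (q1 : 1 ≤ q) (q3 : q ≤ 3) (mN : m + 1 ≤ R) (h1 : 1 ≤ h) (DA : D ≤ A) (τ1 : 1 ≤ τ) (A1 : 1 ≤ A)
    (L : IntermediateField ℚ Qb) [FiniteDimensional ℚ L] (hL : finrank ℚ L ≤ D) {κ : Type} (I : Finset κ)
    (lam : κ → Fin m → ℤ) (z : κ → Qb) {Y : ℝ} (Y2 : 2 ≤ Y) (hY : 3 * R * Real.log Y ≤ A)
    (hl : ∀ i ∈ I, ∀ k, |(lam i k : ℝ)| ≤ Y) (hz : ∀ i ∈ I, z i ∈ L ∧ Hs (z i) (Real.exp (h * τ)))
    (hc : 4 * D * A * Real.exp (6 * R) * (2 * τ) ^ m ≤ I.card) :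
    ∃ I' ⊆ I, ∃ p : κ → ℤ, (∃ i ∈ I', p i ≠ 0) ∧ Van q p lam I' z (2 * (2 * R + 1) * τ) A ∧
      ∀ α : Fin m → ℕ, ∑ k, α k ≤ 2 * (2 * R + 1) * τ →
        ∑ i ∈ I', |((p i * mon (lam i) α : ℤ) : ℝ)| ≤ Real.exp (40 * (h * (A * τ))) := by
  classical
  set T := 2 * (2 * R + 1) * τ with hT
  have Y1 : 1 ≤ Y := by linarith
  have n1 : (1 : ℝ) ≤ h := by exact_mod_cast h1
  have t1 : (1 : ℝ) ≤ τ := by exact_mod_cast τ1
  have a1 : (1 : ℝ) ≤ A := by exact_mod_cast A1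
  have D1 : 0 < D := finrank_pos.trans_le hL
  have da : (D : ℝ) ≤ A := by exact_mod_cast DA
  set B : ℝ := h * (A * τ) with hB
  have rn : (R : ℝ) ≤ A := by
    have := Real.log_le_log two_pos Y2
    have := Real.log_two_gt_d9
    nlinarith [Nat.cast_nonneg (α := ℝ) R]
  have T6 : T ≤ 6 * R * τ := Nat.mul_le_mul_right _ (by omega)
  have cm := card_mons (m := m) τ1 T6
  have c1 : ((4 * D * ((mons m T).card * A) : ℕ) : ℝ) ≤ 4 * D * A * Real.exp (6 * R) * (2 * τ) ^ m := by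
    push_cast at cm ⊢
    calc _ = (4 * D * A : ℝ) * (mons m T).card := by ring
      _ ≤ (4 * D * A : ℝ) * (Real.exp (6 * R) * (2 * τ) ^ m) := by gcongr
      _ = _ := by ring
  obtain ⟨I', s, hI⟩ := exists_subset_card_eq (s := I) (n := 4 * D * ((mons m T).card * A))
    (by exact_mod_cast c1.trans hc)
  have : Nonempty I' := (card_pos.1 (by
    have := card_pos.2 ⟨_, mem_mons (m := m) (T := T) (α := 0) (by simp)⟩
    rw [hI]; positivity)).to_subtype
  have b0 : A * (τ : ℝ) ≤ B := le_mul_of_one_le_left (by positivity) n1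
  have b2 : A ≤ B := (le_mul_of_one_le_right (by positivity) t1).trans b0
  have b1 : 1 ≤ B := a1.trans b2
  have y1 : Y ^ T ≤ Real.exp (2 * B) := by
    rw [← Real.exp_log (by linarith : 0 < Y), ← Real.exp_nat_mul, Real.exp_le_exp]
    have : (T : ℝ) ≤ 6 * R * τ := by exact_mod_cast T6
    have := mul_le_mul_of_nonneg_right this (Real.log_nonneg Y1)
    have := mul_le_mul_of_nonneg_right hY (by positivity : (0 : ℝ) ≤ τ)
    linarith
  have c2 : (I'.card : ℝ) ≤ Real.exp (13 * B) := by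
    have e1 : (4 * D : ℝ) ≤ Real.exp (5 * B) := by linarith [Real.add_one_le_exp (5 * B)]
    have e2 : (A : ℝ) ≤ Real.exp B := by linarith [Real.add_one_le_exp B]
    have e3 : (2 * τ : ℝ) ^ m ≤ Real.exp B := by
      refine (pow_le_pow_left₀ (by positivity) Real.two_mul_le_exp _).trans ?_
      rw [← Real.exp_nat_mul, Real.exp_le_exp]
      refine le_trans ?_ b0
      have : (m : ℝ) ≤ R := by exact_mod_cast (by omega : m ≤ R)
      exact mul_le_mul_of_nonneg_right (this.trans rn) (by positivity)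
    calc _ ≤ _ := hI ▸ c1
      _ ≤ Real.exp (5 * B) * Real.exp B * Real.exp (6 * B) * Real.exp B := by gcongr; linarith
      _ = _ := by simp only [← Real.exp_add]; ring_nf
  obtain ⟨p, p0, p1, p2⟩ := siegel (E := mons m T × Fin A) (I := I') L hL
    (fun e i => mon (lam i) e.1 * z i ^ (q * e.2 + 1))
    (fun e i => mul_mem (intCast_mem _ _) (pow_mem (hz i (s i.2)).1 _)) (A := Real.exp (5 * B))
    (Real.one_le_exp (by positivity)) (fun e i => ((Hs.int _).mul ((hz i (s i.2)).2.pow _)).mono (by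
      have h1 := (mon_le Y1 (hl i (s i.2)) (mem_filter.1 e.1.2).2).trans y1
      have h2 : ((q * e.2 + 1 : ℕ) : ℝ) ≤ 3 * A := by
        have := e.2.2
        exact_mod_cast (by nlinarith : q * e.2 + 1 ≤ 3 * A)
      have h3 := mul_le_mul_of_nonneg_right h2 (by positivity : (0 : ℝ) ≤ h * τ)
      rw [← Real.exp_nat_mul, show 5 * B = 2 * B + 3 * B by ring, Real.exp_add]
      exact mul_le_mul h1 (Real.exp_le_exp.2 (by linarith)) (by positivity) (by positivity))) (by simp [hI])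
  refine ⟨I', s, fun i => if h : i ∈ I' then p ⟨i, h⟩ else 0, ?_, fun α hα a ha => ?_, fun α hα => ?_⟩
  · obtain ⟨i, hi⟩ := Function.ne_iff.1 p0
    exact ⟨i, i.2, by simpa using hi⟩
  · rw [← p2 (⟨α, mem_mons hα⟩, ⟨a, ha⟩), ← sum_coe_sort]
    exact sum_congr rfl fun i _ => by simp [mul_assoc]
  · have e1 : (8 : ℝ) ≤ Real.exp (7 * B) := by linarith [Real.add_one_le_exp (7 * B)]
    rw [Fintype.card_coe] at p1
    calc _ ≤ ∑ _i ∈ I', 8 * I'.card * Real.exp (5 * B) * Real.exp (2 * B) := sum_le_sum fun i hi => by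
          simp only [dif_pos hi, Int.cast_mul, abs_mul]
          exact mul_le_mul (p1 _) ((mon_le Y1 (hl i (s hi)) hα).trans y1) (abs_nonneg _) (by positivity)
      _ ≤ Real.exp (13 * B) * (Real.exp (7 * B) * Real.exp (13 * B) * Real.exp (5 * B) * Real.exp (2 * B)) := by
          rw [sum_const, nsmul_eq_mul]; gcongr
      _ = _ := by simp only [← Real.exp_add]; ring_nf

theorem core : CoreStmt := by
  intro F _ _ q R N D h W Dom hq q3 an ι hι L _ hL h1 Dh hμ m κ I μ b c z X J A0 mN b0 bX μX hA DA hz inj hr hc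
  obtain ⟨k0, hk⟩ := Function.ne_iff.1 b0
  have hk : b k0 ≠ 0 := hk
  have X1 : 1 ≤ X := le_trans (by exact_mod_cast Int.one_le_abs hk) (bX k0)
  have Y2 : 2 ≤ 2 * X ^ 2 := by nlinarith
  have D1 : 0 < D := finrank_pos.trans_le hL
  have A1 : 1 ≤ A0 := D1.trans_le DA
  have N1 : 1 ≤ N := (Nat.mul_pos D1 h1).trans_le Dh
  have q0 : (q : F) ≠ 0 := by exact_mod_cast hq.ne_zero
  have b1 : (b k0 : F) ≠ 0 := by exact_mod_cast hk
  have τ1 : ∀ j, 1 ≤ q ^ j := fun j => Nat.pow_pos hq.pos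
  set lam : κ → Fin m → ℤ := fun i k => b k0 * μ i (k0.succAbove k) - b (k0.succAbove k) * μ i k0 with hlam
  obtain ⟨I0, s0, p, p0, V, hE⟩ := start hq.pos q3 mN h1 DA (τ1 J) A1 L hL I lam z (Y := 2 * X ^ 2) Y2 hA
    (fun i hi k => by
      have a1 := mul_le_mul (bX k0) (μX i hi (k0.succAbove k)) (abs_nonneg _) (by linarith)
      have a2 := mul_le_mul (bX (k0.succAbove k)) (μX i hi k0) (abs_nonneg _) (by linarith)
      simp only [hlam, Int.cast_sub, Int.cast_mul]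
      refine (abs_sub _ _).trans ?_
      rw [abs_mul, abs_mul]; linarith)
    (fun i hi => ⟨(hz i hi).1, by simpa using (hz i hi).2.2⟩) (by simpa using hc)
  by_contra hΛ
  set Λ := ∑ k, c k * b k with hl
  set Z := 4 ^ R * A0 * q ^ J with hZ
  have z1 : q ^ J ≤ Z := Nat.le_mul_of_pos_left _ (by positivity)
  have z2 : A0 ≤ Z := (Nat.le_mul_of_pos_left _ (by positivity)).trans (Nat.le_mul_of_pos_right _ (τ1 J))
  have z3 : (1 : ℝ) ≤ Z := by exact_mod_cast A1.trans z2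
  have hδ : q ^ J * (2 * X ^ 2 * ‖Λ‖) * (24 * Z) ^ (Z + 1) ≤ om N ^ Z := by
    have l0 : 0 ≤ Real.log (24 * Z) := Real.log_nonneg (by linarith)
    have a1 : (q : ℝ) ^ J ≤ Real.exp (Real.log (24 * Z)) := by
      rw [Real.exp_log (by linarith)]
      have : (q : ℝ) ^ J ≤ Z := by exact_mod_cast z1
      linarith
    have a2 : 2 * X ^ 2 ≤ Real.exp Z := by
      have : (A0 : ℝ) ≤ Z := by exact_mod_cast z2
      have := Real.log_pos (by linarith : 1 < 2 * X ^ 2)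
      have : (1 : ℝ) ≤ R := by exact_mod_cast (by omega : 1 ≤ R)
      rw [← Real.log_le_iff_le_exp (by linarith)]; nlinarith
    have a3 : ‖Λ‖ ≤ Real.exp (-(Z * (2001 * N + 3 * Real.log (24 * Z)))) := by
      have := (not_le.1 hΛ).le
      simpa [V2.cb, hZ] using this
    have n1 : (1 : ℝ) ≤ N := by exact_mod_cast N1
    calc _ ≤ Real.exp (Real.log (24 * Z)) * (Real.exp Z * Real.exp (-(Z * (2001 * N + 3 * Real.log (24 * Z))))) *
          Real.exp (Real.log (24 * Z)) ^ (Z + 1) := by gcongr; rw [Real.exp_log (by linarith)]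
      _ ≤ _ := by
          simp only [om, ← Real.exp_nat_mul, ← Real.exp_add, Real.exp_le_exp]
          push_cast; nlinarith
  have hu : ∀ j ≤ J, ∀ i ∈ I, ∀ i' ∈ I, ‖lf (fun k => c k / q ^ j) (μ i) - lf (fun k => c k / q ^ j) (μ i') -
      (∑ k, c (k0.succAbove k) / b k0 / q ^ j * lam i k - ∑ k, c (k0.succAbove k) / b k0 / q ^ j * lam i' k)‖ ≤
        q ^ J * (2 * X ^ 2 * ‖Λ‖) := fun j hj i hi i' hi' => by
    have e : ∀ i, ∑ k, c (k0.succAbove k) / b k0 / q ^ j * lam i k = (lf c (μ i) - μ i k0 * Λ / b k0) / q ^ j :=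
      fun i => by
        simp only [lf, hl, hlam, Fin.sum_univ_succAbove _ k0, eq_div_iff (pow_ne_zero j q0), sum_mul]
        rw [mul_add, add_div, mul_sum, sum_div, add_sub_add_comm, ← sum_sub_distrib,
          show c k0 * μ i k0 - μ i k0 * (c k0 * b k0) / b k0 = 0 by field_simp; ring, zero_add]
        exact sum_congr rfl fun _ _ => by push_cast; field_simp
    have iv : ∀ n : ℤ, n ≠ 0 → ‖(n : F)⁻¹‖ ≤ |(n : ℝ)| := fun n h => by
      rw [norm_inv, inv_le_iff_one_le_mul₀ (norm_pos_iff.2 (by exact_mod_cast h))]; exact an.int_ge n h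
    have a1 : ‖((q : F) ^ j)⁻¹‖ ≤ q ^ J := by
      have := iv (q ^ j) (pow_ne_zero _ (by exact_mod_cast hq.ne_zero))
      push_cast at this
      rw [abs_of_nonneg (by positivity)] at this
      exact this.trans (pow_le_pow_right₀ (by exact_mod_cast hq.pos) hj)
    have a2 := (iv _ hk).trans (bX k0)
    have a3 : ‖((μ i k0 - μ i' k0 : ℤ) : F)‖ ≤ 2 * X := (an.int_le _).trans (by
      push_cast; linarith [abs_sub (μ i k0 : ℝ) (μ i' k0), μX i hi k0, μX i' hi' k0])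
    rw [lf_div, lf_div, e, e, show lf c (μ i) / q ^ j - lf c (μ i') / q ^ j - ((lf c (μ i) - μ i k0 * Λ / b k0) / q ^ j -
      (lf c (μ i') - μ i' k0 * Λ / b k0) / q ^ j) = ((q : F) ^ j)⁻¹ * ((μ i k0 - μ i' k0 : ℤ) * (b k0 : F)⁻¹ * Λ) by
        push_cast; ring, norm_mul, norm_mul, norm_mul, show 2 * X ^ 2 = 2 * X * X by ring]
    gcongr
  have main : ∀ j ≤ J, ∃ I' ⊆ I0, ∃ z',
      St q R N h W ι L p lam μ I' z' (fun k => c k / q ^ j) (q ^ (J - j)) (q ^ j * A0) (q ^ j) := by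
    intro j
    induction j with
    | zero =>
      refine fun _ => ⟨I0, Subset.rfl, z, p0, fun i hi => ?_, fun i hi j hj => ?_, by simpa using V⟩
      · simpa using ⟨(hz i (s0 hi)).2.1, (hz i (s0 hi)).2.2, (hz i (s0 hi)).1⟩
      · simpa [lf] using ⟨div_mem (hz i (s0 hi)).1 (hz j (s0 hj)).1, hr i (s0 hi) j (s0 hj)⟩
    | succ j ih =>
      intro hj
      obtain ⟨I', s, z', S⟩ := ih (by omega)
      have e : q ^ (J - j) = q * q ^ (J - (j + 1)) := by rw [← pow_succ']; congr 1; omega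
      have e2 : q ^ j * A0 * q ^ (J - j) = A0 * q ^ J := by
        rw [mul_comm _ A0, mul_assoc, ← pow_add]; congr 2; omega
      rw [e] at S
      obtain ⟨I'', s', z'', S'⟩ := step an hι hq q3 N1 hL Dh hμ (by omega) mN (τ1 _) (Nat.mul_pos (τ1 j) A1) (τ1 j) S
        (fun i hi i' hi' => hu j (by omega) i (s0 (s hi)) i' (s0 (s hi'))) (Z := Z)
        (by rw [← e, mul_assoc, e2, hZ, mul_assoc]) hδ fun α hα => by
          rw [← e] at hα ⊢
          rw [← Nat.cast_mul, e2, Nat.cast_mul]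
          exact (sum_le_sum_of_subset_of_nonneg s fun _ _ _ => abs_nonneg _).trans (hE α (hα.trans
            (Nat.mul_le_mul_left _ (Nat.pow_le_pow_right hq.pos (by omega)))))
      refine ⟨I'', s'.trans s, z'', ?_⟩
      simpa only [pow_succ, div_div, mul_comm q, mul_right_comm _ A0 q] using S'
  obtain ⟨I', s, z', S⟩ := main J le_rfl
  rw [Nat.sub_self, pow_zero] at S
  refine last an hι N1 hL Dh h1 (Nat.mul_pos (τ1 J) A1) (τ1 J) S fun i hi j hj h => inj (s0 (s hi)) (s0 (s hj)) ?_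
  simp only [lf_div] at h
  exact (div_left_inj' (pow_ne_zero J q0)).1 h

end Pool.Agent.Szpiro98.V4
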