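import Pool.Agent.Lib.Szpiro98.Blue4

/-! The quadratic extension attached to two embeddings is generated by the root of the discriminant. -/

namespace Pool.Agent.Szpiro98.V4

open Finset Module NumberField

lemma rho_scale {p : ℕ} [Fact p.Prime] {K : Type} [Field K] {f g : K →+* ℂ_[p]} {r d c : ℚ_[p]}
    (h : Rho f g r) (hd : d ≠ 0) (e : d = c ^ 2 * r) : Rho f g d := by
  obtain ⟨-, ρ, h1, h2⟩ := h
  have hc : c ≠ 0 := by rintro rfl; simp at e; exact hd e
  have hc' : algebraMap ℚ_[p] ℂ_[p] c ≠ 0 := by simpa using hc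
  refine ⟨hd, algebraMap _ _ c * ρ, by rw [mul_pow, h1, e, map_mul, map_pow], fun γ => ?_⟩
  obtain ⟨u, v, h3, h4⟩ := h2 γ
  refine ⟨u, v / c, ?_, ?_⟩
  · rw [h3, map_div₀]; field_simp
  · rw [h4, map_div₀]; field_simp

theorem dsc : DscStmt := by
  classical
  intro p _ K _ _ hK f g r hfg h
  have h' := h
  obtain ⟨-, ρ, h1, h2⟩ := h'
  choose u v hu hv using h2
  let F : K →ₐ[ℚ] ℂ_[p] := f.toRatAlgHom
  let G : K →ₐ[ℚ] ℂ_[p] := g.toRatAlgHom
  have hFG : F ≠ G := fun e => hfg (RingHom.ext fun x => DFunLike.congr_fun e x)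
  have hcard : Fintype.card (K →ₐ[ℚ] ℂ_[p]) = finrank ℚ K := AlgHom.card ℚ K ℂ_[p]
  have hq : ∀ q : ℚ, algebraMap ℚ_[p] ℂ_[p] (q : ℚ_[p]) = algebraMap ℚ ℂ_[p] q := fun q => by simp
  have hw : ∀ (σ : K →ₐ[ℚ] ℂ_[p]) (γ : K), ∃ w : ℚ_[p], σ ≠ F → σ ≠ G → σ γ = algebraMap _ _ w := by
    intro σ γ
    refine ⟨(Algebra.trace ℚ K γ : ℚ) - 2 * u γ, fun a b => ?_⟩
    have e : (univ : Finset (K →ₐ[ℚ] ℂ_[p])) = {σ, F, G} := by
      symm
      apply Finset.eq_univ_of_card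
      apply le_antisymm (Finset.card_le_univ _)
      rw [Finset.card_eq_three.2 ⟨σ, F, G, a, b, hFG, rfl⟩, hcard]
      exact hK
    have t := trace_eq_sum_embeddings ℂ_[p] (K := ℚ) (x := γ)
    rw [e, Finset.sum_insert (by simp [a, b]), Finset.sum_pair hFG] at t
    have e1 : F γ = f γ := rfl
    have e2 : G γ = g γ := rfl
    rw [map_sub, hq, t, e1, e2, hu, hv, map_mul, map_ofNat]
    ring
  choose w hw using hw
  let b := integralBasis K
  let e : Module.Free.ChooseBasisIndex ℤ (𝓞 K) ≃ (K →ₐ[ℚ] ℂ_[p]) :=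
    Fintype.equivOfCardEq (by rw [hcard, finrank_eq_card_basis b])
  let a : K → (K →ₐ[ℚ] ℂ_[p]) → ℚ_[p] := fun γ σ => if σ = F then u γ else if σ = G then v γ else w σ γ
  let D : (K →ₐ[ℚ] ℂ_[p]) → ℚ_[p] := fun σ => if σ = F then 2 else if σ = G then 2 * r else 1
  have split : ∀ {M : Type} [CommMonoid M] (φ : (K →ₐ[ℚ] ℂ_[p]) → M),
      ∏ σ, φ σ = φ F * (φ G * ∏ σ ∈ (univ.erase F).erase G, φ σ) := by
    intro M _ φ
    rw [Finset.mul_prod_erase _ _ (by simp [hFG.symm]), Finset.mul_prod_erase _ _ (by simp)]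
  have split' : ∀ {M : Type} [AddCommMonoid M] (φ : (K →ₐ[ℚ] ℂ_[p]) → M),
      ∑ σ, φ σ = φ F + (φ G + ∑ σ ∈ (univ.erase F).erase G, φ σ) := by
    intro M _ φ
    rw [Finset.add_sum_erase _ _ (by simp [hFG.symm]), Finset.add_sum_erase _ _ (by simp)]
  have key : ∀ x y : K, ((Algebra.trace ℚ K (x * y) : ℚ) : ℚ_[p]) = ∑ σ, a x σ * D σ * a y σ := by
    intro x y
    apply (algebraMap ℚ_[p] ℂ_[p]).injective
    rw [hq, trace_eq_sum_embeddings ℂ_[p], map_sum, split', split', ← add_assoc, ← add_assoc]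
    congr 1
    · have e1 : ∀ γ, F γ = f γ := fun _ => rfl
      have e2 : ∀ γ, G γ = g γ := fun _ => rfl
      rw [map_mul F, map_mul G]
      simp only [a, D, if_true, if_neg hFG.symm, map_mul, e1, e2, hu, hv, ← h1, map_ofNat]
      ring
    · refine Finset.sum_congr rfl fun σ hσ => ?_
      have s1 : σ ≠ G := (Finset.mem_erase.1 hσ).1
      have s2 : σ ≠ F := (Finset.mem_erase.1 (Finset.mem_erase.1 hσ).2).1
      rw [map_mul σ]
      simp only [a, D, if_neg s1, if_neg s2, map_mul, hw σ _ s2 s1, mul_one]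
  let A : Matrix _ _ ℚ_[p] := Matrix.of fun i j => a (b i) (e j)
  have hM : (Algebra.traceMatrix ℚ b).map (algebraMap ℚ ℚ_[p]) =
      A * Matrix.diagonal (fun j => D (e j)) * A.transpose := by
    ext i j
    rw [Matrix.mul_apply]
    simp only [Matrix.mul_diagonal, Matrix.map_apply, Algebra.traceMatrix_apply,
      Algebra.traceForm_apply, Matrix.transpose_apply, A, Matrix.of_apply, eq_ratCast, key]
    exact (e.sum_comp fun σ => a (b i) σ * D σ * a (b j) σ).symm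
  have hD : ∏ j, D (e j) = 4 * r := by
    rw [e.prod_comp D, split, Finset.prod_eq_one]
    · simp only [D, if_true, if_neg hFG.symm]; ring
    · intro σ hσ
      have s1 : σ ≠ G := (Finset.mem_erase.1 hσ).1
      have s2 : σ ≠ F := (Finset.mem_erase.1 (Finset.mem_erase.1 hσ).2).1
      simp only [D, if_neg s1, if_neg s2]
  refine rho_scale (c := 2 * A.det) h (by exact_mod_cast discr_ne_zero K) ?_
  have h3 : ((discr K : ℤ) : ℚ_[p]) = algebraMap ℚ ℚ_[p] (Algebra.discr ℚ b) := by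
    rw [← coe_discr]; simp
  rw [h3, Algebra.discr_def, RingHom.map_det, RingHom.mapMatrix_apply, hM, Matrix.det_mul,
    Matrix.det_mul, Matrix.det_transpose, Matrix.det_diagonal, hD]
  ring

end Pool.Agent.Szpiro98.V4
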