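import Pool.Agent.Lib.Szpiro98.Blue4

/-! The supply of `S`-units of a quadratic or cubic field. -/

namespace Pool.Agent.Szpiro98.V4

open Finset Module NumberField IsDedekindDomain

namespace Ksup

variable {K : Type} [Field K] [NumberField K]

/-- The orders at the places of `S`. -/
noncomputable def ord (S : Finset (HOS K)) : Additive Kˣ →ₗ[ℤ] (S → ℤ) :=
  (AddMonoidHom.mk' (fun u (v : S) => WithZero.log (v.1.valuation K (u.toMul : Kˣ))) fun a b => by
    funext v
    simp only [toMul_add, Units.val_mul, map_mul, Pi.add_apply]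
    exact WithZero.log_mul (by simp) (by simp)).toIntLinearMap

/-- The units of the ring of integers as units of the field. -/
noncomputable def incl : Additive (𝓞 K)ˣ →ₗ[ℤ] Additive Kˣ :=
  (MonoidHom.toAdditive (Units.map (algebraMap (𝓞 K) K).toMonoidHom)).toIntLinearMap

lemma mem_range {u : Additive Kˣ} (h : ∀ v : HOS K, v.valuation K (u.toMul : Kˣ) = 1) :
    u ∈ LinearMap.range (incl (K := K)) := by
  obtain ⟨x, hx⟩ := HeightOneSpectrum.mem_integers_of_valuation_le_one K _ fun v => (h v).le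
  obtain ⟨y, hy⟩ := HeightOneSpectrum.mem_integers_of_valuation_le_one K ((u.toMul⁻¹ : Kˣ) : K)
    fun v => by rw [Units.val_inv_eq_inv_val, map_inv₀, h v, inv_one]
  have e : x * y = 1 := FaithfulSMul.algebraMap_injective (𝓞 K) K (by rw [map_mul, hx, hy]; simp)
  exact ⟨Additive.ofMul (Units.mkOfMulEqOne x y e), Additive.toMul.injective (Units.ext hx)⟩

lemma dep (S : Finset (HOS K)) (γ : Fin (S.card + rk K + 1) → K) (h : ∀ k, SU S (γ k)) :
    ∃ a : Fin (S.card + rk K + 1) → ℤ, a ≠ 0 ∧ ∏ k, γ k ^ a k = 1 := by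
  let f := Fintype.linearCombination ℤ fun k => Additive.ofMul (Units.mk0 (γ k) (h k).1)
  have hf : ∀ a, ((f a).toMul : Kˣ) = ∏ k, γ k ^ a k := fun a => by
    simp [f, Fintype.linearCombination_apply, toMul_sum]
  by_contra! hc
  have inj : Function.Injective f := (injective_iff_map_eq_zero f).2 fun a ha => by
    by_contra h0
    exact hc a h0 (by rw [← hf, ha]; simp)
  let N := LinearMap.ker ((ord S).comp f)
  have a1 : finrank ℤ (LinearMap.range ((ord S).comp f)) + finrank ℤ N = S.card + rk K + 1 := by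
    rw [← ((ord S).comp f).quotKerEquivRange.finrank_eq, Submodule.finrank_quotient_add_finrank]
    simp
  have a2 : finrank ℤ (LinearMap.range ((ord S).comp f)) ≤ S.card :=
    (Submodule.finrank_le _).trans (by simp)
  have a3 : ∀ a : N, f a ∈ LinearMap.range (incl (K := K)) := fun a => mem_range fun v => by
    by_cases hv : v ∈ S
    · have := congrFun a.2 ⟨v, hv⟩
      change WithZero.log (v.valuation K ((f a).toMul : Kˣ)) = 0 at this
      rw [← WithZero.exp_log (x := v.valuation K ((f a).toMul : Kˣ)) (by simp), this,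
        WithZero.exp_zero]
    · rw [hf, map_prod]
      exact prod_eq_one fun k _ => by rw [map_zpow₀, (h k).2 v hv, one_zpow]
  have a4 := LinearMap.finrank_le_finrank_of_injective
    (f := (f.domRestrict N).codRestrict _ a3) fun a b e =>
      Subtype.ext (inj (congrArg Subtype.val e))
  have a5 := (incl (K := K)).finrank_range_le
  rw [Units.finrank_eq] at a5
  have a6 : Units.rank K = rk K := rfl
  omega

end Ksup

theorem ksup : KsupStmt := by
  classical
  intro K _ _ hK K3 σ τ ne S hS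
  have fr : ∀ σ : K →+* Qb, FiniteDimensional ℚ σ.toRatAlgHom.fieldRange ∧
      finrank ℚ σ.toRatAlgHom.fieldRange ≤ 3 := fun σ =>
    ⟨σ.toRatAlgHom.equivFieldRange.toLinearEquiv.finiteDimensional,
      σ.toRatAlgHom.equivFieldRange.toLinearEquiv.finrank_eq ▸ K3⟩
  have f1 := (fr σ).1
  have f2 := (fr τ).1
  let L := σ.toRatAlgHom.fieldRange ⊔ τ.toRatAlgHom.fieldRange
  have m1 : ∀ x, σ x ∈ L := fun x => (le_sup_left : _ ≤ L) ⟨x, rfl⟩
  have m2 : ∀ x, τ x ∈ L := fun x => (le_sup_right : _ ≤ L) ⟨x, rfl⟩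
  refine ⟨L, inferInstance, (IntermediateField.finrank_sup_le _ _).trans
    (Nat.mul_le_mul (fr σ).2 (fr τ).2), fun x => ⟨m1 x, m2 x⟩, ?_, ⟨1, ⟨one_ne_zero, by simp⟩, by simp⟩,
    fun x hx => ?_, fun H hH => ?_⟩
  · rintro x ⟨γ, h, rfl⟩
    exact ⟨div_mem (m1 γ) (m2 γ), div_ne_zero (by simpa using h.1) (by simpa using h.1)⟩
  · choose γ h e using hx
    obtain ⟨a, a0, ha⟩ := Ksup.dep S γ h
    refine ⟨a, a0, ?_⟩
    have b1 := congrArg σ ha
    have b2 := congrArg τ ha
    simp only [map_prod, map_zpow₀, map_one] at b1 b2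
    simp only [e, div_zpow, prod_div_distrib, b1, b2, div_one]
  · have s0 : (0 : ℝ) < 2 * S.card + 5 := by positivity
    obtain ⟨Γ, M, hM, hc, h1, h2⟩ := fam cnt K K3 S (H / (2 * S.card + 5)) (by
      rwa [le_div_iff₀' s0])
    have M0 : (M : K) ≠ 0 := Nat.cast_ne_zero.2 hM.ne'
    have q : ∀ γ ∈ Γ, ∀ γ' ∈ Γ, σ γ * τ (M / γ) / (σ γ' * τ (M / γ')) = σ (γ / γ') / τ (γ / γ') :=
      fun γ hγ γ' hγ' => by
        have := (map_ne_zero τ).2 (h1 γ hγ).1
        have := (map_ne_zero τ).2 (h1 γ' hγ').1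
        have := (map_ne_zero σ).2 (h1 γ' hγ').1
        have := (map_ne_zero τ).2 M0
        simp only [map_div₀]
        field_simp
    have z0 : ∀ γ ∈ Γ, σ γ * τ (M / γ) ≠ 0 := fun γ hγ => mul_ne_zero
      ((map_ne_zero σ).2 (h1 γ hγ).1) ((map_ne_zero τ).2 (div_ne_zero M0 (h1 γ hγ).1))
    refine ⟨Γ.image fun γ => σ γ * τ (M / γ), ?_, fun z hz => ?_, fun z hz z' hz' => ?_⟩
    · rw [card_image_of_injOn fun γ hγ γ' hγ' e => ?_]
      · rw [div_pow, div_le_iff₀ (by positivity)] at hc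
        exact hc.trans_eq (by ring)
      · obtain ⟨a, -, c⟩ := h2 γ hγ γ' hγ'
        have e' := q γ hγ γ' hγ'
        rw [show σ γ * τ (M / γ) = _ from e, div_self (z0 γ' hγ'), eq_comm,
          div_eq_one_iff_eq ((map_ne_zero τ).2 a.1)] at e'
        obtain ⟨r, hr⟩ := eq_rat hK ne e'
        have h0' := (h1 γ' hγ').1
        rcases hS r (hr ▸ a) with rfl | rfl
        · exact (div_eq_one_iff_eq h0').1 (hr.trans Rat.cast_one)
        · rw [div_eq_iff h0'] at hr
          exact (c (by rw [hr]; simp)).elim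
    · obtain ⟨γ, hγ, rfl⟩ := mem_image.1 hz
      refine ⟨mul_mem (m1 _) (m2 _), z0 γ hγ, (((h1 γ hγ).2.1.hs _).mul ((h1 γ hγ).2.2.hs _)).mono ?_⟩
      rw [← Real.exp_add, ← add_mul, show (S.card + 1 + (S.card + 4) : ℝ) = 2 * S.card + 5 by ring,
        mul_div_cancel₀ _ s0.ne']
    · obtain ⟨γ, hγ, rfl⟩ := mem_image.1 hz
      obtain ⟨γ', hγ', rfl⟩ := mem_image.1 hz'
      exact ⟨γ / γ', (h2 γ hγ γ' hγ').1, q γ hγ γ' hγ'⟩

end Pool.Agent.Szpiro98.V4
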