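import Pool.Agent.Lib.Szpiro98.Blue4

/-! Block LOCT4: the local bound at a large prime, with auxiliary units. -/

namespace Pool.Agent.Szpiro98.V4

open Finset Module NumberField IsDedekindDomain NormedSpace Pool.Agent.Lib.MP_cafdd5_nt

namespace LOCT

lemma params {h : ℕ} (hh : 1 ≤ h) {P : ℝ} (hP : 8004 + 288000 * h ≤ P) :
    ∃ N k : ℕ, 4000 * (N : ℝ) + 2 ≤ P ∧ 36 * 2 ^ k * h ≤ N ∧
      1 / (576000 * h) * P ≤ ((2 ^ k : ℕ) : ℝ) := by
  have h1 : (1 : ℝ) ≤ h := by exact_mod_cast hh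
  obtain ⟨N, hN⟩ : ∃ N : ℕ, N = ⌊(P - 2) / 4000⌋₊ := ⟨_, rfl⟩
  have a : (N : ℝ) ≤ (P - 2) / 4000 := hN ▸ Nat.floor_le (by linarith)
  have b : (P - 2) / 4000 < N + 1 := hN ▸ Nat.lt_floor_add_one _
  have c : 36 * h ≤ N := by
    have : ((36 * h : ℕ) : ℝ) ≤ N := by
      push_cast
      linarith
    exact_mod_cast this
  have h0 : 0 < 36 * h := by omega
  have d : N / (36 * h) ≠ 0 := (Nat.div_pos c h0).ne'
  refine ⟨N, Nat.log 2 (N / (36 * h)), by linarith, ?_, ?_⟩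
  · have := (Nat.le_div_iff_mul_le h0).1 (Nat.pow_log_le_self 2 d)
    calc _ = 2 ^ Nat.log 2 (N / (36 * h)) * (36 * h) := by ring
      _ ≤ N := this
  · have := (Nat.div_lt_iff_lt_mul h0).1 (Nat.lt_pow_succ_log_self (b := 2) (by norm_num) (N / (36 * h)))
    generalize Nat.log 2 (N / (36 * h)) = k at this ⊢
    have e : (N : ℝ) < ((2 ^ k : ℕ) : ℝ) * (72 * h) := by
      have : N < 2 ^ k * (72 * h) := by
        calc N < 2 ^ (k + 1) * (36 * h) := this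
          _ = _ := by ring
      exact_mod_cast this
    rw [one_div, inv_mul_le_iff₀ (by positivity)]
    linarith

lemma pow_le {h a N : ℕ} (e : a * h ≤ N) : (h : ℝ) ^ a ≤ Real.exp N := by
  calc (h : ℝ) ^ a ≤ Real.exp h ^ a :=
        pow_le_pow_left₀ (Nat.cast_nonneg _) (by linarith [Real.add_one_le_exp (h : ℝ)]) a
    _ = Real.exp ((a * h : ℕ) : ℝ) := by rw [← Real.exp_nat_mul, Nat.cast_mul]
    _ ≤ _ := Real.exp_le_exp.2 (by exact_mod_cast e)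

lemma save {C1 C2 y : ℝ} {h a r m : ℕ} (h1 : 1 ≤ C1) (h2 : 1 ≤ C2) (hh : Real.exp 1 * C1 ^ 40 * C2 ≤ h)
    (hm : m ≤ 40 * a) (hr : a ≤ r) (hy : y ≤ Real.exp a) :
    C1 ^ m * C2 ^ a * y ≤ (h : ℝ) ^ r ∧ C1 ^ m ≤ (h : ℝ) ^ a ∧ C2 ^ a ≤ (h : ℝ) ^ a := by
  have e1 : 1 ≤ Real.exp 1 := Real.one_le_exp zero_le_one
  have c1 : 1 ≤ C1 ^ 40 := one_le_pow₀ h1
  have c2 : C1 ^ m ≤ (C1 ^ 40) ^ a := by
    rw [← pow_mul]
    exact pow_le_pow_right₀ h1 hm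
  have c3 : C1 ^ 40 ≤ Real.exp 1 * C1 ^ 40 := le_mul_of_one_le_left (by linarith) e1
  have c4 : Real.exp 1 * C1 ^ 40 ≤ Real.exp 1 * C1 ^ 40 * C2 := le_mul_of_one_le_right (by linarith) h2
  have c5 : C2 ≤ Real.exp 1 * C1 ^ 40 * C2 := le_mul_of_one_le_left (by linarith) (by linarith)
  refine ⟨?_, c2.trans (pow_le_pow_left₀ (by linarith) (by linarith) a),
    pow_le_pow_left₀ (by linarith) (by linarith) a⟩
  calc _ ≤ (C1 ^ 40) ^ a * C2 ^ a * Real.exp a := by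
        refine (mul_le_mul_of_nonneg_left hy (by positivity)).trans ?_
        gcongr
    _ = (Real.exp 1 * C1 ^ 40 * C2) ^ a := by
        rw [mul_pow, mul_pow, ← Real.exp_nat_mul, mul_one]
        ring
    _ ≤ (h : ℝ) ^ a := pow_le_pow_left₀ (by linarith) hh a
    _ ≤ _ := pow_le_pow_right₀ (by linarith) hr

lemma le_mb {C l1 l2 H 𝓛 : ℝ} (p D h r1 r2 : ℕ) {N : ℕ} (hC : 1 ≤ C) (h1 : 0 ≤ l1) (h2 : 0 ≤ l2)
    (hH : 2001 ≤ H) (hN : 1 ≤ N) (h3 : 3 ≤ 𝓛) : 2000 * (N : ℝ) + 1 ≤ mb C p N D h r1 r2 l1 l2 H 𝓛 := by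
  have a := LOCP.one_le_log h3
  have b : (1 : ℝ) ≤ N := by exact_mod_cast hN
  have c : 0 ≤ p * l1 * l2 * (D : ℝ) ^ r1 / (h : ℝ) ^ r2 := by positivity
  unfold mb
  calc _ ≤ 1 * (0 + 2001) * (N : ℝ) * 1 := by linarith
    _ ≤ _ := by
      gcongr
      · exact one_le_pow₀ hC
      · exact one_le_pow₀ a

lemma prod_le {C1 C : ℝ} (S : Finset ℕ) (hC1 : 1 ≤ C1) (hC : 6 ^ 6 * C1 ^ 3 ≤ C) {r : ℕ}
    (hr : r ≤ 3 * S.card + 2) :
    (6 * C1) ^ r * ∏ q ∈ S, (6 * Real.log q) ^ 3 ≤ (6 * C1) ^ 2 * ∏ q ∈ S, C * Real.log q ^ 3 := by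
  have hl : ∀ q : ℕ, 0 ≤ Real.log q := fun q => Real.log_natCast_nonneg q
  calc _ ≤ (6 * C1) ^ (3 * S.card + 2) * ∏ q ∈ S, (6 * Real.log q) ^ 3 :=
        mul_le_mul_of_nonneg_right (pow_le_pow_right₀ (by linarith) hr)
          (prod_nonneg fun q _ => by have := hl q; positivity)
    _ = (6 * C1) ^ 2 * ∏ q ∈ S, (6 ^ 6 * C1 ^ 3 * Real.log q ^ 3) := by
        rw [pow_add, pow_mul, ← prod_const, mul_comm _ ((6 * C1) ^ 2), mul_assoc, ← prod_mul_distrib]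
        congr 1
        exact prod_congr rfl fun q _ => by ring
    _ ≤ _ := by
        refine mul_le_mul_of_nonneg_left (prod_le_prod (fun q _ => by have := hl q; positivity)
          fun q _ => ?_) (by positivity)
        exact mul_le_mul_of_nonneg_right hC (pow_nonneg (hl q) 3)

lemma mb_le {C1 C δ W d x l1 𝓛 : ℝ} {p N D h r1 r2 : ℕ} {S : Finset ℕ} (hC1 : 1 ≤ C1)
    (hC : 6 ^ 6 * C1 ^ 3 ≤ C) (hr : r1 ≤ 3 * S.card + 2) (hW1 : 1 ≤ W)
    (hW : W ≤ ∏ q ∈ S, (6 * Real.log q) ^ 3) (hd : 1 ≤ d) (hp : 0 < p) (hh : 1 ≤ h) (hx : 0 ≤ x)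
    (hl1 : l1 ≤ (6 * (S.card + 1)) ^ r1 * (W * (9 * √d) * (1 + Real.log (9 * √d)) ^ 4))
    (hD : D ≤ N) (hN : (N : ℝ) ≤ Real.log p) (f1 : C1 ^ (r2 + D) * x * (p : ℝ) ^ δ ≤ (h : ℝ) ^ r2)
    (f2 : C1 ^ (r2 + D) * (p : ℝ) ^ δ ≤ p) (h3 : 3 ≤ 𝓛) :
    2 * mb C1 p N D h r1 r2 l1 (d ^ 4 * x) (24 * ((S.card + 1) * (1 + Real.log p))) 𝓛 ≤
      Szpiro98.bnd C S d (p * sv C δ S d p) 𝓛 := by
  have a1 := LOCP.one_le_log h3
  have a2 := Real.log_nonneg hd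
  obtain ⟨a3, a4⟩ := Mid.log_Y hd
  have a5 : 1 ≤ √d := Real.one_le_sqrt.2 hd
  have hp0 : (0 : ℝ) < p := by exact_mod_cast hp
  have hh0 : (0 : ℝ) < h := by exact_mod_cast hh
  have hy : 0 < (p : ℝ) ^ δ := Real.rpow_pos_of_pos hp0 δ
  have hN0 : (0 : ℝ) ≤ N := Nat.cast_nonneg _
  have hDN : (D : ℝ) ≤ N := by exact_mod_cast hD
  have hs : (1 : ℝ) ≤ S.card + 1 := le_add_of_nonneg_left (Nat.cast_nonneg _)
  have b0 := prod_le S hC1 hC hr
  unfold mb Szpiro98.bnd sv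
  generalize (∏ q ∈ S, C * Real.log q ^ 3) = Z at *
  generalize (∏ q ∈ S, (6 * Real.log q) ^ 3) = W' at *
  generalize Real.log 𝓛 = t at *
  generalize (p : ℝ) ^ δ = y at *
  obtain ⟨l, hl⟩ : ∃ l, l = 1 + Real.log p := ⟨_, rfl⟩
  obtain ⟨s, hs'⟩ : ∃ s : ℝ, s = S.card + 1 := ⟨_, rfl⟩
  obtain ⟨E, hE⟩ : ∃ E, E = √d * (1 + Real.log d) ^ 4 := ⟨_, rfl⟩
  rw [← hl, ← hs', ← hE]
  rw [← hs'] at hl1 hs
  have hl0 : 1 ≤ l := by linarith
  have hE1 : 1 ≤ E := hE ▸ one_le_mul_of_one_le_of_one_le a5 (one_le_pow₀ (by linarith))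
  have hQ : 1 ≤ s * l := one_le_mul_of_one_le_of_one_le hs hl0
  have hNQ : (N : ℝ) ≤ s * l := le_trans (by linarith) (le_mul_of_one_le_left (by linarith) hs)
  have hd4 : 1 ≤ d ^ 4 := one_le_pow₀ hd
  have hW' : 1 ≤ W' := hW1.trans hW
  have b1 : l1 ≤ (6 * s) ^ r1 * (W' * (9 ^ 5 * E)) := by
    refine hl1.trans (mul_le_mul_of_nonneg_left ?_ (by positivity))
    calc _ ≤ W' * (9 * √d) * (9 * (1 + Real.log d)) ^ 4 := by gcongr
      _ = _ := by rw [hE]; ring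
  obtain ⟨A, hA⟩ : ∃ A, A = C1 ^ (r2 + D) := ⟨_, rfl⟩
  have hA0 : 0 ≤ A := by rw [hA]; positivity
  rw [add_assoc r1, pow_add C1, ← hA]
  rw [← hA] at f1 f2
  obtain ⟨u, hu⟩ : ∃ u, u = p / y := ⟨_, rfl⟩
  have hu0 : 0 < u := by rw [hu]; positivity
  have g1 : p * (A * x / (h : ℝ) ^ r2) ≤ u := by
    rw [hu, div_eq_mul_one_div (p : ℝ) y]
    refine mul_le_mul_of_nonneg_left ?_ hp0.le
    rw [div_le_div_iff₀ (by positivity) hy, one_mul]
    exact f1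
  have g2 : A ≤ u := by rwa [hu, le_div_iff₀ hy]
  obtain ⟨M, hM⟩ : ∃ M, M = 6 ^ r1 * W' * (9 ^ 5 * E) * d ^ 4 * u := ⟨_, rfl⟩
  have g3 : A * (p * l1 * (d ^ 4 * x) * (D : ℝ) ^ r1 / (h : ℝ) ^ r2) * N ≤
      M * (s * l) ^ (5 * (S.card + 1)) := by
    calc _ = l1 * (D : ℝ) ^ r1 * d ^ 4 * (p * (A * x / (h : ℝ) ^ r2)) * N := by ring
      _ ≤ (6 * s) ^ r1 * (W' * (9 ^ 5 * E)) * l ^ r1 * d ^ 4 * u * (s * l) := by
          gcongr
          linarith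
      _ = M * (s * l) ^ (r1 + 1) := by rw [hM, pow_succ (s * l), mul_pow, mul_pow]; ring
      _ ≤ _ := mul_le_mul_of_nonneg_left (pow_le_pow_right₀ hQ (by omega)) (by rw [hM]; positivity)
  have g4 : A * (24 * (s * l)) * N ≤ M * (s * l) ^ (5 * (S.card + 1)) := by
    have : (1 : ℝ) ≤ 6 ^ r1 := one_le_pow₀ (by norm_num)
    calc _ ≤ u * (24 * (s * l)) * (s * l) := by gcongr
      _ = 1 * 1 * (24 * 1) * 1 * u * (s * l) ^ 2 := by ring
      _ ≤ M * (s * l) ^ 2 := by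
          rw [hM]
          gcongr
          norm_num
      _ ≤ _ := mul_le_mul_of_nonneg_left (pow_le_pow_right₀ hQ (by omega)) (by rw [hM]; positivity)
  have hQ0 : 0 ≤ (s * l) ^ (5 * (S.card + 1)) := by positivity
  generalize (s * l) ^ (5 * (S.card + 1)) = Q at *
  have c3 : 1 ≤ C1 ^ 3 := one_le_pow₀ hC1
  have hZ : 0 ≤ Z := by
    have : 0 < (6 * C1) ^ r1 * W' := by positivity
    exact ((mul_pos_iff_of_pos_left (by positivity)).1 (this.trans_le b0)).le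
  have g5 : 4 * 9 ^ 5 * (6 * C1) ^ 2 ≤ C * C := by
    have a : C1 ^ 2 ≤ C1 ^ 3 := pow_le_pow_right₀ hC1 (by norm_num)
    calc _ ≤ 6 ^ 6 * C1 ^ 3 * (6 ^ 6 * 1) := by linarith
      _ ≤ _ := mul_le_mul hC (by linarith) (by norm_num) (by linarith)
  calc _ = 2 * C1 ^ r1 * (A * (p * l1 * (d ^ 4 * x) * (D : ℝ) ^ r1 / (h : ℝ) ^ r2) * N +
        A * (24 * (s * l)) * N) * t ^ 3 := by ring
    _ ≤ 2 * C1 ^ r1 * (M * Q + M * Q) * t ^ 3 := by gcongr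
    _ = 4 * 9 ^ 5 * ((6 * C1) ^ r1 * W') * (E * d ^ 4 * u * Q * t ^ 3) := by rw [hM, mul_pow]; ring
    _ ≤ 4 * 9 ^ 5 * ((6 * C1) ^ 2 * Z) * (E * d ^ 4 * u * Q * t ^ 3) := by gcongr
    _ = 4 * 9 ^ 5 * (6 * C1) ^ 2 * (Z * (E * d ^ 4 * u * Q * t ^ 3)) := by ring
    _ ≤ C * C * (Z * (E * d ^ 4 * u * Q * t ^ 3)) := by gcongr
    _ = _ := by rw [hu]; ring

lemma of_sv {C δ d κ : ℝ} {S : Finset ℕ} (hC : 1 ≤ C) (hd : 1 ≤ d) (hκ : 1 ≤ κ) (hδ : δ ≤ 1)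
    (h : sv C δ S d κ ≤ 1) : C ≤ κ ∧ d ^ 4 ≤ κ := by
  have a := Real.log_nonneg hκ
  have hs : (1 : ℝ) ≤ S.card + 1 := le_add_of_nonneg_left (Nat.cast_nonneg _)
  have b : 1 ≤ ((S.card + 1) * (1 + Real.log κ)) ^ (5 * (S.card + 1)) :=
    one_le_pow₀ (one_le_mul_of_one_le_of_one_le hs (by linarith))
  have c : κ ^ δ ≤ κ := by simpa using Real.rpow_le_rpow_of_exponent_le hκ hδ
  have e : 1 ≤ d ^ 4 := one_le_pow₀ hd
  rw [sv, div_le_one (Real.rpow_pos_of_pos (by linarith) δ)] at h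
  have f : C * d ^ 4 ≤ κ := (le_mul_of_one_le_right (by positivity) b).trans (h.trans c)
  exact ⟨(le_mul_of_one_le_right (by linarith) e).trans f, (le_mul_of_one_le_left (by linarith) hC).trans f⟩

end LOCT

open LOCP in
theorem loct (h1 : AuxStmt) (h2 : MidStmt) (h3 : KsupStmt) (h4 : DscStmt) : LocTStmt := by
  classical
  obtain ⟨C2, hC2, h1⟩ := h1
  obtain ⟨C1, hC1, h2⟩ := h2
  obtain ⟨h, hh⟩ : ∃ h : ℕ, Real.exp 1 * C1 ^ 40 * C2 ≤ h := ⟨_, Nat.le_ceil _⟩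
  have hh0 : (1 : ℝ) ≤ h := le_trans (one_le_mul_of_one_le_of_one_le
    (one_le_mul_of_one_le_of_one_le (Real.one_le_exp zero_le_one) (one_le_pow₀ hC1)) hC2) hh
  have hh1 : 1 ≤ h := by exact_mod_cast hh0
  obtain ⟨δ, hδ⟩ : ∃ δ : ℝ, δ = 1 / (576000 * h) := ⟨_, rfl⟩
  have δ0 : 0 < δ := by rw [hδ]; positivity
  have δ1 : δ ≤ 1 / 2 := by
    rw [hδ]
    exact one_div_le_one_div_of_le (by norm_num) (by linarith)
  refine ⟨δ, 6 ^ 6 * C1 ^ 3 + Real.exp (8004 + 288000 * h), δ0, by linarith,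
    fun C hC p _ ι K _ _ hK K3 σ τ r hρ β n S 𝓛 hne hn hS hnS h𝓛 hβ hsv hb => ?_⟩
  obtain ⟨hF, -, -⟩ := anp p
  have hp : p.Prime := Fact.out
  obtain ⟨P, hP⟩ := val p K (ι.comp σ)
  obtain ⟨P', hP'⟩ := val p K (ι.comp τ)
  have β0 : β ≠ 0 := by
    rintro rfl
    exact hne (by simp)
  have hst : σ ≠ τ := fun k => hne (by rw [k])
  obtain ⟨S', r0, hPS, hcard, hwt, hr0, hsu, -, hrat⟩ :=
    sun K K3 β n S 𝓛 P β0 hn hS hnS (by linarith) hβ
  obtain ⟨L1, _, d1, m1, s1⟩ := h3 K hK K3 σ τ hst (S'.erase P')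
    fun x hx => hrat x ⟨hx.1, fun v hv => hx.2 v fun k => hv (mem_of_mem_erase k)⟩
  obtain ⟨r1, ρ, hρ2, hρ3⟩ := h4 p K K3 (ι.comp σ) (ι.comp τ) r
    (fun k => hst (RingHom.ext fun x => ι.injective (RingHom.congr_fun k x))) hρ
  have hD := one_le_dk K
  have hce : (S'.erase P').card ≤ 3 * S.card := (card_erase_le (s := S') (a := P')).trans hcard
  have hp0 : (0 : ℝ) < p := by exact_mod_cast hp.pos
  have hp1 : (1 : ℝ) ≤ p := by exact_mod_cast hp.pos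
  have c3 : 1 ≤ C1 ^ 3 := one_le_pow₀ hC1
  have hE0 := Real.exp_pos (8004 + 288000 * (h : ℝ))
  obtain ⟨hCp, hdp⟩ := LOCT.of_sv (by linarith) hD hp1 (by linarith) hsv
  have hlp : 8004 + 288000 * (h : ℝ) ≤ Real.log p := (Real.le_log_iff_exp_le hp0).2 (by linarith)
  obtain ⟨N, k, hNp, hkN, hk⟩ := LOCT.params hh1 hlp
  rw [← hδ] at hk
  have hk1 : 1 ≤ 2 ^ k := Nat.one_le_two_pow
  have hDN : 36 * 2 ^ k ≤ N := (Nat.le_mul_of_pos_right _ hh1).trans hkN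
  have hN1 : 1 ≤ N := by omega
  have hN0 : (1 : ℝ) ≤ N := by exact_mod_cast hN1
  have hpow : (h : ℝ) ^ 2 ^ k ≤ Real.exp N := LOCT.pow_le (le_trans (Nat.mul_le_mul_right _ (by omega)) hkN)
  have hy : (p : ℝ) ^ δ = Real.exp (δ * Real.log p) := by rw [Real.rpow_def_of_pos hp0, mul_comm]
  have hpe : Real.exp (4000 * N + 2) ≤ p := (Real.le_log_iff_exp_le hp0).1 hNp
  have hdk : ((discr K : ℤ) : ℝ) ^ 2 = dk K ^ 2 := (sq_abs _).symm
  have hdk4 : ((discr K : ℤ) : ℝ) ^ 4 = dk K ^ 4 := by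
    rw [show 4 = 2 * 2 from rfl, pow_mul, pow_mul, hdk]
  obtain ⟨L2, _, G2, r2, d2, hr2, hr2', cp2, s2⟩ := h1 p ι k (discr K) ρ (discr_ne_zero K)
    (by rw [hρ2, map_intCast]) (by
      have a := (LOCT.save (y := 0) (m := 0) hC1 hC2 hh (Nat.zero_le _) (le_refl (2 ^ k))
        (Real.exp_pos _).le).2.2.trans hpow
      have b : dk K ^ 2 ≤ Real.exp (Real.log p / 2) := by
        refine le_of_pow_le_pow_left₀ two_ne_zero (Real.exp_pos _).le ?_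
        rw [← Real.exp_nat_mul, ← pow_mul, show ((2 : ℕ) : ℝ) * (Real.log p / 2) = Real.log p by
          push_cast; ring, Real.exp_log hp0]
        exact hdp
      calc _ ≤ Real.exp (Real.log p / 2) * Real.exp N := by rw [hdk]; gcongr
        _ < Real.exp (Real.log p) := by
          rw [← Real.exp_add]
          exact Real.exp_lt_exp.2 (by linarith)
        _ = p := Real.exp_log hp0)
  rw [hdk4] at s2
  obtain ⟨f1, f2, -⟩ := LOCT.save (y := (p : ℝ) ^ δ) (m := r2 + 36 * 2 ^ k) hC1 hC2 hh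
    (by rw [pow_add] at hr2'; omega) hr2 (by rw [hy]; exact Real.exp_le_exp.2 hk)
  have f3 : C1 ^ (r2 + 36 * 2 ^ k) * (p : ℝ) ^ δ ≤ p := by
    calc _ ≤ Real.exp N * Real.exp (δ * Real.log p) := by
          rw [hy]
          exact mul_le_mul_of_nonneg_right (f2.trans hpow) (Real.exp_pos _).le
      _ ≤ Real.exp (Real.log p) := by
          rw [← Real.exp_add]
          have := mul_le_mul_of_nonneg_right δ1 (Real.log_nonneg hp1)
          exact Real.exp_le_exp.2 (by linarith)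
      _ = p := Real.exp_log hp0
  have hp2 : p ≠ 2 := by
    rintro rfl
    have := Real.log_two_lt_d9
    push_cast at hNp
    linarith
  obtain ⟨ω1, ω2⟩ := om_le hN1
  have ω0 : 0 < om N := Real.exp_pos _
  have hpω : 4 ≤ p * om N ^ 2 := by
    have a : Real.exp (4000 * N + 2) * om N ^ 2 = Real.exp 1 * Real.exp 1 := by
      rw [om, ← Real.exp_nat_mul, ← Real.exp_add, ← Real.exp_add]
      congr 1
      push_cast
      ring
    have b := Real.add_one_le_exp (1 : ℝ)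
    calc (4 : ℝ) = 2 * 2 := by norm_num
      _ ≤ Real.exp 1 * Real.exp 1 := mul_le_mul (by linarith) (by linarith) (by norm_num) (by linarith)
      _ ≤ _ := by rw [← a]; gcongr
  have hW1 : 1 ≤ ∏ v ∈ S'.erase P', wt v := Finset.one_le_prod fun v _ => one_le_wt v
  have hW2 : ∏ v ∈ S'.erase P', wt v ≤ ∏ q ∈ S, (6 * Real.log q) ^ 3 :=
    (prod_le_prod_of_subset_of_one_le (erase_subset _ _) (fun v _ => zero_le_one.trans (one_le_wt v))
      fun v _ _ => one_le_wt v).trans hwt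
  obtain ⟨y0, y1⟩ := Mid.log_Y hD
  have hS0 : (0 : ℝ) ≤ S.card := Nat.cast_nonneg _
  have hce' : 2 * ((S'.erase P').card : ℝ) + 5 ≤ 6 * (S.card + 1) := by
    have : ((S'.erase P').card : ℝ) ≤ 3 * S.card := by exact_mod_cast hce
    linarith
  have y2 : Real.log (9 * √(dk K)) ≤ 4 * (1 + Real.log p) := by
    have a : Real.log (dk K ^ 4) ≤ Real.log p := Real.log_le_log (by positivity) hdp
    have b := Real.log_nonneg hD
    rw [Real.log_pow] at a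
    push_cast at a
    linarith
  have hH0 : 1 + Real.log p ≤ (S.card + 1) * (1 + Real.log p) :=
    le_mul_of_one_le_left (by linarith) (by linarith)
  have hH : 2001 ≤ 24 * ((S.card + 1) * (1 + Real.log p)) := by linarith
  have s1' := s1.mono (le_sup_left (b := L2)) (H1 := 24 * ((S.card + 1) * (1 + Real.log p))) (by
    calc _ ≤ 6 * (S.card + 1) * (4 * (1 + Real.log p)) := by gcongr
      _ = _ := by ring)
  have s2' := s2.mono (le_sup_right (a := L1)) (H1 := 24 * ((S.card + 1) * (1 + Real.log p)))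
    (by linarith)
  have hfin : finrank ℚ ↥(L1 ⊔ L2) ≤ 36 * 2 ^ k := by
    calc _ ≤ _ := IntermediateField.finrank_sup_le L1 L2
      _ ≤ 9 * 2 ^ (k + 2) := Nat.mul_le_mul d1 d2
      _ = _ := by ring
  have cp1 : ∀ x ∈ {x | ∃ γ, SU (S'.erase P') γ ∧ x = σ γ / τ γ}, CP ρ (ι x) := by
    rintro x ⟨γ, hγ, rfl⟩
    obtain ⟨u, v, hu, hv⟩ := hρ3 γ
    have a := (hP γ hγ.1).1 (hγ.2 P fun k => hPS (mem_of_mem_erase k))
    have b := (hP' γ hγ.1).1 (hγ.2 P' (notMem_erase _ _))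
    refine ⟨u, v, hu ▸ a, hv ▸ b, ?_⟩
    rw [← hu, ← hv, map_div₀]
    exact div_mul_cancel₀ _ (by simpa using hγ.1)
  have hs : ∀ φ : K →+* Qb, Hs (φ β ^ 6) (Real.exp (6 * 𝓛)) := fun φ => by
    have := (hβ.hs φ).pow 6
    rwa [← Real.exp_nat_mul] at this
  have key := fun tb => h2 p ι ρ _ N (36 * 2 ^ k) h (L1 ⊔ L2) _ G2 _ r2 _ _ _ 𝓛 (σ β ^ 6) (τ β ^ 6) tb r1 hρ2
    hp2 hpω hfin hh1 hkN cp1 cp2 s1' s2' (by linarith) h𝓛
    (pow_mem (le_sup_left (a := L1) (b := L2) (m1 β).1) 6)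
    (pow_mem (le_sup_left (a := L1) (b := L2) (m1 β).2) 6) (by simpa using β0) (by simpa using β0)
    (hs σ) (hs τ)
  have hx0 : 0 ≤ C2 ^ 2 ^ k := by positivity
  have b2 := LOCT.mb_le (C := C) (δ := δ) (r1 := (S'.erase P').card + rk K) (S := S)
    (l1 := (2 * ((S'.erase P').card : ℝ) + 5) ^ ((S'.erase P').card + rk K) *
      ((∏ v ∈ S'.erase P', wt v) * (9 * √(dk K)) * (1 + Real.log (9 * √(dk K))) ^ 4)) hC1
    (by linarith) (by have := rk_le K K3; omega) hW1 hW2 hD hp.pos hh1 hx0 (by gcongr) hDN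
    (by linarith) f1 f3 h𝓛
  have b1 := LOCT.le_mb (l2 := dk K ^ 4 * C2 ^ 2 ^ k)
    (l1 := (2 * ((S'.erase P').card : ℝ) + 5) ^ ((S'.erase P').card + rk K) *
      ((∏ v ∈ S'.erase P', wt v) * (9 * √(dk K)) * (1 + Real.log (9 * √(dk K))) ^ 4)) p (36 * 2 ^ k) h
    ((S'.erase P').card + rk K) r2 hC1 (by positivity) (by positivity) hH hN1 h𝓛
  generalize mb C1 p N _ h _ r2 _ _ _ 𝓛 = b at b1 b2 key
  have τ0 : ι (τ β) ≠ 0 := by simpa using β0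
  obtain ⟨x, hx⟩ : ∃ x, ι (σ β) = x * ι (τ β) := ⟨_, (div_mul_cancel₀ _ τ0).symm⟩
  have x1 : x ≠ 1 := by
    rintro rfl
    exact hne (ι.injective (by rw [hx, one_mul]))
  rw [hx, ← sub_one_mul, norm_mul]
  refine mul_le_mul_of_nonneg_right ?_ (norm_nonneg _)
  have e1 : Real.exp (-1) ≤ 1 / 2 := by
    rw [Real.exp_neg, one_div]
    exact inv_anti₀ (by norm_num) (by linarith [Real.add_one_le_exp (1 : ℝ)])
  by_cases hc : ‖x - 1‖ ≤ om N / 2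
  swap
  · refine le_trans ?_ (not_le.1 hc).le
    calc _ ≤ Real.exp (-(2000 * N) + -1) := Real.exp_le_exp.2 (by linarith)
      _ ≤ _ := by
        rw [Real.exp_add, om, div_eq_mul_one_div]
        gcongr
  obtain ⟨t, ht, hte⟩ := exists_log hF (x := x) (r := 2 * ‖x - 1‖) (by linarith) (by linarith)
  obtain ⟨t1, t2⟩ := exp_nat_mul hF (t := t) (by linarith) 6
  have t0 : t ≠ 0 := by
    rintro rfl
    exact x1 (by rw [← hte, exp_zero])
  have xn : ‖x‖ = 1 := by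
    have := IsUltrametricDist.norm_add_eq_max_of_norm_ne_norm (x := x - 1) (y := 1)
      (by rw [norm_one]; linarith)
    rw [sub_add_cancel, norm_one] at this
    rw [this, max_eq_right (by linarith)]
  have lg : x ^ 6 * ι (τ (β ^ 6 / r0)) = ι (σ (β ^ 6 / r0)) := by
    simp only [map_div₀, map_pow, map_ratCast, hx]
    ring
  have su : SU (S'.erase P') (β ^ 6 / r0) := by
    refine ⟨hsu.1, fun v hv => ?_⟩
    by_cases h : v = P'
    · rw [h]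
      refine (hP' _ hsu.1).2 ?_
      have a := (hP _ hsu.1).1 (hsu.2 P hPS)
      have b := congrArg norm lg
      rw [norm_mul, norm_pow, xn, one_pow, one_mul] at b
      exact b.trans a
    · exact hsu.2 v fun k => hv (mem_erase.2 ⟨h, k⟩)
  have fin := key ((6 : ℕ) * t) ⟨_, su, by
      have : ((r0 : ℚ) : Qb) ≠ 0 := by exact_mod_cast hr0
      simp only [map_div₀, map_pow, map_ratCast]
      rw [div_div_div_cancel_right₀ this]⟩
    (by rw [t2, hte, map_pow, map_pow, hx]; ring) (by linarith)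
    (mul_ne_zero (by norm_num) t0) (by linarith)
  calc _ ≤ Real.exp (-b + -1) := Real.exp_le_exp.2 (by linarith)
    _ ≤ 2 * ‖x - 1‖ * (1 / 2) := by
      rw [Real.exp_add]
      gcongr
      linarith
    _ = _ := by ring

end Pool.Agent.Szpiro98.V4
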