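import Pool.Agent.Lib.Szpiro98.Blue4

namespace Pool.Agent.Szpiro98.V4

open Finset Module NumberField IsDedekindDomain NormedSpace Pool.Agent.Lib.MP_cafdd5_nt

namespace Mid4

lemma cp_mul {p : ℕ} [Fact p.Prime] {ρ x y : ℂ_[p]} {r : ℚ_[p]}
    (hρ : ρ ^ 2 = algebraMap ℚ_[p] ℂ_[p] r) (hx : CP ρ x) (hy : CP ρ y) : CP ρ (x * y) := by
  obtain ⟨u, v, a, b, c⟩ := hx
  obtain ⟨u', v', a', b', c'⟩ := hy
  set ι := algebraMap ℚ_[p] ℂ_[p]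
  have e1 : ι (u * u' + v * v' * r) + ι (u * v' + v * u') * ρ =
      (ι u + ι v * ρ) * (ι u' + ι v' * ρ) := by
    simp only [map_add, map_mul]
    linear_combination (-(ι v * ι v')) * hρ
  have e2 : ι (u * u' + v * v' * r) - ι (u * v' + v * u') * ρ =
      (ι u - ι v * ρ) * (ι u' - ι v' * ρ) := by
    simp only [map_add, map_mul]
    linear_combination (-(ι v * ι v')) * hρ
  refine ⟨u * u' + v * v' * r, u * v' + v * u', ?_, ?_, ?_⟩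
  · rw [e1, norm_mul, a, a', one_mul]
  · rw [e2, norm_mul, b, b', one_mul]
  · rw [e1, e2, ← c, ← c']
    ring

/-- Refinement of a finite family to a family with close logarithms. -/
lemma refine {p : ℕ} [Fact p.Prime] (ρ : ℂ_[p]) (r : ℚ_[p]) (hr : r ≠ 0)
    (hρ : ρ ^ 2 = algebraMap ℚ_[p] ℂ_[p] r) (p2 : p ≠ 2) {ω : ℝ} (ω0 : 0 < ω) (ω1 : ω ≤ 1 / 16)
    (hω : 4 ≤ p * ω ^ 2) {κ : Type} (Γ : Finset κ) (hne : Γ.Nonempty) (x : κ → ℂ_[p])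
    (hx : ∀ γ ∈ Γ, CP ρ (x γ)) :
    ∃ T ⊆ Γ, (Γ.card : ℝ) ≤ T.card * (2 * p) ∧ ∃ c : ℂ_[p], c ≠ 0 ∧
      ∀ γ ∈ T, ∃ t : ℂ_[p], ‖t‖ ≤ ω ∧ exp t = x γ / c := by
  classical
  obtain ⟨n, cls, hn, hcls⟩ := V2.cls2 p ρ r hr hρ (ω / 2) (by linarith) (by linarith) p2
    (by linarith)
  choose! u v hX hY hxy using hx
  set X : κ → ℂ_[p] := fun γ => algebraMap ℚ_[p] ℂ_[p] (u γ) + algebraMap ℚ_[p] ℂ_[p] (v γ) * ρ
  set Y : κ → ℂ_[p] := fun γ => algebraMap ℚ_[p] ℂ_[p] (u γ) - algebraMap ℚ_[p] ℂ_[p] (v γ) * ρ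
  have hX0 : ∀ γ ∈ Γ, X γ ≠ 0 := fun γ h => norm_pos_iff.1 (by rw [hX γ h]; exact one_pos)
  have hY0 : ∀ γ ∈ Γ, Y γ ≠ 0 := fun γ h => norm_pos_iff.1 (by rw [hY γ h]; exact one_pos)
  have hq : ∀ γ ∈ Γ, x γ = X γ / Y γ := fun γ h => eq_div_of_mul_eq (hY0 γ h) (hxy γ h)
  obtain ⟨γ1, g1, hmax⟩ := exists_max_image Γ
    (fun γ => (Γ.filter fun γ' => cls (X γ', Y γ') = cls (X γ, Y γ)).card) hne
  set Γ' := Γ.filter fun γ' => cls (X γ', Y γ') = cls (X γ1, Y γ1) with hΓ'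
  have hcard : Γ.card ≤ Γ'.card * n := by
    refine (card_le_mul_card_image (f := fun γ => cls (X γ, Y γ)) Γ Γ'.card fun a ha => ?_).trans
      (Nat.mul_le_mul_left _ ((card_le_univ _).trans_eq (Fintype.card_fin n)))
    obtain ⟨γ, hγ, rfl⟩ := mem_image.1 ha
    exact hmax γ hγ
  refine ⟨Γ', filter_subset _ _, ?_, x γ1, ?_, fun γ hγ => ?_⟩
  · refine le_trans (by exact_mod_cast hcard : (Γ.card : ℝ) ≤ Γ'.card * n) ?_
    gcongr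
  · rw [hq γ1 g1]
    exact div_ne_zero (hX0 γ1 g1) (hY0 γ1 g1)
  · obtain ⟨a, b⟩ := mem_filter.1 hγ
    refine exists_log (anp p).1 ω1 ?_
    have e : x γ / x γ1 = X γ * Y γ1 / (Y γ * X γ1) := by
      rw [hq γ a, hq γ1 g1, div_div_div_eq]
    rw [e, div_sub_one (mul_ne_zero (hY0 γ a) (hX0 γ1 g1)), norm_div, norm_mul, hY γ a, hX γ1 g1,
      mul_one, div_one]
    exact hcls _ _ _ _ ⟨_, _, rfl, rfl⟩ ⟨_, _, rfl, rfl⟩ (hX γ a) (hY γ a) (hX γ1 g1) (hY γ1 g1) b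

lemma log_A {R D L : ℝ} (hR : 0 ≤ R) (hD : 1 ≤ D) (hL : 0 < L) (h : 1 ≤ Real.log L) :
    3 * R * Real.log (2 * (Real.exp (3 * R ^ 2) * (4 * D * (6 * L))) ^ 2) ≤
      198 * ((R + 1) ^ 3 * D * Real.log L) := by
  rw [show 4 * D * (6 * L) = 24 * (D * L) by ring, Real.log_mul (by norm_num) (by positivity),
    Real.log_pow, Real.log_mul (by positivity) (by positivity), Real.log_exp,
    Real.log_mul (by norm_num) (by positivity), Real.log_mul (by positivity) hL.ne']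
  have h1 := Real.log_le_sub_one_of_pos (show (0 : ℝ) < 2 by norm_num)
  have h2 := Real.log_le_sub_one_of_pos (show (0 : ℝ) < 24 by norm_num)
  have h3 := Real.log_le_sub_one_of_pos (show (0 : ℝ) < D by linarith)
  generalize Real.log L = l at *
  have h4 : 1 ≤ (R + 1) ^ 2 := one_le_pow₀ (by linarith)
  have h5 : 1 ≤ D * l := one_le_mul_of_one_le_of_one_le hD h
  have h6 : D * l ≤ (R + 1) ^ 2 * (D * l) := le_mul_of_one_le_left (by linarith) h4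
  have h7 : (R + 1) ^ 2 ≤ (R + 1) ^ 2 * (D * l) := le_mul_of_one_le_right (by positivity) h5
  have h8 : D ≤ D * l := le_mul_of_one_le_right (by linarith) h
  have h9 : l ≤ D * l := le_mul_of_one_le_left (by linarith) hD
  have h10 : Real.log 2 + 2 * (3 * R ^ 2 + (Real.log 24 + (Real.log D + l))) ≤
      66 * ((R + 1) ^ 2 * (D * l)) := by nlinarith
  push_cast
  calc _ ≤ 3 * R * (66 * ((R + 1) ^ 2 * (D * l))) := by gcongr
    _ ≤ 3 * (R + 1) * (66 * ((R + 1) ^ 2 * (D * l))) := by gcongr; linarith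
    _ = _ := by ring

lemma count {A F D h τ P l1 l2 g1 g2 T I : ℝ} {n o r1 r2 : ℕ} (hA : 0 ≤ A) (hF : 0 < F)
    (hD : 1 ≤ D) (hh : 1 ≤ h) (hτ : 1 ≤ τ) (hP : 0 < P) (h1 : 0 < l1) (h2 : 0 < l2)
    (hg : 0 ≤ g1) (hno : n + o ≤ r1 + r2) (ho : o ≤ r1)
    (c1 : (h * τ / 2) ^ r1 ≤ g1 * l1) (c2 : (h * τ / 2) ^ r2 ≤ g2 * l2)
    (c3 : g1 * g2 ≤ T * (2 * P)) (c4 : T ≤ I * (F * (20 * D * (h * τ / 2)) ^ o))
    (c5 : A * 4 ^ (r1 + r2) * F * 10 ^ (r1 + r2) * (P * l1 * l2 * D ^ r1 / h ^ r2) ≤ τ) :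
    A * (2 * τ) ^ n ≤ I * (2 * τ) := by
  have hDh : 1 ≤ D * h := one_le_mul_of_one_le_of_one_le hD hh
  have hK : 0 < 2 * (P * l1 * l2) * (F * (20 * D * (h * τ / 2)) ^ o) := by positivity
  refine le_of_mul_le_mul_right ?_ hK
  have e1 : (h * τ / 2) ^ (r1 + r2) ≤
      I * (2 * (P * l1 * l2) * (F * (20 * D * (h * τ / 2)) ^ o)) := by
    calc _ ≤ g1 * l1 * (g2 * l2) := by
          rw [pow_add]
          exact mul_le_mul c1 c2 (by positivity) (by positivity)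
      _ = g1 * g2 * (l1 * l2) := by ring
      _ ≤ T * (2 * P) * (l1 * l2) := by gcongr
      _ ≤ I * (F * (20 * D * (h * τ / 2)) ^ o) * (2 * P) * (l1 * l2) := by gcongr
      _ = _ := by ring
  have e2 : τ ^ (n + o) ≤ τ ^ (r1 + r2) := pow_le_pow_right₀ hτ hno
  have e3 : (2 : ℝ) ^ n ≤ 2 ^ (r1 + r2) := pow_le_pow_right₀ (by norm_num) (by omega)
  have e4 : (10 : ℝ) ^ o ≤ 10 ^ (r1 + r2) := pow_le_pow_right₀ (by norm_num) (by omega)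
  have e5 : (D * h) ^ o ≤ (D * h) ^ r1 := pow_le_pow_right₀ hDh ho
  calc _ = A * 2 ^ n * τ ^ (n + o) * (2 * (P * l1 * l2)) * F * 10 ^ o * (D * h) ^ o := by
        rw [show 20 * D * (h * τ / 2) = 10 * (D * h) * τ by ring, mul_pow, mul_pow, mul_pow 10,
          pow_add]
        ring
    _ ≤ A * 2 ^ (r1 + r2) * τ ^ (r1 + r2) * (2 * (P * l1 * l2)) * F * 10 ^ (r1 + r2) *
          (D * h) ^ r1 := by gcongr
    _ = (h * τ / 2) ^ (r1 + r2) * (2 * (A * 4 ^ (r1 + r2) * F * 10 ^ (r1 + r2) *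
          (P * l1 * l2 * D ^ r1 / h ^ r2))) := by
        rw [show (4 : ℝ) = 2 * 2 by norm_num, mul_pow 2 2, div_pow, mul_pow h, mul_pow D,
          pow_add h]
        field_simp
    _ ≤ (h * τ / 2) ^ (r1 + r2) * (2 * τ) := by gcongr
    _ ≤ I * (2 * (P * l1 * l2) * (F * (20 * D * (h * τ / 2)) ^ o)) * (2 * τ) := by gcongr
    _ = _ := by ring

/-- The numerical constants. -/
noncomputable def c0 : ℝ := 2073 * 8 * 200 ^ 2 * 40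

noncomputable def c1 : ℝ := 10240 * Real.exp 6

lemma one_le_c0 : 1 ≤ c0 := by norm_num [c0]

lemma one_le_c1 : 1 ≤ c1 := by
  rw [c1]
  linarith [Real.add_one_le_exp 6]

lemma num {R D : ℕ} (hD : 1 ≤ D) {A x l Q N : ℝ} (hA : 0 ≤ A) (hl : 0 ≤ l) (hQ : 0 ≤ Q)
    (hN : 0 ≤ N) (h1 : A ≤ 200 * ((R + 1) ^ 3 * D * l))
    (h3 : x ≤ 2 * (4 * D * A * Real.exp (6 * R) * 4 ^ R * 5 ^ D * 10 ^ R * Q)) :
    4 ^ R * A * x * (2073 * N * l) ≤ (c0 * c1) ^ (R + D) * Q * N * l ^ 3 := by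
  have h4 : (R : ℝ) + 1 ≤ 2 ^ R := by exact_mod_cast R.lt_two_pow_self
  have h5 : (D : ℝ) ≤ 2 ^ D := by exact_mod_cast D.lt_two_pow_self.le
  have h6 : (2073 * 8 * 200 ^ 2 : ℝ) ≤ (2073 * 8 * 200 ^ 2) ^ D :=
    le_self_pow₀ (by norm_num) (by omega)
  have h7 : c0 ^ D ≤ c0 ^ (R + D) := pow_le_pow_right₀ one_le_c0 (by omega)
  have h8 : c1 ^ R ≤ c1 ^ (R + D) := pow_le_pow_right₀ one_le_c1 (by omega)
  have h9 := one_le_c0
  have h10 := one_le_c1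
  calc _ ≤ 4 ^ R * (200 * ((R + 1) ^ 3 * D * l)) * (2 * (4 * D * (200 * ((R + 1) ^ 3 * D * l)) *
          Real.exp (6 * R) * 4 ^ R * 5 ^ D * 10 ^ R * Q)) * (2073 * N * l) := by
        refine (mul_le_mul_of_nonneg_right (mul_le_mul_of_nonneg_left h3 (by positivity))
          (by positivity)).trans ?_
        gcongr
    _ = 2073 * 8 * 200 ^ 2 * (D : ℝ) ^ 3 * (R + 1) ^ 6 *
          (5 ^ D * 4 ^ R * 4 ^ R * 10 ^ R * Real.exp (6 * R) * Q * N * l ^ 3) := by ring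
    _ ≤ (2073 * 8 * 200 ^ 2) ^ D * (2 ^ D) ^ 3 * (2 ^ R) ^ 6 *
          (5 ^ D * 4 ^ R * 4 ^ R * 10 ^ R * Real.exp (6 * R) * Q * N * l ^ 3) := by gcongr
    _ = c0 ^ D * c1 ^ R * Q * N * l ^ 3 := by
        rw [c0, c1, mul_comm (6 : ℝ), Real.exp_nat_mul, mul_pow _ (40 : ℝ), mul_pow (10240 : ℝ),
          show (40 : ℝ) = 2 ^ 3 * 5 by norm_num, show (10240 : ℝ) = 2 ^ 6 * 4 * 4 * 10 by norm_num,
          mul_pow (2 ^ 3 : ℝ), mul_pow _ (10 : ℝ), mul_pow _ (4 : ℝ), mul_pow _ (4 : ℝ),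
          pow_right_comm (2 : ℝ) 3, pow_right_comm (2 : ℝ) 6]
        ring
    _ ≤ c0 ^ (R + D) * c1 ^ (R + D) * Q * N * l ^ 3 := by gcongr
    _ = _ := by rw [mul_pow]

lemma sup_pos {L : IntermediateField ℚ Qb} {G : Set Qb} {r : ℕ} {l H : ℝ} (h : Sup L G r l H)
    (hH : 1 ≤ H) : 0 < l := by
  obtain ⟨Γ, a, -⟩ := h.2.2.2 H le_rfl
  have e : 0 < (Γ.card : ℝ) * l := (pow_pos (show 0 < H by linarith) r).trans_le a
  exact (pos_iff_pos_of_mul_pos e).1 (lt_of_le_of_ne (Nat.cast_nonneg _) fun h => by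
    rw [← h, zero_mul] at e; exact lt_irrefl _ e)

end Mid4

open Mid4 in
theorem mid (h1 : CoordStmt) (h2 : RankStmt) (h3 : OvlStmt) : MidStmt := by
  classical
  refine ⟨c0 * c1, one_le_mul_of_one_le_of_one_le one_le_c0 one_le_c1, ?_⟩
  intro p hp ι ρ r N D h L _ G1 G2 r1 r2 l1 l2 H 𝓛 a b tb hr hρ p2 hω hD hh hDN cp1 cp2 s1 s2 hH hL
    aL bL a0 b0 ha hb hab hexp htb tb0 hmb
  have hD1 : 1 ≤ D := (Module.finrank_pos (R := ℚ) (M := L)).trans_le hD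
  have hD' : (1 : ℝ) ≤ D := by exact_mod_cast hD1
  have hh' : (1 : ℝ) ≤ h := by exact_mod_cast hh
  have hhN : (h : ℝ) ≤ N := by
    exact_mod_cast (Nat.le_mul_of_pos_left h hD1).trans hDN
  have hN' : (1 : ℝ) ≤ N := hh'.trans hhN
  have hp0 : (0 : ℝ) < p := by exact_mod_cast hp.out.pos
  have hl : 1 ≤ Real.log 𝓛 := (Real.le_log_iff_exp_le (by linarith)).2
    (Real.exp_one_lt_d9.le.trans (by linarith))
  have hl1 := sup_pos s1 hH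
  have hl2 := sup_pos s2 hH
  obtain ⟨R, hR⟩ : ∃ R, R = r1 + r2 := ⟨_, rfl⟩
  have hR0 : (0 : ℝ) ≤ R := Nat.cast_nonneg _
  obtain ⟨A0, hA1, hA2, hA3⟩ : ∃ A0 : ℕ, 198 * ((R + 1) ^ 3 * D * Real.log 𝓛) ≤ A0 ∧
      (A0 : ℝ) ≤ 200 * ((R + 1) ^ 3 * D * Real.log 𝓛) ∧ D ≤ A0 := by
    have e1 : (1 : ℝ) ≤ (R + 1) ^ 3 := one_le_pow₀ (by linarith)
    have e2 : (D : ℝ) ≤ (R + 1) ^ 3 * D * Real.log 𝓛 :=
      (le_mul_of_one_le_left (by linarith) e1).trans (le_mul_of_one_le_right (by positivity) hl)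
    have e3 := Nat.le_ceil (198 * ((R + 1) ^ 3 * D * Real.log 𝓛))
    refine ⟨_, e3, (Nat.ceil_lt_add_one (by positivity)).le.trans (by linarith), ?_⟩
    exact_mod_cast (by linarith : (D : ℝ) ≤ ⌈198 * ((R + 1) ^ 3 * D * Real.log 𝓛)⌉₊)
  have hA : (1 : ℝ) ≤ A0 := by exact_mod_cast hD1.trans hA3
  obtain ⟨P, hP⟩ : ∃ P : ℝ, P = p * l1 * l2 * D ^ r1 / h ^ r2 := ⟨_, rfl⟩
  have hP0 : 0 ≤ P := by rw [hP]; positivity
  obtain ⟨M, hM⟩ : ∃ M : ℝ, M = 4 * D * A0 * Real.exp (6 * R) * 4 ^ R * 5 ^ D * 10 ^ R := ⟨_, rfl⟩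
  have hM4 : 4 ≤ M := by
    have e1 : 1 ≤ Real.exp (6 * R) := Real.one_le_exp (by positivity)
    have e2 : (1 : ℝ) ≤ 4 ^ R := one_le_pow₀ (by norm_num)
    have e3 : (1 : ℝ) ≤ 5 ^ D := one_le_pow₀ (by norm_num)
    have e4 : (1 : ℝ) ≤ 10 ^ R := one_le_pow₀ (by norm_num)
    calc (4 : ℝ) = 4 * 1 * 1 * 1 * 1 * 1 * 1 := by norm_num
      _ ≤ _ := by rw [hM]; gcongr
  have hMH : 4 * H ≤ M * H := mul_le_mul_of_nonneg_right hM4 (by linarith)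
  have hMP : 0 ≤ M * P := mul_nonneg (by linarith) hP0
  obtain ⟨J, hJ1, hJ2⟩ : ∃ J : ℕ, M * (P + H) ≤ 2 ^ J ∧ (2 : ℝ) ^ J ≤ 2 * (M * (P + H)) := by
    obtain ⟨n, a, b⟩ := exists_nat_pow_near (x := M * (P + H)) (y := (2 : ℝ)) (by linarith)
      (by norm_num)
    refine ⟨n + 1, b.le, ?_⟩
    rw [pow_succ']
    linarith
  have hτ : (1 : ℝ) ≤ 2 ^ J := one_le_pow₀ (by norm_num)
  have hnum := num (R := R) hD1 (A := A0) (x := 2 ^ J) (l := Real.log 𝓛) (Q := P + H) (N := N)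
    (by linarith) (by linarith) (by linarith) (by linarith) hA2 (by rwa [← hM])
  have emb : mb (c0 * c1) p N D h r1 r2 l1 l2 H 𝓛 =
      (c0 * c1) ^ (R + D) * (P + H) * N * Real.log 𝓛 ^ 3 := by rw [mb, hR, hP]
  rw [emb] at hmb ⊢
  have hZ1 : (2 : ℝ) ^ J ≤ 4 ^ R * A0 * 2 ^ J := le_mul_of_one_le_left (by positivity)
    (one_le_mul_of_one_le_of_one_le (one_le_pow₀ (by norm_num)) hA)
  have hZ0 : (0 : ℝ) < 4 ^ R * A0 * 2 ^ J := by positivity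
  have hNl : (N : ℝ) ≤ N * Real.log 𝓛 := le_mul_of_one_le_right (by linarith) hl
  have hZN : (4 : ℝ) ^ R * A0 * 2 ^ J * N ≤ 𝓛 :=
    (mul_le_mul_of_nonneg_left (by linarith) hZ0.le).trans (hnum.trans hmb.le)
  have hZ : (4 : ℝ) ^ R * A0 * 2 ^ J ≤ 𝓛 := (le_mul_of_one_le_right hZ0.le hN').trans hZN
  have hB : (h : ℝ) * 2 ^ J ≤ 6 * 𝓛 := by
    have := mul_le_mul hhN hZ1 (by positivity) (by linarith)
    linarith
  have hH' : H ≤ h * 2 ^ J / 2 := by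
    have : (2 : ℝ) ^ J ≤ h * 2 ^ J := le_mul_of_one_le_left (by positivity) hh'
    linarith
  obtain ⟨Γ1, k1, m1, q1⟩ := s1.2.2.2 _ hH'
  obtain ⟨Γ2, k2, m2, q2⟩ := s2.2.2.2 _ hH'
  have ne : ∀ {Γ : Finset Qb} {r : ℕ} {l : ℝ}, ((h : ℝ) * 2 ^ J / 2) ^ r ≤ Γ.card * l →
      Γ.Nonempty := by
    intro Γ r l e
    rw [nonempty_iff_ne_empty]
    rintro rfl
    have := pow_pos (show (0 : ℝ) < h * 2 ^ J / 2 by positivity) r
    simp only [card_empty, Nat.cast_zero, zero_mul] at e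
    linarith
  obtain ⟨γ0, hγ0⟩ := ne k1
  obtain ⟨u0, hu0⟩ := ne k2
  have ω0 : 0 < om N := Real.exp_pos _
  have ω1 : om N ≤ 1 / 16 := by
    rw [om, Real.exp_neg, ← one_div]
    refine one_div_le_one_div_of_le (by norm_num) ?_
    linarith [Real.add_one_le_exp (2000 * (N : ℝ))]
  obtain ⟨T, hT, hTc, c, c0', hlog⟩ := refine ρ r hr hρ p2 ω0 ω1 hω (Γ1 ×ˢ Γ2)
    ⟨(γ0, u0), mem_product.2 ⟨hγ0, hu0⟩⟩ (fun z => ι (z.1 / γ0) * ι (z.2 / u0)) fun z hz =>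
      cp_mul hρ (cp1 _ (q1 _ (mem_product.1 hz).1 _ hγ0)) (cp2 _ (q2 _ (mem_product.1 hz).2 _ hu0))
  have hT1 : ∀ z ∈ T, z.1 ∈ Γ1 := fun z hz => (mem_product.1 (hT hz)).1
  have hT2 : ∀ z ∈ T, z.2 ∈ Γ2 := fun z hz => (mem_product.1 (hT hz)).2
  obtain ⟨n, o, hno, ho, hRK, hovl⟩ := h3 L D hD G1 G2 r1 r2 s1.1 s2.1 (h2 L G1 r1 s1.2.2.1)
    (h2 L G2 r2 s2.2.2.1)
  set I : Finset Qb := T.image fun z => z.1 * z.2 with hI
  have hTI := hovl (h * 2 ^ J / 2) T I (hH.trans hH')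
    (fun z hz => ⟨(m1 _ (hT1 z hz)).1, (m1 _ (hT1 z hz)).2.1, (m1 _ (hT1 z hz)).2.2,
      (m2 _ (hT2 z hz)).2.1, mem_image_of_mem _ hz⟩)
    fun z hz z' hz' => ⟨q1 _ (hT1 z hz) _ (hT1 z' hz'), q2 _ (hT2 z hz) _ (hT2 z' hz')⟩
  have hc' : ι (γ0 * u0) * c ≠ 0 := mul_ne_zero
    ((map_ne_zero ι).2 (mul_ne_zero (m1 _ hγ0).2.1 (m2 _ hu0).2.1)) c0'
  have hlog' : ∀ z ∈ I, ∃ t : ℂ_[p], ‖t‖ ≤ om N ∧ exp t = ι z / (ι (γ0 * u0) * c) := by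
    intro z hz
    obtain ⟨w, hw, rfl⟩ := mem_image.1 hz
    obtain ⟨t, t1, t2⟩ := hlog w hw
    refine ⟨t, t1, ?_⟩
    rw [t2, ← map_mul, div_mul_div_comm, map_div₀, div_div]
  choose! t ht1 ht2 using hlog'
  refine le_trans (Real.exp_le_exp.2 (neg_le_neg (le_trans ?_ hnum))) (h1 p ι R N D h L p2 hD hh
    hDN _ n (hR ▸ hno.trans' (Nat.le_add_right _ _)) hRK I t J A0 (6 * 𝓛) a b tb hB
    (fun z hz => ?_) (fun z hz z' hz' => ?_) ?_ ((log_A hR0 hD' (by linarith) hl).trans hA1) hA3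
    aL bL a0 b0 ha hb ⟨_, hab, 1, s2.2.1, (mul_one _).symm⟩ hexp htb tb0)
  · rw [V2.cb, Nat.cast_ofNat]
    refine mul_le_mul_of_nonneg_left ?_ hZ0.le
    have := Real.log_le_log (by positivity)
      (mul_le_mul_of_nonneg_left hZ (by norm_num : (0 : ℝ) ≤ 24))
    rw [Real.log_mul (x := 24) (y := 𝓛) (by norm_num) (by linarith)] at this
    have h3 := Real.log_le_sub_one_of_pos (show (0 : ℝ) < 24 by norm_num)
    have h4 : Real.log 𝓛 ≤ N * Real.log 𝓛 := le_mul_of_one_le_left (by linarith) hN'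
    linarith
  · refine ⟨?_, ?_, ?_, ht1 z hz⟩ <;> obtain ⟨w, hw, rfl⟩ := mem_image.1 hz
    · exact L.mul_mem (m1 _ (hT1 w hw)).1 (m2 _ (hT2 w hw)).1
    · exact mul_ne_zero (m1 _ (hT1 w hw)).2.1 (m2 _ (hT2 w hw)).2.1
    · refine ((m1 _ (hT1 w hw)).2.2.mul (m2 _ (hT2 w hw)).2.2).mono (le_of_eq ?_)
      rw [← Real.exp_add, add_halves]
  · constructor
    · obtain ⟨w, hw, rfl⟩ := mem_image.1 hz
      obtain ⟨w', hw', rfl⟩ := mem_image.1 hz'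
      exact ⟨_, q1 _ (hT1 w hw) _ (hT1 w' hw'), _, q2 _ (hT2 w hw) _ (hT2 w' hw'),
        (div_mul_div_comm _ _ _ _).symm⟩
    · have e := exp_add_small (anp p).1 (x := t z - t z') (y := t z')
        ((ult_sub (ht1 z hz) (ht1 z' hz')).trans (by linarith)) ((ht1 z' hz').trans (by linarith))
      rw [sub_add_cancel, ht2 z hz, ht2 z' hz', ← mul_div_assoc, div_left_inj' hc'] at e
      rw [e, mul_comm]
  · refine count (F := 5 ^ D) (P := p) (by positivity) (by positivity) hD' hh' hτ hp0 hl1 hl2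
      (Nat.cast_nonneg _) hno ho k1 k2 (by simpa using hTc) hTI ?_
    rw [← hR, ← hP, ← hM]
    nlinarith

end Pool.Agent.Szpiro98.V4
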