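import Pool.Agent.Lib.Szpiro98.Blue4

/-! Block OVL4: fibres of the product map on pairs of units. -/

namespace Pool.Agent.Szpiro98.V4

open Finset Module NumberField IsDedekindDomain

namespace Ovl

open Metric MeasureTheory in
lemma pack {E : Type} [NormedAddCommGroup E] [NormedSpace ℝ E] [FiniteDimensional ℝ E] {κ : Type}
    (s : Finset κ) (φ : κ → E) {R : ℝ} (R0 : 0 ≤ R) (hs : ∀ c ∈ s, ‖φ c‖ ≤ R)
    (h : ∀ c ∈ s, ∀ d ∈ s, c ≠ d → 1 / 2 ≤ ‖φ c - φ d‖) :
    (s.card : ℝ) ≤ (4 * R + 1) ^ finrank ℝ E := by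
  borelize E
  let μ : Measure E := Measure.addHaar
  have ρpos : 0 < R + 1 / 4 := by positivity
  have D : Set.Pairwise (s : Set κ) (Function.onFun Disjoint fun c => ball (φ c) (1 / 4 : ℝ)) := by
    rintro c hc d hd hcd
    apply ball_disjoint_ball
    rw [dist_eq_norm]
    linarith [h c hc d hd hcd]
  have sub : (⋃ c ∈ s, ball (φ c) (1 / 4 : ℝ)) ⊆ ball (0 : E) (R + 1 / 4) := by
    refine Set.iUnion₂_subset fun x hx => ?_
    apply ball_subset_ball'
    rw [dist_zero_right]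
    linarith [hs x hx]
  have I : (s.card : ENNReal) * ENNReal.ofReal ((1 / 4 : ℝ) ^ finrank ℝ E) * μ (ball 0 1) ≤
      ENNReal.ofReal ((R + 1 / 4) ^ finrank ℝ E) * μ (ball 0 1) :=
    calc (s.card : ENNReal) * ENNReal.ofReal ((1 / 4 : ℝ) ^ finrank ℝ E) * μ (ball 0 1)
        = μ (⋃ c ∈ s, ball (φ c) (1 / 4 : ℝ)) := by
          rw [measure_biUnion_finset D fun c _ => measurableSet_ball]
          have I : (0 : ℝ) < 1 / 4 := by norm_num
          simp only [μ.addHaar_ball_of_pos _ I]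
          simp only [Finset.sum_const, nsmul_eq_mul, mul_assoc]
      _ ≤ μ (ball (0 : E) (R + 1 / 4)) := measure_mono sub
      _ = _ := by simp only [μ.addHaar_ball_of_pos _ ρpos]
  have J := (ENNReal.mul_le_mul_iff_left (measure_ball_pos μ (0 : E) zero_lt_one).ne'
    measure_ball_lt_top.ne).1 I
  have K := ENNReal.toReal_le_of_le_ofReal (pow_nonneg ρpos.le _) J
  rw [ENNReal.toReal_mul, ENNReal.toReal_natCast, ENNReal.toReal_ofReal (by positivity)] at K
  rw [show 4 * R + 1 = (R + 1 / 4) / (1 / 4) by ring, div_pow, le_div_iff₀ (by positivity)]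
  exact K

lemma cover {E : Type} [NormedAddCommGroup E] [NormedSpace ℝ E] [FiniteDimensional ℝ E] {κ : Type}
    (s : Finset κ) (φ : κ → E) {R M : ℝ} (R0 : 0 ≤ R) (M0 : 0 ≤ M) (hs : ∀ c ∈ s, ‖φ c‖ ≤ R)
    (h : ∀ c ∈ s, ∀ t : Finset κ, t ⊆ s → (∀ d ∈ t, ‖φ d - φ c‖ < 1 / 2) → (t.card : ℝ) ≤ M) :
    (s.card : ℝ) ≤ M * (4 * R + 1) ^ finrank ℝ E := by
  classical
  let P : Finset κ → Prop := fun Y => ∀ c ∈ Y, ∀ d ∈ Y, c ≠ d → 1 / 2 ≤ ‖φ c - φ d‖
  have : DecidablePred P := Classical.decPred _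
  obtain ⟨Y, hY, hmax⟩ := exists_max_image (s.powerset.filter P) card ⟨∅, by simp [P]⟩
  rw [mem_filter, mem_powerset] at hY
  have cov : s ⊆ Y.biUnion fun c => s.filter fun d => ‖φ d - φ c‖ < 1 / 2 := fun x hx => by
    by_contra hn
    simp only [mem_biUnion, mem_filter, not_exists, not_and, not_lt] at hn
    have xY : x ∉ Y := fun k => by
      have := hn x k hx
      rw [sub_self, norm_zero] at this
      norm_num at this
    have := hmax (insert x Y) (by
      rw [mem_filter, mem_powerset]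
      refine ⟨insert_subset hx hY.1, fun c hc d hd hcd => ?_⟩
      rcases mem_insert.1 hc with rfl | hc' <;> rcases mem_insert.1 hd with rfl | hd'
      · exact absurd rfl hcd
      · exact hn d hd' hx
      · rw [norm_sub_rev]; exact hn c hc' hx
      · exact hY.2 c hc' d hd' hcd)
    rw [card_insert_of_notMem xY] at this
    omega
  calc (s.card : ℝ) ≤ ((∑ c ∈ Y, (s.filter fun d => ‖φ d - φ c‖ < 1 / 2).card : ℕ) : ℝ) := by
        exact_mod_cast (card_le_card cov).trans card_biUnion_le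
    _ ≤ ∑ _c ∈ Y, M := by
        rw [Nat.cast_sum]
        exact sum_le_sum fun c hc => h c (hY.1 hc) _ (filter_subset _ _) fun d hd => (mem_filter.1 hd).2
    _ ≤ _ := by
        rw [sum_const, nsmul_eq_mul, mul_comm]
        exact mul_le_mul_of_nonneg_left (pack Y φ R0 (fun c hc => hs c (hY.1 hc)) hY.2) M0

variable {L : Type} [Field L] [NumberField L]

lemma lv_mul {x y : L} (hx : x ≠ 0) (hy : y ≠ 0) : lv (x * y) = lv x + lv y := by
  have p : ∀ (w : InfinitePlace L) {u : L}, u ≠ 0 → w u ≠ 0 := fun w _ h => (InfinitePlace.pos_iff.2 h).ne'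
  have q : ∀ (v : HOS L) {u : L}, u ≠ 0 → v.valuation L u ≠ 0 := fun v _ h => (Valuation.ne_zero_iff _).2 h
  refine Prod.ext (funext fun v => ?_) (funext fun w => ?_)
  · simp [lv, WithZero.log_mul (q v hx) (q v hy)]
  · simp [lv, Real.log_mul (p w hx) (p w hy)]

lemma small (t : Finset L) (h : ∀ u ∈ t, IsIntegral ℤ u ∧ ∀ w : InfinitePlace L, w u ≤ 2) :
    t.card ≤ 5 ^ finrank ℚ L := by
  classical
  let J : Ideal (𝓞 L) := Ideal.span {((5 : ℕ) : 𝓞 L)}
  have J0 : J ≠ ⊥ := by simp [J]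
  have : Finite (𝓞 L ⧸ J) := Ideal.finiteQuotientOfFreeOfNeBot _ J0
  have c : Nat.card (𝓞 L ⧸ J) = 5 ^ finrank ℚ L := by
    rw [← RingOfIntegers.rank, ← Ideal.absNorm_span_natCast, Ideal.absNorm_apply, Submodule.cardQuot_apply]
  rw [← c, ← Fintype.card_coe, ← Nat.card_eq_fintype_card]
  refine Nat.card_le_card_of_injective (fun u => Ideal.Quotient.mk J ⟨u.1, (h u.1 u.2).1⟩) ?_
  rintro ⟨u, hu⟩ ⟨u', hu'⟩ e
  obtain ⟨a, ha⟩ := Ideal.mem_span_singleton'.1 (Ideal.Quotient.eq.1 e)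
  have ha' : (a : L) * 5 = u - u' := by
    have := congrArg (algebraMap (𝓞 L) L) ha
    rw [map_mul, map_natCast, map_sub] at this
    exact_mod_cast this
  have lt : ∀ w : InfinitePlace L, w (a : L) < 1 := fun w => by
    have e1 : w (a : L) * 5 = w (u - u') := by
      rw [← ha', map_mul]
      congr 1
      rw [← InfinitePlace.norm_embedding_eq, map_ofNat]; simp
    have e2 : w (u - u') ≤ w u + w u' := by
      simp only [← InfinitePlace.norm_embedding_eq, map_sub]; exact norm_sub_le _ _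
    linarith [(h u hu).2 w, (h u' hu').2 w]
  have a0 : a = 0 := by
    by_contra a0
    obtain ⟨w⟩ : Nonempty (InfinitePlace L) := inferInstance
    exact absurd (lt w) (not_lt.2 (InfinitePlace.one_le_of_lt_one a0 fun z _ => lt z))
  rw [a0] at ha'
  exact Subtype.ext (sub_eq_zero.1 (by simpa using ha'.symm))

lemma finite_ne {a : L} (ha : a ≠ 0) : {w : HOS L | w.valuation L a ≠ 1}.Finite := by
  refine ((HeightOneSpectrum.Support.finite (𝓞 L) a).union
    (HeightOneSpectrum.Support.finite (𝓞 L) a⁻¹)).subset fun w hw => ?_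
  rcases lt_or_gt_of_ne hw with h | h
  · right
    change 1 < w.valuation L a⁻¹
    rw [map_inv₀]
    exact (one_lt_inv₀ (zero_lt_iff.mpr ((Valuation.ne_zero_iff _).2 ha))).mpr h
  · left; exact h

lemma count (V : Submodule ℝ ((HOS L → ℝ) × (InfinitePlace L → ℝ))) [FiniteDimensional ℝ V]
    (X : Finset L) {R : ℝ} (R0 : 0 ≤ R) (h : ∀ x ∈ X, x ≠ 0 ∧ lv x ∈ V ∧ Sz x R) :
    (X.card : ℝ) ≤ 5 ^ finrank ℚ L * (4 * R + 1) ^ finrank ℝ V := by
  classical
  have fin : (⋃ x ∈ X, {w : HOS L | w.valuation L x ≠ 1}).Finite :=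
    X.finite_toSet.biUnion fun x hx => finite_ne (h x hx).1
  let S := fin.toFinset
  have hS : ∀ x ∈ X, ∀ v ∉ S, v.valuation L x = 1 := fun x hx v hv => by
    by_contra k
    exact hv (fin.mem_toFinset.2 (Set.mem_biUnion hx k))
  let π : ((HOS L → ℝ) × (InfinitePlace L → ℝ)) →ₗ[ℝ] ((S → ℝ) × (InfinitePlace L → ℝ)) :=
    (LinearMap.funLeft ℝ ℝ (Subtype.val : S → HOS L)).prodMap LinearMap.id
  let φ : X → V.map π := fun x => ⟨π (lv x.1), Submodule.mem_map_of_mem (h x.1 x.2).2.1⟩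
  have key := cover (univ : Finset X) φ R0 (M := 5 ^ finrank ℚ L) (by positivity) (fun x _ => by
      change ‖π (lv x.1)‖ ≤ R
      rw [Prod.norm_def, max_le_iff, pi_norm_le_iff_of_nonneg R0, pi_norm_le_iff_of_nonneg R0]
      exact ⟨fun v => (h x.1 x.2).2.2.1 v, fun w => (h x.1 x.2).2.2.2 w⟩) (fun c _ t _ ht => by
      have c0 := (h c.1 c.2).1
      have inj : Function.Injective fun d : X => d.1 / c.1 := fun d d' e =>
        Subtype.ext ((div_left_inj' c0).1 e)
      rw [← card_image_of_injective t inj]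
      have := small (t.image fun d : X => d.1 / c.1) fun u hu => by
        obtain ⟨d, hd, rfl⟩ := mem_image.1 hu
        have d0 := (h d.1 d.2).1
        have k : ‖π (lv d.1) - π (lv c.1)‖ < 1 / 2 := ht d hd
        rw [Prod.norm_def, max_lt_iff, pi_norm_lt_iff (by norm_num), pi_norm_lt_iff (by norm_num)] at k
        refine ⟨Coord.integral_of_val fun v => ?_, fun w => ?_⟩
        · rw [map_div₀, div_eq_one_iff_eq ((Valuation.ne_zero_iff _).2 c0)]
          by_cases hv : v ∈ S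
          · have k1 : |((WithZero.log (v.valuation L d.1) : ℤ) : ℝ) -
                ((WithZero.log (v.valuation L c.1) : ℤ) : ℝ)| < 1 / 2 := k.1 ⟨v, hv⟩
            have k2 : |WithZero.log (v.valuation L d.1) - WithZero.log (v.valuation L c.1)| < 1 := by
              have := k1.trans (show (1 / 2 : ℝ) < 1 by norm_num)
              exact_mod_cast this
            rw [← WithZero.exp_log ((Valuation.ne_zero_iff _).2 d0 : v.valuation L d.1 ≠ 0),
              ← WithZero.exp_log ((Valuation.ne_zero_iff _).2 c0 : v.valuation L c.1 ≠ 0),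
              sub_eq_zero.1 (Int.abs_lt_one_iff.1 k2)]
          · rw [hS _ d.2 v hv, hS _ c.2 v hv]
        · have k1 : |Real.log (w d.1) - Real.log (w c.1)| < 1 / 2 := k.2 w
          have p1 : 0 < w d.1 := InfinitePlace.pos_iff.2 d0
          have p2 : 0 < w c.1 := InfinitePlace.pos_iff.2 c0
          rw [map_div₀, ← Real.log_le_log_iff (div_pos p1 p2) two_pos, Real.log_div p1.ne' p2.ne']
          linarith [(abs_lt.1 k1).2, Real.log_two_gt_d9]
      exact_mod_cast this)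
  rw [card_univ, Fintype.card_coe] at key
  refine key.trans (mul_le_mul_of_nonneg_left ?_ (by positivity))
  exact pow_le_pow_right₀ (by linarith) (Submodule.finrank_map_le π V)

end Ovl

theorem ovl (h : LvStmt) : OvlStmt := by
  classical
  intro L _ D hD G1 G2 r1 r2 h1 h2 ⟨V1, f1, d1, m1⟩ ⟨V2, f2, d2, m2⟩
  refine ⟨finrank ℝ (V1 ⊔ V2 : Submodule ℝ _), finrank ℝ (V1 ⊓ V2 : Submodule ℝ _), ?_,
    (Submodule.finrank_mono inf_le_left).trans d1, ⟨V1 ⊔ V2, inferInstance, le_rfl, ?_⟩, ?_⟩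
  · rw [Submodule.finrank_sup_add_finrank_inf_eq]; omega
  · rintro x ⟨a, ha, b, hb, e⟩
    have e' : x = (⟨a, (h1 a ha).1⟩ : L) * ⟨b, (h2 b hb).1⟩ := Subtype.ext e
    rw [e', Ovl.lv_mul (fun k => (h1 a ha).2 (congrArg Subtype.val k))
      (fun k => (h2 b hb).2 (congrArg Subtype.val k))]
    exact Submodule.add_mem_sup (m1 _ ha) (m2 _ hb)
  intro B T I B1 hT hG
  have D1 : (1 : ℝ) ≤ D := by exact_mod_cast (finrank_pos (R := ℚ) (M := L)).trans_le hD
  rw [card_eq_sum_card_fiberwise (f := fun z : Qb × Qb => z.1 * z.2) (t := I) fun z hz => (hT z hz).2.2.2.2,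
    Nat.cast_sum, ← nsmul_eq_mul, ← sum_const]
  refine sum_le_sum fun y _ => ?_
  rcases (T.filter fun z => z.1 * z.2 = y).eq_empty_or_nonempty with k | ⟨z0, hz0⟩
  · rw [k, card_empty, Nat.cast_zero]; positivity
  obtain ⟨t0, e0⟩ := mem_filter.1 hz0
  let F := T.filter fun z => z.1 * z.2 = y
  let a : F → L := fun z => ⟨z.1.1, (hT _ (mem_filter.1 z.2).1).1⟩
  have a0 : ∀ z, a z ≠ 0 := fun z k => (hT _ (mem_filter.1 z.2).1).2.1 (congrArg Subtype.val k)
  let c : F := ⟨z0, hz0⟩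
  have inj : Function.Injective fun z : F => a z / a c := fun z z' e => by
    have e1 : z.1.1 = z'.1.1 := congrArg Subtype.val ((div_left_inj' (a0 c)).1 e)
    have e2 : z.1.1 * z.1.2 = z'.1.1 * z'.1.2 := (mem_filter.1 z.2).2.trans (mem_filter.1 z'.2).2.symm
    rw [e1] at e2
    exact Subtype.ext (Prod.ext e1 (mul_left_cancel₀ (hT _ (mem_filter.1 z'.2).1).2.1 e2))
  have key := Ovl.count (V1 ⊓ V2) (univ.image fun z : F => a z / a c) (R := 2 * D * B) (by positivity)
    fun x hx => by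
      obtain ⟨z, -, rfl⟩ := mem_image.1 hx
      obtain ⟨tz, ez⟩ := mem_filter.1 z.2
      have e1 : ((a z / a c : L) : Qb) = z.1.1 / z0.1 := rfl
      have e2 : z.1.1 / z0.1 = z0.2 / z.1.2 := by
        rw [div_eq_div_iff (hT _ t0).2.1 (hT _ tz).2.2.2.1, ez, mul_comm, e0]
      exact ⟨div_ne_zero (a0 z) (a0 c), ⟨m1 _ (e1 ▸ (hG _ tz _ t0).1), m2 _ (e1 ▸ e2 ▸ (hG _ t0 _ tz).2)⟩,
        h L D hD _ _ B (by linarith) (a0 z) (a0 c) (hT _ tz).2.2.1 (hT _ t0).2.2.1⟩
  rw [card_image_of_injective _ inj, card_univ, Fintype.card_coe] at key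
  refine key.trans (mul_le_mul (pow_le_pow_right₀ (by norm_num) hD)
    (pow_le_pow_left₀ (by positivity) (by nlinarith) _) (by positivity) (by positivity))

end Pool.Agent.Szpiro98.V4
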