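import Pool.Agent.Lib.Szpiro98.Blue4

/-! Block RANK4: the vector of logarithms. -/

namespace Pool.Agent.Szpiro98.V4

open Finset Module NumberField IsDedekindDomain Pool.Agent.Lib.helper22.Val

section
variable {L : Type} [Field L] [NumberField L]

lemma lv_mul {x y : L} (hx : x ≠ 0) (hy : y ≠ 0) : lv (x * y) = lv x + lv y := by
  refine Prod.ext (funext fun v => ?_) (funext fun w => ?_)
  · simp only [lv, map_mul, Prod.fst_add, Pi.add_apply]
    rw [WithZero.log_mul (val_ne_zero hx) (val_ne_zero hy), Int.cast_add]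
  · simp only [lv, map_mul, Prod.snd_add, Pi.add_apply]
    rw [Real.log_mul (InfinitePlace.pos_iff.2 hx).ne' (InfinitePlace.pos_iff.2 hy).ne']

lemma lv_one : lv (1 : L) = 0 := by
  refine Prod.ext (funext fun v => ?_) (funext fun w => ?_) <;> simp [lv]

lemma lv_zero : lv (0 : L) = 0 := by
  refine Prod.ext (funext fun v => ?_) (funext fun w => ?_) <;> simp [lv]

lemma lv_inv (x : L) : lv x⁻¹ = - lv x := by
  refine Prod.ext (funext fun v => ?_) (funext fun w => ?_) <;> simp [lv]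

lemma lv_div {x y : L} (hx : x ≠ 0) (hy : y ≠ 0) : lv (x / y) = lv x - lv y := by
  rw [div_eq_mul_inv, lv_mul hx (inv_ne_zero hy), lv_inv, sub_eq_add_neg]

lemma lv_zpow (x : L) (n : ℤ) : lv (x ^ n) = (n : ℝ) • lv x := by
  refine Prod.ext (funext fun v => ?_) (funext fun w => ?_) <;> simp [lv]

lemma lv_prod {ι : Type} (s : Finset ι) (x : ι → L) (h : ∀ i ∈ s, x i ≠ 0) :
    lv (∏ i ∈ s, x i) = ∑ i ∈ s, lv (x i) := by
  classical
  induction s using Finset.induction_on with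
  | empty => simp [lv_one]
  | insert a s ha ih =>
    rw [prod_insert ha, sum_insert ha, lv_mul (h a (mem_insert_self _ _))
      (prod_ne_zero_iff.2 fun i hi => h i (mem_insert_of_mem hi)),
      ih fun i hi => h i (mem_insert_of_mem hi)]

lemma rank4_arch {D : ℕ} (hK : finrank ℚ L ≤ D) {β : L} {n : ℤ} (hn : Algebra.norm ℚ β = n)
    (n0 : n ≠ 0) {B : ℝ} (hB : 0 ≤ B) (h : ∀ φ : L →+* ℂ, ‖φ β‖ ≤ Real.exp B) :
    (n.natAbs : ℝ) ≤ Real.exp (D * B) ∧
      ∀ w : InfinitePlace L, -(D * B) ≤ Real.log (w β) ∧ Real.log (w β) ≤ B := by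
  classical
  have h1 : ∏ σ : L →ₐ[ℚ] ℂ, ‖σ β‖ = n.natAbs := by
    rw [← norm_prod, ← Algebra.norm_eq_prod_embeddings, hn]; simp
  have h2 : ∀ U : Finset (L →ₐ[ℚ] ℂ), ∏ σ ∈ U, ‖σ β‖ ≤ Real.exp (D * B) := fun U => by
    refine (prod_le_prod (fun _ _ => norm_nonneg _) fun σ _ => h σ.toRingHom).trans ?_
    have : U.card ≤ D := (card_le_univ U).trans (by rwa [AlgHom.card])
    rw [prod_const, ← Real.exp_nat_mul]
    gcongr
  refine ⟨h1 ▸ h2 _, fun w => ?_⟩
  have h3 : (1 : ℝ) ≤ n.natAbs := by exact_mod_cast Int.natAbs_pos.2 n0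
  rw [← h1, ← mul_prod_erase _ _ (mem_univ w.embedding.toRatAlgHom)] at h3
  have h4 : 1 ≤ w β * Real.exp (D * B) := h3.trans (by
    rw [← w.norm_embedding_eq]; exact mul_le_mul_of_nonneg_left (h2 _) (norm_nonneg _))
  have h5 : 0 < w β := (mul_pos_iff_of_pos_right (Real.exp_pos _)).1 (one_pos.trans_le h4)
  have h6 := Real.log_le_log h5 (w.norm_embedding_eq β ▸ h w.embedding)
  have h7 := Real.log_nonneg h4
  rw [Real.log_mul h5.ne' (Real.exp_pos _).ne'] at h7
  rw [Real.log_exp] at h6 h7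
  exact ⟨by linarith, h6⟩

lemma rank4_bound {D : ℕ} (hK : finrank ℚ L ≤ D) {a : L} (a0 : a ≠ 0) (hi : IsIntegral ℤ a)
    {B : ℝ} (hB : 0 ≤ B) (h : ∀ φ : L →+* ℂ, ‖φ a‖ ≤ Real.exp B) :
    (∀ v : HOS L, -(2 * D * B) ≤ ((WithZero.log (v.valuation L a) : ℤ) : ℝ) ∧
      ((WithZero.log (v.valuation L a) : ℤ) : ℝ) ≤ 0) ∧
      ∀ w : InfinitePlace L, -(D * B) ≤ Real.log (w a) ∧ Real.log (w a) ≤ B := by
  obtain ⟨x, rfl⟩ : ∃ x : 𝓞 L, (x : L) = a := ⟨⟨a, hi⟩, rfl⟩
  have x0 : x ≠ 0 := by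
    rintro rfl
    exact a0 (by simp)
  have hn : Algebra.norm ℚ (x : L) = (Algebra.norm ℤ x : ℤ) := (Algebra.coe_norm_int x).symm
  have n0 : Algebra.norm ℤ x ≠ 0 := Algebra.norm_ne_zero_iff.2 x0
  obtain ⟨h1, h2⟩ := rank4_arch hK hn n0 hB h
  refine ⟨fun v => ?_, h2⟩
  obtain ⟨k, hk, hd⟩ := SUN.ord v x0
  obtain ⟨p, hp, hpv⟩ := exists_prime_mem v
  have h3 := Nat.le_of_dvd (by
    rw [Ideal.absNorm_span_singleton]; exact Int.natAbs_pos.2 n0) (hd p hp hpv)
  rw [Ideal.absNorm_span_singleton] at h3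
  have h4 : (2 : ℝ) ^ k ≤ Real.exp (D * B) := by
    refine le_trans ?_ h1
    exact_mod_cast (Nat.pow_le_pow_left hp.two_le k).trans h3
  have h5 := Real.log_le_log (by positivity) h4
  rw [Real.log_pow, Real.log_exp] at h5
  have h6 := Real.log_two_gt_d9
  have h7 : (0 : ℝ) ≤ k := Nat.cast_nonneg k
  rw [hk]
  push_cast
  constructor <;> nlinarith

end

theorem rank : RankStmt := by
  intro L _ G n h
  obtain ⟨b, hb, hs, hl⟩ := exists_linearIndependent ℝ (lv '' {x : L | (x : Qb) ∈ G})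
  have key : ∀ t : Finset b, t.card ≤ n := by
    intro t
    by_contra hc
    obtain ⟨e⟩ : Nonempty (Fin (n + 1) ↪ t) :=
      Function.Embedding.nonempty_of_card_le (by simp; omega)
    let y : Fin (n + 1) → b := fun k => e k
    have hy : Function.Injective y := Subtype.val_injective.comp e.injective
    have hli := hl.comp y hy
    choose x hx1 hx2 using fun k => hb (y k).2
    have x0 : ∀ k, x k ≠ 0 := fun k h0 => hli.ne_zero k (by
      change (y k).1 = 0
      rw [← hx2 k, h0, lv_zero])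
    obtain ⟨a, a0, ha⟩ := h (fun k => x k) hx1
    have h1 : ∏ k, x k ^ a k = 1 := by
      apply Subtype.val_injective
      push_cast
      exact ha
    have h2 := congrArg lv h1
    rw [lv_prod _ _ fun k _ => zpow_ne_zero _ (x0 k), lv_one] at h2
    simp only [lv_zpow, hx2] at h2
    apply a0
    funext k
    have := Fintype.linearIndependent_iff.1 hli (fun k => (a k : ℝ)) h2 k
    exact_mod_cast this
  have hfin : Finite b := by
    by_contra hinf
    rw [not_finite_iff_infinite] at hinf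
    obtain ⟨t, ht⟩ := Infinite.exists_subset_card_eq b (n + 1)
    have := key t
    omega
  have hbf : b.Finite := Set.toFinite b
  have := Fintype.ofFinite b
  refine ⟨Submodule.span ℝ b, FiniteDimensional.span_of_finite ℝ hbf, ?_, fun x hx => ?_⟩
  · refine (finrank_span_le_card b).trans ?_
    rw [Set.toFinset_card]
    exact key univ
  · rw [hs]
    exact Submodule.subset_span ⟨x, hx, rfl⟩

theorem lvb : LvStmt := by
  intro L _ D hD a b B hB a0 b0 ha hb
  have emb : ∀ {c : L}, Hs (c : Qb) (Real.exp B) → ∀ φ : L →+* ℂ, ‖φ c‖ ≤ Real.exp B := by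
    intro c hc φ
    obtain ⟨ψ, hψ⟩ := exists_ext L φ.toRatAlgHom
    have := hc.2 ψ
    rwa [hψ] at this
  obtain ⟨a1, a2⟩ := rank4_bound hD a0 (integral_sub ha.1) hB (emb ha)
  obtain ⟨b1, b2⟩ := rank4_bound hD b0 (integral_sub hb.1) hB (emb hb)
  have D1 : (1 : ℝ) ≤ D := by exact_mod_cast (Module.finrank_pos (R := ℚ) (M := L)).trans_le hD
  have hDB : B ≤ D * B := by nlinarith
  refine ⟨fun v => ?_, fun w => ?_⟩
  · have h := congrFun (congrArg Prod.fst (lv_div a0 b0)) v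
    simp only [lv, Prod.fst_sub, Pi.sub_apply] at h
    rw [h, abs_le]
    constructor <;> linarith [(a1 v).1, (a1 v).2, (b1 v).1, (b1 v).2]
  · have h := congrFun (congrArg Prod.snd (lv_div a0 b0)) w
    simp only [lv, Prod.snd_sub, Pi.sub_apply] at h
    rw [h, abs_le]
    constructor <;> linarith [(a2 w).1, (a2 w).2, (b2 w).1, (b2 w).2]

end Pool.Agent.Szpiro98.V4
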