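import Pool.Agent.Lib.Szpiro98.Blue3

namespace Pool.Agent.Szpiro98.V3

open Finset Pool.Agent.Lib.MP_cafdd5_nt GLUE

theorem glue' : GlueStmt := by
  intro C hC
  refine ⟨192 * (6 ^ 9 * 76 ^ 4) * C, by linarith, fun a b hD hL => ?_⟩
  have hQ : (1 : ℝ) ≤ 1 := le_rfl
  obtain ⟨d, c, hd, hc, hdN, hok, hS, hI, hP⟩ := hL
  have hN : (1 : ℝ) ≤ cond a b := by exact_mod_cast cond_pos a b
  have hNQ : (cond a b : ℝ) ≤ cond a b * 1 := le_mul_of_one_le_right (by linarith) hQ
  have hmono := UU_mono (C := C) (M := 192 * (6 ^ 9 * 76 ^ 4)) (by linarith) (by norm_num) a b 1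
  have hPU := prod_le_UU hC hQ a b
  have hP1 := one_le_prod_SS hC (Finset.Subset.refl (SS a b))
  obtain ⟨U, hU⟩ : ∃ U : ℝ, U = (6 ^ 9 * 76 ^ 4) * UU C a b 1 := ⟨_, rfl⟩
  have hU1 : UU C a b 1 ≤ U := by rw [hU]; exact le_mul_of_one_le_left (by linarith) (by norm_num)
  have hU2 : 1 ≤ U := by linarith
  have hcard : (0 : ℝ) ≤ (SS a b).card := Nat.cast_nonneg _
  have key : LL a b ≤ ((SS a b).card + 1) * (192 * U) := by
    have b1 : bnd C (SS a b) |d| 1 (LL a b) ≤ U := by
      rw [hU]; exact bnd_le hC hd zero_le_one hdN (by nlinarith)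
    have b2 : ∀ p : ℕ, p.Prime → 30 < padicValInt p c →
        bnd C (SS a b) |d| (kap p (padicValInt p c)) (LL a b) ≤ U := by
      intro p hp hv
      rw [hU]
      refine bnd_le hC hd ?_ hdN (by
        rw [mul_one]
        have := Fact.mk hp
        exact hok p hp (by
          by_contra h
          rw [padicValInt.eq_zero_of_not_dvd h] at hv
          omega))
      unfold kap
      split_ifs <;> positivity
    by_cases hLU : LL a b ≤ U
    · nlinarith
    push Not at hLU
    have c1 := hI (b1.trans_lt hLU)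
    have c2 : ∀ p ∈ c.natAbs.primeFactors, (padicValInt p c : ℝ) * Real.log p ≤ 32 * U := by
      intro p hp
      have hpp := Nat.prime_of_mem_primeFactors hp
      have l0 := Real.log_natCast_nonneg p
      have l1 : Real.log p ≤ U := by linarith [log_le_prod hC (hS hp)]
      by_cases hv : 30 < padicValInt p c
      · have := hP p hpp hv ((b2 p hpp hv).trans_lt hLU)
        linarith [b2 p hpp hv]
      · have h30 : (padicValInt p c : ℝ) ≤ 30 := by exact_mod_cast not_lt.1 hv
        nlinarith
    have c3 : Real.log |(c : ℝ)| ≤ (SS a b).card * (32 * U) := by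
      rw [log_abs_eq]
      calc _ ≤ (c.natAbs.primeFactors.card : ℝ) * (32 * U) := by
            have := Finset.sum_le_card_nsmul _ _ _ c2
            rwa [nsmul_eq_mul] at this
        _ ≤ _ := mul_le_mul_of_nonneg_right (by exact_mod_cast Finset.card_le_card hS) (by linarith)
    nlinarith
  refine key.trans (mul_le_mul_of_nonneg_left ?_ (by linarith))
  rw [hU]
  linarith

end Pool.Agent.Szpiro98.V3
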