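import Pool.Agent.Lib.Szpiro98.Blue3

/-! Block LOCQ: the local bounds for a quotient of two integers. -/

namespace Pool.Agent.Szpiro98.V3

open Finset Module NumberField IsDedekindDomain NormedSpace Pool.Agent.Lib.MP_cafdd5_nt

namespace LOCQ

lemma dk_rat : dk ℚ = 1 := by simp [dk, Rat.numberField_discr]

lemma fr : finrank ℚ ℚ ≤ 3 := by simp

lemma exp_neg_one : Real.exp (-1) ≤ 1 / 2 := by
  rw [Real.exp_neg, one_div]
  exact inv_anti₀ (by norm_num) (by linarith [Real.add_one_le_exp (1 : ℝ)])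

/-- The body of `MidStmt`. -/
def Mid (C : ℝ) : Prop :=
  ∀ (F : Type) [NormedField F] [CharZero F] (K : Type) [Field K] [NumberField K] (s : Setup F K)
    (κ 𝓛 : ℝ) (β : K) (tb : F), 1 ≤ κ → s.Ref κ → 3 ≤ 𝓛 → SU s.S β → Sz β (200 * 𝓛) → |s.ψ tb| ≤ 200 * 𝓛 →
    tb ∈ s.D' → s.Lg β tb → tb ≠ 0 → mb C s.N (∏ v ∈ s.S, wt v) (dk K) κ 𝓛 < 𝓛 →
    Real.exp (-mb C s.N (∏ v ∈ s.S, wt v) (dk K) κ 𝓛) ≤ ‖tb‖

open LOCP in
lemma arch {C1 C : ℝ} (hC1 : 1 ≤ C1) (h2 : Mid C1) (h4 : RefIStmt)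
    (hC : 432 * 100 * (C1 * Real.exp (2000 * (2 : ℕ))) ^ 4 ≤ C) {S : Finset ℕ} {𝓛 : ℝ} (h𝓛 : 3 ≤ 𝓛)
    {S' : Finset (HOS ℚ)} (hcard : S'.card ≤ 3 * S.card)
    (hwt : ∏ v ∈ S', wt v ≤ ∏ q ∈ S, (6 * Real.log q) ^ 3) {β : ℚ} (β1 : β ≠ 1) (su : SU S' β)
    (sz : Sz β (200 * 𝓛)) (hb : bnd C S 1 1 𝓛 < 𝓛) :
    Real.exp (-bnd C S 1 1 𝓛) ≤ ‖(β : ℂ) - 1‖ := by
  obtain ⟨N, hN⟩ : ∃ N, N = S'.card + rk ℚ + 1 + 1 := ⟨_, rfl⟩
  have hN2 : N ≤ 3 * S.card + 4 := by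
    have := rk_le ℚ fr
    omega
  let s : Setup ℂ ℚ :=
    { q := 2, N := N, e := 1, W := fun h => h * om N
      Dom := ⊤, D' := ⊤, ι := emb, σ := Rat.castHom Qb, S := S', ψ := Complex.imAddGroupHom
      hq := Nat.prime_two, q3 := by norm_num
      an := an_complex (by norm_num) (by norm_num) (Real.exp_pos _).le
      le := le_rfl, hι := fun θ M _ h => h.2 emb, K3 := fr
      hd := fun t _ h1 h2 => by
        rw [← Complex.exp_eq_exp_ℂ, Complex.norm_exp, Real.log_exp] at h2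
        have h3 : |t.im| ≤ Real.exp (-100) := h1 one_ne_zero
        linarith [Complex.norm_le_abs_re_add_abs_im t]
      hN := hN }
  have hκ : 100 ≤ 100 / om N ^ 2 := by
    rw [div_eq_mul_inv, om_pow]
    have : 1 ≤ Real.exp (2000 * (2 : ℕ)) ^ N := one_le_pow₀ (Real.one_le_exp (by positivity))
    linarith
  have hR1 : 1 ≤ ∏ v ∈ S', wt v := Finset.one_le_prod fun v _ => one_le_wt v
  have b1 := le_mb (C := C1) N hC1 hR1 le_rfl (le_trans (by norm_num) hκ) h𝓛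
  have b2 := mb_le (a := 100) (κ := 1) hC1 (by norm_num) hC hN2 hwt le_rfl zero_le_one h𝓛
  rw [mul_one] at b2
  have key : ∀ tb : ℂ, 1 ≤ 100 / om N ^ 2 → s.Ref (100 / om N ^ 2) → 3 ≤ 𝓛 → SU S' β →
      Sz β (200 * 𝓛) → |tb.im| ≤ 200 * 𝓛 → True → s.Lg β tb → tb ≠ 0 →
      mb C1 N (∏ v ∈ S', wt v) (dk ℚ) (100 / om N ^ 2) 𝓛 < 𝓛 →
      Real.exp (-mb C1 N (∏ v ∈ S', wt v) (dk ℚ) (100 / om N ^ 2) 𝓛) ≤ ‖tb‖ := h2 ℂ ℚ s _ 𝓛 β
  rw [dk_rat] at key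
  generalize mb C1 N (∏ v ∈ S', wt v) 1 (100 / om N ^ 2) 𝓛 = b at b1 b2 key
  have x0 : (β : ℂ) ≠ 0 := by exact_mod_cast su.1
  have e1 := exp_neg_one
  rcases le_total ‖(β : ℂ) - 1‖ (1 / 2) with c | c
  · have l1 := Complex.norm_log_one_add_half_le_self c
    rw [add_sub_cancel] at l1
    have fin := key (Complex.log β) (by linarith) (h4 ℚ s rfl (fun _ => rfl) (fun _ => rfl) rfl) h𝓛 su sz
      ((Complex.abs_im_le_norm _).trans (l1.trans (by linarith))) trivial ?_ ?_ (by linarith)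
    · calc _ ≤ Real.exp (-b + -1) := Real.exp_le_exp.2 (by linarith)
        _ ≤ 2 * ‖(β : ℂ) - 1‖ * (1 / 2) := by
          rw [Real.exp_add]
          gcongr
          linarith [norm_nonneg ((β : ℂ) - 1)]
        _ = _ := by ring
    · show exp (Complex.log β) = emb (Rat.castHom Qb β)
      rw [← Complex.exp_eq_exp_ℂ, Complex.exp_log x0, eq_ratCast, map_ratCast]
    · intro e
      apply β1
      have : (β : ℂ) = 1 := by rw [← Complex.exp_log x0, e, Complex.exp_zero]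
      exact_mod_cast this
  · exact le_trans (Real.exp_le_exp.2 (by linarith)) (e1.trans c)

open LOCP in
lemma padic {C1 C : ℝ} (hC1 : 1 ≤ C1) (h2 : Mid C1) (h3 : RefPStmt)
    (hC : 432 * 2 * (C1 * Real.exp (2000 * (1 : ℕ))) ^ 4 ≤ C) {S : Finset ℕ} {𝓛 : ℝ} (h𝓛 : 3 ≤ 𝓛)
    {S' : Finset (HOS ℚ)} (hcard : S'.card ≤ 3 * S.card)
    (hwt : ∏ v ∈ S', wt v ≤ ∏ q ∈ S, (6 * Real.log q) ^ 3) {β : ℚ} (β1 : β ≠ 1) (hsu : SU S' β)
    (sz : Sz β (200 * 𝓛)) (p : ℕ) [Fact p.Prime] (hb : bnd C S 1 p 𝓛 < 𝓛) :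
    Real.exp (-bnd C S 1 p 𝓛) ≤ ‖(β : ℂ_[p]) - 1‖ := by
  classical
  obtain ⟨hF, hi, hu⟩ := anp p
  have hp : p.Prime := Fact.out
  let ι : Qb →+* ℂ_[p] := (IsAlgClosed.lift : Qb →ₐ[ℚ] ℂ_[p]).toRingHom
  have hισ : ∀ η : ℚ, ι (Rat.castHom Qb η) = η := fun η => by rw [eq_ratCast, map_ratCast]
  obtain ⟨P, hP⟩ := val p ℚ (Rat.castHom ℂ_[p])
  obtain ⟨N, hN⟩ : ∃ N, N = (S'.erase P).card + rk ℚ + 0 + 1 := ⟨_, rfl⟩
  have hN1 : 1 ≤ N := by omega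
  have hN2 : N ≤ 3 * S.card + 4 := by
    have := rk_le ℚ fr
    have := card_erase_le (s := S') (a := P)
    omega
  obtain ⟨ω1, ω2⟩ := om_le hN1
  have ω0 : 0 < om N := Real.exp_pos _
  obtain ⟨q, hq, q3, hpq⟩ : ∃ q : ℕ, q.Prime ∧ q ≤ 3 ∧ ¬ p ∣ q := by
    by_cases h : p = 2
    · exact ⟨3, Nat.prime_three, le_rfl, by rw [h]; norm_num⟩
    · exact ⟨2, Nat.prime_two, by norm_num, fun k => h ((Nat.prime_dvd_prime_iff_eq hp Nat.prime_two).1 k)⟩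
  have md : ∀ (a : ℝ) (ha : 0 < a) (t : ℂ_[p]), t ∈ (IsUltrametricDist.closedBall_openAddSubgroup ℂ_[p]
      (r := a) ha : AddSubgroup ℂ_[p]) ↔ ‖t‖ ≤ a := fun a ha t => mem_closedBall_zero_iff
  let s : Setup ℂ_[p] ℚ :=
    { q := q
      N := N
      e := 0
      W := fun _ => om N
      Dom := IsUltrametricDist.closedBall_openAddSubgroup ℂ_[p] (r := 1 / 16) (by norm_num)
      D' := IsUltrametricDist.closedBall_openAddSubgroup ℂ_[p] (r := om N) ω0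
      ι := ι
      σ := Rat.castHom Qb
      S := S'.erase P
      ψ := 0
      hq := hq
      q3 := q3
      an := an_ultra hF hq.pos (hu q hpq) ω0.le ω2 hi
      le := fun t ht => (md _ _ t).2 (by linarith [(md _ _ t).1 ht])
      hι := fun θ M hM h => (norm_le ι h.1).trans hM
      K3 := fr
      hd := fun t ht _ _ => by linarith [(md _ _ t).1 ht, Real.exp_pos (-100)]
      hN := hN }
  have hκ : (1 : ℝ) ≤ p := by exact_mod_cast hp.pos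
  have href : s.Ref (2 * p / om N) := h3 p ℚ s rfl rfl (fun _ => rfl) (fun t ht => (md _ ω0 t).2 ht)
    (fun η hη => (congrArg norm (hισ η)).trans ((hP η hη.1).1 (hη.2 P (notMem_erase _ _))))
    (fun η => ⟨η, (hισ η).trans (map_ratCast _ η).symm⟩)
  have hR1 : 1 ≤ ∏ v ∈ S'.erase P, wt v := Finset.one_le_prod fun v _ => one_le_wt v
  have hR2 : ∏ v ∈ S'.erase P, wt v ≤ ∏ q ∈ S, (6 * Real.log q) ^ 3 :=
    (prod_le_prod_of_subset_of_one_le (erase_subset _ _) (fun v _ => zero_le_one.trans (one_le_wt v))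
      fun v _ _ => one_le_wt v).trans hwt
  have hN0 : (0 : ℝ) ≤ N := Nat.cast_nonneg N
  have hκ2 : 2000 * (N : ℝ) + 1 ≤ 2 * p / om N := by
    rw [div_eq_mul_inv, om, ← Real.exp_neg, neg_neg]
    have a := Real.add_one_le_exp (2000 * (N : ℝ))
    nlinarith
  have b1 := le_mb (C := C1) N hC1 hR1 le_rfl (le_trans (by positivity) hκ2) h𝓛
  have b2 := mb_le (a := 2) (κ := p) hC1 (by norm_num) hC hN2 hR2 le_rfl (by linarith) h𝓛
  rw [pow_one] at b2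
  have key : ∀ tb : ℂ_[p], 1 ≤ 2 * p / om N → s.Ref (2 * p / om N) → 3 ≤ 𝓛 → SU (S'.erase P) β →
      Sz β (200 * 𝓛) → |(0 : ℝ)| ≤ 200 * 𝓛 → tb ∈ s.D' → s.Lg β tb → tb ≠ 0 →
      mb C1 N (∏ v ∈ S'.erase P, wt v) (dk ℚ) (2 * p / om N) 𝓛 < 𝓛 →
      Real.exp (-mb C1 N (∏ v ∈ S'.erase P, wt v) (dk ℚ) (2 * p / om N) 𝓛) ≤ ‖tb‖ :=
    h2 ℂ_[p] ℚ s _ 𝓛 β
  rw [dk_rat] at key
  generalize mb C1 N (∏ v ∈ S'.erase P, wt v) 1 (2 * p / om N) 𝓛 = b at b1 b2 key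
  have e1 := exp_neg_one
  have hx : Rat.castHom ℂ_[p] β = β := rfl
  have hx' := hισ β
  have x1 : (β : ℂ_[p]) ≠ 1 := by exact_mod_cast β1
  generalize (β : ℂ_[p]) = x at hx hx' x1
  by_cases hc : ‖x - 1‖ ≤ om N / 2
  swap
  · refine le_trans ?_ (not_le.1 hc).le
    calc _ ≤ Real.exp (-(2000 * N) + -1) := Real.exp_le_exp.2 (by linarith)
      _ ≤ _ := by
        rw [Real.exp_add, om, div_eq_mul_one_div]
        gcongr
  obtain ⟨t, ht, hte⟩ := exists_log hF (x := x) (r := 2 * ‖x - 1‖) (by linarith) (by linarith)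
  have t0 : t ≠ 0 := by
    rintro rfl
    exact x1 (by rw [← hte, exp_zero])
  have xn : ‖x‖ = 1 := by
    have := IsUltrametricDist.norm_add_eq_max_of_norm_ne_norm (x := x - 1) (y := 1)
      (by rw [norm_one]; linarith)
    rw [sub_add_cancel, norm_one] at this
    rw [this, max_eq_right (by linarith)]
  have su : SU (S'.erase P) β := by
    refine ⟨hsu.1, fun v hv => ?_⟩
    by_cases h : v = P
    · rw [h]
      exact (hP _ hsu.1).2 (by rw [hx, xn])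
    · exact hsu.2 v fun k => hv (mem_erase.2 ⟨h, k⟩)
  have fin := key t (by linarith) href h𝓛 su sz (by simp; linarith)
    ((md _ ω0 _).2 (by linarith)) (hte.trans hx'.symm) t0 (by linarith)
  calc _ ≤ Real.exp (-b + -1) := Real.exp_le_exp.2 (by linarith)
    _ ≤ 2 * ‖x - 1‖ * (1 / 2) := by
      rw [Real.exp_add]
      gcongr
      linarith
    _ = _ := by ring

end LOCQ

open LOCQ in
theorem locq (h1 : SunStmt) (h2 : MidStmt) (h3 : RefPStmt) (h4 : RefIStmt) : LocQStmt := by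
  obtain ⟨C1, hC1, h2⟩ := h2
  refine ⟨max (432 * 100 * (C1 * Real.exp (2000 * (2 : ℕ))) ^ 4)
    (432 * 2 * (C1 * Real.exp (2000 * (1 : ℕ))) ^ 4), fun C hC u w S 𝓛 u0 w0 uw hS hp h𝓛 hu hw => ?_⟩
  obtain ⟨S', a1, a2, a3, a4⟩ := h1 ℚ fr u w S 𝓛 u0 w0 hS hp (by linarith) hu hw
  have w1 : (w : ℚ) ≠ 0 := by exact_mod_cast w0
  have β1 : (u : ℚ) / w ≠ 1 := fun e => uw (by exact_mod_cast (div_eq_one_iff_eq w1).1 e)
  refine ⟨fun hb => ?_, fun p _ hb => ?_⟩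
  · have k := arch hC1 h2 h4 ((le_max_left _ _).trans hC) h𝓛 a1 a2 β1 a3 a4 hb
    have w2 : (w : ℂ) ≠ 0 := by exact_mod_cast w0
    have e : (((u : ℝ) - w : ℝ) : ℂ) = ((((u : ℚ) / w : ℚ) : ℂ) - 1) * ((w : ℝ) : ℂ) := by
      push_cast
      field_simp
    have e' := congrArg norm e
    rw [norm_mul, Complex.norm_real, Complex.norm_real, Real.norm_eq_abs, Real.norm_eq_abs] at e'
    rw [e']
    exact mul_le_mul_of_nonneg_right k (abs_nonneg _)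
  · have k := padic hC1 h2 h3 ((le_max_right _ _).trans hC) h𝓛 a1 a2 β1 a3 a4 p hb
    have w2 : (w : ℂ_[p]) ≠ 0 := by exact_mod_cast w0
    have e : algebraMap ℚ_[p] ℂ_[p] ((u : ℚ_[p]) - w) =
        ((((u : ℚ) / w : ℚ) : ℂ_[p]) - 1) * algebraMap ℚ_[p] ℂ_[p] w := by
      rw [map_sub, map_intCast, map_intCast]
      push_cast
      field_simp
    have e' := congrArg norm e
    rw [norm_mul, norm_algebraMap', norm_algebraMap'] at e'
    rw [e']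
    exact mul_le_mul_of_nonneg_right k (norm_nonneg _)

end Pool.Agent.Szpiro98.V3
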