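import Pool.Agent.Lib.Szpiro98.Blue3

namespace Pool.Agent.Szpiro98.V3

open Finset Module NumberField IsDedekindDomain NormedSpace Pool.Agent.Lib.MP_cafdd5_nt

open Mid in
theorem mid (h1 : CoordStmt) : MidStmt := by
  refine ⟨c0 * (1280 * Real.exp 6), one_le_mul_of_one_le_of_one_le (by norm_num [c0])
    (by linarith [Real.add_one_le_exp 6]),
    fun F _ _ K _ _ s κ L β tb hκ hRef hL hβ hβ' hψ htb hLg h0 hmb => ?_⟩
  have hD := one_le_dk K
  obtain ⟨hY0, hY⟩ := log_Y hD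
  have hR : 1 ≤ ∏ v ∈ s.S, wt v := one_le_prod fun v _ => one_le_wt v
  have hl : 1 ≤ Real.log L := (Real.le_log_iff_exp_le (by linarith)).2
    (Real.exp_one_lt_d9.le.trans (by linarith))
  have hN : 1 ≤ s.N := by rw [s.hN]; omega
  have hN' : (1 : ℝ) ≤ s.N := by exact_mod_cast hN
  have hSN : (s.S.card : ℝ) + 1 ≤ s.N := by
    exact_mod_cast (by rw [s.hN]; omega : s.S.card + 1 ≤ s.N)
  have hS0 : (0 : ℝ) ≤ s.S.card := Nat.cast_nonneg _
  have hsq : 1 ≤ √(dk K) := Real.one_le_sqrt.2 hD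
  obtain ⟨A0, hA1, hA2⟩ : ∃ A0 : ℕ, 2000 * s.N ^ 2 * Real.log L ≤ A0 ∧
      (A0 : ℝ) ≤ 2001 * s.N ^ 2 * Real.log L := by
    have := one_le_mul_of_one_le_of_one_le (one_le_pow₀ (n := 2) hN') hl
    refine ⟨_, Nat.le_ceil _, (Nat.ceil_lt_add_one (by positivity)).le.trans (by linarith)⟩
  have hA : (1 : ℝ) ≤ A0 := by
    linarith [one_le_mul_of_one_le_of_one_le (one_le_pow₀ (n := 2) hN') hl]
  obtain ⟨R', hR'⟩ : ∃ R', R' = (∏ v ∈ s.S, wt v) * (9 * √(dk K)) *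
    (1 + Real.log (9 * √(dk K))) ^ 4 := ⟨_, rfl⟩
  have hR1 : 1 + Real.log (9 * √(dk K)) ≤ R' := by
    rw [hR']
    exact (le_self_pow₀ (by linarith) four_ne_zero).trans (le_mul_of_one_le_left (by positivity)
      (one_le_mul_of_one_le_of_one_le hR (by linarith)))
  have hR2 : R' ≤ (∏ v ∈ s.S, wt v) * (9 ^ 5 * (√(dk K) * (1 + Real.log (dk K)) ^ 4)) := by
    rw [hR']
    refine (mul_le_mul_of_nonneg_left (pow_le_pow_left₀ (by linarith) hY 4)
      (by positivity)).trans (le_of_eq (by ring))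
  have hR0 : 1 ≤ R' := by linarith
  have hc : 1 ≤ A0 * Real.exp (6 * s.N) * 10 ^ s.N := one_le_mul_of_one_le_of_one_le
    (one_le_mul_of_one_le_of_one_le hA (Real.one_le_exp (by positivity))) (one_le_pow₀ (by norm_num))
  have hΘ : 36 * (R' * κ) ≤ 36 * A0 * Real.exp (6 * s.N) * 10 ^ s.N * R' * κ := by
    nlinarith [mul_le_mul_of_nonneg_right hc (show 0 ≤ R' * κ by positivity)]
  have hRκ : R' ≤ R' * κ := le_mul_of_one_le_right (by linarith) hκ
  have hκR : κ ≤ R' * κ := le_mul_of_one_le_left (by linarith) hR0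
  obtain ⟨J, hJ1, hJ2⟩ : ∃ J : ℕ, 36 * A0 * Real.exp (6 * s.N) * 10 ^ s.N * R' * κ ≤ s.q ^ J ∧
      (s.q : ℝ) ^ J ≤ 3 * (36 * A0 * Real.exp (6 * s.N) * 10 ^ s.N * R' * κ) := by
    obtain ⟨n, a, b⟩ := exists_nat_pow_near (x := 36 * A0 * Real.exp (6 * s.N) * 10 ^ s.N * R' * κ)
      (y := (s.q : ℝ)) (by linarith) (by exact_mod_cast s.hq.one_lt)
    refine ⟨n + 1, b.le, ?_⟩
    rw [pow_succ']
    exact mul_le_mul (by exact_mod_cast s.q3) a (by positivity) (by norm_num)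
  have hnum := num hN (by linarith) (by linarith) (by linarith) (by linarith) hA2 hR2 hJ2
  have hx : (0 : ℝ) < s.q ^ J := by linarith
  have hZ0 : (0 : ℝ) < 4 ^ s.N * A0 * s.q ^ J := by positivity
  have hZ : (4 : ℝ) ^ s.N * A0 * s.q ^ J ≤ L :=
    (le_mul_of_one_le_right hZ0.le (by nlinarith)).trans (hnum.trans hmb.le)
  have hNx : (s.N : ℝ) * s.q ^ J ≤ 200 * L := by
    have h4 : (s.N : ℝ) ≤ 4 ^ s.N := by exact_mod_cast (Nat.lt_pow_self (by norm_num)).le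
    have := mul_le_mul_of_nonneg_right (h4.trans (le_mul_of_one_le_right (by positivity) hA)) hx.le
    linarith
  obtain ⟨Γ, M, -, hcard, hΓ1, hΓ2⟩ := fam cnt K s.K3 s.S (s.q ^ J / 5) (by linarith)
  rw [← hR'] at hcard
  obtain ⟨I, t, hI, hinj, hI1, hI2⟩ := hRef J Γ (by linarith) fun γ hγ γ' hγ' => by
    obtain ⟨a, b, -⟩ := hΓ2 γ hγ γ' hγ'
    exact ⟨a, sz_mono b (by nlinarith)⟩
  refine le_trans (Real.exp_le_exp.2 (neg_le_neg (le_trans ?_ hnum))) (h1 F K s _ I Prod.fst t J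
    A0 (200 * L) β tb (by linarith) (fun i hi => ?_) (fun i hi k hk => ?_) hinj ?_
    ((log_A hN' (by linarith) hl).trans hA1) hβ hβ' hψ htb hLg h0)
  · refine mul_le_mul_of_nonneg_left ?_ hZ0.le
    have := Real.log_le_log (by positivity) (mul_le_mul_of_nonneg_left hZ (by norm_num : (0 : ℝ) ≤ 24))
    rw [Real.log_mul (x := 24) (y := L) (by norm_num) (by linarith)] at this
    have h3 := Real.log_le_sub_one_of_pos (show (0 : ℝ) < 24 by norm_num)
    nlinarith [mul_nonneg (sub_nonneg.2 hN') (sub_nonneg.2 hl)]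
  · obtain ⟨a, b, -⟩ := hΓ1 _ (hI1 i hi).1
    exact ⟨a, (hI1 i hi).2, (b.hs _).mono (Real.exp_le_exp.2 (by nlinarith))⟩
  · obtain ⟨a, b, -⟩ := hΓ2 _ (hI1 i hi).1 _ (hI1 k hk).1
    obtain ⟨c, d, e⟩ := hI2 i hi k hk
    exact ⟨a, sz_mono b (by nlinarith), c.trans hNx, d, e⟩
  · have h3 : ((s.q : ℝ) ^ J / 5) ^ (s.N - 1) ≤ I.card * κ * R' := by
      rw [show s.N - 1 = s.S.card + rk K + s.e by rw [s.hN]; rfl, pow_add]
      refine (mul_le_mul_of_nonneg_right hcard (by positivity)).trans ?_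
      rw [mul_right_comm]
      exact mul_le_mul_of_nonneg_right hI (by linarith)
    have h4 : (10 : ℝ) ^ (s.N - 1) ≤ 10 ^ s.N := pow_le_pow_right₀ (by norm_num) (Nat.sub_le _ _)
    calc _ = 72 * A0 * Real.exp (6 * s.N) * (10 ^ (s.N - 1) * ((s.q : ℝ) ^ J / 5) ^ (s.N - 1)) := by
          rw [← mul_pow]; congr 2; ring
      _ ≤ 72 * A0 * Real.exp (6 * s.N) * (10 ^ s.N * (I.card * κ * R')) := by gcongr
      _ = I.card * (2 * (36 * A0 * Real.exp (6 * s.N) * 10 ^ s.N * R' * κ)) := by ring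
      _ ≤ _ := by gcongr

end Pool.Agent.Szpiro98.V3
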