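import Pool.Agent.Lib.Szpiro98.Blue3

/-! Block QUAD3: the local bounds for a quadratic polynomial, split or not. -/

namespace Pool.Agent.Szpiro98.V3

open Finset

theorem quad : QuadStmt := by
  intro C _ hQ hL A B c S 𝓛 hc c0 hB hm hS hBS h3 hA
  by_cases hs : IsSquare c
  swap
  · exact hQ A B c S 𝓛 hc hs hB hm hS hBS h3 hA
  obtain ⟨s, hs⟩ := hs
  have s0 : s ≠ 0 := fun h => c0 (by rw [hs, h, mul_zero])
  have hev : Even (s - A) := by
    have h1 : Even ((s - A) * (s + A)) := ⟨-2 * B, by linear_combination hc - hs⟩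
    rcases Int.even_mul.1 h1 with h | ⟨k, h⟩
    · exact h
    · exact ⟨k - A, by linear_combination h⟩
  obtain ⟨u, hu⟩ := hev
  obtain ⟨w, hw⟩ : ∃ w : ℤ, w = u - s := ⟨_, rfl⟩
  have e1 : u - w = s := by rw [hw]; ring
  have e2 : u + w = -A := by rw [hw]; linear_combination -hu
  have e3 : u * w = B := by
    have : 4 * (u * w) = 4 * B := by
      have a : A = -(u + w) := by rw [e2]; ring
      rw [a, hs, ← e1] at hc
      linear_combination -hc
    linarith
  have u0 : u ≠ 0 := fun h => hB (by rw [← e3, h, zero_mul])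
  have w0 : w ≠ 0 := fun h => hB (by rw [← e3, h, mul_zero])
  have uw : u ≠ w := fun h => s0 (by rw [← e1, h, sub_self])
  have r1 : (u : ℝ) - w = s := by exact_mod_cast e1
  have r2 : (u : ℝ) + w = -A := by exact_mod_cast e2
  have r3 : (u : ℝ) * w = B := by exact_mod_cast e3
  have r4 : (c : ℝ) = s * s := by exact_mod_cast hs
  have hsq : √|(c : ℝ)| = |(s : ℝ)| := by
    rw [r4, abs_mul_self, Real.sqrt_mul_self_eq_abs]
  rw [hsq] at hA
  have bu : |(u : ℝ)| ≤ Real.exp 𝓛 := by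
    have : (u : ℝ) = (-A + s) / 2 := by linarith
    have h := abs_add_le (-(A : ℝ)) s
    rw [abs_neg] at h
    rw [this, abs_div, abs_two]
    linarith [abs_nonneg (-(A : ℝ) + s)]
  have bw : |(w : ℝ)| ≤ Real.exp 𝓛 := by
    have : (w : ℝ) = (-A - s) / 2 := by linarith
    have h := abs_sub (-(A : ℝ)) s
    rw [abs_neg] at h
    rw [this, abs_div, abs_two]
    linarith [abs_nonneg (-(A : ℝ) - s)]
  obtain ⟨a1, p1⟩ := hL u w S 𝓛 u0 w0 uw hS (e3 ▸ hBS) h3 bu bw
  obtain ⟨a2, p2⟩ := hL w u S 𝓛 w0 u0 uw.symm hS (by rw [mul_comm, e3]; exact hBS) h3 bw bu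
  refine ⟨1, one_ne_zero, fun p _ => by simp, fun hb => ?_, fun p hp hb => ?_⟩
  · rw [Int.cast_one, abs_one] at hb ⊢
    have a1 := a1 hb
    have a2 := a2 hb
    rw [abs_sub_comm] at a2
    rw [r1, Real.exp_neg, inv_mul_le_iff₀ (Real.exp_pos _)] at a1 a2
    have a3 : |(c : ℝ)| = |(s : ℝ)| ^ 2 := by rw [r4, abs_mul, sq]
    have a4 : |(A : ℝ)| ≤ |(u : ℝ)| + |(w : ℝ)| := by
      rw [← abs_neg, ← r2]
      exact abs_add_le _ _
    have a5 : |(B : ℝ)| = |(u : ℝ)| * |(w : ℝ)| := by rw [← r3, abs_mul]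
    have a6 : (0 : ℝ) < |(B : ℝ)| := abs_pos.2 (by exact_mod_cast hB)
    have a7 : (0 : ℝ) < |(c : ℝ)| := abs_pos.2 (by exact_mod_cast c0)
    generalize bnd C S 1 1 𝓛 = b at a1 a2
    rw [Real.log_le_iff_le_exp (a6.trans_le (le_max_right _ _)), Real.exp_add, Real.exp_add,
      Real.exp_log a7, two_mul, Real.exp_add, a3]
    have a8 : 4 ≤ Real.exp 2 := by
      have := Real.add_one_le_exp 1
      rw [show Real.exp 2 = Real.exp 1 * Real.exp 1 by rw [← Real.exp_add]; norm_num]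
      nlinarith
    have a9 := mul_le_mul a2 a1 (abs_nonneg _) (by positivity)
    have a10 : (A : ℝ) ^ 2 ≤ (2 * (Real.exp b * |(s : ℝ)|)) ^ 2 := by
      rw [← sq_abs]
      exact pow_le_pow_left₀ (abs_nonneg _) (by linarith) 2
    have a11 := mul_le_mul_of_nonneg_left a8 (sq_nonneg (Real.exp b * |(s : ℝ)|))
    exact max_le (by nlinarith) (by nlinarith)
  · have := Fact.mk hp
    have hk : kap p (padicValInt p c) = p := by
      rw [kap, if_neg]
      rw [hs, padicValInt.mul s0 s0, Int.not_odd_iff_even]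
      exact ⟨padicValInt p s, by push_cast; ring⟩
    rw [Int.cast_one, abs_one, hk] at hb ⊢
    have a1 := p1 p hb
    have a2 := p2 p hb
    have q1 : (u : ℚ_[p]) - w = s := by exact_mod_cast e1
    have q2 : (u : ℚ_[p]) + w = -A := by exact_mod_cast e2
    have q3 : (u : ℚ_[p]) * w = B := by exact_mod_cast e3
    have q4 : (c : ℚ_[p]) = s * s := by exact_mod_cast hs
    have c1 : (c : ℚ_[p]) ≠ 0 := by exact_mod_cast c0
    rw [norm_sub_rev] at a2
    rw [q1, Real.exp_neg, inv_mul_le_iff₀ (Real.exp_pos _)] at a1 a2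
    have p0 : (0 : ℝ) < p := by exact_mod_cast hp.pos
    have a3 : (p : ℝ) ^ (-(c : ℚ_[p]).valuation) = ‖(s : ℚ_[p])‖ ^ 2 := by
      rw [← Padic.norm_eq_zpow_neg_valuation c1, q4, norm_mul, sq]
    have a4 : ‖(A : ℚ_[p])‖ ≤ max ‖(u : ℚ_[p])‖ ‖(w : ℚ_[p])‖ := by
      rw [← norm_neg, ← q2]
      exact IsUltrametricDist.norm_add_le_max _ _
    have a5 : ‖(B : ℚ_[p])‖ = ‖(u : ℚ_[p])‖ * ‖(w : ℚ_[p])‖ := by rw [← q3, norm_mul]
    generalize bnd C S 1 p 𝓛 = b at a1 a2
    have a6 : (p : ℝ) ^ (-8 : ℤ) ≤ (Real.exp b * ‖(s : ℚ_[p])‖) ^ 2 := by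
      rcases not_and_or.1 (hm p hp) with h | h <;> rw [← Padic.norm_int_le_pow_iff_dvd, not_le] at h
      · rw [show (-8 : ℤ) = -(4 : ℕ) * (2 : ℕ) by norm_num, zpow_mul, zpow_natCast]
        exact pow_le_pow_left₀ (by positivity) (h.le.trans (a4.trans (max_le a2 a1))) 2
      · exact h.le.trans (a5.trans_le (sq (Real.exp b * ‖(s : ℚ_[p])‖) ▸
          mul_le_mul a2 a1 (norm_nonneg _) (by positivity)))
    have s1 : (s : ℚ_[p]) ≠ 0 := by exact_mod_cast s0
    have a7 := Real.log_le_log (by positivity) a6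
    rw [mul_pow, ← a3, Real.log_mul (by positivity) (by positivity), Real.log_zpow, Real.log_zpow,
      Real.log_pow, Real.log_exp, Padic.valuation_intCast] at a7
    push_cast at a7
    linarith

end Pool.Agent.Szpiro98.V3
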