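import Pool.Agent.Lib.Szpiro98.Blue3

/-! Third round, block RED3: the reduction to one of the two 2-isogenous quadratic problems. -/

namespace Pool.Agent.Szpiro98.V3.RED3

open Finset Pool.Agent.Lib.MP_cafdd5_nt Pool.Agent.Szpiro98.RED

/-- The product of the primes `p ≥ 5` dividing `D` and `x`. -/
def rr (D x : ℤ) : ℕ := ∏ p ∈ D.natAbs.primeFactors.filter (5 ≤ ·), if (p : ℤ) ∣ x then p else 1

lemma rr_pos (D x : ℤ) : 0 < rr D x := by
  unfold rr
  refine Finset.prod_pos fun p hp => ?_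
  split_ifs
  · exact (Nat.prime_of_mem_primeFactors (Finset.mem_filter.1 hp).1).pos
  · exact one_pos

lemma dvd_rr {D x : ℤ} (hD : D ≠ 0) (hx : x ∣ D) {p : ℕ} (hp : p.Prime) (h5 : 5 ≤ p) (h : (p : ℤ) ∣ x) :
    p ∣ rr D x := by
  unfold rr
  have hm : p ∈ D.natAbs.primeFactors.filter (5 ≤ ·) :=
    Finset.mem_filter.2 ⟨Nat.mem_primeFactors.2 ⟨hp, Int.natCast_dvd.1 (h.trans hx), Int.natAbs_ne_zero.2 hD⟩, h5⟩
  have := Finset.dvd_prod_of_mem (fun q : ℕ => if (q : ℤ) ∣ x then q else 1) hm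
  simpa [h] using this

lemma rr_mul_le {a b x y : ℤ} (h : ∀ p : ℕ, p.Prime → 5 ≤ p → (p : ℤ) ∣ x → (p : ℤ) ∣ y → (p : ℤ) ∣ a) :
    rr (disc a b) x * rr (disc a b) y ≤ cond a b := by
  refine Nat.le_of_dvd (GLUE.cond_pos a b) ?_
  unfold rr cond
  rw [← Finset.prod_mul_distrib]
  refine Finset.prod_dvd_prod_of_dvd _ _ fun p hp => ?_
  obtain ⟨h1, h5⟩ := Finset.mem_filter.1 hp
  have pp := Nat.prime_of_mem_primeFactors h1
  by_cases hx : (p : ℤ) ∣ x
  · by_cases hy : (p : ℤ) ∣ y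
    · simp [hx, hy, h p pp h5 hx hy, sq]
    · simp only [hx, hy, if_true, if_false, mul_one]
      exact dvd_pow_self p (by split_ifs <;> norm_num)
  · by_cases hy : (p : ℤ) ∣ y
    · simp only [hx, hy, if_true, if_false, one_mul]
      exact dvd_pow_self p (by split_ifs <;> norm_num)
    · simp [hx, hy]

lemma d_dvd {d c : ℤ} {R : ℕ} (hd : d ≠ 0) (hc : c ≠ 0)
    (h : ∀ p : ℕ, p.Prime → padicValInt p d ≤ 3 ∧ (p ≠ 2 → padicValInt p d ≤ padicValInt p c % 2))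
    (hR : ∀ p : ℕ, p.Prime → 5 ≤ p → (p : ℤ) ∣ c → p ∣ R) : d.natAbs ∣ 24 * R := by
  rw [Nat.dvd_iff_prime_pow_dvd_dvd]
  intro p k hp hk
  have : Fact p.Prime := ⟨hp⟩
  have hn : d.natAbs ≠ 0 := Int.natAbs_ne_zero.2 hd
  have hk' : k ≤ padicValInt p d := (padicValNat_dvd_iff_le hn).1 hk
  rcases Nat.eq_zero_or_pos k with rfl | hk0
  · simp
  obtain ⟨h3, h1⟩ := h p hp
  by_cases h2 : p = 2
  · subst h2
    exact ((pow_dvd_pow 2 (hk'.trans h3)).trans (by norm_num)).mul_right _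
  have h4 := h1 h2
  have hk1 : k = 1 := by omega
  subst hk1
  rw [pow_one]
  by_cases hp5 : 5 ≤ p
  · exact (hR p hp hp5 ((val_pos_iff hp hc).2 (by omega))).mul_left _
  · have := hp.two_le
    have h4 : p ≠ 4 := by rintro rfl; norm_num at hp
    have h3 : p = 3 := by omega
    subst h3
    exact Dvd.dvd.mul_right (by norm_num) _

lemma cast_le {d : ℤ} {m n : ℕ} (h : d.natAbs * m ≤ n) : |(d : ℝ)| * m ≤ n := by
  have h2 : ((d.natAbs * m : ℕ) : ℝ) ≤ (n : ℝ) := by exact_mod_cast h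
  rwa [Nat.cast_mul, Nat.cast_natAbs, Int.cast_abs] at h2

lemma sizes {d c : ℤ} {R N : ℕ} (hd : d ≠ 0) (hc : c ≠ 0)
    (h : ∀ p : ℕ, p.Prime → padicValInt p d ≤ 3 ∧ (p ≠ 2 → padicValInt p d ≤ padicValInt p c % 2))
    (hR0 : 0 < R) (hR : ∀ p : ℕ, p.Prime → 5 ≤ p → (p : ℤ) ∣ c → p ∣ R) (hN : R * R ≤ N) :
    |(d : ℝ)| ≤ 6 ^ 15 * (N : ℝ) ∧
      ∀ p : ℕ, p.Prime → (p : ℤ) ∣ c → |(d : ℝ)| * kap p (padicValInt p c) ^ 2 ≤ 6 ^ 18 * (N : ℝ) := by
  have hdv := d_dvd hd hc h hR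
  have hRN : R ≤ N := (Nat.le_mul_self R).trans hN
  have h1 : d.natAbs * 1 ≤ 24 * N := by
    have := Nat.le_of_dvd (by omega) hdv
    omega
  have h2 := cast_le h1
  push_cast at h2
  rw [mul_one] at h2
  have hN0 : (0 : ℝ) ≤ N := Nat.cast_nonneg N
  refine ⟨by linarith, fun p hp hpc => ?_⟩
  unfold kap
  split_ifs with ho
  · linarith
  have he : Even (padicValInt p c) := by
    rw [Int.odd_coe_nat, Nat.not_odd_iff_even] at ho
    exact ho
  by_cases hp5 : 5 ≤ p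
  · have h3 := (h p hp).2 (by omega)
    have h4 := Nat.even_iff.1 he
    have hpd : ¬(p : ℤ) ∣ d := fun k => by
      have := (val_pos_iff hp hd).1 k
      omega
    have hcop : Nat.Coprime d.natAbs p :=
      ((Nat.Prime.coprime_iff_not_dvd hp).2 fun k => hpd (Int.natCast_dvd.2 k)).symm
    have hpR := hR p hp hp5 hpc
    have h5 := Nat.le_of_dvd (by omega) (hcop.mul_dvd_of_dvd_of_dvd hdv (hpR.mul_left 24))
    have h6 := Nat.le_of_dvd hR0 hpR
    have h7 : d.natAbs * (p * p) ≤ 24 * N := by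
      calc d.natAbs * (p * p) = d.natAbs * p * p := by ring
        _ ≤ 24 * R * R := Nat.mul_le_mul h5 h6
        _ = 24 * (R * R) := by ring
        _ ≤ 24 * N := Nat.mul_le_mul_left 24 hN
    have h8 := cast_le h7
    push_cast at h8
    rw [sq]
    linarith
  · have h4 : (p : ℝ) ≤ 4 := by exact_mod_cast (by omega : p ≤ 4)
    have h0 : (0 : ℝ) ≤ p := Nat.cast_nonneg p
    have h5 : (p : ℝ) ^ 2 ≤ 16 := by nlinarith
    have h6 : |(d : ℝ)| * (p : ℝ) ^ 2 ≤ 24 * (N : ℝ) * 16 :=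
      mul_le_mul h2 h5 (by positivity) (by positivity)
    linarith

/-- The common final step. -/
lemma core {C : ℝ} (hC : 1 ≤ C) (hQ : V3.Quad C) {a b e A B c : ℤ} {R : ℕ} (hD : disc a b ≠ 0)
    (he : e ^ 3 - a * e - b = 0) (hc : c = A ^ 2 - 4 * B) (hB : B ∣ 16 * disc a b)
    (hc' : c ∣ 16 * disc a b)
    (hm : ∀ p : ℕ, p.Prime → ¬((p : ℤ) ^ 4 ∣ A ∧ (p : ℤ) ^ 8 ∣ B))
    (h1 : |A| ≤ 6 * |e|) (h2 : |c| ≤ 16 * |a| + 48 * e ^ 2)
    (h3 : e ^ 2 ≤ A ^ 2) (h4 : |a| ≤ A ^ 2 + |B|)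
    (hR0 : 0 < R) (hR : ∀ p : ℕ, p.Prime → 5 ≤ p → (p : ℤ) ∣ c → p ∣ R) (hN : R * R ≤ cond a b) :
    V3.Loc C a b := by
  have hM := one_le_M hD
  obtain ⟨ha, hb⟩ := abs_le_M a b
  obtain ⟨r1, r2⟩ := root_sq he
  set M := max (|(a : ℝ)| ^ 3) ((b : ℝ) ^ 2) with hMdef
  have hL : LL a b = Real.log M + 6 := rfl
  have hlog : 0 ≤ Real.log M := Real.log_nonneg hM
  have hB0 : B ≠ 0 := by
    rintro rfl
    exact hD (by simpa using hB)
  have hc0 : c ≠ 0 := by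
    intro k
    rw [k] at hc'
    exact hD (by simpa using hc')
  have r1' : (e : ℝ) ^ 2 ≤ |(a : ℝ)| + |(b : ℝ)| := by exact_mod_cast r1
  have r2' : |(e : ℝ)| ≤ (e : ℝ) ^ 2 := by exact_mod_cast r2
  have h1' : |(A : ℝ)| ≤ 6 * |(e : ℝ)| := by exact_mod_cast h1
  have h2' : |(c : ℝ)| ≤ 16 * |(a : ℝ)| + 48 * (e : ℝ) ^ 2 := by exact_mod_cast h2
  have h3' : (e : ℝ) ^ 2 ≤ (A : ℝ) ^ 2 := by exact_mod_cast h3
  have h4' : |(a : ℝ)| ≤ (A : ℝ) ^ 2 + |(B : ℝ)| := by exact_mod_cast h4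
  have hsz : |(A : ℝ)| + √|(c : ℝ)| ≤ Real.exp (LL a b) := by
    rw [hL, Real.exp_add, Real.exp_log (by linarith)]
    have e6 : (124 : ℝ) ≤ Real.exp 6 := by
      have h := Real.add_one_le_exp (1 / 2 : ℝ)
      have h' : Real.exp 6 = Real.exp (1 / 2) ^ 12 := by
        rw [← Real.exp_nat_mul]
        norm_num
      rw [h']
      calc (124 : ℝ) ≤ (1 / 2 + 1) ^ 12 := by norm_num
        _ ≤ _ := by gcongr
    have := sqrt_abs_le c
    nlinarith
  obtain ⟨d, hd0, hd1, hd2, hd3⟩ := hQ A B c (SS a b) (LL a b) hc hc0 hB0 hm (SS_prime a b) (sub_SS hD hB)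
    (by rw [hL]; linarith) hsz
  obtain ⟨s1, s2⟩ := sizes hd0 hc0 hd1 hR0 hR hN
  refine ⟨d, c, hd0, hc0, s1, s2, sub_SS hD hc', ?_, ?_⟩
  · intro hb'
    have k := hd2 hb'
    have b0 := bnd_nonneg hC (SS a b) |(d : ℝ)| (𝓛 := LL a b) (by rw [hL]; linarith)
    have c1 : 0 ≤ Real.log |(c : ℝ)| := Real.log_nonneg (by exact_mod_cast Int.one_le_abs hc0)
    set T := max ((A : ℝ) ^ 2) |(B : ℝ)| with hT
    have t1 : (A : ℝ) ^ 2 ≤ T := le_max_left _ _
    have t2 : |(B : ℝ)| ≤ T := le_max_right _ _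
    have t3 : (1 : ℝ) ≤ T := le_trans (by exact_mod_cast Int.one_le_abs hB0) t2
    have hMT : M ≤ 9 * T ^ 3 := by
      refine max_le ?_ ?_
      · calc |(a : ℝ)| ^ 3 ≤ (2 * T) ^ 3 := by gcongr; linarith
          _ ≤ 9 * T ^ 3 := by nlinarith [pow_pos (show 0 < T by linarith) 3]
      · have hb2 : (b : ℝ) = e * (e ^ 2 - a) := by
          have : b = e * (e ^ 2 - a) := by linarith
          exact_mod_cast this
        have u1 : |(e : ℝ) ^ 2 - a| ≤ 3 * T := by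
          refine (abs_sub _ _).trans ?_
          rw [abs_of_nonneg (sq_nonneg (e : ℝ))]
          linarith
        calc (b : ℝ) ^ 2 = e ^ 2 * |(e : ℝ) ^ 2 - a| ^ 2 := by rw [hb2, sq_abs]; ring
          _ ≤ T * (3 * T) ^ 2 := by gcongr; linarith
          _ = 9 * T ^ 3 := by ring
    have hl : Real.log M ≤ Real.log 9 + 3 * Real.log T := by
      calc Real.log M ≤ Real.log (9 * T ^ 3) := Real.log_le_log (by linarith) hMT
        _ = _ := by
          rw [Real.log_mul (by norm_num) (by positivity), Real.log_pow]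
          norm_num
    have l9 : Real.log 9 ≤ 8 := by
      have := Real.log_le_sub_one_of_pos (show (0 : ℝ) < 9 by norm_num)
      linarith
    rw [hL] at k b0 ⊢
    linarith
  · intro p hp _ hb'
    have k := hd3 p hp hb'
    have := Real.log_natCast_nonneg p
    linarith

lemma opt1 {C : ℝ} (hC : 1 ≤ C) (hQ : V3.Quad C) {a b e : ℤ} (hD : disc a b ≠ 0) (hm : MinP a b)
    (he : e ^ 3 - a * e - b = 0)
    (hN : rr (disc a b) (4 * a - 3 * e ^ 2) * rr (disc a b) (4 * a - 3 * e ^ 2) ≤ cond a b) : V3.Loc C a b := by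
  have hd := disc_eq he
  refine core hC hQ (A := 3 * e) (B := 3 * e ^ 2 - a) (c := 4 * a - 3 * e ^ 2) hD he (by ring) ?_ ?_ ?_ ?_ ?_ ?_ ?_
    (rr_pos _ _) ?_ hN
  · exact ⟨16 * (3 * e ^ 2 - a) * (4 * a - 3 * e ^ 2), by rw [hd]; ring⟩
  · exact ⟨16 * (3 * e ^ 2 - a) ^ 2, by rw [hd]; ring⟩
  · rintro p hp ⟨k1, k2⟩
    have k3 : (p : ℤ) ^ 3 ∣ e := dvd_six hp (by
      have := k1.mul_left 2
      rwa [show 2 * (3 * e) = 6 * e by ring] at this)
    have k4 : (p : ℤ) ^ 6 ∣ e ^ 2 := by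
      have := pow_dvd_pow_of_dvd k3 2
      rwa [← pow_mul] at this
    have k5 : (p : ℤ) ^ 6 ∣ a := by
      have k6 : (p : ℤ) ^ 6 ∣ 3 * e ^ 2 - a := (pow_dvd_pow _ (by norm_num)).trans k2
      have := (k4.mul_left 3).sub k6
      rwa [sub_sub_cancel] at this
    refine hm p hp ⟨(pow_dvd_pow _ (by norm_num)).trans k5, ?_⟩
    have : b = e * (e ^ 2 - a) := by linarith
    rw [this]
    exact (k4.sub k5).mul_left e
  · rw [abs_mul]
    have := abs_nonneg e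
    norm_num
    linarith
  · refine (abs_sub _ _).trans ?_
    rw [abs_mul, abs_mul, abs_of_nonneg (sq_nonneg e)]
    have := abs_nonneg a
    have := sq_nonneg e
    norm_num
    linarith
  · nlinarith [sq_nonneg e]
  · have h1 := le_abs_self (3 * e ^ 2 - a)
    have h2 := neg_abs_le (3 * e ^ 2 - a)
    have := sq_nonneg e
    rw [abs_le]
    constructor <;> nlinarith
  · intro p hp h5 h
    exact dvd_rr hD ⟨(3 * e ^ 2 - a) ^ 2, by rw [hd]; ring⟩ hp h5 h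

lemma opt2 {C : ℝ} (hC : 1 ≤ C) (hQ : V3.Quad C) {a b e : ℤ} (hD : disc a b ≠ 0) (hm : MinP a b)
    (he : e ^ 3 - a * e - b = 0)
    (hN : rr (disc a b) (3 * e ^ 2 - a) * rr (disc a b) (3 * e ^ 2 - a) ≤ cond a b) : V3.Loc C a b := by
  have hd := disc_eq he
  refine core hC hQ (A := -6 * e) (B := 4 * a - 3 * e ^ 2) (c := 16 * (3 * e ^ 2 - a)) hD he (by ring)
    ?_ ?_ ?_ ?_ ?_ ?_ ?_ (rr_pos _ _) ?_ hN
  · exact ⟨16 * (3 * e ^ 2 - a) ^ 2, by rw [hd]; ring⟩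
  · exact ⟨(3 * e ^ 2 - a) * (4 * a - 3 * e ^ 2), by rw [hd]; ring⟩
  · rintro p hp ⟨k1, k2⟩
    have k3 : (p : ℤ) ^ 3 ∣ e := dvd_six hp (by
      have := k1.neg_right
      rwa [show -(-6 * e) = 6 * e by ring] at this)
    have k4 : (p : ℤ) ^ 6 ∣ e ^ 2 := by
      have := pow_dvd_pow_of_dvd k3 2
      rwa [← pow_mul] at this
    have k5 : (p : ℤ) ^ 4 ∣ a := by
      have k6 : (p : ℤ) ^ 6 ∣ 4 * a - 3 * e ^ 2 := (pow_dvd_pow _ (by norm_num)).trans k2
      have := k6.add (k4.mul_left 3)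
      rw [sub_add_cancel] at this
      exact dvd_four hp this
    refine hm p hp ⟨k5, ?_⟩
    have : b = e * (e ^ 2 - a) := by linarith
    rw [this]
    have k7 : (p : ℤ) ^ 4 ∣ e ^ 2 - a := ((pow_dvd_pow _ (by norm_num)).trans k4).sub k5
    have k8 := mul_dvd_mul k3 k7
    rw [← pow_add] at k8
    exact (pow_dvd_pow _ (by norm_num)).trans k8
  · rw [abs_mul]
    norm_num
  · have h1 := le_abs_self a
    have h2 := neg_abs_le a
    have := sq_nonneg e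
    rw [abs_le]
    constructor <;> linarith
  · nlinarith [sq_nonneg e]
  · have h1 := le_abs_self (4 * a - 3 * e ^ 2)
    have h2 := neg_abs_le (4 * a - 3 * e ^ 2)
    have h3 := abs_nonneg (4 * a - 3 * e ^ 2)
    have := sq_nonneg e
    rw [abs_le]
    constructor <;> nlinarith
  · intro p hp h5 h
    refine dvd_rr hD ⟨(3 * e ^ 2 - a) * (4 * a - 3 * e ^ 2), by rw [hd]; ring⟩ hp h5 ?_
    have c2 := cop hp Nat.prime_two (by omega)
    have c16 : IsCoprime (p : ℤ) 16 := by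
      have : (16 : ℤ) = ((2 : ℕ) : ℤ) ^ 4 := by norm_num
      rw [this]
      exact c2.pow_right
    exact c16.dvd_of_dvd_mul_left h

end Pool.Agent.Szpiro98.V3.RED3

namespace Pool.Agent.Szpiro98.V3

open Pool.Agent.Lib.MP_cafdd5_nt RED3

theorem red : RedStmt := by
  intro C hC hQ a b e hD hm he
  have key : rr (disc a b) (4 * a - 3 * e ^ 2) * rr (disc a b) (3 * e ^ 2 - a) ≤ cond a b := by
    refine rr_mul_le fun p hp h5 h1 h2 => ?_
    have h3 : (p : ℤ) ∣ 3 * a := by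
      have := h1.add h2
      rwa [show 4 * a - 3 * e ^ 2 + (3 * e ^ 2 - a) = 3 * a by ring] at this
    exact (RED.cop hp Nat.prime_three (by omega)).dvd_of_dvd_mul_left h3
  rcases le_total (rr (disc a b) (4 * a - 3 * e ^ 2)) (rr (disc a b) (3 * e ^ 2 - a)) with h | h
  · exact opt1 hC hQ hD hm he ((Nat.mul_le_mul_left _ h).trans key)
  · exact opt2 hC hQ hD hm he ((Nat.mul_le_mul_right _ h).trans key)

end Pool.Agent.Szpiro98.V3
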