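import Pool.Agent.Lib.Szpiro98.Blue3

/-! Block REF3: refinement of a family of units, one embedding. -/

namespace Pool.Agent.Szpiro98.V3

open Finset Module NumberField IsDedekindDomain NormedSpace Pool.Agent.Lib.MP_cafdd5_nt

theorem refp : RefPStmt := by
  classical
  intro p hp K _ _ s he hψ hW hD hU hQ J Γ hκ hΓ
  have ω0 : 0 < om s.N := Real.exp_pos _
  have ω1 : om s.N ≤ 1 / 16 := by
    have hN : (1 : ℝ) ≤ s.N := by exact_mod_cast (by rw [s.hN]; omega : 1 ≤ s.N)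
    rw [om, Real.exp_neg, ← one_div]
    refine one_div_le_one_div_of_le (by norm_num) ?_
    linarith [Real.add_one_le_exp (2000 * (s.N : ℝ))]
  rcases Γ.eq_empty_or_nonempty with rfl | ⟨γ0, h0⟩
  · exact ⟨∅, fun _ => 0, by simp, by simp, by simp, by simp⟩
  have hp1 : (1 : ℝ) < p := by exact_mod_cast hp.out.one_lt
  have hex : ∃ k : ℕ, 2 / om s.N ≤ (p : ℝ) ^ k := (pow_unbounded_of_one_lt _ hp1).imp fun _ h => h.le
  have hk := Nat.find_spec hex
  have hk0 : Nat.find hex ≠ 0 := fun e => by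
    rw [e, pow_zero, div_le_one ω0] at hk
    linarith
  obtain ⟨k, ek⟩ := Nat.exists_eq_succ_of_ne_zero hk0
  have hlt := not_le.1 (Nat.find_min hex (m := k) (by omega))
  rw [ek] at hk
  obtain ⟨c, hcl⟩ := CLS.exists_cls (p := p) (k + 1)
  have : NeZero (p ^ (k + 1)) := ⟨pow_ne_zero _ hp.out.ne_zero⟩
  have h4 : ((p : ℝ) ^ (k + 1))⁻¹ ≤ om s.N / 2 := by
    rw [← inv_div]
    exact inv_anti₀ (by positivity) hk
  choose u hu using hQ
  have nz : ∀ γ ∈ Γ, γ ≠ 0 := fun γ hγ e => (hΓ γ hγ γ0 h0).1.1 (by rw [e, zero_div])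
  have hn : ∀ a : ℚ_[p], ‖algebraMap ℚ_[p] ℂ_[p] a‖ = ‖a‖ := fun a => PadicComplex.norm_extends' p a
  set x : K → ℂ_[p] := fun γ => s.ι (s.σ (γ / γ0)) with hx
  have hx1 : ∀ γ ∈ Γ, ‖x γ‖ = 1 := fun γ h => hU _ (hΓ γ h γ0 h0).1
  have hx0 : ∀ γ ∈ Γ, x γ ≠ 0 := fun γ h => norm_pos_iff.1 (by rw [hx1 γ h]; exact one_pos)
  have hu1 : ∀ γ ∈ Γ, ‖u (γ / γ0)‖ ≤ 1 := fun γ h => by
    rw [← hn, ← hu]
    exact (hx1 γ h).le
  obtain ⟨γ1, g1, hmax⟩ := exists_max_image Γ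
    (fun γ => (Γ.filter fun γ' => c (u (γ' / γ0)) = c (u (γ / γ0))).card) ⟨γ0, h0⟩
  set Γ' := Γ.filter fun γ' => c (u (γ' / γ0)) = c (u (γ1 / γ0)) with hΓ'
  have hcard : Γ.card ≤ Γ'.card * p ^ (k + 1) := by
    refine (card_le_mul_card_image (f := fun γ => c (u (γ / γ0))) Γ Γ'.card fun a ha => ?_).trans
      (Nat.mul_le_mul_left _ ((card_le_univ _).trans_eq (ZMod.card _)))
    obtain ⟨γ, hγ, rfl⟩ := mem_image.1 ha
    exact hmax γ hγ
  have hlog : ∀ γ ∈ Γ', ∃ t : ℂ_[p], ‖t‖ ≤ om s.N ∧ exp t = x γ / x γ1 := by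
    intro γ hγ
    obtain ⟨a, b⟩ := mem_filter.1 hγ
    refine exists_log (anp p).1 ω1 ?_
    rw [div_sub_one (hx0 γ1 g1), norm_div, hx1 γ1 g1, div_one]
    have e : x γ - x γ1 = algebraMap ℚ_[p] ℂ_[p] (u (γ / γ0) - u (γ1 / γ0)) := by
      rw [map_sub, ← hu, ← hu]
    rw [e, hn]
    exact (hcl _ _ (hu1 γ a) (hu1 γ1 g1) b).trans h4
  choose! t ht1 ht2 using hlog
  have hLg : ∀ γ ∈ Γ', ∀ γ' ∈ Γ', s.Lg (γ / γ') (t γ - t γ') := by
    intro γ hγ γ' hγ'
    have a' := (mem_filter.1 hγ').1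
    have e := s.an.add _ (s.le (hD _ (ult_sub (ht1 γ hγ) (ht1 γ' hγ')))) _ (s.le (hD _ (ht1 γ' hγ')))
    rw [sub_add_cancel, ht2 γ hγ, ht2 γ' hγ'] at e
    have e1 : γ / γ' = γ / γ0 / (γ' / γ0) := (div_div_div_cancel_right₀ (nz γ0 h0) _ _).symm
    rw [Setup.Lg, e1, map_div₀ s.σ, map_div₀ s.ι]
    change _ = x γ / x γ'
    have := hx0 γ' a'
    have := hx0 γ1 g1
    field_simp at e ⊢
    linear_combination -e
  refine ⟨Γ' ×ˢ {0}, fun i => t i.1, ?_, ?_, ?_, ?_⟩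
  · rw [he, pow_zero, mul_one, card_product, card_singleton, mul_one]
    refine le_trans (by exact_mod_cast hcard : (Γ.card : ℝ) ≤ Γ'.card * (p : ℝ) ^ (k + 1)) ?_
    gcongr
    rw [lt_div_iff₀ ω0] at hlt
    rw [le_div_iff₀ ω0, pow_succ]
    nlinarith
  · intro i hi k hk e
    rw [mem_coe, mem_product, mem_singleton] at hi hk
    have e1 := hLg _ hi.1 _ hk.1
    rw [show t i.1 = t k.1 from e, sub_self, Setup.Lg, exp_zero] at e1
    exact Prod.ext ((div_eq_one_iff_eq (nz _ (mem_filter.1 hk.1).1)).1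
      ((s.ι.comp s.σ).injective (e1.symm.trans (map_one (s.ι.comp s.σ)).symm))) (hi.2.trans hk.2.symm)
  · intro i hi
    have := (mem_product.1 hi).1
    exact ⟨(mem_filter.1 this).1, hD _ (ht1 _ this)⟩
  · intro i hi k hk
    have a := (mem_product.1 hi).1
    have b := (mem_product.1 hk).1
    refine ⟨?_, hLg _ a _ b, ?_⟩
    · rw [hψ, AddMonoidHom.zero_apply, abs_zero]
      positivity
    · rw [hW]
      exact ult_sub (ht1 _ a) (ht1 _ b)

open REFI in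
theorem refi : RefIStmt := by
  intro K _ _ s he hψ hW hD J Γ hκ hΓ
  rcases Γ.eq_empty_or_nonempty with rfl | ⟨γ0, h0⟩
  · exact ⟨∅, fun _ => 0, by simp, by simp, by simp, by simp⟩
  set ω := om s.N with hω
  have hω0 : 0 < ω := Real.exp_pos _
  have hω1 : ω ≤ 1 := Real.exp_le_one_iff.2 (neg_nonpos.2 (by positivity))
  have hN : (1 : ℝ) ≤ s.N := by
    have : 1 ≤ s.N := by rw [s.hN]; omega
    exact_mod_cast this
  set Q : ℝ := (s.q : ℝ) ^ J with hQ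
  have hQ1 : 100 ≤ Q * ω := by
    rw [div_le_iff₀ (by positivity)] at hκ
    have : 0 ≤ Q * ω := mul_nonneg (by positivity) hω0.le
    nlinarith
  have hQ0 : 0 ≤ Q := by positivity
  set h : ℝ := s.N * Q with hh
  have hQh : Q ≤ h := le_mul_of_one_le_left hQ0 hN
  have hc : 100 ≤ h * ω := hQ1.trans (mul_le_mul_of_nonneg_right hQh hω0.le)
  have hh0 : 0 < h := by
    by_contra hn
    have := mul_nonpos_of_nonpos_of_nonneg (not_lt.1 hn) hω0.le
    linarith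
  have nz : ∀ γ ∈ Γ, γ ≠ 0 := fun γ hγ e => (hΓ γ hγ γ0 h0).1.1 (by rw [e, zero_div])
  set f := s.ι.comp s.σ with hf
  let l : K → ℂ := fun γ => Complex.log (f (γ / γ0))
  have hl1 : ∀ γ ∈ Γ, Complex.exp (l γ) = f (γ / γ0) := fun γ hγ =>
    Complex.exp_log ((map_ne_zero f).2 (hΓ γ hγ γ0 h0).1.1)
  have hl2 : ∀ γ ∈ Γ, |(l γ).re| ≤ 2 * h := by
    intro γ hγ
    have a1 := (hΓ γ hγ γ0 h0).2.2 (InfinitePlace.mk f)
    rw [InfinitePlace.apply] at a1
    have e : (l γ).re = Real.log ‖f (γ / γ0)‖ := Complex.log_re _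
    rw [e]
    linarith
  have hc0 : 0 < h * ω / 2 := by linarith
  obtain ⟨b, hb⟩ := fibre Γ (⌊8 / ω⌋₊ + 1) (Nat.succ_pos _)
    (fun γ => ⌊((l γ).re + 2 * h) / (h * ω / 2)⌋₊) fun γ hγ => by
      refine Nat.lt_succ_of_le (Nat.floor_le_floor ?_)
      rw [div_le_div_iff₀ hc0 hω0]
      have := (abs_le.1 (hl2 γ hγ)).2
      nlinarith
  set Γ' := Γ.filter fun γ => ⌊((l γ).re + 2 * h) / (h * ω / 2)⌋₊ = b with hΓ'
  set K0 := ⌊h * ω / (4 * Real.pi)⌋₊ with hK0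
  have hπ := Real.pi_pos
  have hπ4 := Real.pi_le_four
  have k1 : 4 * Real.pi * K0 ≤ h * ω := by
    have := Nat.floor_le (a := h * ω / (4 * Real.pi)) (by positivity)
    rw [le_div_iff₀ (by positivity)] at this
    linarith
  have k2 : h * ω ≤ 32 * K0 := by
    have := Nat.lt_floor_add_one (h * ω / (4 * Real.pi))
    rw [div_lt_iff₀ (by positivity)] at this
    have h3 : (0 : ℝ) ≤ K0 := Nat.cast_nonneg _
    nlinarith
  let t : K × ℕ → ℂ := fun i => l i.1 + i.2 * (2 * Real.pi * Complex.I)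
  have hm : ∀ i ∈ Γ' ×ˢ range K0, i.1 ∈ Γ ∧ ⌊((l i.1).re + 2 * h) / (h * ω / 2)⌋₊ = b ∧ i.2 < K0 :=
    fun i hi => ⟨(mem_filter.1 (mem_product.1 hi).1).1, (mem_filter.1 (mem_product.1 hi).1).2,
      mem_range.1 (mem_product.1 hi).2⟩
  have hLg : ∀ i ∈ Γ' ×ˢ range K0, ∀ k ∈ Γ' ×ˢ range K0, s.Lg (i.1 / k.1) (t i - t k) := by
    intro i hi k hk
    have e : ∀ j ∈ Γ' ×ˢ range K0, Complex.exp (t j) = f (j.1 / γ0) := fun j hj => by
      rw [Complex.exp_add, Complex.exp_nat_mul_two_pi_mul_I, mul_one, hl1 _ (hm j hj).1]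
    change exp (t i - t k) = f (i.1 / k.1)
    rw [← Complex.exp_eq_exp_ℂ, Complex.exp_sub, e i hi, e k hk]
    have n1 := (map_ne_zero f).2 (nz _ (hm k hk).1)
    have n4 := (map_ne_zero f).2 (nz _ h0)
    simp only [map_div₀]
    field_simp
  have him : ∀ i ∈ Γ' ×ˢ range K0, ∀ k ∈ Γ' ×ˢ range K0, |(t i - t k).im| ≤ h * ω / 2 := by
    intro i hi k hk
    have e : (t i - t k).im = (l i.1).im - (l k.1).im + 2 * Real.pi * ((i.2 : ℝ) - k.2) := by
      simp [t]; ring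
    have a1 := Complex.neg_pi_lt_log_im (f (i.1 / γ0))
    have a2 := Complex.log_im_le_pi (f (i.1 / γ0))
    have a3 := Complex.neg_pi_lt_log_im (f (k.1 / γ0))
    have a4 := Complex.log_im_le_pi (f (k.1 / γ0))
    have b1 : (i.2 : ℝ) + 1 ≤ K0 := by exact_mod_cast (hm i hi).2.2
    have b2 : (k.2 : ℝ) + 1 ≤ K0 := by exact_mod_cast (hm k hk).2.2
    have b3 : (0 : ℝ) ≤ i.2 := Nat.cast_nonneg _
    have b4 : (0 : ℝ) ≤ k.2 := Nat.cast_nonneg _
    rw [e]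
    refine abs_le.2 ⟨?_, ?_⟩ <;> simp only [l] <;> nlinarith
  have hre : ∀ i ∈ Γ' ×ˢ range K0, ∀ k ∈ Γ' ×ˢ range K0, |(t i - t k).re| ≤ h * ω / 2 := by
    intro i hi k hk
    have e : (t i - t k).re = ((l i.1).re + 2 * h) - ((l k.1).re + 2 * h) := by
      simp [t]
    rw [e]
    refine floor_close hc0 ?_ ?_ ((hm i hi).2.1.trans (hm k hk).2.1.symm)
    · linarith [(abs_le.1 (hl2 _ (hm i hi).1)).1]
    · linarith [(abs_le.1 (hl2 _ (hm k hk).1)).1]
  refine ⟨Γ' ×ˢ range K0, t, ?_, fun i hi k hk e => ?_, fun i hi => ⟨(hm i hi).1, ?_⟩,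
    fun i hi k hk => ⟨?_, hLg i hi k hk, ?_⟩⟩
  · rw [he, pow_one, card_product, card_range, Nat.cast_mul]
    have c1 : (Γ.card : ℝ) ≤ (9 / ω) * Γ'.card := by
      have c2 : (Γ.card : ℝ) ≤ ((⌊8 / ω⌋₊ : ℝ) + 1) * Γ'.card := by exact_mod_cast hb
      have c3 := Nat.floor_le (a := 8 / ω) (by positivity)
      have c4 : 1 ≤ 1 / ω := by rw [le_div_iff₀ hω0]; linarith
      have c5 : 9 / ω = 8 / ω + 1 / ω := by ring
      exact c2.trans (mul_le_mul_of_nonneg_right (by linarith) (Nat.cast_nonneg _))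
    have c2 : Q ≤ 32 * K0 / ω := by
      rw [le_div_iff₀ hω0]
      exact (mul_le_mul_of_nonneg_right hQh hω0.le).trans k2
    calc (Γ.card : ℝ) * (Q / 5) ≤ (9 / ω * Γ'.card) * (32 * K0 / ω / 5) :=
          mul_le_mul c1 (by linarith) (by positivity) (by positivity)
      _ = Γ'.card * K0 * ((288 / 5) / ω ^ 2) := by field_simp; ring
      _ ≤ _ := by gcongr; norm_num
  · have hi' := mem_coe.1 hi
    have hk' := mem_coe.1 hk
    have a1 := hLg i hi' k hk'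
    rw [e, sub_self] at a1
    unfold Setup.Lg at a1
    rw [exp_zero] at a1
    have a2 : i.1 = k.1 := (div_eq_one_iff_eq (nz _ (hm k hk').1)).1
      (f.injective (a1.symm.trans (map_one f).symm))
    have a3 : (i.2 : ℂ) * (2 * Real.pi * Complex.I) = k.2 * (2 * Real.pi * Complex.I) := by
      have e' : l i.1 + i.2 * (2 * Real.pi * Complex.I) = l k.1 + k.2 * (2 * Real.pi * Complex.I) := e
      rw [a2] at e'
      exact add_left_cancel e'
    exact Prod.ext a2 (Nat.cast_injective (mul_right_cancel₀ Complex.two_pi_I_ne_zero a3))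
  · rw [hD]; exact AddSubgroup.mem_top _
  · rw [hψ]
    have := him i hi k hk
    have := mul_le_of_le_one_right hh0.le hω1
    linarith
  · rw [hW]
    have := Complex.norm_le_abs_re_add_abs_im (t i - t k)
    linarith [him i hi k hk, hre i hi k hk]

end Pool.Agent.Szpiro98.V3
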