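import Pool.Agent.Lib.Szpiro98.Blue
import Pool.Agent.Lib.helper22.Val

/-! Block SUN: an integer becomes an `S`-unit for a set missing one prime above each rational prime. -/

namespace Pool.Agent.Szpiro98

open Finset Module NumberField IsDedekindDomain WithZero Pool.Agent.Lib.helper22.Val

namespace SUN

variable {K : Type} [Field K] [NumberField K]

lemma uniq {v : HOS K} {p q : ℕ} (hp : p.Prime) (hq : q.Prime) (h : (p : 𝓞 K) ∈ v.asIdeal)
    (h' : (q : 𝓞 K) ∈ v.asIdeal) : p = q := by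
  by_contra e
  exact ((val_natCast_lt_iff v _).2 h').ne (val_nat_eq_one h ((Nat.coprime_primes hp hq).2 e))

lemma dvd_norm {v : HOS K} {p : ℕ} (hp : p.Prime) (h : (p : 𝓞 K) ∈ v.asIdeal) :
    p ∣ Ideal.absNorm v.asIdeal := by
  have := v.isMaximal
  obtain ⟨q, n, h0, h1, h2, h3⟩ := Ideal.exists_prime_and_absNorm_eq_pow v.asIdeal
  rw [h3, uniq hp h2 h h1]
  exact dvd_pow_self _ h0.ne'

lemma ord (v : HOS K) {x : 𝓞 K} (hx : x ≠ 0) : ∃ k : ℕ, log (v.valuation K x) = -k ∧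
    ∀ p : ℕ, p.Prime → (p : 𝓞 K) ∈ v.asIdeal → p ^ k ∣ Ideal.absNorm (Ideal.span {x}) := by
  have h0 : v.valuation K x ≠ 0 := val_ne_zero (by simpa using hx)
  have h1 : log (v.valuation K x) ≤ 0 := by
    rw [log_le_iff_le_exp h0]; exact v.valuation_le_one x
  obtain ⟨k, hk⟩ := Int.exists_eq_neg_ofNat h1
  refine ⟨k, hk, fun p hp h => (pow_dvd_pow_of_dvd (dvd_norm hp h) k).trans ?_⟩
  rw [← map_pow]
  refine map_dvd _ ((v.intValuation_le_pow_iff_dvd x k).1 ?_)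
  rw [← v.valuation_of_algebraMap (K := K), ← hk, exp_log h0]

lemma norm_p (hK : finrank ℚ K ≤ 3) (p : ℕ) : Ideal.absNorm (Ideal.span {(p : 𝓞 K)}) ∣ p ^ 3 := by
  rw [Ideal.absNorm_span_natCast, RingOfIntegers.rank]
  exact pow_dvd_pow _ hK

lemma ram (hK : finrank ℚ K ≤ 3) {v : HOS K} {p : ℕ} (hp : p.Prime) (h : (p : 𝓞 K) ∈ v.asIdeal) :
    ∃ e : ℕ, log (v.valuation K p) = -e ∧ e ∣ 6 ∧ e ≤ 3 := by
  obtain ⟨e, h1, h2⟩ := ord v (x := p) (Nat.cast_ne_zero.2 hp.ne_zero)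
  have h3 := (Nat.pow_dvd_pow_iff_le_right hp.one_lt).1 ((h2 p hp h).trans (norm_p hK p))
  have h4 := log_val_prime_neg hp h
  replace h1 : log (v.valuation K p) = -e := by simpa using h1
  refine ⟨e, h1, ?_, h3⟩
  have : 0 < e := by omega
  interval_cases e <;> norm_num

lemma fib (hK : finrank ℚ K ≤ 3) {p : ℕ} (hp : p.Prime) {U : Finset (HOS K)}
    (h : ∀ v ∈ U, (p : 𝓞 K) ∈ v.asIdeal) : U.card ≤ 3 ∧ ∏ v ∈ U, wt v ≤ (6 * Real.log p) ^ 3 := by
  have h1 : U.card ≤ 3 := by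
    have h0 : ∏ v ∈ U, v.asIdeal ∣ Ideal.span {(p : 𝓞 K)} := prod_dvd_of_coprime
      (fun v _ w _ e => HeightOneSpectrum.isCoprime_of_ne v w e)
      fun v hv => Ideal.dvd_span_singleton.2 (h v hv)
    refine (Nat.pow_dvd_pow_iff_le_right hp.one_lt).1 (dvd_trans ?_ ((map_dvd Ideal.absNorm
      h0).trans (norm_p hK p)))
    rw [map_prod, ← prod_const]
    exact prod_dvd_prod_of_dvd _ _ fun v hv => dvd_norm hp (h v hv)
  have p2 : (2 : ℝ) ≤ p := by exact_mod_cast hp.two_le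
  have h2 : 1 ≤ 6 * Real.log p := by
    linarith [Real.log_two_gt_d9, Real.log_le_log two_pos p2]
  refine ⟨h1, le_trans ?_ (pow_le_pow_right₀ h2 h1)⟩
  rw [← prod_const]
  refine prod_le_prod (fun v _ => mul_nonneg zero_le_two (Real.log_natCast_nonneg _)) fun v hv => ?_
  have h3 := (map_dvd Ideal.absNorm (Ideal.dvd_span_singleton.2 (h v hv))).trans (norm_p hK p)
  have h4 := Nat.pos_of_dvd_of_pos h3 (pow_pos hp.pos 3)
  have := Real.log_le_log (x := Ideal.absNorm v.asIdeal) (y := p ^ 3) (by exact_mod_cast h4)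
    (by exact_mod_cast Nat.le_of_dvd (pow_pos hp.pos 3) h3)
  rw [Real.log_pow] at this
  unfold wt
  push_cast at this
  linarith

lemma arch (hK : finrank ℚ K ≤ 3) {β : K} {n : ℤ} (hn : Algebra.norm ℚ β = n) (n0 : n ≠ 0) {L : ℝ}
    (hL : 0 ≤ L) (h : ∀ φ : K →+* ℂ, ‖φ β‖ ≤ Real.exp L) :
    (n.natAbs : ℝ) ≤ Real.exp (3 * L) ∧ ∀ w : InfinitePlace K, |Real.log (w β)| ≤ 3 * L := by
  classical
  have h1 : ∏ σ : K →ₐ[ℚ] ℂ, ‖σ β‖ = n.natAbs := by
    rw [← norm_prod, ← Algebra.norm_eq_prod_embeddings, hn]; simp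
  have h2 : ∀ U : Finset (K →ₐ[ℚ] ℂ), ∏ σ ∈ U, ‖σ β‖ ≤ Real.exp (3 * L) := fun U => by
    refine (prod_le_prod (fun _ _ => norm_nonneg _) fun σ _ => h σ.toRingHom).trans ?_
    have : U.card ≤ 3 := (card_le_univ U).trans (by rwa [AlgHom.card])
    rw [prod_const, ← Real.exp_nat_mul]
    gcongr; exact_mod_cast this
  refine ⟨h1 ▸ h2 _, fun w => ?_⟩
  have h3 : (1 : ℝ) ≤ n.natAbs := by exact_mod_cast Int.natAbs_pos.2 n0
  rw [← h1, ← mul_prod_erase _ _ (mem_univ w.embedding.toRatAlgHom)] at h3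
  have h4 : 1 ≤ w β * Real.exp (3 * L) := h3.trans (by
    rw [← w.norm_embedding_eq]; exact mul_le_mul_of_nonneg_left (h2 _) (norm_nonneg _))
  have h5 : 0 < w β := (mul_pos_iff_of_pos_right (Real.exp_pos _)).1 (one_pos.trans_le h4)
  have h6 := Real.log_le_log h5 (w.norm_embedding_eq β ▸ h w.embedding)
  have h7 := Real.log_nonneg h4
  rw [Real.log_mul h5.ne' (Real.exp_pos _).ne'] at h7
  rw [Real.log_exp] at h6 h7
  exact abs_le.2 ⟨by linarith, by linarith⟩

end SUN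

open SUN in
theorem sun : SunStmt := by
  classical
  intro K _ _ hK β n S L P β0 hn hS hnS hL hβ
  choose bl bl1 bl2 using fun v : HOS K => exists_prime_mem v
  have : ∀ q : ℕ, ∃ v : HOS K, (q.Prime → (q : 𝓞 K) ∈ v.asIdeal) ∧ (q = bl P → v = P) := fun q => by
    by_cases h : q = bl P
    · exact ⟨P, fun _ => h ▸ bl2 P, fun _ => rfl⟩
    by_cases hq : q.Prime
    · obtain ⟨v, hv⟩ := exists_over K hq
      exact ⟨v, fun _ => hv, fun e => (h e).elim⟩
    · exact ⟨P, fun e => (hq e).elim, fun _ => rfl⟩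
  choose Q Q1 Q2 using this
  have hQ : ∀ q, q.Prime → bl (Q q) = q := fun q hq => uniq (bl1 _) hq (bl2 _) (Q1 q hq)
  have fin : {v : HOS K | bl v ∈ S ∧ v ≠ Q (bl v)}.Finite :=
    (S.finite_toSet.biUnion fun q hq => finite_val_ne_one (L := K) (a := q)
      (Nat.cast_ne_zero.2 (hS q hq).ne_zero)).subset fun v hv =>
      Set.mem_biUnion hv.1 ((val_natCast_lt_iff v _).2 (bl2 v)).ne
  have n0 : n ≠ 0 := by
    rintro rfl
    exact β0 (by simpa using hn)
  obtain ⟨a1, a2⟩ := arch hK hn n0 (by linarith) hβ.2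
  obtain ⟨b, rfl⟩ : ∃ b : 𝓞 K, (b : K) = β := ⟨⟨β, hβ.1⟩, rfl⟩
  have hb : Ideal.absNorm (Ideal.span {b}) = n.natAbs := by
    rw [Ideal.absNorm_span_singleton, ← Algebra.coe_norm_int, Int.cast_inj] at *
    rw [hn]
  choose o o1 o2 using fun v : HOS K => ord v (x := b) (by simpa using β0)
  choose e e1 e2 e3 using fun v : HOS K => ram hK (bl1 v) (bl2 v)
  have o3 : ∀ v, bl v ^ o v ∣ n.natAbs := fun v => hb ▸ o2 v _ (bl1 v) (bl2 v)
  have o4 : ∀ v, (o v : ℝ) ≤ 5 * L := fun v => by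
    have h1 : 2 ^ o v ≤ n.natAbs := (Nat.pow_le_pow_left (bl1 v).two_le _).trans
      (Nat.le_of_dvd (Int.natAbs_pos.2 n0) (o3 v))
    have h2 := Real.log_le_log (x := 2 ^ o v) (by positivity) (le_trans (by exact_mod_cast h1) a1)
    rw [Real.log_pow, Real.log_exp] at h2
    nlinarith [Real.log_two_gt_d9, (o v).cast_nonneg (α := ℝ)]
  obtain ⟨k, hk⟩ : ∃ k : ℕ → ℕ, k = fun q => o (Q q) * (6 / e (Q q)) := ⟨_, rfl⟩
  have k1 : ∀ q, k q ≤ o (Q q) * 6 := fun q => hk ▸ Nat.mul_le_mul_left _ (Nat.div_le_self _ _)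
  obtain ⟨r, hr⟩ : ∃ r : ℕ, r = ∏ q ∈ S, q ^ k q := ⟨_, rfl⟩
  have r1 : r ∣ n.natAbs ^ 6 := by
    refine hr ▸ prod_dvd_of_isRelPrime (fun p hp q hq h => Nat.coprime_iff_isRelPrime.1
      (Nat.coprime_pow_primes _ _ (hS p hp) (hS q hq) h)) fun q hq => (pow_dvd_pow _ (k1 q)).trans ?_
    rw [pow_mul]
    exact pow_dvd_pow_of_dvd (by simpa only [hQ q (hS q hq)] using o3 (Q q)) 6
  have r0 : r ≠ 0 := ne_zero_of_dvd_ne_zero (by simpa using n0) r1
  have r0' : ((r : ℚ) : K) ≠ 0 := by simpa using r0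
  have key : ∀ v : HOS K, log (v.valuation K ((b : K) ^ 6 / (r : ℚ))) =
      (if bl v ∈ S then k (bl v) * e v else 0 : ℕ) - 6 * o v := fun v => by
    have : v.valuation K (r : ℚ) = if bl v ∈ S then v.valuation K (bl v) ^ k (bl v) else 1 := by
      rw [← prod_ite_eq S (bl v) fun q => v.valuation K q ^ k q, hr]
      push_cast
      rw [map_prod]
      refine prod_congr rfl fun q hq => ?_
      rw [map_pow]
      split_ifs with h
      · rfl
      · rw [val_nat_eq_one (bl2 v) ((Nat.coprime_primes (bl1 v) (hS q hq)).2 h), one_pow]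
    rw [map_div₀, log_div (val_ne_zero (pow_ne_zero _ β0)) (val_ne_zero r0'), map_pow, log_pow, o1, this]
    split_ifs
    · rw [log_pow, e1]; push_cast; simp only [nsmul_eq_mul]; ring
    · simp
  have hm : ∀ v, v ∈ fin.toFinset ↔ bl v ∈ S ∧ v ≠ Q (bl v) := fun v => fin.mem_toFinset
  have hf := fun q hq => fib hK (hS q hq) (U := fin.toFinset.filter fun v => bl v = q)
    fun v hv => (mem_filter.1 hv).2 ▸ bl2 v
  refine ⟨fin.toFinset, r, fun h => ((hm P).1 h).2 (Q2 _ rfl).symm,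
    card_le_mul_card_image_of_maps_to (fun v hv => ((hm v).1 hv).1) 3 fun q hq => (hf q hq).1, ?_,
    by exact_mod_cast r0, ⟨div_ne_zero (pow_ne_zero _ β0) r0', fun v hv => ?_⟩, ⟨fun v => ?_, fun w => ?_⟩,
    fun x hx => ?_⟩
  · rw [← prod_fiberwise_of_maps_to fun v hv => ((hm v).1 hv).1]
    exact prod_le_prod (fun q _ => prod_nonneg fun v _ =>
      mul_nonneg zero_le_two (Real.log_natCast_nonneg _)) fun q hq => (hf q hq).2
  · rw [← exp_log (val_ne_zero (w := v) (div_ne_zero (pow_ne_zero 6 β0) r0')), key, ← exp_zero]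
    congr 1
    split_ifs with h
    · have : Q (bl v) = v := by by_contra h'; exact hv ((hm v).2 ⟨h, Ne.symm h'⟩)
      simp only [hk, this]
      rw [mul_assoc, Nat.div_mul_cancel (e2 v)]
      push_cast; ring
    · have : o v = 0 := by
        by_contra h'
        exact h (hnS (Nat.mem_primeFactors.2 ⟨bl1 v, (dvd_pow_self _ h').trans (o3 v), by simpa using n0⟩))
      simp [this]
  · have h1 : ((if bl v ∈ S then k (bl v) * e v else 0 : ℕ) : ℝ) ≤ o (Q (bl v)) * 6 * 3 := by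
      split_ifs
      · exact_mod_cast Nat.mul_le_mul (k1 _) (e3 v)
      · rw [Nat.cast_zero]; positivity
    rw [key, Int.cast_sub, Int.cast_natCast]
    have h2 := (if bl v ∈ S then k (bl v) * e v else 0 : ℕ).cast_nonneg (α := ℝ)
    push_cast [-Nat.cast_ite]
    exact abs_le.2 ⟨by linarith [o4 v], by linarith [o4 (Q (bl v)), (o v).cast_nonneg (α := ℝ)]⟩
  · have h1 : (1 : ℝ) ≤ r := by exact_mod_cast Nat.pos_of_ne_zero r0
    have h2 : (r : ℝ) ≤ Real.exp (3 * L) ^ 6 := le_trans (by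
      exact_mod_cast Nat.le_of_dvd (pow_pos (Int.natAbs_pos.2 n0) 6) r1) (pow_le_pow_left₀ (by positivity) a1 6)
    have h3 := Real.log_le_log (by linarith) h2
    have h4 := Real.log_nonneg h1
    obtain ⟨h5, h6⟩ := abs_le.1 (a2 w)
    rw [Real.log_pow, Real.log_exp] at h3
    rw [map_div₀, map_pow, Rat.cast_natCast, InfinitePlace.map_natCast,
      Real.log_div (pow_ne_zero _ (w.pos_iff.2 β0).ne') (by linarith), Real.log_pow]
    push_cast at h3 ⊢
    exact abs_le.2 ⟨by linarith, by linarith⟩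
  · have x0 : x ≠ 0 := by simpa using hx.1
    have h1 : x.num.natAbs = x.den :=
      (Nat.eq_iff_prime_padicValNat_eq _ _ (by simpa using x0) x.den_nz).2 fun q hq => by
        have := (val_rat_eq_one_iff hq (Q1 q hq) x0).1 (hx.2 _ fun h => ((hm _).1 h).2 (by rw [hQ q hq]))
        rw [padicValRat_def, padicValInt] at this
        omega
    have h2 := x.reduced
    rw [h1, Nat.coprime_self] at h2
    rw [← Rat.coe_int_num_of_den_eq_one h2]
    rcases Int.natAbs_eq_iff.1 (h1.trans h2) with h | h <;> simp [h]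

end Pool.Agent.Szpiro98
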