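import Pool.Agent.Lib.Szpiro98.Blue3
import Pool.Agent.Lib.Szpiro98.Sun

/-! Block SUN3: a quotient of two integers is an `S`-unit of controlled size. -/

namespace Pool.Agent.Szpiro98.V3

open Finset Module NumberField IsDedekindDomain WithZero Pool.Agent.Lib.helper22.Val SUN

lemma sun_int {K : Type} [Field K] [NumberField K] (hK : finrank ℚ K ≤ 3) (v : HOS K) {p : ℕ}
    (hp : p.Prime) (hv : (p : 𝓞 K) ∈ v.asIdeal) {u : ℤ} (hu : u ≠ 0) {L : ℝ}
    (h : |(u : ℝ)| ≤ Real.exp L) :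
    ∃ k : ℕ, log (v.valuation K u) = -k ∧ (k : ℝ) ≤ 6 * L ∧ (¬p ∣ u.natAbs → k = 0) := by
  obtain ⟨e, e1, -, e3⟩ := ram hK hp hv
  have h0 : u.natAbs ≠ 0 := by simpa using hu
  have h1 := log_val_rat hp hv (q := u) (by exact_mod_cast hu)
  rw [Rat.cast_intCast, e1, padicValRat.of_int, padicValInt] at h1
  refine ⟨padicValNat p u.natAbs * e, by rw [h1]; push_cast; ring, ?_, fun hd => by
    rw [padicValNat.eq_zero_of_not_dvd hd, zero_mul]⟩
  have h2 : 2 ^ padicValNat p u.natAbs ≤ u.natAbs := (Nat.pow_le_pow_left hp.two_le _).trans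
    (Nat.le_of_dvd (Nat.pos_of_ne_zero h0) pow_padicValNat_dvd)
  have h3 : ((u.natAbs : ℕ) : ℝ) ≤ Real.exp L := by
    rw [Nat.cast_natAbs, Int.cast_abs]; exact h
  have h4 := Real.log_le_log (x := 2 ^ padicValNat p u.natAbs) (by positivity)
    (le_trans (by exact_mod_cast h2) h3)
  rw [Real.log_pow, Real.log_exp] at h4
  have h5 : (e : ℝ) ≤ 3 := by exact_mod_cast e3
  have h6 := (padicValNat p u.natAbs).cast_nonneg (α := ℝ)
  push_cast
  nlinarith [Real.log_two_gt_d9]

theorem sun : SunStmt := by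
  classical
  intro K _ _ hK u w S L hu hw hS hnS hL h1 h2
  choose bl bl1 bl2 using fun v : HOS K => exists_prime_mem v
  have fin : {v : HOS K | bl v ∈ S}.Finite :=
    (S.finite_toSet.biUnion fun q hq => finite_val_ne_one (L := K) (a := q)
      (Nat.cast_ne_zero.2 (hS q hq).ne_zero)).subset fun v hv =>
      Set.mem_biUnion hv ((val_natCast_lt_iff v _).2 (bl2 v)).ne
  have hm : ∀ v, v ∈ fin.toFinset ↔ bl v ∈ S := fun v => fin.mem_toFinset
  have hf := fun q hq => fib hK (hS q hq) (U := fin.toFinset.filter fun v => bl v = q)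
    fun v hv => (mem_filter.1 hv).2 ▸ bl2 v
  have u0 : (u : K) ≠ 0 := Int.cast_ne_zero.2 hu
  have w0 : (w : K) ≠ 0 := Int.cast_ne_zero.2 hw
  choose a a1 a2 a3 using fun v : HOS K => sun_int hK v (bl1 v) (bl2 v) hu h1
  choose b b1 b2 b3 using fun v : HOS K => sun_int hK v (bl1 v) (bl2 v) hw h2
  have key : ∀ v : HOS K, log (v.valuation K ((u : K) / w)) = (b v : ℤ) - a v := fun v => by
    rw [map_div₀, log_div (val_ne_zero u0) (val_ne_zero w0), a1, b1]; ring
  refine ⟨fin.toFinset, card_le_mul_card_image_of_maps_to (fun v hv => (hm v).1 hv) 3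
    fun q hq => (hf q hq).1, ?_, ⟨div_ne_zero u0 w0, fun v hv => ?_⟩, fun v => ?_, fun v => ?_⟩
  · rw [← prod_fiberwise_of_maps_to fun v hv => (hm v).1 hv]
    exact prod_le_prod (fun q _ => prod_nonneg fun v _ =>
      mul_nonneg zero_le_two (Real.log_natCast_nonneg _)) fun q hq => (hf q hq).2
  · have hn : ¬bl v ∣ (u * w).natAbs := fun h => hv ((hm v).2 (hnS
      (Nat.mem_primeFactors.2 ⟨bl1 v, h, by simp [hu, hw]⟩)))
    rw [Int.natAbs_mul] at hn
    rw [← exp_log (val_ne_zero (w := v) (div_ne_zero u0 w0)), key,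
      a3 v fun h => hn (h.mul_right _), b3 v fun h => hn (h.mul_left _)]
    simp
  · rw [key]
    push_cast
    exact abs_le.2 ⟨by linarith [a2 v, (b v).cast_nonneg (α := ℝ)],
      by linarith [b2 v, (a v).cast_nonneg (α := ℝ)]⟩
  · have hl : ∀ n : ℤ, n ≠ 0 → |(n : ℝ)| ≤ Real.exp L →
        0 < v n ∧ 0 ≤ Real.log (v n) ∧ Real.log (v n) ≤ L := fun n hn h => by
      have e : v n = |(n : ℝ)| := by
        rw [← v.norm_embedding_eq, map_intCast, Complex.norm_intCast]
      have h3 : (1 : ℝ) ≤ |(n : ℝ)| := by exact_mod_cast Int.one_le_abs hn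
      rw [e]
      exact ⟨by linarith, Real.log_nonneg h3,
        (Real.log_le_log (by linarith) h).trans (Real.log_exp L).le⟩
    obtain ⟨c1, c2, c3⟩ := hl u hu h1
    obtain ⟨d1, d2, d3⟩ := hl w hw h2
    rw [map_div₀, Real.log_div c1.ne' d1.ne']
    exact abs_le.2 ⟨by linarith, by linarith⟩

end Pool.Agent.Szpiro98.V3
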