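import Pool.Agent.Lib.Szpiro98.Coord3
import Pool.Agent.Lib.Szpiro98.Mid3
import Pool.Agent.Lib.Szpiro98.Ref3
import Pool.Agent.Lib.Szpiro98.Sun3
import Pool.Agent.Lib.Szpiro98.LocQ
import Pool.Agent.Lib.Szpiro98.Quad3
import Pool.Agent.Lib.Szpiro98.Red3
import Pool.Agent.Lib.Szpiro98.Glue3x

namespace Pool.Agent.Szpiro98.V3

open Pool.Agent.Lib.MP_cafdd5_nt

theorem locq' : LocQStmt := locq sun (mid coord) refp refi

theorem main (ε : ℝ) (hε : 0 < ε) : ∃ C : ℝ, ∀ a b : ℤ, disc a b ≠ 0 → IsMinimalShort a b →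
    (∃ x : ℚ, x ^ 3 - a * x - b = 0) →
    Real.log (max (|(a : ℝ)| ^ 3) ((b : ℝ) ^ 2)) ≤ C * (Szpiro98.cond a b : ℝ) ^ (1 / 2 + ε) :=
  fin locq' quad red glue' ε hε

end Pool.Agent.Szpiro98.V3
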