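import Pool.Agent.Lib.Szpiro98.Blue4
import Pool.Agent.Lib.Szpiro98.Main3

/-! Fifth round: the saving for rational `S`-units, curves with rational 2-torsion. -/

namespace Pool.Agent.Szpiro98.V5

open Finset Module NumberField IsDedekindDomain NormedSpace Pool.Agent.Lib.MP_cafdd5_nt V4

def QsupStmt : Prop :=
  ∀ S : Finset ℕ, (∀ q ∈ S, q.Prime) →
    Sup ⊥ {x | ∃ k : ℕ → ℤ, x = ∏ q ∈ S, (q : Qb) ^ k q} S.card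
      ((S.card : ℝ) ^ S.card * ∏ q ∈ S, Real.log q) 0

def LocQT (C δ : ℝ) : Prop :=
  ∀ (u w : ℤ) (S : Finset ℕ) (𝓛 : ℝ), u ≠ 0 → w ≠ 0 → u ≠ w → (∀ q ∈ S, q.Prime) →
    (u * w).natAbs.primeFactors ⊆ S → 3 ≤ 𝓛 → |(u : ℝ)| ≤ Real.exp 𝓛 → |(w : ℝ)| ≤ Real.exp 𝓛 →
    ∀ (p : ℕ) [Fact p.Prime], sv C δ S 1 p ≤ 1 → Szpiro98.bnd C S 1 (p * sv C δ S 1 p) 𝓛 < 𝓛 →
      Real.exp (-Szpiro98.bnd C S 1 (p * sv C δ S 1 p) 𝓛) * ‖(w : ℚ_[p])‖ ≤ ‖(u : ℚ_[p]) - w‖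

def LocQTStmt : Prop := ∃ δ C₀ : ℝ, 0 < δ ∧ δ ≤ 1 ∧ ∀ C, C₀ ≤ C → LocQT C δ

def LocQ (bd : Bd) : Prop :=
  ∀ (u w : ℤ) (S : Finset ℕ) (𝓛 : ℝ), u ≠ 0 → w ≠ 0 → u ≠ w → (∀ q ∈ S, q.Prime) →
    (u * w).natAbs.primeFactors ⊆ S → 3 ≤ 𝓛 → |(u : ℝ)| ≤ Real.exp 𝓛 → |(w : ℝ)| ≤ Real.exp 𝓛 →
    (bd S 1 1 𝓛 < 𝓛 → Real.exp (-bd S 1 1 𝓛) * |(w : ℝ)| ≤ |(u : ℝ) - w|) ∧
    ∀ (p : ℕ) [Fact p.Prime], bd S 1 p 𝓛 < 𝓛 →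
      Real.exp (-bd S 1 p 𝓛) * ‖(w : ℚ_[p])‖ ≤ ‖(u : ℚ_[p]) - w‖

def SvStmt : Prop :=
  ∀ ε : ℝ, 0 < ε → ∃ K : ℝ, 1 ≤ K ∧ ∀ (S T : Finset ℕ) (x : ℝ), (∀ q ∈ S, q.Prime) → T.card ≤ 5 → 1 ≤ x →
    ((S.card + 1) * (1 + Real.log x)) ^ (5 * (S.card + 1)) ≤ K * ((∏ q ∈ S \ T, q : ℕ) : ℝ) ^ 35 * x ^ ε

/-! ### Coprime integers -/

def Abc (η K : ℝ) : Prop :=
  ∀ A B : ℤ, A ≠ 0 → B ≠ 0 → A + B ≠ 0 → IsCoprime A B → Real.log (max |(A : ℝ)| |(B : ℝ)|) ≤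
    K * ((∏ q ∈ (A * B * (A + B)).natAbs.primeFactors, q : ℕ) : ℝ) ^ (1 / 3 - η)

def AbcNumStmt : Prop :=
  ∀ C δ : ℝ, 10 ≤ C → 0 < δ → δ ≤ 1 → ∃ η K : ℝ, 0 < η ∧ η ≤ 1 / 6 ∧ 1 ≤ K ∧
    ∀ (S : Finset ℕ) (x y z : ℕ) (𝓛 : ℝ), (∀ q ∈ S, q.Prime) → (x = 1 ∨ x ∈ S) → (y = 1 ∨ y ∈ S) →
      (z = 1 ∨ z ∈ S) → x * y * z ∣ ∏ q ∈ S, q → 3 ≤ 𝓛 →
      min (V4.bnd C δ S 1 x 𝓛) (min (V4.bnd C δ S 1 y 𝓛) (V4.bnd C δ S 1 z 𝓛)) ≤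
        K * ((∏ q ∈ S, q : ℕ) : ℝ) ^ (1 / 3 - η) * Real.log 𝓛 ^ 3

def AbcStmt : Prop :=
  ∀ C δ : ℝ, 10 ≤ C → 0 < δ → δ ≤ 1 → LocQ (V4.bnd C δ) → ∃ η K : ℝ, 0 < η ∧ η ≤ 1 / 6 ∧ Abc η K

def FullStmt : Prop :=
  ∀ η K : ℝ, 0 < η → η ≤ 1 / 6 → Abc η K → ∃ K' : ℝ, ∀ a b e f : ℤ, disc a b ≠ 0 → MinP a b → e ≠ f →
    e ^ 3 - a * e - b = 0 → f ^ 3 - a * f - b = 0 → LL a b ≤ K' * (cond a b : ℝ) ^ (1 / 3 - η)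

/-! ### One rational 2-torsion point -/

/-- `d` is, up to powers of 2, a divisor of the squarefree kernel of `c`. -/
def Ker (d c : ℤ) : Prop :=
  ∀ p : ℕ, p.Prime → padicValInt p d ≤ 3 ∧ (p ≠ 2 → padicValInt p d ≤ padicValInt p c % 2)

def Quad3 (bd : Bd) : Prop :=
  ∀ (A B c : ℤ) (S : Finset ℕ) (𝓛 : ℝ), c = A ^ 2 - 4 * B → c ≠ 0 → B ≠ 0 →
    (∀ p : ℕ, p.Prime → ¬((p : ℤ) ^ 4 ∣ A ∧ (p : ℤ) ^ 8 ∣ B)) → (∀ q ∈ S, q.Prime) → B.natAbs.primeFactors ⊆ S →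
    3 ≤ 𝓛 → |(A : ℝ)| + √|(c : ℝ)| ≤ Real.exp 𝓛 →
    ∃ d : ℤ, d ≠ 0 ∧ Ker d c ∧
      (bd S |d| 1 𝓛 < 𝓛 → Real.log (max ((A : ℝ) ^ 2) |(B : ℝ)|) ≤ Real.log |(c : ℝ)| + 2 * bd S |d| 1 𝓛 + 2) ∧
      ∀ p : ℕ, p.Prime → bd S |d| (kap p (padicValInt p c)) 𝓛 < 𝓛 →
        padicValInt p c * Real.log p ≤ 8 * Real.log p + 2 * bd S |d| (kap p (padicValInt p c)) 𝓛

def Quad3Stmt : Prop := ∀ bd : Bd, V4.Quad bd → LocQ bd → Quad3 bd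

def Loc2 (bd : Bd) (a b d c : ℤ) : Prop :=
  d ≠ 0 ∧ c ≠ 0 ∧ Ker d c ∧ c.natAbs.primeFactors ⊆ SS a b ∧
    (bd (SS a b) |d| 1 (LL a b) < LL a b →
      LL a b ≤ 6 * Real.log |(c : ℝ)| + 12 * bd (SS a b) |d| 1 (LL a b) + 100) ∧
    ∀ p : ℕ, p.Prime → bd (SS a b) |d| (kap p (padicValInt p c)) (LL a b) < LL a b →
      padicValInt p c * Real.log p ≤ 30 * Real.log p + 2 * bd (SS a b) |d| (kap p (padicValInt p c)) (LL a b)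

def RedStmt : Prop :=
  ∀ bd : Bd, (∀ S D 𝓛, 1 ≤ 𝓛 → 0 ≤ bd S D 1 𝓛) → Quad3 bd → ∀ a b e : ℤ, disc a b ≠ 0 → MinP a b →
    e ^ 3 - a * e - b = 0 →
    ∃ d1 d2 : ℤ, Loc2 bd a b d1 (4 * a - 3 * e ^ 2) ∧ Loc2 bd a b d2 (16 * (3 * e ^ 2 - a))

def TwoNumStmt : Prop :=
  ∀ C δ : ℝ, 10 ≤ C → 0 < δ → δ ≤ 1 → ∃ η K : ℝ, 0 < η ∧ η ≤ 1 / 4 ∧ 1 ≤ K ∧
    ∀ (a b e d1 d2 : ℤ) (x y : ℕ) (𝓛 : ℝ), disc a b ≠ 0 → e ^ 3 - a * e - b = 0 → d1 ≠ 0 → d2 ≠ 0 →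
      Ker d1 (4 * a - 3 * e ^ 2) → Ker d2 (16 * (3 * e ^ 2 - a)) →
      (x = 1 ∨ x.Prime ∧ (x : ℤ) ∣ 4 * a - 3 * e ^ 2 ∧ Even (padicValInt x (4 * a - 3 * e ^ 2))) →
      (y = 1 ∨ y.Prime ∧ (y : ℤ) ∣ 16 * (3 * e ^ 2 - a) ∧ Even (padicValInt y (16 * (3 * e ^ 2 - a)))) → 3 ≤ 𝓛 →
      min (V4.bnd C δ (SS a b) |d1| x 𝓛) (V4.bnd C δ (SS a b) |d2| y 𝓛) ≤
        K * (cond a b : ℝ) ^ (1 / 2 - η) * Real.log 𝓛 ^ 3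

def TwoStmt : Prop :=
  ∀ C δ : ℝ, 10 ≤ C → 0 < δ → δ ≤ 1 → ∃ η K : ℝ, 0 < η ∧ ∀ a b e d1 d2 : ℤ, disc a b ≠ 0 →
    e ^ 3 - a * e - b = 0 → Loc2 (V4.bnd C δ) a b d1 (4 * a - 3 * e ^ 2) →
    Loc2 (V4.bnd C δ) a b d2 (16 * (3 * e ^ 2 - a)) → LL a b ≤ K * (cond a b : ℝ) ^ (1 / 2 - η)

lemma sv_nonneg {C : ℝ} (hC : 0 ≤ C) (δ : ℝ) (S : Finset ℕ) (D : ℝ) {κ : ℝ} (h : 1 ≤ κ) : 0 ≤ sv C δ S D κ := by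
  have := Real.log_nonneg h
  rw [sv]
  positivity

lemma sv_mono {C δ δ' : ℝ} (hC : 0 ≤ C) (e : δ' ≤ δ) (S : Finset ℕ) (D : ℝ) {κ : ℝ} (h : 1 ≤ κ) :
    sv C δ S D κ ≤ sv C δ' S D κ := by
  have := Real.log_nonneg h
  rw [sv, sv]
  exact div_le_div_of_nonneg_left (by positivity) (by positivity) (Real.rpow_le_rpow_of_exponent_le h e)

lemma bnd_mono {C κ κ' 𝓛 : ℝ} (hC : 0 ≤ C) (S : Finset ℕ) (D : ℝ) (e : κ ≤ κ') (h : 1 ≤ 𝓛) :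
    Szpiro98.bnd C S D κ 𝓛 ≤ Szpiro98.bnd C S D κ' 𝓛 := by
  have := Real.log_nonneg h
  have : 0 ≤ ∏ q ∈ S, C * Real.log q ^ 3 :=
    prod_nonneg fun q _ => mul_nonneg hC (pow_nonneg (Real.log_natCast_nonneg q) 3)
  rw [Szpiro98.bnd, Szpiro98.bnd]
  gcongr

lemma locT_mono {C δ δ' : ℝ} (hC : 0 ≤ C) (e : δ' ≤ δ) (h : V4.LocT C δ) : V4.LocT C δ' := by
  intro p _ ι K _ _ K1 K3 σ τ r hR β n S 𝓛 ne hn hS hnS h3 hH h1 h2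
  have p1 : (1 : ℝ) ≤ p := by exact_mod_cast (Fact.out : p.Prime).one_le
  have a := sv_mono hC e S (dk K) p1
  have b := bnd_mono hC S (dk K) (mul_le_mul_of_nonneg_left a (by linarith : (0 : ℝ) ≤ p)) (by linarith : 1 ≤ 𝓛)
  exact (mul_le_mul_of_nonneg_right (Real.exp_le_exp.2 (by linarith)) (norm_nonneg _)).trans
    (h p ι K K1 K3 σ τ r hR β n S 𝓛 ne hn hS hnS h3 hH (a.trans h1) (b.trans_lt h2))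

lemma locQT_mono {C δ δ' : ℝ} (hC : 0 ≤ C) (e : δ' ≤ δ) (h : LocQT C δ) : LocQT C δ' := by
  intro u w S 𝓛 u0 w0 ne hS hnS h3 hu hw p _ h1 h2
  have p1 : (1 : ℝ) ≤ p := by exact_mod_cast (Fact.out : p.Prime).one_le
  have a := sv_mono hC e S 1 p1
  have b := bnd_mono hC S 1 (mul_le_mul_of_nonneg_left a (by linarith : (0 : ℝ) ≤ p)) (by linarith : 1 ≤ 𝓛)
  exact (mul_le_mul_of_nonneg_right (Real.exp_le_exp.2 (by linarith)) (norm_nonneg _)).trans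
    (h u w S 𝓛 u0 w0 ne hS hnS h3 hu hw p (a.trans h1) (b.trans_lt h2))

lemma combQ {C δ : ℝ} (hC : 1 ≤ C) (lq : V3.LocQ C) (lt : LocQT C δ) : LocQ (V4.bnd C δ) := by
  intro u w S 𝓛 u0 w0 ne hS hnS h3 hu hw
  obtain ⟨a, b⟩ := lq u w S 𝓛 u0 w0 ne hS hnS h3 hu hw
  refine ⟨by rwa [bnd_one hC δ S le_rfl], fun p _ => ?_⟩
  simp only [V4.bnd]
  rcases le_total 1 (sv C δ S 1 p) with h | h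
  · rw [min_eq_left h, mul_one]
    exact b p
  · rw [min_eq_right h]
    exact lt u w S 𝓛 u0 w0 ne hS hnS h3 hu hw p h

lemma int_root {a b : ℤ} {x : ℚ} (h : x ^ 3 - a * x - b = 0) : ∃ e : ℤ, x = e ∧ e ^ 3 - a * e - b = 0 := by
  obtain ⟨e, rfl⟩ := IsIntegrallyClosed.isIntegral_iff.1 (IRR.integral h)
  simp only [eq_intCast] at h ⊢
  exact ⟨e, rfl, by exact_mod_cast h⟩

theorem fin_abc (lt : LocQTStmt) (abc : AbcStmt) : ∃ η K : ℝ, 0 < η ∧ η ≤ 1 / 6 ∧ Abc η K := by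
  obtain ⟨C1, h1⟩ := V3.locq'
  obtain ⟨δ, C2, δ0, δ1, h2⟩ := lt
  have c0 : 10 ≤ max 10 (max C1 C2) := le_max_left _ _
  exact abc _ δ c0 δ0 δ1 (combQ (by linarith) (h1 _ ((le_max_left _ _).trans (le_max_right _ _)))
    (h2 _ ((le_max_right _ _).trans (le_max_right _ _))))

theorem fin_full (lt : LocQTStmt) (abc : AbcStmt) (full : FullStmt) :
    ∃ η C : ℝ, 0 < η ∧ ∀ a b : ℤ, disc a b ≠ 0 → IsMinimalShort a b →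
      (∃ x y : ℚ, x ≠ y ∧ x ^ 3 - a * x - b = 0 ∧ y ^ 3 - a * y - b = 0) →
      Real.log (max (|(a : ℝ)| ^ 3) ((b : ℝ) ^ 2)) ≤ C * (cond a b : ℝ) ^ (1 / 3 - η) := by
  obtain ⟨η, K, η0, η1, h⟩ := fin_abc lt abc
  obtain ⟨K', g⟩ := full η K η0 η1 h
  refine ⟨η, K', η0, fun a b hD hm ⟨x, y, ne, hx, hy⟩ => ?_⟩
  obtain ⟨e, rfl, he⟩ := int_root hx
  obtain ⟨f, rfl, hf⟩ := int_root hy
  have := g a b e f hD (minP hD hm) (fun h => ne (by rw [h])) he hf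
  unfold LL at this
  linarith

theorem fin_two (lt : V4.LocTStmt) (lq : LocQTStmt) (q4 : V4.QuadStmt) (q5 : Quad3Stmt) (red : RedStmt)
    (two : TwoStmt) : ∃ η C : ℝ, 0 < η ∧ ∀ a b : ℤ, disc a b ≠ 0 → IsMinimalShort a b →
      (∃ x : ℚ, x ^ 3 - a * x - b = 0) →
      Real.log (max (|(a : ℝ)| ^ 3) ((b : ℝ) ^ 2)) ≤ C * (cond a b : ℝ) ^ (1 / 2 - η) := by
  obtain ⟨C1, h1⟩ := locp'
  obtain ⟨C2, h2⟩ := loci'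
  obtain ⟨C3, h3⟩ := V3.locq'
  obtain ⟨δ1, C4, a0, a1, h4⟩ := lt
  obtain ⟨δ2, C5, b0, -, h5⟩ := lq
  obtain ⟨C, c0, c1, c2, c3, c4, c5⟩ : ∃ C : ℝ, 10 ≤ C ∧ C1 ≤ C ∧ C2 ≤ C ∧ C3 ≤ C ∧ C4 ≤ C ∧ C5 ≤ C :=
    ⟨max (max (max 10 C1) (max C2 C3)) (max C4 C5), by simp⟩
  obtain ⟨p1, p2⟩ := comb (by linarith) (h1 C c1) (h2 C c2)
    (locT_mono (by linarith) (min_le_left δ1 δ2) (h4 C c4))
  have p3 := combQ (by linarith) (h3 C c3) (locQT_mono (by linarith) (min_le_right δ1 δ2) (h5 C c5))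
  obtain ⟨η, K, η0, g⟩ := two C _ c0 (lt_min a0 b0) ((min_le_left _ _).trans a1)
  refine ⟨η, K, η0, fun a b hD hm ⟨x, hx⟩ => ?_⟩
  obtain ⟨e, rfl, he⟩ := int_root hx
  obtain ⟨d1, d2, l1, l2⟩ := red _ (fun S D 𝓛 h => bnd_one_nonneg (by linarith) _ S D h)
    (q5 _ (q4 _ p1 p2) p3) a b e hD (minP hD hm) he
  have := g a b e d1 d2 hD he l1 l2
  unfold LL at this
  linarith

end Pool.Agent.Szpiro98.V5
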