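import Pool.Agent.Lib.Szpiro98.Main2

/-! Fourth round: auxiliary units from fields of large degree and bounded root discriminant. -/

namespace Pool.Agent.Szpiro98.V4

open Finset Module NumberField IsDedekindDomain NormedSpace Pool.Agent.Lib.MP_cafdd5_nt

instance numberField (L : IntermediateField ℚ Qb) [FiniteDimensional ℚ L] : NumberField L := {}

def CoreStmt : Prop :=
  ∀ (F : Type) [NormedField F] [CharZero F] (q R N D h : ℕ) (W : ℝ → ℝ) (Dom : AddSubgroup F), q.Prime → q ≤ 3 →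
    An F q (om N) W Dom → ∀ ι : Qb →+* F, (∀ θ M, 1 ≤ M → Hs θ M → ‖ι θ‖ ≤ M) →
    ∀ (L : IntermediateField ℚ Qb) [FiniteDimensional ℚ L], finrank ℚ L ≤ D → 1 ≤ h → D * h ≤ N →
    (∀ ζ : Qb, ζ ^ q = 1 → ζ ∈ L) →
    ∀ (m : ℕ) (κ : Type) (I : Finset κ) (μ : κ → Fin (m + 1) → ℤ) (b : Fin (m + 1) → ℤ) (c : Fin (m + 1) → F)
      (z : κ → Qb) (X : ℝ) (J A0 : ℕ), m + 1 ≤ R → b ≠ 0 → (∀ k, |(b k : ℝ)| ≤ X) →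
      (∀ i ∈ I, ∀ k, |(μ i k : ℝ)| ≤ X) → 3 * R * Real.log (2 * X ^ 2) ≤ A0 → D ≤ A0 →
      (∀ i ∈ I, z i ∈ L ∧ z i ≠ 0 ∧ Hs (z i) (Real.exp (h * q ^ J))) →
      Set.InjOn (fun i => ∑ k, c k * μ i k) I →
      (∀ i ∈ I, ∀ j ∈ I, ι (z i) = ι (z j) * exp (∑ k, c k * μ i k - ∑ k, c k * μ j k) ∧
        ‖∑ k, c k * μ i k - ∑ k, c k * μ j k‖ ≤ W (N * q ^ J)) →
      4 * D * A0 * Real.exp (6 * R) * (2 * q ^ J) ^ m ≤ I.card →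
      Real.exp (-V2.cb R N A0 q J) ≤ ‖∑ k, c k * b k‖

/-- Any `n + 1` elements of `G` are multiplicatively dependent. -/
def MR (G : Set Qb) (n : ℕ) : Prop :=
  ∀ x : Fin (n + 1) → Qb, (∀ k, x k ∈ G) → ∃ a : Fin (n + 1) → ℤ, a ≠ 0 ∧ ∏ k, x k ^ a k = 1

/-- The vector of logarithms. -/
noncomputable def lv {L : Type} [Field L] [NumberField L] (x : L) : (HOS L → ℝ) × (InfinitePlace L → ℝ) :=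
  (fun v => ((WithZero.log (v.valuation L x) : ℤ) : ℝ), fun w => Real.log (w x))

/-- The vectors of logarithms of `G` lie in a space of dimension at most `n`. -/
def RK (L : IntermediateField ℚ Qb) [FiniteDimensional ℚ L] (G : Set Qb) (n : ℕ) : Prop :=
  ∃ V : Submodule ℝ ((HOS L → ℝ) × (InfinitePlace L → ℝ)), FiniteDimensional ℝ V ∧ finrank ℝ V ≤ n ∧
    ∀ x : L, (x : Qb) ∈ G → lv x ∈ V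

def RankStmt : Prop :=
  ∀ (L : IntermediateField ℚ Qb) [FiniteDimensional ℚ L] (G : Set Qb) (n : ℕ), MR G n → RK L G n

def LvStmt : Prop :=
  ∀ (L : IntermediateField ℚ Qb) [FiniteDimensional ℚ L] (D : ℕ), finrank ℚ L ≤ D → ∀ (a b : L) (B : ℝ), 0 ≤ B →
    a ≠ 0 → b ≠ 0 → Hs (a : Qb) (Real.exp B) → Hs (b : Qb) (Real.exp B) → Sz (a / b) (2 * D * B)

def OvlStmt : Prop :=
  ∀ (L : IntermediateField ℚ Qb) [FiniteDimensional ℚ L] (D : ℕ), finrank ℚ L ≤ D →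
    ∀ (G1 G2 : Set Qb) (r1 r2 : ℕ), (∀ x ∈ G1, x ∈ L ∧ x ≠ 0) → (∀ x ∈ G2, x ∈ L ∧ x ≠ 0) →
    RK L G1 r1 → RK L G2 r2 → ∃ n o : ℕ, n + o ≤ r1 + r2 ∧ o ≤ r1 ∧
      RK L {x | ∃ a ∈ G1, ∃ b ∈ G2, x = a * b} n ∧ ∀ (B : ℝ) (T : Finset (Qb × Qb)) (I : Finset Qb), 1 ≤ B →
        (∀ z ∈ T, z.1 ∈ L ∧ z.1 ≠ 0 ∧ Hs z.1 (Real.exp B) ∧ z.2 ≠ 0 ∧ z.1 * z.2 ∈ I) →
        (∀ z ∈ T, ∀ z' ∈ T, z.1 / z'.1 ∈ G1 ∧ z.2 / z'.2 ∈ G2) →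
        (T.card : ℝ) ≤ I.card * (5 ^ D * (20 * D * B) ^ o)

def CoordStmt : Prop :=
  ∀ (p : ℕ) [Fact p.Prime] (ι : Qb →+* ℂ_[p]) (R N D h : ℕ) (L : IntermediateField ℚ Qb) [FiniteDimensional ℚ L],
    p ≠ 2 → finrank ℚ L ≤ D → 1 ≤ h → D * h ≤ N → ∀ (G : Set Qb) (n : ℕ), n ≤ R → RK L G n →
    ∀ (I : Finset Qb) (t : Qb → ℂ_[p]) (J A0 : ℕ) (B : ℝ) (a b : Qb) (tb : ℂ_[p]), h * 2 ^ J ≤ B →
    (∀ z ∈ I, z ∈ L ∧ z ≠ 0 ∧ Hs z (Real.exp (h * 2 ^ J)) ∧ ‖t z‖ ≤ om N) →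
    (∀ z ∈ I, ∀ z' ∈ I, z / z' ∈ G ∧ ι z = ι z' * exp (t z - t z')) →
    4 * D * A0 * Real.exp (6 * R) * (2 * 2 ^ J) ^ n ≤ I.card * (2 * 2 ^ J) →
    3 * R * Real.log (2 * (Real.exp (3 * R ^ 2) * (4 * D * B)) ^ 2) ≤ A0 → D ≤ A0 →
    a ∈ L → b ∈ L → a ≠ 0 → b ≠ 0 → Hs a (Real.exp B) → Hs b (Real.exp B) → a / b ∈ G →
    ι a = ι b * exp tb → ‖tb‖ ≤ om N → tb ≠ 0 → Real.exp (-V2.cb R N A0 2 J) ≤ ‖tb‖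

/-- `x` is the quotient of two units that are conjugate over `ℚ_p(ρ)`. -/
def CP {p : ℕ} [Fact p.Prime] (ρ x : ℂ_[p]) : Prop :=
  ∃ u v : ℚ_[p], ‖algebraMap ℚ_[p] ℂ_[p] u + algebraMap ℚ_[p] ℂ_[p] v * ρ‖ = 1 ∧
    ‖algebraMap ℚ_[p] ℂ_[p] u - algebraMap ℚ_[p] ℂ_[p] v * ρ‖ = 1 ∧
    x * (algebraMap ℚ_[p] ℂ_[p] u - algebraMap ℚ_[p] ℂ_[p] v * ρ) =
      algebraMap ℚ_[p] ℂ_[p] u + algebraMap ℚ_[p] ℂ_[p] v * ρ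

/-- A supply of many integers of `L` of small house with quotients in a set `G` of rank at most `r`. -/
def Sup (L : IntermediateField ℚ Qb) (G : Set Qb) (r : ℕ) (lam H0 : ℝ) : Prop :=
  (∀ x ∈ G, x ∈ L ∧ x ≠ 0) ∧ (1 : Qb) ∈ G ∧ MR G r ∧ ∀ H : ℝ, H0 ≤ H → ∃ Γ : Finset Qb,
    H ^ r ≤ Γ.card * lam ∧ (∀ z ∈ Γ, z ∈ L ∧ z ≠ 0 ∧ Hs z (Real.exp H)) ∧ ∀ z ∈ Γ, ∀ z' ∈ Γ, z / z' ∈ G

lemma Sup.mono {L L' : IntermediateField ℚ Qb} {G : Set Qb} {r : ℕ} {lam H0 H1 : ℝ} (h : Sup L G r lam H0)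
    (e : L ≤ L') (e' : H0 ≤ H1) : Sup L' G r lam H1 :=
  ⟨fun x hx => ⟨e (h.1 x hx).1, (h.1 x hx).2⟩, h.2.1, h.2.2.1, fun H hH => by
    obtain ⟨Γ, a, b, c⟩ := h.2.2.2 H (e'.trans hH)
    exact ⟨Γ, a, fun z hz => ⟨e (b z hz).1, (b z hz).2⟩, c⟩⟩

noncomputable def mb (C : ℝ) (p N D h r1 r2 : ℕ) (l1 l2 H 𝓛 : ℝ) : ℝ :=
  C ^ (r1 + r2 + D) * (p * l1 * l2 * D ^ r1 / h ^ r2 + H) * N * Real.log 𝓛 ^ 3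

def MidStmt : Prop :=
  ∃ C : ℝ, 1 ≤ C ∧ ∀ (p : ℕ) [Fact p.Prime] (ι : Qb →+* ℂ_[p]) (ρ : ℂ_[p]) (r : ℚ_[p]) (N D h : ℕ)
    (L : IntermediateField ℚ Qb) [FiniteDimensional ℚ L] (G1 G2 : Set Qb) (r1 r2 : ℕ) (l1 l2 H 𝓛 : ℝ)
    (a b : Qb) (tb : ℂ_[p]), r ≠ 0 → ρ ^ 2 = algebraMap ℚ_[p] ℂ_[p] r → p ≠ 2 → 4 ≤ p * om N ^ 2 →
    finrank ℚ L ≤ D → 1 ≤ h → D * h ≤ N → (∀ x ∈ G1, CP ρ (ι x)) → (∀ x ∈ G2, CP ρ (ι x)) →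
    Sup L G1 r1 l1 H → Sup L G2 r2 l2 H → 1 ≤ H → 3 ≤ 𝓛 → a ∈ L → b ∈ L → a ≠ 0 → b ≠ 0 →
    Hs a (Real.exp (6 * 𝓛)) → Hs b (Real.exp (6 * 𝓛)) → a / b ∈ G1 → ι a = ι b * exp tb → ‖tb‖ ≤ om N →
    tb ≠ 0 → mb C p N D h r1 r2 l1 l2 H 𝓛 < 𝓛 → Real.exp (-mb C p N D h r1 r2 l1 l2 H 𝓛) ≤ ‖tb‖

def KsupStmt : Prop :=
  ∀ (K : Type) [Field K] [NumberField K], (finrank ℚ K).Prime → finrank ℚ K ≤ 3 → ∀ σ τ : K →+* Qb, σ ≠ τ →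
    ∀ S : Finset (HOS K), (∀ x : ℚ, SU S (x : K) → x = 1 ∨ x = -1) →
    ∃ (L : IntermediateField ℚ Qb) (_ : FiniteDimensional ℚ L), finrank ℚ L ≤ 9 ∧ (∀ x, σ x ∈ L ∧ τ x ∈ L) ∧
      Sup L {x | ∃ γ, SU S γ ∧ x = σ γ / τ γ} (S.card + rk K)
        ((2 * S.card + 5) ^ (S.card + rk K) *
          ((∏ v ∈ S, wt v) * (9 * √(dk K)) * (1 + Real.log (9 * √(dk K))) ^ 4))
        ((2 * S.card + 5) * Real.log (9 * √(dk K)))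

def DscStmt : Prop :=
  ∀ (p : ℕ) [Fact p.Prime] (K : Type) [Field K] [NumberField K], finrank ℚ K ≤ 3 →
    ∀ (f g : K →+* ℂ_[p]) (r : ℚ_[p]), f ≠ g → Rho f g r → Rho f g (discr K : ℚ_[p])

/-- The auxiliary units. -/
def AuxStmt : Prop :=
  ∃ C : ℝ, 1 ≤ C ∧ ∀ (p : ℕ) [Fact p.Prime] (ι : Qb →+* ℂ_[p]) (k : ℕ) (d : ℤ) (ρ : ℂ_[p]), d ≠ 0 →
    ρ ^ 2 = d → (d : ℝ) ^ 2 * C ^ 2 ^ k < p →
    ∃ (L : IntermediateField ℚ Qb) (_ : FiniteDimensional ℚ L) (G : Set Qb) (r : ℕ),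
      finrank ℚ L ≤ 2 ^ (k + 2) ∧ 2 ^ k ≤ r ∧ r ≤ 2 ^ (k + 2) ∧ (∀ x ∈ G, CP ρ (ι x)) ∧
      Sup L G r ((d : ℝ) ^ 4 * C ^ 2 ^ k) (4 * Real.log p)

/-- The saving at a large prime. -/
noncomputable def sv (C δ : ℝ) (S : Finset ℕ) (D κ : ℝ) : ℝ :=
  C * D ^ 4 * ((S.card + 1) * (1 + Real.log κ)) ^ (5 * (S.card + 1)) / κ ^ δ

def LocT (C δ : ℝ) : Prop :=
  ∀ (p : ℕ) [Fact p.Prime] (ι : Qb →+* ℂ_[p]) (K : Type) [Field K] [NumberField K], (finrank ℚ K).Prime →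
    finrank ℚ K ≤ 3 → ∀ (σ τ : K →+* Qb) (r : ℚ_[p]), Rho (ι.comp σ) (ι.comp τ) r →
    ∀ (β : K) (n : ℤ) (S : Finset ℕ) (𝓛 : ℝ), σ β ≠ τ β → Algebra.norm ℚ β = n → (∀ q ∈ S, q.Prime) →
    n.natAbs.primeFactors ⊆ S → 3 ≤ 𝓛 → Hk β (Real.exp 𝓛) → sv C δ S (dk K) p ≤ 1 →
    Szpiro98.bnd C S (dk K) (p * sv C δ S (dk K) p) 𝓛 < 𝓛 →
    Real.exp (-Szpiro98.bnd C S (dk K) (p * sv C δ S (dk K) p) 𝓛) * ‖ι (τ β)‖ ≤ ‖ι (σ β) - ι (τ β)‖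

def LocTStmt : Prop := ∃ δ C₀ : ℝ, 0 < δ ∧ δ ≤ 1 ∧ ∀ C, C₀ ≤ C → LocT C δ

/-! ### Elliptic curves, for an arbitrary bound -/

abbrev Bd := Finset ℕ → ℝ → ℝ → ℝ → ℝ

def LocP (bd : Bd) : Prop :=
  ∀ (p : ℕ) [Fact p.Prime] (ι : Qb →+* ℂ_[p]) (K : Type) [Field K] [NumberField K], (finrank ℚ K).Prime →
    finrank ℚ K ≤ 3 → ∀ (σ τ : K →+* Qb) (r : ℚ_[p]), Rho (ι.comp σ) (ι.comp τ) r →
    ∀ (β : K) (n : ℤ) (S : Finset ℕ) (𝓛 : ℝ), σ β ≠ τ β → Algebra.norm ℚ β = n → (∀ q ∈ S, q.Prime) →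
    n.natAbs.primeFactors ⊆ S → 3 ≤ 𝓛 → Hk β (Real.exp 𝓛) → bd S (dk K) (kap p r.valuation) 𝓛 < 𝓛 →
    Real.exp (-bd S (dk K) (kap p r.valuation) 𝓛) * ‖ι (τ β)‖ ≤ ‖ι (σ β) - ι (τ β)‖

def LocI (bd : Bd) : Prop :=
  ∀ (ι : Qb →+* ℂ) (K : Type) [Field K] [NumberField K], (finrank ℚ K).Prime →
    finrank ℚ K ≤ 3 → ∀ (σ τ : K →+* Qb),
    ∀ (β : K) (n : ℤ) (S : Finset ℕ) (𝓛 : ℝ), σ β ≠ τ β → Algebra.norm ℚ β = n → (∀ q ∈ S, q.Prime) →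
    n.natAbs.primeFactors ⊆ S → 3 ≤ 𝓛 → Hk β (Real.exp 𝓛) → bd S (dk K) 1 𝓛 < 𝓛 →
    Real.exp (-bd S (dk K) 1 𝓛) * ‖ι (τ β)‖ ≤ ‖ι (σ β) - ι (τ β)‖

def Loc (bd : Bd) (a b : ℤ) : Prop :=
  ∃ d c : ℤ, d ≠ 0 ∧ c ≠ 0 ∧ DiscOK a b d c ∧ c.natAbs.primeFactors ⊆ SS a b ∧
    (bd (SS a b) |d| 1 (LL a b) < LL a b →
      LL a b ≤ 6 * Real.log |(c : ℝ)| + 12 * bd (SS a b) |d| 1 (LL a b) + 100) ∧
    ∀ p : ℕ, p.Prime → 30 < padicValInt p c →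
      bd (SS a b) |d| (kap p (padicValInt p c)) (LL a b) < LL a b →
      padicValInt p c * Real.log p ≤ 30 * Real.log p + 2 * bd (SS a b) |d| (kap p (padicValInt p c)) (LL a b)

def Quad (bd : Bd) : Prop :=
  ∀ (A B c : ℤ) (S : Finset ℕ) (𝓛 : ℝ), c = A ^ 2 - 4 * B → ¬IsSquare c → B ≠ 0 →
    (∀ p : ℕ, p.Prime → ¬((p : ℤ) ^ 4 ∣ A ∧ (p : ℤ) ^ 8 ∣ B)) → (∀ q ∈ S, q.Prime) → B.natAbs.primeFactors ⊆ S →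
    3 ≤ 𝓛 → |(A : ℝ)| + √|(c : ℝ)| ≤ Real.exp 𝓛 →
    ∃ d : ℤ, d ≠ 0 ∧ (∀ p : ℕ, p.Prime → padicValInt p d ≤ 3 ∧ (p ≠ 2 → padicValInt p d ≤ padicValInt p c % 2)) ∧
      (bd S |d| 1 𝓛 < 𝓛 → Real.log (max ((A : ℝ) ^ 2) |(B : ℝ)|) ≤ Real.log |(c : ℝ)| + 2 * bd S |d| 1 𝓛 + 2) ∧
      ∀ p : ℕ, p.Prime → bd S |d| (kap p (padicValInt p c)) 𝓛 < 𝓛 →
        padicValInt p c * Real.log p ≤ 8 * Real.log p + 2 * bd S |d| (kap p (padicValInt p c)) 𝓛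

def QuadStmt : Prop := ∀ bd : Bd, LocP bd → LocI bd → Quad bd

def EllStmt : Prop :=
  ∀ bd : Bd, (∀ S D 𝓛, 1 ≤ 𝓛 → 0 ≤ bd S D 1 𝓛) → LocP bd → LocI bd →
    ∀ a b : ℤ, disc a b ≠ 0 → MinP a b → Loc bd a b

noncomputable def bnd (C δ : ℝ) : Bd := fun S D κ 𝓛 => Szpiro98.bnd C S D (κ * min 1 (sv C δ S D κ)) 𝓛

def NumAStmt : Prop :=
  ∀ C δ : ℝ, 10 ≤ C → 0 < δ → δ ≤ 1 → ∃ η C' : ℝ, 0 < η ∧ η ≤ 1 / 4 ∧ 1 ≤ C' ∧ ∀ (a b d e : ℤ) (𝓛 : ℝ),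
    disc a b ≠ 0 → d ≠ 0 → e ≠ 0 → DiscOK a b d e → e.natAbs.primeFactors ⊆ SS a b → 3 ≤ 𝓛 →
    bnd C δ (SS a b) |d| 1 𝓛 ≤ C' * (cond a b : ℝ) ^ (1 - η) * Real.log 𝓛 ^ 3 ∧
    ∀ p : ℕ, p.Prime → 30 < padicValInt p e → bnd C δ (SS a b) |d| (kap p (padicValInt p e)) 𝓛 ≤
      C' * (cond a b : ℝ) ^ (1 - η) * Real.log 𝓛 ^ 3

def NumBStmt : Prop :=
  ∀ C δ : ℝ, 10 ≤ C → 0 < δ → δ ≤ 1 → ∃ η C' : ℝ, 0 < η ∧ ∀ a b : ℤ, disc a b ≠ 0 → Loc (bnd C δ) a b →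
    LL a b ≤ C' * (cond a b : ℝ) ^ (1 - η)

lemma sv_one {C : ℝ} (hC : 1 ≤ C) (δ : ℝ) (S : Finset ℕ) {D : ℝ} (hD : 1 ≤ D) : 1 ≤ sv C δ S D 1 := by
  have : (1 : ℝ) ≤ S.card + 1 := le_add_of_nonneg_left (Nat.cast_nonneg _)
  rw [sv, Real.one_rpow, Real.log_one, div_one, add_zero, mul_one]
  exact one_le_mul_of_one_le_of_one_le (one_le_mul_of_one_le_of_one_le hC (one_le_pow₀ hD)) (one_le_pow₀ this)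

lemma bnd_one {C : ℝ} (hC : 1 ≤ C) (δ : ℝ) (S : Finset ℕ) {D : ℝ} (hD : 1 ≤ D) (𝓛 : ℝ) :
    bnd C δ S D 1 𝓛 = Szpiro98.bnd C S D 1 𝓛 := by
  simp only [bnd, min_eq_left (sv_one hC δ S hD), mul_one]

lemma bnd_one_nonneg {C : ℝ} (hC : 1 ≤ C) (δ : ℝ) (S : Finset ℕ) (D : ℝ) {𝓛 : ℝ} (h : 1 ≤ 𝓛) :
    0 ≤ bnd C δ S D 1 𝓛 := by
  refine IRR.bnd_nonneg S (by linarith) (mul_nonneg zero_le_one (le_min zero_le_one ?_)) h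
  rw [sv, Real.log_one]
  positivity

lemma comb {C δ : ℝ} (hC : 1 ≤ C) (lp : Szpiro98.LocP C) (li : Szpiro98.LocI C) (lt : LocT C δ) :
    LocP (bnd C δ) ∧ LocI (bnd C δ) := by
  refine ⟨?_, ?_⟩
  · intro p _ ι K _ _ K1 K3 σ τ r hR β n S 𝓛 ne hn hS hnS h3 hH
    have key := lp p ι K K1 K3 σ τ r hR β n S 𝓛 ne hn hS hnS h3 hH
    by_cases ho : Odd r.valuation
    · have e : kap p r.valuation = 1 := if_pos ho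
      rw [e] at key ⊢
      rwa [bnd_one hC δ S (V2.one_le_dk' K)]
    · have e : kap p r.valuation = p := if_neg ho
      rw [e] at key ⊢
      simp only [bnd]
      rcases le_total 1 (sv C δ S (dk K) p) with h | h
      · rwa [min_eq_left h, mul_one]
      · rw [min_eq_right h]
        exact lt p ι K K1 K3 σ τ r hR β n S 𝓛 ne hn hS hnS h3 hH h
  · intro ι K _ _ K1 K3 σ τ β n S 𝓛 ne hn hS hnS h3 hH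
    rw [bnd_one hC δ S (V2.one_le_dk' K)]
    exact li ι K K1 K3 σ τ β n S 𝓛 ne hn hS hnS h3 hH

theorem fin (lt : LocTStmt) (ell : EllStmt) (nb : NumBStmt) :
    ∃ η C : ℝ, 0 < η ∧ ∀ a b : ℤ, disc a b ≠ 0 → IsMinimalShort a b →
      Real.log (max (|(a : ℝ)| ^ 3) ((b : ℝ) ^ 2)) ≤ C * (cond a b : ℝ) ^ (1 - η) := by
  obtain ⟨C1, h1⟩ := locp'
  obtain ⟨C2, h2⟩ := loci'
  obtain ⟨δ, C3, δ0, δ1, h3⟩ := lt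
  set C := max (max 10 C3) (max C1 C2)
  have c0 : 10 ≤ C := (le_max_left _ _).trans (le_max_left _ _)
  obtain ⟨p1, p2⟩ := comb (δ := δ) (by linarith) (h1 C ((le_max_left _ _).trans (le_max_right _ _)))
    (h2 C ((le_max_right _ _).trans (le_max_right _ _))) (h3 C ((le_max_right _ _).trans (le_max_left _ _)))
  obtain ⟨η, C', c1, g⟩ := nb C δ c0 δ0 δ1
  refine ⟨η, C', c1, fun a b hD hm => ?_⟩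
  have := g a b hD (ell _ (fun S D 𝓛 h => bnd_one_nonneg (by linarith) δ S D h) p1 p2 a b hD (minP hD hm))
  unfold LL at this
  linarith

end Pool.Agent.Szpiro98.V4
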