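import Pool.Agent.Lib.Szpiro98.Blue5

/-! Block LOCQ5: the saving at a large prime for a quotient of two integers. -/

namespace Pool.Agent.Szpiro98.V5

open Finset Module NumberField IsDedekindDomain NormedSpace Pool.Agent.Lib.MP_cafdd5_nt V4

namespace LOCQ5

lemma pick {h N : ℕ} (h1 : 1 ≤ h) (hN : 4 * h ≤ N) : ∃ k, 2 ^ (k + 2) * h ≤ N ∧ N < 8 * 2 ^ k * h := by
  have p : 0 < 4 * h := by omega
  have a : N / (4 * h) ≠ 0 := (Nat.div_pos hN p).ne'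
  refine ⟨Nat.log 2 (N / (4 * h)), ?_, ?_⟩
  · have := (Nat.le_div_iff_mul_le p).1 (Nat.pow_log_le_self 2 a)
    rw [pow_add]
    linarith
  · have := (Nat.div_lt_iff_lt_mul p).1 (Nat.lt_pow_succ_log_self (b := 2) (by norm_num) (N / (4 * h)))
    rw [pow_succ] at this
    linarith

lemma log_cube {q : ℕ} (hq : q.Prime) : 1 / 4 ≤ Real.log q ^ 3 ∧ Real.log q ≤ 4 * Real.log q ^ 3 := by
  have a : Real.log 2 ≤ Real.log q := Real.log_le_log (by norm_num) (by exact_mod_cast hq.two_le)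
  have b := Real.log_two_gt_d9
  have c : (0.69 : ℝ) ≤ Real.log q := by linarith
  have d : (0.47 : ℝ) ≤ Real.log q ^ 2 := by nlinarith
  constructor <;> nlinarith

lemma prod_le {C1 C : ℝ} (hC1 : 1 ≤ C1) (hC : 4 * C1 ≤ C) {S S' : Finset ℕ} (hS : ∀ q ∈ S, q.Prime)
    (sub : S' ⊆ S) : C1 ^ S'.card * ∏ q ∈ S', Real.log q ≤ ∏ q ∈ S, C * Real.log q ^ 3 ∧
      C1 ^ S'.card ≤ ∏ q ∈ S, C * Real.log q ^ 3 := by
  have a : ∀ q ∈ S, C1 ≤ C * Real.log q ^ 3 := fun q hq => by nlinarith [(log_cube (hS q hq)).1]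
  have b : ∏ q ∈ S', C * Real.log q ^ 3 ≤ ∏ q ∈ S, C * Real.log q ^ 3 :=
    prod_le_prod_of_subset_of_one_le sub (fun q hq => by linarith [a q (sub hq)])
      fun q hq _ => hC1.trans (a q hq)
  refine ⟨le_trans ?_ b, le_trans ?_ b⟩
  · rw [← prod_const, ← prod_mul_distrib]
    refine prod_le_prod (fun q _ => mul_nonneg (by linarith) (Real.log_natCast_nonneg q)) fun q hq => ?_
    obtain ⟨c, d⟩ := log_cube (hS q (sub hq))
    nlinarith
  · rw [← prod_const]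
    exact prod_le_prod (fun q _ => by linarith) fun q hq => a q (sub hq)

lemma save {C1 C2 h : ℝ} {m r : ℕ} (hC1 : 1 ≤ C1) (hC2 : 1 ≤ C2) (hh : Real.exp 1 * C1 ^ 5 * C2 ≤ h)
    (mr : m ≤ r) : C1 ^ (r + 4 * m) * C2 ^ m / h ^ r ≤ Real.exp (-m) := by
  have e0 := Real.exp_pos 1
  have h0 : 0 < h := lt_of_lt_of_le (by positivity) hh
  rw [div_le_iff₀ (by positivity)]
  calc C1 ^ (r + 4 * m) * C2 ^ m ≤ C1 ^ (5 * r) * C2 ^ r := by
        gcongr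
        omega
    _ = Real.exp (-r) * (Real.exp 1 * C1 ^ 5 * C2) ^ r := by
        rw [mul_pow, mul_pow, ← Real.exp_nat_mul, ← pow_mul, mul_one, ← mul_assoc, ← mul_assoc, ← Real.exp_add]
        simp
    _ ≤ _ := by
        have : (m : ℝ) ≤ r := by exact_mod_cast mr
        gcongr

lemma pow_le_exp {h : ℝ} (h0 : 0 ≤ h) (n : ℕ) : h ^ n ≤ Real.exp (n * h) := by
  rw [Real.exp_nat_mul]
  exact pow_le_pow_left₀ h0 (by linarith [Real.add_one_le_exp h]) n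

lemma mb_le {C1 C2 C δ 𝓛 : ℝ} {p N h m r : ℕ} {S S' : Finset ℕ} (hC1 : 1 ≤ C1) (hC2 : 1 ≤ C2)
    (hC : 4 * C1 ≤ C) (hh : Real.exp 1 * C1 ^ 5 * C2 ≤ h) (hS : ∀ q ∈ S, q.Prime) (sub : S' ⊆ S)
    (p1 : 1 ≤ p) (mr : m ≤ r) (rm : r ≤ 4 * m) (mN : 4 * m * h ≤ N) (Np : 4000 * (N : ℝ) ≤ Real.log p)
    (δ1 : δ ≤ 1 / 2) (δm : δ * Real.log p ≤ m) (h𝓛 : 3 ≤ 𝓛) :
    2 * V4.mb C1 p N (4 * m) h S'.card r ((S'.card : ℝ) ^ S'.card * ∏ q ∈ S', Real.log q) (C2 ^ m)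
      (4 * Real.log p) 𝓛 ≤ Szpiro98.bnd C S 1 (p * sv C δ S 1 p) 𝓛 ∧
    4000 * (N : ℝ) + 2 ≤ Szpiro98.bnd C S 1 (p * sv C δ S 1 p) 𝓛 := by
  obtain ⟨a1, a2⟩ := prod_le hC1 hC hS sub
  have P1 : (1 : ℝ) ≤ p := by exact_mod_cast p1
  have P0 : (0 : ℝ) < p := by linarith
  have l0 := Real.log_nonneg P1
  have N0 : (0 : ℝ) ≤ N := Nat.cast_nonneg N
  have e1 : 1 ≤ Real.exp 1 := Real.one_le_exp zero_le_one
  have c5 : 1 ≤ C1 ^ 5 := one_le_pow₀ hC1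
  have hc5 : C1 ^ 5 ≤ h := by
    refine le_trans ?_ hh
    calc C1 ^ 5 = 1 * C1 ^ 5 * 1 := by ring
      _ ≤ _ := by gcongr
  have h1 : (1 : ℝ) ≤ h := c5.trans hc5
  have mN' : 4 * (m : ℝ) * h ≤ N := by exact_mod_cast mN
  have m0 : (0 : ℝ) ≤ m := Nat.cast_nonneg m
  have lL : 1 ≤ Real.log 𝓛 := by
    rw [Real.le_log_iff_exp_le (by linarith)]
    linarith [Real.exp_one_lt_d9]
  have lL3 : 1 ≤ Real.log 𝓛 ^ 3 := one_le_pow₀ lL
  obtain ⟨Q, hQ⟩ : ∃ Q : ℝ, Q = p / (p : ℝ) ^ δ := ⟨_, rfl⟩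
  have Qe : Q = Real.exp ((1 - δ) * Real.log p) := by
    rw [hQ, Real.rpow_def_of_pos P0, sub_mul, one_mul, Real.exp_sub, Real.exp_log P0, mul_comm]
  have QN : Real.exp N ≤ Q := by
    rw [Qe]
    exact Real.exp_le_exp.2 (by nlinarith)
  have Q1 : 1 ≤ Q := (Real.one_le_exp N0).trans QN
  have b1 : p * (C1 ^ (r + 4 * m) * C2 ^ m / (h : ℝ) ^ r) ≤ Q := by
    refine (mul_le_mul_of_nonneg_left (save hC1 hC2 hh mr) P0.le).trans ?_
    rw [Qe]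
    nth_rewrite 1 [← Real.exp_log P0]
    rw [← Real.exp_add]
    exact Real.exp_le_exp.2 (by linarith)
  have b2 : C1 ^ (r + 4 * m) ≤ Q := by
    calc C1 ^ (r + 4 * m) ≤ C1 ^ (5 * (2 * m)) := pow_le_pow_right₀ hC1 (by omega)
      _ ≤ (h : ℝ) ^ (2 * m) := by rw [pow_mul]; gcongr
      _ ≤ Real.exp ((2 * m : ℕ) * h) := pow_le_exp (by linarith) _
      _ ≤ Real.exp N := Real.exp_le_exp.2 (by push_cast; nlinarith)
      _ ≤ Q := QN
  obtain ⟨Y, hY⟩ : ∃ Y : ℝ, Y = (S.card + 1) * (1 + Real.log p) := ⟨_, rfl⟩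
  have s0 : (0 : ℝ) ≤ S.card := Nat.cast_nonneg _
  have sc : S'.card ≤ S.card := card_le_card sub
  have sc' : (S'.card : ℝ) ≤ S.card := by exact_mod_cast sc
  have Y1 : 1 + Real.log p ≤ Y := by rw [hY]; nlinarith
  have Y0 : 1 ≤ Y := by linarith
  obtain ⟨Z, hZ⟩ : ∃ Z : ℝ, Z = Y ^ (5 * (S.card + 1)) := ⟨_, rfl⟩
  have Z1 : ∀ n, n ≤ 5 * (S.card + 1) → Y ^ n ≤ Z := fun n hn => hZ ▸ pow_le_pow_right₀ Y0 hn
  have b3 : (S'.card : ℝ) ^ S'.card * ((4 * m : ℕ) : ℝ) ^ S'.card * N ≤ Z := by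
    refine le_trans ?_ (Z1 (S'.card + 1) (by omega))
    rw [← mul_pow, pow_succ]
    have : ((4 * m : ℕ) : ℝ) ≤ 1 + Real.log p := by push_cast; nlinarith
    refine mul_le_mul (pow_le_pow_left₀ (by positivity) ?_ _) (by linarith) N0 (by positivity)
    rw [hY]
    exact mul_le_mul (by linarith) this (by positivity) (by positivity)
  have b4 : Real.log p * N ≤ Z := by
    refine le_trans ?_ (Z1 2 (by omega))
    rw [sq]
    exact mul_le_mul (by linarith) (by linarith) N0 (by linarith)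
  have b5 : Y ≤ Z := by simpa using Z1 1 (by omega)
  have eb : Szpiro98.bnd C S 1 (p * sv C δ S 1 p) 𝓛 =
      C ^ 2 * ((∏ q ∈ S, C * Real.log q ^ 3) * Q * Z * Real.log 𝓛 ^ 3) := by
    rw [Szpiro98.bnd, sv, hZ, hY, hQ]
    simp only [Real.sqrt_one, Real.log_one, add_zero, one_pow, mul_one]
    ring
  have em : V4.mb C1 p N (4 * m) h S'.card r ((S'.card : ℝ) ^ S'.card * ∏ q ∈ S', Real.log q) (C2 ^ m)
      (4 * Real.log p) 𝓛 = ((C1 ^ S'.card * ∏ q ∈ S', Real.log q) *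
        (p * (C1 ^ (r + 4 * m) * C2 ^ m / (h : ℝ) ^ r)) *
        ((S'.card : ℝ) ^ S'.card * ((4 * m : ℕ) : ℝ) ^ S'.card * N) +
        4 * (C1 ^ S'.card * C1 ^ (r + 4 * m) * (Real.log p * N))) * Real.log 𝓛 ^ 3 := by
    rw [V4.mb, add_assoc, pow_add]
    ring
  have pl : 0 ≤ ∏ q ∈ S', Real.log q := prod_nonneg fun q _ => Real.log_natCast_nonneg q
  have C0 : 0 ≤ C1 := by linarith
  have C20 : 0 ≤ C2 := by linarith
  have T1 : 1 ≤ ∏ q ∈ S, C * Real.log q ^ 3 := (one_le_pow₀ hC1).trans a2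
  generalize ∏ q ∈ S, C * Real.log q ^ 3 = T at a1 a2 eb T1
  have g1 : (C1 ^ S'.card * ∏ q ∈ S', Real.log q) * (p * (C1 ^ (r + 4 * m) * C2 ^ m / (h : ℝ) ^ r)) *
      ((S'.card : ℝ) ^ S'.card * ((4 * m : ℕ) : ℝ) ^ S'.card * N) ≤ T * Q * Z := by
    gcongr
  have g2 : C1 ^ S'.card * C1 ^ (r + 4 * m) * (Real.log p * N) ≤ T * Q * Z := by
    gcongr
  have g3 : Z ≤ T * Q * Z := le_mul_of_one_le_left (by linarith) (one_le_mul_of_one_le_of_one_le T1 Q1)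
  have C16 : 16 ≤ C ^ 2 := by nlinarith
  rw [eb, em]
  generalize T * Q * Z = U at g1 g2 g3
  have U1 : 1 ≤ U := by linarith
  have g4 : U ≤ U * Real.log 𝓛 ^ 3 := le_mul_of_one_le_right (by linarith) lL3
  have g5 : 16 * (U * Real.log 𝓛 ^ 3) ≤ C ^ 2 * (U * Real.log 𝓛 ^ 3) :=
    mul_le_mul_of_nonneg_right C16 (by linarith)
  refine ⟨le_trans ?_ g5, by linarith⟩
  have := mul_le_mul_of_nonneg_right (add_le_add g1 (mul_le_mul_of_nonneg_left g2 (by norm_num : (0 : ℝ) ≤ 4)))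
    (show 0 ≤ Real.log 𝓛 ^ 3 by linarith)
  linarith

lemma cast_eq {n : ℕ} (n0 : n ≠ 0) {S : Finset ℕ} (h : n.primeFactors ⊆ S) :
    (n : Qb) = ∏ q ∈ S, (q : Qb) ^ (n.factorization q : ℤ) := by
  conv_lhs => rw [← Nat.prod_factorization_pow_eq_self n0,
    Finsupp.prod_of_support_subset _ (show n.factorization.support ⊆ S from h) _ fun _ _ => pow_zero _]
  simp

lemma sq_eq {u w : ℤ} (u0 : u ≠ 0) (w0 : w ≠ 0) {S : Finset ℕ} (hS : ∀ q ∈ S, q.Prime)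
    (h : (u * w).natAbs.primeFactors ⊆ S) {p : ℕ} (e : u.natAbs.factorization p = w.natAbs.factorization p) :
    ∃ k : ℕ → ℤ, (u : Qb) ^ 2 / (w : Qb) ^ 2 = ∏ q ∈ S.erase p, (q : Qb) ^ k q := by
  have u1 := Int.natAbs_ne_zero.2 u0
  have w1 := Int.natAbs_ne_zero.2 w0
  rw [Int.natAbs_mul, Nat.primeFactors_mul u1 w1] at h
  have a : ∀ x : ℤ, (x : Qb) ^ 2 = (x.natAbs : Qb) ^ 2 := fun x => by
    have := congrArg (Int.cast : ℤ → Qb) (Int.natAbs_sq x)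
    push_cast at this
    rw [← this]
    simp
  refine ⟨fun q => 2 * ((u.natAbs.factorization q : ℤ) - w.natAbs.factorization q), ?_⟩
  rw [prod_erase _ (by simp [e]), a u, a w, cast_eq u1 (subset_union_left.trans h),
    cast_eq w1 (subset_union_right.trans h), ← div_pow, ← prod_div_distrib, ← prod_pow]
  refine prod_congr rfl fun q hq => ?_
  have q0 : (q : Qb) ≠ 0 := by exact_mod_cast (hS q hq).ne_zero
  rw [← zpow_sub₀ q0, ← zpow_natCast, ← zpow_mul, mul_comm]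
  rfl

lemma fact_eq {p : ℕ} [hp : Fact p.Prime] {u w : ℤ} (u0 : u ≠ 0) (w0 : w ≠ 0)
    (h : ‖(u : ℚ_[p])‖ = ‖(w : ℚ_[p])‖) : u.natAbs.factorization p = w.natAbs.factorization p := by
  have a : (u : ℚ_[p]) ≠ 0 := by exact_mod_cast u0
  have b : (w : ℚ_[p]) ≠ 0 := by exact_mod_cast w0
  have p1 : (1 : ℝ) < p := by exact_mod_cast hp.out.one_lt
  rw [Padic.norm_eq_zpow_neg_valuation a, Padic.norm_eq_zpow_neg_valuation b,
    zpow_right_inj₀ (by linarith) p1.ne', neg_inj, Padic.valuation_intCast, Padic.valuation_intCast] at h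
  rw [Nat.factorization_def _ hp.out, Nat.factorization_def _ hp.out]
  exact_mod_cast h

lemma cp {p : ℕ} [hp : Fact p.Prime] (ι : Qb →+* ℂ_[p]) {S : Finset ℕ} (hS : ∀ q ∈ S, q.Prime)
    (k : ℕ → ℤ) : CP 1 (ι (∏ q ∈ S.erase p, (q : Qb) ^ k q)) := by
  obtain ⟨y, hy⟩ : ∃ y : ℚ_[p], y = ∏ q ∈ S.erase p, (q : ℚ_[p]) ^ k q := ⟨_, rfl⟩
  have e : ι (∏ q ∈ S.erase p, (q : Qb) ^ k q) = algebraMap ℚ_[p] ℂ_[p] y := by
    simp [hy, map_prod]
  have n : ‖algebraMap ℚ_[p] ℂ_[p] y‖ = 1 := by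
    rw [← e, map_prod, norm_prod]
    refine prod_eq_one fun q hq => ?_
    obtain ⟨q1, q2⟩ := mem_erase.1 hq
    rw [map_zpow₀, norm_zpow, map_natCast, (anp p).2.2 q fun d =>
      q1 ((Nat.prime_dvd_prime_iff_eq hp.out (hS q q2)).1 d).symm, one_zpow]
  have e1 : algebraMap ℚ_[p] ℂ_[p] ((y + 1) / 2) + algebraMap ℚ_[p] ℂ_[p] ((y - 1) / 2) * 1 =
      algebraMap ℚ_[p] ℂ_[p] y := by
    rw [mul_one, ← map_add]; congr 1; ring
  have e2 : algebraMap ℚ_[p] ℂ_[p] ((y + 1) / 2) - algebraMap ℚ_[p] ℂ_[p] ((y - 1) / 2) * 1 = 1 := by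
    rw [mul_one, ← map_sub, ← map_one (algebraMap ℚ_[p] ℂ_[p])]; congr 1; ring
  exact ⟨(y + 1) / 2, (y - 1) / 2, by rw [e1, n], by rw [e2, norm_one], by rw [e1, e2, e, mul_one]⟩

lemma hs_sq {u : ℤ} {𝓛 : ℝ} (h3 : 3 ≤ 𝓛) (hu : |(u : ℝ)| ≤ Real.exp 𝓛) : Hs ((u : Qb) ^ 2) (Real.exp (6 * 𝓛)) := by
  refine (((Hs.int u).mono hu).pow 2).mono ?_
  rw [← Real.exp_nat_mul]
  exact Real.exp_le_exp.2 (by push_cast; linarith)

end LOCQ5

open LOCP LOCQ5 in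
theorem locqt (h1 : V4.AuxStmt) (h2 : V4.MidStmt) (h3 : QsupStmt) : LocQTStmt := by
  classical
  obtain ⟨C1, hC1, h2⟩ := h2
  obtain ⟨C2, hC2, h1⟩ := h1
  obtain ⟨h, hh⟩ : ∃ h : ℕ, h = ⌈Real.exp 1 * C1 ^ 5 * C2⌉₊ := ⟨_, rfl⟩
  have hh1 : Real.exp 1 * C1 ^ 5 * C2 ≤ h := hh ▸ Nat.le_ceil _
  have hh2 : C2 ≤ h := by
    refine le_trans ?_ hh1
    exact le_mul_of_one_le_left (by linarith)
      (one_le_mul_of_one_le_of_one_le (Real.one_le_exp zero_le_one) (one_le_pow₀ hC1))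
  have hh3 : (1 : ℝ) ≤ h := hC2.trans hh2
  have hh4 : 1 ≤ h := by exact_mod_cast hh3
  have δ1 : 1 / (64000 * (h : ℝ)) ≤ 1 / 2 := one_div_le_one_div_of_le (by norm_num) (by linarith)
  refine ⟨1 / (64000 * h), max (4 * C1) (Real.exp (32000 * h + 8004)), by positivity, by linarith,
    fun C hC u w S 𝓛 u0 w0 uw hS hnS h𝓛 hu hw p _ hsv hb => ?_⟩
  have hC4 : 4 * C1 ≤ C := (le_max_left _ _).trans hC
  obtain ⟨hF, hi, -⟩ := anp p
  have hp : p.Prime := Fact.out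
  have hp1 : (1 : ℝ) ≤ p := by exact_mod_cast hp.one_le
  have hp0 : (0 : ℝ) < p := by linarith
  have l0 := Real.log_nonneg hp1
  have hlp : 32000 * h + 8004 ≤ Real.log p := by
    rw [Real.le_log_iff_exp_le hp0]
    refine ((le_max_right _ _).trans hC).trans ?_
    rw [sv, div_le_one (by positivity), one_pow, mul_one] at hsv
    have a : (1 : ℝ) ≤ ((S.card + 1) * (1 + Real.log p)) ^ (5 * (S.card + 1)) :=
      one_le_pow₀ (one_le_mul_of_one_le_of_one_le (le_add_of_nonneg_left (Nat.cast_nonneg _)) (by linarith))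
    calc C ≤ _ := le_mul_of_one_le_right (by linarith) a
      _ ≤ _ := hsv
      _ ≤ (p : ℝ) ^ (1 : ℝ) := Real.rpow_le_rpow_of_exponent_le hp1 (by linarith)
      _ = p := Real.rpow_one _
  obtain ⟨N, hN⟩ : ∃ N : ℕ, N = ⌊(Real.log p - 2) / 4000⌋₊ := ⟨_, rfl⟩
  have hNp : 4000 * (N : ℝ) + 2 ≤ Real.log p := by
    have := Nat.floor_le (a := (Real.log p - 2) / 4000) (by linarith)
    rw [← hN] at this
    linarith
  have hNp' : Real.log p ≤ 8000 * N := by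
    have := Nat.lt_floor_add_one ((Real.log p - 2) / 4000)
    rw [← hN] at this
    linarith
  have hN4 : 4 * h ≤ N := by
    have : 4 * (h : ℝ) ≤ N := by linarith
    exact_mod_cast this
  have hN1 : 1 ≤ N := by omega
  have hN0 : (1 : ℝ) ≤ N := by exact_mod_cast hN1
  obtain ⟨k, k1, k2⟩ := pick hh4 hN4
  have e4 : 2 ^ (k + 2) = 4 * 2 ^ k := by ring
  have k1' : 4 * (2 ^ k : ℕ) * (h : ℝ) ≤ N := by rw [e4] at k1; exact_mod_cast k1
  have k2' : (N : ℝ) ≤ 8 * (2 ^ k : ℕ) * h := by exact_mod_cast k2.le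
  have m0 : (0 : ℝ) ≤ (2 ^ k : ℕ) := Nat.cast_nonneg _
  have hpe : Real.exp (4000 * N + 2) ≤ p := (Real.le_log_iff_exp_le hp0).1 hNp
  have hp2 : p ≠ 2 := by
    rintro rfl
    have := Real.log_two_lt_d9
    push_cast at hNp
    linarith
  obtain ⟨ω1, ω2⟩ := om_le hN1
  have ω0 : 0 < om N := Real.exp_pos _
  have hpω : 4 ≤ p * om N ^ 2 := by
    have a : Real.exp (4000 * N + 2) * om N ^ 2 = Real.exp 1 * Real.exp 1 := by
      rw [om, ← Real.exp_nat_mul, ← Real.exp_add, ← Real.exp_add]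
      congr 1
      push_cast
      ring
    have b := Real.add_one_le_exp (1 : ℝ)
    calc (4 : ℝ) ≤ Real.exp 1 * Real.exp 1 := by nlinarith
      _ ≤ _ := by rw [← a]; gcongr
  let ι : Qb →+* ℂ_[p] := (IsAlgClosed.lift : Qb →ₐ[ℚ] ℂ_[p]).toRingHom
  obtain ⟨L, fL, G, r, dL, r1, r2, hG, sG⟩ := h1 p ι k 1 1 one_ne_zero (by simp) (by
    rw [Int.cast_one, one_pow, one_mul]
    calc C2 ^ 2 ^ k ≤ (h : ℝ) ^ 2 ^ k := pow_le_pow_left₀ (by linarith) hh2 _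
      _ ≤ Real.exp ((2 ^ k : ℕ) * h) := pow_le_exp (by linarith) _
      _ < Real.exp (4000 * N + 2) := Real.exp_lt_exp.2 (by nlinarith)
      _ ≤ p := hpe)
  rw [Int.cast_one, one_pow, one_mul] at sG
  rw [e4] at dL r2 k1
  have hS' : ∀ q ∈ S.erase p, q.Prime := fun q hq => hS q (mem_of_mem_erase hq)
  obtain ⟨b1, b2⟩ := mb_le (δ := 1 / (64000 * (h : ℝ))) hC1 hC2 hC4 hh1 hS (erase_subset p S) hp.one_le r1 r2 k1
    (by linarith) δ1 (by
      rw [one_div, inv_mul_le_iff₀ (by positivity)]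
      linarith) h𝓛
  have key := fun tb => h2 p ι 1 1 N _ h L _ G _ r _ _ (4 * Real.log p) 𝓛 ((u : Qb) ^ 2) ((w : Qb) ^ 2) tb
    one_ne_zero (by simp) hp2 hpω dL hh4 k1 (by rintro x ⟨k, rfl⟩; exact cp ι hS k) hG
    ((h3 _ hS').mono bot_le (by linarith)) sG (by linarith) h𝓛 (pow_mem (intCast_mem L u) 2)
    (pow_mem (intCast_mem L w) 2) (by simpa using u0) (by simpa using w0) (hs_sq h𝓛 hu) (hs_sq h𝓛 hw)
  generalize V4.mb _ _ _ _ _ _ _ _ _ _ _ = b at b1 key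
  generalize Szpiro98.bnd C S 1 _ 𝓛 = B at b1 b2 hb
  have w2 : (w : ℂ_[p]) ≠ 0 := by exact_mod_cast w0
  obtain ⟨x, hx⟩ : ∃ x : ℂ_[p], (u : ℂ_[p]) = x * w := ⟨_, (div_mul_cancel₀ _ w2).symm⟩
  have x1 : x ≠ 1 := by
    rintro rfl
    exact uw (by exact_mod_cast hx.trans (one_mul _))
  have nm : ∀ z : ℤ, ‖(z : ℚ_[p])‖ = ‖(z : ℂ_[p])‖ := fun z => by
    rw [← map_intCast (algebraMap ℚ_[p] ℂ_[p]), norm_algebraMap']
  rw [← Int.cast_sub, nm, nm, Int.cast_sub, hx, ← sub_one_mul, norm_mul]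
  refine mul_le_mul_of_nonneg_right ?_ (norm_nonneg _)
  have e1 := V3.LOCQ.exp_neg_one
  by_cases hc : ‖x - 1‖ ≤ om N / 2
  swap
  · refine le_trans ?_ (not_le.1 hc).le
    calc _ ≤ Real.exp (-(2000 * N) + -1) := Real.exp_le_exp.2 (by linarith)
      _ ≤ _ := by
        rw [Real.exp_add, om, div_eq_mul_one_div]
        gcongr
  obtain ⟨t, ht, hte⟩ := exists_log hF (x := x) (r := 2 * ‖x - 1‖) (by linarith) (by linarith)
  obtain ⟨t1, t2⟩ := exp_nat_mul hF (t := t) (by linarith) 2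
  have t0 : t ≠ 0 := by
    rintro rfl
    exact x1 (by rw [← hte, exp_zero])
  have xn : ‖x‖ = 1 := by
    have := IsUltrametricDist.norm_add_eq_max_of_norm_ne_norm (x := x - 1) (y := 1)
      (by rw [norm_one]; linarith)
    rw [sub_add_cancel, norm_one] at this
    rw [this, max_eq_right (by linarith)]
  have fin := key ((2 : ℕ) * t) (sq_eq u0 w0 hS hnS (fact_eq u0 w0 (by rw [nm, nm, hx, norm_mul, xn, one_mul])))
    (by rw [map_pow, map_pow, map_intCast, map_intCast, t2, hte, hx]; ring) (by linarith)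
    (mul_ne_zero (by norm_num) t0) (by linarith)
  calc _ ≤ Real.exp (-b + -1) := Real.exp_le_exp.2 (by linarith)
    _ ≤ 2 * ‖x - 1‖ * (1 / 2) := by
      rw [Real.exp_add]
      gcongr
      linarith
    _ = _ := by ring

end Pool.Agent.Szpiro98.V5
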