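import Pool.Agent.Lib.Szpiro98.Blue4

/-! Block ELL4: the elliptic curve part of the fourth round, for an arbitrary bound. -/

namespace Pool.Agent.Szpiro98.V4

open Finset Module NumberField IsDedekindDomain NormedSpace Pool.Agent.Lib.MP_cafdd5_nt

open IRR in
theorem irr {bd : Bd} (hC : ∀ S D 𝓛, 1 ≤ 𝓛 → 0 ≤ bd S D 1 𝓛) (lp : LocP bd) (li : LocI bd) {a b : ℤ}
    (hD : disc a b ≠ 0) (hm : MinP a b) (hirr : ∀ e : ℤ, e ^ 3 - a * e - b ≠ 0) : Loc bd a b := by
  have h1 : Disc3Stmt := disc3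
  have h2 : P3Stmt := p3
  obtain ⟨K, _, _, θ, hK, hθ, hemb, hind⟩ := exists_field hirr
  have hb : b ≠ 0 := fun e ↦ hirr 0 (by simp [e])
  have L6 := six_le_LL (a := a) hb
  have hrat : ∀ x : ℚ, θ ≠ x := fun x e ↦ no_rat hirr x (by
    rw [e] at hθ
    exact_mod_cast hθ)
  have θi : IsIntegral ℤ θ := integral hθ
  set β : K := (3 * θ ^ 2 - a) ^ 2 with hβ
  have i3 : ∀ n : ℤ, IsIntegral ℤ (n : K) := fun n ↦ isIntegral_intCast n
  have βi : IsIntegral ℤ β := by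
    have := (((i3 3).mul (θi.pow 2)).sub (i3 a)).pow 2
    rwa [Int.cast_ofNat] at this
  have γi : IsIntegral ℤ (4 * a - 3 * θ ^ 2) := by
    have := ((i3 4).mul (i3 a)).sub ((i3 3).mul (θi.pow 2))
    simpa using this
  obtain ⟨n, hn⟩ := norm_int βi
  obtain ⟨n', hn'⟩ := norm_int γi
  have hnn : n * n' = disc a b ^ 3 := by
    have e := congrArg (Algebra.norm ℚ) (disc_eq hθ)
    rw [map_mul, ← hβ, hn, hn', ← map_intCast (algebraMap ℚ K), Algebra.norm_algebraMap, hK] at e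
    exact_mod_cast e.symm
  have hSS : (disc a b).natAbs.primeFactors ⊆ SS a b :=
    (subset_insert _ _).trans (subset_insert _ _)
  have hS : n.natAbs.primeFactors ⊆ SS a b := by
    refine Subset.trans ?_ hSS
    rw [← Nat.primeFactors_pow (disc a b).natAbs (k := 3) (by norm_num)]
    refine Nat.primeFactors_mono ?_ (pow_ne_zero _ (Int.natAbs_ne_zero.2 hD))
    rw [← Int.natAbs_pow, ← hnn, Int.natAbs_mul]
    exact dvd_mul_right _ _
  have hP : ∀ q ∈ SS a b, q.Prime := fun q hq ↦ by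
    simp only [SS, mem_insert] at hq
    rcases hq with rfl | rfl | hq
    exacts [Nat.prime_two, Nat.prime_three, Nat.prime_of_mem_primeFactors hq]
  have hH : Hk β (Real.exp (LL a b)) := ⟨βi, fun φ ↦ by
    have := house hb (x := φ θ) (by simpa using congrArg φ hθ)
    simpa [hβ, map_ofNat] using this⟩
  have K3 : (finrank ℚ K).Prime := hK ▸ Nat.prime_three
  have main : ∀ x y z : Qb, Rt a b x y z → x ≠ y ∧ ∃ σ τ : K →+* Qb, σ θ = x ∧ τ θ = y ∧
      σ β = (3 * x ^ 2 - a) ^ 2 ∧ τ β = (3 * y ^ 2 - a) ^ 2 ∧ σ β ≠ τ β := fun x y z h ↦ by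
    obtain ⟨σ, hσ⟩ := hemb x h.root
    obtain ⟨τ, hτ⟩ := hemb y h.swap.root
    have e1 : σ β = (3 * x ^ 2 - a) ^ 2 := by simp [hβ, map_ofNat, hσ]
    have e2 : τ β = (3 * y ^ 2 - a) ^ 2 := by simp [hβ, map_ofNat, hτ]
    have hD' : ((disc a b : ℤ) : Qb) ≠ 0 := by exact_mod_cast hD
    have hb' : (b : Qb) ≠ 0 := by exact_mod_cast hb
    have xy : x - y ≠ 0 := fun e ↦ hD' (by rw [h.disc, e]; ring)
    have z0 : z ≠ 0 := fun e ↦ hb' (by rw [← h.2.2, e]; ring)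
    refine ⟨sub_ne_zero.1 xy, σ, τ, hσ, hτ, e1, e2, ?_⟩
    rw [e1, e2, ← sub_ne_zero, h.diff]
    exact mul_ne_zero (neg_ne_zero.2 (mul_ne_zero (by norm_num) z0)) (pow_ne_zero _ xy)
  refine ⟨discr K, disc a b, discr_ne_zero K, hD, h1 a b K θ hK hθ hrat hD hm, hSS, fun hlt ↦ ?_,
    fun p hp hv hlt ↦ ?_⟩
  · obtain ⟨x, y, z, h, k1, k2⟩ : ∃ x y z : Qb, Rt a b x y z ∧ ‖emb x - emb y‖ ≤ ‖emb x - emb z‖ ∧
        ‖emb x - emb y‖ ≤ ‖emb y - emb z‖ := by
      obtain ⟨x, y, z, h⟩ := exists_rt a b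
      rcases le_total ‖emb x - emb y‖ ‖emb x - emb z‖ with c1 | c1
      · rcases le_total ‖emb x - emb y‖ ‖emb y - emb z‖ with c2 | c2
        · exact ⟨x, y, z, h, c1, c2⟩
        · exact ⟨y, z, x, h.rot, by rwa [norm_sub_rev (emb y) (emb x)], by
            rw [norm_sub_rev (emb z) (emb x)]; exact c2.trans c1⟩
      · rcases le_total ‖emb x - emb z‖ ‖emb y - emb z‖ with c2 | c2
        · exact ⟨z, x, y, h.rot.rot, by
            rw [norm_sub_rev (emb z) (emb x), norm_sub_rev (emb z) (emb y)]; exact c2, by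
            rw [norm_sub_rev (emb z) (emb x)]; exact c1⟩
        · exact ⟨y, z, x, h.rot, by rw [norm_sub_rev (emb y) (emb x)]; exact c2.trans c1, by
            rw [norm_sub_rev (emb z) (emb x)]; exact c2⟩
    obtain ⟨xy, σ, τ, -, -, e1, e2, ne⟩ := main x y z h
    have := li emb K K3 hK.le σ τ β n (SS a b) (LL a b) ne hn hP hS (by linarith) hH hlt
    rw [e1, e2] at this
    refine arch hb hD (h.map emb) k1 k2 (hC _ _ _ (by linarith))
      (key (h.map emb) (emb.injective.ne xy) ?_)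
    simpa [map_ofNat, dk] using this
  · have : Fact p.Prime := ⟨hp⟩
    obtain ⟨z, hz, hz'⟩ := h2 a b p hD hm (by omega)
    let ι : Qb →+* ℂ_[p] := (IsAlgClosed.lift : Qb →ₐ[ℚ] ℂ_[p]).toRingHom
    obtain ⟨x, y, w, h, hw⟩ : ∃ x y w : Qb, Rt a b x y w ∧ ι w = algebraMap ℚ_[p] ℂ_[p] z := by
      obtain ⟨x, y, w, h⟩ := exists_rt a b
      have e := (h.map ι).fac (algebraMap ℚ_[p] ℂ_[p] z)
      have e' := congrArg (algebraMap ℚ_[p] ℂ_[p]) hz
      simp only [map_sub, map_pow, map_mul, map_intCast, map_zero] at e'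
      rw [e', eq_comm, mul_eq_zero, mul_eq_zero, sub_eq_zero, sub_eq_zero, sub_eq_zero] at e
      rcases e with (e | e) | e
      exacts [⟨y, w, x, h.rot, e.symm⟩, ⟨w, x, y, h.rot.rot, e.symm⟩, ⟨x, y, w, h, e.symm⟩]
    obtain ⟨xy, σ, τ, hσ, hτ, e1, e2, ne⟩ := main x y w h
    obtain ⟨r0, hk⟩ := kap_eq hD hz
    have h' := h.map ι
    rw [hw] at h'
    have hR : Rho (ι.comp σ) (ι.comp τ) (4 * a - 3 * z ^ 2) := by
      refine ⟨r0, ι x - ι y, by rw [h'.sq]; simp [map_ofNat], hind _ (fun q ↦ ⟨q, 0, by simp, by simp⟩)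
        ⟨-z / 2, 1 / 2, ?_, ?_⟩ ?_ ?_⟩
      · simp only [RingHom.comp_apply, hσ, map_div₀, map_neg, map_ofNat, map_one]
        linear_combination (1 / 2) * h'.1
      · simp only [RingHom.comp_apply, hτ, map_div₀, map_neg, map_ofNat, map_one]
        linear_combination (1 / 2) * h'.1
      · rintro s t ⟨u, v, a1, a2⟩ ⟨u', v', b1, b2⟩
        refine ⟨u + u', v + v', ?_, ?_⟩
        · rw [map_add, a1, b1, map_add, map_add]; ring
        · rw [map_add, a2, b2, map_add, map_add]; ring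
      · rintro s t ⟨u, v, a1, a2⟩ ⟨u', v', b1, b2⟩
        have e := h'.sq
        refine ⟨u * u' + v * v' * (4 * a - 3 * z ^ 2), u * v' + v * u', ?_, ?_⟩
        · rw [map_mul, a1, b1]
          simp only [map_add, map_mul, map_sub, map_pow, map_ofNat, map_intCast, ← e]; ring
        · rw [map_mul, a2, b2]
          simp only [map_add, map_mul, map_sub, map_pow, map_ofNat, map_intCast, ← e]; ring
    rw [← hk] at hlt ⊢
    have := lp p ι K K3 hK.le σ τ _ hR β n (SS a b) (LL a b) ne hn hP hS (by linarith) hH hlt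
    rw [e1, e2] at this
    refine padic hD h' hz' (key h' (ι.injective.ne xy) ?_)
    simpa [map_ofNat, dk] using this

open QUAD in
theorem quad : QuadStmt := by
  intro bd hP hI A B c S 𝓛 hc hs hB hm hS hBS h3 hL
  obtain ⟨K, _, _, w, hw, hK, hsp, hl⟩ := exists_field hs
  have c0 : c ≠ 0 := fun h => hs (h ▸ IsSquare.zero)
  obtain ⟨s, hs2⟩ := IsAlgClosed.exists_pow_nat_eq (c : Qb) two_pos
  have s0 : s ≠ 0 := fun h => c0 (by rw [h, zero_pow two_ne_zero] at hs2; exact_mod_cast hs2.symm)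
  obtain ⟨σ, hσ⟩ := hl s hs2
  obtain ⟨τ, hτ⟩ := hl (-s) (by rw [neg_sq, hs2])
  obtain ⟨β, hβ⟩ : ∃ β : K, β = (w - A) / 2 := ⟨_, rfl⟩
  have e0 : ∀ {E : Type} [Field E] (φ : K →+* E), φ β = (φ w - A) / 2 := fun φ => by
    simp [hβ, map_ofNat]
  have e1 : σ β - τ β = s := by rw [e0, e0, hσ, hτ]; ring
  have e2 : σ β + τ β = -A := by rw [e0, e0, hσ, hτ]; ring
  have e3 : σ β * τ β = B := by
    have : (c : Qb) = A ^ 2 - 4 * B := by exact_mod_cast hc
    rw [e0, e0, hσ, hτ]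
    linear_combination (-1 / 4 : Qb) * hs2 - (1 / 4 : Qb) * this
  have n1 : σ β ≠ τ β := sub_ne_zero.1 (e1 ▸ s0)
  have n2 : σ ≠ τ := fun h => n1 (by rw [h])
  have ht : Algebra.trace ℚ K w = 0 := (algebraMap ℚ Qb).injective (by
    rw [trace_eq_sum_embeddings Qb, map_zero]
    exact (univ_eq hK n2 fun φ => Multiplicative.ofAdd (φ w)).trans
      (show σ w + τ w = 0 by rw [hσ, hτ, add_neg_cancel]))
  have hn : Algebra.norm ℚ β = B := (algebraMap ℚ Qb).injective (by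
    rw [Algebra.norm_eq_prod_embeddings, univ_eq hK n2, map_intCast]
    exact e3)
  have hH : Hk β (Real.exp 𝓛) := by
    refine ⟨⟨Polynomial.X ^ 2 + Polynomial.C A * Polynomial.X + Polynomial.C B, by monicity!, ?_⟩,
      fun φ => ?_⟩
    · refine σ.injective ?_
      rw [Polynomial.eval₂_add, Polynomial.eval₂_add, Polynomial.eval₂_mul, Polynomial.eval₂_X_pow,
        Polynomial.eval₂_C, Polynomial.eval₂_C, Polynomial.eval₂_X]
      simp only [eq_intCast, map_add, map_mul, map_pow, map_intCast, map_zero]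
      linear_combination σ β * e2 - e3
    · have a1 : ‖φ w‖ = √|(c : ℝ)| := by
        rw [← Complex.norm_intCast, ← map_intCast φ, ← hw, map_pow, norm_pow, Real.sqrt_sq (norm_nonneg _)]
      have a2 := norm_sub_le (φ w) A
      rw [Complex.norm_intCast] at a2
      rw [e0, norm_div, Complex.norm_two]
      linarith [norm_nonneg (φ w - A)]
  have K1 : (finrank ℚ K).Prime := hK ▸ Nat.prime_two
  have K3 : finrank ℚ K ≤ 3 := by omega
  refine ⟨discr K, discr_ne_zero K, fun p hp => ?_, fun hb => ?_, fun p hp hb => ?_⟩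
  · have h1 := val_le hK c0 hw ht hp
    rcases eq_or_ne p 2 with rfl | h2
    · have : padicValInt 2 4 = 2 := padicValNat.prime_pow (p := 2) 2
      omega
    · have : padicValInt p 4 = 0 := padicValInt.eq_zero_of_not_dvd fun h => h2
        ((Nat.prime_dvd_prime_iff_eq hp Nat.prime_two).1
          (hp.dvd_of_dvd_pow (n := 2) (by exact_mod_cast h)))
      omega
  · have a1 := hI emb K K1 K3 σ τ β B S 𝓛 n1 hn hS hBS h3 hH hb
    have a2 := hI emb K K1 K3 τ σ β B S 𝓛 n1.symm hn hS hBS h3 hH hb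
    rw [norm_sub_rev] at a2
    rw [← map_sub, e1, Real.exp_neg, inv_mul_le_iff₀ (Real.exp_pos _)] at a1 a2
    have a3 : |(c : ℝ)| = ‖emb s‖ ^ 2 := by
      rw [← norm_pow, ← map_pow, hs2, map_intCast, Complex.norm_intCast]
    have a4 : |(A : ℝ)| ≤ ‖emb (σ β)‖ + ‖emb (τ β)‖ := by
      rw [← Complex.norm_intCast, ← norm_neg, ← map_intCast emb, ← map_neg, ← e2, map_add]
      exact norm_add_le _ _
    have a5 : |(B : ℝ)| = ‖emb (σ β)‖ * ‖emb (τ β)‖ := by
      rw [← Complex.norm_intCast, ← map_intCast emb, ← e3, map_mul, norm_mul]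
    have a6 : (0 : ℝ) < |(B : ℝ)| := abs_pos.2 (by exact_mod_cast hB)
    have a7 : (0 : ℝ) < |(c : ℝ)| := abs_pos.2 (by exact_mod_cast c0)
    change Real.log _ ≤ Real.log _ + 2 * bd S (dk K) 1 𝓛 + 2
    generalize bd S (dk K) 1 𝓛 = b at a1 a2
    rw [Real.log_le_iff_le_exp (a6.trans_le (le_max_right _ _)), Real.exp_add, Real.exp_add,
      Real.exp_log a7, two_mul, Real.exp_add, a3]
    have a8 : 4 ≤ Real.exp 2 := by
      have := Real.add_one_le_exp 1
      rw [show Real.exp 2 = Real.exp 1 * Real.exp 1 by rw [← Real.exp_add]; norm_num]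
      nlinarith
    have a9 := mul_le_mul a2 a1 (norm_nonneg _) (by positivity)
    have a10 : (A : ℝ) ^ 2 ≤ (2 * (Real.exp b * ‖emb s‖)) ^ 2 := by
      rw [← sq_abs]
      exact pow_le_pow_left₀ (abs_nonneg _) (by linarith) 2
    have a11 := mul_le_mul_of_nonneg_left a8 (sq_nonneg (Real.exp b * ‖emb s‖))
    exact max_le (by nlinarith) (by nlinarith)
  · have := Fact.mk hp
    let ι : Qb →+* ℂ_[p] := (IsAlgClosed.lift : Qb →ₐ[ℚ] ℂ_[p]).toRingHom
    have c1 : (c : ℚ_[p]) ≠ 0 := by exact_mod_cast c0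
    have rho : ∀ σ τ : K →+* Qb, τ w = -σ w → Rho (ι.comp σ) (ι.comp τ) (c : ℚ_[p]) := fun σ τ h =>
      ⟨c1, ι (σ w), by rw [← map_pow, ← map_pow, hw]; simp, fun γ => by
        obtain ⟨u, v, rfl⟩ := hsp γ
        exact ⟨u, v, by simp, by simp [h, sub_eq_add_neg]⟩⟩
    have nm : ∀ n : ℤ, ‖ι n‖ = ‖(n : ℚ_[p])‖ := fun n => by
      rw [map_intCast, ← norm_algebraMap' ℂ_[p] (n : ℚ_[p]), map_intCast]
    rw [← Padic.valuation_intCast] at hb ⊢
    have a1 := hP p ι K K1 K3 σ τ c (rho σ τ (by rw [hσ, hτ])) β B S 𝓛 n1 hn hS hBS h3 hH hb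
    have a2 := hP p ι K K1 K3 τ σ c (rho τ σ (by rw [hσ, hτ, neg_neg])) β B S 𝓛 n1.symm hn hS hBS h3 hH hb
    rw [norm_sub_rev] at a2
    rw [← map_sub, e1, Real.exp_neg, inv_mul_le_iff₀ (Real.exp_pos _)] at a1 a2
    have p0 : (0 : ℝ) < p := by exact_mod_cast hp.pos
    have a3 : (p : ℝ) ^ (-(c : ℚ_[p]).valuation) = ‖ι s‖ ^ 2 := by
      rw [← norm_pow, ← map_pow, hs2, nm, Padic.norm_eq_zpow_neg_valuation c1]
    have a4 : ‖(A : ℚ_[p])‖ ≤ max ‖ι (σ β)‖ ‖ι (τ β)‖ := by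
      rw [← nm, ← norm_neg, ← map_neg, ← e2, map_add]
      exact IsUltrametricDist.norm_add_le_max _ _
    have a5 : ‖(B : ℚ_[p])‖ = ‖ι (σ β)‖ * ‖ι (τ β)‖ := by rw [← nm, ← e3, map_mul, norm_mul]
    change _ ≤ _ + 2 * bd S (dk K) _ 𝓛
    generalize bd S (dk K) _ 𝓛 = b at a1 a2
    have a6 : (p : ℝ) ^ (-8 : ℤ) ≤ (Real.exp b * ‖ι s‖) ^ 2 := by
      rcases not_and_or.1 (hm p hp) with h | h <;> rw [← Padic.norm_int_le_pow_iff_dvd, not_le] at h
      · rw [show (-8 : ℤ) = -(4 : ℕ) * (2 : ℕ) by norm_num, zpow_mul, zpow_natCast]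
        exact pow_le_pow_left₀ (by positivity) (h.le.trans (a4.trans (max_le a2 a1))) 2
      · exact h.le.trans (a5.trans_le (sq (Real.exp b * ‖ι s‖) ▸
          mul_le_mul a2 a1 (norm_nonneg _) (by positivity)))
    have a7 := Real.log_le_log (by positivity) a6
    rw [mul_pow, ← a3, Real.log_mul (by positivity) (by positivity), Real.log_zpow, Real.log_zpow,
      Real.log_pow, Real.log_exp, Padic.valuation_intCast] at a7
    push_cast at a7
    linarith

section red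
open RED

/-- The common final step. -/
lemma redCore {bd : Bd} (hC : ∀ S D 𝓛, 1 ≤ 𝓛 → 0 ≤ bd S D 1 𝓛) (hQ : Quad bd)
    {a b e A B c : ℤ} (hD : disc a b ≠ 0)
    (he : e ^ 3 - a * e - b = 0) (hc : c = A ^ 2 - 4 * B) (hs : ¬IsSquare c) (hB : B ∣ 16 * disc a b)
    (hc' : c ∣ 16 * disc a b)
    (hm : ∀ p : ℕ, p.Prime → ¬((p : ℤ) ^ 4 ∣ A ∧ (p : ℤ) ^ 8 ∣ B))
    (h1 : |A| ≤ 6 * |e|) (h2 : |c| ≤ 16 * |a| + 48 * e ^ 2)
    (h3 : e ^ 2 ≤ A ^ 2) (h4 : |a| ≤ A ^ 2 + |B|)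
    (h5 : ∀ p : ℕ, p.Prime → Even (padicValInt p c) → Even (padicValInt p (disc a b))) : Loc bd a b := by
  have hM := one_le_M hD
  obtain ⟨ha, hb⟩ := abs_le_M a b
  obtain ⟨r1, r2⟩ := root_sq he
  set M := max (|(a : ℝ)| ^ 3) ((b : ℝ) ^ 2) with hMdef
  have hL : LL a b = Real.log M + 6 := rfl
  have hlog : 0 ≤ Real.log M := Real.log_nonneg hM
  have hB0 : B ≠ 0 := by
    rintro rfl
    exact hD (by simpa using hB)
  have hc0 : c ≠ 0 := by
    rintro rfl
    exact hs IsSquare.zero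
  have r1' : (e : ℝ) ^ 2 ≤ |(a : ℝ)| + |(b : ℝ)| := by exact_mod_cast r1
  have r2' : |(e : ℝ)| ≤ (e : ℝ) ^ 2 := by exact_mod_cast r2
  have h1' : |(A : ℝ)| ≤ 6 * |(e : ℝ)| := by exact_mod_cast h1
  have h2' : |(c : ℝ)| ≤ 16 * |(a : ℝ)| + 48 * (e : ℝ) ^ 2 := by exact_mod_cast h2
  have h3' : (e : ℝ) ^ 2 ≤ (A : ℝ) ^ 2 := by exact_mod_cast h3
  have h4' : |(a : ℝ)| ≤ (A : ℝ) ^ 2 + |(B : ℝ)| := by exact_mod_cast h4
  have hsz : |(A : ℝ)| + √|(c : ℝ)| ≤ Real.exp (LL a b) := by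
    rw [hL, Real.exp_add, Real.exp_log (by linarith)]
    have e6 : (124 : ℝ) ≤ Real.exp 6 := by
      have h := Real.add_one_le_exp (1 / 2 : ℝ)
      have h' : Real.exp 6 = Real.exp (1 / 2) ^ 12 := by
        rw [← Real.exp_nat_mul]
        norm_num
      rw [h']
      calc (124 : ℝ) ≤ (1 / 2 + 1) ^ 12 := by norm_num
        _ ≤ _ := by gcongr
    have := sqrt_abs_le c
    nlinarith
  obtain ⟨d, hd0, hd1, hd2, hd3⟩ := hQ A B c (SS a b) (LL a b) hc hs hB0 hm (SS_prime a b) (sub_SS hD hB)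
    (by rw [hL]; linarith) hsz
  refine ⟨d, c, hd0, hc0, ?_, sub_SS hD hc', ?_, ?_⟩
  · intro p hp
    obtain ⟨k1, k2⟩ := hd1 p hp
    refine ⟨by omega, fun h5' => ?_⟩
    have k3 := k2 (by omega)
    refine ⟨fun hpd => ?_, by split_ifs <;> omega, fun _ hev => ⟨fun hpd => ?_, fun _ => h5 p hp hev⟩⟩
    · have k4 := (val_pos_iff hp hd0).1 hpd
      have k5 : (p : ℤ) ∣ c := (val_pos_iff hp hc0).2 (by omega)
      refine dvd_of_SS h5' (sub_SS hD hc' ?_)
      exact Nat.mem_primeFactors.2 ⟨hp, Int.natCast_dvd.1 k5, by simpa using hc0⟩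
    · have k4 := (val_pos_iff hp hd0).1 hpd
      have := Nat.even_iff.1 hev
      omega
  · intro hb'
    have k := hd2 hb'
    have b0 := hC (SS a b) |(d : ℝ)| (LL a b) (by rw [hL]; linarith)
    have c1 : 0 ≤ Real.log |(c : ℝ)| := Real.log_nonneg (by exact_mod_cast Int.one_le_abs hc0)
    set T := max ((A : ℝ) ^ 2) |(B : ℝ)| with hT
    have t1 : (A : ℝ) ^ 2 ≤ T := le_max_left _ _
    have t2 : |(B : ℝ)| ≤ T := le_max_right _ _
    have t3 : (1 : ℝ) ≤ T := le_trans (by exact_mod_cast Int.one_le_abs hB0) t2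
    have hMT : M ≤ 9 * T ^ 3 := by
      refine max_le ?_ ?_
      · calc |(a : ℝ)| ^ 3 ≤ (2 * T) ^ 3 := by gcongr; linarith
          _ ≤ 9 * T ^ 3 := by nlinarith [pow_pos (show 0 < T by linarith) 3]
      · have hb2 : (b : ℝ) = e * (e ^ 2 - a) := by
          have : b = e * (e ^ 2 - a) := by linarith
          exact_mod_cast this
        have u1 : |(e : ℝ) ^ 2 - a| ≤ 3 * T := by
          refine (abs_sub _ _).trans ?_
          rw [abs_of_nonneg (sq_nonneg (e : ℝ))]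
          linarith
        calc (b : ℝ) ^ 2 = e ^ 2 * |(e : ℝ) ^ 2 - a| ^ 2 := by rw [hb2, sq_abs]; ring
          _ ≤ T * (3 * T) ^ 2 := by gcongr; linarith
          _ = 9 * T ^ 3 := by ring
    have hl : Real.log M ≤ Real.log 9 + 3 * Real.log T := by
      calc Real.log M ≤ Real.log (9 * T ^ 3) := Real.log_le_log (by linarith) hMT
        _ = _ := by
          rw [Real.log_mul (by norm_num) (by positivity), Real.log_pow]
          norm_num
    have l9 : Real.log 9 ≤ 8 := by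
      have := Real.log_le_sub_one_of_pos (show (0 : ℝ) < 9 by norm_num)
      linarith
    rw [hL] at k b0 ⊢
    linarith
  · intro p hp _ hb'
    have k := hd3 p hp hb'
    have := Real.log_natCast_nonneg p
    linarith

lemma redNonsq {bd : Bd} (hC : ∀ S D 𝓛, 1 ≤ 𝓛 → 0 ≤ bd S D 1 𝓛) (hQ : Quad bd)
    {a b e : ℤ} (hD : disc a b ≠ 0) (hm : MinP a b)
    (he : e ^ 3 - a * e - b = 0) (hs : ¬IsSquare (4 * a - 3 * e ^ 2)) : Loc bd a b := by
  have hd := disc_eq he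
  refine redCore hC hQ (A := 3 * e) (B := 3 * e ^ 2 - a) hD he (by ring) hs ?_ ?_ ?_ ?_ ?_ ?_ ?_ ?_
  · exact ⟨16 * (3 * e ^ 2 - a) * (4 * a - 3 * e ^ 2), by rw [hd]; ring⟩
  · exact ⟨16 * (3 * e ^ 2 - a) ^ 2, by rw [hd]; ring⟩
  · rintro p hp ⟨k1, k2⟩
    have k3 : (p : ℤ) ^ 3 ∣ e := dvd_six hp (by
      have := k1.mul_left 2
      rwa [show 2 * (3 * e) = 6 * e by ring] at this)
    have k4 : (p : ℤ) ^ 6 ∣ e ^ 2 := by
      have := pow_dvd_pow_of_dvd k3 2
      rwa [← pow_mul] at this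
    have k5 : (p : ℤ) ^ 6 ∣ a := by
      have k6 : (p : ℤ) ^ 6 ∣ 3 * e ^ 2 - a := (pow_dvd_pow _ (by norm_num)).trans k2
      have := (k4.mul_left 3).sub k6
      rwa [sub_sub_cancel] at this
    refine hm p hp ⟨(pow_dvd_pow _ (by norm_num)).trans k5, ?_⟩
    have : b = e * (e ^ 2 - a) := by linarith
    rw [this]
    exact (k4.sub k5).mul_left e
  · rw [abs_mul]
    have := abs_nonneg e
    norm_num
    linarith
  · refine (abs_sub _ _).trans ?_
    rw [abs_mul, abs_mul, abs_of_nonneg (sq_nonneg e)]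
    have := abs_nonneg a
    have := sq_nonneg e
    norm_num
    linarith
  · nlinarith [sq_nonneg e]
  · have h1 := le_abs_self (3 * e ^ 2 - a)
    have h2 := neg_abs_le (3 * e ^ 2 - a)
    have := sq_nonneg e
    rw [abs_le]
    constructor <;> nlinarith
  · intro p hp hev
    rw [hd, val_sq_mul hp (hd ▸ hD)]
    exact (even_two_mul _).add hev

lemma redSq {bd : Bd} (hC : ∀ S D 𝓛, 1 ≤ 𝓛 → 0 ≤ bd S D 1 𝓛) (hQ : Quad bd)
    {a b e s : ℤ} (hD : disc a b ≠ 0) (hm : MinP a b)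
    (he : e ^ 3 - a * e - b = 0) (hs : 4 * a - 3 * e ^ 2 = s ^ 2) (hneg : 3 * e ^ 2 - a < 0) : Loc bd a b := by
  have hd := disc_eq he
  refine redCore hC hQ (A := -6 * e) (B := 4 * a - 3 * e ^ 2) (c := 16 * (3 * e ^ 2 - a)) hD he (by ring)
    ?_ ?_ ?_ ?_ ?_ ?_ ?_ ?_ ?_
  · rintro ⟨r, hr⟩
    nlinarith [mul_self_nonneg r]
  · exact ⟨16 * (3 * e ^ 2 - a) ^ 2, by rw [hd]; ring⟩
  · exact ⟨(3 * e ^ 2 - a) * (4 * a - 3 * e ^ 2), by rw [hd]; ring⟩
  · rintro p hp ⟨k1, k2⟩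
    have k3 : (p : ℤ) ^ 3 ∣ e := dvd_six hp (by
      have := k1.neg_right
      rwa [show -(-6 * e) = 6 * e by ring] at this)
    have k4 : (p : ℤ) ^ 6 ∣ e ^ 2 := by
      have := pow_dvd_pow_of_dvd k3 2
      rwa [← pow_mul] at this
    have k5 : (p : ℤ) ^ 4 ∣ a := by
      have k6 : (p : ℤ) ^ 6 ∣ 4 * a - 3 * e ^ 2 := (pow_dvd_pow _ (by norm_num)).trans k2
      have := k6.add (k4.mul_left 3)
      rw [sub_add_cancel] at this
      exact dvd_four hp this
    refine hm p hp ⟨k5, ?_⟩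
    have : b = e * (e ^ 2 - a) := by linarith
    rw [this]
    have k7 : (p : ℤ) ^ 4 ∣ e ^ 2 - a := ((pow_dvd_pow _ (by norm_num)).trans k4).sub k5
    have k8 := mul_dvd_mul k3 k7
    rw [← pow_add] at k8
    exact (pow_dvd_pow _ (by norm_num)).trans k8
  · rw [abs_mul]
    norm_num
  · rw [abs_of_neg (by linarith)]
    have := le_abs_self a
    have := sq_nonneg e
    linarith
  · nlinarith [sq_nonneg e]
  · have h1 := le_abs_self (4 * a - 3 * e ^ 2)
    have := sq_nonneg e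
    rw [abs_of_nonneg (show 0 ≤ a by linarith)]
    nlinarith
  · intro p hp _
    have h1 : disc a b = ((3 * e ^ 2 - a) * s) ^ 2 * 1 := by rw [hd, hs]; ring
    rw [h1, val_sq_mul hp (h1 ▸ hD)]
    simp

end red

theorem red {bd : Bd} (hC : ∀ S D 𝓛, 1 ≤ 𝓛 → 0 ≤ bd S D 1 𝓛) (hQ : Quad bd) {a b e : ℤ}
    (hD : disc a b ≠ 0) (hm : MinP a b) (he : e ^ 3 - a * e - b = 0) : Loc bd a b := by
  by_cases hs : IsSquare (4 * a - 3 * e ^ 2)
  swap
  · exact redNonsq hC hQ hD hm he hs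
  obtain ⟨s, hs⟩ := hs
  have hpar : Even (s - e) := by
    have h1 : Even ((s - e) * (s + e)) := ⟨2 * (a - e ^ 2), by linarith⟩
    rcases Int.even_mul.1 h1 with h | h
    · exact h
    · have : s - e = s + e - 2 * e := by ring
      rw [this]
      exact h.sub (even_two_mul e)
  obtain ⟨t, ht⟩ := hpar
  have hs' : s = 2 * t + e := by linarith
  subst hs'
  have ha : a = t ^ 2 + t * e + e ^ 2 := by nlinarith
  have hb : b = e ^ 3 - a * e := by linarith
  have hd := RED.disc_eq he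
  by_cases n1 : 3 * e ^ 2 - a < 0
  · exact redSq hC hQ hD hm he (s := 2 * t + e) (by rw [ha]; ring) n1
  by_cases n2 : 3 * t ^ 2 - a < 0
  · exact redSq hC hQ hD hm (e := t) (by rw [hb, ha]; ring) (s := 2 * e + t) (by rw [ha]; ring) n2
  refine redSq hC hQ hD hm (e := -e - t) (by rw [hb, ha]; ring) (s := t - e) (by rw [ha]; ring) ?_
  by_contra n3
  have hp : (3 * e ^ 2 - a) * (3 * t ^ 2 - a) * (3 * (-e - t) ^ 2 - a) = -disc a b := by
    rw [hd, ha]; ring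
  have h0 : 0 ≤ (3 * e ^ 2 - a) * (3 * t ^ 2 - a) * (3 * (-e - t) ^ 2 - a) :=
    mul_nonneg (mul_nonneg (not_lt.1 n1) (not_lt.1 n2)) (not_lt.1 n3)
  have h1 : 0 ≤ disc a b := by
    rw [hd, hs]
    exact mul_nonneg (sq_nonneg _) (mul_self_nonneg _)
  exact hD (by linarith)

theorem ell : EllStmt := by
  intro bd hC lp li a b hD hm
  by_cases h : ∃ e : ℤ, e ^ 3 - a * e - b = 0
  · obtain ⟨e, he⟩ := h
    exact red hC (quad bd lp li) hD hm he
  · exact irr hC lp li hD hm fun e he => h ⟨e, he⟩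

end Pool.Agent.Szpiro98.V4
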