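import Pool.Agent.Lib.Szpiro98.Blue4

/-! Block NUMA4: numerical bound for the fourth-round local bound. -/

namespace Pool.Agent.Szpiro98.V4

open Finset Pool.Agent.Lib.MP_cafdd5_nt

namespace NumA

lemma fact_le (S : Finset ℕ) (hS : ∀ q ∈ S, 1 ≤ q) : S.card.factorial ≤ ∏ q ∈ S, q := by
  induction S using Finset.induction_on_max with
  | empty => simp
  | insert a s ha ih =>
    have hn : a ∉ s := fun h => lt_irrefl _ (ha a h)
    rw [card_insert_of_notMem hn, prod_insert hn, Nat.factorial_succ]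
    refine Nat.mul_le_mul ?_ (ih fun q hq => hS q (mem_insert_of_mem hq))
    have h1 : s ⊆ Ico 1 a := fun q hq => mem_Ico.2 ⟨hS q (mem_insert_of_mem hq), ha q hq⟩
    have h2 := card_le_card h1
    have h3 := hS a (mem_insert_self a s)
    rw [Nat.card_Ico] at h2
    omega

lemma pow_le {x y : ℝ} (hx : 0 ≤ x) {n : ℕ} (hy : (n.factorial : ℝ) ≤ Real.exp y) :
    x ^ n ≤ Real.exp (y + x) := by
  have h := Real.pow_div_factorial_le_exp x hx n
  rw [div_le_iff₀ (by positivity)] at h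
  rw [Real.exp_add, mul_comm]
  exact h.trans (mul_le_mul_of_nonneg_left hy (by positivity))

lemma min_le {y w θ : ℝ} (h0 : 0 ≤ θ) (h1 : θ ≤ 1) (h : y ≤ Real.exp w) : min 1 y ≤ Real.exp (θ * w) := by
  rcases le_total 0 w with hw | hw
  · exact (min_le_left _ _).trans (Real.one_le_exp (by positivity))
  · exact (min_le_right _ _).trans (h.trans (Real.exp_le_exp.2 (by nlinarith)))

lemma sv_le {C δ D κ M : ℝ} (hC : 0 < C) (δ0 : 0 < δ) (δ1 : δ ≤ 1) {S : Finset ℕ} {t : ℕ} (hS : S.card = t + 1)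
    (hD : 0 < D) (hκ : 1 ≤ κ) (hM : 1 ≤ M) (h1 : (t.factorial : ℝ) ≤ 6 * M) (h2 : (t : ℝ) ≤ 10 + 2 * Real.log M)
    (h3 : Real.log D ≤ 75 + Real.log M) :
    sv C δ S D κ ≤ Real.exp (Real.log C + 796 + 50 / δ + 89 * Real.log M - δ * Real.log κ / 2) := by
  have u0 := Real.log_nonneg hκ
  have z0 := Real.log_nonneg hM
  have eM : M = Real.exp (Real.log M) := (Real.exp_log (by linarith)).symm
  set u := Real.log κ with hu
  set z := Real.log M
  have t0 : (0 : ℝ) ≤ t := Nat.cast_nonneg t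
  have f1 : (((t + 2).factorial : ℕ) : ℝ) ≤ Real.exp (29 + 5 * z) := by
    have a1 : (t : ℝ) + 2 ≤ Real.exp (t + 2) := by linarith [Real.add_one_le_exp ((t : ℝ) + 2)]
    have a2 : (6 : ℝ) ≤ Real.exp 5 := by linarith [Real.add_one_le_exp (5 : ℝ)]
    calc (((t + 2).factorial : ℕ) : ℝ) = (t + 2) * ((t + 1) * t.factorial) := by
          rw [Nat.factorial_succ, Nat.factorial_succ]; push_cast; ring
      _ ≤ Real.exp (t + 2) * (Real.exp (t + 2) * (Real.exp 5 * Real.exp z)) := by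
          refine mul_le_mul a1 (mul_le_mul (by linarith) (h1.trans ?_) (by positivity) (by positivity))
            (by positivity) (by positivity)
          rw [← eM]
          exact mul_le_mul_of_nonneg_right a2 (by linarith)
      _ = Real.exp (t + 2 + (t + 2 + (5 + z))) := by simp only [Real.exp_add]
      _ ≤ _ := Real.exp_le_exp.2 (by linarith)
  have g1 := pow_le (x := (t : ℝ) + 2) (by positivity) f1
  have g2 := pow_le (x := 10 / δ) (by positivity) f1
  have g3 := pow_le (x := δ / 10 * (1 + u)) (by positivity) f1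
  have g4 : (((t : ℝ) + 2) * (1 + u)) ^ (t + 2) ≤ Real.exp (99 + 17 * z + 10 / δ + δ / 10 * (1 + u)) := by
    calc _ = ((t : ℝ) + 2) ^ (t + 2) * ((10 / δ) ^ (t + 2) * (δ / 10 * (1 + u)) ^ (t + 2)) := by
          rw [← mul_pow, ← mul_pow]
          congr 2
          field_simp
      _ ≤ Real.exp (29 + 5 * z + (t + 2)) *
          (Real.exp (29 + 5 * z + 10 / δ) * Real.exp (29 + 5 * z + δ / 10 * (1 + u))) := by gcongr
      _ ≤ _ := by
          rw [← Real.exp_add, ← Real.exp_add]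
          exact Real.exp_le_exp.2 (by linarith)
  have g5 : (((t : ℝ) + 2) * (1 + u)) ^ (5 * (t + 2)) ≤
      Real.exp (5 * (99 + 17 * z + 10 / δ + δ / 10 * (1 + u))) := by
    rw [mul_comm 5 (t + 2), pow_mul]
    refine (pow_le_pow_left₀ (by positivity) g4 5).trans (le_of_eq ?_)
    rw [← Real.exp_nat_mul]
    norm_num
  have g6 : D ^ 4 ≤ Real.exp (4 * (75 + z)) := by
    have : D ≤ Real.exp (75 + z) := (Real.log_le_iff_le_exp hD).1 h3
    refine (pow_le_pow_left₀ hD.le this 4).trans (le_of_eq ?_)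
    rw [← Real.exp_nat_mul]
    norm_num
  have e1 : ((S.card : ℝ) + 1) = t + 2 := by rw [hS]; push_cast; ring
  have e2 : S.card + 1 = t + 2 := by omega
  rw [sv, e1, e2, Real.rpow_def_of_pos (by linarith), ← hu, div_le_iff₀ (by positivity)]
  calc _ ≤ Real.exp (Real.log C) * Real.exp (4 * (75 + z)) *
        Real.exp (5 * (99 + 17 * z + 10 / δ + δ / 10 * (1 + u))) := by
        rw [Real.exp_log hC]
        gcongr
    _ ≤ _ := by
        rw [← Real.exp_add, ← Real.exp_add, ← Real.exp_add]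
        refine Real.exp_le_exp.2 ?_
        have : 5 * (10 / δ) = 50 / δ := by ring
        nlinarith

lemma key {γ u z A m : ℝ} (c0 : 0 < γ) (c1 : γ ≤ 1 / 8) (hu : 0 ≤ u) (hz : 0 ≤ z)
    (hm : m ≤ Real.exp (A + z / 8 - 2 * γ * u)) :
    u ^ 3 * Real.exp (-(z / 4)) * m ≤ Real.exp (5 + A) / γ ^ 3 * Real.exp (-(γ * (u + z))) := by
  have a2 : (((3 : ℕ).factorial : ℕ) : ℝ) ≤ Real.exp 5 := by
    have := Real.add_one_le_exp (5 : ℝ)
    norm_num [Nat.factorial] at this ⊢
    linarith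
  have g := pow_le (x := γ * u) (by positivity) a2
  have g1 : u ^ 3 ≤ Real.exp (5 + γ * u) / γ ^ 3 := by
    rw [le_div_iff₀ (by positivity), mul_comm, ← mul_pow]
    exact g
  calc _ ≤ u ^ 3 * Real.exp (-(z / 4)) * Real.exp (A + z / 8 - 2 * γ * u) := by gcongr
    _ ≤ Real.exp (5 + γ * u) / γ ^ 3 * Real.exp (-(z / 4)) * Real.exp (A + z / 8 - 2 * γ * u) := by gcongr
    _ = Real.exp (5 + γ * u + -(z / 4) + (A + z / 8 - 2 * γ * u)) / γ ^ 3 := by
      rw [Real.exp_add _ (A + z / 8 - 2 * γ * u), Real.exp_add _ (-(z / 4))]; ring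
    _ ≤ Real.exp (5 + A + -(γ * (u + z))) / γ ^ 3 := by
      refine div_le_div_of_nonneg_right (Real.exp_le_exp.2 ?_) (by positivity)
      nlinarith
    _ = _ := by rw [Real.exp_add (5 + A)]; ring

lemma min_nonneg {C : ℝ} (hC : 0 ≤ C) (δ : ℝ) (S : Finset ℕ) (D : ℝ) {κ : ℝ} (h : 1 ≤ κ) :
    0 ≤ min 1 (sv C δ S D κ) := by
  have := Real.log_nonneg h
  have : 0 ≤ κ := by linarith
  refine le_min zero_le_one ?_
  unfold sv
  positivity

end NumA

open NumA in
theorem numa : NumAStmt := by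
  intro C δ hC δ0 δ1
  obtain ⟨K, K1, hK⟩ := V2.NumA.easy hC
  have C0 : 0 ≤ C := by linarith
  set γ : ℝ := δ / 2848 with hγ
  have c0 : 0 < γ := by positivity
  have c1 : γ ≤ 1 / 8 := by rw [hγ]; linarith
  set A : ℝ := 1 / 712 * (Real.log C + 796 + 50 / δ) with hA
  have A0 : 0 ≤ A := by
    have := Real.log_nonneg (by linarith : 1 ≤ C)
    positivity
  have e8 : 1 ≤ Real.exp (5 + A) / γ ^ 3 := by
    rw [le_div_iff₀ (by positivity), one_mul]
    exact (pow_le_one₀ c0.le (by linarith)).trans (Real.one_le_exp (by linarith))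
  obtain ⟨E, hE⟩ : ∃ E, E = Real.exp (5 + A) / γ ^ 3 := ⟨_, rfl⟩
  rw [← hE] at e8
  have e9 : 1 ≤ C * E := one_le_mul_of_one_le_of_one_le (by linarith) e8
  refine ⟨γ, C * E * K, c0, by linarith, one_le_mul_of_one_le_of_one_le e9 K1, ?_⟩
  intro a b d e 𝓛 hD hd he h hS hL
  have hN : (1 : ℝ) ≤ cond a b := by exact_mod_cast GLUE.cond_pos a b
  have hd1 : (1 : ℝ) ≤ |(d : ℝ)| := by exact_mod_cast Int.one_le_abs hd
  have hdN := GLUE.d_le hD hd h
  have hR : ((∏ q ∈ SS a b, q : ℕ) : ℝ) ≤ 6 * (cond a b : ℝ) := by exact_mod_cast SumB.rad_le a b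
  have l0 : 0 ≤ Real.log 𝓛 ^ 3 := pow_nonneg (Real.log_nonneg (by linarith)) 3
  set N : ℝ := ((cond a b : ℕ) : ℝ) with hNd
  have K0 : 0 ≤ K := by linarith
  have N0 : 0 < N := by linarith
  have eN : N ^ (1 - γ) = N * Real.exp (-(γ * Real.log N)) := by
    rw [Real.rpow_def_of_pos N0]
    nth_rewrite 2 [← Real.exp_log N0]
    rw [← Real.exp_add]
    congr 1
    ring
  rw [eN]
  have small : ∀ κ : ℝ, 1 ≤ κ → κ ≤ 4 → bnd C δ (SS a b) |d| κ 𝓛 ≤
      C * E * K * (N * Real.exp (-(γ * Real.log N))) * Real.log 𝓛 ^ 3 := by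
    intro κ k1 k4
    have s0 := min_nonneg C0 δ (SS a b) |(d : ℝ)| k1
    have s1 : min 1 (sv C δ (SS a b) |(d : ℝ)| κ) ≤ 1 := min_le_left _ _
    have s2 : 0 ≤ κ * min 1 (sv C δ (SS a b) |(d : ℝ)| κ) := by positivity
    have s3 : κ * min 1 (sv C δ (SS a b) |(d : ℝ)| κ) ≤ 4 := by nlinarith
    have s4 : (κ * min 1 (sv C δ (SS a b) |(d : ℝ)| κ)) ^ 2 ≤ 16 := by nlinarith
    have s5 := mul_le_mul hdN s4 (by positivity) (by positivity)
    have g := hK (SS a b) N |(d : ℝ)| _ (fun q hq => (GLUE.SS_prime hq).one_lt.le) hR hN hd1 s2 hdN (by nlinarith)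
    unfold bnd Szpiro98.bnd
    refine mul_le_mul_of_nonneg_right (g.trans ?_) l0
    have y2 : Real.exp (-(Real.log N / 4)) ≤ Real.exp (-(γ * Real.log N)) := by
      refine Real.exp_le_exp.2 ?_
      nlinarith [Real.log_nonneg hN]
    calc K * N * Real.exp (-(Real.log N / 4)) ≤ K * N * Real.exp (-(γ * Real.log N)) := by gcongr
      _ = 1 * K * (N * Real.exp (-(γ * Real.log N))) := by ring
      _ ≤ _ := by gcongr
  refine ⟨small 1 le_rfl (by norm_num), fun p hp hv => ?_⟩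
  unfold kap
  split_ifs with ho
  · exact small 1 le_rfl (by norm_num)
  have p1 : (1 : ℝ) ≤ p := by exact_mod_cast hp.one_lt.le
  by_cases hp5 : 5 ≤ p
  swap
  · exact small p p1 (by exact_mod_cast (by omega : p ≤ 4))
  have hev : Even (padicValInt p e) := by
    rw [Int.odd_coe_nat, Nat.not_odd_iff_even] at ho
    exact ho
  obtain ⟨-, -, h3⟩ := (h p hp).2 hp5
  obtain ⟨hpd, -⟩ := h3 hv hev
  have : Fact p.Prime := ⟨hp⟩
  have hpc : p ∣ e.natAbs := dvd_of_one_le_padicValNat (le_trans (by norm_num) hv.le)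
  have hm : p ∈ SS a b := hS (Nat.mem_primeFactors.2 ⟨hp, hpc, Int.natAbs_ne_zero.2 he⟩)
  have hpD : (p : ℤ) ∣ disc a b := by
    have hm := hm
    unfold SS at hm
    rcases Finset.mem_insert.1 hm with k | k
    · omega
    rcases Finset.mem_insert.1 k with k | k
    · omega
    exact Int.natCast_dvd.2 (Nat.dvd_of_mem_primeFactors k)
  have hj : p ^ 1 ∣ cond a b :=
    (pow_dvd_pow p (by split_ifs <;> norm_num)).trans (GLUE.pow_dvd_cond hD hp hp5 hpD)
  have h1 := GLUE.dp_le hD hd h hp hpd hj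
  rw [pow_one] at h1 hj
  have pN : (p : ℝ) ≤ N := by rw [hNd]; exact_mod_cast Nat.le_of_dvd (GLUE.cond_pos a b) hj
  have p0 : (0 : ℝ) < p := by linarith
  obtain ⟨M, hM⟩ : ∃ M : ℝ, N = p * M := ⟨N / p, by field_simp⟩
  have M1 : 1 ≤ M := le_of_mul_le_mul_left (by linarith) p0
  have dM : |(d : ℝ)| ≤ 6 ^ 15 * M := le_of_mul_le_mul_left (by rw [← hNd, hM] at h1; linarith) p0
  have rM : ((∏ q ∈ (SS a b).erase p, q : ℕ) : ℝ) ≤ 6 * M := by
    refine le_of_mul_le_mul_left ?_ p0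
    rw [← mul_prod_erase _ _ hm, Nat.cast_mul, hM] at hR
    linarith
  have q1 : ∀ q ∈ (SS a b).erase p, 1 ≤ q := fun q hq => (GLUE.SS_prime (mem_of_mem_erase hq)).one_lt.le
  have g := hK ((SS a b).erase p) M |(d : ℝ)| 1 q1 rM M1 hd1 zero_le_one dM (by nlinarith)
  have cM := V2.NumA.card_le (fun q hq => GLUE.SS_prime (mem_of_mem_erase hq)) M1 rM
  have fM : ((((SS a b).erase p).card.factorial : ℕ) : ℝ) ≤ 6 * M :=
    le_trans (by exact_mod_cast fact_le _ q1) rM
  have lD : Real.log |(d : ℝ)| ≤ 75 + Real.log M := by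
    have k1 := Real.log_le_log (by linarith) dM
    rw [Real.log_mul (by positivity) (by linarith), Real.log_pow] at k1
    have k2 : Real.log 6 ≤ 6 - 1 := Real.log_le_sub_one_of_pos (by norm_num)
    push_cast at k1
    linarith
  have u0 := Real.log_nonneg p1
  have g1 := min_le (θ := 1 / 712) (by norm_num) (by norm_num)
    (sv_le (C := C) (by linarith) δ0 δ1 (card_erase_add_one hm).symm (by linarith) p1 M1 fM cM lD)
  have g2 := key (m := min 1 (sv C δ (SS a b) |(d : ℝ)| p)) (u := Real.log p) (z := Real.log M) (A := A)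
    c0 c1 u0 (Real.log_nonneg M1) (g1.trans (le_of_eq (by rw [hA, hγ]; congr 1; ring)))
  rw [← Real.log_mul p0.ne' (by linarith), ← hM, ← hE] at g2
  have s0 := min_nonneg C0 δ (SS a b) |(d : ℝ)| p1
  unfold bnd Szpiro98.bnd
  refine mul_le_mul_of_nonneg_right ?_ l0
  rw [← mul_prod_erase _ _ hm]
  set m := min 1 (sv C δ (SS a b) |(d : ℝ)| p)
  calc _ = C * (∏ q ∈ (SS a b).erase p, C * Real.log q ^ 3) * (√|(d : ℝ)| * (1 + Real.log |(d : ℝ)|) ^ 4) * 1 *
        (C * p * Real.log p ^ 3 * m) := by ring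
    _ ≤ K * M * Real.exp (-(Real.log M / 4)) * (C * p * Real.log p ^ 3 * m) :=
      mul_le_mul_of_nonneg_right g (by positivity)
    _ = C * K * N * (Real.log p ^ 3 * Real.exp (-(Real.log M / 4)) * m) := by
      rw [hM]; ring
    _ ≤ C * K * N * (E * Real.exp (-(γ * Real.log N))) :=
      mul_le_mul_of_nonneg_left g2 (by positivity)
    _ = _ := by ring

end Pool.Agent.Szpiro98.V4
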