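import Pool.Agent.Lib.Szpiro98.Blue4

/-! Block NUMB4: from the local bounds to the global inequality, fourth round. -/

namespace Pool.Agent.Szpiro98.V4

open Finset Pool.Agent.Lib.MP_cafdd5_nt

namespace NumB4

lemma E_ge {N η : ℝ} (hN : 1 ≤ N) (hη : η ≤ 1 / 4) : 2 + Real.log N ≤ 4 * N ^ (1 - η) := by
  have h1 := Real.log_le_rpow_div (by linarith : 0 ≤ N) (by norm_num : (0 : ℝ) < 1 / 2)
  have h2 : N ^ (1 / 2 : ℝ) ≤ N ^ (1 - η) := Real.rpow_le_rpow_of_exponent_le hN (by linarith)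
  have h3 : 1 ≤ N ^ (1 - η) := Real.one_le_rpow hN (by linarith)
  linarith

lemma final {L N η C : ℝ} (hL : 1 ≤ L) (hN : 1 ≤ N) (η0 : 0 < η) (hC : 1 ≤ C)
    (h : L ≤ C * (1 + Real.log N) * N ^ (1 - η) * Real.log L ^ 3) :
    L ≤ C * (2 * Real.log (216 * C) + 4) ^ 3 * (1 + 4 / (η / 2)) ^ 4 * N ^ (1 - η / 2) := by
  have h0 := Real.log_nonneg hN
  have N0 : 0 < N := by linarith
  have hK : 0 ≤ Real.log (216 * C) := Real.log_nonneg (by linarith)
  have h3 := V2.NumB.boot hL h (by positivity)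
  have h4 : Real.log (216 * (C * (1 + Real.log N) * N ^ (1 - η))) ≤
      Real.log (216 * C) + 2 * Real.log N := by
    rw [← mul_assoc, ← mul_assoc, Real.log_mul (by positivity) (by positivity),
      Real.log_mul (by positivity) (by positivity), Real.log_rpow N0]
    have := Real.log_le_sub_one_of_pos (by positivity : 0 < 1 + Real.log N)
    have := mul_nonneg η0.le h0
    linarith
  have h5 : Real.log L ≤ (2 * Real.log (216 * C) + 4) * (1 + Real.log N) := by nlinarith
  have h6 := pow_le_pow_left₀ (Real.log_nonneg hL) h5 3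
  have h7 := SumB.one_add_log_le hN (half_pos η0)
  have e : N ^ (1 - η / 2) = N ^ (η / 2) * N ^ (1 - η) := by
    rw [← Real.rpow_add N0]; congr 1; ring
  calc L ≤ _ := h
    _ ≤ C * (1 + Real.log N) * N ^ (1 - η) *
        ((2 * Real.log (216 * C) + 4) * (1 + Real.log N)) ^ 3 :=
      mul_le_mul_of_nonneg_left h6 (by positivity)
    _ = C * (2 * Real.log (216 * C) + 4) ^ 3 * N ^ (1 - η) * (1 + Real.log N) ^ 4 := by ring
    _ ≤ C * (2 * Real.log (216 * C) + 4) ^ 3 * N ^ (1 - η) *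
        ((1 + 4 / (η / 2)) ^ 4 * N ^ (η / 2)) :=
      mul_le_mul_of_nonneg_left h7 (by positivity)
    _ = _ := by rw [e]; ring

end NumB4

open NumB4 in
theorem numb (h : NumAStmt) : NumBStmt := by
  intro C δ hC δ0 δ1
  obtain ⟨η, C', c0, c1, hC', g⟩ := h C δ hC δ0 δ1
  refine ⟨η / 2, 3072 * C' * (2 * Real.log (216 * (3072 * C')) + 4) ^ 3 * (1 + 4 / (η / 2)) ^ 4,
    by positivity, fun a b hD hL => ?_⟩
  obtain ⟨d, e, hd, he, hok, hS, hI, hP⟩ := hL
  have hN : (1 : ℝ) ≤ cond a b := by exact_mod_cast GLUE.cond_pos a b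
  have hL6 := GLUE.LL_ge a b
  obtain ⟨b1, b2⟩ := g a b d e (LL a b) hD hd he hok hS (by linarith)
  refine final (by linarith) hN c0 (by linarith) ?_
  have hE := E_ge hN c1
  have l0 := Real.log_nonneg hN
  have l3 : 1 ≤ Real.log (LL a b) ^ 3 := one_le_pow₀ (GLUE.logLL_ge a b)
  have hcard := V2.NumB.card_le a b
  obtain ⟨E, hE'⟩ : ∃ E, E = (cond a b : ℝ) ^ (1 - η) := ⟨_, rfl⟩
  rw [← hE'] at b1 b2 hE ⊢
  have E0 : 0 ≤ E := by linarith
  obtain ⟨U, hU⟩ : ∃ U : ℝ, U = 4 * (C' * E * Real.log (LL a b) ^ 3) := ⟨_, rfl⟩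
  have u0 : E ≤ C' * E * Real.log (LL a b) ^ 3 :=
    (le_mul_of_one_le_left E0 hC').trans (le_mul_of_one_le_right (by positivity) l3)
  have u1 : 2 + Real.log (cond a b) ≤ U := by linarith
  have u2 : C' * E * Real.log (LL a b) ^ 3 ≤ U := by linarith
  have hc0 : (0 : ℝ) ≤ (SS a b).card := Nat.cast_nonneg _
  have key : LL a b ≤ ((SS a b).card + 1) * (192 * U) := by
    replace b1 := b1.trans u2
    replace b2 := fun p hp hv => (b2 p hp hv).trans u2
    by_cases hLU : LL a b ≤ U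
    · nlinarith
    push Not at hLU
    have c1 := hI (b1.trans_lt hLU)
    have c2 : ∀ p ∈ e.natAbs.primeFactors, (padicValInt p e : ℝ) * Real.log p ≤ 32 * U := by
      intro p hp
      have hpp := Nat.prime_of_mem_primeFactors hp
      have l0 := Real.log_natCast_nonneg p
      have l1 : Real.log p ≤ U := (V2.NumB.log_le (hS hp)).trans u1
      by_cases hv : 30 < padicValInt p e
      · have := hP p hpp hv ((b2 p hpp hv).trans_lt hLU)
        linarith [b2 p hpp hv]
      · have h30 : (padicValInt p e : ℝ) ≤ 30 := by exact_mod_cast not_lt.1 hv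
        nlinarith
    have c3 : Real.log |(e : ℝ)| ≤ (SS a b).card * (32 * U) := by
      rw [GLUE.log_abs_eq]
      calc _ ≤ (e.natAbs.primeFactors.card : ℝ) * (32 * U) := by
            have := Finset.sum_le_card_nsmul _ _ _ c2
            rwa [nsmul_eq_mul] at this
        _ ≤ _ := mul_le_mul_of_nonneg_right (by exact_mod_cast Finset.card_le_card hS) (by linarith)
    nlinarith
  refine key.trans ((mul_le_mul_of_nonneg_right hcard (by linarith)).trans_eq ?_)
  rw [hU]
  ring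

end Pool.Agent.Szpiro98.V4
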