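import Pool.Agent.Lib.Szpiro98.Core4
import Pool.Agent.Lib.Szpiro98.Rank4
import Pool.Agent.Lib.Szpiro98.Ovl4
import Pool.Agent.Lib.Szpiro98.Coord4
import Pool.Agent.Lib.Szpiro98.Mid4
import Pool.Agent.Lib.Szpiro98.Ksup4
import Pool.Agent.Lib.Szpiro98.Dsc4
import Pool.Agent.Lib.Szpiro98.LocT4
import Pool.Agent.Lib.Szpiro98.Ell4
import Pool.Agent.Lib.Szpiro98.NumA4
import Pool.Agent.Lib.Szpiro98.NumB4
import Pool.Agent.Lib.Tower.Main
import Pool.Agent.Lib.Tower36.Aux4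

namespace Pool.Agent.Szpiro98.V4

open Pool.Agent.Lib.MP_cafdd5_nt

theorem aux' : AuxStmt := Pool.Agent.Tower36.aux4 Pool.Agent.Lib.Tower.tower2

theorem mid' : MidStmt := mid (coord core lvb) rank (ovl lvb)

theorem loct' : LocTStmt := loct aux' mid' ksup dsc

theorem main : ∃ η C : ℝ, 0 < η ∧ ∀ a b : ℤ, disc a b ≠ 0 → IsMinimalShort a b →
    Real.log (max (|(a : ℝ)| ^ 3) ((b : ℝ) ^ 2)) ≤ C * (cond a b : ℝ) ^ (1 - η) :=
  fin loct' ell (numb numa)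

end Pool.Agent.Szpiro98.V4
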