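import Pool.Agent.Lib.Szpiro98.Blue5

/-! Block QR5: the quadratic problem, split or not, and the two 2-isogenous reductions, for any bound. -/

namespace Pool.Agent.Szpiro98.V5

open Finset Pool.Agent.Lib.MP_cafdd5_nt V4

theorem quad3 : Quad3Stmt := by
  intro bd hQ hL A B c S 𝓛 hc c0 hB hm hS hBS h3 hA
  by_cases hs : IsSquare c
  swap
  · exact hQ A B c S 𝓛 hc hs hB hm hS hBS h3 hA
  obtain ⟨s, hs⟩ := hs
  have s0 : s ≠ 0 := fun h => c0 (by rw [hs, h, mul_zero])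
  have hev : Even (s - A) := by
    have h1 : Even ((s - A) * (s + A)) := ⟨-2 * B, by linear_combination hc - hs⟩
    rcases Int.even_mul.1 h1 with h | ⟨k, h⟩
    · exact h
    · exact ⟨k - A, by linear_combination h⟩
  obtain ⟨u, hu⟩ := hev
  obtain ⟨w, hw⟩ : ∃ w : ℤ, w = u - s := ⟨_, rfl⟩
  have e1 : u - w = s := by rw [hw]; ring
  have e2 : u + w = -A := by rw [hw]; linear_combination -hu
  have e3 : u * w = B := by
    have : 4 * (u * w) = 4 * B := by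
      have a : A = -(u + w) := by rw [e2]; ring
      rw [a, hs, ← e1] at hc
      linear_combination -hc
    linarith
  have u0 : u ≠ 0 := fun h => hB (by rw [← e3, h, zero_mul])
  have w0 : w ≠ 0 := fun h => hB (by rw [← e3, h, mul_zero])
  have uw : u ≠ w := fun h => s0 (by rw [← e1, h, sub_self])
  have r1 : (u : ℝ) - w = s := by exact_mod_cast e1
  have r2 : (u : ℝ) + w = -A := by exact_mod_cast e2
  have r3 : (u : ℝ) * w = B := by exact_mod_cast e3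
  have r4 : (c : ℝ) = s * s := by exact_mod_cast hs
  have hsq : √|(c : ℝ)| = |(s : ℝ)| := by
    rw [r4, abs_mul_self, Real.sqrt_mul_self_eq_abs]
  rw [hsq] at hA
  have bu : |(u : ℝ)| ≤ Real.exp 𝓛 := by
    have : (u : ℝ) = (-A + s) / 2 := by linarith
    have h := abs_add_le (-(A : ℝ)) s
    rw [abs_neg] at h
    rw [this, abs_div, abs_two]
    linarith [abs_nonneg (-(A : ℝ) + s)]
  have bw : |(w : ℝ)| ≤ Real.exp 𝓛 := by
    have : (w : ℝ) = (-A - s) / 2 := by linarith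
    have h := abs_sub (-(A : ℝ)) s
    rw [abs_neg] at h
    rw [this, abs_div, abs_two]
    linarith [abs_nonneg (-(A : ℝ) - s)]
  obtain ⟨a1, p1⟩ := hL u w S 𝓛 u0 w0 uw hS (e3 ▸ hBS) h3 bu bw
  obtain ⟨a2, p2⟩ := hL w u S 𝓛 w0 u0 uw.symm hS (by rw [mul_comm, e3]; exact hBS) h3 bw bu
  refine ⟨1, one_ne_zero, fun p _ => by simp, fun hb => ?_, fun p hp hb => ?_⟩
  · rw [Int.cast_one, abs_one] at hb ⊢
    have a1 := a1 hb
    have a2 := a2 hb
    rw [abs_sub_comm] at a2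
    rw [r1, Real.exp_neg, inv_mul_le_iff₀ (Real.exp_pos _)] at a1 a2
    have a3 : |(c : ℝ)| = |(s : ℝ)| ^ 2 := by rw [r4, abs_mul, sq]
    have a4 : |(A : ℝ)| ≤ |(u : ℝ)| + |(w : ℝ)| := by
      rw [← abs_neg, ← r2]
      exact abs_add_le _ _
    have a5 : |(B : ℝ)| = |(u : ℝ)| * |(w : ℝ)| := by rw [← r3, abs_mul]
    have a6 : (0 : ℝ) < |(B : ℝ)| := abs_pos.2 (by exact_mod_cast hB)
    have a7 : (0 : ℝ) < |(c : ℝ)| := abs_pos.2 (by exact_mod_cast c0)
    generalize bd S 1 1 𝓛 = b at a1 a2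
    rw [Real.log_le_iff_le_exp (a6.trans_le (le_max_right _ _)), Real.exp_add, Real.exp_add,
      Real.exp_log a7, two_mul, Real.exp_add, a3]
    have a8 : 4 ≤ Real.exp 2 := by
      have := Real.add_one_le_exp 1
      rw [show Real.exp 2 = Real.exp 1 * Real.exp 1 by rw [← Real.exp_add]; norm_num]
      nlinarith
    have a9 := mul_le_mul a2 a1 (abs_nonneg _) (by positivity)
    have a10 : (A : ℝ) ^ 2 ≤ (2 * (Real.exp b * |(s : ℝ)|)) ^ 2 := by
      rw [← sq_abs]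
      exact pow_le_pow_left₀ (abs_nonneg _) (by linarith) 2
    have a11 := mul_le_mul_of_nonneg_left a8 (sq_nonneg (Real.exp b * |(s : ℝ)|))
    exact max_le (by nlinarith) (by nlinarith)
  · have := Fact.mk hp
    have hk : kap p (padicValInt p c) = p := by
      rw [kap, if_neg]
      rw [hs, padicValInt.mul s0 s0, Int.not_odd_iff_even]
      exact ⟨padicValInt p s, by push_cast; ring⟩
    rw [Int.cast_one, abs_one, hk] at hb ⊢
    have a1 := p1 p hb
    have a2 := p2 p hb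
    have q1 : (u : ℚ_[p]) - w = s := by exact_mod_cast e1
    have q2 : (u : ℚ_[p]) + w = -A := by exact_mod_cast e2
    have q3 : (u : ℚ_[p]) * w = B := by exact_mod_cast e3
    have q4 : (c : ℚ_[p]) = s * s := by exact_mod_cast hs
    have c1 : (c : ℚ_[p]) ≠ 0 := by exact_mod_cast c0
    rw [norm_sub_rev] at a2
    rw [q1, Real.exp_neg, inv_mul_le_iff₀ (Real.exp_pos _)] at a1 a2
    have p0 : (0 : ℝ) < p := by exact_mod_cast hp.pos
    have a3 : (p : ℝ) ^ (-(c : ℚ_[p]).valuation) = ‖(s : ℚ_[p])‖ ^ 2 := by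
      rw [← Padic.norm_eq_zpow_neg_valuation c1, q4, norm_mul, sq]
    have a4 : ‖(A : ℚ_[p])‖ ≤ max ‖(u : ℚ_[p])‖ ‖(w : ℚ_[p])‖ := by
      rw [← norm_neg, ← q2]
      exact IsUltrametricDist.norm_add_le_max _ _
    have a5 : ‖(B : ℚ_[p])‖ = ‖(u : ℚ_[p])‖ * ‖(w : ℚ_[p])‖ := by rw [← q3, norm_mul]
    generalize bd S 1 p 𝓛 = b at a1 a2
    have a6 : (p : ℝ) ^ (-8 : ℤ) ≤ (Real.exp b * ‖(s : ℚ_[p])‖) ^ 2 := by
      rcases not_and_or.1 (hm p hp) with h | h <;> rw [← Padic.norm_int_le_pow_iff_dvd, not_le] at h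
      · rw [show (-8 : ℤ) = -(4 : ℕ) * (2 : ℕ) by norm_num, zpow_mul, zpow_natCast]
        exact pow_le_pow_left₀ (by positivity) (h.le.trans (a4.trans (max_le a2 a1))) 2
      · exact h.le.trans (a5.trans_le (sq (Real.exp b * ‖(s : ℚ_[p])‖) ▸
          mul_le_mul a2 a1 (norm_nonneg _) (by positivity)))
    have s1 : (s : ℚ_[p]) ≠ 0 := by exact_mod_cast s0
    have a7 := Real.log_le_log (by positivity) a6
    rw [mul_pow, ← a3, Real.log_mul (by positivity) (by positivity), Real.log_zpow, Real.log_zpow,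
      Real.log_pow, Real.log_exp, Padic.valuation_intCast] at a7
    push_cast at a7
    linarith

namespace QR5

open Pool.Agent.Szpiro98.RED

/-- The common final step. -/
lemma core {bd : Bd} (hC : ∀ S D 𝓛, 1 ≤ 𝓛 → 0 ≤ bd S D 1 𝓛) (hQ : Quad3 bd)
    {a b e A B c : ℤ} (hD : disc a b ≠ 0)
    (he : e ^ 3 - a * e - b = 0) (hc : c = A ^ 2 - 4 * B) (hB : B ∣ 16 * disc a b)
    (hc' : c ∣ 16 * disc a b)
    (hm : ∀ p : ℕ, p.Prime → ¬((p : ℤ) ^ 4 ∣ A ∧ (p : ℤ) ^ 8 ∣ B))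
    (h1 : |A| ≤ 6 * |e|) (h2 : |c| ≤ 16 * |a| + 48 * e ^ 2)
    (h3 : e ^ 2 ≤ A ^ 2) (h4 : |a| ≤ A ^ 2 + |B|) :
    ∃ d : ℤ, Loc2 bd a b d c := by
  have hM := one_le_M hD
  obtain ⟨ha, hb⟩ := abs_le_M a b
  obtain ⟨r1, r2⟩ := root_sq he
  set M := max (|(a : ℝ)| ^ 3) ((b : ℝ) ^ 2) with hMdef
  have hL : LL a b = Real.log M + 6 := rfl
  have hlog : 0 ≤ Real.log M := Real.log_nonneg hM
  have hB0 : B ≠ 0 := by
    rintro rfl
    exact hD (by simpa using hB)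
  have hc0 : c ≠ 0 := by
    intro k
    rw [k] at hc'
    exact hD (by simpa using hc')
  have r1' : (e : ℝ) ^ 2 ≤ |(a : ℝ)| + |(b : ℝ)| := by exact_mod_cast r1
  have r2' : |(e : ℝ)| ≤ (e : ℝ) ^ 2 := by exact_mod_cast r2
  have h1' : |(A : ℝ)| ≤ 6 * |(e : ℝ)| := by exact_mod_cast h1
  have h2' : |(c : ℝ)| ≤ 16 * |(a : ℝ)| + 48 * (e : ℝ) ^ 2 := by exact_mod_cast h2
  have h3' : (e : ℝ) ^ 2 ≤ (A : ℝ) ^ 2 := by exact_mod_cast h3
  have h4' : |(a : ℝ)| ≤ (A : ℝ) ^ 2 + |(B : ℝ)| := by exact_mod_cast h4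
  have hsz : |(A : ℝ)| + √|(c : ℝ)| ≤ Real.exp (LL a b) := by
    rw [hL, Real.exp_add, Real.exp_log (by linarith)]
    have e6 : (124 : ℝ) ≤ Real.exp 6 := by
      have h := Real.add_one_le_exp (1 / 2 : ℝ)
      have h' : Real.exp 6 = Real.exp (1 / 2) ^ 12 := by
        rw [← Real.exp_nat_mul]
        norm_num
      rw [h']
      calc (124 : ℝ) ≤ (1 / 2 + 1) ^ 12 := by norm_num
        _ ≤ _ := by gcongr
    have := sqrt_abs_le c
    nlinarith
  obtain ⟨d, hd0, hd1, hd2, hd3⟩ := hQ A B c (SS a b) (LL a b) hc hc0 hB0 hm (SS_prime a b) (sub_SS hD hB)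
    (by rw [hL]; linarith) hsz
  refine ⟨d, hd0, hc0, hd1, sub_SS hD hc', ?_, ?_⟩
  · intro hb'
    have k := hd2 hb'
    have b0 := hC (SS a b) |(d : ℝ)| (LL a b) (by rw [hL]; linarith)
    have c1 : 0 ≤ Real.log |(c : ℝ)| := Real.log_nonneg (by exact_mod_cast Int.one_le_abs hc0)
    set T := max ((A : ℝ) ^ 2) |(B : ℝ)| with hT
    have t1 : (A : ℝ) ^ 2 ≤ T := le_max_left _ _
    have t2 : |(B : ℝ)| ≤ T := le_max_right _ _
    have t3 : (1 : ℝ) ≤ T := le_trans (by exact_mod_cast Int.one_le_abs hB0) t2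
    have hMT : M ≤ 9 * T ^ 3 := by
      refine max_le ?_ ?_
      · calc |(a : ℝ)| ^ 3 ≤ (2 * T) ^ 3 := by gcongr; linarith
          _ ≤ 9 * T ^ 3 := by nlinarith [pow_pos (show 0 < T by linarith) 3]
      · have hb2 : (b : ℝ) = e * (e ^ 2 - a) := by
          have : b = e * (e ^ 2 - a) := by linarith
          exact_mod_cast this
        have u1 : |(e : ℝ) ^ 2 - a| ≤ 3 * T := by
          refine (abs_sub _ _).trans ?_
          rw [abs_of_nonneg (sq_nonneg (e : ℝ))]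
          linarith
        calc (b : ℝ) ^ 2 = e ^ 2 * |(e : ℝ) ^ 2 - a| ^ 2 := by rw [hb2, sq_abs]; ring
          _ ≤ T * (3 * T) ^ 2 := by gcongr; linarith
          _ = 9 * T ^ 3 := by ring
    have hl : Real.log M ≤ Real.log 9 + 3 * Real.log T := by
      calc Real.log M ≤ Real.log (9 * T ^ 3) := Real.log_le_log (by linarith) hMT
        _ = _ := by
          rw [Real.log_mul (by norm_num) (by positivity), Real.log_pow]
          norm_num
    have l9 : Real.log 9 ≤ 8 := by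
      have := Real.log_le_sub_one_of_pos (show (0 : ℝ) < 9 by norm_num)
      linarith
    rw [hL] at k b0 ⊢
    linarith
  · intro p hp hb'
    have k := hd3 p hp hb'
    have := Real.log_natCast_nonneg p
    linarith

lemma opt1 {bd : Bd} (hC : ∀ S D 𝓛, 1 ≤ 𝓛 → 0 ≤ bd S D 1 𝓛) (hQ : Quad3 bd)
    {a b e : ℤ} (hD : disc a b ≠ 0) (hm : MinP a b)
    (he : e ^ 3 - a * e - b = 0) : ∃ d : ℤ, Loc2 bd a b d (4 * a - 3 * e ^ 2) := by
  have hd := disc_eq he
  refine core hC hQ (A := 3 * e) (B := 3 * e ^ 2 - a) (c := 4 * a - 3 * e ^ 2) hD he (by ring) ?_ ?_ ?_ ?_ ?_ ?_ ?_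
  · exact ⟨16 * (3 * e ^ 2 - a) * (4 * a - 3 * e ^ 2), by rw [hd]; ring⟩
  · exact ⟨16 * (3 * e ^ 2 - a) ^ 2, by rw [hd]; ring⟩
  · rintro p hp ⟨k1, k2⟩
    have k3 : (p : ℤ) ^ 3 ∣ e := dvd_six hp (by
      have := k1.mul_left 2
      rwa [show 2 * (3 * e) = 6 * e by ring] at this)
    have k4 : (p : ℤ) ^ 6 ∣ e ^ 2 := by
      have := pow_dvd_pow_of_dvd k3 2
      rwa [← pow_mul] at this
    have k5 : (p : ℤ) ^ 6 ∣ a := by
      have k6 : (p : ℤ) ^ 6 ∣ 3 * e ^ 2 - a := (pow_dvd_pow _ (by norm_num)).trans k2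
      have := (k4.mul_left 3).sub k6
      rwa [sub_sub_cancel] at this
    refine hm p hp ⟨(pow_dvd_pow _ (by norm_num)).trans k5, ?_⟩
    have : b = e * (e ^ 2 - a) := by linarith
    rw [this]
    exact (k4.sub k5).mul_left e
  · rw [abs_mul]
    have := abs_nonneg e
    norm_num
    linarith
  · refine (abs_sub _ _).trans ?_
    rw [abs_mul, abs_mul, abs_of_nonneg (sq_nonneg e)]
    have := abs_nonneg a
    have := sq_nonneg e
    norm_num
    linarith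
  · nlinarith [sq_nonneg e]
  · have h1 := le_abs_self (3 * e ^ 2 - a)
    have h2 := neg_abs_le (3 * e ^ 2 - a)
    have := sq_nonneg e
    rw [abs_le]
    constructor <;> nlinarith

lemma opt2 {bd : Bd} (hC : ∀ S D 𝓛, 1 ≤ 𝓛 → 0 ≤ bd S D 1 𝓛) (hQ : Quad3 bd)
    {a b e : ℤ} (hD : disc a b ≠ 0) (hm : MinP a b)
    (he : e ^ 3 - a * e - b = 0) : ∃ d : ℤ, Loc2 bd a b d (16 * (3 * e ^ 2 - a)) := by
  have hd := disc_eq he
  refine core hC hQ (A := -6 * e) (B := 4 * a - 3 * e ^ 2) (c := 16 * (3 * e ^ 2 - a)) hD he (by ring)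
    ?_ ?_ ?_ ?_ ?_ ?_ ?_
  · exact ⟨16 * (3 * e ^ 2 - a) ^ 2, by rw [hd]; ring⟩
  · exact ⟨(3 * e ^ 2 - a) * (4 * a - 3 * e ^ 2), by rw [hd]; ring⟩
  · rintro p hp ⟨k1, k2⟩
    have k3 : (p : ℤ) ^ 3 ∣ e := dvd_six hp (by
      have := k1.neg_right
      rwa [show -(-6 * e) = 6 * e by ring] at this)
    have k4 : (p : ℤ) ^ 6 ∣ e ^ 2 := by
      have := pow_dvd_pow_of_dvd k3 2
      rwa [← pow_mul] at this
    have k5 : (p : ℤ) ^ 4 ∣ a := by
      have k6 : (p : ℤ) ^ 6 ∣ 4 * a - 3 * e ^ 2 := (pow_dvd_pow _ (by norm_num)).trans k2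
      have := k6.add (k4.mul_left 3)
      rw [sub_add_cancel] at this
      exact dvd_four hp this
    refine hm p hp ⟨k5, ?_⟩
    have : b = e * (e ^ 2 - a) := by linarith
    rw [this]
    have k7 : (p : ℤ) ^ 4 ∣ e ^ 2 - a := ((pow_dvd_pow _ (by norm_num)).trans k4).sub k5
    have k8 := mul_dvd_mul k3 k7
    rw [← pow_add] at k8
    exact (pow_dvd_pow _ (by norm_num)).trans k8
  · rw [abs_mul]
    norm_num
  · have h1 := le_abs_self a
    have h2 := neg_abs_le a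
    have := sq_nonneg e
    rw [abs_le]
    constructor <;> linarith
  · nlinarith [sq_nonneg e]
  · have h1 := le_abs_self (4 * a - 3 * e ^ 2)
    have h2 := neg_abs_le (4 * a - 3 * e ^ 2)
    have h3 := abs_nonneg (4 * a - 3 * e ^ 2)
    have := sq_nonneg e
    rw [abs_le]
    constructor <;> nlinarith

end QR5

theorem red : RedStmt := by
  intro bd hC hQ a b e hD hm he
  obtain ⟨d1, h1⟩ := QR5.opt1 hC hQ hD hm he
  obtain ⟨d2, h2⟩ := QR5.opt2 hC hQ hD hm he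
  exact ⟨d1, d2, h1, h2⟩

end Pool.Agent.Szpiro98.V5
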