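import Pool.Agent.Lib.Szpiro98.Blue5

/-! The supply of rational `S`-units. -/

namespace Pool.Agent.Szpiro98.V5

open Finset Module V4

lemma qsup_inj {S : Finset ℕ} (hS : ∀ q ∈ S, q.Prime) {k k' : S → ℕ}
    (h : ∏ q : S, (q : ℕ) ^ k q = ∏ q : S, (q : ℕ) ^ k' q) : k = k' := by
  classical
  have key : ∀ (k : S → ℕ) (p : S), (∏ q : S, (q : ℕ) ^ k q).factorization p = k p := by
    intro k p
    rw [Nat.factorization_prod fun (q : S) _ => pow_ne_zero _ (hS q q.2).ne_zero, Finsupp.finsetSum_apply,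
      Finset.sum_eq_single p]
    · rw [Nat.factorization_pow, Finsupp.smul_apply, (hS p p.2).factorization_self, smul_eq_mul, mul_one]
    · intro q _ hq
      rw [(hS q q.2).factorization_pow, Finsupp.single_eq_of_ne]
      exact fun e => hq (Subtype.ext e.symm)
    · simp
  funext p
  rw [← key k p, h, key k' p]

lemma qsup_mr {S : Finset ℕ} (hS : ∀ q ∈ S, q.Prime) :
    MR {x | ∃ k : ℕ → ℤ, x = ∏ q ∈ S, (q : Qb) ^ k q} S.card := by
  classical
  intro x hx
  choose k hk using hx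
  have nd : ¬LinearIndependent ℤ fun (j : Fin (S.card + 1)) (q : S) => k j q := fun h => by
    have := h.fintype_card_le_finrank
    simp at this
  rw [Fintype.not_linearIndependent_iff] at nd
  obtain ⟨a, ha, j, hj⟩ := nd
  refine ⟨a, fun e => hj (by rw [e]; rfl), ?_⟩
  have q0 : ∀ q ∈ S, (q : Qb) ≠ 0 := fun q hq => Nat.cast_ne_zero.2 (hS q hq).ne_zero
  have e1 : ∀ j, x j ^ a j = ∏ q ∈ S, (q : Qb) ^ (a j * k j q) := fun j => by
    rw [hk j, ← prod_zpow]
    exact prod_congr rfl fun q _ => by rw [← zpow_mul, mul_comm]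
  simp_rw [e1]
  rw [prod_comm]
  refine prod_eq_one fun q hq => ?_
  have e2 : ∑ j, a j * k j q = 0 := by
    have := congrFun ha ⟨q, hq⟩
    simpa [Finset.sum_apply] using this
  have e3 : ∀ T : Finset (Fin (S.card + 1)), ∏ j ∈ T, (q : Qb) ^ (a j * k j q) = (q : Qb) ^ ∑ j ∈ T, a j * k j q := by
    intro T
    induction T using Finset.induction_on with
    | empty => simp
    | insert i T hi ih => rw [prod_insert hi, sum_insert hi, ih, zpow_add₀ (q0 q hq)]
  rw [e3, e2, zpow_zero]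

theorem qsup : QsupStmt := by
  classical
  intro S hS
  have q0 : ∀ q ∈ S, (q : Qb) ≠ 0 := fun q hq => Nat.cast_ne_zero.2 (hS q hq).ne_zero
  have lp : ∀ q ∈ S, 0 < Real.log q := fun q hq => Real.log_pos (by exact_mod_cast (hS q hq).one_lt)
  refine ⟨?_, ⟨0, by simp⟩, qsup_mr hS, fun H hH => ?_⟩
  · rintro x ⟨k, rfl⟩
    exact ⟨prod_mem fun q _ => zpow_mem (natCast_mem _ q) _, prod_ne_zero_iff.2 fun q hq => zpow_ne_zero _ (q0 q hq)⟩
  set n : S → ℕ := fun q => ⌊H / (S.card * Real.log q)⌋₊ with hn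
  set B : Finset (S → ℕ) := Fintype.piFinset fun q => range (n q + 1) with hB
  set f : (S → ℕ) → Qb := fun k => ((∏ q : S, (q : ℕ) ^ k q : ℕ) : Qb) with hf
  have finj : Function.Injective f := fun k k' h => qsup_inj hS (Nat.cast_injective h)
  refine ⟨B.image f, ?_, ?_, ?_⟩
  · rw [card_image_of_injective _ finj, hB, Fintype.card_piFinset]
    simp only [card_range]
    have e1 : H ^ S.card = ∏ _q : S, H := by simp
    have e2 : (S.card : ℝ) ^ S.card = ∏ _q : S, (S.card : ℝ) := by simp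
    rw [e1, e2, ← prod_coe_sort S, Nat.cast_prod, ← prod_mul_distrib, ← prod_mul_distrib]
    refine prod_le_prod (fun _ _ => hH) fun q _ => ?_
    have s0 : (0 : ℝ) < S.card := by exact_mod_cast card_pos.2 ⟨q.1, q.2⟩
    have := Nat.lt_floor_add_one (H / (S.card * Real.log q))
    rw [div_lt_iff₀ (mul_pos s0 (lp q q.2))] at this
    push_cast
    exact this.le
  · intro z hz
    obtain ⟨k, hk, rfl⟩ := mem_image.1 hz
    refine ⟨natCast_mem _ _, Nat.cast_ne_zero.2 (prod_ne_zero_iff.2 fun q _ => pow_ne_zero _ (hS q q.2).ne_zero), ?_⟩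
    have h1 := Hs.int ((∏ q : S, (q : ℕ) ^ k q : ℕ) : ℤ)
    rw [Int.cast_natCast, Int.cast_natCast, Nat.abs_cast] at h1
    refine h1.mono ?_
    have h2 : ∀ q : S, ((q : ℕ) : ℝ) ^ k q ≤ Real.exp (H / S.card) := fun q => by
      have s0 : (0 : ℝ) < S.card := by exact_mod_cast card_pos.2 ⟨q.1, q.2⟩
      have qp : (0 : ℝ) < (q : ℕ) := by exact_mod_cast (hS q q.2).pos
      have h3 : k q ≤ n q := Nat.lt_succ_iff.1 (mem_range.1 (Fintype.mem_piFinset.1 hk q))
      have h4 : (k q : ℝ) ≤ H / (S.card * Real.log q) :=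
        (Nat.cast_le.2 h3).trans (Nat.floor_le (div_nonneg hH (mul_pos s0 (lp q q.2)).le))
      rw [le_div_iff₀ (mul_pos s0 (lp q q.2))] at h4
      rw [← Real.exp_log (pow_pos qp _), Real.log_pow, Real.exp_le_exp, le_div_iff₀ s0]
      linarith
    push_cast
    refine (prod_le_prod (fun _ _ => by positivity) fun q _ => h2 q).trans ?_
    rw [prod_const, ← Real.exp_nat_mul, Real.exp_le_exp, card_univ, Fintype.card_coe]
    rcases Nat.eq_zero_or_pos S.card with h | h
    · rw [h]; simpa using hH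
    · have s0 : (0 : ℝ) < S.card := by exact_mod_cast h
      rw [mul_div_cancel₀ _ s0.ne']
  · intro z hz z' hz'
    obtain ⟨k, -, rfl⟩ := mem_image.1 hz
    obtain ⟨k', -, rfl⟩ := mem_image.1 hz'
    refine ⟨fun q => if h : q ∈ S then (k ⟨q, h⟩ : ℤ) - k' ⟨q, h⟩ else 0, ?_⟩
    simp only [hf]
    push_cast
    rw [← prod_div_distrib, ← prod_coe_sort S]
    refine prod_congr rfl fun q _ => ?_
    rw [dif_pos q.2, zpow_sub₀ (q0 q q.2), zpow_natCast, zpow_natCast]

end Pool.Agent.Szpiro98.V5
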