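import Pool.Agent.Lib.Szpiro98.Alg
import Pool.Agent.Lib.Szpiro98.Cond

/-! Statements of the blocks. Each block proves one `...Stmt` from the statements it depends on. -/

namespace Pool.Agent.Szpiro98

open Finset Module NumberField IsDedekindDomain NormedSpace Pool.Agent.Lib.MP_cafdd5_nt

section nf
variable {K : Type} [Field K] [NumberField K]

abbrev HOS (K : Type) [Field K] [NumberField K] := HeightOneSpectrum (𝓞 K)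

noncomputable def wt (v : HOS K) : ℝ := 2 * Real.log (Ideal.absNorm v.asIdeal)

/-- `S`-unit. -/
def SU (S : Finset (HOS K)) (γ : K) : Prop := γ ≠ 0 ∧ ∀ v ∉ S, v.valuation K γ = 1

/-- All orders and all archimedean logarithms of `γ` are at most `B`. -/
def Sz (γ : K) (B : ℝ) : Prop :=
  (∀ v : HOS K, |((WithZero.log (v.valuation K γ) : ℤ) : ℝ)| ≤ B) ∧ ∀ w : InfinitePlace K, |Real.log (w γ)| ≤ B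

/-- Algebraic integer of house at most `M`. -/
def Hk (γ : K) (M : ℝ) : Prop := IsIntegral ℤ γ ∧ ∀ φ : K →+* ℂ, ‖φ γ‖ ≤ M

/-- Number of infinite places minus one. -/
noncomputable def rk (K : Type) [Field K] [NumberField K] : ℕ := Fintype.card (InfinitePlace K) - 1

noncomputable def dk (K : Type) [Field K] [NumberField K] : ℝ := |(discr K : ℝ)|

lemma Hk.hs {γ : K} {M : ℝ} (h : Hk γ M) (σ : K →+* Qb) : Hs (σ γ) M :=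
  ⟨h.1.map σ.toIntAlgHom, fun φ => h.2 (φ.comp σ)⟩

/-- Two different embeddings of a field of prime degree agree only on the rationals. -/
lemma eq_rat (hK : (finrank ℚ K).Prime) {E : Type} [Field E] [CharZero E] {σ τ : K →+* E} (h : σ ≠ τ) {x : K}
    (e : σ x = τ x) : ∃ r : ℚ, x = r := by
  have := IntermediateField.isSimpleOrder_of_finrank_prime ℚ K hK
  let T : IntermediateField ℚ K := (RingHom.eqLocusField σ τ).toIntermediateField fun r => by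
    simp [RingHom.mem_eqLocusField]
  rcases eq_bot_or_eq_top T with k | k
  · obtain ⟨r, hr⟩ := IntermediateField.mem_bot.1 (k ▸ (show x ∈ T from e))
    exact ⟨r, hr.symm⟩
  · exact absurd (RingHom.ext fun y => (show y ∈ T from k ▸ IntermediateField.mem_top)) h

end nf

/-! ### Linear forms in logarithms -/

noncomputable def om (N : ℕ) : ℝ := Real.exp (-(2000 * N))

noncomputable def cb (N A0 q J : ℕ) : ℝ :=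
  4 ^ N * A0 * q ^ J * (2001 * N + 3 * Real.log (24 * (4 ^ N * A0 * q ^ J)))

def CoreStmt : Prop :=
  ∀ (F : Type) [NormedField F] [CharZero F] (q N : ℕ) (W : ℝ → ℝ) (Dom : AddSubgroup F), q.Prime → q ≤ 3 →
    An F q (om N) W Dom → ∀ ι : Qb →+* F, (∀ θ M, 1 ≤ M → Hs θ M → ‖ι θ‖ ≤ M) →
    ∀ (L : IntermediateField ℚ Qb) [FiniteDimensional ℚ L], finrank ℚ L ≤ 18 → (∀ ζ : Qb, ζ ^ q = 1 → ζ ∈ L) →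
    ∀ (m : ℕ) (κ : Type) (I : Finset κ) (μ : κ → Fin (m + 1) → ℤ) (b : Fin (m + 1) → ℤ) (c : Fin (m + 1) → F)
      (z : κ → Qb) (X : ℝ) (J A0 : ℕ), m + 1 ≤ N → b ≠ 0 → (∀ k, |(b k : ℝ)| ≤ X) →
      (∀ i ∈ I, ∀ k, |(μ i k : ℝ)| ≤ X) → 3 * Real.log (2 * X ^ 2) ≤ A0 →
      (∀ i ∈ I, z i ∈ L ∧ z i ≠ 0 ∧ Hs (z i) (Real.exp (N * q ^ J))) →
      Set.InjOn (fun i => ∑ k, c k * μ i k) I →
      (∀ i ∈ I, ∀ j ∈ I, ι (z i) = ι (z j) * exp (∑ k, c k * μ i k - ∑ k, c k * μ j k) ∧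
        ‖∑ k, c k * μ i k - ∑ k, c k * μ j k‖ ≤ W (N * q ^ J)) →
      72 * A0 * Real.exp (6 * N) * (2 * q ^ J) ^ m ≤ I.card →
      Real.exp (-cb N A0 q J) ≤ ‖∑ k, c k * b k‖

def LatStmt : Prop :=
  ∀ (n : ℕ) (V : Type) [NormedAddCommGroup V] [NormedSpace ℝ V] [FiniteDimensional ℝ V], finrank ℝ V ≤ n →
    ∀ (G : Type) [AddCommGroup G] (φ : G →+ V) (δ : ℝ), 0 < δ → (∀ x, ‖φ x‖ < δ → φ x = 0) →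
    ∃ y : Fin n → G, ∀ x, ∃ a : Fin n → ℤ, φ x = ∑ k, a k • φ (y k) ∧
      ∀ k, |(a k : ℝ)| * δ ≤ Real.exp (3 * n ^ 2) * ‖φ x‖

def CntStmt : Prop :=
  ∀ (K : Type) [Field K] [NumberField K], finrank ℚ K ≤ 3 → ∀ Y : ℝ, 1 ≤ Y → ∀ T : Finset (Ideal (𝓞 K)),
    (∀ I ∈ T, I ≠ ⊥ ∧ (Ideal.absNorm I : ℝ) ≤ Y) → (T.card : ℝ) ≤ Y * (1 + Real.log Y) ^ 2

def FamStmt : Prop :=
  ∀ (K : Type) [Field K] [NumberField K], finrank ℚ K ≤ 3 → ∀ (S : Finset (HOS K)) (H : ℝ),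
    Real.log (9 * √(dk K)) ≤ H → ∃ (Γ : Finset K) (M : ℕ), 0 < M ∧
      H ^ (S.card + rk K) ≤ Γ.card * ((∏ v ∈ S, wt v) * (9 * √(dk K)) * (1 + Real.log (9 * √(dk K))) ^ 4) ∧
      (∀ γ ∈ Γ, γ ≠ 0 ∧ Hk γ (Real.exp ((S.card + 1) * H)) ∧ Hk (M / γ) (Real.exp ((S.card + 4) * H))) ∧
      ∀ γ ∈ Γ, ∀ γ' ∈ Γ, SU S (γ / γ') ∧ Sz (γ / γ') ((S.card + 4) * H) ∧ γ + γ' ≠ 0

def SunStmt : Prop :=
  ∀ (K : Type) [Field K] [NumberField K], finrank ℚ K ≤ 3 → ∀ (β : K) (n : ℤ) (S : Finset ℕ) (𝓛 : ℝ) (P : HOS K),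
    β ≠ 0 → Algebra.norm ℚ β = n → (∀ q ∈ S, q.Prime) → n.natAbs.primeFactors ⊆ S → 1 ≤ 𝓛 →
    Hk β (Real.exp 𝓛) → ∃ (S' : Finset (HOS K)) (r : ℚ), P ∉ S' ∧ S'.card ≤ 3 * S.card ∧
      ∏ v ∈ S', wt v ≤ ∏ q ∈ S, (6 * Real.log q) ^ 3 ∧ r ≠ 0 ∧ SU S' (β ^ 6 / r) ∧ Sz (β ^ 6 / r) (200 * 𝓛) ∧
      ∀ x : ℚ, SU S' (x : K) → x = 1 ∨ x = -1

/-- The data shared by the archimedean and the `p`-adic argument. -/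
structure Setup (F : Type) [NormedField F] (K : Type) [Field K] [NumberField K] where
  q : ℕ
  N : ℕ
  e : ℕ
  W : ℝ → ℝ
  Dom : AddSubgroup F
  D' : AddSubgroup F
  ι : Qb →+* F
  σ : K →+* Qb
  τ : K →+* Qb
  S : Finset (HOS K)
  ψ : F →+ ℝ
  hq : q.Prime
  q3 : q ≤ 3
  an : An F q (om N) W Dom
  le : D' ≤ Dom
  hι : ∀ θ M, 1 ≤ M → Hs θ M → ‖ι θ‖ ≤ M
  hK : (finrank ℚ K).Prime
  K3 : finrank ℚ K ≤ 3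
  ne : σ ≠ τ
  hS : ∀ x : ℚ, SU S (x : K) → x = 1 ∨ x = -1
  hd : ∀ t ∈ D', (e ≠ 0 → |ψ t| ≤ Real.exp (-100)) → |Real.log ‖exp t‖| ≤ 6 * Real.exp (-100) →
    ‖t‖ ≤ 7 * Real.exp (-100)
  hN : N = S.card + rk K + e + 1

namespace Setup
variable {F : Type} [NormedField F] {K : Type} [Field K] [NumberField K] (s : Setup F K)

/-- `t` is a logarithm of `σ γ / τ γ`. -/
def Lg (γ : K) (t : F) : Prop := exp t * s.ι (s.τ γ) = s.ι (s.σ γ)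

/-- A family of `S`-units can be refined, at cost `κ`, to a family with close logarithms. -/
def Ref (κ : ℝ) : Prop :=
  ∀ (J : ℕ) (Γ : Finset K), κ ≤ s.q ^ J →
    (∀ γ ∈ Γ, ∀ γ' ∈ Γ, SU s.S (γ / γ') ∧ Sz (γ / γ') (s.N * s.q ^ J) ∧ (s.σ (γ / γ') = s.τ (γ / γ') → γ = γ')) →
    ∃ (I : Finset (K × ℕ)) (t : K × ℕ → F), Γ.card * ((s.q : ℝ) ^ J / 5) ^ s.e ≤ I.card * κ ∧ Set.InjOn t I ∧
      (∀ i ∈ I, i.1 ∈ Γ ∧ t i ∈ s.D') ∧ ∀ i ∈ I, ∀ k ∈ I, |s.ψ (t i - t k)| ≤ s.N * s.q ^ J ∧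
        s.Lg (i.1 / k.1) (t i - t k) ∧ ‖t i - t k‖ ≤ s.W (s.N * s.q ^ J)

end Setup

def CoordStmt : Prop :=
  ∀ (F : Type) [NormedField F] [CharZero F] (K : Type) [Field K] [NumberField K] (s : Setup F K)
    (κ : Type) (I : Finset κ) (γ : κ → K) (t : κ → F) (M J A0 : ℕ) (B : ℝ) (β : K) (tb : F), 0 < M → 1 ≤ B →
    (∀ i ∈ I, γ i ≠ 0 ∧ t i ∈ s.D' ∧ Hs (s.σ (γ i) * s.τ (M / γ i)) (Real.exp (s.N * s.q ^ J))) →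
    (∀ i ∈ I, ∀ k ∈ I, SU s.S (γ i / γ k) ∧ Sz (γ i / γ k) B ∧ |s.ψ (t i - t k)| ≤ B ∧
      s.Lg (γ i / γ k) (t i - t k) ∧ ‖t i - t k‖ ≤ s.W (s.N * s.q ^ J)) →
    Set.InjOn t I → 72 * A0 * Real.exp (6 * s.N) * (2 * s.q ^ J) ^ (s.N - 1) ≤ I.card * (2 * s.q ^ J) →
    3 * Real.log (2 * (Real.exp (3 * s.N ^ 2 + 100) * B) ^ 2) ≤ A0 →
    SU s.S β → Sz β B → |s.ψ tb| ≤ B → tb ∈ s.D' → s.Lg β tb → tb ≠ 0 →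
    Real.exp (-cb s.N A0 s.q J) ≤ ‖tb‖

noncomputable def mb (C : ℝ) (N : ℕ) (R D κ 𝓛 : ℝ) : ℝ :=
  C ^ N * R * (√D * (1 + Real.log D) ^ 4) * κ * Real.log 𝓛 ^ 3

def MidStmt : Prop :=
  ∃ C : ℝ, 1 ≤ C ∧ ∀ (F : Type) [NormedField F] [CharZero F] (K : Type) [Field K] [NumberField K] (s : Setup F K)
    (κ 𝓛 : ℝ) (β : K) (tb : F), 1 ≤ κ → s.Ref κ → 3 ≤ 𝓛 → SU s.S β → Sz β (200 * 𝓛) → |s.ψ tb| ≤ 200 * 𝓛 →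
    tb ∈ s.D' → s.Lg β tb → tb ≠ 0 → mb C s.N (∏ v ∈ s.S, wt v) (dk K) κ 𝓛 < 𝓛 →
    Real.exp (-mb C s.N (∏ v ∈ s.S, wt v) (dk K) κ 𝓛) ≤ ‖tb‖

/-- Cost of the residue classes. -/
noncomputable def kap (p : ℕ) (v : ℤ) : ℝ := if Odd v then 1 else p

def ClsStmt : Prop :=
  ∀ (p : ℕ) [Fact p.Prime] (ρ : ℂ_[p]) (r : ℚ_[p]), r ≠ 0 → ρ ^ 2 = algebraMap ℚ_[p] ℂ_[p] r →
    ∀ ω : ℝ, 0 < ω → ω ≤ 1 → ∃ (n : ℕ) (cls : ℂ_[p] × ℂ_[p] → Fin n), n * ω ^ 6 ≤ 16 * kap p r.valuation ∧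
      ∀ x y x' y' : ℂ_[p], (∃ u v : ℚ_[p], x = algebraMap _ _ u + algebraMap _ _ v * ρ ∧
          y = algebraMap _ _ u - algebraMap _ _ v * ρ) →
        (∃ u v : ℚ_[p], x' = algebraMap _ _ u + algebraMap _ _ v * ρ ∧
          y' = algebraMap _ _ u - algebraMap _ _ v * ρ) →
        ‖x‖ = 1 → ‖y‖ = 1 → ‖x'‖ = 1 → ‖y'‖ = 1 → cls (x, y) = cls (x', y') → ‖x * y' - y * x'‖ ≤ ω

/-- The two embeddings are conjugate over `ℚ_p(ρ)`, `ρ ^ 2 = r`. -/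
def Rho {p : ℕ} [Fact p.Prime] {K : Type} [Field K] (f g : K →+* ℂ_[p]) (r : ℚ_[p]) : Prop :=
  r ≠ 0 ∧ ∃ ρ : ℂ_[p], ρ ^ 2 = algebraMap ℚ_[p] ℂ_[p] r ∧ ∀ γ : K, ∃ u v : ℚ_[p],
    f γ = algebraMap _ _ u + algebraMap _ _ v * ρ ∧ g γ = algebraMap _ _ u - algebraMap _ _ v * ρ

/-- The two facts on `ℂ_p` that `an_ultra`, `exists_log` and `exp_add_small` ask for. -/
def AnpStmt : Prop :=
  ∀ (p : ℕ) [Fact p.Prime], (∀ m : ℕ, ‖((m.factorial : ℕ) : ℂ_[p])⁻¹‖ ≤ 2 ^ m) ∧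
    (∀ n : ℤ, n ≠ 0 → 1 ≤ |(n : ℝ)| * ‖(n : ℂ_[p])‖) ∧ ∀ n : ℕ, ¬p ∣ n → ‖(n : ℂ_[p])‖ = 1

def ValStmt : Prop :=
  ∀ (p : ℕ) [Fact p.Prime] (K : Type) [Field K] [NumberField K] (f : K →+* ℂ_[p]),
    ∃ P : HOS K, ∀ γ : K, γ ≠ 0 → (P.valuation K γ = 1 ↔ ‖f γ‖ = 1)

def RefPStmt : Prop :=
  ∀ (p : ℕ) [Fact p.Prime] (K : Type) [Field K] [NumberField K] (s : Setup ℂ_[p] K) (r : ℚ_[p]),
    s.e = 0 → s.ψ = 0 → (∀ h, s.W h = om s.N) → (∀ t, ‖t‖ ≤ om s.N → t ∈ s.D') →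
    (∀ η, SU s.S η → ‖s.ι (s.σ η)‖ = 1 ∧ ‖s.ι (s.τ η)‖ = 1) → Rho (s.ι.comp s.σ) (s.ι.comp s.τ) r →
    s.Ref (1024 * kap p r.valuation / om s.N ^ 6)

def RefIStmt : Prop :=
  ∀ (K : Type) [Field K] [NumberField K] (s : Setup ℂ K), s.e = 1 → (∀ t, s.ψ t = t.im) →
    (∀ h, s.W h = h * om s.N) → s.D' = ⊤ → s.Ref (100 / om s.N ^ 2)

noncomputable def bnd (C : ℝ) (S : Finset ℕ) (D κ 𝓛 : ℝ) : ℝ :=
  C * (∏ q ∈ S, C * Real.log q ^ 3) * (√D * (1 + Real.log D) ^ 4) * κ * Real.log 𝓛 ^ 3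

def LocP (C : ℝ) : Prop :=
  ∀ (p : ℕ) [Fact p.Prime] (ι : Qb →+* ℂ_[p]) (K : Type) [Field K] [NumberField K], (finrank ℚ K).Prime →
    finrank ℚ K ≤ 3 → ∀ (σ τ : K →+* Qb) (r : ℚ_[p]), Rho (ι.comp σ) (ι.comp τ) r →
    ∀ (β : K) (n : ℤ) (S : Finset ℕ) (𝓛 : ℝ), σ β ≠ τ β → Algebra.norm ℚ β = n → (∀ q ∈ S, q.Prime) →
    n.natAbs.primeFactors ⊆ S → 3 ≤ 𝓛 → Hk β (Real.exp 𝓛) → bnd C S (dk K) (kap p r.valuation) 𝓛 < 𝓛 →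
    Real.exp (-bnd C S (dk K) (kap p r.valuation) 𝓛) * ‖ι (τ β)‖ ≤ ‖ι (σ β) - ι (τ β)‖

def LocI (C : ℝ) : Prop :=
  ∀ (ι : Qb →+* ℂ) (K : Type) [Field K] [NumberField K], (finrank ℚ K).Prime →
    finrank ℚ K ≤ 3 → ∀ (σ τ : K →+* Qb),
    ∀ (β : K) (n : ℤ) (S : Finset ℕ) (𝓛 : ℝ), σ β ≠ τ β → Algebra.norm ℚ β = n → (∀ q ∈ S, q.Prime) →
    n.natAbs.primeFactors ⊆ S → 3 ≤ 𝓛 → Hk β (Real.exp 𝓛) → bnd C S (dk K) 1 𝓛 < 𝓛 →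
    Real.exp (-bnd C S (dk K) 1 𝓛) * ‖ι (τ β)‖ ≤ ‖ι (σ β) - ι (τ β)‖

/-- The local bounds hold for all large constants. -/
def LocPStmt : Prop := ∃ C₀ : ℝ, ∀ C, C₀ ≤ C → LocP C

def LocIStmt : Prop := ∃ C₀ : ℝ, ∀ C, C₀ ≤ C → LocI C

/-! ### Elliptic curves -/

def MinP (a b : ℤ) : Prop := ∀ p : ℕ, p.Prime → ¬((p : ℤ) ^ 4 ∣ a ∧ (p : ℤ) ^ 6 ∣ b)

def SS (a b : ℤ) : Finset ℕ := insert 2 (insert 3 (disc a b).natAbs.primeFactors)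

noncomputable def LL (a b : ℤ) : ℝ := Real.log (max (|(a : ℝ)| ^ 3) ((b : ℝ) ^ 2)) + 6

def QOK (a b : ℤ) (Q : ℝ) : Prop :=
  ∀ p : ℕ, p.Prime → 5 ≤ p → (p : ℤ) ∣ disc a b → ¬(p : ℤ) ∣ a → Even (padicValInt p (disc a b)) → (p : ℝ) ≤ Q

def DiscOK (a b d c : ℤ) : Prop :=
  ∀ p : ℕ, p.Prime → padicValInt p d ≤ 15 ∧ (5 ≤ p → ((p : ℤ) ∣ d → (p : ℤ) ∣ disc a b) ∧
    padicValInt p d ≤ (if (p : ℤ) ∣ a then 2 else 1) ∧ (30 < padicValInt p c → Even (padicValInt p c) →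
      ¬(p : ℤ) ∣ d ∧ (¬(p : ℤ) ∣ a → Even (padicValInt p (disc a b)))))

def Loc (C : ℝ) (a b : ℤ) : Prop :=
  ∃ d c : ℤ, d ≠ 0 ∧ c ≠ 0 ∧ DiscOK a b d c ∧ c.natAbs.primeFactors ⊆ SS a b ∧
    (bnd C (SS a b) |d| 1 (LL a b) < LL a b →
      LL a b ≤ 6 * Real.log |(c : ℝ)| + 12 * bnd C (SS a b) |d| 1 (LL a b) + 100) ∧
    ∀ p : ℕ, p.Prime → 30 < padicValInt p c →
      bnd C (SS a b) |d| (kap p (padicValInt p c)) (LL a b) < LL a b →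
      padicValInt p c * Real.log p ≤ 30 * Real.log p + 2 * bnd C (SS a b) |d| (kap p (padicValInt p c)) (LL a b)

def Disc3Stmt : Prop :=
  ∀ (a b : ℤ) (K : Type) [Field K] [NumberField K] (θ : K), finrank ℚ K = 3 → θ ^ 3 - a * θ - b = 0 →
    (∀ x : ℚ, θ ≠ x) → disc a b ≠ 0 → MinP a b → DiscOK a b (discr K) (disc a b)

def P3Stmt : Prop :=
  ∀ (a b : ℤ) (p : ℕ) [Fact p.Prime], disc a b ≠ 0 → MinP a b → 18 < padicValInt p (disc a b) →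
    ∃ z : ℚ_[p], z ^ 3 - a * z - b = 0 ∧ 1 ≤ (p : ℝ) ^ 4 * ‖3 * z ^ 2 - a‖

def IrrStmt : Prop :=
  ∀ C : ℝ, 1 ≤ C → LocP C → LocI C → ∀ a b : ℤ, disc a b ≠ 0 → MinP a b → (∀ e : ℤ, e ^ 3 - a * e - b ≠ 0) →
    Loc C a b

def Quad (C : ℝ) : Prop :=
  ∀ (A B c : ℤ) (S : Finset ℕ) (𝓛 : ℝ), c = A ^ 2 - 4 * B → ¬IsSquare c → B ≠ 0 →
    (∀ p : ℕ, p.Prime → ¬((p : ℤ) ^ 4 ∣ A ∧ (p : ℤ) ^ 8 ∣ B)) → (∀ q ∈ S, q.Prime) → B.natAbs.primeFactors ⊆ S →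
    3 ≤ 𝓛 → |(A : ℝ)| + √|(c : ℝ)| ≤ Real.exp 𝓛 →
    ∃ d : ℤ, d ≠ 0 ∧ (∀ p : ℕ, p.Prime → padicValInt p d ≤ 3 ∧ (p ≠ 2 → padicValInt p d ≤ padicValInt p c % 2)) ∧
      (bnd C S |d| 1 𝓛 < 𝓛 → Real.log (max ((A : ℝ) ^ 2) |(B : ℝ)|) ≤ Real.log |(c : ℝ)| + 2 * bnd C S |d| 1 𝓛 + 2) ∧
      ∀ p : ℕ, p.Prime → bnd C S |d| (kap p (padicValInt p c)) 𝓛 < 𝓛 →
        padicValInt p c * Real.log p ≤ 8 * Real.log p + 2 * bnd C S |d| (kap p (padicValInt p c)) 𝓛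

def QuadStmt : Prop := ∀ C : ℝ, 1 ≤ C → LocP C → LocI C → Quad C

def RedStmt : Prop :=
  ∀ C : ℝ, 1 ≤ C → Quad C → ∀ a b e : ℤ, disc a b ≠ 0 → MinP a b → e ^ 3 - a * e - b = 0 → Loc C a b

noncomputable def UU (C : ℝ) (a b : ℤ) (Q : ℝ) : ℝ :=
  C * (∏ q ∈ SS a b, C * Real.log q ^ 3) * (√(cond a b * Q) * (1 + Real.log (cond a b)) ^ 4) * Real.log (LL a b) ^ 3

def GlueStmt : Prop :=
  ∀ C : ℝ, 10 ≤ C → ∃ C' : ℝ, 1 ≤ C' ∧ ∀ (a b : ℤ) (Q : ℝ), disc a b ≠ 0 → 1 ≤ Q → QOK a b Q → Loc C a b →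
    LL a b ≤ ((SS a b).card + 1) * UU C' a b Q

def SumStmt : Prop :=
  ∀ C : ℝ, 1 ≤ C → ∀ ε : ℝ, 0 < ε → ∃ C' : ℝ, ∀ (a b : ℤ) (Q : ℝ), disc a b ≠ 0 → 1 ≤ Q → Q ≤ cond a b →
    LL a b ≤ ((SS a b).card + 1) * UU C a b Q → LL a b ≤ C' * (cond a b : ℝ) ^ (1 / 2 + ε) * √Q

end Pool.Agent.Szpiro98
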