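import Pool.Agent.Lib.Szpiro98.Blue

/-! Block GLUE: from the local bounds to one global inequality. -/

namespace Pool.Agent.Szpiro98.GLUE

open Finset Pool.Agent.Lib.MP_cafdd5_nt Pool.Agent.Szpiro98

lemma cond_pos (a b : ℤ) : 0 < cond a b := by
  unfold cond
  refine Finset.prod_pos fun p hp => ?_
  exact pow_pos (Nat.prime_of_mem_primeFactors (Finset.mem_filter.1 hp).1).pos _

lemma pow_dvd_cond {a b : ℤ} (hD : disc a b ≠ 0) {p : ℕ} (hp : p.Prime) (h5 : 5 ≤ p) (h : (p : ℤ) ∣ disc a b) :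
    p ^ (if (p : ℤ) ∣ a then 2 else 1) ∣ cond a b := by
  unfold cond
  refine Finset.dvd_prod_of_mem (fun q : ℕ => q ^ (if (q : ℤ) ∣ a then 2 else 1)) ?_
  refine Finset.mem_filter.2 ⟨Nat.mem_primeFactors.2 ⟨hp, ?_, Int.natAbs_ne_zero.2 hD⟩, h5⟩
  exact Int.natCast_dvd.1 h

lemma d_dvd {a b d c : ℤ} (hD : disc a b ≠ 0) (hd : d ≠ 0) (h : DiscOK a b d c) :
    d.natAbs ∣ 6 ^ 15 * cond a b := by
  rw [Nat.dvd_iff_prime_pow_dvd_dvd]
  intro p k hp hk
  have : Fact p.Prime := ⟨hp⟩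
  have hn : d.natAbs ≠ 0 := Int.natAbs_ne_zero.2 hd
  have hk' : k ≤ padicValInt p d := (padicValNat_dvd_iff_le hn).1 hk
  rcases Nat.eq_zero_or_pos k with rfl | hk0
  · simp
  obtain ⟨h15, h5⟩ := h p hp
  by_cases hp5 : 5 ≤ p
  · obtain ⟨h1, h2, -⟩ := h5 hp5
    have hpd : (p : ℤ) ∣ d := Int.natCast_dvd.2 ((dvd_pow_self p hk0.ne').trans hk)
    exact ((pow_dvd_pow p (hk'.trans h2)).trans (pow_dvd_cond hD hp hp5 (h1 hpd))).mul_left _
  · have h6 : p ∣ 6 := by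
      have := hp.two_le
      have h4 : p ≠ 4 := by rintro rfl; norm_num at hp
      have : p = 2 ∨ p = 3 := by omega
      rcases this with rfl | rfl <;> norm_num
    exact ((pow_dvd_pow p (hk'.trans h15)).trans (pow_dvd_pow_of_dvd h6 15)).mul_right _

lemma d_le {a b d c : ℤ} (hD : disc a b ≠ 0) (hd : d ≠ 0) (h : DiscOK a b d c) :
    |(d : ℝ)| ≤ 6 ^ 15 * (cond a b : ℝ) := by
  have h1 := Nat.le_of_dvd (Nat.mul_pos (by norm_num) (cond_pos a b)) (d_dvd hD hd h)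
  have h2 : ((d.natAbs : ℕ) : ℝ) ≤ ((6 ^ 15 * cond a b : ℕ) : ℝ) := by exact_mod_cast h1
  rw [Nat.cast_natAbs, Int.cast_abs] at h2
  push_cast at h2
  norm_num at h2 ⊢
  exact h2

lemma dp_le {a b d c : ℤ} (hD : disc a b ≠ 0) (hd : d ≠ 0) (h : DiscOK a b d c) {p j : ℕ} (hp : p.Prime)
    (hpd : ¬(p : ℤ) ∣ d) (hj : p ^ j ∣ cond a b) : |(d : ℝ)| * (p : ℝ) ^ j ≤ 6 ^ 15 * (cond a b : ℝ) := by
  have hc : Nat.Coprime d.natAbs (p ^ j) :=
    Nat.Coprime.pow_right j ((Nat.Prime.coprime_iff_not_dvd hp).2 fun k => hpd (Int.natCast_dvd.2 k)).symm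
  have h0 := hc.mul_dvd_of_dvd_of_dvd (d_dvd hD hd h) (hj.mul_left (6 ^ 15))
  have h1 := Nat.le_of_dvd (Nat.mul_pos (by norm_num) (cond_pos a b)) h0
  have h2 : ((d.natAbs * p ^ j : ℕ) : ℝ) ≤ ((6 ^ 15 * cond a b : ℕ) : ℝ) := by exact_mod_cast h1
  rw [Nat.cast_mul, Nat.cast_natAbs, Int.cast_abs] at h2
  push_cast at h2
  norm_num at h2 ⊢
  exact h2

lemma kap_le {a b d c : ℤ} {Q : ℝ} (hD : disc a b ≠ 0) (hQ : 1 ≤ Q) (hq : QOK a b Q) (hd : d ≠ 0) (hc : c ≠ 0)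
    (h : DiscOK a b d c) (hS : c.natAbs.primeFactors ⊆ SS a b) {p : ℕ} (hp : p.Prime)
    (hv : 30 < padicValInt p c) :
    |(d : ℝ)| * kap p (padicValInt p c) ^ 2 ≤ 6 ^ 18 * ((cond a b : ℝ) * Q) := by
  have hN : (1 : ℝ) ≤ cond a b := by exact_mod_cast cond_pos a b
  have hdN := d_le hD hd h
  have hNQ : (cond a b : ℝ) ≤ cond a b * Q := le_mul_of_one_le_right (by linarith) hQ
  unfold kap
  split_ifs with ho
  · nlinarith
  have he : Even (padicValInt p c) := by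
    rw [Int.odd_coe_nat, Nat.not_odd_iff_even] at ho
    exact ho
  by_cases hp5 : 5 ≤ p
  · obtain ⟨-, -, h3⟩ := (h p hp).2 hp5
    obtain ⟨hpd, h4⟩ := h3 hv he
    have : Fact p.Prime := ⟨hp⟩
    have hpc : p ∣ c.natAbs := dvd_of_one_le_padicValNat (le_trans (by norm_num) hv.le)
    have hm : p ∈ SS a b := hS (Nat.mem_primeFactors.2 ⟨hp, hpc, Int.natAbs_ne_zero.2 hc⟩)
    have hpD : (p : ℤ) ∣ disc a b := by
      unfold SS at hm
      rcases Finset.mem_insert.1 hm with k | k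
      · omega
      rcases Finset.mem_insert.1 k with k | k
      · omega
      exact Int.natCast_dvd.2 (Nat.dvd_of_mem_primeFactors k)
    have hj := pow_dvd_cond hD hp hp5 hpD
    by_cases ha : (p : ℤ) ∣ a
    · rw [if_pos ha] at hj
      have := dp_le hD hd h hp hpd hj
      nlinarith
    · rw [if_neg ha] at hj
      have h1 := dp_le hD hd h hp hpd hj
      have h2 := hq p hp hp5 hpD ha (h4 ha)
      rw [pow_one] at h1
      have h0 : (0 : ℝ) ≤ p := Nat.cast_nonneg p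
      have h5 : |(d : ℝ)| * p * p ≤ 6 ^ 15 * (cond a b : ℝ) * Q :=
        mul_le_mul h1 h2 h0 (by positivity)
      nlinarith
  · have h4 : (p : ℝ) ≤ 4 := by exact_mod_cast (by omega : p ≤ 4)
    have h0 : (0 : ℝ) ≤ p := Nat.cast_nonneg p
    have h5 : (p : ℝ) ^ 2 ≤ 16 := by nlinarith
    have h6 : |(d : ℝ)| * (p : ℝ) ^ 2 ≤ 6 ^ 15 * (cond a b : ℝ) * 16 :=
      mul_le_mul hdN h5 (by positivity) (by positivity)
    nlinarith

lemma mid_le {D N Q κ : ℝ} (hD : 1 ≤ D) (hN : 1 ≤ N) (hκ : 0 ≤ κ) (h1 : D ≤ 6 ^ 15 * N)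
    (h2 : D * κ ^ 2 ≤ 6 ^ 18 * (N * Q)) :
    √D * (1 + Real.log D) ^ 4 * κ ≤ (6 ^ 9 * 76 ^ 4) * (√(N * Q) * (1 + Real.log N) ^ 4) := by
  have a1 : √D * κ ≤ 6 ^ 9 * √(N * Q) := by
    have e1 : √D * κ = √(D * κ ^ 2) := by
      rw [Real.sqrt_mul (by linarith), Real.sqrt_sq hκ]
    have e2 : (6 : ℝ) ^ 9 * √(N * Q) = √(6 ^ 18 * (N * Q)) := by
      rw [Real.sqrt_mul (by positivity) (N * Q), show (6 : ℝ) ^ 18 = (6 ^ 9) ^ 2 by norm_num,
        Real.sqrt_sq (by positivity)]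
    rw [e1, e2]
    exact Real.sqrt_le_sqrt h2
  have l0 : 0 ≤ Real.log D := Real.log_nonneg hD
  have l1 : 0 ≤ Real.log N := Real.log_nonneg hN
  have a2 : 1 + Real.log D ≤ 76 * (1 + Real.log N) := by
    have k1 : Real.log D ≤ Real.log (6 ^ 15 * N) := Real.log_le_log (by linarith) h1
    rw [Real.log_mul (by positivity) (by linarith), Real.log_pow] at k1
    have k2 : Real.log 6 ≤ 6 - 1 := Real.log_le_sub_one_of_pos (by norm_num)
    push_cast at k1
    linarith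
  have a3 : (1 + Real.log D) ^ 4 ≤ (76 * (1 + Real.log N)) ^ 4 := pow_le_pow_left₀ (by linarith) a2 4
  calc √D * (1 + Real.log D) ^ 4 * κ = (√D * κ) * (1 + Real.log D) ^ 4 := by ring
    _ ≤ (6 ^ 9 * √(N * Q)) * (76 * (1 + Real.log N)) ^ 4 :=
      mul_le_mul a1 a3 (by positivity) (by positivity)
    _ = _ := by ring

lemma SS_prime {a b : ℤ} {q : ℕ} (hq : q ∈ SS a b) : q.Prime := by
  unfold SS at hq
  rcases Finset.mem_insert.1 hq with rfl | k
  · exact Nat.prime_two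
  rcases Finset.mem_insert.1 k with rfl | k
  · exact Nat.prime_three
  exact Nat.prime_of_mem_primeFactors k

lemma fac_ge {C : ℝ} (hC : 10 ≤ C) {q : ℕ} (hq : q.Prime) :
    1 ≤ C * Real.log q ^ 3 ∧ Real.log q ≤ C * Real.log q ^ 3 := by
  have h2 : Real.log 2 ≤ Real.log q := Real.log_le_log (by norm_num) (by exact_mod_cast hq.two_le)
  have h3 := Real.log_two_gt_d9
  set x := Real.log q
  have hx : 0.69 ≤ x := by linarith
  have h4 : 0.47 ≤ x ^ 2 := by nlinarith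
  have h5 : 0.47 * x ≤ x ^ 3 := by nlinarith
  have h6 : 10 * x ^ 3 ≤ C * x ^ 3 := mul_le_mul_of_nonneg_right hC (by positivity)
  constructor <;> linarith

lemma one_le_prod_SS {C : ℝ} (hC : 10 ≤ C) {a b : ℤ} {T : Finset ℕ} (hT : T ⊆ SS a b) :
    1 ≤ ∏ q ∈ T, C * Real.log q ^ 3 := by
  calc (1 : ℝ) = ∏ _q ∈ T, (1 : ℝ) := by simp
    _ ≤ _ := Finset.prod_le_prod (fun _ _ => zero_le_one) fun q hq => (fac_ge hC (SS_prime (hT hq))).1

lemma log_le_prod {C : ℝ} (hC : 10 ≤ C) {a b : ℤ} {p : ℕ} (hp : p ∈ SS a b) :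
    Real.log p ≤ ∏ q ∈ SS a b, C * Real.log q ^ 3 := by
  rw [← Finset.mul_prod_erase _ _ hp]
  have h1 := one_le_prod_SS hC (Finset.erase_subset p (SS a b))
  obtain ⟨h2, h3⟩ := fac_ge hC (SS_prime hp)
  exact h3.trans (le_mul_of_one_le_right (by linarith) h1)

lemma LL_ge (a b : ℤ) : 6 ≤ LL a b := by
  unfold LL
  have : max (|(a : ℝ)| ^ 3) ((b : ℝ) ^ 2) = ((max (|a| ^ 3) (b ^ 2) : ℤ) : ℝ) := by push_cast; rfl
  rw [this]
  have := Real.log_intCast_nonneg (max (|a| ^ 3) (b ^ 2))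
  linarith

lemma logLL_ge (a b : ℤ) : 1 ≤ Real.log (LL a b) := by
  have h := LL_ge a b
  rw [Real.le_log_iff_exp_le (by linarith)]
  have := Real.exp_one_lt_d9
  linarith

lemma prod_le_UU {C Q : ℝ} (hC : 10 ≤ C) (hQ : 1 ≤ Q) (a b : ℤ) :
    ∏ q ∈ SS a b, C * Real.log q ^ 3 ≤ UU C a b Q := by
  have hN : (1 : ℝ) ≤ cond a b := by exact_mod_cast cond_pos a b
  have h1 := one_le_prod_SS hC (Finset.Subset.refl (SS a b))
  have h2 : 1 ≤ √((cond a b : ℝ) * Q) := Real.one_le_sqrt.2 (one_le_mul_of_one_le_of_one_le hN hQ)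
  have h3 : 1 ≤ (1 + Real.log (cond a b)) ^ 4 := one_le_pow₀ (by linarith [Real.log_nonneg hN])
  have h4 : 1 ≤ Real.log (LL a b) ^ 3 := one_le_pow₀ (logLL_ge a b)
  have h5 := one_le_mul_of_one_le_of_one_le h2 h3
  unfold UU
  set P := ∏ q ∈ SS a b, C * Real.log q ^ 3
  calc P ≤ C * P := le_mul_of_one_le_left (by linarith) (by linarith)
    _ ≤ C * P * (√((cond a b : ℝ) * Q) * (1 + Real.log (cond a b)) ^ 4) :=
      le_mul_of_one_le_right (by positivity) h5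
    _ ≤ _ := le_mul_of_one_le_right (by positivity) h4

lemma UU_mono {C M : ℝ} (hC : 0 ≤ C) (hM : 1 ≤ M) (a b : ℤ) (Q : ℝ) : M * UU C a b Q ≤ UU (M * C) a b Q := by
  have hN : (1 : ℝ) ≤ cond a b := by exact_mod_cast cond_pos a b
  have h4 : 0 ≤ Real.log (LL a b) := by linarith [logLL_ge a b]
  have h1 : ∏ q ∈ SS a b, C * Real.log q ^ 3 ≤ ∏ q ∈ SS a b, M * C * Real.log q ^ 3 := by
    refine Finset.prod_le_prod (fun q _ => ?_) fun q _ => ?_
    · have := Real.log_natCast_nonneg q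
      positivity
    · have := Real.log_natCast_nonneg q
      exact mul_le_mul_of_nonneg_right (le_mul_of_one_le_left hC hM) (by positivity)
  have hM0 : 0 ≤ M := by linarith
  have h2 : 0 ≤ M * C * (√((cond a b : ℝ) * Q) * (1 + Real.log (cond a b)) ^ 4) * Real.log (LL a b) ^ 3 := by
    positivity
  have h3 := mul_le_mul_of_nonneg_left h1 h2
  unfold UU
  linarith

lemma bnd_le {C Q κ : ℝ} (hC : 10 ≤ C) {a b d : ℤ} (hd : d ≠ 0) (hκ : 0 ≤ κ)
    (h1 : |(d : ℝ)| ≤ 6 ^ 15 * (cond a b : ℝ)) (h2 : |(d : ℝ)| * κ ^ 2 ≤ 6 ^ 18 * ((cond a b : ℝ) * Q)) :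
    bnd C (SS a b) |d| κ (LL a b) ≤ (6 ^ 9 * 76 ^ 4) * UU C a b Q := by
  have hN : (1 : ℝ) ≤ cond a b := by exact_mod_cast cond_pos a b
  have hd1 : (1 : ℝ) ≤ |(d : ℝ)| := by exact_mod_cast Int.one_le_abs hd
  have h3 := mid_le hd1 hN hκ h1 h2
  have h4 : 0 ≤ Real.log (LL a b) := by linarith [logLL_ge a b]
  have h5 := one_le_prod_SS hC (Finset.Subset.refl (SS a b))
  unfold bnd UU
  set P := ∏ q ∈ SS a b, C * Real.log q ^ 3
  have h6 : 0 ≤ C * P * Real.log (LL a b) ^ 3 := by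
    have : 0 ≤ C := by linarith
    have : 0 ≤ P := by linarith
    positivity
  have h7 := mul_le_mul_of_nonneg_left h3 h6
  linarith

lemma log_abs_eq (c : ℤ) :
    Real.log |(c : ℝ)| = ∑ p ∈ c.natAbs.primeFactors, (padicValInt p c : ℝ) * Real.log p := by
  have h : |(c : ℝ)| = ((c.natAbs : ℕ) : ℝ) := by rw [Nat.cast_natAbs, Int.cast_abs]
  rw [h, Real.log_nat_eq_sum_factorization, Finsupp.sum, Nat.support_factorization]
  refine Finset.sum_congr rfl fun p hp => ?_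
  rw [Nat.factorization_def _ (Nat.prime_of_mem_primeFactors hp)]
  rfl

end Pool.Agent.Szpiro98.GLUE

namespace Pool.Agent.Szpiro98

open Finset Pool.Agent.Lib.MP_cafdd5_nt GLUE

theorem glue : GlueStmt := by
  intro C hC
  refine ⟨192 * (6 ^ 9 * 76 ^ 4) * C, by linarith, fun a b Q hD hQ hq hL => ?_⟩
  obtain ⟨d, c, hd, hc, hok, hS, hI, hP⟩ := hL
  have hN : (1 : ℝ) ≤ cond a b := by exact_mod_cast cond_pos a b
  have hdN := d_le hD hd hok
  have hNQ : (cond a b : ℝ) ≤ cond a b * Q := le_mul_of_one_le_right (by linarith) hQ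
  have hmono := UU_mono (C := C) (M := 192 * (6 ^ 9 * 76 ^ 4)) (by linarith) (by norm_num) a b Q
  have hPU := prod_le_UU hC hQ a b
  have hP1 := one_le_prod_SS hC (Finset.Subset.refl (SS a b))
  obtain ⟨U, hU⟩ : ∃ U : ℝ, U = (6 ^ 9 * 76 ^ 4) * UU C a b Q := ⟨_, rfl⟩
  have hU1 : UU C a b Q ≤ U := by rw [hU]; exact le_mul_of_one_le_left (by linarith) (by norm_num)
  have hU2 : 1 ≤ U := by linarith
  have hcard : (0 : ℝ) ≤ (SS a b).card := Nat.cast_nonneg _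
  have key : LL a b ≤ ((SS a b).card + 1) * (192 * U) := by
    have b1 : bnd C (SS a b) |d| 1 (LL a b) ≤ U := by
      rw [hU]; exact bnd_le hC hd zero_le_one hdN (by nlinarith)
    have b2 : ∀ p : ℕ, p.Prime → 30 < padicValInt p c →
        bnd C (SS a b) |d| (kap p (padicValInt p c)) (LL a b) ≤ U := by
      intro p hp hv
      rw [hU]
      refine bnd_le hC hd ?_ hdN (kap_le hD hQ hq hd hc hok hS hp hv)
      unfold kap
      split_ifs <;> positivity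
    by_cases hLU : LL a b ≤ U
    · nlinarith
    push Not at hLU
    have c1 := hI (b1.trans_lt hLU)
    have c2 : ∀ p ∈ c.natAbs.primeFactors, (padicValInt p c : ℝ) * Real.log p ≤ 32 * U := by
      intro p hp
      have hpp := Nat.prime_of_mem_primeFactors hp
      have l0 := Real.log_natCast_nonneg p
      have l1 : Real.log p ≤ U := by linarith [log_le_prod hC (hS hp)]
      by_cases hv : 30 < padicValInt p c
      · have := hP p hpp hv ((b2 p hpp hv).trans_lt hLU)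
        linarith [b2 p hpp hv]
      · have h30 : (padicValInt p c : ℝ) ≤ 30 := by exact_mod_cast not_lt.1 hv
        nlinarith
    have c3 : Real.log |(c : ℝ)| ≤ (SS a b).card * (32 * U) := by
      rw [log_abs_eq]
      calc _ ≤ (c.natAbs.primeFactors.card : ℝ) * (32 * U) := by
            have := Finset.sum_le_card_nsmul _ _ _ c2
            rwa [nsmul_eq_mul] at this
        _ ≤ _ := mul_le_mul_of_nonneg_right (by exact_mod_cast Finset.card_le_card hS) (by linarith)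
    nlinarith
  refine key.trans (mul_le_mul_of_nonneg_left ?_ (by linarith))
  rw [hU]
  linarith

end Pool.Agent.Szpiro98
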