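import Pool.Agent.Lib.Szpiro98.Blue

/-! The final numerical summation. -/

namespace Pool.Agent.Szpiro98

open Finset Pool.Agent.Lib.MP_cafdd5_nt

namespace SumB

lemma log_pow_le {x η : ℝ} (hx : 1 ≤ x) (hη : 0 < η) (n : ℕ) (hn : n ≠ 0) :
    Real.log x ^ n ≤ (n / η) ^ n * x ^ η := by
  have hn' : (0 : ℝ) < n := by positivity
  have h := Real.log_le_rpow_div (by linarith : 0 ≤ x) (div_pos hη hn')
  calc Real.log x ^ n ≤ (n / η * x ^ (η / n)) ^ n :=
        pow_le_pow_left₀ (Real.log_nonneg hx) (h.trans_eq (by field_simp)) n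
    _ = _ := by
        rw [mul_pow, ← Real.rpow_natCast (x ^ (η / n)), ← Real.rpow_mul (by linarith), div_mul_cancel₀ _ hn'.ne']

lemma one_add_log_le {x η : ℝ} (hx : 1 ≤ x) (hη : 0 < η) :
    (1 + Real.log x) ^ 4 ≤ (1 + 4 / η) ^ 4 * x ^ η := by
  have h := Real.log_le_rpow_div (by linarith : 0 ≤ x) (div_pos hη four_pos)
  have h1 : 1 ≤ x ^ (η / 4) := Real.one_le_rpow hx (by positivity)
  have h2 := Real.log_nonneg hx
  calc (1 + Real.log x) ^ 4 ≤ ((1 + 4 / η) * x ^ (η / 4)) ^ 4 := by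
        refine pow_le_pow_left₀ (by positivity) ?_ 4
        have : x ^ (η / 4) / (η / 4) = 4 / η * x ^ (η / 4) := by field_simp
        linarith
    _ = _ := by
        rw [mul_pow, ← Real.rpow_natCast (x ^ (η / 4)), ← Real.rpow_mul (by linarith)]
        norm_num

lemma prod_le {C η : ℝ} (hC : 0 ≤ C) (hη : 0 < η) : ∃ K : ℝ, 1 ≤ K ∧ ∀ S : Finset ℕ, (∀ q ∈ S, 1 ≤ q) →
    ∏ q ∈ S, C * Real.log q ^ 3 ≤ K * ((∏ q ∈ S, q : ℕ) : ℝ) ^ η := by
  set A := max 1 (C * ((3 : ℕ) / (η / 2)) ^ 3) with hA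
  have A1 : 1 ≤ A := le_max_left _ _
  obtain ⟨q0, hq0⟩ := Filter.eventually_atTop.1
    (((tendsto_rpow_atTop (half_pos hη)).comp tendsto_natCast_atTop_atTop).eventually_ge_atTop A)
  refine ⟨A ^ q0, one_le_pow₀ A1, fun S hS => ?_⟩
  have key : ∀ q ∈ S, C * Real.log q ^ 3 ≤ (if q < q0 then A else 1) * (q : ℝ) ^ η := by
    intro q hq
    have q1 : (1 : ℝ) ≤ q := by exact_mod_cast hS q hq
    have h1 : 1 ≤ (q : ℝ) ^ (η / 2) := Real.one_le_rpow q1 (by positivity)
    have h2 : C * Real.log q ^ 3 ≤ A * (q : ℝ) ^ (η / 2) := by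
      refine (mul_le_mul_of_nonneg_left (log_pow_le q1 (half_pos hη) 3 (by norm_num)) hC).trans ?_
      rw [← mul_assoc]
      exact mul_le_mul_of_nonneg_right (le_max_right _ _) (by positivity)
    have h3 : (q : ℝ) ^ η = (q : ℝ) ^ (η / 2) * (q : ℝ) ^ (η / 2) := by
      rw [← Real.rpow_add (by linarith), add_halves]
    rw [h3]
    split_ifs with h
    · exact h2.trans (mul_le_mul_of_nonneg_left (le_mul_of_one_le_left (by positivity) h1) (by linarith))
    · rw [one_mul]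
      exact h2.trans (mul_le_mul_of_nonneg_right (hq0 q (not_lt.1 h)) (by positivity))
  refine (prod_le_prod (fun q hq => mul_nonneg hC (pow_nonneg (Real.log_natCast_nonneg q) 3)) key).trans ?_
  rw [prod_mul_distrib, Nat.cast_prod, Real.finsetProd_rpow _ _ (fun q _ => Nat.cast_nonneg q), prod_ite, prod_const,
    prod_const_one, mul_one]
  refine mul_le_mul_of_nonneg_right (pow_le_pow_right₀ A1 ?_) (by positivity)
  exact (card_le_card fun q hq => mem_range.2 (mem_filter.1 hq).2).trans_eq (card_range q0)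

lemma rad_le (a b : ℤ) : ∏ q ∈ SS a b, q ≤ 6 * cond a b := by
  set P := (disc a b).natAbs.primeFactors
  have hP : ∀ q ∈ P, q.Prime := fun q hq => Nat.prime_of_mem_primeFactors hq
  have e : SS a b = insert 2 (insert 3 (P.filter (5 ≤ ·))) := by
    ext q
    simp only [SS, mem_insert, mem_filter]
    refine ⟨?_, by tauto⟩
    rintro (h | h | h)
    · exact .inl h
    · exact .inr (.inl h)
    · have h2 := (hP q h).two_le
      have h4 : q ≠ 4 := fun e => by have := hP q h; rw [e] at this; exact absurd this (by norm_num)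
      by_cases h5 : 5 ≤ q
      · exact .inr (.inr ⟨h, h5⟩)
      · omega
  rw [e, prod_insert (by simp), prod_insert (by simp), ← mul_assoc]
  refine Nat.mul_le_mul_left _ (prod_le_prod' fun q hq => ?_)
  exact Nat.le_self_pow (by split_ifs <;> norm_num) q

lemma boot {L T η : ℝ} (hL : 1 ≤ L) (hη : 0 < η) (h2 : η ≤ 1 / 2) (h : L ≤ T * L ^ η) :
    L ≤ T * (T ^ 2) ^ η := by
  have p : 0 < L ^ η := by positivity
  have hT : 0 ≤ T := by by_contra k; nlinarith [mul_pos (neg_pos.2 (not_le.1 k)) p]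
  have h1 : L ^ η ≤ √L := by
    rw [Real.sqrt_eq_rpow]; exact Real.rpow_le_rpow_of_exponent_le hL h2
  have s : 0 < √L := by positivity
  have h3 : √L ≤ T := le_of_mul_le_mul_right
    (by rw [Real.mul_self_sqrt (by linarith)]; exact h.trans (mul_le_mul_of_nonneg_left h1 hT)) s
  have h4 : L ≤ T ^ 2 := by
    rw [← Real.sq_sqrt (by linarith : 0 ≤ L)]; exact pow_le_pow_left₀ s.le h3 2
  exact h.trans (mul_le_mul_of_nonneg_left (Real.rpow_le_rpow (by linarith) h4 hη.le) hT)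

end SumB

open SumB in
theorem sum : SumStmt := by
  intro C hC ε hε
  obtain ⟨η, hη, η1, η2⟩ : ∃ η : ℝ, 0 < η ∧ η ≤ 1 / 4 ∧ 6 * η ≤ ε :=
    ⟨min (1 / 4) (ε / 6), by positivity, min_le_left _ _, by linarith [min_le_right (1 / 4) (ε / 6)]⟩
  obtain ⟨K, K1, hK⟩ := prod_le (C := 2 * C) (by linarith) hη
  set B := C * K * 6 ^ η * (1 + 4 / η) ^ 4 * ((3 : ℕ) / η) ^ 3 with hB
  have B0 : 0 ≤ B := by positivity
  refine ⟨max 1 (B * (B ^ 2) ^ η), fun a b Q _ hQ hQN h => ?_⟩
  set N : ℝ := ((cond a b : ℕ) : ℝ) with hN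
  set L := LL a b
  have N1 : 1 ≤ N := hQ.trans hQN
  have Q1 : 1 ≤ √Q := Real.one_le_sqrt.2 hQ
  rcases le_total L 1 with hL | hL
  · exact hL.trans (one_le_mul_of_one_le_of_one_le (one_le_mul_of_one_le_of_one_le (le_max_left _ _)
      (Real.one_le_rpow N1 (by positivity))) Q1)
  have hS : ∀ q ∈ SS a b, 1 ≤ q := by
    intro q hq
    simp only [SS, mem_insert] at hq
    rcases hq with rfl | rfl | hq
    · norm_num
    · norm_num
    · exact (Nat.prime_of_mem_primeFactors hq).one_lt.le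
  have h1 : (((SS a b).card : ℝ) + 1) * ∏ q ∈ SS a b, C * Real.log q ^ 3 ≤ K * (6 ^ η * N ^ η) := by
    have e1 : ((SS a b).card : ℝ) + 1 ≤ 2 ^ (SS a b).card := by exact_mod_cast Nat.lt_two_pow_self
    have e2 : ((∏ q ∈ SS a b, q : ℕ) : ℝ) ≤ 6 * N := by rw [hN]; exact_mod_cast rad_le a b
    calc _ ≤ 2 ^ (SS a b).card * ∏ q ∈ SS a b, C * Real.log q ^ 3 :=
          mul_le_mul_of_nonneg_right e1 (prod_nonneg fun q _ =>
            mul_nonneg (by linarith) (pow_nonneg (Real.log_natCast_nonneg q) 3))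
      _ = ∏ q ∈ SS a b, 2 * C * Real.log q ^ 3 := by
          simp only [mul_assoc, prod_mul_distrib (f := fun _ => (2 : ℝ)), prod_const]
      _ ≤ _ := hK _ hS
      _ ≤ _ := by
          rw [← Real.mul_rpow (by norm_num) (by linarith)]
          exact mul_le_mul_of_nonneg_left (Real.rpow_le_rpow (by positivity) e2 hη.le) (by linarith)
  have h2 := one_add_log_le N1 hη
  have h3 := log_pow_le hL hη 3 (by norm_num)
  have l1 := Real.log_nonneg N1
  have l2 := Real.log_nonneg hL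
  have h4 : L ≤ B * (N ^ (1 / 2 + 2 * η) * √Q) * L ^ η := by
    have e : N ^ (1 / 2 + 2 * η) = √N * N ^ η * N ^ η := by
      rw [Real.sqrt_eq_rpow, ← Real.rpow_add (by linarith), ← Real.rpow_add (by linarith)]
      ring_nf
    calc L ≤ _ := h
      _ = C * ((((SS a b).card : ℝ) + 1) * ∏ q ∈ SS a b, C * Real.log q ^ 3) *
            (√N * √Q * (1 + Real.log N) ^ 4) * Real.log L ^ 3 := by
          rw [UU, ← hN, Real.sqrt_mul (by linarith)]; ring
      _ ≤ C * (K * (6 ^ η * N ^ η)) * (√N * √Q * ((1 + 4 / η) ^ 4 * N ^ η)) * (((3 : ℕ) / η) ^ 3 * L ^ η) := by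
          gcongr
      _ = _ := by rw [e, hB]; ring
  have h5 := boot hL hη (by linarith) h4
  have h6 : N ^ (1 / 2 + 2 * η) * √Q ≤ N ^ (2 : ℝ) := by
    have : √Q ≤ N ^ (1 / 2 : ℝ) := by rw [← Real.sqrt_eq_rpow]; exact Real.sqrt_le_sqrt hQN
    refine (mul_le_mul_of_nonneg_left this (by positivity)).trans ?_
    rw [← Real.rpow_add (by linarith)]
    exact Real.rpow_le_rpow_of_exponent_le N1 (by linarith)
  have h7 : ((B * (N ^ (1 / 2 + 2 * η) * √Q)) ^ 2) ^ η ≤ (B ^ 2) ^ η * N ^ (4 * η) := by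
    have e : N ^ (4 * η) = ((N ^ (2 : ℝ)) ^ 2) ^ η := by
      rw [← Real.rpow_natCast, ← Real.rpow_mul (x := N) (by linarith), ← Real.rpow_mul (x := N) (by linarith)]
      norm_num
    rw [e, ← Real.mul_rpow (by positivity) (by positivity), ← mul_pow]
    gcongr
  calc L ≤ _ := h5
    _ ≤ B * (N ^ (1 / 2 + 2 * η) * √Q) * ((B ^ 2) ^ η * N ^ (4 * η)) := by gcongr
    _ = B * (B ^ 2) ^ η * N ^ (1 / 2 + 2 * η + 4 * η) * √Q := by
        rw [Real.rpow_add (by linarith) _ (4 * η)]; ring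
    _ ≤ _ := by
        refine mul_le_mul_of_nonneg_right (mul_le_mul (le_max_right _ _)
          (Real.rpow_le_rpow_of_exponent_le N1 (by linarith)) (by positivity) (by positivity)) (by positivity)

end Pool.Agent.Szpiro98
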