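import Pool.Agent.Lib.Szpiro98.Blue

namespace Pool.Agent.Szpiro98

open NumberField IsDedekindDomain

namespace ANV

lemma norm_nat (p : ℕ) [Fact p.Prime] {n : ℕ} (hn : n ≠ 0) :
    ‖(n : ℂ_[p])‖ = ((p : ℝ) ^ padicValNat p n)⁻¹ := by
  rw [← map_natCast (algebraMap ℚ_[p] ℂ_[p]) n, norm_algebraMap',
    Padic.norm_eq_zpow_neg_valuation (by exact_mod_cast hn), Padic.valuation_natCast, zpow_neg,
    zpow_natCast]

lemma norm_map_le {F : Type} [NormedField F] [IsUltrametricDist F] {K : Type} [Field K]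
    (f : K →+* F) (a : 𝓞 K) : ‖f a‖ ≤ 1 :=
  norm_le_of_ultra (a.isIntegral_coe.map f.toIntAlgHom)

/-- The prime ideal of the integers of norm less than one. -/
def ctr {p : ℕ} [Fact p.Prime] {K : Type} [Field K] [NumberField K] (f : K →+* ℂ_[p]) :
    Ideal (𝓞 K) where
  carrier := {a | ‖f a‖ < 1}
  add_mem' := fun {a b} ha hb => by
    simp only [Set.mem_setOf_eq, map_add] at *
    exact (IsUltrametricDist.norm_add_le_max _ _).trans_lt (max_lt ha hb)
  zero_mem' := by simp
  smul_mem' := fun c a ha => by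
    simp only [Set.mem_setOf_eq, smul_eq_mul, map_mul, norm_mul] at *
    exact mul_lt_one_of_nonneg_of_lt_one_right
      (norm_map_le f c) (norm_nonneg _) ha

end ANV

open ANV

theorem anp : AnpStmt := by
  intro p hp
  have hp2 := hp.out.two_le
  refine ⟨fun m => ?_, fun n hn => ?_, fun n hn => ?_⟩
  · rw [norm_inv, norm_nat p m.factorial_ne_zero, inv_inv]
    have h1 := sub_one_mul_padicValNat_factorial (p := p) m
    have h2 : p ≤ 2 ^ (p - 1) := by
      have := Nat.lt_two_pow_self (n := p - 1)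
      omega
    have h3 : p ^ padicValNat p m.factorial ≤ 2 ^ m := by
      refine (Nat.pow_le_pow_left h2 _).trans ?_
      rw [← pow_mul]
      exact Nat.pow_le_pow_right (by norm_num) (by omega)
    exact_mod_cast h3
  · have h0 : n.natAbs ≠ 0 := Int.natAbs_ne_zero.2 hn
    have h1 : ‖(n : ℂ_[p])‖ = ‖((n.natAbs : ℕ) : ℂ_[p])‖ := by
      rcases Int.natAbs_eq n with h | h
      · conv_lhs => rw [h, Int.cast_natCast]
      · conv_lhs => rw [h, Int.cast_neg, Int.cast_natCast, norm_neg]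
    have h2 : p ^ padicValNat p n.natAbs ≤ n.natAbs :=
      Nat.le_of_dvd (Nat.pos_of_ne_zero h0) pow_padicValNat_dvd
    have h3 : (p : ℝ) ^ padicValNat p n.natAbs ≤ |(n : ℝ)| := by
      rw [← Int.cast_abs, ← Nat.cast_natAbs]
      exact_mod_cast h2
    rw [h1, norm_nat p h0, ← div_eq_mul_inv, one_le_div (by positivity)]
    exact h3
  · rw [norm_nat p (by rintro rfl; exact hn (dvd_zero p)), padicValNat.eq_zero_of_not_dvd hn]
    simp

theorem val : ValStmt := by
  intro p hp K _ _ f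
  have hle : ∀ a : 𝓞 K, ‖f a‖ ≤ 1 := norm_map_le f
  have hmem : ∀ a : 𝓞 K, a ∈ ctr f ↔ ‖f a‖ < 1 := fun a => Iff.rfl
  have hprime : (ctr f).IsPrime := by
    refine ⟨fun h => ?_, fun {a b} hab => ?_⟩
    · have := (hmem 1).1 (h ▸ Submodule.mem_top)
      simp at this
    · by_contra hc
      push Not at hc
      rw [hmem, not_lt] at hc
      have h1 := hc.2
      rw [hmem, not_lt] at h1
      rw [hmem] at hab
      simp only [map_mul, norm_mul] at hab
      exact absurd (one_le_mul_of_one_le_of_one_le hc.1 h1) (not_le.2 hab)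
  have hbot : ctr f ≠ ⊥ := by
    intro h
    have h1 : ((p : ℕ) : 𝓞 K) ∈ ctr f := by
      rw [hmem]
      simp only [map_natCast]
      rw [norm_nat p hp.out.ne_zero, padicValNat_self, pow_one]
      exact inv_lt_one_of_one_lt₀ (by exact_mod_cast hp.out.one_lt)
    rw [h, Ideal.mem_bot] at h1
    exact hp.out.ne_zero (by exact_mod_cast h1)
  let P : HOS K := ⟨ctr f, hprime, hbot⟩
  have key : ∀ γ : K, P.valuation K γ ≤ 1 → (P.valuation K γ = 1 ↔ ‖f γ‖ = 1) := by
    intro γ hγ
    obtain ⟨a, ⟨d, hd⟩, h⟩ := P.exists_primeCompl_mul_eq_of_integer γ hγ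
    have h1 : P.valuation K (algebraMap (𝓞 K) K d) = 1 := P.valuation_eq_one_iff_notMem.2 hd
    have h2 : ‖f d‖ = 1 := le_antisymm (hle d) (not_lt.1 hd)
    have h3 : P.valuation K γ = P.valuation K (algebraMap (𝓞 K) K a) := by
      rw [← h, map_mul, h1, mul_one]
    have h4 : ‖f γ‖ = ‖f a‖ := by
      change _ = ‖f (algebraMap (𝓞 K) K a)‖
      rw [← h, map_mul, norm_mul]
      change _ = _ * ‖f d‖
      rw [h2, mul_one]
    rw [h3, h4, P.valuation_eq_one_iff_notMem]
    exact ⟨fun hh => le_antisymm (hle a) (not_lt.1 hh), fun hh hh' => absurd hh (ne_of_lt hh')⟩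
  refine ⟨P, fun γ hγ => ?_⟩
  rcases le_total (P.valuation K γ) 1 with h | h
  · exact key γ h
  · have h1 := key γ⁻¹ (by rw [map_inv₀]; exact inv_le_one_of_one_le₀ h)
    rwa [map_inv₀, map_inv₀, norm_inv, inv_eq_one, inv_eq_one] at h1

end Pool.Agent.Szpiro98
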