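import Pool.Agent.Lib.Szpiro98.Blue

/-! Block CLS: residue classes of conjugate pairs. -/

namespace Pool.Agent.Szpiro98.CLS

variable {p : ℕ} [hp : Fact p.Prime]

theorem exists_cls (k : ℕ) : ∃ c : ℚ_[p] → ZMod (p ^ k), ∀ a b : ℚ_[p], ‖a‖ ≤ 1 → ‖b‖ ≤ 1 →
    c a = c b → ‖a - b‖ ≤ ((p : ℝ) ^ k)⁻¹ := by
  classical
  refine ⟨fun a => if h : ‖a‖ ≤ 1 then PadicInt.toZModPow k ⟨a, h⟩ else 0, fun a b ha hb e => ?_⟩
  simp only [ha, hb, dif_pos] at e
  rw [← sub_eq_zero, ← map_sub, ← RingHom.mem_ker, PadicInt.ker_toZModPow,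
    ← PadicInt.norm_le_pow_iff_mem_span_pow] at e
  rw [← zpow_natCast, ← zpow_neg]
  exact e

theorem norm_le_of_lt {a : ℚ_[p]} (h : ‖a‖ < 1) : ‖a‖ ≤ (p : ℝ)⁻¹ := by
  have := (Padic.norm_le_pow_iff_norm_lt_pow_add_one a (-1)).2 (by simpa using h)
  simpa using this

theorem norm_le_one {a : ℚ_[p]} (h : ‖a‖ ^ 2 ≤ p) : ‖a‖ ≤ 1 := by
  have h1 : (1 : ℝ) < p := by exact_mod_cast hp.out.one_lt
  have := (Padic.norm_le_pow_iff_norm_lt_pow_add_one a 0).2 (by
    simp only [zero_add, zpow_one]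
    by_contra H
    push Not at H
    nlinarith)
  simpa using this

theorem sub_le {a b : ℚ_[p]} {r : ℝ} (ha : ‖a‖ ≤ r) (hb : ‖b‖ ≤ r) : ‖a - b‖ ≤ r := by
  rw [sub_eq_add_neg]
  exact (IsUltrametricDist.norm_add_le_max _ _).trans (max_le ha (by rwa [norm_neg]))

theorem mul_le {a b : ℚ_[p]} {r : ℝ} (ha : ‖a‖ ≤ 1) (hb : ‖b‖ ≤ r) : ‖a * b‖ ≤ r := by
  rw [norm_mul]
  exact (mul_le_of_le_one_left (norm_nonneg _) ha).trans hb

/-- The classes in terms of the coordinates. -/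
theorem core (s ω : ℝ) (o : Prop) [Decidable o] (h0 : 0 < ω) (h1 : ω ≤ 1) (hs0 : 0 ≤ s)
    (hs : s ^ 2 = if o then (p : ℝ)⁻¹ else 1) : ∃ (T : Type) (_ : Fintype T) (c : ℚ_[p] × ℚ_[p] → T),
      Fintype.card T * ω ^ 6 ≤ 16 * (if o then 1 else p : ℝ) ∧ ∀ U V U' V' : ℚ_[p], ‖U‖ ≤ 1 → ‖V‖ ≤ 1 →
        ‖U'‖ ≤ 1 → ‖V'‖ ≤ 1 → c (U, V) = c (U', V') →
          s * ‖V * U' - U * V'‖ ≤ ω * ‖(2 : ℚ_[p])‖ := by
  classical
  have hp1 : (1 : ℝ) < p := by exact_mod_cast hp.out.one_lt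
  have hpi : (p : ℝ)⁻¹ ≤ 1 := inv_le_one_of_one_le₀ hp1.le
  have hs1 : s ≤ 1 := by
    refine (pow_le_one_iff_of_nonneg hs0 two_ne_zero).1 ?_
    rw [hs]; split_ifs; exacts [hpi, le_rfl]
  have hk1 : (1 : ℝ) ≤ if o then 1 else (p : ℝ) := by split_ifs; exacts [le_rfl, hp1.le]
  have hω6 : ω ^ 6 ≤ 1 := pow_le_one₀ h0.le h1
  have h2 : p ≠ 2 → ‖(2 : ℚ_[p])‖ = 1 := fun h => by
    have := (Padic.norm_natCast_eq_one_iff (p := p) (n := 2)).2
      ((Nat.coprime_primes hp.out Nat.prime_two).2 h)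
    simpa using this
  by_cases hc : p = 2 ∨ p * ω ^ 2 < 1
  · have hex : ∃ k : ℕ, 2 / ω ≤ (p : ℝ) ^ k := (pow_unbounded_of_one_lt _ hp1).imp fun _ h => h.le
    have hk := Nat.find_spec hex
    have hk0 : Nat.find hex ≠ 0 := fun e => by
      rw [e, pow_zero, div_le_one h0] at hk
      linarith
    obtain ⟨k, ek⟩ := Nat.exists_eq_succ_of_ne_zero hk0
    have hlt := not_le.1 (Nat.find_min hex (m := k) (by omega))
    rw [ek] at hk
    obtain ⟨c, hcl⟩ := exists_cls (p := p) (k + 1)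
    have : NeZero (p ^ (k + 1)) := ⟨pow_ne_zero _ hp.out.ne_zero⟩
    refine ⟨ZMod (p ^ (k + 1)) × ZMod (p ^ (k + 1)), inferInstance, fun x => (c x.1, c x.2), ?_,
      fun U V U' V' a b a' b' e => ?_⟩
    · refine le_trans ?_ (le_mul_of_one_le_right (by norm_num) hk1)
      rw [lt_div_iff₀ h0] at hlt
      have h3 : (0 : ℝ) ≤ p ^ k * ω := by positivity
      have h4 : ((p : ℝ) * ω ^ 2) ^ 2 ≤ 2 ^ 2 := by
        refine pow_le_pow_left₀ (by positivity) ?_ 2
        rcases hc with rfl | h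
        · have : ω ^ 2 ≤ 1 := pow_le_one₀ h0.le h1
          push_cast; linarith
        · linarith
      have h5 : ((p : ℝ) ^ k * ω) ^ 2 ≤ 2 ^ 2 := pow_le_pow_left₀ h3 hlt.le 2
      calc _ = ((p : ℝ) ^ k * ω) ^ 2 * ((p : ℝ) * ω ^ 2) ^ 2 := by
            simp only [Fintype.card_prod, ZMod.card]; push_cast; ring
        _ ≤ 2 ^ 2 * 2 ^ 2 := mul_le_mul h5 h4 (by positivity) (by positivity)
        _ = 16 := by norm_num
    · obtain ⟨e1, e2⟩ := Prod.mk.inj e
      have h3 : ‖V * U' - U * V'‖ ≤ ((p : ℝ) ^ (k + 1))⁻¹ := by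
        rw [show V * U' - U * V' = U' * (V - V') - V' * (U - U') by ring]
        exact sub_le (mul_le a' (hcl _ _ b b' e2)) (mul_le b' (hcl _ _ a a' e1))
      have h4 : ((p : ℝ) ^ (k + 1))⁻¹ ≤ ω / 2 := by
        rw [← inv_div]
        exact inv_anti₀ (by positivity) hk
      have h5 : (2 : ℝ)⁻¹ ≤ ‖(2 : ℚ_[p])‖ := by
        by_cases h : p = 2
        · subst h
          simpa using (Padic.norm_p (p := 2)).ge
        · rw [h2 h]; norm_num
      calc _ ≤ ‖V * U' - U * V'‖ := mul_le_of_le_one_left (norm_nonneg _) hs1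
        _ ≤ ω * 2⁻¹ := h3.trans h4
        _ ≤ _ := by gcongr
  · push Not at hc
    rw [h2 hc.1, mul_one]
    have h3 : (p : ℝ)⁻¹ ≤ ω ^ 2 := by
      rw [inv_le_iff_one_le_mul₀' (by positivity)]; exact hc.2
    by_cases ho : o
    · simp only [ho, if_true] at hs ⊢
      refine ⟨Unit, inferInstance, fun _ => (), by simp; linarith, fun U V U' V' a b a' b' _ => ?_⟩
      refine (mul_le_of_le_one_right hs0 (sub_le (mul_le b a') (mul_le a b'))).trans ?_
      exact (pow_le_pow_iff_left₀ hs0 h0.le two_ne_zero).1 (hs ▸ h3)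
    · simp only [ho, if_false]
      obtain ⟨c, hcl⟩ := exists_cls (p := p) 1
      have : NeZero (p ^ 1) := ⟨pow_ne_zero _ hp.out.ne_zero⟩
      refine ⟨Option (ZMod (p ^ 1)), inferInstance,
        fun x => if ‖x.1‖ = 1 then some (c (x.2 / x.1)) else none, ?_,
        fun U V U' V' a b a' b' e => ?_⟩
      · simp only [Fintype.card_option, ZMod.card]
        push_cast
        have : (0 : ℝ) ≤ ω ^ 6 := by positivity
        nlinarith
      · refine (mul_le_of_le_one_left (norm_nonneg _) hs1).trans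
          (le_trans ?_ (h3.trans (by nlinarith)))
        dsimp only at e
        split_ifs at e with k1 k2 k2
        · have n1 : U ≠ 0 := fun h => by simp [h] at k1
          have n2 : U' ≠ 0 := fun h => by simp [h] at k2
          rw [show V * U' - U * V' = U * (U' * (V / U - V' / U')) by field_simp]
          refine mul_le a (mul_le a' ?_)
          simpa using hcl _ _ (by simpa [k1] using b) (by simpa [k2] using b') (Option.some.inj e)
        · rw [mul_comm U]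
          exact sub_le (mul_le b (norm_le_of_lt (a'.lt_of_ne k2)))
            (mul_le b' (norm_le_of_lt (a.lt_of_ne k1)))

end Pool.Agent.Szpiro98.CLS

namespace Pool.Agent.Szpiro98

theorem cls : ClsStmt := by
  intro p hp ρ r hr hρ ω h0 h1
  classical
  have hp1 : (1 : ℝ) < p := by exact_mod_cast hp.out.one_lt
  have hp0 : (p : ℚ_[p]) ≠ 0 := by exact_mod_cast hp.out.ne_zero
  set ι := algebraMap ℚ_[p] ℂ_[p] with hι
  have hn : ∀ a, ‖ι a‖ = ‖a‖ := fun a => PadicComplex.norm_extends' p a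
  set j := r.valuation / 2
  set q : ℚ_[p] := (p : ℚ_[p]) ^ j with hq
  have hq0 : q ≠ 0 := zpow_ne_zero _ hp0
  have hq1 : ι q ≠ 0 := by simpa using hq0
  have hρ0 : ρ ≠ 0 := fun e => hr (by simpa [e] using hρ.symm)
  have hs : ‖ρ / ι q‖ ^ 2 = if Odd r.valuation then (p : ℝ)⁻¹ else 1 := by
    rw [← norm_pow, div_pow, hρ, ← map_pow, ← map_div₀, hn, norm_div, norm_pow, hq, norm_zpow,
      Padic.norm_p, Padic.norm_eq_zpow_neg_valuation hr, inv_zpow', ← zpow_natCast, ← zpow_mul,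
      ← zpow_sub₀ (by positivity)]
    split_ifs with h
    · rw [← zpow_neg_one]
      congr 1
      rw [Int.odd_iff] at h
      omega
    · rw [← zpow_zero (p : ℝ)]
      congr 1
      rw [Int.odd_iff] at h
      omega
  obtain ⟨T, _, c, hc, H⟩ := CLS.core (p := p) _ ω (Odd r.valuation) h0 h1 (norm_nonneg _) hs
  have hl := Function.leftInverse_invFun ι.injective
  refine ⟨Fintype.card T, fun z => Fintype.equivFin T
    (c (Function.invFun ι (z.1 + z.2), Function.invFun ι ((z.1 - z.2) / (ρ / ι q)))), hc, ?_⟩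
  have key : ∀ u v : ℚ_[p], ‖ι u + ι v * ρ‖ = 1 → ‖ι u - ι v * ρ‖ = 1 →
      (ι u + ι v * ρ + (ι u - ι v * ρ) = ι (2 * u) ∧
      (ι u + ι v * ρ - (ι u - ι v * ρ)) / (ρ / ι q) = ι (2 * v * q)) ∧ ‖2 * u‖ ≤ 1 ∧
      ‖2 * v * q‖ ≤ 1 := fun u v a b => by
    have e1 : ι u + ι v * ρ + (ι u - ι v * ρ) = ι (2 * u) := by simp only [map_mul, map_ofNat]; ring
    have e2 : ι u + ι v * ρ + -(ι u - ι v * ρ) = ι (2 * v * q) * (ρ / ι q) := by
      simp only [map_mul, map_ofNat]; field_simp; ring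
    refine ⟨⟨e1, by rw [sub_eq_add_neg, e2, mul_div_cancel_right₀ _ (div_ne_zero hρ0 hq1)]⟩, ?_,
      CLS.norm_le_one ?_⟩
    · rw [← hn, ← e1]
      exact (IsUltrametricDist.norm_add_le_max _ _).trans (max_le a.le b.le)
    · have h3 := (IsUltrametricDist.norm_add_le_max (ι u + ι v * ρ) (-(ι u - ι v * ρ))).trans
        (max_le a.le (by rw [norm_neg, b]))
      rw [e2, norm_mul, hn] at h3
      have h4 := pow_le_one₀ (n := 2) (by positivity) h3
      rw [mul_pow, hs] at h4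
      split_ifs at h4
      · rwa [← div_eq_mul_inv, div_le_one (by positivity)] at h4
      · linarith
  rintro _ _ _ _ ⟨u, v, rfl, rfl⟩ ⟨u', v', rfl, rfl⟩ a b a' b' e
  obtain ⟨⟨e1, e2⟩, n1, n2⟩ := key u v a b
  obtain ⟨⟨e1', e2'⟩, n1', n2'⟩ := key u' v' a' b'
  have e := (Fintype.equivFin T).injective e
  simp only [e1, e2, e1', e2', hl _] at e
  have h3 := H _ _ _ _ n1 n2 n1' n2' e
  have h2 : (0 : ℝ) < ‖(2 : ℚ_[p])‖ := by simp
  refine le_of_mul_le_mul_right (le_of_eq_of_le ?_ h3) h2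
  rw [← hn, ← hn, ← norm_mul, ← norm_mul]
  congr 1
  simp only [map_mul, map_sub, map_ofNat]
  field_simp
  ring

end Pool.Agent.Szpiro98
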