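import Pool.Agent.Lib.Szpiro98.Blue

/-! Block CNT: the number of ideals of bounded norm in a field of degree at most three. -/

namespace Pool.Agent.Szpiro98

open Finset Module NumberField IsDedekindDomain UniqueFactorizationMonoid

namespace Cnt

variable {K : Type} [Field K] [NumberField K]

/-- Every nonzero prime lies over a rational prime. -/
lemma exists_below (P : Ideal (𝓞 K)) (hP : Prime P) :
    ∃ q : ℕ, q.Prime ∧ P.LiesOver (Ideal.span {(q : ℤ)}) := by
  have h0 : P ≠ ⊥ := hP.ne_zero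
  have : P.IsPrime := Ideal.isPrime_of_prime hP
  have h1 : P.under ℤ ≠ ⊥ := Ideal.under_ne_bot ℤ h0
  obtain ⟨g, hg⟩ := (IsPrincipalIdealRing.principal (P.under ℤ)).principal
  have hg' : P.under ℤ = Ideal.span {g} := hg
  have hg0 : g ≠ 0 := by
    rintro rfl
    exact h1 (by simp [hg'])
  have hpr : Prime g := (Ideal.span_singleton_prime hg0).1 (hg' ▸ inferInstance)
  refine ⟨g.natAbs, Int.prime_iff_natAbs_prime.1 hpr, ⟨?_⟩⟩
  rw [hg', Int.span_natAbs]

/-- The rational prime below a prime. -/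
noncomputable def below (P : Ideal (𝓞 K)) : ℕ := by
  classical exact if h : Prime P then (exists_below P h).choose else 0

lemma below_spec {P : Ideal (𝓞 K)} (hP : Prime P) :
    (below P).Prime ∧ P.LiesOver (Ideal.span {(below P : ℤ)}) := by
  have := (exists_below P hP).choose_spec
  simpa only [below, dif_pos hP] using this

lemma norm_pow {P : Ideal (𝓞 K)} (hP : Prime P) : ∃ f : ℕ, f ≠ 0 ∧ Ideal.absNorm P = below P ^ f := by
  obtain ⟨h1, h2⟩ := below_spec hP
  refine ⟨_, ?_, Ideal.absNorm_eq_pow_inertiaDeg' P h1⟩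
  intro h
  have e := Ideal.absNorm_eq_pow_inertiaDeg' P h1
  rw [h, pow_zero, Ideal.absNorm_eq_one_iff] at e
  exact (Ideal.isPrime_of_prime hP).ne_top e

lemma exists_idx (hK : finrank ℚ K ≤ 3) : ∃ idx : Ideal (𝓞 K) → Fin 3,
    ∀ P Q, Prime P → Prime Q → below P = below Q → idx P = idx Q → P = Q := by
  have key : ∀ q : ℕ, ∃ g : Ideal (𝓞 K) → Fin 3, Set.InjOn g {P | Prime P ∧ below P = q} := by
    intro q
    by_cases hq : q.Prime
    · have h0 : Ideal.span {(q : ℤ)} ≠ ⊥ := by simpa using hq.ne_zero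
      have hm : (Ideal.span {(q : ℤ)}).IsMaximal :=
        ((Ideal.span_singleton_prime (by simpa using hq.ne_zero)).2 (Nat.prime_iff_prime_int.1 hq)).isMaximal h0
      have hc := (Ideal.card_primesOverFinset_le_finrank (𝓞 K) ℚ K h0).trans hK
      have hsub : {P : Ideal (𝓞 K) | Prime P ∧ below P = q} ⊆
          ↑(IsDedekindDomain.primesOverFinset (Ideal.span {(q : ℤ)}) (𝓞 K)) := by
        rintro P ⟨h1, rfl⟩
        rw [Finset.mem_coe, IsDedekindDomain.mem_primesOverFinset_iff h0]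
        exact ⟨Ideal.isPrime_of_prime h1, (below_spec h1).2⟩
      obtain ⟨g, -, hg⟩ := (Finset.finite_toSet
        (IsDedekindDomain.primesOverFinset (Ideal.span {(q : ℤ)}) (𝓞 K))).exists_injOn_of_encard_le
        (t := (Set.univ : Set (Fin 3))) (by
          rw [Set.encard_coe_eq_coe_finsetCard, Set.encard_univ]
          simpa using hc)
      exact ⟨g, hg.mono hsub⟩
    · refine ⟨fun _ => 0, ?_⟩
      rintro P ⟨h1, rfl⟩
      exact absurd (below_spec h1).1 hq
  choose g hg using key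
  refine ⟨fun P => g (below P) P, fun P Q hP hQ e h => hg (below P) ⟨hP, rfl⟩ ⟨hQ, e.symm⟩ ?_⟩
  simpa only [e] using h

/-- Products of primes above pairwise different rational primes are determined by the norm. -/
lemma eq_of_norm (A : Set (Ideal (𝓞 K))) (hA : ∀ P ∈ A, Prime P)
    (hi : ∀ P ∈ A, ∀ Q ∈ A, below P = below Q → P = Q) (s : Multiset (Ideal (𝓞 K))) :
    ∀ t : Multiset (Ideal (𝓞 K)), (∀ P ∈ s, P ∈ A) → (∀ P ∈ t, P ∈ A) →
      Ideal.absNorm s.prod = Ideal.absNorm t.prod → s = t := by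
  classical
  induction s using Multiset.induction_on with
  | empty =>
    intro t _ ht e
    by_contra hne
    obtain ⟨Q, hQ⟩ := Multiset.exists_mem_of_ne_zero (Ne.symm hne)
    have h1 : Ideal.absNorm Q ∣ 1 := by
      have := map_dvd Ideal.absNorm (Multiset.dvd_prod hQ)
      rwa [← e, Multiset.prod_zero, map_one] at this
    rw [Nat.dvd_one, Ideal.absNorm_eq_one_iff] at h1
    exact (Ideal.isPrime_of_prime (hA Q (ht Q hQ))).ne_top h1
  | cons P s ih =>
    intro t hs ht e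
    have hPA := hs P (Multiset.mem_cons_self _ _)
    obtain ⟨f, hf, hn⟩ := norm_pow (hA P hPA)
    have hq := (below_spec (hA P hPA)).1
    have h1 : below P ∣ (t.map Ideal.absNorm).prod := by
      rw [← map_multiset_prod, ← e, Multiset.prod_cons, map_mul, hn]
      exact Dvd.dvd.mul_right (dvd_pow_self _ hf) _
    obtain ⟨m, hm, h2⟩ := hq.prime.exists_mem_multiset_dvd h1
    obtain ⟨Q, hQ, rfl⟩ := Multiset.mem_map.1 hm
    obtain ⟨f', -, hn'⟩ := norm_pow (hA Q (ht Q hQ))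
    rw [hn'] at h2
    have h3 := (Nat.prime_dvd_prime_iff_eq hq (below_spec (hA Q (ht Q hQ))).1).1 (hq.dvd_of_dvd_pow h2)
    obtain rfl := hi P hPA Q (ht Q hQ) h3
    obtain ⟨t', rfl⟩ := Multiset.exists_cons_of_mem hQ
    rw [Multiset.prod_cons, Multiset.prod_cons, map_mul, map_mul] at e
    have h0 : 0 < Ideal.absNorm P := by
      rw [hn]; exact pow_pos hq.pos _
    rw [ih t' (fun R hR => hs R (Multiset.mem_cons_of_mem hR)) (fun R hR => ht R (Multiset.mem_cons_of_mem hR))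
      (Nat.eq_of_mul_eq_mul_left h0 e)]

/-- Triples of positive integers with product at most `N`. -/
def trip (N : ℕ) : Finset (ℕ × ℕ × ℕ) :=
  (Icc 1 N ×ˢ Icc 1 N).biUnion fun x => (Icc 1 (N / (x.1 * x.2))).image fun c => (x.1, x.2, c)

lemma mem_trip {N a b c : ℕ} (h0 : a * b * c ≠ 0) (h : a * b * c ≤ N) : (a, b, c) ∈ trip N := by
  have ha : 0 < a := Nat.pos_of_ne_zero fun e => h0 (by simp [e])
  have hb : 0 < b := Nat.pos_of_ne_zero fun e => h0 (by simp [e])
  have hc : 0 < c := Nat.pos_of_ne_zero fun e => h0 (by simp [e])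
  simp only [trip, mem_biUnion, mem_product, mem_Icc, mem_image]
  refine ⟨(a, b), ⟨⟨ha, ?_⟩, hb, ?_⟩, c, ⟨hc, ?_⟩, rfl⟩
  · calc a = a * 1 * 1 := by ring
      _ ≤ a * b * c := by gcongr <;> omega
      _ ≤ N := h
  · calc b = 1 * b * 1 := by ring
      _ ≤ a * b * c := by gcongr <;> omega
      _ ≤ N := h
  · rw [Nat.le_div_iff_mul_le (Nat.mul_pos ha hb)]
    calc c * (a * b) = a * b * c := by ring
      _ ≤ N := h

lemma card_trip (N : ℕ) : ((trip N).card : ℝ) ≤ N * (1 + Real.log N) ^ 2 := by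
  have h1 : (trip N).card ≤ ∑ x ∈ Icc 1 N ×ˢ Icc 1 N, N / (x.1 * x.2) := by
    refine card_biUnion_le.trans (sum_le_sum fun x _ => card_image_le.trans ?_)
    simp
  have h2 : ((harmonic N : ℚ) : ℝ) = ∑ a ∈ Icc 1 N, ((a : ℝ))⁻¹ := by
    simp [harmonic_eq_sum_Icc]
  have h3 := harmonic_le_one_add_log N
  rw [h2] at h3
  have h4 : 0 ≤ ∑ a ∈ Icc 1 N, ((a : ℝ))⁻¹ := sum_nonneg fun a _ => by positivity
  calc ((trip N).card : ℝ) ≤ ∑ x ∈ Icc 1 N ×ˢ Icc 1 N, ((N / (x.1 * x.2) : ℕ) : ℝ) := by exact_mod_cast h1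
    _ ≤ ∑ x ∈ Icc 1 N ×ˢ Icc 1 N, (N : ℝ) * (((x.1 : ℝ))⁻¹ * ((x.2 : ℝ))⁻¹) := by
      refine sum_le_sum fun x _ => Nat.cast_div_le.trans (le_of_eq ?_)
      push_cast
      rw [div_eq_mul_inv, mul_inv]
    _ = N * (∑ a ∈ Icc 1 N, ((a : ℝ))⁻¹) ^ 2 := by
      rw [← mul_sum, sq, sum_mul_sum, sum_product]
    _ ≤ N * (1 + Real.log N) ^ 2 := by gcongr

lemma split3 {α : Type} (idx : α → Fin 3) (s : Multiset α) :
    s = s.filter (fun P => idx P = 0) + s.filter (fun P => idx P = 1) + s.filter (fun P => idx P = 2) := by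
  induction s using Multiset.induction_on with
  | empty => simp
  | cons P s ih =>
    have : idx P = 0 ∨ idx P = 1 ∨ idx P = 2 := by omega
    rcases this with h | h | h <;> simp [h, ← ih]

end Cnt

open Cnt in
theorem cnt : CntStmt := by
  classical
  intro K _ _ hK Y hY T hT
  obtain ⟨idx, hidx⟩ := exists_idx hK
  let pt : Ideal (𝓞 K) → Fin 3 → Multiset (Ideal (𝓞 K)) := fun I j =>
    (normalizedFactors I).filter fun P => idx P = j
  let nm : Ideal (𝓞 K) → Fin 3 → ℕ := fun I j => Ideal.absNorm (pt I j).prod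
  have hsp : ∀ I : Ideal (𝓞 K), normalizedFactors I = pt I 0 + pt I 1 + pt I 2 := fun I => split3 idx _
  have hnm : ∀ I ∈ T, Ideal.absNorm I = nm I 0 * nm I 1 * nm I 2 := by
    intro I hI
    conv_lhs => rw [← Ideal.prod_normalizedFactors_eq_self (hT I hI).1, hsp I]
    simp only [Multiset.prod_add, map_mul, nm]
  have hpt : ∀ I J j, nm I j = nm J j → pt I j = pt J j := by
    intro I J j e
    refine eq_of_norm {P | Prime P ∧ idx P = j} (fun P hP => hP.1)
      (fun P hP Q hQ h => hidx P Q hP.1 hQ.1 h (hP.2.trans hQ.2.symm)) _ _ ?_ ?_ e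
    · intro P hP
      rw [Multiset.mem_filter] at hP
      exact ⟨prime_of_normalized_factor P hP.1, hP.2⟩
    · intro P hP
      rw [Multiset.mem_filter] at hP
      exact ⟨prime_of_normalized_factor P hP.1, hP.2⟩
  have hc : T.card ≤ (trip ⌊Y⌋₊).card := by
    refine card_le_card_of_injOn (fun I => (nm I 0, nm I 1, nm I 2)) (fun I hI => ?_) (fun I hI J hJ e => ?_)
    · have hI' : I ∈ T := hI
      refine mem_coe.2 (mem_trip ?_ ?_)
      · rw [← hnm I hI', Ne, Ideal.absNorm_eq_zero_iff]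
        exact (hT I hI').1
      · rw [← hnm I hI']
        exact Nat.le_floor (hT I hI').2
    · simp only [Prod.mk.injEq] at e
      rw [← Ideal.prod_normalizedFactors_eq_self (hT I hI).1, ← Ideal.prod_normalizedFactors_eq_self (hT J hJ).1,
        hsp I, hsp J, hpt I J 0 e.1, hpt I J 1 e.2.1, hpt I J 2 e.2.2]
  have h1 : (1 : ℝ) ≤ ⌊Y⌋₊ := by exact_mod_cast Nat.le_floor (by simpa using hY)
  have h2 : (⌊Y⌋₊ : ℝ) ≤ Y := Nat.floor_le (by linarith)
  have h3 := Real.log_nonneg h1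
  calc (T.card : ℝ) ≤ (trip ⌊Y⌋₊).card := by exact_mod_cast hc
    _ ≤ ⌊Y⌋₊ * (1 + Real.log ⌊Y⌋₊) ^ 2 := card_trip _
    _ ≤ Y * (1 + Real.log Y) ^ 2 := by gcongr

end Pool.Agent.Szpiro98
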