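import Pool.Agent.Lib.Szpiro98.DISC3A

/-! Local bounds for the discriminant of a cubic field, and a simple `p`-adic root. -/

namespace Pool.Agent.Szpiro98

open Module NumberField Pool.Agent.Lib.MP_cafdd5_nt

namespace DISC3

section arith
variable {p : ℕ} [hp : Fact p.Prime]

lemma v_pow {x : ℤ} (hx : x ≠ 0) (n : ℕ) : padicValInt p (x ^ n) = n * padicValInt p x := by
  induction n with
  | zero => simp
  | succ n ih => rw [pow_succ, padicValInt.mul (pow_ne_zero _ hx) hx, ih]; ring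

lemma v_le {x : ℤ} (hx : x ≠ 0) {n : ℕ} (h : (p : ℤ) ^ n ∣ x) : n ≤ padicValInt p x :=
  ((padicValInt_dvd_iff n x).1 h).resolve_left hx

lemma dvd_of_le {x : ℤ} {n : ℕ} (h : n ≤ padicValInt p x) : (p : ℤ) ^ n ∣ x :=
  (padicValInt_dvd_iff n x).2 (Or.inr h)

lemma v_lt {x : ℤ} {n : ℕ} (h : ¬ (p : ℤ) ^ n ∣ x) : x ≠ 0 ∧ padicValInt p x < n := by
  rw [padicValInt_dvd_iff, not_or, not_le] at h
  exact h

lemma v_p_pow (n : ℕ) : padicValInt p ((p : ℤ) ^ n) = n := by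
  rw [v_pow (Int.natCast_ne_zero.2 hp.out.ne_zero), padicValInt_self, mul_one]

lemma cancel {u x : ℤ} (hu : u ≠ 0) {n M : ℕ} (h : (p : ℤ) ^ M ∣ u * x)
    (hn : n + padicValInt p u ≤ M) : (p : ℤ) ^ n ∣ x := by
  rcases eq_or_ne x 0 with rfl | hx
  · exact dvd_zero _
  have := v_le (mul_ne_zero hu hx) h
  rw [padicValInt.mul hu hx] at this
  exact dvd_of_le (by omega)

lemma val_eq {x y : ℤ} {M : ℕ} (h : (p : ℤ) ^ M ∣ x - y) (hx : x ≠ 0) (hM : padicValInt p x < M) :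
    y ≠ 0 ∧ padicValInt p y = padicValInt p x := by
  have h1 : ¬ (p : ℤ) ^ (padicValInt p x + 1) ∣ y := fun k ↦ by
    have := ((pow_dvd_pow _ hM).trans h).add k
    rw [sub_add_cancel] at this
    have := v_le hx this
    omega
  obtain ⟨h2, h3⟩ := v_lt h1
  have h4 : (p : ℤ) ^ padicValInt p x ∣ y := by
    have := (padicValInt_dvd (p := p) x).sub ((pow_dvd_pow _ hM.le).trans h)
    rwa [sub_sub_cancel] at this
  have := v_le h2 h4
  exact ⟨h2, by omega⟩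

lemma root_dvd {u x : ℤ} (hu : ¬ (p : ℤ) ∣ u) {n k j : ℕ} (h : (p : ℤ) ^ n ∣ u * x ^ k)
    (hj : k * j < n + k) : (p : ℤ) ^ j ∣ x := by
  rcases eq_or_ne x 0 with rfl | hx
  · exact dvd_zero _
  have hu0 : u ≠ 0 := fun e ↦ hu (e ▸ dvd_zero _)
  have := v_le (mul_ne_zero hu0 (pow_ne_zero _ hx)) h
  rw [padicValInt.mul hu0 (pow_ne_zero _ hx), padicValInt.eq_zero_of_not_dvd hu, v_pow hx] at this
  refine dvd_of_le (not_lt.1 fun hlt ↦ ?_)
  have := Nat.mul_le_mul_left k (Nat.succ_le_of_lt hlt)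
  rw [Nat.mul_succ] at this
  omega

/-- linear congruences -/
lemma solve {u t : ℤ} (hu : u ≠ 0) (h : (p : ℤ) ^ padicValInt p u ∣ t) (M : ℕ) :
    ∃ c : ℤ, (p : ℤ) ^ M ∣ u * c + t := by
  obtain ⟨u', hu'⟩ := padicValInt_dvd (p := p) u
  obtain ⟨t', ht'⟩ := h
  have hpr : Prime (p : ℤ) := Nat.prime_iff_prime_int.1 hp.out
  have h1 : ¬ (p : ℤ) ∣ u' := fun k ↦ by
    have : (p : ℤ) ^ (padicValInt p u + 1) ∣ u := by
      conv_rhs => rw [hu']
      rw [pow_succ]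
      exact mul_dvd_mul_left _ k
    have := v_le hu this
    omega
  obtain ⟨x, y, hxy⟩ : IsCoprime ((p : ℤ) ^ M) u' :=
    IsCoprime.pow_left ((hpr.irreducible.coprime_iff_not_dvd).2 h1)
  refine ⟨-(y * t'), (p : ℤ) ^ padicValInt p u * t' * x, ?_⟩
  generalize (p : ℤ) ^ padicValInt p u = q at hu' ht'
  rw [hu', ht']
  linear_combination (-(q * t')) * hxy

lemma small : padicValInt p 2 + padicValInt p 3 ≤ 1 := by
  have h6 : padicValInt p (2 * 3) = padicValInt p 2 + padicValInt p 3 :=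
    padicValInt.mul (by norm_num) (by norm_num)
  rw [← h6]
  by_contra hlt
  have h1 : (p : ℤ) ^ 2 ∣ 2 * 3 := dvd_of_le (by omega)
  have h2 : p ^ 2 ∣ 6 := by exact_mod_cast h1
  have h3 := Nat.le_of_dvd (by norm_num) h2
  have h4 := hp.out.two_le
  have h5 : p = 2 := by nlinarith
  subst h5
  norm_num at h2

lemma not_dvd (h5 : 5 ≤ p) : ¬ (p : ℤ) ∣ 2 ∧ ¬ (p : ℤ) ∣ 3 ∧ ¬ (p : ℤ) ∣ 4 ∧ ¬ (p : ℤ) ∣ 27 := by
  have hpr : Prime (p : ℤ) := Nat.prime_iff_prime_int.1 hp.out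
  have h2 : ¬ (p : ℤ) ∣ 2 := fun h ↦ by have := Int.le_of_dvd (by norm_num) h; omega
  have h3 : ¬ (p : ℤ) ∣ 3 := fun h ↦ by have := Int.le_of_dvd (by norm_num) h; omega
  exact ⟨h2, h3, fun h ↦ h2 (hpr.dvd_of_dvd_pow (n := 2) h),
    fun h ↦ h3 (hpr.dvd_of_dvd_pow (n := 3) h)⟩

/-- a highly divisible discriminant determines the valuations of the coefficients -/
lemma six {a b : ℤ} (hm : ¬((p : ℤ) ^ 4 ∣ a ∧ (p : ℤ) ^ 6 ∣ b)) (h : (p : ℤ) ^ 14 ∣ disc a b) :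
    a ≠ 0 ∧ b ≠ 0 ∧ padicValInt p a ≤ 3 ∧
      2 * padicValInt p 2 + 3 * padicValInt p a = 3 * padicValInt p 3 + 2 * padicValInt p b := by
  have va : a ≠ 0 → padicValInt p (4 * a ^ 3) = 2 * padicValInt p 2 + 3 * padicValInt p a :=
    fun ha ↦ by
      rw [padicValInt.mul (by norm_num) (pow_ne_zero _ ha), v_pow ha,
        show (4 : ℤ) = 2 ^ 2 by norm_num, v_pow (by norm_num)]
  have vb : b ≠ 0 → padicValInt p (27 * b ^ 2) = 3 * padicValInt p 3 + 2 * padicValInt p b :=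
    fun hb ↦ by
      rw [padicValInt.mul (by norm_num) (pow_ne_zero _ hb), v_pow hb,
        show (27 : ℤ) = 3 ^ 3 by norm_num, v_pow (by norm_num)]
  have hs := small (p := p)
  rcases not_and_or.1 hm with k | k
  · obtain ⟨ha, k⟩ := v_lt k
    obtain ⟨h1, h2⟩ := val_eq h (mul_ne_zero (by norm_num) (pow_ne_zero _ ha))
      (by rw [va ha]; omega)
    have hb : b ≠ 0 := fun e ↦ h1 (by simp [e])
    rw [va ha, vb hb] at h2
    exact ⟨ha, hb, by omega, h2.symm⟩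
  · obtain ⟨hb, k⟩ := v_lt k
    have h' : (p : ℤ) ^ 14 ∣ 27 * b ^ 2 - 4 * a ^ 3 := dvd_sub_comm.1 h
    obtain ⟨h1, h2⟩ := val_eq h' (mul_ne_zero (by norm_num) (pow_ne_zero _ hb))
      (by rw [vb hb]; omega)
    have ha : a ≠ 0 := fun e ↦ h1 (by simp [e])
    rw [va ha, vb hb] at h2
    exact ⟨ha, hb, by omega, h2⟩

end arith

section field
variable {p : ℕ} [hp : Fact p.Prime] {K : Type} [Field K] [NumberField K] {θ : K} {a b : ℤ}

lemma v_disc (h3 : finrank ℚ K = 3) (hθ : ∀ x : ℚ, θ ≠ x) (h : θ ^ 3 - a * θ - b = 0)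
    (hD : disc a b ≠ 0) {k : ℕ} {c : ℤ} (h1 : (p : ℤ) ^ k ∣ 3 * c ^ 2 - a)
    (h2 : (p : ℤ) ^ (2 * k) ∣ c ^ 3 - a * c - b) :
    padicValInt p (discr K) + 2 * k ≤ padicValInt p (disc a b) := by
  have hp0 : (p : ℤ) ^ k ≠ 0 := pow_ne_zero _ (Int.natCast_ne_zero.2 hp.out.ne_zero)
  have h4 := dvd_disc h3 hθ h hp0 h1 (by rwa [← pow_mul, mul_comm])
  have h5 := v_le hD ((padicValInt_dvd (p := p) _).trans h4)
  rwa [padicValInt.mul (discr_ne_zero K) (pow_ne_zero _ hp0), v_pow hp0, v_p_pow] at h5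

/-- approximation of the double root -/
lemma node (h3 : finrank ℚ K = 3) (hθ : ∀ x : ℚ, θ ≠ x) (h : θ ^ 3 - a * θ - b = 0)
    (hD : disc a b ≠ 0) (ha : a ≠ 0) (hb : (p : ℤ) ^ padicValInt p (2 * a) ∣ 3 * b) {k : ℕ}
    (hk : 2 * k + 3 * padicValInt p (2 * a) ≤ padicValInt p (disc a b)) :
    padicValInt p (discr K) + 2 * k ≤ padicValInt p (disc a b) := by
  have ha2 : 2 * a ≠ 0 := mul_ne_zero two_ne_zero ha
  obtain ⟨c, hc⟩ := solve ha2 hb (padicValInt p (disc a b))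
  have hd := padicValInt_dvd (p := p) (disc a b)
  refine v_disc h3 hθ h hD (c := c) ?_ ?_
  · refine cancel (pow_ne_zero 2 ha2) (M := padicValInt p (disc a b)) ?_ (by rw [v_pow ha2]; omega)
    have : (2 * a) ^ 2 * (3 * c ^ 2 - a) =
        (2 * a * c + 3 * b) * (3 * (2 * a * c + 3 * b) - 18 * b) - disc a b := by
      rw [disc]; ring
    rw [this]
    exact (hc.mul_right _).sub hd
  · refine cancel (pow_ne_zero 3 ha2) (M := padicValInt p (disc a b)) ?_ (by rw [v_pow ha2]; omega)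
    have : (2 * a) ^ 3 * (c ^ 3 - a * c - b) = (2 * a * c + 3 * b) * ((2 * a * c + 3 * b) ^ 2 -
        9 * b * (2 * a * c + 3 * b) + 27 * b ^ 2 - 4 * a ^ 3) + disc a b * b := by
      rw [disc]; ring
    rw [this]
    exact (hc.mul_right _).add (hd.mul_right _)

lemma node0 (h3 : finrank ℚ K = 3) (hθ : ∀ x : ℚ, θ ≠ x) (h : θ ^ 3 - a * θ - b = 0)
    (hD : disc a b ≠ 0) (h5 : 5 ≤ p) (ha : ¬ (p : ℤ) ∣ a) :
    padicValInt p (discr K) ≤ padicValInt p (disc a b) % 2 := by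
  have hpr : Prime (p : ℤ) := Nat.prime_iff_prime_int.1 hp.out
  have h0 : padicValInt p (2 * a) = 0 := padicValInt.eq_zero_of_not_dvd fun k ↦
    (hpr.dvd_or_dvd k).elim (not_dvd h5).1 ha
  have := node (p := p) h3 hθ h hD (fun e ↦ ha (e ▸ dvd_zero _)) (by simp [h0])
    (k := padicValInt p (disc a b) / 2) (by omega)
  omega

lemma cusp (h3 : finrank ℚ K = 3) (hθ : ∀ x : ℚ, θ ≠ x) (h : θ ^ 3 - a * θ - b = 0)
    (hD : disc a b ≠ 0) (h5 : 5 ≤ p) (hm : ¬((p : ℤ) ^ 2 ∣ a ∧ (p : ℤ) ^ 3 ∣ b)) :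
    padicValInt p (discr K) ≤ 2 := by
  by_cases ha : (p : ℤ) ∣ a
  swap
  · have := node0 h3 hθ h hD h5 ha
    omega
  by_contra hlt
  obtain ⟨-, -, n4, n27⟩ := not_dvd h5
  have e : ∀ n : ℕ, (p : ℤ) ^ n ∣ disc a b → ((p : ℤ) ^ n ∣ 4 * a ^ 3 ↔ (p : ℤ) ^ n ∣ 27 * b ^ 2) :=
    fun n hn ↦ dvd_iff_dvd_of_dvd_sub hn
  have v0 := v_disc (p := p) h3 hθ h hD (k := 0) (c := 0) (by simp) (by simp)
  have b2 : (p : ℤ) ^ 2 ∣ b := root_dvd n27 ((e 3 (dvd_of_le (by omega))).1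
    ((pow_dvd_pow_of_dvd ha 3).mul_left _)) (by norm_num)
  have v1 := v_disc (p := p) h3 hθ h hD (k := 1) (c := 0) (by simpa using ha) (by simpa using b2)
  have a2 : (p : ℤ) ^ 2 ∣ a := root_dvd n4 ((e 4 (dvd_of_le (by omega))).2 (by
    have := pow_dvd_pow_of_dvd b2 2
    rw [← pow_mul] at this
    exact this.mul_left _)) (by norm_num)
  refine hm ⟨a2, root_dvd n27 ((e 5 (dvd_of_le (by omega))).1 ?_) (by norm_num)⟩
  have := pow_dvd_pow_of_dvd a2 3
  rw [← pow_mul] at this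
  exact ((pow_dvd_pow _ (by norm_num)).trans this).mul_left _

lemma scale {a' b' : ℤ} (hθ : ∀ x : ℚ, θ ≠ x) (h : θ ^ 3 - a * θ - b = 0)
    (ha : a = (p : ℤ) ^ 2 * a') (hb : b = (p : ℤ) ^ 3 * b') :
    (∀ x : ℚ, θ / p ≠ x) ∧ (θ / p) ^ 3 - a' * (θ / p) - b' = 0 ∧
      disc a b = (p : ℤ) ^ 6 * disc a' b' := by
  have h0 : (p : K) ≠ 0 := Nat.cast_ne_zero.2 hp.out.ne_zero
  refine ⟨fun x e ↦ hθ (x * p) ?_, ?_, ?_⟩
  · rw [div_eq_iff h0] at e
    rw [e]
    push_cast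
    rfl
  · rw [ha, hb] at h
    push_cast at h
    field_simp
    linear_combination h
  · rw [ha, hb, disc, disc]
    ring

end field

end DISC3

open DISC3

theorem disc3 : Disc3Stmt := by
  intro a b K _ _ θ h3 h hθ hD hm p hp
  have := Fact.mk hp
  have hm := hm p hp
  have v0 := v_disc (p := p) h3 hθ h hD (k := 0) (c := 0) (by simp) (by simp)
  have hp0 : (p : ℤ) ≠ 0 := Int.natCast_ne_zero.2 hp.ne_zero
  have hd := discr_ne_zero K
  refine ⟨?_, fun h5 ↦ ⟨fun k ↦ ?_, ?_, fun h30 he ↦ ⟨fun k ↦ ?_, fun _ ↦ he⟩⟩⟩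
  · by_contra hlt
    obtain ⟨ha, hb, h1, h2⟩ := six hm (dvd_of_le (by omega))
    have hs := small (p := p)
    have e2 : padicValInt p (2 * a) = padicValInt p 2 + padicValInt p a :=
      padicValInt.mul two_ne_zero ha
    have e3 : padicValInt p (3 * b) = padicValInt p 3 + padicValInt p b :=
      padicValInt.mul three_ne_zero hb
    have := node (p := p) h3 hθ h hD ha (dvd_of_le (by omega))
      (k := (padicValInt p (disc a b) - 3 * padicValInt p (2 * a)) / 2) (by omega)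
    omega
  · have := v_le (p := p) hd (n := 1) (by simpa using k)
    simpa using dvd_of_le (p := p) (n := 1) (x := disc a b) (by omega)
  · split_ifs with ha
    · by_cases k : (p : ℤ) ^ 2 ∣ a ∧ (p : ℤ) ^ 3 ∣ b
      · obtain ⟨⟨a', ha'⟩, ⟨b', hb'⟩⟩ := k
        obtain ⟨g1, g2, g3⟩ := scale hθ h ha' hb'
        refine cusp h3 g1 g2 (fun e ↦ hD (by rw [g3, e, mul_zero])) h5 fun k ↦ hm ⟨?_, ?_⟩
        · rw [ha', show 4 = 2 + 2 from rfl, pow_add]
          exact mul_dvd_mul_left _ k.1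
        · rw [hb', show 6 = 3 + 3 from rfl, pow_add]
          exact mul_dvd_mul_left _ k.2
      · exact cusp h3 hθ h hD h5 k
    · have := node0 h3 hθ h hD h5 ha
      omega
  · have k1 := v_le (p := p) hd (n := 1) (by simpa using k)
    rw [Nat.even_iff] at he
    by_cases ha : (p : ℤ) ∣ a
    swap
    · have := node0 h3 hθ h hD h5 ha
      omega
    obtain ⟨ha0, hb0, h1, h2⟩ := six hm (dvd_of_le (by omega))
    obtain ⟨n2, n3, -, -⟩ := not_dvd h5
    rw [padicValInt.eq_zero_of_not_dvd n2, padicValInt.eq_zero_of_not_dvd n3] at h2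
    have k2 := v_le (p := p) ha0 (n := 1) (by simpa using ha)
    obtain ⟨a', ha'⟩ : (p : ℤ) ^ 2 ∣ a := dvd_of_le (by omega)
    obtain ⟨b', hb'⟩ : (p : ℤ) ^ 3 ∣ b := dvd_of_le (by omega)
    obtain ⟨g1, g2, g3⟩ := scale hθ h ha' hb'
    have hD' : disc a' b' ≠ 0 := fun e ↦ hD (by rw [g3, e, mul_zero])
    have := node0 h3 g1 g2 hD' h5 fun k ↦ by
      have : (p : ℤ) ^ 3 ∣ a := by
        rw [ha', pow_succ _ 2]
        exact mul_dvd_mul_left _ k
      have := v_le ha0 this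
      omega
    rw [g3, padicValInt.mul (pow_ne_zero _ hp0) hD', v_p_pow] at he
    omega

theorem p3 : P3Stmt := by
  intro a b p hp hD hm h18
  obtain ⟨ha, hb, h1, h2⟩ := six (hm p hp.out) (dvd_of_le (by omega))
  have hs := small (p := p)
  have e3 : padicValInt p (-(3 * b)) = padicValInt p 3 + padicValInt p b := by
    rw [← padicValInt.mul three_ne_zero hb]
    simp [padicValInt]
  obtain ⟨c, hc⟩ := solve (p := p) ha (t := -(3 * b)) (dvd_of_le (by omega)) 19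
  have hd : (p : ℤ) ^ 19 ∣ disc a b := dvd_of_le h18
  set s := padicValInt p 3 + padicValInt p a with hs'
  have k1 : ¬ (p : ℤ) ^ (s + 1) ∣ 3 * c ^ 2 - a := fun k ↦ by
    have e : 3 * a ^ 3 - a ^ 2 * (3 * c ^ 2 - a) =
        disc a b - (a * c + -(3 * b)) * (3 * (a * c + -(3 * b)) + 18 * b) := by
      rw [disc]; ring
    have v3 : padicValInt p (3 * a ^ 3) = padicValInt p 3 + 3 * padicValInt p a := by
      rw [padicValInt.mul three_ne_zero (pow_ne_zero _ ha), v_pow ha]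
    obtain ⟨g1, g2⟩ := val_eq (p := p) (M := 19) (e ▸ hd.sub (hc.mul_right _))
      (mul_ne_zero three_ne_zero (pow_ne_zero _ ha)) (by omega)
    have g3 := right_ne_zero_of_mul g1
    rw [padicValInt.mul (pow_ne_zero _ ha) g3, v_pow ha] at g2
    have := v_le g3 k
    omega
  have k2 : (p : ℤ) ^ (2 * s + 1) ∣ c ^ 3 - a * c - b := by
    refine cancel (pow_ne_zero 3 ha) (M := 19) ?_ (by rw [v_pow ha]; omega)
    have : a ^ 3 * (c ^ 3 - a * c - b) = (a * c + -(3 * b)) * ((a * c + -(3 * b)) ^ 2 +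
        9 * b * (a * c + -(3 * b)) + 27 * b ^ 2 - a ^ 3) - disc a b * b := by
      rw [disc]; ring
    rw [this]
    exact (hc.mul_right _).sub (hd.mul_right _)
  have hp1 : (1 : ℝ) < p := by exact_mod_cast hp.out.one_lt
  have hp0 : (0 : ℝ) < p := by linarith
  let F : Polynomial ℤ_[p] := Polynomial.X ^ 3 - Polynomial.C (a : ℤ_[p]) * Polynomial.X -
    Polynomial.C (b : ℤ_[p])
  have f0 : ∀ z : ℤ_[p], F.aeval z = z ^ 3 - a * z - b := fun z ↦ by simp [F]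
  have f1 : ∀ z : ℤ_[p], F.derivative.aeval z = 3 * z ^ 2 - a := fun z ↦ by
    simp [F]
    norm_num
  have n1 : (p : ℝ) ^ (-(s : ℤ)) ≤ ‖F.derivative.aeval (c : ℤ_[p])‖ := by
    rw [← PadicInt.norm_int_le_pow_iff_dvd, PadicInt.norm_le_pow_iff_norm_lt_pow_add_one,
      not_lt] at k1
    rw [f1]
    push_cast at k1
    rwa [show -((s : ℤ) + 1) + 1 = -s by ring] at k1
  have n0 : ‖F.aeval (c : ℤ_[p])‖ < ‖F.derivative.aeval (c : ℤ_[p])‖ ^ 2 := by
    rw [← PadicInt.norm_int_le_pow_iff_dvd, PadicInt.norm_le_pow_iff_norm_lt_pow_add_one] at k2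
    rw [f0]
    push_cast at k2
    refine k2.trans_le (le_trans (le_of_eq ?_) (pow_le_pow_left₀ (by positivity) n1 2))
    rw [← zpow_natCast, ← zpow_mul]
    congr 1
    push_cast
    ring
  obtain ⟨z, z0, -, z1, -⟩ := hensels_lemma n0
  refine ⟨z, ?_, ?_⟩
  · rw [f0] at z0
    exact_mod_cast congrArg (fun x : ℤ_[p] ↦ (x : ℚ_[p])) z0
  · rw [← z1, f1, PadicInt.norm_def] at n1
    push_cast at n1
    refine le_trans ?_ (mul_le_mul_of_nonneg_left n1 (by positivity))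
    rw [← zpow_natCast, ← zpow_add₀ hp0.ne']
    exact one_le_zpow₀ hp1.le (by omega)

end Pool.Agent.Szpiro98
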