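import Pool.Agent.Lib.Szpiro98.Blue

/-! Block FAM: a large family of integers of a number field whose quotients are `S`-units. -/

namespace Pool.Agent.Szpiro98

open Finset Module NumberField IsDedekindDomain
open scoped nonZeroDivisors

namespace Fam

variable {K : Type} [Field K] [NumberField K]

/-- order of an ideal at a prime -/
noncomputable def od (v : HOS K) (I : Ideal (𝓞 K)) : ℤ :=
  FractionalIdeal.count K v (I : FractionalIdeal (𝓞 K)⁰ K)

lemma od_mul (v : HOS K) {I J : Ideal (𝓞 K)} (hI : I ≠ ⊥) (hJ : J ≠ ⊥) :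
    od v (I * J) = od v I + od v J := by
  unfold od
  rw [FractionalIdeal.coeIdeal_mul, FractionalIdeal.count_mul K v
    (FractionalIdeal.coeIdeal_ne_zero.2 hI) (FractionalIdeal.coeIdeal_ne_zero.2 hJ)]

lemma val_eq (v : HOS K) {γ : 𝓞 K} (h : γ ≠ 0) :
    v.valuation K (γ : K) = WithZero.exp (-od v (Ideal.span {γ})) := by
  have h1 : (Ideal.span {γ} : Ideal (𝓞 K)) ≠ 0 := by
    rw [Ne, Ideal.zero_eq_bot, Ideal.span_singleton_eq_bot]; exact h
  unfold od
  rw [FractionalIdeal.count_coe K v h1, ← v.intValuation_if_neg h]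
  exact v.valuation_of_algebraMap γ

/-- the ideal with prescribed exponents -/
noncomputable def aa (S : Finset (HOS K)) (k : S → ℕ) : Ideal (𝓞 K) := ∏ u : S, u.1.asIdeal ^ k u

lemma aa_ne (S : Finset (HOS K)) (k : S → ℕ) : aa S k ≠ ⊥ :=
  prod_ne_zero_iff.2 fun u _ ↦ pow_ne_zero _ u.1.ne_bot

lemma od_aa_sum (S : Finset (HOS K)) (k : S → ℕ) (v : HOS K) :
    od v (aa S k) = ∑ u : S, (k u : ℤ) * od v u.1.asIdeal := by
  unfold od aa
  have e : ((∏ u : S, u.1.asIdeal ^ k u : Ideal (𝓞 K)) : FractionalIdeal (𝓞 K)⁰ K) =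
      ∏ u : S, (u.1.asIdeal : FractionalIdeal (𝓞 K)⁰ K) ^ k u := by
    have := map_prod (FractionalIdeal.coeIdealHom (𝓞 K)⁰ K) (fun u : S ↦ u.1.asIdeal ^ k u) univ
    simpa only [map_pow, FractionalIdeal.coeIdealHom_apply] using this
  rw [e, FractionalIdeal.count_prod K v _ _ fun u _ ↦
    pow_ne_zero _ (FractionalIdeal.coeIdeal_ne_zero.2 u.1.ne_bot)]
  exact sum_congr rfl fun u _ ↦ FractionalIdeal.count_pow K v _ _

lemma od_aa (S : Finset (HOS K)) (k : S → ℕ) (u : S) : od u.1 (aa S k) = k u := by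
  rw [od_aa_sum, sum_eq_single u]
  · unfold od
    rw [FractionalIdeal.count_self, mul_one]
  · intro b _ hb
    unfold od
    rw [FractionalIdeal.count_maximal_coprime K u.1 fun h ↦ hb (Subtype.ext h), mul_zero]
  · intro h
    exact absurd (mem_univ u) h

lemma od_aa_not (S : Finset (HOS K)) (k : S → ℕ) {v : HOS K} (hv : v ∉ S) :
    od v (aa S k) = 0 := by
  rw [od_aa_sum]
  refine sum_eq_zero fun u _ ↦ ?_
  unfold od
  rw [FractionalIdeal.count_maximal_coprime K v fun h ↦ hv (h ▸ u.2), mul_zero]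

lemma aa_dvd (S : Finset (HOS K)) {k k' : S → ℕ} (h : ∀ u, k u ≤ k' u) : aa S k ∣ aa S k' :=
  prod_dvd_prod_of_dvd _ _ fun u _ ↦ pow_dvd_pow _ (h u)

lemma one_le_norm {I : Ideal (𝓞 K)} (h : I ≠ ⊥) : (1 : ℝ) ≤ Ideal.absNorm I := by
  have : Ideal.absNorm I ≠ 0 := fun h' ↦ h (Ideal.absNorm_eq_zero_iff.1 h')
  exact_mod_cast Nat.one_le_iff_ne_zero.2 this

lemma log_norm_aa (S : Finset (HOS K)) (k : S → ℕ) :
    Real.log (Ideal.absNorm (aa S k)) =
      ∑ u : S, (k u : ℝ) * Real.log (Ideal.absNorm u.1.asIdeal) := by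
  unfold aa
  rw [map_prod, Nat.cast_prod, Real.log_prod]
  · refine sum_congr rfl fun u _ ↦ ?_
    rw [map_pow, Nat.cast_pow, Real.log_pow]
  · intro u _
    exact (zero_lt_one.trans_le (one_le_norm (pow_ne_zero _ u.1.ne_bot))).ne'

lemma half_le_log (v : HOS K) : 1 / 2 ≤ Real.log (Ideal.absNorm v.asIdeal) := by
  have h : (2 : ℝ) ≤ Ideal.absNorm v.asIdeal := by
    exact_mod_cast NumberField.HeightOneSpectrum.one_lt_absNorm v
  have := Real.log_le_log two_pos h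
  linarith [Real.log_two_gt_d9]

lemma one_le_dk : 1 ≤ dk K := by
  unfold dk
  have := Int.one_le_abs (discr_ne_zero K)
  exact_mod_cast this

lemma mink_le (hK : finrank ℚ K ≤ 3) {I : Ideal (𝓞 K)} (hI : I ∈ (Ideal (𝓞 K))⁰) :
    mixedEmbedding.minkowskiBound K (FractionalIdeal.mk0 K ⟨I, hI⟩) ≤
      ENNReal.ofReal (Ideal.absNorm I * (8 * √(dk K))) := by
  unfold mixedEmbedding.minkowskiBound
  rw [mixedEmbedding.volume_fundamentalDomain_fractionalIdealLatticeBasis,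
    mixedEmbedding.volume_fundamentalDomain_latticeBasis, mixedEmbedding.finrank,
    FractionalIdeal.coe_mk0, FractionalIdeal.coeIdeal_absNorm, mul_assoc,
    ENNReal.ofReal_mul (Nat.cast_nonneg _), ENNReal.ofReal_mul (by norm_num)]
  simp only [Rat.cast_natCast]
  refine mul_le_mul_right ?_ _
  have e : ((NNReal.sqrt ‖discr K‖₊ : NNReal) : ENNReal) = ENNReal.ofReal √(dk K) := by
    rw [← ENNReal.ofReal_coe_nnreal, Real.coe_sqrt, coe_nnnorm, Int.norm_eq_abs]
    rfl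
  rw [e]
  have h1 : (2⁻¹ : ENNReal) ^ InfinitePlace.nrComplexPlaces K ≤ 1 :=
    pow_le_one₀ zero_le (by simp)
  have h2 : (2 : ENNReal) ^ finrank ℚ K ≤ ENNReal.ofReal 8 := by
    refine (pow_le_pow_right₀ (by norm_num) hK).trans ?_
    norm_num
  calc (2⁻¹ : ENNReal) ^ InfinitePlace.nrComplexPlaces K * ENNReal.ofReal √(dk K) *
        2 ^ finrank ℚ K ≤ 1 * ENNReal.ofReal √(dk K) * ENNReal.ofReal 8 := by gcongr
    _ = _ := by rw [one_mul, mul_comm]

/-- Minkowski: an element of an ideal with almost prescribed sizes. -/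
lemma exists_elt (hK : finrank ℚ K ≤ 3) {I : Ideal (𝓞 K)} (hI : I ≠ ⊥) (g : InfinitePlace K → ℝ)
    (hg : ∑ w, (w.mult : ℝ) * g w = Real.log (9 * √(dk K)) + Real.log (Ideal.absNorm I)) :
    ∃ (γ : 𝓞 K) (C : Ideal (𝓞 K)), γ ≠ 0 ∧ Ideal.span {γ} = I * C ∧ C ≠ ⊥ ∧
      (Ideal.absNorm C : ℝ) ≤ 9 * √(dk K) ∧ ∀ w : InfinitePlace K,
        g w - Real.log (9 * √(dk K)) ≤ Real.log (w γ) ∧ Real.log (w γ) < g w := by
  have hI' : I ∈ (Ideal (𝓞 K))⁰ := mem_nonZeroDivisors_of_ne_zero hI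
  have hN := one_le_norm hI
  have hs : 1 ≤ √(dk K) := Real.one_le_sqrt.2 one_le_dk
  let f : InfinitePlace K → NNReal := fun w ↦ ⟨Real.exp (g w), (Real.exp_pos _).le⟩
  have hf : ((∏ w, f w ^ w.mult : NNReal) : ℝ) = Ideal.absNorm I * (9 * √(dk K)) := by
    push_cast
    have : ∀ w : InfinitePlace K, (f w : ℝ) ^ w.mult = Real.exp (w.mult * g w) := fun w ↦ by
      rw [Real.exp_nat_mul]; rfl
    rw [prod_congr rfl fun w _ ↦ this w, ← Real.exp_sum, hg, Real.exp_add,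
      Real.exp_log (by linarith), Real.exp_log (by linarith), mul_comm]
  obtain ⟨a, ha, ha0, haw⟩ := mixedEmbedding.exists_ne_zero_mem_ideal_lt K (f := f)
    (FractionalIdeal.mk0 K ⟨I, hI'⟩) (by
      refine (mink_le hK hI').trans_lt ?_
      rw [mixedEmbedding.convexBodyLT_volume]
      refine lt_of_lt_of_le ?_ (le_mul_of_one_le_left zero_le
        (by exact_mod_cast mixedEmbedding.one_le_convexBodyLTFactor K))
      rw [← ENNReal.ofReal_coe_nnreal, hf, ENNReal.ofReal_lt_ofReal_iff (by positivity)]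
      nlinarith)
  rw [FractionalIdeal.coe_mk0, FractionalIdeal.mem_coeIdeal] at ha
  obtain ⟨γ, hγ, rfl⟩ := ha
  have hγ0 : γ ≠ 0 := fun h ↦ ha0 (by rw [h, map_zero])
  obtain ⟨C, hC⟩ : I ∣ Ideal.span {γ} :=
    Ideal.dvd_iff_le.2 ((Ideal.span_singleton_le_iff_mem _).2 hγ)
  have hC0 : C ≠ ⊥ := by
    rintro rfl
    rw [Ideal.mul_bot, Ideal.span_singleton_eq_bot] at hC
    exact hγ0 hC
  have hNC := one_le_norm hC0
  have hw : ∀ w : InfinitePlace K, 0 < w (γ : K) := fun w ↦ InfinitePlace.pos_iff.2 ha0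
  have hlt : ∀ w : InfinitePlace K, Real.log (w (γ : K)) < g w := fun w ↦
    (Real.log_lt_iff_lt_exp (hw w)).2 (haw w)
  have hn : ∏ w : InfinitePlace K, w (γ : K) ^ w.mult = Ideal.absNorm I * Ideal.absNorm C := by
    rw [InfinitePlace.prod_eq_abs_norm, ← Algebra.coe_norm_int, ← Nat.cast_mul, ← map_mul, ← hC,
      Ideal.absNorm_span_singleton, Nat.cast_natAbs]
    push_cast
    rfl
  have hl : ∑ w : InfinitePlace K, (w.mult : ℝ) * Real.log (w (γ : K)) =
      Real.log (Ideal.absNorm I) + Real.log (Ideal.absNorm C) := by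
    rw [← Real.log_mul (by linarith) (by linarith), ← hn,
      Real.log_prod fun w _ ↦ (pow_pos (hw w) _).ne']
    exact sum_congr rfl fun w _ ↦ (Real.log_pow _ _).symm
  have hd : ∑ w : InfinitePlace K, (w.mult : ℝ) * (g w - Real.log (w (γ : K))) =
      Real.log (9 * √(dk K)) - Real.log (Ideal.absNorm C) := by
    simp only [mul_sub, sum_sub_distrib, hg, hl]
    ring
  have hnn : ∀ w ∈ (univ : Finset (InfinitePlace K)),
      0 ≤ (w.mult : ℝ) * (g w - Real.log (w (γ : K))) := fun w _ ↦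
    mul_nonneg (Nat.cast_nonneg _) (sub_nonneg.2 (hlt w).le)
  refine ⟨γ, C, hγ0, hC, hC0, ?_, fun w ↦ ⟨?_, hlt w⟩⟩
  · have := sum_nonneg hnn
    rw [hd, sub_nonneg] at this
    exact (Real.log_le_log_iff (by linarith) (by linarith)).1 this
  · have h1 := single_le_sum hnn (mem_univ w)
    have h2 := le_mul_of_one_le_left (sub_nonneg.2 (hlt w).le) (InfinitePlace.one_le_mult (w := w))
    have h3 := Real.log_nonneg hNC
    rw [hd] at h1
    linarith

/-- the logarithmic sizes attached to exponents at the places other than `w0` -/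
lemma exists_g (hK : finrank ℚ K ≤ 3) (w0 : InfinitePlace K) (x : {w // w ≠ w0} → ℝ) {H B T : ℝ}
    (hH : 0 ≤ H) (hx : ∀ w, 0 ≤ x w ∧ x w ≤ H) (hT : 0 ≤ T) (hTB : T ≤ B) (hHB : H ≤ B) :
    ∃ g : InfinitePlace K → ℝ, ∑ w, (w.mult : ℝ) * g w = T ∧ (∀ w : {w // w ≠ w0}, g w.1 = x w) ∧
      ∀ w, -(2 * H) ≤ g w ∧ g w ≤ B := by
  classical
  have hm : (1 : ℝ) ≤ w0.mult := InfinitePlace.one_le_mult
  set R : ℝ := ∑ w : {w // w ≠ w0}, (w.1.mult : ℝ) * x w with hR
  have hR0 : 0 ≤ R := sum_nonneg fun w _ ↦ mul_nonneg (Nat.cast_nonneg _) (hx w).1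
  have hs : (w0.mult : ℝ) + ∑ w : {w // w ≠ w0}, (w.1.mult : ℝ) ≤ 3 := by
    rw [← Fintype.sum_eq_add_sum_subtype_ne (fun w : InfinitePlace K ↦ (w.mult : ℝ)) w0,
      ← Nat.cast_sum, InfinitePlace.sum_mult_eq]
    exact_mod_cast hK
  have hR1 : R ≤ 2 * H := by
    have : R ≤ (∑ w : {w // w ≠ w0}, (w.1.mult : ℝ)) * H := by
      rw [sum_mul]
      exact sum_le_sum fun w _ ↦ mul_le_mul_of_nonneg_left (hx w).2 (Nat.cast_nonneg _)
    nlinarith
  refine ⟨fun w ↦ if h : w = w0 then (T - R) / w0.mult else x ⟨w, h⟩, ?_, fun w ↦ dif_neg w.2,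
    fun w ↦ ?_⟩
  · rw [Fintype.sum_eq_add_sum_subtype_ne _ w0]
    beta_reduce
    rw [dif_pos rfl, mul_div_cancel₀ _ (by linarith),
      sum_congr rfl fun w _ ↦ by rw [dif_neg w.2]]
    ring
  · by_cases h : w = w0
    · simp only [dif_pos h]
      rw [le_div_iff₀ (by linarith), div_le_iff₀ (by linarith)]
      constructor <;> nlinarith
    · simp only [dif_neg h]
      constructor <;> linarith [(hx ⟨w, h⟩).1, (hx ⟨w, h⟩).2]

omit [NumberField K] in
lemma hk_of {γ : 𝓞 K} (h0 : γ ≠ 0) {B : ℝ}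
    (h : ∀ w : InfinitePlace K, Real.log (w (γ : K)) ≤ B) : Hk (γ : K) (Real.exp B) := by
  refine ⟨γ.isIntegral_coe, fun φ ↦ ?_⟩
  rw [← InfinitePlace.apply]
  exact (Real.log_le_iff_le_exp (InfinitePlace.pos_iff.2 (RingOfIntegers.coe_ne_zero_iff.2 h0))).1
    (h _)

end Fam

open Fam in
theorem fam (h : CntStmt) : FamStmt := by
  classical
  intro K _ _ hK S H hH
  set Y : ℝ := 9 * √(dk K) with hY
  set A : ℝ := Real.log Y with hA
  have hs : 1 ≤ √(dk K) := Real.one_le_sqrt.2 one_le_dk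
  have hY1 : 1 < Y := by linarith
  have hA0 : 0 < A := Real.log_pos hY1
  have hH0 : 0 < H := by linarith
  obtain ⟨w0⟩ : Nonempty (InfinitePlace K) := inferInstance
  let lam : S ⊕ {w // w ≠ w0} → ℝ :=
    Sum.elim (fun u ↦ Real.log (Ideal.absNorm u.1.asIdeal)) fun _ ↦ A
  have hlam : ∀ i, 0 < lam i := by
    rintro (u | w)
    · exact lt_of_lt_of_le (by norm_num) (half_le_log u.1)
    · exact hA0
  let km : S ⊕ {w // w ≠ w0} → ℕ := fun i ↦ ⌊H / lam i⌋₊
  have hkm : ∀ i, (km i : ℝ) * lam i ≤ H := fun i ↦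
    (le_div_iff₀ (hlam i)).1 (Nat.floor_le (div_pos hH0 (hlam i)).le)
  let ι := ∀ i, Fin (km i + 1)
  have hk : ∀ (k : ι) i, (k i : ℕ) ≤ km i := fun k i ↦ Nat.le_of_lt_succ (k i).2
  have hk' : ∀ (k : ι) i, ((k i : ℕ) : ℝ) * lam i ≤ H := fun k i ↦
    (mul_le_mul_of_nonneg_right (by exact_mod_cast hk k i) (hlam i).le).trans (hkm i)
  have hla : ∀ k : S → ℕ, (∀ u, (k u : ℝ) * lam (Sum.inl u) ≤ H) →
      Real.log (Ideal.absNorm (aa S k)) ≤ S.card * H := by
    intro k hk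
    rw [log_norm_aa]
    refine (sum_le_card_nsmul _ _ H fun u _ ↦ hk u).trans ?_
    simp
  have hS0 : (0 : ℝ) ≤ S.card * H := by positivity
  have key : ∀ k : ι, ∃ (γ : 𝓞 K) (C : Ideal (𝓞 K)), γ ≠ 0 ∧
      Ideal.span {γ} = aa S (fun u ↦ k (Sum.inl u)) * C ∧ C ≠ ⊥ ∧ (Ideal.absNorm C : ℝ) ≤ Y ∧
      (∀ w : InfinitePlace K, -(3 * H) ≤ Real.log (w γ) ∧ Real.log (w γ) ≤ (S.card + 1) * H) ∧
      ∀ w : {w // w ≠ w0}, ((k (Sum.inr w) : ℕ) - 1) * A ≤ Real.log (w.1 γ) ∧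
        Real.log (w.1 γ) < (k (Sum.inr w) : ℕ) * A := by
    intro k
    have h1 := hla (fun u ↦ k (Sum.inl u)) fun u ↦ hk' k (Sum.inl u)
    have h2 := Real.log_nonneg (one_le_norm (aa_ne S fun u ↦ k (Sum.inl u)))
    obtain ⟨g, g1, g2, g3⟩ := exists_g hK w0 (fun w ↦ (k (Sum.inr w) : ℕ) * A)
      (B := (S.card + 1) * H) (T := A + Real.log (Ideal.absNorm (aa S fun u ↦ k (Sum.inl u))))
      hH0.le (fun w ↦ ⟨by positivity, hk' k (Sum.inr w)⟩) (by linarith) (by linarith) (by linarith)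
    obtain ⟨γ, C, a1, a2, a3, a4, a5⟩ := exists_elt hK (aa_ne S fun u ↦ k (Sum.inl u)) g g1
    refine ⟨γ, C, a1, a2, a3, a4, fun w ↦ ⟨?_, ?_⟩, fun w ↦ ⟨?_, ?_⟩⟩
    · linarith [(a5 w).1, (g3 w).1]
    · linarith [(a5 w).2, (g3 w).2]
    · linarith [(a5 w.1).1, g2 w]
    · linarith [(a5 w.1).2, g2 w]
  choose γ C γ0 γs C0 CY γb γw using key
  have hγK : ∀ k, (γ k : K) ≠ 0 := fun k ↦ RingOfIntegers.coe_ne_zero_iff.2 (γ0 k)
  obtain ⟨c, hc, hmax⟩ := exists_max_image (univ.image C)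
    (fun c ↦ (univ.filter fun k ↦ C k = c).card) (univ_nonempty.image C)
  set F : Finset ι := univ.filter fun k ↦ C k = c with hF
  have hFc : ∀ k ∈ F, C k = c := fun k hk ↦ (mem_filter.1 hk).2
  obtain ⟨kc, -, hkc⟩ := mem_image.1 hc
  have c0 : c ≠ ⊥ := hkc ▸ C0 kc
  have cY : (Ideal.absNorm c : ℝ) ≤ Y := hkc ▸ CY kc
  have hval : ∀ k ∈ F, ∀ k' ∈ F, ∀ v : HOS K, v.valuation K ((γ k : K) / γ k') = WithZero.exp
      (od v (aa S fun u ↦ k' (Sum.inl u)) - od v (aa S fun u ↦ k (Sum.inl u))) := by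
    intro k hk k' hk' v
    rw [map_div₀, val_eq v (γ0 k), val_eq v (γ0 k'), γs, γs, hFc k hk, hFc k' hk',
      od_mul v (aa_ne _ _) c0, od_mul v (aa_ne _ _) c0, ← WithZero.exp_sub]
    congr 1
    ring
  have hinj : ∀ k ∈ F, ∀ k' ∈ F, ((γ k : K) = γ k' ∨ (γ k : K) = -γ k') → k = k' := by
    intro k hk k' hk' e
    funext i
    apply Fin.ext
    rcases i with u | w
    · have h1 := hval k hk k' hk' u.1
      have h2 : u.1.valuation K ((γ k : K) / γ k') = 1 := by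
        rcases e with e | e
        · rw [e, div_self (hγK k'), map_one]
        · rw [e, neg_div, div_self (hγK k'), Valuation.map_neg, map_one]
      rw [h2, od_aa, od_aa, eq_comm, WithZero.exp_eq_one] at h1
      omega
    · have h2 : w.1 (γ k : K) = w.1 (γ k' : K) := by
        rcases e with e | e
        · rw [e]
        · rw [e]; exact w.1.1.map_neg _
      obtain ⟨a1, a2⟩ := γw k w
      obtain ⟨a3, a4⟩ := γw k' w
      rw [h2] at a1 a2
      have b1 : ((k (Sum.inr w) : ℕ) : ℝ) - 1 < (k' (Sum.inr w) : ℕ) :=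
        lt_of_mul_lt_mul_right (a1.trans_lt a4) hA0.le
      have b2 : ((k' (Sum.inr w) : ℕ) : ℝ) - 1 < (k (Sum.inr w) : ℕ) :=
        lt_of_mul_lt_mul_right (a3.trans_lt a2) hA0.le
      have b3 : (k (Sum.inr w) : ℕ) < (k' (Sum.inr w) : ℕ) + 1 := by
        exact_mod_cast sub_lt_iff_lt_add.1 b1
      have b4 : (k' (Sum.inr w) : ℕ) < (k (Sum.inr w) : ℕ) + 1 := by
        exact_mod_cast sub_lt_iff_lt_add.1 b2
      omega
  have hM0 : aa S (fun u ↦ km (Sum.inl u)) * c ≠ ⊥ := mul_ne_zero (aa_ne _ _) c0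
  have hM1 := one_le_norm hM0
  refine ⟨F.image fun k ↦ (γ k : K), Ideal.absNorm (aa S (fun u ↦ km (Sum.inl u)) * c),
    by exact_mod_cast zero_lt_one.trans_le hM1, ?_, ?_, ?_⟩
  · rw [card_image_of_injOn fun k hk k' hk' e ↦ hinj k hk k' hk' (Or.inl e)]
    have h1 : (univ : Finset ι).card ≤ F.card * (univ.image C).card :=
      card_le_mul_card_image _ _ hmax
    have h2 := h K hK Y hY1.le (univ.image C) fun I hI ↦ by
      obtain ⟨k, -, rfl⟩ := mem_image.1 hI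
      exact ⟨C0 k, CY k⟩
    have hrk : Fintype.card {w // w ≠ w0} = rk K := by
      rw [Fintype.card_subtype_compl, Fintype.card_subtype_eq]
      rfl
    have hrk2 : rk K ≤ 2 := by
      have a1 : Fintype.card (InfinitePlace K) ≤ finrank ℚ K := by
        rw [← InfinitePlace.sum_mult_eq, Fintype.card_eq_sum_ones]
        exact sum_le_sum fun w _ ↦ by exact_mod_cast InfinitePlace.one_le_mult (w := w)
      unfold rk
      omega
    have h3 : H ^ (S.card + rk K) ≤ ((univ : Finset ι).card : ℝ) * ∏ i, lam i := by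
      have e1 : ((univ : Finset ι).card : ℝ) = ∏ i, ((km i : ℝ) + 1) := by
        rw [card_univ, Fintype.card_pi]
        simp
      have e2 : H ^ (S.card + rk K) = ∏ _i : S ⊕ {w // w ≠ w0}, H := by
        rw [prod_const, card_univ, Fintype.card_sum, Fintype.card_coe, hrk]
      rw [e1, e2, ← prod_mul_distrib]
      exact prod_le_prod (fun _ _ ↦ hH0.le) fun i _ ↦
        (div_le_iff₀ (hlam i)).1 (Nat.lt_floor_add_one _).le
    have hwt : ∀ v : HOS K, 0 ≤ wt v := fun v ↦ by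
      unfold wt
      linarith [half_le_log v]
    have hW0 : 0 ≤ ∏ v ∈ S, wt v := prod_nonneg fun v _ ↦ hwt v
    have h4 : ∏ i, lam i ≤ (∏ v ∈ S, wt v) * (1 + A) ^ 2 := by
      rw [Fintype.prod_sum_type]
      refine mul_le_mul ?_ ?_ (prod_nonneg fun w _ ↦ (hlam _).le) hW0
      · rw [← prod_coe_sort S]
        refine prod_le_prod (fun u _ ↦ (hlam _).le) fun u _ ↦ ?_
        have := half_le_log u.1
        change Real.log _ ≤ 2 * Real.log _
        linarith
      · have e : ∏ w : {w // w ≠ w0}, lam (Sum.inr w) = A ^ rk K := by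
          rw [← hrk, ← card_univ, ← prod_const]
          rfl
        rw [e]
        exact (pow_le_pow_left₀ hA0.le (by linarith) _).trans
          (pow_le_pow_right₀ (by linarith) hrk2)
    have h5 : ((univ : Finset ι).card : ℝ) ≤ F.card * (Y * (1 + A) ^ 2) :=
      le_trans (by exact_mod_cast h1) (mul_le_mul_of_nonneg_left h2 (Nat.cast_nonneg _))
    refine h3.trans ((mul_le_mul h5 h4 (prod_nonneg fun i _ ↦ (hlam i).le)
      (by positivity)).trans (le_of_eq (by ring)))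
  · intro x hx
    obtain ⟨k, hkF, rfl⟩ := mem_image.1 hx
    refine ⟨hγK k, hk_of (γ0 k) fun w ↦ (γb k w).2, ?_⟩
    have hd : Ideal.span {γ k} ∣ aa S (fun u ↦ km (Sum.inl u)) * c := by
      rw [γs, hFc k hkF]
      exact mul_dvd_mul_right (aa_dvd S fun u ↦ hk k (Sum.inl u)) c
    obtain ⟨δ, hδ⟩ := Ideal.mem_span_singleton'.1
      (Ideal.dvd_iff_le.1 hd (Ideal.absNorm_mem (aa S (fun u ↦ km (Sum.inl u)) * c)))
    have e : ((Ideal.absNorm (aa S (fun u ↦ km (Sum.inl u)) * c) : ℕ) : K) / γ k = δ := by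
      rw [div_eq_iff (hγK k)]
      have := congrArg (algebraMap (𝓞 K) K) hδ
      rw [map_mul, map_natCast] at this
      exact this.symm
    have hδ0 : δ ≠ 0 := by
      rintro rfl
      rw [zero_mul, eq_comm, Nat.cast_eq_zero] at hδ
      rw [hδ] at hM1
      norm_num at hM1
    rw [e]
    refine hk_of hδ0 fun w ↦ ?_
    rw [← e, map_div₀, InfinitePlace.map_natCast, Real.log_div (by linarith)
      (InfinitePlace.pos_iff.2 (hγK k)).ne', map_mul, Nat.cast_mul, Real.log_mul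
      (zero_lt_one.trans_le (one_le_norm (aa_ne _ _))).ne'
      (zero_lt_one.trans_le (one_le_norm c0)).ne']
    have a1 := hla (fun u ↦ km (Sum.inl u)) fun u ↦ hkm (Sum.inl u)
    have a2 : Real.log (Ideal.absNorm c) ≤ A :=
      Real.log_le_log (zero_lt_one.trans_le (one_le_norm c0)) cY
    linarith [(γb k w).1]
  · intro x hx x' hx'
    obtain ⟨k, hkF, rfl⟩ := mem_image.1 hx
    obtain ⟨k', hkF', rfl⟩ := mem_image.1 hx'
    refine ⟨⟨div_ne_zero (hγK k) (hγK k'), fun v hv ↦ ?_⟩, ⟨fun v ↦ ?_, fun w ↦ ?_⟩, fun e ↦ ?_⟩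
    · rw [hval k hkF k' hkF', od_aa_not S _ hv, od_aa_not S _ hv, sub_zero, WithZero.exp_zero]
    · rw [hval k hkF k' hkF', WithZero.log_exp]
      by_cases hv : v ∈ S
      · have b : ∀ k : ι, ((k (Sum.inl ⟨v, hv⟩) : ℕ) : ℝ) ≤ 2 * H := fun k ↦ by
          have a1 := hk' k (Sum.inl ⟨v, hv⟩)
          have a2 : 1 / 2 ≤ lam (Sum.inl ⟨v, hv⟩) := half_le_log v
          have a3 := mul_le_mul_of_nonneg_left a2 (Nat.cast_nonneg (k (Sum.inl ⟨v, hv⟩) : ℕ))
          linarith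
        rw [od_aa S _ ⟨v, hv⟩, od_aa S _ ⟨v, hv⟩]
        push_cast
        have b1 := b k
        have b2 := b k'
        have b3 : (0 : ℝ) ≤ (k (Sum.inl ⟨v, hv⟩) : ℕ) := Nat.cast_nonneg _
        have b4 : (0 : ℝ) ≤ (k' (Sum.inl ⟨v, hv⟩) : ℕ) := Nat.cast_nonneg _
        rw [abs_le]
        constructor <;> linarith
      · rw [od_aa_not S _ hv, od_aa_not S _ hv]
        simp only [sub_zero, Int.cast_zero, abs_zero]
        positivity
    · rw [map_div₀, Real.log_div (InfinitePlace.pos_iff.2 (hγK k)).ne'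
        (InfinitePlace.pos_iff.2 (hγK k')).ne', abs_le]
      constructor <;> linarith [(γb k w).1, (γb k w).2, (γb k' w).1, (γb k' w).2]
    · have e' : (γ k : K) = -γ k' := eq_neg_of_add_eq_zero_left e
      have := hinj k hkF k' hkF' (Or.inr e')
      subst this
      exact hγK k (by linear_combination e / 2)

end Pool.Agent.Szpiro98
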