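import Pool.Agent.Lib.Szpiro98.Blue

namespace Pool.Agent.Szpiro98

open Finset Pool.Agent.Lib.MP_cafdd5_nt

lemma minP {a b : ℤ} (hD : disc a b ≠ 0) (h : IsMinimalShort a b) : MinP a b := by
  rintro p hp ⟨⟨a', rfl⟩, ⟨b', rfl⟩⟩
  have p0 : (p : ℚ) ≠ 0 := by exact_mod_cast hp.ne_zero
  have := h a' b' ⟨⟨Units.mk0 p p0, 0, 0, 0⟩, by
    ext <;> simp [shortModel, WeierstrassCurve.variableChange_def] <;> field_simp⟩
  have e : disc (p ^ 4 * a') (p ^ 6 * b') = p ^ 12 * disc a' b' := by unfold disc; ring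
  rw [e] at this hD
  rw [abs_mul] at this
  have h1 : 0 < |disc a' b'| := abs_pos.2 (right_ne_zero_of_mul hD)
  have h2 : (1 : ℤ) < |(p : ℤ) ^ 12| := by
    rw [abs_pow, Nat.abs_cast]; exact one_lt_pow₀ (by exact_mod_cast hp.one_lt) (by norm_num)
  nlinarith

theorem fin (lp : LocPStmt) (li : LocIStmt) (irr : IrrStmt) (quad : QuadStmt) (red : RedStmt) (glue : GlueStmt)
    (sum : SumStmt) (ε : ℝ) (hε : 0 < ε) : ∃ C : ℝ, ∀ (a b : ℤ) (Q : ℝ), disc a b ≠ 0 → IsMinimalShort a b → 1 ≤ Q →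
      QOK a b Q → Real.log (max (|(a : ℝ)| ^ 3) ((b : ℝ) ^ 2)) ≤ C * (cond a b : ℝ) ^ (1 / 2 + ε) * √Q := by
  obtain ⟨C1, h1⟩ := lp
  obtain ⟨C2, h2⟩ := li
  set C := max 10 (max C1 C2)
  have c0 : 10 ≤ C := le_max_left _ _
  have p1 := h1 C ((le_max_left _ _).trans (le_max_right _ _))
  have p2 := h2 C ((le_max_right _ _).trans (le_max_right _ _))
  obtain ⟨C', c1, g⟩ := glue C c0
  obtain ⟨C'', s⟩ := sum C' c1 ε hε
  refine ⟨max C'' 0, fun a b Q hD hm hQ hq => ?_⟩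
  have m := minP hD hm
  have l : Loc C a b := by
    by_cases h : ∃ e : ℤ, e ^ 3 - a * e - b = 0
    · obtain ⟨e, he⟩ := h
      exact red C (by linarith) (quad C (by linarith) p1 p2) a b e hD m he
    · exact irr C (by linarith) p1 p2 a b hD m fun e he => h ⟨e, he⟩
  have n0 : cond a b ≠ 0 := prod_ne_zero_iff.2 fun p hp => pow_ne_zero _ (by have := (mem_filter.1 hp).2; omega)
  have n1 : (1 : ℝ) ≤ cond a b := by exact_mod_cast Nat.pos_of_ne_zero n0
  have q1 : 1 ≤ min Q (cond a b) := le_min hQ n1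
  have := s a b _ hD q1 (min_le_right _ _) (g a b _ hD q1 (fun p hp p5 d x y => le_min (hq p hp p5 d x y) (by
    have : p ^ (if (p : ℤ) ∣ a then 2 else 1) ∣ cond a b := dvd_prod_of_mem _ (mem_filter.2 ⟨Nat.mem_primeFactors.2
      ⟨hp, Int.natCast_dvd.1 d, Int.natAbs_ne_zero.2 hD⟩, p5⟩)
    rw [if_neg x, pow_one] at this
    exact_mod_cast Nat.le_of_dvd (Nat.pos_of_ne_zero n0) this)) l)
  unfold LL at this
  have e : C'' * (cond a b : ℝ) ^ (1 / 2 + ε) * √(min Q (cond a b)) ≤ max C'' 0 * (cond a b : ℝ) ^ (1 / 2 + ε) * √Q :=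
    mul_le_mul (by gcongr; exact le_max_left _ _) (Real.sqrt_le_sqrt (min_le_left _ _)) (by positivity) (by positivity)
  linarith

end Pool.Agent.Szpiro98
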