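import Pool.Agent.Lib.Szpiro98.Blue

/-! Block IRR: the local bounds for an irreducible cubic. -/

namespace Pool.Agent.Szpiro98

open Finset Module NumberField IsDedekindDomain NormedSpace Pool.Agent.Lib.MP_cafdd5_nt

namespace IRR

/-- the three roots of `X ^ 3 - a X - b` -/
def Rt {R : Type} [CommRing R] (a b : ℤ) (x y z : R) : Prop :=
  x + y + z = 0 ∧ x * y + x * z + y * z = -a ∧ x * y * z = b

section rt
variable {R R' : Type} [CommRing R] [CommRing R'] {a b : ℤ} {x y z : R}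

lemma Rt.map (h : Rt a b x y z) (f : R →+* R') : Rt a b (f x) (f y) (f z) :=
  ⟨by simpa using congrArg f h.1, by simpa using congrArg f h.2.1, by simpa using congrArg f h.2.2⟩

lemma Rt.swap (h : Rt a b x y z) : Rt a b y x z :=
  ⟨by linear_combination h.1, by linear_combination h.2.1, by linear_combination h.2.2⟩

lemma Rt.rot (h : Rt a b x y z) : Rt a b y z x :=
  ⟨by linear_combination h.1, by linear_combination h.2.1, by linear_combination h.2.2⟩

lemma Rt.fac (h : Rt a b x y z) (t : R) : t ^ 3 - a * t - b = (t - x) * (t - y) * (t - z) := by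
  linear_combination t ^ 2 * h.1 - t * h.2.1 + h.2.2

lemma Rt.root (h : Rt a b x y z) : x ^ 3 - a * x - b = 0 := by rw [h.fac]; ring

lemma Rt.der (h : Rt a b x y z) : 3 * x ^ 2 - a = (x - y) * (x - z) := by
  linear_combination 2 * x * h.1 - h.2.1

lemma Rt.sq (h : Rt a b x y z) : (x - y) ^ 2 = 4 * a - 3 * z ^ 2 := by
  linear_combination (x + y + 3 * z) * h.1 - 4 * h.2.1

lemma disc_eq {z : R} (h : z ^ 3 - a * z - b = 0) :
    ((disc a b : ℤ) : R) = (3 * z ^ 2 - a) ^ 2 * (4 * a - 3 * z ^ 2) := by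
  unfold disc
  push_cast
  linear_combination 27 * (z ^ 3 - a * z + b) * h

lemma Rt.disc (h : Rt a b x y z) :
    ((disc a b : ℤ) : R) = (x - y) ^ 2 * (x - z) ^ 2 * (y - z) ^ 2 := by
  rw [disc_eq h.rot.rot.root, h.rot.rot.der, ← h.sq]; ring

lemma Rt.diff (h : Rt a b x y z) :
    (3 * x ^ 2 - a) ^ 2 - (3 * y ^ 2 - a) ^ 2 = -(3 * z) * (x - y) ^ 3 := by
  rw [h.der, h.swap.der]
  linear_combination (x - y) ^ 3 * h.1

end rt

lemma exists_rt (a b : ℤ) : ∃ x y z : Qb, Rt a b x y z := by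
  obtain ⟨z, hz⟩ := IsAlgClosed.exists_root
    (Polynomial.X ^ 3 - Polynomial.C (a : Qb) * Polynomial.X - Polynomial.C (b : Qb))
    (by
      have : (Polynomial.X ^ 3 - Polynomial.C (a : Qb) * Polynomial.X - Polynomial.C (b : Qb)).degree = 3 := by
        compute_degree!
      rw [this]; decide)
  have hz' : z ^ 3 - a * z - b = 0 := by simpa using hz
  obtain ⟨ρ, hρ⟩ := IsAlgClosed.exists_pow_nat_eq (4 * a - 3 * z ^ 2 : Qb) two_pos
  refine ⟨(-z + ρ) / 2, (-z - ρ) / 2, z, by ring, ?_, ?_⟩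
  · linear_combination (-1 / 4) * hρ
  · linear_combination (-z / 4) * hρ + hz'

lemma ev {R S : Type} [CommRing R] [CommRing S] (i : R →+* S) (a b : ℤ) (x : S) :
    (Polynomial.X ^ 3 - Polynomial.C (a : R) * Polynomial.X - Polynomial.C (b : R)).eval₂ i x =
      x ^ 3 - a * x - b := by
  rw [Polynomial.eval₂_sub, Polynomial.eval₂_sub, Polynomial.eval₂_mul, Polynomial.eval₂_X_pow,
    Polynomial.eval₂_C, Polynomial.eval₂_C, Polynomial.eval₂_X, map_intCast, map_intCast]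

lemma integral {S : Type} [CommRing S] {_ : Algebra ℤ S} {a b : ℤ} {x : S} (h : x ^ 3 - a * x - b = 0) :
    IsIntegral ℤ x :=
  ⟨Polynomial.X ^ 3 - Polynomial.C a * Polynomial.X - Polynomial.C b, by monicity!,
    (ev (algebraMap ℤ S) a b x).trans h⟩

lemma no_rat {a b : ℤ} (h : ∀ e : ℤ, e ^ 3 - a * e - b ≠ 0) (x : ℚ) : x ^ 3 - a * x - b ≠ 0 := by
  intro hx
  obtain ⟨e, rfl⟩ := IsIntegrallyClosed.isIntegral_iff.1 (integral hx)
  refine h e ?_
  simp only [eq_intCast] at hx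
  exact_mod_cast hx

lemma exists_field {a b : ℤ} (h : ∀ e : ℤ, e ^ 3 - a * e - b ≠ 0) :
    ∃ (K : Type) (_ : Field K) (_ : NumberField K) (θ : K), finrank ℚ K = 3 ∧ θ ^ 3 - a * θ - b = 0 ∧
      (∀ e : Qb, e ^ 3 - a * e - b = 0 → ∃ σ : K →+* Qb, σ θ = e) ∧
      ∀ P : K → Prop, (∀ q : ℚ, P q) → P θ → (∀ x y, P x → P y → P (x + y)) →
        (∀ x y, P x → P y → P (x * y)) → ∀ γ, P γ := by
  set f : Polynomial ℚ :=
    Polynomial.X ^ 3 - Polynomial.C (a : ℚ) * Polynomial.X - Polynomial.C (b : ℚ) with hf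
  have hd : f.natDegree = 3 := by rw [hf]; compute_degree!
  have hi : Irreducible f := Polynomial.irreducible_of_degree_le_three_of_not_isRoot (by simp [hd])
    fun x hx ↦ no_rat h x (by simpa [hf] using hx)
  have : Fact (Irreducible f) := ⟨hi⟩
  refine ⟨AdjoinRoot f, inferInstance, inferInstance, AdjoinRoot.root f, ?_, ?_, fun e he ↦ ?_,
    fun P h1 h2 h3 h4 γ ↦ ?_⟩
  · have := (AdjoinRoot.powerBasis hi.ne_zero).finrank
    rw [AdjoinRoot.powerBasis_dim, hd] at this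
    convert! this
  · exact (ev _ a b _).symm.trans (AdjoinRoot.eval₂_root f)
  · exact ⟨AdjoinRoot.lift (algebraMap ℚ Qb) e ((ev _ a b _).trans he), AdjoinRoot.lift_root _⟩
  · induction γ using AdjoinRoot.induction_on with
    | ih p =>
      induction p using Polynomial.induction_on with
      | C q => simpa using h1 q
      | add p q hp hq => rw [map_add]; exact h3 _ _ hp hq
      | monomial n q hq => rw [pow_succ, ← mul_assoc, map_mul]; exact h4 _ _ hq h2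

lemma key {F : Type} [NormedField F] {a b : ℤ} {x y z : F} (h : Rt a b x y z) (hxy : x ≠ y) {E : ℝ}
    (hE : E * ‖(3 * y ^ 2 - a) ^ 2‖ ≤ ‖(3 * x ^ 2 - a) ^ 2 - (3 * y ^ 2 - a) ^ 2‖) :
    E * ‖y - z‖ ^ 2 ≤ ‖3 * z‖ * ‖x - y‖ := by
  rw [h.diff, h.swap.der, norm_mul, norm_neg, norm_pow, norm_pow, norm_mul, norm_sub_rev y x] at hE
  have h0 : 0 < ‖x - y‖ ^ 2 := pow_pos (norm_pos_iff.2 (sub_ne_zero.2 hxy)) 2
  refine le_of_mul_le_mul_right ?_ h0
  linarith

/-- the size `max (|a| ^ 3, b ^ 2)` -/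
noncomputable def MM (a b : ℤ) : ℝ := max (|(a : ℝ)| ^ 3) ((b : ℝ) ^ 2)

lemma one_le_MM {a b : ℤ} (hb : b ≠ 0) : 1 ≤ MM a b := by
  refine le_max_of_le_right ?_
  have : (0 : ℤ) < b ^ 2 := by positivity
  exact_mod_cast this

lemma house {a b : ℤ} (hb : b ≠ 0) {x : ℂ} (h : x ^ 3 - a * x - b = 0) :
    ‖(3 * x ^ 2 - a) ^ 2‖ ≤ Real.exp (LL a b) := by
  have M1 := one_le_MM (a := a) hb
  obtain ⟨m, m0, hm⟩ : ∃ m : ℝ, 0 ≤ m ∧ m ^ 6 = MM a b :=
    ⟨MM a b ^ ((6 : ℕ) : ℝ)⁻¹, by positivity, Real.rpow_inv_natCast_pow (by linarith) (by norm_num)⟩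
  have m1 : 1 ≤ m := (one_le_pow_iff_of_nonneg m0 (by norm_num)).1 (hm ▸ M1)
  have ha : |(a : ℝ)| ≤ m ^ 2 := le_of_pow_le_pow_left₀ (n := 3) (by norm_num) (by positivity)
    (by rw [← pow_mul, hm]; exact le_max_left _ _)
  have hb' : |(b : ℝ)| ≤ m ^ 3 := le_of_pow_le_pow_left₀ (n := 2) (by norm_num) (by positivity)
    (by rw [← pow_mul, hm, sq_abs]; exact le_max_right _ _)
  have h1 : ‖x‖ ^ 3 ≤ m ^ 2 * ‖x‖ + m ^ 3 := by
    rw [← norm_pow, show x ^ 3 = a * x + b by linear_combination h]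
    refine (norm_add_le _ _).trans ?_
    rw [norm_mul, Complex.norm_intCast, Complex.norm_intCast]
    gcongr
  have h2 : ‖x‖ ≤ 2 * m := by
    by_contra hc
    push Not at hc
    have h3 : 4 * m ^ 2 ≤ ‖x‖ ^ 2 := by nlinarith
    have h4 : 0 < m ^ 2 := by positivity
    have h5 : 4 * m ^ 2 * ‖x‖ ≤ ‖x‖ ^ 2 * ‖x‖ := by gcongr
    nlinarith
  have h3 : ‖3 * x ^ 2 - a‖ ≤ 13 * m ^ 2 := by
    refine (norm_sub_le _ _).trans ?_
    rw [norm_mul, norm_pow, Complex.norm_intCast]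
    have : ‖x‖ ^ 2 ≤ (2 * m) ^ 2 := by gcongr
    have e : ‖(3 : ℂ)‖ = 3 := by simp
    rw [e]; nlinarith
  have h4 : (169 : ℝ) ≤ Real.exp 6 := by
    have e : Real.exp 6 = Real.exp 1 ^ 6 := by rw [← Real.exp_nat_mul]; norm_num
    have := Real.exp_one_gt_d9
    rw [e]
    calc (169 : ℝ) ≤ 2.7 ^ 6 := by norm_num
      _ ≤ _ := by gcongr; linarith
  have h5 : m ^ 4 ≤ m ^ 6 := pow_le_pow_right₀ m1 (by norm_num)
  rw [norm_pow, LL, Real.exp_add, Real.exp_log (by unfold MM at M1; linarith)]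
  change _ ≤ MM a b * _
  calc _ ≤ (13 * m ^ 2) ^ 2 := by gcongr
    _ = m ^ 4 * 169 := by ring
    _ ≤ _ := by rw [← hm]; gcongr

lemma six_le_LL {a b : ℤ} (hb : b ≠ 0) : 6 ≤ LL a b := by
  have := Real.log_nonneg (one_le_MM (a := a) hb)
  unfold LL
  unfold MM at this
  linarith

lemma bnd_nonneg {C D κ 𝓛 : ℝ} (S : Finset ℕ) (hC : 0 ≤ C) (hκ : 0 ≤ κ) (h : 1 ≤ 𝓛) :
    0 ≤ bnd C S D κ 𝓛 := by
  have h1 := Real.log_nonneg h
  have h2 : 0 ≤ ∏ q ∈ S, C * Real.log q ^ 3 :=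
    prod_nonneg fun q _ ↦ mul_nonneg hC (pow_nonneg (Real.log_natCast_nonneg q) 3)
  unfold bnd
  positivity

lemma arch {a b : ℤ} (hb : b ≠ 0) (hD : disc a b ≠ 0) {x y z : ℂ} (h : Rt a b x y z)
    (h1 : ‖x - y‖ ≤ ‖x - z‖) (h2 : ‖x - y‖ ≤ ‖y - z‖) {B : ℝ} (hB : 0 ≤ B)
    (hE : Real.exp (-B) * ‖y - z‖ ^ 2 ≤ ‖3 * z‖ * ‖x - y‖) :
    LL a b ≤ 6 * Real.log |((disc a b : ℤ) : ℝ)| + 12 * B + 100 := by
  have hd := h.disc
  have hD' : ((disc a b : ℤ) : ℂ) ≠ 0 := by exact_mod_cast hD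
  have v0 : 0 < ‖y - z‖ := norm_pos_iff.2 fun e ↦ hD' (by rw [hd, e]; ring)
  set s := ‖x - y‖ with hs
  set u := ‖x - z‖ with hu
  set v := ‖y - z‖ with hv
  have s0 : 0 ≤ s := norm_nonneg _
  have t1 : u ≤ s + v := by
    rw [hu, show x - z = (x - y) + (y - z) by ring]; exact norm_add_le _ _
  have t2 : v ≤ s + u := by
    rw [hv, show y - z = (x - z) - (x - y) by ring, add_comm]; exact norm_sub_le _ _
  have e3 : ∀ w : ℂ, ‖3 * w‖ = 3 * ‖w‖ := fun w ↦ by simp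
  have z1 : ‖z‖ ≤ v := by
    have : ‖3 * z‖ ≤ u + v := by
      rw [show 3 * z = -(x - z) - (y - z) by linear_combination h.1]
      simpa only [norm_neg] using norm_sub_le (-(x - z)) (y - z)
    rw [e3] at this; linarith
  have x1 : ‖x‖ ≤ v := by
    have : ‖3 * x‖ ≤ s + u := by
      rw [show 3 * x = (x - y) + (x - z) by linear_combination h.1]
      exact norm_add_le _ _
    rw [e3] at this; linarith
  have y1 : ‖y‖ ≤ v := by
    have : ‖3 * y‖ ≤ v + s := by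
      rw [show 3 * y = (y - z) - (x - y) by linear_combination h.1]
      exact norm_sub_le _ _
    rw [e3] at this; linarith
  have ha : |(a : ℝ)| ≤ 3 * v ^ 2 := by
    rw [← Complex.norm_intCast, ← norm_neg, ← h.2.1]
    refine norm_add₃_le.trans ?_
    rw [norm_mul, norm_mul, norm_mul]
    have p1 : ‖x‖ * ‖y‖ ≤ v * v := by gcongr
    have p2 : ‖x‖ * ‖z‖ ≤ v * v := by gcongr
    have p3 : ‖y‖ * ‖z‖ ≤ v * v := by gcongr
    linarith
  have hb' : |(b : ℝ)| ≤ v ^ 3 := by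
    rw [← Complex.norm_intCast, ← h.2.2, norm_mul, norm_mul]
    calc _ ≤ v * v * v := by gcongr
      _ = _ := by ring
  have hM : MM a b ≤ 27 * v ^ 6 := by
    refine max_le ?_ ?_
    · calc _ ≤ (3 * v ^ 2) ^ 3 := by gcongr
        _ = _ := by ring
    · rw [← sq_abs]
      calc _ ≤ (v ^ 3) ^ 2 := by gcongr
        _ ≤ _ := by nlinarith [pow_pos v0 6]
  have E0 := Real.exp_pos (-B)
  have k1 : Real.exp (-B) * v ≤ 3 * s := by
    rw [e3] at hE
    have : 3 * ‖z‖ * s ≤ 3 * v * s := by gcongr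
    refine le_of_mul_le_mul_right ?_ v0
    nlinarith
  have k2 : |((disc a b : ℤ) : ℝ)| = s ^ 2 * u ^ 2 * v ^ 2 := by
    rw [← Complex.norm_intCast, hd, norm_mul, norm_mul, norm_pow, norm_pow, norm_pow]
  have k3 : Real.exp (-B) ^ 2 * v ^ 6 ≤ 36 * |((disc a b : ℤ) : ℝ)| := by
    rw [k2]
    calc _ = (Real.exp (-B) * v) ^ 2 * v ^ 2 * v ^ 2 := by ring
      _ ≤ (3 * s) ^ 2 * (2 * u) ^ 2 * v ^ 2 := by gcongr; linarith
      _ = _ := by ring
  have D1 : (1 : ℝ) ≤ |((disc a b : ℤ) : ℝ)| := by exact_mod_cast Int.one_le_abs hD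
  have k4 : Real.exp (-B) ^ 2 * MM a b ≤ 972 * |((disc a b : ℤ) : ℝ)| := by
    have : Real.exp (-B) ^ 2 * MM a b ≤ Real.exp (-B) ^ 2 * (27 * v ^ 6) := by gcongr
    linarith
  have M1 := one_le_MM (a := a) hb
  have k5 := Real.log_le_log (by positivity) k4
  rw [Real.log_mul (by positivity) (by positivity), Real.log_mul (by positivity) (by positivity),
    Real.log_pow, Real.log_exp] at k5
  have k6 : Real.log 972 ≤ 90 := by
    rw [Real.log_le_iff_le_exp (by norm_num)]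
    have e : Real.exp 90 = Real.exp 45 ^ 2 := by rw [← Real.exp_nat_mul]; norm_num
    have := Real.add_one_le_exp 45
    rw [e]; nlinarith
  have k7 := Real.log_nonneg D1
  unfold LL
  unfold MM at k5
  push_cast at k5
  linarith

lemma padic {p : ℕ} [Fact p.Prime] {a b : ℤ} (hD : disc a b ≠ 0) {x y : ℂ_[p]} {z : ℚ_[p]}
    (h : Rt a b x y (algebraMap ℚ_[p] ℂ_[p] z)) (hz : 1 ≤ (p : ℝ) ^ 4 * ‖3 * z ^ 2 - a‖) {B : ℝ}
    (hE : Real.exp (-B) * ‖y - algebraMap ℚ_[p] ℂ_[p] z‖ ^ 2 ≤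
      ‖3 * algebraMap ℚ_[p] ℂ_[p] z‖ * ‖x - y‖) :
    padicValInt p (disc a b) * Real.log p ≤ 30 * Real.log p + 2 * B := by
  have hp : p.Prime := Fact.out
  have p1 : (1 : ℝ) < p := by exact_mod_cast hp.one_lt
  set Z := algebraMap ℚ_[p] ℂ_[p] z with hZ
  have hn : ∀ w : ℂ_[p], w ^ 3 - a * w - b = 0 → ‖w‖ ≤ 1 := fun w hw ↦ norm_le_of_ultra (integral hw)
  have x1 := hn x h.root
  have z1 := hn Z h.rot.rot.root
  have e1 : ‖3 * z ^ 2 - a‖ = ‖Z - x‖ * ‖Z - y‖ := by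
    rw [← norm_mul, ← h.rot.rot.der, ← norm_algebraMap' ℂ_[p] (3 * z ^ 2 - a)]
    simp [hZ, map_ofNat]
  have zx : ‖Z - x‖ ≤ 1 := by
    rw [sub_eq_add_neg]
    exact (IsUltrametricDist.norm_add_le_max _ _).trans (max_le z1 (by simpa using x1))
  have z3 : ‖3 * Z‖ ≤ 1 := by
    rw [norm_mul]
    exact mul_le_one₀ (by simpa using IsUltrametricDist.norm_natCast_le_one ℂ_[p] 3) (norm_nonneg _) z1
  set g := ‖3 * z ^ 2 - a‖ with hg
  have g0 : 0 ≤ g := norm_nonneg _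
  have k1 : g ≤ ‖y - Z‖ := by
    rw [e1, norm_sub_rev y]; exact mul_le_of_le_one_left (norm_nonneg _) zx
  have E0 := Real.exp_pos (-B)
  have k2 : Real.exp (-B) * g ^ 2 ≤ ‖x - y‖ := by
    calc _ ≤ Real.exp (-B) * ‖y - Z‖ ^ 2 := by gcongr
      _ ≤ _ := hE
      _ ≤ _ := mul_le_of_le_one_left (norm_nonneg _) z3
  have k3 : ‖((disc a b : ℤ) : ℚ_[p])‖ = ‖x - y‖ ^ 2 * g ^ 2 := by
    rw [← norm_algebraMap' ℂ_[p], map_intCast, h.disc, e1, norm_mul, norm_mul, norm_pow, norm_pow,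
      norm_pow, norm_sub_rev Z, norm_sub_rev Z]
    ring
  have k4 : Real.exp (-B) ^ 2 ≤ (p : ℝ) ^ 24 * ‖((disc a b : ℤ) : ℚ_[p])‖ := by
    rw [k3]
    calc _ ≤ Real.exp (-B) ^ 2 * ((p : ℝ) ^ 4 * g) ^ 6 :=
          le_mul_of_one_le_right (by positivity) (one_le_pow₀ hz)
      _ = (p : ℝ) ^ 24 * ((Real.exp (-B) * g ^ 2) ^ 2 * g ^ 2) := by ring
      _ ≤ _ := by gcongr
  rw [Padic.norm_eq_zpow_neg_valuation (by exact_mod_cast hD), Padic.valuation_intCast] at k4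
  have k5 := Real.log_le_log (by positivity) k4
  rw [Real.log_mul (by positivity) (by positivity), Real.log_pow, Real.log_pow, Real.log_exp,
    Real.log_zpow] at k5
  have k6 := Real.log_pos p1
  push_cast at k5
  linarith

lemma kap_eq {p : ℕ} [Fact p.Prime] {a b : ℤ} (hD : disc a b ≠ 0) {z : ℚ_[p]}
    (hz : z ^ 3 - a * z - b = 0) : 4 * a - 3 * z ^ 2 ≠ 0 ∧
      kap p (4 * a - 3 * z ^ 2).valuation = kap p (padicValInt p (disc a b)) := by
  have e := disc_eq hz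
  have hD' : ((disc a b : ℤ) : ℚ_[p]) ≠ 0 := by exact_mod_cast hD
  rw [e] at hD'
  refine ⟨right_ne_zero_of_mul hD', ?_⟩
  have e2 := congrArg Padic.valuation e
  rw [Padic.valuation_intCast, Padic.valuation_mul (left_ne_zero_of_mul hD') (right_ne_zero_of_mul hD'),
    Padic.valuation_pow] at e2
  unfold kap
  rw [e2]
  refine if_congr ?_ rfl rfl
  rw [Int.odd_add', Nat.cast_ofNat]
  simp

end IRR

open IRR in
theorem irr (h1 : Disc3Stmt) (h2 : P3Stmt) : IrrStmt := by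
  intro C hC lp li a b hD hm hirr
  obtain ⟨K, _, _, θ, hK, hθ, hemb, hind⟩ := exists_field hirr
  have hb : b ≠ 0 := fun e ↦ hirr 0 (by simp [e])
  have L6 := six_le_LL (a := a) hb
  have hrat : ∀ x : ℚ, θ ≠ x := fun x e ↦ no_rat hirr x (by
    rw [e] at hθ
    exact_mod_cast hθ)
  have θi : IsIntegral ℤ θ := integral hθ
  set β : K := (3 * θ ^ 2 - a) ^ 2 with hβ
  have i3 : ∀ n : ℤ, IsIntegral ℤ (n : K) := fun n ↦ isIntegral_intCast n
  have βi : IsIntegral ℤ β := by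
    have := (((i3 3).mul (θi.pow 2)).sub (i3 a)).pow 2
    rwa [Int.cast_ofNat] at this
  have γi : IsIntegral ℤ (4 * a - 3 * θ ^ 2) := by
    have := ((i3 4).mul (i3 a)).sub ((i3 3).mul (θi.pow 2))
    simpa using this
  obtain ⟨n, hn⟩ := norm_int βi
  obtain ⟨n', hn'⟩ := norm_int γi
  have hnn : n * n' = disc a b ^ 3 := by
    have e := congrArg (Algebra.norm ℚ) (disc_eq hθ)
    rw [map_mul, ← hβ, hn, hn', ← map_intCast (algebraMap ℚ K), Algebra.norm_algebraMap, hK] at e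
    exact_mod_cast e.symm
  have hSS : (disc a b).natAbs.primeFactors ⊆ SS a b :=
    (subset_insert _ _).trans (subset_insert _ _)
  have hS : n.natAbs.primeFactors ⊆ SS a b := by
    refine Subset.trans ?_ hSS
    rw [← Nat.primeFactors_pow (disc a b).natAbs (k := 3) (by norm_num)]
    refine Nat.primeFactors_mono ?_ (pow_ne_zero _ (Int.natAbs_ne_zero.2 hD))
    rw [← Int.natAbs_pow, ← hnn, Int.natAbs_mul]
    exact dvd_mul_right _ _
  have hP : ∀ q ∈ SS a b, q.Prime := fun q hq ↦ by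
    simp only [SS, mem_insert] at hq
    rcases hq with rfl | rfl | hq
    exacts [Nat.prime_two, Nat.prime_three, Nat.prime_of_mem_primeFactors hq]
  have hH : Hk β (Real.exp (LL a b)) := ⟨βi, fun φ ↦ by
    have := house hb (x := φ θ) (by simpa using congrArg φ hθ)
    simpa [hβ, map_ofNat] using this⟩
  have K3 : (finrank ℚ K).Prime := hK ▸ Nat.prime_three
  have main : ∀ x y z : Qb, Rt a b x y z → x ≠ y ∧ ∃ σ τ : K →+* Qb, σ θ = x ∧ τ θ = y ∧
      σ β = (3 * x ^ 2 - a) ^ 2 ∧ τ β = (3 * y ^ 2 - a) ^ 2 ∧ σ β ≠ τ β := fun x y z h ↦ by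
    obtain ⟨σ, hσ⟩ := hemb x h.root
    obtain ⟨τ, hτ⟩ := hemb y h.swap.root
    have e1 : σ β = (3 * x ^ 2 - a) ^ 2 := by simp [hβ, map_ofNat, hσ]
    have e2 : τ β = (3 * y ^ 2 - a) ^ 2 := by simp [hβ, map_ofNat, hτ]
    have hD' : ((disc a b : ℤ) : Qb) ≠ 0 := by exact_mod_cast hD
    have hb' : (b : Qb) ≠ 0 := by exact_mod_cast hb
    have xy : x - y ≠ 0 := fun e ↦ hD' (by rw [h.disc, e]; ring)
    have z0 : z ≠ 0 := fun e ↦ hb' (by rw [← h.2.2, e]; ring)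
    refine ⟨sub_ne_zero.1 xy, σ, τ, hσ, hτ, e1, e2, ?_⟩
    rw [e1, e2, ← sub_ne_zero, h.diff]
    exact mul_ne_zero (neg_ne_zero.2 (mul_ne_zero (by norm_num) z0)) (pow_ne_zero _ xy)
  refine ⟨discr K, disc a b, discr_ne_zero K, hD, h1 a b K θ hK hθ hrat hD hm, hSS, fun hlt ↦ ?_,
    fun p hp hv hlt ↦ ?_⟩
  · obtain ⟨x, y, z, h, k1, k2⟩ : ∃ x y z : Qb, Rt a b x y z ∧ ‖emb x - emb y‖ ≤ ‖emb x - emb z‖ ∧
        ‖emb x - emb y‖ ≤ ‖emb y - emb z‖ := by
      obtain ⟨x, y, z, h⟩ := exists_rt a b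
      rcases le_total ‖emb x - emb y‖ ‖emb x - emb z‖ with c1 | c1
      · rcases le_total ‖emb x - emb y‖ ‖emb y - emb z‖ with c2 | c2
        · exact ⟨x, y, z, h, c1, c2⟩
        · exact ⟨y, z, x, h.rot, by rwa [norm_sub_rev (emb y) (emb x)], by
            rw [norm_sub_rev (emb z) (emb x)]; exact c2.trans c1⟩
      · rcases le_total ‖emb x - emb z‖ ‖emb y - emb z‖ with c2 | c2
        · exact ⟨z, x, y, h.rot.rot, by
            rw [norm_sub_rev (emb z) (emb x), norm_sub_rev (emb z) (emb y)]; exact c2, by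
            rw [norm_sub_rev (emb z) (emb x)]; exact c1⟩
        · exact ⟨y, z, x, h.rot, by rw [norm_sub_rev (emb y) (emb x)]; exact c2.trans c1, by
            rw [norm_sub_rev (emb z) (emb x)]; exact c2⟩
    obtain ⟨xy, σ, τ, -, -, e1, e2, ne⟩ := main x y z h
    have := li emb K K3 hK.le σ τ β n (SS a b) (LL a b) ne hn hP hS (by linarith) hH hlt
    rw [e1, e2] at this
    refine arch hb hD (h.map emb) k1 k2 (bnd_nonneg _ (by linarith) zero_le_one (by linarith))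
      (key (h.map emb) (emb.injective.ne xy) ?_)
    simpa [map_ofNat, dk] using this
  · have : Fact p.Prime := ⟨hp⟩
    obtain ⟨z, hz, hz'⟩ := h2 a b p hD hm (by omega)
    let ι : Qb →+* ℂ_[p] := (IsAlgClosed.lift : Qb →ₐ[ℚ] ℂ_[p]).toRingHom
    obtain ⟨x, y, w, h, hw⟩ : ∃ x y w : Qb, Rt a b x y w ∧ ι w = algebraMap ℚ_[p] ℂ_[p] z := by
      obtain ⟨x, y, w, h⟩ := exists_rt a b
      have e := (h.map ι).fac (algebraMap ℚ_[p] ℂ_[p] z)
      have e' := congrArg (algebraMap ℚ_[p] ℂ_[p]) hz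
      simp only [map_sub, map_pow, map_mul, map_intCast, map_zero] at e'
      rw [e', eq_comm, mul_eq_zero, mul_eq_zero, sub_eq_zero, sub_eq_zero, sub_eq_zero] at e
      rcases e with (e | e) | e
      exacts [⟨y, w, x, h.rot, e.symm⟩, ⟨w, x, y, h.rot.rot, e.symm⟩, ⟨x, y, w, h, e.symm⟩]
    obtain ⟨xy, σ, τ, hσ, hτ, e1, e2, ne⟩ := main x y w h
    obtain ⟨r0, hk⟩ := kap_eq hD hz
    have h' := h.map ι
    rw [hw] at h'
    have hR : Rho (ι.comp σ) (ι.comp τ) (4 * a - 3 * z ^ 2) := by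
      refine ⟨r0, ι x - ι y, by rw [h'.sq]; simp [map_ofNat], hind _ (fun q ↦ ⟨q, 0, by simp, by simp⟩)
        ⟨-z / 2, 1 / 2, ?_, ?_⟩ ?_ ?_⟩
      · simp only [RingHom.comp_apply, hσ, map_div₀, map_neg, map_ofNat, map_one]
        linear_combination (1 / 2) * h'.1
      · simp only [RingHom.comp_apply, hτ, map_div₀, map_neg, map_ofNat, map_one]
        linear_combination (1 / 2) * h'.1
      · rintro s t ⟨u, v, a1, a2⟩ ⟨u', v', b1, b2⟩
        refine ⟨u + u', v + v', ?_, ?_⟩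
        · rw [map_add, a1, b1, map_add, map_add]; ring
        · rw [map_add, a2, b2, map_add, map_add]; ring
      · rintro s t ⟨u, v, a1, a2⟩ ⟨u', v', b1, b2⟩
        have e := h'.sq
        refine ⟨u * u' + v * v' * (4 * a - 3 * z ^ 2), u * v' + v * u', ?_, ?_⟩
        · rw [map_mul, a1, b1]
          simp only [map_add, map_mul, map_sub, map_pow, map_ofNat, map_intCast, ← e]; ring
        · rw [map_mul, a2, b2]
          simp only [map_add, map_mul, map_sub, map_pow, map_ofNat, map_intCast, ← e]; ring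
    rw [← hk] at hlt ⊢
    have := lp p ι K K3 hK.le σ τ _ hR β n (SS a b) (LL a b) ne hn hP hS (by linarith) hH hlt
    rw [e1, e2] at this
    refine padic hD h' hz' (key h' (ι.injective.ne xy) ?_)
    simpa [map_ofNat, dk] using this

end Pool.Agent.Szpiro98
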