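import Pool.Agent.Lib.Szpiro98.Blue

/-! A discrete subgroup of a normed space has generators with small coefficients. -/

namespace Pool.Agent.Szpiro98

open Finset Module

namespace LAT

lemma exists_near {V : Type} [NormedAddCommGroup V] [NormedSpace ℝ V] (w v : V) {ε : ℝ}
    (hε : 0 < ε) : ∃ s : ℝ, ‖v - s • w‖ < ‖(Submodule.span ℝ {w}).mkQ v‖ + ε := by
  obtain ⟨m, hm, hlt⟩ := Submodule.Quotient.norm_mk_lt ((Submodule.span ℝ {w}).mkQ v) hε
  have h : v - m ∈ Submodule.span ℝ {w} := (Submodule.Quotient.eq _).1 hm.symm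
  obtain ⟨s, hs⟩ := Submodule.mem_span_singleton.1 h
  refine ⟨s, ?_⟩
  rw [hs]
  simpa using hlt

lemma norm_round {V : Type} [NormedAddCommGroup V] [NormedSpace ℝ V] (w v : V) (s : ℝ) :
    ‖v - round s • w‖ ≤ ‖v - s • w‖ + ‖w‖ / 2 := by
  have e : v - round s • w = (v - s • w) + (s - round s) • w := by
    rw [sub_smul, ← Int.cast_smul_eq_zsmul ℝ]; abel
  rw [e]
  refine (norm_add_le _ _).trans ?_
  rw [norm_smul, Real.norm_eq_abs]
  have := abs_sub_round s
  have h0 := norm_nonneg w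
  nlinarith

lemma exp_step (n : ℕ) :
    (6 * n + 6) * Real.exp (3 * (n : ℝ) ^ 2) ≤ Real.exp (3 * ((n + 1 : ℕ) : ℝ) ^ 2) := by
  have e : Real.exp (3 * ((n + 1 : ℕ) : ℝ) ^ 2)
      = Real.exp (3 * n + 3 / 2) * Real.exp (3 * n + 3 / 2) * Real.exp (3 * (n : ℝ) ^ 2) := by
    rw [← Real.exp_add, ← Real.exp_add]; congr 1; push_cast; ring
  rw [e]
  refine mul_le_mul_of_nonneg_right ?_ (Real.exp_pos _).le
  have h := Real.add_one_le_exp (3 * (n : ℝ) + 3 / 2)
  have h0 : (0 : ℝ) ≤ n := Nat.cast_nonneg n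
  nlinarith

lemma strong (G : Type) [AddCommGroup G] (n : ℕ) :
    ∀ (V : Type) [NormedAddCommGroup V] [NormedSpace ℝ V] [FiniteDimensional ℝ V],
      finrank ℝ V ≤ n → ∀ (φ : G →+ V) (δ : ℝ), 0 < δ → (∀ x, ‖φ x‖ < δ → φ x = 0) →
      ∃ y : Fin n → G, ∀ x, ∃ a : Fin n → ℤ, φ x = ∑ k, a k • φ (y k) ∧
        ∀ k, |(a k : ℝ)| * ‖φ (y k)‖ ≤ Real.exp (3 * n ^ 2) * ‖φ x‖ := by
  induction n with
  | zero =>
    intro V _ _ _ hV φ δ _ _
    have : Subsingleton V := Module.finrank_zero_iff.1 (Nat.le_zero.1 hV)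
    exact ⟨Fin.elim0, fun x => ⟨Fin.elim0, Subsingleton.elim _ _, fun k => k.elim0⟩⟩
  | succ n ih =>
    intro V _ _ _ hV φ δ hδ hφ
    by_cases h0 : ∀ x, φ x = 0
    · exact ⟨fun _ => 0, fun x => ⟨fun _ => 0, by simp [h0], fun k => by simp [h0]⟩⟩
    push Not at h0
    set T : Set ℝ := {r | ∃ x, φ x ≠ 0 ∧ r = ‖φ x‖} with hT
    have hTne : T.Nonempty := by
      obtain ⟨x, hx⟩ := h0
      exact ⟨_, x, hx, rfl⟩
    have hTδ : ∀ r ∈ T, δ ≤ r := by
      rintro r ⟨x, hx, rfl⟩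
      by_contra h
      exact hx (hφ x (not_le.1 h))
    set m := sInf T with hm
    have hmδ : δ ≤ m := le_csInf hTne hTδ
    have hm0 : 0 < m := hδ.trans_le hmδ
    have hmin : ∀ x, ‖φ x‖ < m → φ x = 0 := fun x hx => by
      by_contra h
      exact absurd (csInf_le ⟨δ, hTδ⟩ (⟨x, h, rfl⟩ : ‖φ x‖ ∈ T)) (not_le.2 hx)
    obtain ⟨r, ⟨x1, hx1, rfl⟩, hr⟩ := exists_lt_of_csInf_lt hTne (show sInf T < 4 * m / 3 by linarith)
    set S : Submodule ℝ V := Submodule.span ℝ {φ x1} with hS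
    have : IsClosed (S : Set V) := S.closed_of_finiteDimensional
    have hrk : finrank ℝ (V ⧸ S) ≤ n := by
      have h1 := S.finrank_quotient_add_finrank
      have h2 : finrank ℝ S = 1 := finrank_span_singleton hx1
      omega
    let φ' : G →+ V ⧸ S := S.mkQ.toAddMonoidHom.comp φ
    have hφ' : ∀ x, φ' x = S.mkQ (φ x) := fun x => rfl
    have hx1' : φ' x1 = 0 := (Submodule.Quotient.mk_eq_zero _).2 (Submodule.mem_span_singleton_self _)
    have hsub : ∀ (x : G) (z : ℤ), φ (x - z • x1) = φ x - z • φ x1 := fun x z => by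
      rw [map_sub, map_zsmul]
    have hsub' : ∀ (x : G) (z : ℤ), φ' (x - z • x1) = φ' x := fun x z => by
      rw [map_sub, map_zsmul, hx1', smul_zero, sub_zero]
    have hdis : ∀ x, ‖φ' x‖ < m / 4 → φ' x = 0 := fun x hx => by
      obtain ⟨s, hs⟩ := exists_near (φ x1) (φ x) (show 0 < m / 4 - ‖φ' x‖ by linarith)
      have h1 := norm_round (φ x1) (φ x) s
      have h2 : φ (x - round s • x1) = 0 := hmin _ (by
        rw [hsub]
        have : ‖S.mkQ (φ x)‖ = ‖φ' x‖ := rfl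
        linarith)
      rw [← hsub' x (round s), hφ', h2, map_zero]
    obtain ⟨y', hy'⟩ := ih (V ⧸ S) hrk φ' (m / 4) (by linarith) hdis
    have hlift : ∀ u : G, ∃ y : G, φ' y = φ' u ∧ ‖φ y‖ ≤ 5 * ‖φ' u‖ := fun u => by
      by_cases hu : φ' u = 0
      · exact ⟨0, by rw [hu, map_zero], by simp [hu]⟩
      have h1 : m / 4 ≤ ‖φ' u‖ := not_lt.1 fun h => hu (hdis u h)
      obtain ⟨s, hs⟩ := exists_near (φ x1) (φ u) (show 0 < ‖φ' u‖ by linarith)
      refine ⟨u - round s • x1, hsub' _ _, ?_⟩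
      have h2 := norm_round (φ x1) (φ u) s
      rw [hsub]
      have : ‖S.mkQ (φ u)‖ = ‖φ' u‖ := rfl
      linarith
    choose lf hlf1 hlf2 using hlift
    refine ⟨Fin.cons x1 fun k => lf (y' k), fun x => ?_⟩
    obtain ⟨a, ha, hb⟩ := hy' x
    have hC := exp_step n
    set C := Real.exp (3 * (n : ℝ) ^ 2) with hCdef
    have hC1 : 1 ≤ C := Real.one_le_exp (by positivity)
    have hq : ‖φ' x‖ ≤ ‖φ x‖ := Submodule.Quotient.norm_mk_le S (φ x)
    have hk : ∀ k, |(a k : ℝ)| * ‖φ (lf (y' k))‖ ≤ 5 * C * ‖φ x‖ := fun k => by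
      have h1 := hb k
      have h2 := mul_le_mul_of_nonneg_left (hlf2 (y' k)) (abs_nonneg (a k : ℝ))
      have h3 := mul_le_mul_of_nonneg_left hq (zero_le_one.trans hC1)
      linarith
    set u := x - ∑ k, a k • lf (y' k) with hu
    have hu' : φ' u = 0 := by
      rw [hu, map_sub, map_sum, ha]
      simp only [map_zsmul, hlf1, sub_self]
    obtain ⟨s, hs⟩ := Submodule.mem_span_singleton.1 ((Submodule.Quotient.mk_eq_zero S).1 hu')
    have hz : φ u = round s • φ x1 := by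
      have h1 := norm_round (φ x1) (φ u) s
      rw [← hs, sub_self, norm_zero, hs] at h1
      have h2 : φ (u - round s • x1) = 0 := hmin _ (by rw [hsub]; linarith)
      rw [hsub] at h2
      exact sub_eq_zero.1 h2
    have hφu : φ u = φ x - ∑ k, a k • φ (lf (y' k)) := by
      rw [hu, map_sub, map_sum]
      simp only [map_zsmul]
    have hx0 := norm_nonneg (φ x)
    have hn0 : (0 : ℝ) ≤ n := Nat.cast_nonneg n
    refine ⟨Fin.cons (round s) a, ?_, fun k => ?_⟩
    · rw [Fin.sum_univ_succ]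
      simp only [Fin.cons_zero, Fin.cons_succ]
      rw [← hz, hφu]
      abel
    · refine le_trans ?_ (mul_le_mul_of_nonneg_right hC hx0)
      refine Fin.cases ?_ (fun k => ?_) k
      · simp only [Fin.cons_zero]
        have h1 : |((round s : ℤ) : ℝ)| * ‖φ x1‖ = ‖φ u‖ := by
          rw [hz, ← Int.cast_smul_eq_zsmul ℝ, norm_smul, Real.norm_eq_abs]
        have h2 : ‖∑ k, a k • φ (lf (y' k))‖ ≤ n * (5 * C * ‖φ x‖) := by
          refine (norm_sum_le _ _).trans ?_
          refine (Finset.sum_le_sum (g := fun _ => 5 * C * ‖φ x‖) fun k _ => ?_).trans ?_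
          · rw [← Int.cast_smul_eq_zsmul ℝ, norm_smul, Real.norm_eq_abs]
            exact hk k
          · simp
        have h3 := norm_sub_le (φ x) (∑ k, a k • φ (lf (y' k)))
        rw [h1, hφu]
        have h4 : ‖φ x‖ ≤ C * ‖φ x‖ := le_mul_of_one_le_left hx0 hC1
        have h5 : 0 ≤ n * (C * ‖φ x‖) := by positivity
        nlinarith
      · simp only [Fin.cons_succ]
        have h4 : 0 ≤ C * ‖φ x‖ := by positivity
        have h5 : 0 ≤ n * (C * ‖φ x‖) := by positivity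
        have := hk k
        nlinarith

end LAT

theorem lat : LatStmt := by
  intro n V _ _ _ hV G _ φ δ hδ hφ
  obtain ⟨y, hy⟩ := LAT.strong G n V hV φ δ hδ hφ
  refine ⟨y, fun x => ?_⟩
  obtain ⟨a, ha, hb⟩ := hy x
  classical
  refine ⟨fun k => if φ (y k) = 0 then 0 else a k, ?_, fun k => ?_⟩
  · rw [ha]
    refine Finset.sum_congr rfl fun k _ => ?_
    by_cases h : φ (y k) = 0 <;> simp [h]
  · by_cases h : φ (y k) = 0
    · simp only [h, if_true, Int.cast_zero, abs_zero, zero_mul]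
      positivity
    · simp only [h, if_false]
      have h1 : δ ≤ ‖φ (y k)‖ := not_lt.1 fun h' => h (hφ _ h')
      exact (mul_le_mul_of_nonneg_left h1 (abs_nonneg _)).trans (hb k)

end Pool.Agent.Szpiro98
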