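import Pool.Agent.Lib.Szpiro98.Blue

/-! The archimedean local bound. -/

namespace Pool.Agent.Szpiro98

open Finset Module NumberField IsDedekindDomain NormedSpace

theorem loci (h3 : SunStmt) (h4 : MidStmt) (h5 : RefIStmt) : LocIStmt := by
  obtain ⟨C1, hC1, h4⟩ := h4
  obtain ⟨E, E1, hE⟩ : ∃ E : ℝ, 1 ≤ E ∧ ∀ N : ℕ, 100 / om N ^ 2 = 100 * E ^ N :=
    ⟨Real.exp 4000, Real.one_le_exp (by norm_num), fun N => by
      rw [om, ← Real.exp_nat_mul, ← Real.exp_nat_mul, div_eq_mul_inv, ← Real.exp_neg]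
      congr 2
      push_cast
      ring⟩
  have C2 : 1 ≤ C1 * E := one_le_mul_of_one_le_of_one_le hC1 E1
  refine ⟨216 * (C1 * E) ^ 4, fun C hC ι K _ _ hK K3 σ τ β n S 𝓛 hne hn hS hp hL hβ hb => ?_⟩
  have β0 : β ≠ 0 := fun e => hne (by simp [e])
  obtain ⟨M, hM⟩ := Ideal.exists_maximal (𝓞 K)
  obtain ⟨S', r, -, a1, a2, a3, a4, a5, a6⟩ := h3 K K3 β n S 𝓛
    ⟨M, hM.isPrime, Ring.ne_bot_of_isMaximal_of_not_isField hM (RingOfIntegers.not_isField K)⟩
    β0 hn hS hp (by linarith) hβ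
  have hrk : rk K ≤ 2 := by
    have := InfinitePlace.card_eq_nrRealPlaces_add_nrComplexPlaces K
    have := InfinitePlace.card_add_two_mul_card_eq_rank K
    rw [rk]
    omega
  let s : Setup ℂ K :=
    { q := 2, N := S'.card + rk K + 1 + 1, e := 1, W := fun h => h * om (S'.card + rk K + 1 + 1)
      Dom := ⊤, D' := ⊤, ι := ι, σ := σ, τ := τ, S := S', ψ := Complex.imAddGroupHom
      hq := Nat.prime_two, q3 := by norm_num
      an := an_complex (by norm_num) (by norm_num) (Real.exp_pos _).le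
      le := le_rfl, hι := fun θ M _ h => h.2 ι, hK := hK, K3 := K3
      ne := fun e => hne (by rw [e]), hS := a6
      hd := fun t _ h1 h2 => by
        rw [← Complex.exp_eq_exp_ℂ, Complex.norm_exp, Real.log_exp] at h2
        have h3 : |t.im| ≤ Real.exp (-100) := h1 one_ne_zero
        linarith [Complex.norm_le_abs_re_add_abs_im t]
      hN := rfl }
  have D1 : 1 ≤ dk K := by
    rw [dk]
    exact_mod_cast Int.one_le_abs (discr_ne_zero K)
  have G1 : 1 ≤ √(dk K) * (1 + Real.log (dk K)) ^ 4 :=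
    one_le_mul_of_one_le_of_one_le (Real.one_le_sqrt.2 D1)
      (one_le_pow₀ (by linarith [Real.log_nonneg D1]))
  have L1 : 1 ≤ Real.log 𝓛 ^ 3 := one_le_pow₀ (by
    rw [Real.le_log_iff_exp_le (by linarith)]
    linarith [Real.exp_one_lt_d9])
  have C3 : (C1 * E) ^ 3 ≤ (C1 * E) ^ 4 := pow_le_pow_right₀ C2 (by norm_num)
  have C4 : 1 ≤ (C1 * E) ^ 4 := one_le_pow₀ C2
  have lq : ∀ q ∈ S, 1 / 2 ≤ Real.log q := fun q hq =>
    le_trans (by linarith [Real.log_two_gt_d9]) (Real.log_le_log two_pos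
      (by exact_mod_cast (hS q hq).two_le))
  have C5 : 216 ≤ C := by linarith
  have C6 : 0 ≤ C := by linarith
  have P1 : 1 ≤ ∏ q ∈ S, C * Real.log q ^ 3 := prod_induction _ (fun x => 1 ≤ x)
    (fun _ _ => one_le_mul_of_one_le_of_one_le) le_rfl fun q hq => by
      have : (1 / 2) ^ 3 ≤ Real.log q ^ 3 := pow_le_pow_left₀ (by norm_num) (lq q hq) 3
      nlinarith
  have b1 : 216 ≤ bnd C S (dk K) 1 𝓛 := by
    calc (216 : ℝ) = 216 * 1 * 1 * 1 * 1 := by norm_num
      _ ≤ _ := by rw [bnd]; gcongr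
  have b2 : 2 * mb C1 s.N (∏ v ∈ s.S, wt v) (dk K) (100 / om s.N ^ 2) 𝓛 ≤ bnd C S (dk K) 1 𝓛 := by
    have e1 : (C1 * E) ^ s.N ≤ (C1 * E) ^ 4 * ((C1 * E) ^ 3) ^ S.card := by
      rw [← pow_mul, ← pow_add]
      exact pow_le_pow_right₀ C2 (by simp only [s]; omega)
    have e2 : ((C1 * E) ^ 3) ^ S.card * ∏ q ∈ S, (6 * Real.log q) ^ 3 ≤
        ∏ q ∈ S, C * Real.log q ^ 3 := by
      rw [← prod_const, ← prod_mul_distrib]
      refine prod_le_prod (fun q hq => ?_) fun q hq => ?_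
      · have := lq q hq
        positivity
      · have := lq q hq
        rw [mul_pow 6, ← mul_assoc]
        gcongr
        linarith
    have e3 : 0 ≤ ∏ q ∈ S, (6 * Real.log q) ^ 3 := prod_nonneg fun q hq => by
      have := lq q hq
      positivity
    rw [mb, bnd, hE]
    calc _ = 200 * ((C1 * E) ^ s.N * ∏ v ∈ S', wt v) * (√(dk K) * (1 + Real.log (dk K)) ^ 4) * 1 *
          Real.log 𝓛 ^ 3 := by rw [mul_pow]; ring
      _ ≤ 200 * ((C1 * E) ^ 4 * ((C1 * E) ^ 3) ^ S.card * ∏ q ∈ S, (6 * Real.log q) ^ 3) *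
          (√(dk K) * (1 + Real.log (dk K)) ^ 4) * 1 * Real.log 𝓛 ^ 3 := by
          gcongr 200 * ?_ * _ * _ * _
          exact (mul_le_mul_of_nonneg_left a2 (by positivity)).trans (by gcongr)
      _ ≤ _ := by
          gcongr ?_ * _ * _ * _
          rw [mul_assoc, ← mul_assoc 200]
          gcongr
          linarith
  have y0 : ι (τ β) ≠ 0 := by simpa using β0
  have x0 : ι (σ β) / ι (τ β) ≠ 0 := div_ne_zero (by simpa using β0) y0
  have e : ι (σ β) - ι (τ β) = (ι (σ β) / ι (τ β) - 1) * ι (τ β) := by field_simp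
  rw [e, norm_mul]
  gcongr
  have hx : ∀ y : ℝ, 8 ≤ y → 9 * Real.exp (-y) ≤ 1 := fun y hy => by
    rw [Real.exp_neg, ← div_eq_mul_inv, div_le_one (Real.exp_pos _)]
    linarith [Real.add_one_le_exp y]
  rcases le_total ‖ι (σ β) / ι (τ β) - 1‖ (1 / 2) with c | c
  · have l1 := Complex.norm_log_one_add_half_le_self c
    rw [add_sub_cancel] at l1
    have l2 : ‖((6 : ℕ) : ℂ) * Complex.log (ι (σ β) / ι (τ β))‖ ≤ 9 * ‖ι (σ β) / ι (τ β) - 1‖ := by
      rw [norm_mul, Complex.norm_natCast]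
      push_cast
      linarith
    have key := h4 ℂ K s _ 𝓛 _ _ (by rw [hE]; linarith [one_le_pow₀ (n := s.N) E1])
      (h5 K s rfl (fun _ => rfl) (fun _ => rfl) rfl) hL a4 a5
      ((Complex.abs_im_le_norm _).trans (l2.trans (by linarith))) trivial ?_ ?_ (by linarith)
    · have k1 := hx (bnd C S (dk K) 1 𝓛 / 2) (by linarith)
      have k2 : Real.exp (-(bnd C S (dk K) 1 𝓛 / 2)) ≤ 9 * ‖ι (σ β) / ι (τ β) - 1‖ :=
        (Real.exp_le_exp.2 (by linarith)).trans (key.trans l2)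
      rw [← add_halves (-bnd C S (dk K) 1 𝓛), Real.exp_add, neg_div]
      nlinarith [Real.exp_pos (-(bnd C S (dk K) 1 𝓛 / 2))]
    · simp only [Setup.Lg, s, ← Complex.exp_eq_exp_ℂ, Complex.exp_nat_mul, Complex.exp_log x0,
        map_div₀, map_pow, map_ratCast]
      field_simp
    · refine mul_ne_zero (by norm_num) fun e => hne (ι.injective ?_)
      rw [← div_eq_one_iff_eq y0, ← Complex.exp_log x0, e, Complex.exp_zero]
  · linarith [hx _ (by linarith : 8 ≤ bnd C S (dk K) 1 𝓛)]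

end Pool.Agent.Szpiro98
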