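import Pool.Agent.Lib.Szpiro98.Blue

/-! Block LOCP: the non-archimedean local bound. -/

namespace Pool.Agent.Szpiro98

open Finset Module NumberField IsDedekindDomain NormedSpace Pool.Agent.Lib.MP_cafdd5_nt

namespace LOCP

lemma one_le_wt {K : Type} [Field K] [NumberField K] (v : HOS K) : 1 ≤ wt v := by
  have h : 1 < Ideal.absNorm v.asIdeal := NumberField.HeightOneSpectrum.one_lt_absNorm v
  have h2 : (2 : ℝ) ≤ Ideal.absNorm v.asIdeal := by exact_mod_cast h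
  have h3 := Real.log_le_log two_pos h2
  have := Real.log_two_gt_d9
  unfold wt
  linarith

lemma one_le_dk (K : Type) [Field K] [NumberField K] : 1 ≤ dk K := by
  unfold dk
  exact_mod_cast Int.one_le_abs (discr_ne_zero K)

lemma rk_le (K : Type) [Field K] [NumberField K] (h : finrank ℚ K ≤ 3) : rk K ≤ 2 := by
  have := InfinitePlace.card_add_two_mul_card_eq_rank K
  have := InfinitePlace.card_eq_nrRealPlaces_add_nrComplexPlaces K
  unfold rk
  omega

lemma om_pow (N j : ℕ) : (om N ^ j)⁻¹ = Real.exp (2000 * j) ^ N := by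
  rw [om, ← Real.exp_nat_mul, ← Real.exp_nat_mul, ← Real.exp_neg]
  congr 1
  ring

lemma one_le_log {𝓛 : ℝ} (h : 3 ≤ 𝓛) : 1 ≤ Real.log 𝓛 := by
  rw [Real.le_log_iff_exp_le (by linarith)]
  linarith [Real.exp_one_lt_d9]

lemma le_mb {C R D κ 𝓛 : ℝ} (N : ℕ) (hC : 1 ≤ C) (hR : 1 ≤ R) (hD : 1 ≤ D) (hκ : 0 ≤ κ)
    (h : 3 ≤ 𝓛) : κ ≤ mb C N R D κ 𝓛 := by
  have h1 := one_le_log h
  have h2 := Real.log_nonneg hD
  have h3 : 1 ≤ √D := Real.one_le_sqrt.2 hD
  unfold mb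
  calc κ = 1 * 1 * (1 * 1) * κ * 1 := by ring
    _ ≤ _ := by
      gcongr
      · exact one_le_pow₀ hC
      · exact one_le_pow₀ (by linarith)
      · exact one_le_pow₀ h1

lemma mb_le {C1 C a R D κ 𝓛 : ℝ} {N j : ℕ} {S : Finset ℕ} (hC1 : 1 ≤ C1) (ha : 1 ≤ a)
    (hC : 432 * a * (C1 * Real.exp (2000 * j)) ^ 4 ≤ C) (hN : N ≤ 3 * S.card + 4)
    (hR : R ≤ ∏ q ∈ S, (6 * Real.log q) ^ 3) (hD : 1 ≤ D) (hκ : 0 ≤ κ) (h : 3 ≤ 𝓛) :
    2 * mb C1 N R D (a * κ / om N ^ j) 𝓛 ≤ bnd C S D κ 𝓛 := by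
  have h1 := one_le_log h
  have h2 := Real.log_nonneg hD
  have hE : 1 ≤ C1 * Real.exp (2000 * j) :=
    one_le_mul_of_one_le_of_one_le hC1 (Real.one_le_exp (by positivity))
  have e : 2 * mb C1 N R D (a * κ / om N ^ j) 𝓛 = 2 * a * (C1 * Real.exp (2000 * j)) ^ N * R *
      ((√D * (1 + Real.log D) ^ 4) * κ * Real.log 𝓛 ^ 3) := by
    rw [mb, div_eq_mul_inv, om_pow, mul_pow]
    ring
  have e' : bnd C S D κ 𝓛 = C * (∏ q ∈ S, C * Real.log q ^ 3) *
      ((√D * (1 + Real.log D) ^ 4) * κ * Real.log 𝓛 ^ 3) := by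
    rw [bnd]
    ring
  rw [e, e']
  refine mul_le_mul_of_nonneg_right ?_ (by positivity)
  generalize C1 * Real.exp (2000 * j) = E at *
  have hl : ∀ q : ℕ, 0 ≤ Real.log q := fun q => Real.log_natCast_nonneg q
  have h3 : E ^ 3 ≤ E ^ 4 := pow_le_pow_right₀ hE (by norm_num)
  have h4 : 0 ≤ E ^ 4 := by positivity
  have h5 : E ^ 4 ≤ a * E ^ 4 := le_mul_of_one_le_left h4 ha
  calc 2 * a * E ^ N * R ≤ 2 * a * E ^ (3 * S.card + 4) * ∏ q ∈ S, (6 * Real.log q) ^ 3 := by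
        rcases le_total R 0 with h0 | h0
        · exact (mul_nonpos_of_nonneg_of_nonpos (by positivity) h0).trans
            (mul_nonneg (by positivity) (prod_nonneg fun q _ => by have := hl q; positivity))
        · gcongr
    _ = 2 * a * E ^ 4 * ∏ q ∈ S, (216 * E ^ 3 * Real.log q ^ 3) := by
        rw [pow_add, pow_mul, ← prod_const, mul_comm _ (E ^ 4), ← mul_assoc, mul_assoc _ _ (∏ q ∈ S, _),
          ← prod_mul_distrib]
        congr 1
        exact prod_congr rfl fun q _ => by ring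
    _ ≤ _ := by
        refine mul_le_mul (by linarith) (prod_le_prod (fun q _ => by have := hl q; positivity)
          fun q _ => ?_) (prod_nonneg fun q _ => by have := hl q; positivity) (by linarith)
        exact mul_le_mul_of_nonneg_right (by linarith) (pow_nonneg (hl q) 3)

lemma exp_nat_mul {F : Type} [NormedField F] [CompleteSpace F] [CharZero F] [IsUltrametricDist F]
    (hF : ∀ m : ℕ, ‖(m.factorial : F)⁻¹‖ ≤ 2 ^ m) {t : F} (ht : ‖t‖ ≤ 1 / 4) (n : ℕ) :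
    ‖n * t‖ ≤ ‖t‖ ∧ exp (n * t) = exp t ^ n := by
  have a : ∀ n : ℕ, ‖n * t‖ ≤ ‖t‖ := fun n => by
    rw [norm_mul]
    exact mul_le_of_le_one_left (norm_nonneg _) (IsUltrametricDist.norm_natCast_le_one F n)
  refine ⟨a n, ?_⟩
  induction n with
  | zero => simp
  | succ n ih =>
    rw [Nat.cast_succ, add_mul, one_mul, exp_add_small hF ((a n).trans ht) ht, ih, pow_succ]

lemma om_le {N : ℕ} (h : 1 ≤ N) : om N ≤ Real.exp (-100) ∧ om N ≤ 1 / 40 := by
  have h1 : (1 : ℝ) ≤ N := by exact_mod_cast h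
  have h2 : om N ≤ Real.exp (-100) := Real.exp_le_exp.2 (by linarith)
  refine ⟨h2, h2.trans ?_⟩
  rw [Real.exp_neg, one_div]
  exact inv_anti₀ (by norm_num) (by linarith [Real.add_one_le_exp (100 : ℝ)])

lemma norm_le {F : Type} [NormedField F] [IsUltrametricDist F] (ι : Qb →+* F) {θ : Qb}
    (h : IsIntegral ℤ θ) : ‖ι θ‖ ≤ 1 :=
  norm_le_of_ultra (h.map ι.toIntAlgHom)

end LOCP

open LOCP in
theorem locp (h1 : AnpStmt) (h2 : ValStmt) (h3 : SunStmt) (h4 : MidStmt) (h5 : RefPStmt) :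
    LocPStmt := by
  classical
  obtain ⟨C1, hC1, h4⟩ := h4
  refine ⟨432 * 1024 * (C1 * Real.exp (2000 * (6 : ℕ))) ^ 4, fun C hC p _ ι K _ _ hK K3 σ τ r hρ β n S 𝓛
    hne hn hS hnS h𝓛 hβ hb => ?_⟩
  obtain ⟨hF, hi, hu⟩ := h1 p
  have hp : p.Prime := Fact.out
  obtain ⟨P, hP⟩ := h2 p K (ι.comp σ)
  obtain ⟨P', hP'⟩ := h2 p K (ι.comp τ)
  have β0 : β ≠ 0 := by
    rintro rfl
    exact hne (by simp)
  obtain ⟨S', r0, hPS, hcard, hwt, hr0, hsu, hsz, hrat⟩ :=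
    h3 K K3 β n S 𝓛 P β0 hn hS hnS (by linarith) hβ
  obtain ⟨N, hN⟩ : ∃ N, N = (S'.erase P').card + rk K + 0 + 1 := ⟨_, rfl⟩
  have hN1 : 1 ≤ N := by omega
  have hN2 : N ≤ 3 * S.card + 4 := by
    have := rk_le K K3
    have := card_erase_le (s := S') (a := P')
    omega
  obtain ⟨ω1, ω2⟩ := om_le hN1
  have ω0 : 0 < om N := Real.exp_pos _
  obtain ⟨q, hq, q3, hpq⟩ : ∃ q : ℕ, q.Prime ∧ q ≤ 3 ∧ ¬ p ∣ q := by
    by_cases h : p = 2
    · exact ⟨3, Nat.prime_three, le_rfl, by rw [h]; norm_num⟩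
    · exact ⟨2, Nat.prime_two, by norm_num, fun k => h ((Nat.prime_dvd_prime_iff_eq hp Nat.prime_two).1 k)⟩
  have md : ∀ (a : ℝ) (ha : 0 < a) (t : ℂ_[p]), t ∈ (IsUltrametricDist.closedBall_openAddSubgroup ℂ_[p]
      (r := a) ha : AddSubgroup ℂ_[p]) ↔ ‖t‖ ≤ a := fun a ha t => mem_closedBall_zero_iff
  let s : Setup ℂ_[p] K :=
    { q := q
      N := N
      e := 0
      W := fun _ => om N
      Dom := IsUltrametricDist.closedBall_openAddSubgroup ℂ_[p] (r := 1 / 16) (by norm_num)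
      D' := IsUltrametricDist.closedBall_openAddSubgroup ℂ_[p] (r := om N) ω0
      ι := ι
      σ := σ
      τ := τ
      S := S'.erase P'
      ψ := 0
      hq := hq
      q3 := q3
      an := an_ultra hF hq.pos (hu q hpq) ω0.le ω2 hi
      le := fun t ht => (md _ _ t).2 (by linarith [(md _ _ t).1 ht])
      hι := fun θ M hM h => (norm_le ι h.1).trans hM
      hK := hK
      K3 := K3
      ne := fun h => hne (by rw [h])
      hS := fun x hx => hrat x ⟨hx.1, fun v hv => hx.2 v fun k => hv (mem_of_mem_erase k)⟩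
      hd := fun t ht _ _ => by linarith [(md _ _ t).1 ht, Real.exp_pos (-100)]
      hN := hN }
  have hκ : 1 ≤ kap p r.valuation := by
    unfold kap
    split_ifs
    · exact le_rfl
    · exact_mod_cast hp.pos
  have href := h5 p K s r rfl rfl (fun _ => rfl) (fun t ht => (md _ ω0 t).2 ht)
    (fun η hη => ⟨(hP η hη.1).1 (hη.2 P fun k => hPS (mem_of_mem_erase k)),
      (hP' η hη.1).1 (hη.2 P' (notMem_erase _ _))⟩) hρ
  have hR1 : 1 ≤ ∏ v ∈ S'.erase P', wt v := Finset.one_le_prod fun v _ => one_le_wt v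
  have hR2 : ∏ v ∈ S'.erase P', wt v ≤ ∏ q ∈ S, (6 * Real.log q) ^ 3 :=
    (prod_le_prod_of_subset_of_one_le (erase_subset _ _) (fun v _ => zero_le_one.trans (one_le_wt v))
      fun v _ _ => one_le_wt v).trans hwt
  have hκ2 : 2000 * (N : ℝ) + 1 ≤ 1024 * kap p r.valuation / om N ^ 6 := by
    rw [div_eq_mul_inv, om_pow, ← Real.exp_nat_mul]
    have a := Real.add_one_le_exp ((N : ℝ) * (2000 * (6 : ℕ)))
    have b : (0 : ℝ) ≤ N := Nat.cast_nonneg N
    push_cast at a ⊢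
    nlinarith
  have hN0 : (0 : ℝ) ≤ N := Nat.cast_nonneg N
  have b1 := le_mb (C := C1) N hC1 hR1 (one_le_dk K) (le_trans (by positivity) hκ2) h𝓛
  have b2 := mb_le (a := 1024) (κ := kap p r.valuation) hC1 (by norm_num) hC hN2 hR2 (one_le_dk K)
    (by linarith) h𝓛
  have key : ∀ tb : ℂ_[p], 1 ≤ 1024 * kap p r.valuation / om N ^ 6 →
      s.Ref (1024 * kap p r.valuation / om N ^ 6) → 3 ≤ 𝓛 → SU (S'.erase P') (β ^ 6 / r0) →
      Sz (β ^ 6 / r0) (200 * 𝓛) → |(0 : ℝ)| ≤ 200 * 𝓛 → tb ∈ s.D' → s.Lg (β ^ 6 / r0) tb → tb ≠ 0 →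
      mb C1 N (∏ v ∈ S'.erase P', wt v) (dk K) (1024 * kap p r.valuation / om N ^ 6) 𝓛 < 𝓛 →
      Real.exp (-mb C1 N (∏ v ∈ S'.erase P', wt v) (dk K) (1024 * kap p r.valuation / om N ^ 6) 𝓛) ≤
        ‖tb‖ := h4 ℂ_[p] K s _ 𝓛 (β ^ 6 / r0)
  generalize mb C1 N (∏ v ∈ S'.erase P', wt v) (dk K) (1024 * kap p r.valuation / om N ^ 6) 𝓛 = b
    at b1 b2 key
  have τ0 : ι (τ β) ≠ 0 := by simpa using β0
  obtain ⟨x, hx⟩ : ∃ x, ι (σ β) = x * ι (τ β) := ⟨_, (div_mul_cancel₀ _ τ0).symm⟩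
  have x1 : x ≠ 1 := by
    rintro rfl
    exact hne (ι.injective (by rw [hx, one_mul]))
  rw [hx, ← sub_one_mul, norm_mul]
  refine mul_le_mul_of_nonneg_right ?_ (norm_nonneg _)
  have e1 : Real.exp (-1) ≤ 1 / 2 := by
    rw [Real.exp_neg, one_div]
    exact inv_anti₀ (by norm_num) (by linarith [Real.add_one_le_exp (1 : ℝ)])
  by_cases hc : ‖x - 1‖ ≤ om N / 2
  swap
  · refine le_trans ?_ (not_le.1 hc).le
    calc _ ≤ Real.exp (-(2000 * N) + -1) := Real.exp_le_exp.2 (by linarith)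
      _ ≤ _ := by
        rw [Real.exp_add, om, div_eq_mul_one_div]
        gcongr
  obtain ⟨t, ht, hte⟩ := exists_log hF (x := x) (r := 2 * ‖x - 1‖) (by linarith) (by linarith)
  obtain ⟨t1, t2⟩ := exp_nat_mul hF (t := t) (by linarith) 6
  have t0 : t ≠ 0 := by
    rintro rfl
    exact x1 (by rw [← hte, exp_zero])
  have xn : ‖x‖ = 1 := by
    have := IsUltrametricDist.norm_add_eq_max_of_norm_ne_norm (x := x - 1) (y := 1)
      (by rw [norm_one]; linarith)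
    rw [sub_add_cancel, norm_one] at this
    rw [this, max_eq_right (by linarith)]
  have lg : x ^ 6 * ι (τ (β ^ 6 / r0)) = ι (σ (β ^ 6 / r0)) := by
    simp only [map_div₀, map_pow, map_ratCast, hx]
    ring
  have su : SU (S'.erase P') (β ^ 6 / r0) := by
    refine ⟨hsu.1, fun v hv => ?_⟩
    by_cases h : v = P'
    · rw [h]
      refine (hP' _ hsu.1).2 ?_
      have a := (hP _ hsu.1).1 (hsu.2 P hPS)
      have b := congrArg norm lg
      rw [norm_mul, norm_pow, xn, one_pow, one_mul] at b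
      exact b.trans a
    · exact hsu.2 v fun k => hv (mem_erase.2 ⟨h, k⟩)
  have fin := key ((6 : ℕ) * t) (by linarith) href h𝓛 su hsz (by simp; linarith)
    ((md _ ω0 _).2 (by linarith)) (by rw [← hte, ← t2] at lg; exact lg)
    (mul_ne_zero (by norm_num) t0) (by linarith)
  calc _ ≤ Real.exp (-b + -1) := Real.exp_le_exp.2 (by linarith)
    _ ≤ 2 * ‖x - 1‖ * (1 / 2) := by
      rw [Real.exp_add]
      gcongr
      linarith
    _ = _ := by ring

end Pool.Agent.Szpiro98
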