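import Pool.Agent.Lib.Szpiro98.Blue

/-! Block QUAD: the local bounds in a quadratic field. -/

namespace Pool.Agent.Szpiro98

open Finset Module NumberField

namespace QUAD

lemma exists_field {c : ℤ} (hc : ¬IsSquare c) : ∃ (K : Type) (_ : Field K) (_ : NumberField K) (w : K),
    w ^ 2 = c ∧ finrank ℚ K = 2 ∧ (∀ γ : K, ∃ u v : ℚ, γ = u + v * w) ∧
      ∀ s : Qb, s ^ 2 = c → ∃ σ : K →+* Qb, σ w = s := by
  have : Fact (∀ r : ℚ, r ^ 2 ≠ (c : ℚ) + 0 * r) :=
    ⟨fun r hr => hc (Rat.isSquare_intCast_iff.1 ⟨r, by linear_combination -hr⟩)⟩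
  refine ⟨QuadraticAlgebra ℚ c 0, inferInstance, ⟨⟩, QuadraticAlgebra.omega, by ext <;> simp [sq],
    QuadraticAlgebra.finrank_eq_two _ _, fun γ => ⟨γ.re, γ.im, by ext <;> simp⟩, fun s hs =>
    ⟨(QuadraticAlgebra.lift ⟨s, by rw [← sq, hs]; simp [Algebra.smul_def]⟩).toRingHom, by simp⟩⟩

variable {K : Type} [Field K] [NumberField K]

lemma univ_eq (hK : finrank ℚ K = 2) {σ τ : K →+* Qb} (h : σ ≠ τ) {M : Type} [CommMonoid M]
    (f : (K →ₐ[ℚ] Qb) → M) : ∏ φ, f φ = f σ.toRatAlgHom * f τ.toRatAlgHom := by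
  classical
  have h' : σ.toRatAlgHom ≠ τ.toRatAlgHom := fun e => h (RingHom.ext fun x => DFunLike.congr_fun e x)
  rw [← prod_pair h', eq_univ_of_card {σ.toRatAlgHom, τ.toRatAlgHom} (by rw [card_pair h', AlgHom.card, hK])]

lemma discr_sq (hK : finrank ℚ K = 2) (x : Fin 2 → K) (hx : ∀ i, IsIntegral ℤ (x i)) :
    ∃ k : ℤ, Algebra.discr ℚ x = k ^ 2 * discr K := by
  let e : Free.ChooseBasisIndex ℤ (𝓞 K) ≃ Fin 2 := Fintype.equivFinOfCardEq (by
    rw [← finrank_eq_card_chooseBasisIndex, RingOfIntegers.rank, hK])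
  refine ⟨(Matrix.of fun i j => (RingOfIntegers.basis K).repr ⟨x j, hx j⟩ (e.symm i)).det, ?_⟩
  refine (congrArg _ (((integralBasis K).reindex e).toMatrix_map_vecMul x).symm).trans ?_
  rw [Algebra.discr_of_matrix_vecMul, Basis.coe_reindex, Algebra.discr_reindex, coe_discr, Int.cast_det]
  congr 3
  ext i j
  rw [Basis.toMatrix_apply, Basis.repr_reindex_apply]
  exact integralBasis_repr_apply K ⟨x j, hx j⟩ _

lemma discr_dvd (hK : finrank ℚ K = 2) {w : K} {c : ℤ} (hw : w ^ 2 = c) (ht : Algebra.trace ℚ K w = 0) :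
    discr K ∣ 4 * c := by
  obtain ⟨k, hk⟩ := discr_sq hK ![1, w] fun i => by
    fin_cases i
    exacts [isIntegral_one, IsIntegral.of_pow two_pos (hw ▸ isIntegral_intCast c)]
  have t : ∀ r : ℚ, Algebra.trace ℚ K r = 2 * r := fun r => by
    simpa [hK] using Algebra.trace_algebraMap (R := ℚ) (S := K) r
  have t1 := t 1
  have t2 := t c
  push_cast at t1 t2
  rw [Algebra.discr_def] at hk
  simp only [Matrix.det_fin_two, Algebra.traceMatrix_apply, Algebra.traceForm_apply,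
    Matrix.cons_val_zero, Matrix.cons_val_one, one_mul, mul_one, ← sq, hw, ht, t1, t2, one_pow] at hk
  exact ⟨k ^ 2, by exact_mod_cast (by linarith : (4 * c : ℚ) = discr K * k ^ 2)⟩

lemma val_le (hK : finrank ℚ K = 2) {w : K} {c : ℤ} (hc : c ≠ 0) (hw : w ^ 2 = c)
    (ht : Algebra.trace ℚ K w = 0) {p : ℕ} (hp : p.Prime) :
    padicValInt p (discr K) ≤ padicValInt p 4 + padicValInt p c % 2 := by
  have := Fact.mk hp
  obtain ⟨c', e⟩ := (padicValInt_dvd_iff (p := p) (2 * (padicValInt p c / 2)) c).2 (Or.inr (by omega))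
  have p0 : (p : ℤ) ≠ 0 := by exact_mod_cast hp.ne_zero
  have c0 : c' ≠ 0 := fun h => hc (by rw [e, h, mul_zero])
  have v := congrArg (padicValInt p) e
  rw [padicValInt.mul (pow_ne_zero _ p0) c0, ← Nat.cast_pow, padicValInt.of_nat, padicValNat.prime_pow] at v
  generalize hj : padicValInt p c / 2 = j at e v
  have p1 : (p : K) ≠ 0 := by exact_mod_cast hp.ne_zero
  have h := discr_dvd hK (w := ((p : ℚ) ^ j)⁻¹ • w) (c := c') (by
    rw [Algebra.smul_def, mul_pow, hw, e]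
    simp only [map_inv₀, map_pow, map_natCast]
    push_cast
    field_simp
    ring) (by rw [map_smul, ht, smul_zero])
  have := ((padicValInt_dvd_iff _ _).1 ((padicValInt_dvd (p := p) (discr K)).trans h)).resolve_left
    (mul_ne_zero (by norm_num) c0)
  rw [padicValInt.mul (by norm_num) c0] at this
  omega

end QUAD

open QUAD in
theorem quad : QuadStmt := by
  intro C _ hP hI A B c S 𝓛 hc hs hB hm hS hBS h3 hL
  obtain ⟨K, _, _, w, hw, hK, hsp, hl⟩ := exists_field hs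
  have c0 : c ≠ 0 := fun h => hs (h ▸ IsSquare.zero)
  obtain ⟨s, hs2⟩ := IsAlgClosed.exists_pow_nat_eq (c : Qb) two_pos
  have s0 : s ≠ 0 := fun h => c0 (by rw [h, zero_pow two_ne_zero] at hs2; exact_mod_cast hs2.symm)
  obtain ⟨σ, hσ⟩ := hl s hs2
  obtain ⟨τ, hτ⟩ := hl (-s) (by rw [neg_sq, hs2])
  obtain ⟨β, hβ⟩ : ∃ β : K, β = (w - A) / 2 := ⟨_, rfl⟩
  have e0 : ∀ {E : Type} [Field E] (φ : K →+* E), φ β = (φ w - A) / 2 := fun φ => by
    simp [hβ, map_ofNat]
  have e1 : σ β - τ β = s := by rw [e0, e0, hσ, hτ]; ring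
  have e2 : σ β + τ β = -A := by rw [e0, e0, hσ, hτ]; ring
  have e3 : σ β * τ β = B := by
    have : (c : Qb) = A ^ 2 - 4 * B := by exact_mod_cast hc
    rw [e0, e0, hσ, hτ]
    linear_combination (-1 / 4 : Qb) * hs2 - (1 / 4 : Qb) * this
  have n1 : σ β ≠ τ β := sub_ne_zero.1 (e1 ▸ s0)
  have n2 : σ ≠ τ := fun h => n1 (by rw [h])
  have ht : Algebra.trace ℚ K w = 0 := (algebraMap ℚ Qb).injective (by
    rw [trace_eq_sum_embeddings Qb, map_zero]
    exact (univ_eq hK n2 fun φ => Multiplicative.ofAdd (φ w)).trans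
      (show σ w + τ w = 0 by rw [hσ, hτ, add_neg_cancel]))
  have hn : Algebra.norm ℚ β = B := (algebraMap ℚ Qb).injective (by
    rw [Algebra.norm_eq_prod_embeddings, univ_eq hK n2, map_intCast]
    exact e3)
  have hH : Hk β (Real.exp 𝓛) := by
    refine ⟨⟨Polynomial.X ^ 2 + Polynomial.C A * Polynomial.X + Polynomial.C B, by monicity!, ?_⟩,
      fun φ => ?_⟩
    · refine σ.injective ?_
      rw [Polynomial.eval₂_add, Polynomial.eval₂_add, Polynomial.eval₂_mul, Polynomial.eval₂_X_pow,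
        Polynomial.eval₂_C, Polynomial.eval₂_C, Polynomial.eval₂_X]
      simp only [eq_intCast, map_add, map_mul, map_pow, map_intCast, map_zero]
      linear_combination σ β * e2 - e3
    · have a1 : ‖φ w‖ = √|(c : ℝ)| := by
        rw [← Complex.norm_intCast, ← map_intCast φ, ← hw, map_pow, norm_pow, Real.sqrt_sq (norm_nonneg _)]
      have a2 := norm_sub_le (φ w) A
      rw [Complex.norm_intCast] at a2
      rw [e0, norm_div, Complex.norm_two]
      linarith [norm_nonneg (φ w - A)]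
  have K1 : (finrank ℚ K).Prime := hK ▸ Nat.prime_two
  have K3 : finrank ℚ K ≤ 3 := by omega
  refine ⟨discr K, discr_ne_zero K, fun p hp => ?_, fun hb => ?_, fun p hp hb => ?_⟩
  · have h1 := val_le hK c0 hw ht hp
    rcases eq_or_ne p 2 with rfl | h2
    · have : padicValInt 2 4 = 2 := padicValNat.prime_pow (p := 2) 2
      omega
    · have : padicValInt p 4 = 0 := padicValInt.eq_zero_of_not_dvd fun h => h2
        ((Nat.prime_dvd_prime_iff_eq hp Nat.prime_two).1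
          (hp.dvd_of_dvd_pow (n := 2) (by exact_mod_cast h)))
      omega
  · have a1 := hI emb K K1 K3 σ τ β B S 𝓛 n1 hn hS hBS h3 hH hb
    have a2 := hI emb K K1 K3 τ σ β B S 𝓛 n1.symm hn hS hBS h3 hH hb
    rw [norm_sub_rev] at a2
    rw [← map_sub, e1, Real.exp_neg, inv_mul_le_iff₀ (Real.exp_pos _)] at a1 a2
    have a3 : |(c : ℝ)| = ‖emb s‖ ^ 2 := by
      rw [← norm_pow, ← map_pow, hs2, map_intCast, Complex.norm_intCast]
    have a4 : |(A : ℝ)| ≤ ‖emb (σ β)‖ + ‖emb (τ β)‖ := by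
      rw [← Complex.norm_intCast, ← norm_neg, ← map_intCast emb, ← map_neg, ← e2, map_add]
      exact norm_add_le _ _
    have a5 : |(B : ℝ)| = ‖emb (σ β)‖ * ‖emb (τ β)‖ := by
      rw [← Complex.norm_intCast, ← map_intCast emb, ← e3, map_mul, norm_mul]
    have a6 : (0 : ℝ) < |(B : ℝ)| := abs_pos.2 (by exact_mod_cast hB)
    have a7 : (0 : ℝ) < |(c : ℝ)| := abs_pos.2 (by exact_mod_cast c0)
    change Real.log _ ≤ Real.log _ + 2 * bnd C S (dk K) 1 𝓛 + 2
    generalize bnd C S (dk K) 1 𝓛 = b at a1 a2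
    rw [Real.log_le_iff_le_exp (a6.trans_le (le_max_right _ _)), Real.exp_add, Real.exp_add,
      Real.exp_log a7, two_mul, Real.exp_add, a3]
    have a8 : 4 ≤ Real.exp 2 := by
      have := Real.add_one_le_exp 1
      rw [show Real.exp 2 = Real.exp 1 * Real.exp 1 by rw [← Real.exp_add]; norm_num]
      nlinarith
    have a9 := mul_le_mul a2 a1 (norm_nonneg _) (by positivity)
    have a10 : (A : ℝ) ^ 2 ≤ (2 * (Real.exp b * ‖emb s‖)) ^ 2 := by
      rw [← sq_abs]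
      exact pow_le_pow_left₀ (abs_nonneg _) (by linarith) 2
    have a11 := mul_le_mul_of_nonneg_left a8 (sq_nonneg (Real.exp b * ‖emb s‖))
    exact max_le (by nlinarith) (by nlinarith)
  · have := Fact.mk hp
    let ι : Qb →+* ℂ_[p] := (IsAlgClosed.lift : Qb →ₐ[ℚ] ℂ_[p]).toRingHom
    have c1 : (c : ℚ_[p]) ≠ 0 := by exact_mod_cast c0
    have rho : ∀ σ τ : K →+* Qb, τ w = -σ w → Rho (ι.comp σ) (ι.comp τ) (c : ℚ_[p]) := fun σ τ h =>
      ⟨c1, ι (σ w), by rw [← map_pow, ← map_pow, hw]; simp, fun γ => by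
        obtain ⟨u, v, rfl⟩ := hsp γ
        exact ⟨u, v, by simp, by simp [h, sub_eq_add_neg]⟩⟩
    have nm : ∀ n : ℤ, ‖ι n‖ = ‖(n : ℚ_[p])‖ := fun n => by
      rw [map_intCast, ← norm_algebraMap' ℂ_[p] (n : ℚ_[p]), map_intCast]
    rw [← Padic.valuation_intCast] at hb ⊢
    have a1 := hP p ι K K1 K3 σ τ c (rho σ τ (by rw [hσ, hτ])) β B S 𝓛 n1 hn hS hBS h3 hH hb
    have a2 := hP p ι K K1 K3 τ σ c (rho τ σ (by rw [hσ, hτ, neg_neg])) β B S 𝓛 n1.symm hn hS hBS h3 hH hb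
    rw [norm_sub_rev] at a2
    rw [← map_sub, e1, Real.exp_neg, inv_mul_le_iff₀ (Real.exp_pos _)] at a1 a2
    have p0 : (0 : ℝ) < p := by exact_mod_cast hp.pos
    have a3 : (p : ℝ) ^ (-(c : ℚ_[p]).valuation) = ‖ι s‖ ^ 2 := by
      rw [← norm_pow, ← map_pow, hs2, nm, Padic.norm_eq_zpow_neg_valuation c1]
    have a4 : ‖(A : ℚ_[p])‖ ≤ max ‖ι (σ β)‖ ‖ι (τ β)‖ := by
      rw [← nm, ← norm_neg, ← map_neg, ← e2, map_add]
      exact IsUltrametricDist.norm_add_le_max _ _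
    have a5 : ‖(B : ℚ_[p])‖ = ‖ι (σ β)‖ * ‖ι (τ β)‖ := by rw [← nm, ← e3, map_mul, norm_mul]
    change _ ≤ _ + 2 * bnd C S (dk K) _ 𝓛
    generalize bnd C S (dk K) _ 𝓛 = b at a1 a2
    have a6 : (p : ℝ) ^ (-8 : ℤ) ≤ (Real.exp b * ‖ι s‖) ^ 2 := by
      rcases not_and_or.1 (hm p hp) with h | h <;> rw [← Padic.norm_int_le_pow_iff_dvd, not_le] at h
      · rw [show (-8 : ℤ) = -(4 : ℕ) * (2 : ℕ) by norm_num, zpow_mul, zpow_natCast]
        exact pow_le_pow_left₀ (by positivity) (h.le.trans (a4.trans (max_le a2 a1))) 2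
      · exact h.le.trans (a5.trans_le (sq (Real.exp b * ‖ι s‖) ▸
          mul_le_mul a2 a1 (norm_nonneg _) (by positivity)))
    have a7 := Real.log_le_log (by positivity) a6
    rw [mul_pow, ← a3, Real.log_mul (by positivity) (by positivity), Real.log_zpow, Real.log_zpow,
      Real.log_pow, Real.log_exp, Padic.valuation_intCast] at a7
    push_cast at a7
    linarith

end Pool.Agent.Szpiro98
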