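import Pool.Agent.Lib.Szpiro98.Blue

/-! The reducible case. -/

namespace Pool.Agent.Szpiro98.RED

open Finset Pool.Agent.Lib.MP_cafdd5_nt

lemma cop {p : ℕ} (hp : p.Prime) {q : ℕ} (hq : q.Prime) (h : p ≠ q) : IsCoprime (p : ℤ) (q : ℤ) :=
  Nat.isCoprime_iff_coprime.2 ((Nat.coprime_primes hp hq).2 h)

lemma dvd_six {p : ℕ} (hp : p.Prime) {e : ℤ} (h : (p : ℤ) ^ 4 ∣ 6 * e) : (p : ℤ) ^ 3 ∣ e := by
  by_cases h2 : p = 2
  · subst h2
    norm_num at h ⊢
    omega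
  by_cases h3 : p = 3
  · subst h3
    norm_num at h ⊢
    omega
  have c2 := cop hp Nat.prime_two h2
  have c3 := cop hp Nat.prime_three h3
  have c6 : IsCoprime ((p : ℤ) ^ 4) 6 := by
    have : (6 : ℤ) = ((2 : ℕ) : ℤ) * ((3 : ℕ) : ℤ) := by norm_num
    rw [this]
    exact (c2.mul_right c3).pow_left
  exact (pow_dvd_pow _ (by norm_num)).trans (c6.dvd_of_dvd_mul_left h)

lemma dvd_four {p : ℕ} (hp : p.Prime) {a : ℤ} (h : (p : ℤ) ^ 6 ∣ 4 * a) : (p : ℤ) ^ 4 ∣ a := by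
  by_cases h2 : p = 2
  · subst h2
    norm_num at h ⊢
    omega
  have c2 := cop hp Nat.prime_two h2
  have c4 : IsCoprime ((p : ℤ) ^ 6) 4 := by
    have : (4 : ℤ) = ((2 : ℕ) : ℤ) * ((2 : ℕ) : ℤ) := by norm_num
    rw [this]
    exact (c2.mul_right c2).pow_left
  exact (pow_dvd_pow _ (by norm_num)).trans (c4.dvd_of_dvd_mul_left h)

lemma sub_SS {a b x : ℤ} (hD : disc a b ≠ 0) (h : x ∣ 16 * disc a b) : x.natAbs.primeFactors ⊆ SS a b := by
  intro p hp
  have pp := Nat.prime_of_mem_primeFactors hp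
  have h1 : (p : ℤ) ∣ 16 * disc a b := (Int.natCast_dvd.2 (Nat.dvd_of_mem_primeFactors hp)).trans h
  simp only [SS, mem_insert, Nat.mem_primeFactors]
  rcases (Nat.prime_iff_prime_int.1 pp).dvd_or_dvd h1 with h2 | h2
  · left
    have : p ∣ 2 ^ 4 := by exact_mod_cast h2
    exact (Nat.prime_dvd_prime_iff_eq pp Nat.prime_two).1 (pp.dvd_of_dvd_pow this)
  · right; right
    exact ⟨pp, Int.natCast_dvd.1 h2, by simpa using hD⟩

lemma SS_prime (a b : ℤ) : ∀ q ∈ SS a b, q.Prime := by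
  intro q hq
  simp only [SS, mem_insert] at hq
  rcases hq with rfl | rfl | hq
  · exact Nat.prime_two
  · exact Nat.prime_three
  · exact Nat.prime_of_mem_primeFactors hq

lemma dvd_of_SS {a b : ℤ} {p : ℕ} (h5 : 5 ≤ p) (h : p ∈ SS a b) : (p : ℤ) ∣ disc a b := by
  simp only [SS, mem_insert] at h
  rcases h with rfl | rfl | h
  · omega
  · omega
  · exact Int.natCast_dvd.2 (Nat.dvd_of_mem_primeFactors h)

lemma abs_le_M (a b : ℤ) : |(a : ℝ)| ≤ max (|(a : ℝ)| ^ 3) ((b : ℝ) ^ 2) ∧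
    |(b : ℝ)| ≤ max (|(a : ℝ)| ^ 3) ((b : ℝ) ^ 2) := by
  constructor
  · refine le_trans ?_ (le_max_left _ _)
    have : |a| ≤ |a| ^ 3 := by
      rcases eq_or_ne a 0 with h | h
      · simp [h]
      · exact le_self_pow₀ (Int.one_le_abs h) (by norm_num)
    exact_mod_cast this
  · refine le_trans ?_ (le_max_right _ _)
    have : |b| ≤ b ^ 2 := by
      rw [← sq_abs]
      rcases eq_or_ne b 0 with h | h
      · simp [h]
      · exact le_self_pow₀ (Int.one_le_abs h) (by norm_num)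
    exact_mod_cast this

lemma one_le_M {a b : ℤ} (hD : disc a b ≠ 0) : 1 ≤ max (|(a : ℝ)| ^ 3) ((b : ℝ) ^ 2) := by
  obtain ⟨h1, h2⟩ := abs_le_M a b
  rcases eq_or_ne a 0 with ha | ha
  · have hb : b ≠ 0 := by
      rintro rfl
      exact hD (by simp [disc, ha])
    have : (1 : ℝ) ≤ |(b : ℝ)| := by exact_mod_cast Int.one_le_abs hb
    exact this.trans h2
  · have : (1 : ℝ) ≤ |(a : ℝ)| := by exact_mod_cast Int.one_le_abs ha
    exact this.trans h1

lemma root_sq {a b e : ℤ} (h : e ^ 3 - a * e - b = 0) : e ^ 2 ≤ |a| + |b| ∧ |e| ≤ e ^ 2 := by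
  rcases eq_or_ne e 0 with he | he
  · subst he
    exact ⟨by positivity, by simp⟩
  have h1 : 1 ≤ |e| := Int.one_le_abs he
  refine ⟨?_, by rw [← sq_abs]; exact le_self_pow₀ h1 (by norm_num)⟩
  have h2 : e ^ 3 = a * e + b := by linarith
  have h3 : |e| ^ 3 ≤ |a| * |e| + |b| := by
    rw [← abs_pow, h2, ← abs_mul]
    exact abs_add_le _ _
  have h4 : |e| ^ 2 * |e| ≤ (|a| + |b|) * |e| := by
    nlinarith [abs_nonneg b]
  rw [← sq_abs]
  exact le_of_mul_le_mul_right h4 (by linarith)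

lemma sqrt_abs_le (c : ℤ) : √|(c : ℝ)| ≤ |(c : ℝ)| := by
  rw [Real.sqrt_le_left (abs_nonneg _)]
  have : |c| ≤ |c| ^ 2 := by
    rcases eq_or_ne c 0 with h | h
    · simp [h]
    · exact le_self_pow₀ (Int.one_le_abs h) (by norm_num)
  exact_mod_cast this

lemma bnd_nonneg {C : ℝ} (hC : 1 ≤ C) (S : Finset ℕ) (D : ℝ) {𝓛 : ℝ} (h : 1 ≤ 𝓛) : 0 ≤ bnd C S D 1 𝓛 := by
  unfold bnd
  have h0 : 0 ≤ C := by linarith
  have h1 : 0 ≤ Real.log 𝓛 := Real.log_nonneg h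
  have h2 : 0 ≤ ∏ q ∈ S, C * Real.log q ^ 3 :=
    prod_nonneg fun q _ => mul_nonneg h0 (pow_nonneg (Real.log_natCast_nonneg q) 3)
  have h3 : 0 ≤ √D * (1 + Real.log D) ^ 4 := by positivity
  positivity

lemma val_pos_iff {p : ℕ} (hp : p.Prime) {d : ℤ} (hd : d ≠ 0) : (p : ℤ) ∣ d ↔ 1 ≤ padicValInt p d := by
  have := Fact.mk hp
  have := padicValInt_dvd_iff (p := p) 1 d
  rw [pow_one] at this
  rw [this]
  simp [hd]

/-- The common final step. -/
lemma core {C : ℝ} (hC : 1 ≤ C) (hQ : Quad C) {a b e A B c : ℤ} (hD : disc a b ≠ 0)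
    (he : e ^ 3 - a * e - b = 0) (hc : c = A ^ 2 - 4 * B) (hs : ¬IsSquare c) (hB : B ∣ 16 * disc a b)
    (hc' : c ∣ 16 * disc a b)
    (hm : ∀ p : ℕ, p.Prime → ¬((p : ℤ) ^ 4 ∣ A ∧ (p : ℤ) ^ 8 ∣ B))
    (h1 : |A| ≤ 6 * |e|) (h2 : |c| ≤ 16 * |a| + 48 * e ^ 2)
    (h3 : e ^ 2 ≤ A ^ 2) (h4 : |a| ≤ A ^ 2 + |B|)
    (h5 : ∀ p : ℕ, p.Prime → Even (padicValInt p c) → Even (padicValInt p (disc a b))) : Loc C a b := by
  have hM := one_le_M hD
  obtain ⟨ha, hb⟩ := abs_le_M a b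
  obtain ⟨r1, r2⟩ := root_sq he
  set M := max (|(a : ℝ)| ^ 3) ((b : ℝ) ^ 2) with hMdef
  have hL : LL a b = Real.log M + 6 := rfl
  have hlog : 0 ≤ Real.log M := Real.log_nonneg hM
  have hB0 : B ≠ 0 := by
    rintro rfl
    exact hD (by simpa using hB)
  have hc0 : c ≠ 0 := by
    rintro rfl
    exact hs IsSquare.zero
  have r1' : (e : ℝ) ^ 2 ≤ |(a : ℝ)| + |(b : ℝ)| := by exact_mod_cast r1
  have r2' : |(e : ℝ)| ≤ (e : ℝ) ^ 2 := by exact_mod_cast r2
  have h1' : |(A : ℝ)| ≤ 6 * |(e : ℝ)| := by exact_mod_cast h1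
  have h2' : |(c : ℝ)| ≤ 16 * |(a : ℝ)| + 48 * (e : ℝ) ^ 2 := by exact_mod_cast h2
  have h3' : (e : ℝ) ^ 2 ≤ (A : ℝ) ^ 2 := by exact_mod_cast h3
  have h4' : |(a : ℝ)| ≤ (A : ℝ) ^ 2 + |(B : ℝ)| := by exact_mod_cast h4
  have hsz : |(A : ℝ)| + √|(c : ℝ)| ≤ Real.exp (LL a b) := by
    rw [hL, Real.exp_add, Real.exp_log (by linarith)]
    have e6 : (124 : ℝ) ≤ Real.exp 6 := by
      have h := Real.add_one_le_exp (1 / 2 : ℝ)
      have h' : Real.exp 6 = Real.exp (1 / 2) ^ 12 := by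
        rw [← Real.exp_nat_mul]
        norm_num
      rw [h']
      calc (124 : ℝ) ≤ (1 / 2 + 1) ^ 12 := by norm_num
        _ ≤ _ := by gcongr
    have := sqrt_abs_le c
    nlinarith
  obtain ⟨d, hd0, hd1, hd2, hd3⟩ := hQ A B c (SS a b) (LL a b) hc hs hB0 hm (SS_prime a b) (sub_SS hD hB)
    (by rw [hL]; linarith) hsz
  refine ⟨d, c, hd0, hc0, ?_, sub_SS hD hc', ?_, ?_⟩
  · intro p hp
    obtain ⟨k1, k2⟩ := hd1 p hp
    refine ⟨by omega, fun h5' => ?_⟩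
    have k3 := k2 (by omega)
    refine ⟨fun hpd => ?_, by split_ifs <;> omega, fun _ hev => ⟨fun hpd => ?_, fun _ => h5 p hp hev⟩⟩
    · have k4 := (val_pos_iff hp hd0).1 hpd
      have k5 : (p : ℤ) ∣ c := (val_pos_iff hp hc0).2 (by omega)
      refine dvd_of_SS h5' (sub_SS hD hc' ?_)
      exact Nat.mem_primeFactors.2 ⟨hp, Int.natCast_dvd.1 k5, by simpa using hc0⟩
    · have k4 := (val_pos_iff hp hd0).1 hpd
      have := Nat.even_iff.1 hev
      omega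
  · intro hb'
    have k := hd2 hb'
    have b0 := bnd_nonneg hC (SS a b) |(d : ℝ)| (𝓛 := LL a b) (by rw [hL]; linarith)
    have c1 : 0 ≤ Real.log |(c : ℝ)| := Real.log_nonneg (by exact_mod_cast Int.one_le_abs hc0)
    set T := max ((A : ℝ) ^ 2) |(B : ℝ)| with hT
    have t1 : (A : ℝ) ^ 2 ≤ T := le_max_left _ _
    have t2 : |(B : ℝ)| ≤ T := le_max_right _ _
    have t3 : (1 : ℝ) ≤ T := le_trans (by exact_mod_cast Int.one_le_abs hB0) t2
    have hMT : M ≤ 9 * T ^ 3 := by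
      refine max_le ?_ ?_
      · calc |(a : ℝ)| ^ 3 ≤ (2 * T) ^ 3 := by gcongr; linarith
          _ ≤ 9 * T ^ 3 := by nlinarith [pow_pos (show 0 < T by linarith) 3]
      · have hb2 : (b : ℝ) = e * (e ^ 2 - a) := by
          have : b = e * (e ^ 2 - a) := by linarith
          exact_mod_cast this
        have u1 : |(e : ℝ) ^ 2 - a| ≤ 3 * T := by
          refine (abs_sub _ _).trans ?_
          rw [abs_of_nonneg (sq_nonneg (e : ℝ))]
          linarith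
        calc (b : ℝ) ^ 2 = e ^ 2 * |(e : ℝ) ^ 2 - a| ^ 2 := by rw [hb2, sq_abs]; ring
          _ ≤ T * (3 * T) ^ 2 := by gcongr; linarith
          _ = 9 * T ^ 3 := by ring
    have hl : Real.log M ≤ Real.log 9 + 3 * Real.log T := by
      calc Real.log M ≤ Real.log (9 * T ^ 3) := Real.log_le_log (by linarith) hMT
        _ = _ := by
          rw [Real.log_mul (by norm_num) (by positivity), Real.log_pow]
          norm_num
    have l9 : Real.log 9 ≤ 8 := by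
      have := Real.log_le_sub_one_of_pos (show (0 : ℝ) < 9 by norm_num)
      linarith
    rw [hL] at k b0 ⊢
    linarith
  · intro p hp _ hb'
    have k := hd3 p hp hb'
    have := Real.log_natCast_nonneg p
    linarith

lemma disc_eq {a b e : ℤ} (he : e ^ 3 - a * e - b = 0) : disc a b = (3 * e ^ 2 - a) ^ 2 * (4 * a - 3 * e ^ 2) := by
  have : b = e ^ 3 - a * e := by linarith
  subst this
  unfold disc
  ring

lemma val_sq_mul {p : ℕ} (hp : p.Prime) {x y : ℤ} (h : x ^ 2 * y ≠ 0) :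
    padicValInt p (x ^ 2 * y) = 2 * padicValInt p x + padicValInt p y := by
  have := Fact.mk hp
  have hx : x ≠ 0 := by
    rintro rfl
    simp at h
  have hy : y ≠ 0 := by
    rintro rfl
    simp at h
  rw [padicValInt.mul (pow_ne_zero 2 hx) hy, sq, padicValInt.mul hx hx]
  ring

lemma nonsq {C : ℝ} (hC : 1 ≤ C) (hQ : Quad C) {a b e : ℤ} (hD : disc a b ≠ 0) (hm : MinP a b)
    (he : e ^ 3 - a * e - b = 0) (hs : ¬IsSquare (4 * a - 3 * e ^ 2)) : Loc C a b := by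
  have hd := disc_eq he
  refine core hC hQ (A := 3 * e) (B := 3 * e ^ 2 - a) hD he (by ring) hs ?_ ?_ ?_ ?_ ?_ ?_ ?_ ?_
  · exact ⟨16 * (3 * e ^ 2 - a) * (4 * a - 3 * e ^ 2), by rw [hd]; ring⟩
  · exact ⟨16 * (3 * e ^ 2 - a) ^ 2, by rw [hd]; ring⟩
  · rintro p hp ⟨k1, k2⟩
    have k3 : (p : ℤ) ^ 3 ∣ e := dvd_six hp (by
      have := k1.mul_left 2
      rwa [show 2 * (3 * e) = 6 * e by ring] at this)
    have k4 : (p : ℤ) ^ 6 ∣ e ^ 2 := by
      have := pow_dvd_pow_of_dvd k3 2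
      rwa [← pow_mul] at this
    have k5 : (p : ℤ) ^ 6 ∣ a := by
      have k6 : (p : ℤ) ^ 6 ∣ 3 * e ^ 2 - a := (pow_dvd_pow _ (by norm_num)).trans k2
      have := (k4.mul_left 3).sub k6
      rwa [sub_sub_cancel] at this
    refine hm p hp ⟨(pow_dvd_pow _ (by norm_num)).trans k5, ?_⟩
    have : b = e * (e ^ 2 - a) := by linarith
    rw [this]
    exact (k4.sub k5).mul_left e
  · rw [abs_mul]
    have := abs_nonneg e
    norm_num
    linarith
  · refine (abs_sub _ _).trans ?_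
    rw [abs_mul, abs_mul, abs_of_nonneg (sq_nonneg e)]
    have := abs_nonneg a
    have := sq_nonneg e
    norm_num
    linarith
  · nlinarith [sq_nonneg e]
  · have h1 := le_abs_self (3 * e ^ 2 - a)
    have h2 := neg_abs_le (3 * e ^ 2 - a)
    have := sq_nonneg e
    rw [abs_le]
    constructor <;> nlinarith
  · intro p hp hev
    rw [hd, val_sq_mul hp (hd ▸ hD)]
    exact (even_two_mul _).add hev

lemma sq_case {C : ℝ} (hC : 1 ≤ C) (hQ : Quad C) {a b e s : ℤ} (hD : disc a b ≠ 0) (hm : MinP a b)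
    (he : e ^ 3 - a * e - b = 0) (hs : 4 * a - 3 * e ^ 2 = s ^ 2) (hneg : 3 * e ^ 2 - a < 0) : Loc C a b := by
  have hd := disc_eq he
  refine core hC hQ (A := -6 * e) (B := 4 * a - 3 * e ^ 2) (c := 16 * (3 * e ^ 2 - a)) hD he (by ring)
    ?_ ?_ ?_ ?_ ?_ ?_ ?_ ?_ ?_
  · rintro ⟨r, hr⟩
    nlinarith [mul_self_nonneg r]
  · exact ⟨16 * (3 * e ^ 2 - a) ^ 2, by rw [hd]; ring⟩
  · exact ⟨(3 * e ^ 2 - a) * (4 * a - 3 * e ^ 2), by rw [hd]; ring⟩
  · rintro p hp ⟨k1, k2⟩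
    have k3 : (p : ℤ) ^ 3 ∣ e := dvd_six hp (by
      have := k1.neg_right
      rwa [show -(-6 * e) = 6 * e by ring] at this)
    have k4 : (p : ℤ) ^ 6 ∣ e ^ 2 := by
      have := pow_dvd_pow_of_dvd k3 2
      rwa [← pow_mul] at this
    have k5 : (p : ℤ) ^ 4 ∣ a := by
      have k6 : (p : ℤ) ^ 6 ∣ 4 * a - 3 * e ^ 2 := (pow_dvd_pow _ (by norm_num)).trans k2
      have := k6.add (k4.mul_left 3)
      rw [sub_add_cancel] at this
      exact dvd_four hp this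
    refine hm p hp ⟨k5, ?_⟩
    have : b = e * (e ^ 2 - a) := by linarith
    rw [this]
    have k7 : (p : ℤ) ^ 4 ∣ e ^ 2 - a := ((pow_dvd_pow _ (by norm_num)).trans k4).sub k5
    have k8 := mul_dvd_mul k3 k7
    rw [← pow_add] at k8
    exact (pow_dvd_pow _ (by norm_num)).trans k8
  · rw [abs_mul]
    norm_num
  · rw [abs_of_neg (by linarith)]
    have := le_abs_self a
    have := sq_nonneg e
    linarith
  · nlinarith [sq_nonneg e]
  · have h1 := le_abs_self (4 * a - 3 * e ^ 2)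
    have := sq_nonneg e
    rw [abs_of_nonneg (show 0 ≤ a by linarith)]
    nlinarith
  · intro p hp _
    have h1 : disc a b = ((3 * e ^ 2 - a) * s) ^ 2 * 1 := by rw [hd, hs]; ring
    rw [h1, val_sq_mul hp (h1 ▸ hD)]
    simp

end Pool.Agent.Szpiro98.RED

namespace Pool.Agent.Szpiro98

open Pool.Agent.Lib.MP_cafdd5_nt

theorem red : RedStmt := by
  intro C hC hQ a b e hD hm he
  by_cases hs : IsSquare (4 * a - 3 * e ^ 2)
  swap
  · exact RED.nonsq hC hQ hD hm he hs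
  obtain ⟨s, hs⟩ := hs
  have hpar : Even (s - e) := by
    have h1 : Even ((s - e) * (s + e)) := ⟨2 * (a - e ^ 2), by linarith⟩
    rcases Int.even_mul.1 h1 with h | h
    · exact h
    · have : s - e = s + e - 2 * e := by ring
      rw [this]
      exact h.sub (even_two_mul e)
  obtain ⟨t, ht⟩ := hpar
  have hs' : s = 2 * t + e := by linarith
  subst hs'
  have ha : a = t ^ 2 + t * e + e ^ 2 := by nlinarith
  have hb : b = e ^ 3 - a * e := by linarith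
  have hd := RED.disc_eq he
  by_cases n1 : 3 * e ^ 2 - a < 0
  · exact RED.sq_case hC hQ hD hm he (s := 2 * t + e) (by rw [ha]; ring) n1
  by_cases n2 : 3 * t ^ 2 - a < 0
  · exact RED.sq_case hC hQ hD hm (e := t) (by rw [hb, ha]; ring) (s := 2 * e + t) (by rw [ha]; ring) n2
  refine RED.sq_case hC hQ hD hm (e := -e - t) (by rw [hb, ha]; ring) (s := t - e) (by rw [ha]; ring) ?_
  by_contra n3
  have hp : (3 * e ^ 2 - a) * (3 * t ^ 2 - a) * (3 * (-e - t) ^ 2 - a) = -disc a b := by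
    rw [hd, ha]; ring
  have h0 : 0 ≤ (3 * e ^ 2 - a) * (3 * t ^ 2 - a) * (3 * (-e - t) ^ 2 - a) :=
    mul_nonneg (mul_nonneg (not_lt.1 n1) (not_lt.1 n2)) (not_lt.1 n3)
  have h1 : 0 ≤ disc a b := by
    rw [hd, hs]
    exact mul_nonneg (sq_nonneg _) (mul_self_nonneg _)
  exact hD (by linarith)

end Pool.Agent.Szpiro98
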