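import Pool.Agent.Lib.Szpiro98.Blue

/-! Refinement of a family of units at an archimedean place. -/

namespace Pool.Agent.Szpiro98

open Finset Module NumberField IsDedekindDomain NormedSpace Pool.Agent.Lib.MP_cafdd5_nt

namespace REFI

lemma fibre {α : Type} (Γ : Finset α) (n : ℕ) (hn : 0 < n) (f : α → ℕ) (hf : ∀ x ∈ Γ, f x < n) :
    ∃ b, Γ.card ≤ n * (Γ.filter fun x => f x = b).card := by
  obtain ⟨b, -, hb⟩ := exists_max_image (range n) (fun b => (Γ.filter fun x => f x = b).card)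
    ⟨0, mem_range.2 hn⟩
  refine ⟨b, ?_⟩
  rw [card_eq_sum_card_fiberwise (f := f) (t := range n) fun x hx => mem_coe.2 (mem_range.2 (hf x hx))]
  calc _ ≤ (range n).card • (Γ.filter fun x => f x = b).card := sum_le_card_nsmul _ _ _ hb
    _ = _ := by rw [card_range, smul_eq_mul]

lemma floor_close {x y c : ℝ} (hc : 0 < c) (hx : 0 ≤ x) (hy : 0 ≤ y) (e : ⌊x / c⌋₊ = ⌊y / c⌋₊) :
    |x - y| ≤ c := by
  have h1 := Nat.floor_le (div_nonneg hx hc.le)
  have h2 := Nat.floor_le (div_nonneg hy hc.le)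
  have h3 := Nat.lt_floor_add_one (x / c)
  have h4 := Nat.lt_floor_add_one (y / c)
  rw [e] at h1 h3
  have h5 : |x / c - y / c| ≤ 1 := abs_le.2 ⟨by linarith, by linarith⟩
  rwa [← sub_div, abs_div, abs_of_pos hc, div_le_one hc] at h5

end REFI

open REFI in
theorem refi : RefIStmt := by
  intro K _ _ s he hψ hW hD J Γ hκ hΓ
  rcases Γ.eq_empty_or_nonempty with rfl | ⟨γ0, h0⟩
  · exact ⟨∅, fun _ => 0, by simp, by simp, by simp, by simp⟩
  set ω := om s.N with hω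
  have hω0 : 0 < ω := Real.exp_pos _
  have hω1 : ω ≤ 1 := Real.exp_le_one_iff.2 (neg_nonpos.2 (by positivity))
  have hN : (1 : ℝ) ≤ s.N := by
    have : 1 ≤ s.N := by rw [s.hN]; omega
    exact_mod_cast this
  set Q : ℝ := (s.q : ℝ) ^ J with hQ
  have hQ1 : 100 ≤ Q * ω := by
    rw [div_le_iff₀ (by positivity)] at hκ
    have : 0 ≤ Q * ω := mul_nonneg (by positivity) hω0.le
    nlinarith
  have hQ0 : 0 ≤ Q := by positivity
  set h : ℝ := s.N * Q with hh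
  have hQh : Q ≤ h := le_mul_of_one_le_left hQ0 hN
  have hc : 100 ≤ h * ω := hQ1.trans (mul_le_mul_of_nonneg_right hQh hω0.le)
  have hh0 : 0 < h := by
    by_contra hn
    have := mul_nonpos_of_nonpos_of_nonneg (not_lt.1 hn) hω0.le
    linarith
  have nz : ∀ γ ∈ Γ, γ ≠ 0 := fun γ hγ e => (hΓ γ hγ γ0 h0).1.1 (by rw [e, zero_div])
  set f := s.ι.comp s.σ with hf
  set g := s.ι.comp s.τ with hg
  let l : K → ℂ := fun γ => Complex.log (f (γ / γ0) / g (γ / γ0))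
  have hl1 : ∀ γ ∈ Γ, Complex.exp (l γ) = f (γ / γ0) / g (γ / γ0) := fun γ hγ =>
    Complex.exp_log (div_ne_zero ((map_ne_zero f).2 (hΓ γ hγ γ0 h0).1.1)
      ((map_ne_zero g).2 (hΓ γ hγ γ0 h0).1.1))
  have hl2 : ∀ γ ∈ Γ, |(l γ).re| ≤ 2 * h := by
    intro γ hγ
    have u0 := (hΓ γ hγ γ0 h0).1.1
    have a1 := (hΓ γ hγ γ0 h0).2.1.2 (InfinitePlace.mk f)
    have a2 := (hΓ γ hγ γ0 h0).2.1.2 (InfinitePlace.mk g)
    rw [InfinitePlace.apply] at a1 a2
    have e : (l γ).re = Real.log ‖f (γ / γ0)‖ - Real.log ‖g (γ / γ0)‖ := by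
      rw [Complex.log_re, norm_div, Real.log_div (norm_ne_zero_iff.2 ((map_ne_zero f).2 u0))
        (norm_ne_zero_iff.2 ((map_ne_zero g).2 u0))]
    rw [e]
    have := abs_sub (Real.log ‖f (γ / γ0)‖) (Real.log ‖g (γ / γ0)‖)
    linarith
  have hc0 : 0 < h * ω / 2 := by linarith
  obtain ⟨b, hb⟩ := fibre Γ (⌊8 / ω⌋₊ + 1) (Nat.succ_pos _)
    (fun γ => ⌊((l γ).re + 2 * h) / (h * ω / 2)⌋₊) fun γ hγ => by
      refine Nat.lt_succ_of_le (Nat.floor_le_floor ?_)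
      rw [div_le_div_iff₀ hc0 hω0]
      have := (abs_le.1 (hl2 γ hγ)).2
      nlinarith
  set Γ' := Γ.filter fun γ => ⌊((l γ).re + 2 * h) / (h * ω / 2)⌋₊ = b with hΓ'
  set K0 := ⌊h * ω / (4 * Real.pi)⌋₊ with hK0
  have hπ := Real.pi_pos
  have hπ4 := Real.pi_le_four
  have k1 : 4 * Real.pi * K0 ≤ h * ω := by
    have := Nat.floor_le (a := h * ω / (4 * Real.pi)) (by positivity)
    rw [le_div_iff₀ (by positivity)] at this
    linarith
  have k2 : h * ω ≤ 32 * K0 := by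
    have := Nat.lt_floor_add_one (h * ω / (4 * Real.pi))
    rw [div_lt_iff₀ (by positivity)] at this
    have h3 : (0 : ℝ) ≤ K0 := Nat.cast_nonneg _
    nlinarith
  let t : K × ℕ → ℂ := fun i => l i.1 + i.2 * (2 * Real.pi * Complex.I)
  have hm : ∀ i ∈ Γ' ×ˢ range K0, i.1 ∈ Γ ∧ ⌊((l i.1).re + 2 * h) / (h * ω / 2)⌋₊ = b ∧ i.2 < K0 :=
    fun i hi => ⟨(mem_filter.1 (mem_product.1 hi).1).1, (mem_filter.1 (mem_product.1 hi).1).2,
      mem_range.1 (mem_product.1 hi).2⟩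
  have hLg : ∀ i ∈ Γ' ×ˢ range K0, ∀ k ∈ Γ' ×ˢ range K0, s.Lg (i.1 / k.1) (t i - t k) := by
    intro i hi k hk
    have e : ∀ j ∈ Γ' ×ˢ range K0, Complex.exp (t j) = f (j.1 / γ0) / g (j.1 / γ0) := fun j hj => by
      rw [Complex.exp_add, Complex.exp_nat_mul_two_pi_mul_I, mul_one, hl1 _ (hm j hj).1]
    change exp (t i - t k) * g (i.1 / k.1) = f (i.1 / k.1)
    rw [← Complex.exp_eq_exp_ℂ, Complex.exp_sub, e i hi, e k hk]
    have n1 := (map_ne_zero f).2 (nz _ (hm k hk).1)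
    have n2 := (map_ne_zero g).2 (nz _ (hm k hk).1)
    have n3 := (map_ne_zero g).2 (nz _ (hm i hi).1)
    have n4 := (map_ne_zero f).2 (nz _ h0)
    have n5 := (map_ne_zero g).2 (nz _ h0)
    simp only [map_div₀]
    field_simp
  have him : ∀ i ∈ Γ' ×ˢ range K0, ∀ k ∈ Γ' ×ˢ range K0, |(t i - t k).im| ≤ h * ω / 2 := by
    intro i hi k hk
    have e : (t i - t k).im = (l i.1).im - (l k.1).im + 2 * Real.pi * ((i.2 : ℝ) - k.2) := by
      simp [t]; ring
    have a1 := Complex.neg_pi_lt_log_im (f (i.1 / γ0) / g (i.1 / γ0))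
    have a2 := Complex.log_im_le_pi (f (i.1 / γ0) / g (i.1 / γ0))
    have a3 := Complex.neg_pi_lt_log_im (f (k.1 / γ0) / g (k.1 / γ0))
    have a4 := Complex.log_im_le_pi (f (k.1 / γ0) / g (k.1 / γ0))
    have b1 : (i.2 : ℝ) + 1 ≤ K0 := by exact_mod_cast (hm i hi).2.2
    have b2 : (k.2 : ℝ) + 1 ≤ K0 := by exact_mod_cast (hm k hk).2.2
    have b3 : (0 : ℝ) ≤ i.2 := Nat.cast_nonneg _
    have b4 : (0 : ℝ) ≤ k.2 := Nat.cast_nonneg _
    rw [e]
    refine abs_le.2 ⟨?_, ?_⟩ <;> simp only [l] <;> nlinarith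
  have hre : ∀ i ∈ Γ' ×ˢ range K0, ∀ k ∈ Γ' ×ˢ range K0, |(t i - t k).re| ≤ h * ω / 2 := by
    intro i hi k hk
    have e : (t i - t k).re = ((l i.1).re + 2 * h) - ((l k.1).re + 2 * h) := by
      simp [t]
    rw [e]
    refine floor_close hc0 ?_ ?_ ((hm i hi).2.1.trans (hm k hk).2.1.symm)
    · linarith [(abs_le.1 (hl2 _ (hm i hi).1)).1]
    · linarith [(abs_le.1 (hl2 _ (hm k hk).1)).1]
  refine ⟨Γ' ×ˢ range K0, t, ?_, fun i hi k hk e => ?_, fun i hi => ⟨(hm i hi).1, ?_⟩,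
    fun i hi k hk => ⟨?_, hLg i hi k hk, ?_⟩⟩
  · rw [he, pow_one, card_product, card_range, Nat.cast_mul]
    have c1 : (Γ.card : ℝ) ≤ (9 / ω) * Γ'.card := by
      have c2 : (Γ.card : ℝ) ≤ ((⌊8 / ω⌋₊ : ℝ) + 1) * Γ'.card := by exact_mod_cast hb
      have c3 := Nat.floor_le (a := 8 / ω) (by positivity)
      have c4 : 1 ≤ 1 / ω := by rw [le_div_iff₀ hω0]; linarith
      have c5 : 9 / ω = 8 / ω + 1 / ω := by ring
      exact c2.trans (mul_le_mul_of_nonneg_right (by linarith) (Nat.cast_nonneg _))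
    have c2 : Q ≤ 32 * K0 / ω := by
      rw [le_div_iff₀ hω0]
      exact (mul_le_mul_of_nonneg_right hQh hω0.le).trans k2
    calc (Γ.card : ℝ) * (Q / 5) ≤ (9 / ω * Γ'.card) * (32 * K0 / ω / 5) :=
          mul_le_mul c1 (by linarith) (by positivity) (by positivity)
      _ = Γ'.card * K0 * ((288 / 5) / ω ^ 2) := by field_simp; ring
      _ ≤ _ := by gcongr; norm_num
  · have hi' := mem_coe.1 hi
    have hk' := mem_coe.1 hk
    have a1 := hLg i hi' k hk'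
    rw [e, sub_self] at a1
    unfold Setup.Lg at a1
    rw [exp_zero, one_mul] at a1
    have a2 : i.1 = k.1 := (hΓ _ (hm i hi').1 _ (hm k hk').1).2.2 (s.ι.injective a1).symm
    have a3 : (i.2 : ℂ) * (2 * Real.pi * Complex.I) = k.2 * (2 * Real.pi * Complex.I) := by
      have e' : l i.1 + i.2 * (2 * Real.pi * Complex.I) = l k.1 + k.2 * (2 * Real.pi * Complex.I) := e
      rw [a2] at e'
      exact add_left_cancel e'
    exact Prod.ext a2 (Nat.cast_injective (mul_right_cancel₀ Complex.two_pi_I_ne_zero a3))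
  · rw [hD]; exact AddSubgroup.mem_top _
  · rw [hψ]
    have := him i hi k hk
    have := mul_le_of_le_one_right hh0.le hω1
    linarith
  · rw [hW]
    have := Complex.norm_le_abs_re_add_abs_im (t i - t k)
    linarith [him i hi k hk, hre i hi k hk]

end Pool.Agent.Szpiro98
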