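import Pool.Agent.Lib.Szpiro98.Blue

/-! Block REFP: refinement of a family of units at a finite place. -/

namespace Pool.Agent.Szpiro98

open Finset Module NumberField IsDedekindDomain NormedSpace

theorem refp (h1 : AnpStmt) (h2 : ClsStmt) : RefPStmt := by
  classical
  intro p _ K _ _ s r he hψ hW hD hU ⟨hr, ρ, hρ, hrho⟩ J Γ hκ hΓ
  have ω0 : 0 < om s.N := Real.exp_pos _
  have ω1 : om s.N ≤ 1 / 16 := by
    have hN : (1 : ℝ) ≤ s.N := by exact_mod_cast (by rw [s.hN]; omega : 1 ≤ s.N)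
    rw [om, Real.exp_neg, ← one_div]
    refine one_div_le_one_div_of_le (by norm_num) ?_
    linarith [Real.add_one_le_exp (2000 * (s.N : ℝ))]
  rcases Γ.eq_empty_or_nonempty with rfl | ⟨γ0, h0⟩
  · exact ⟨∅, fun _ => 0, by simp, by simp, by simp, by simp⟩
  obtain ⟨n, cls, hn, hcls⟩ := h2 p ρ r hr hρ (om s.N / 2) (by linarith) (by linarith)
  have hγ0 : γ0 ≠ 0 := fun e => (hΓ γ0 h0 γ0 h0).1.1 (by simp [e])
  set x : K → ℂ_[p] := fun γ => s.ι (s.σ (γ / γ0)) with hx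
  set y : K → ℂ_[p] := fun γ => s.ι (s.τ (γ / γ0)) with hy
  have hx1 : ∀ γ ∈ Γ, ‖x γ‖ = 1 := fun γ h => (hU _ (hΓ γ h γ0 h0).1).1
  have hy1 : ∀ γ ∈ Γ, ‖y γ‖ = 1 := fun γ h => (hU _ (hΓ γ h γ0 h0).1).2
  have hx0 : ∀ γ ∈ Γ, x γ ≠ 0 := fun γ h => norm_pos_iff.1 (by rw [hx1 γ h]; exact one_pos)
  have hy0 : ∀ γ ∈ Γ, y γ ≠ 0 := fun γ h => norm_pos_iff.1 (by rw [hy1 γ h]; exact one_pos)
  obtain ⟨γ1, g1, hmax⟩ := exists_max_image Γ
    (fun γ => (Γ.filter fun γ' => cls (x γ', y γ') = cls (x γ, y γ)).card) ⟨γ0, h0⟩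
  set Γ' := Γ.filter fun γ' => cls (x γ', y γ') = cls (x γ1, y γ1) with hΓ'
  have hcard : Γ.card ≤ Γ'.card * n := by
    refine (card_le_mul_card_image (f := fun γ => cls (x γ, y γ)) Γ Γ'.card fun a ha => ?_).trans
      (Nat.mul_le_mul_left _ ((card_le_univ _).trans_eq (Fintype.card_fin n)))
    obtain ⟨γ, hγ, rfl⟩ := mem_image.1 ha
    exact hmax γ hγ
  have hlog : ∀ γ ∈ Γ', ∃ t : ℂ_[p], ‖t‖ ≤ om s.N ∧ exp t = x γ * y γ1 / (y γ * x γ1) := by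
    intro γ hγ
    obtain ⟨a, b⟩ := mem_filter.1 hγ
    refine exists_log (h1 p).1 ω1 ?_
    rw [div_sub_one (mul_ne_zero (hy0 γ a) (hx0 γ1 g1)), norm_div, norm_mul, hy1 γ a, hx1 γ1 g1,
      mul_one, div_one]
    exact hcls _ _ _ _ (hrho _) (hrho _) (hx1 γ a) (hy1 γ a) (hx1 γ1 g1) (hy1 γ1 g1) b
  choose! t ht1 ht2 using hlog
  have hLg : ∀ γ ∈ Γ', ∀ γ' ∈ Γ', s.Lg (γ / γ') (t γ - t γ') := by
    intro γ hγ γ' hγ'
    have a := (mem_filter.1 hγ).1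
    have a' := (mem_filter.1 hγ').1
    have e := s.an.add _ (s.le (hD _ (ult_sub (ht1 γ hγ) (ht1 γ' hγ')))) _ (s.le (hD _ (ht1 γ' hγ')))
    rw [sub_add_cancel, ht2 γ hγ, ht2 γ' hγ'] at e
    have e1 : γ / γ' = γ / γ0 / (γ' / γ0) := (div_div_div_cancel_right₀ hγ0 _ _).symm
    rw [Setup.Lg, e1, map_div₀ s.τ, map_div₀ s.σ, map_div₀ s.ι, map_div₀ s.ι]
    change _ * (y γ / y γ') = x γ / x γ'
    have := hx0 γ a
    have := hy0 γ a
    have := hx0 γ' a'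
    have := hy0 γ' a'
    have := hx0 γ1 g1
    have := hy0 γ1 g1
    field_simp at e ⊢
    linear_combination -e
  refine ⟨Γ' ×ˢ {0}, fun i => t i.1, ?_, ?_, ?_, ?_⟩
  · rw [he, pow_zero, mul_one, card_product, card_singleton, mul_one]
    refine le_trans (by exact_mod_cast hcard : (Γ.card : ℝ) ≤ Γ'.card * n) ?_
    gcongr
    rw [le_div_iff₀ (by positivity)]
    linarith
  · intro i hi k hk e
    rw [mem_coe, mem_product, mem_singleton] at hi hk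
    have e1 := hLg _ hi.1 _ hk.1
    rw [show t i.1 = t k.1 from e, sub_self, Setup.Lg, exp_zero, one_mul] at e1
    exact Prod.ext ((hΓ _ (mem_filter.1 hi.1).1 _ (mem_filter.1 hk.1).1).2.2
      (s.ι.injective e1).symm) (hi.2.trans hk.2.symm)
  · intro i hi
    have := (mem_product.1 hi).1
    exact ⟨(mem_filter.1 this).1, hD _ (ht1 _ this)⟩
  · intro i hi k hk
    have a := (mem_product.1 hi).1
    have b := (mem_product.1 hk).1
    refine ⟨?_, hLg _ a _ b, ?_⟩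
    · rw [hψ, AddMonoidHom.zero_apply, abs_zero]
      positivity
    · rw [hW]
      exact ult_sub (ht1 _ a) (ht1 _ b)

end Pool.Agent.Szpiro98
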