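import Pool.Agent.Lib.Szpiro98.Core
import Pool.Agent.Lib.Szpiro98.Fin
import Pool.Agent.Lib.Szpiro98.ANV
import Pool.Agent.Lib.Szpiro98.CLS
import Pool.Agent.Lib.Szpiro98.Cnt
import Pool.Agent.Lib.Szpiro98.Coord
import Pool.Agent.Lib.Szpiro98.DISC3
import Pool.Agent.Lib.Szpiro98.Fam
import Pool.Agent.Lib.Szpiro98.GLUE
import Pool.Agent.Lib.Szpiro98.Irr
import Pool.Agent.Lib.Szpiro98.LAT
import Pool.Agent.Lib.Szpiro98.LOCI
import Pool.Agent.Lib.Szpiro98.LocP
import Pool.Agent.Lib.Szpiro98.Mid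
import Pool.Agent.Lib.Szpiro98.Quad
import Pool.Agent.Lib.Szpiro98.RED
import Pool.Agent.Lib.Szpiro98.REFI
import Pool.Agent.Lib.Szpiro98.RefP
import Pool.Agent.Lib.Szpiro98.Sum
import Pool.Agent.Lib.Szpiro98.Sun

namespace Pool.Agent.Szpiro98

theorem mid' : MidStmt := mid (coord core lat) (fam cnt)

theorem locp' : LocPStmt := locp anp val sun mid' (refp anp cls)

theorem loci' : LocIStmt := loci sun mid' refi

end Pool.Agent.Szpiro98
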