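import Pool.Agent.Lib.Szpiro98.Blue5

/-! Block ABCA5: the numerical step for coprime integers. -/

namespace Pool.Agent.Szpiro98.V5

open Finset V4

namespace AbcA

lemma prod_le {S : Finset ℕ} {x y z : ℕ} (hS : ∀ q ∈ S, q.Prime) (hx : x = 1 ∨ x ∈ S) (hy : y = 1 ∨ y ∈ S)
    (hz : z = 1 ∨ z ∈ S) (h : x * y * z ∣ ∏ q ∈ S, q) :
    (∏ q ∈ S \ {x, y, z}, q) * (x * y * z) ≤ ∏ q ∈ S, q := by
  have co : ∀ t : ℕ, (t = 1 ∨ t ∈ S) → t ∈ ({x, y, z} : Finset ℕ) → (∏ q ∈ S \ {x, y, z}, q).Coprime t := by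
    rintro t (rfl | ht) h'
    · simp
    · refine Nat.Coprime.prod_left fun q hq => ?_
      obtain ⟨q1, q2⟩ := mem_sdiff.1 hq
      exact (Nat.coprime_primes (hS q q1) (hS t ht)).2 fun e => q2 (e ▸ h')
  exact Nat.le_of_dvd (prod_pos fun q hq => (hS q hq).pos)
    ((((co x hx (by simp)).mul_right (co y hy (by simp))).mul_right (co z hz (by simp))).mul_dvd_of_dvd_of_dvd
      (prod_dvd_prod_of_subset _ _ _ sdiff_subset) h)

lemma core {C δ K N M x s : ℝ} (C1 : 1 ≤ C) (δ0 : 0 < δ) (δ1 : δ ≤ 1) (K1 : 1 ≤ K) (M1 : 1 ≤ M) (x1 : 1 ≤ x)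
    (h : M * x ^ 3 ≤ N) (hs : s ≤ C * (K * M ^ 35 * x ^ (δ / 2)) / x ^ δ) :
    x * min 1 s ≤ C * K * N ^ (1 / 3 - δ / 1000) := by
  have x0 : 0 < x := by linarith
  have x3 : 1 ≤ x ^ 3 := one_le_pow₀ x1
  have N1 : 1 ≤ N := by nlinarith
  have N0 : 0 < N := by linarith
  have CK : 1 ≤ C * K := by nlinarith
  rcases le_total x (N ^ (1 / 3 - δ / 1000)) with k | k
  · calc x * min 1 s ≤ x * 1 := by gcongr; exact min_le_left _ _
      _ ≤ 1 * N ^ (1 / 3 - δ / 1000) := by linarith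
      _ ≤ _ := by gcongr
  have a1 : N ^ (1 - 3 * δ / 1000) ≤ x ^ 3 := by
    rw [show 1 - 3 * δ / 1000 = (1 / 3 - δ / 1000) * (3 : ℕ) by push_cast; ring, Real.rpow_mul_natCast N0.le]
    gcongr
  have a2 : M ≤ N ^ (3 * δ / 1000) := by
    have : M * N ^ (1 - 3 * δ / 1000) ≤ N ^ (3 * δ / 1000) * N ^ (1 - 3 * δ / 1000) := by
      rw [← Real.rpow_add N0, add_sub_cancel, Real.rpow_one]
      exact le_trans (by gcongr) h
    exact le_of_mul_le_mul_right this (by positivity)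
  have a3 : M ^ 35 ≤ N ^ (105 * δ / 1000) := by
    rw [show 105 * δ / 1000 = 3 * δ / 1000 * (35 : ℕ) by push_cast; ring, Real.rpow_mul_natCast N0.le]
    gcongr
  have a4 : x ^ (1 - δ / 2) ≤ N ^ ((1 - δ / 2) / 3) := by
    have : x ^ 3 ≤ N := by nlinarith
    calc x ^ (1 - δ / 2) = (x ^ 3) ^ ((1 - δ / 2) / 3) := by
          rw [← Real.rpow_natCast_mul x0.le]; congr 1; push_cast; ring
      _ ≤ _ := Real.rpow_le_rpow (by positivity) this (by linarith)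
  have a5 : x * x ^ (δ / 2) / x ^ δ = x ^ (1 - δ / 2) := by
    rw [show 1 - δ / 2 = 1 + δ / 2 - δ by ring, Real.rpow_sub x0, Real.rpow_add x0, Real.rpow_one]
  calc x * min 1 s ≤ x * (C * (K * M ^ 35 * x ^ (δ / 2)) / x ^ δ) := by
        gcongr; exact (min_le_right _ _).trans hs
    _ = C * K * (M ^ 35 * (x * x ^ (δ / 2) / x ^ δ)) := by ring
    _ ≤ C * K * (N ^ (105 * δ / 1000) * N ^ ((1 - δ / 2) / 3)) := by rw [a5]; gcongr
    _ ≤ _ := by
        rw [← Real.rpow_add N0]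
        gcongr
        linarith

end AbcA

theorem abcnum (h : SvStmt) : AbcNumStmt := by
  intro C δ hC δ0 δ1
  obtain ⟨K, K1, hK⟩ := h (δ / 2) (by positivity)
  obtain ⟨K2, K21, hK2⟩ := SumB.prod_le (C := C) (η := δ / 2000) (by linarith) (by positivity)
  refine ⟨δ / 2000, C * K2 * (C * K), by positivity, by linarith,
    one_le_mul_of_one_le_of_one_le (by nlinarith) (by nlinarith), ?_⟩
  have main : ∀ (S T : Finset ℕ) (x : ℕ) (𝓛 : ℝ), (∀ q ∈ S, q.Prime) → T.card ≤ 5 → 1 ≤ x →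
      (∏ q ∈ S \ T, q) * x ^ 3 ≤ ∏ q ∈ S, q → 3 ≤ 𝓛 → V4.bnd C δ S 1 x 𝓛 ≤
        C * K2 * (C * K) * ((∏ q ∈ S, q : ℕ) : ℝ) ^ (1 / 3 - δ / 2000) * Real.log 𝓛 ^ 3 := by
    intro S T x 𝓛 hS hT x1 hx h3
    have x1' : (1 : ℝ) ≤ x := by exact_mod_cast x1
    have M1 : (1 : ℝ) ≤ ((∏ q ∈ S \ T, q : ℕ) : ℝ) := by
      exact_mod_cast prod_pos fun q hq => (hS q (mem_sdiff.1 hq).1).pos
    have N0 : (0 : ℝ) < ((∏ q ∈ S, q : ℕ) : ℝ) := by exact_mod_cast prod_pos fun q hq => (hS q hq).pos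
    have a := AbcA.core (N := ((∏ q ∈ S, q : ℕ) : ℝ)) (s := sv C δ S 1 x) (by linarith : 1 ≤ C) δ0 δ1 K1 M1
      x1' (by exact_mod_cast hx) (by
        rw [sv, one_pow, mul_one]
        gcongr
        exact hK S T x hS hT x1')
    have b := hK2 S fun q hq => (hS q hq).one_le
    have c : 0 ≤ Real.log 𝓛 := Real.log_nonneg (by linarith)
    have d : 0 ≤ (x : ℝ) * min 1 (sv C δ S 1 x) :=
      mul_nonneg (by linarith) (le_min zero_le_one (sv_nonneg (by linarith) δ S 1 x1'))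
    simp only [V4.bnd, Szpiro98.bnd, Real.sqrt_one, Real.log_one, add_zero, one_pow, mul_one]
    calc _ ≤ C * (K2 * ((∏ q ∈ S, q : ℕ) : ℝ) ^ (δ / 2000)) *
          (C * K * ((∏ q ∈ S, q : ℕ) : ℝ) ^ (1 / 3 - δ / 1000)) * Real.log 𝓛 ^ 3 := by gcongr
      _ = _ := by
          rw [show 1 / 3 - δ / 2000 = δ / 2000 + (1 / 3 - δ / 1000) by ring, Real.rpow_add N0]; ring
  intro S x y z 𝓛 hS hx hy hz hd h3
  have p := AbcA.prod_le hS hx hy hz hd
  have one : ∀ t : ℕ, (t = 1 ∨ t ∈ S) → 1 ≤ t := by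
    rintro t (rfl | ht)
    · rfl
    · exact (hS t ht).one_le
  have cd : ({x, y, z} : Finset ℕ).card ≤ 5 := card_le_three.trans (by norm_num)
  have fin : ∀ t : ℕ, (t = 1 ∨ t ∈ S) → t ≤ x → t ≤ y → t ≤ z → V4.bnd C δ S 1 t 𝓛 ≤ _ := fun t ht a b c =>
    main S {x, y, z} t 𝓛 hS cd (one t ht) (le_trans (Nat.mul_le_mul_left _ (by
      rw [pow_succ, pow_two]; gcongr)) p) h3
  rcases le_total x y with a | a <;> rcases le_total y z with b | b <;> rcases le_total x z with c | c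
  all_goals first
    | exact (min_le_left _ _).trans (fin x hx le_rfl (by omega) (by omega))
    | exact ((min_le_right _ _).trans (min_le_left _ _)).trans (fin y hy (by omega) le_rfl (by omega))
    | exact ((min_le_right _ _).trans (min_le_right _ _)).trans (fin z hz (by omega) (by omega) le_rfl)

end Pool.Agent.Szpiro98.V5
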