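import Pool.Agent.Lib.Szpiro98.Blue5

/-! Block ABCB5: from the local bounds to the inequality for coprime integers. -/

namespace Pool.Agent.Szpiro98.V5

open Finset Pool.Agent.Lib.MP_cafdd5_nt V4

namespace AbcB

lemma norm_int (p : ℕ) [Fact p.Prime] {x : ℤ} (hx : x ≠ 0) :
    Real.log ‖(x : ℚ_[p])‖ = -(padicValInt p x * Real.log p) := by
  rw [Padic.norm_eq_zpow_neg_valuation (by exact_mod_cast hx), Padic.valuation_intCast, Real.log_zpow]
  push_cast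
  ring

lemma key {bd : Bd} (h : LocQ bd) {u w : ℤ} {S : Finset ℕ} {𝓛 : ℝ} (u0 : u ≠ 0) (w0 : w ≠ 0) (ne : u ≠ w)
    (co : IsCoprime u w) (hS : ∀ q ∈ S, q.Prime) (h1 : (u * w).natAbs.primeFactors ⊆ S)
    (h2 : (u - w).natAbs.primeFactors ⊆ S) (h3 : 3 ≤ 𝓛) (hu : |(u : ℝ)| ≤ Real.exp 𝓛)
    (hw : |(w : ℝ)| ≤ Real.exp 𝓛) (h0 : 0 ≤ bd S 1 1 𝓛) (hL : 𝓛 ≤ 5 + Real.log (max |(u : ℝ)| |(w : ℝ)|)) :
    ∃ κ : ℕ, (κ = 1 ∨ κ ∈ (u - w).natAbs.primeFactors) ∧ 𝓛 ≤ 5 + (S.card + 1) * bd S 1 κ 𝓛 := by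
  obtain ⟨κ, hκ, hm⟩ := exists_max_image (insert 1 (u - w).natAbs.primeFactors)
    (fun κ : ℕ => bd S 1 κ 𝓛) (insert_nonempty _ _)
  refine ⟨κ, mem_insert.1 hκ, ?_⟩
  obtain ⟨U, hU⟩ : ∃ U, U = bd S 1 κ 𝓛 := ⟨_, rfl⟩
  rw [← hU] at hm ⊢
  have m1 : bd S 1 1 𝓛 ≤ U := by simpa using hm 1 (mem_insert_self _ _)
  have U0 : 0 ≤ U := h0.trans m1
  have c0 : (0 : ℝ) ≤ S.card := Nat.cast_nonneg _
  by_cases hLU : 𝓛 ≤ U
  · nlinarith
  push Not at hLU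
  have x0 : u - w ≠ 0 := sub_ne_zero.2 ne
  obtain ⟨a1, a2⟩ := h u w S 𝓛 u0 w0 ne hS h1 h3 hu hw
  obtain ⟨a3, -⟩ := h w u S 𝓛 w0 u0 ne.symm hS (by rwa [mul_comm]) h3 hw hu
  replace a1 := a1 (m1.trans_lt hLU)
  replace a3 := a3 (m1.trans_lt hLU)
  rw [abs_sub_comm] at a3
  have w1 : (0 : ℝ) < |(w : ℝ)| := abs_pos.2 (by exact_mod_cast w0)
  have b1 : Real.exp (-bd S 1 1 𝓛) * max |(u : ℝ)| |(w : ℝ)| ≤ |((u - w : ℤ) : ℝ)| := by
    rw [mul_max_of_nonneg _ _ (Real.exp_pos _).le]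
    push_cast
    exact max_le a3 a1
  have m0 : 0 < max |(u : ℝ)| |(w : ℝ)| := w1.trans_le (le_max_right _ _)
  have b2 := Real.log_le_log (by positivity) b1
  rw [Real.log_mul (Real.exp_pos _).ne' m0.ne', Real.log_exp] at b2
  have c2 : ∀ p ∈ (u - w).natAbs.primeFactors, (padicValInt p (u - w) : ℝ) * Real.log p ≤ U := by
    intro p hp
    have hpp := Nat.prime_of_mem_primeFactors hp
    have : Fact p.Prime := ⟨hpp⟩
    have m2 : bd S 1 p 𝓛 ≤ U := hm p (mem_insert_of_mem hp)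
    have d1 : (p : ℤ) ∣ u - w := Int.natCast_dvd.2 (Nat.dvd_of_mem_primeFactors hp)
    have d2 : ¬(p : ℤ) ∣ w := fun d => by
      have d3 : (p : ℤ) ∣ u := by simpa using dvd_add d1 d
      exact (Nat.prime_iff_prime_int.1 hpp).not_isUnit (co.isUnit_of_dvd' d3 d)
    have n1 : ‖(w : ℚ_[p])‖ = 1 :=
      le_antisymm (Padic.norm_int_le_one w) (not_lt.1 fun h => d2 (Padic.norm_intCast_lt_one_iff.1 h))
    have e1 := a2 p (m2.trans_lt hLU)
    rw [n1, mul_one, ← Int.cast_sub] at e1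
    have e2 := Real.log_le_log (Real.exp_pos _) e1
    rw [Real.log_exp, norm_int p x0] at e2
    linarith
  have c3 : Real.log |((u - w : ℤ) : ℝ)| ≤ S.card * U := by
    rw [GLUE.log_abs_eq]
    calc _ ≤ ((u - w).natAbs.primeFactors.card : ℝ) * U := by
          have := Finset.sum_le_card_nsmul _ _ _ c2
          rwa [nsmul_eq_mul] at this
      _ ≤ _ := mul_le_mul_of_nonneg_right (by exact_mod_cast Finset.card_le_card h2) U0
  linarith

lemma final {L N a θ C : ℝ} (hL : 1 ≤ L) (hN : 1 ≤ N) (a1 : a ≤ 1) (θ0 : 0 < θ) (hC : 1 ≤ C)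
    (h : L ≤ C * (1 + Real.log N) * N ^ a * Real.log L ^ 3) :
    L ≤ C * (2 * Real.log (216 * C) + 4) ^ 3 * (1 + 4 / θ) ^ 4 * N ^ (a + θ) := by
  have h0 := Real.log_nonneg hN
  have N0 : 0 < N := by linarith
  have hK : 0 ≤ Real.log (216 * C) := Real.log_nonneg (by linarith)
  have h3 := V2.NumB.boot hL h (by positivity)
  have h4 : Real.log (216 * (C * (1 + Real.log N) * N ^ a)) ≤
      Real.log (216 * C) + 2 * Real.log N := by
    rw [← mul_assoc, ← mul_assoc, Real.log_mul (by positivity) (by positivity),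
      Real.log_mul (by positivity) (by positivity), Real.log_rpow N0]
    have := Real.log_le_sub_one_of_pos (by positivity : 0 < 1 + Real.log N)
    have := mul_le_mul_of_nonneg_right a1 h0
    linarith
  have h5 : Real.log L ≤ (2 * Real.log (216 * C) + 4) * (1 + Real.log N) := by nlinarith
  have h6 := pow_le_pow_left₀ (Real.log_nonneg hL) h5 3
  have h7 := SumB.one_add_log_le hN θ0
  calc L ≤ _ := h
    _ ≤ C * (1 + Real.log N) * N ^ a *
        ((2 * Real.log (216 * C) + 4) * (1 + Real.log N)) ^ 3 :=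
      mul_le_mul_of_nonneg_left h6 (by positivity)
    _ = C * (2 * Real.log (216 * C) + 4) ^ 3 * N ^ a * (1 + Real.log N) ^ 4 := by ring
    _ ≤ C * (2 * Real.log (216 * C) + 4) ^ 3 * N ^ a * ((1 + 4 / θ) ^ 4 * N ^ θ) :=
      mul_le_mul_of_nonneg_left h7 (by positivity)
    _ = _ := by rw [Real.rpow_add N0]; ring

lemma card_le {S : Finset ℕ} (hS : ∀ q ∈ S, q.Prime) :
    (S.card : ℝ) + 1 ≤ 2 * (1 + Real.log ((∏ q ∈ S, q : ℕ) : ℝ)) := by
  have h1 : 2 ^ S.card ≤ ∏ q ∈ S, q := Finset.pow_card_le_prod _ _ _ fun q hq => (hS q hq).two_le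
  have h2 : Real.log ((2 : ℝ) ^ S.card) ≤ Real.log ((∏ q ∈ S, q : ℕ) : ℝ) :=
    Real.log_le_log (by positivity) (by exact_mod_cast h1)
  rw [Real.log_pow] at h2
  have h4 := Real.log_two_gt_d9
  have h6 : (0 : ℝ) ≤ S.card := Nat.cast_nonneg _
  nlinarith

lemma sub {x n : ℤ} (n0 : n ≠ 0) (h : x ∣ n) : x.natAbs.primeFactors ⊆ n.natAbs.primeFactors :=
  Nat.primeFactors_mono (Int.natAbs_dvd_natAbs.2 h) (Int.natAbs_ne_zero.2 n0)

lemma dvd1 {κ : ℕ} {x : ℤ} (h : κ = 1 ∨ κ ∈ x.natAbs.primeFactors) : κ ∣ x.natAbs := by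
  rcases h with rfl | h
  · exact one_dvd _
  · exact Nat.dvd_of_mem_primeFactors h

lemma dvd2 {κ : ℕ} {S : Finset ℕ} (h : κ = 1 ∨ κ ∈ S) : κ ∣ ∏ q ∈ S, q := by
  rcases h with rfl | h
  · exact one_dvd _
  · exact Finset.dvd_prod_of_mem (fun q : ℕ => q) h

lemma cop {κ κ' : ℕ} {x y : ℤ} (co : IsCoprime x y) (h : κ ∣ x.natAbs) (h' : κ' ∣ y.natAbs) :
    Nat.Coprime κ κ' :=
  Nat.Coprime.coprime_dvd_left h (Nat.Coprime.coprime_dvd_right h' (Int.isCoprime_iff_gcd_eq_one.1 co))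

lemma logmax {M u w : ℝ} (M1 : 1 ≤ M) (h : M ≤ |u| + |w|) : Real.log M + 4 ≤ 5 + Real.log (max |u| |w|) := by
  have h1 : M ≤ 2 * max |u| |w| := by linarith [le_max_left |u| |w|, le_max_right |u| |w|]
  have h2 := Real.log_le_log (by linarith) h1
  rw [Real.log_mul (by norm_num) (by linarith)] at h2
  linarith [Real.log_two_lt_d9]

end AbcB

open AbcB in
theorem abc (h : AbcNumStmt) : AbcStmt := by
  intro C δ hC δ0 δ1 lq
  obtain ⟨η, K, η0, η1, K1, g⟩ := h C δ hC δ0 δ1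
  refine ⟨η / 2, (5 + 2 * K) * (2 * Real.log (216 * (5 + 2 * K)) + 4) ^ 3 * (1 + 4 / (η / 2)) ^ 4,
    half_pos η0, by linarith, fun A B A0 B0 C0 co => ?_⟩
  obtain ⟨S, hS'⟩ : ∃ S, S = (A * B * (A + B)).natAbs.primeFactors := ⟨_, rfl⟩
  have n0 : A * B * (A + B) ≠ 0 := mul_ne_zero (mul_ne_zero A0 B0) C0
  have hs : ∀ x : ℤ, x ∣ A * B * (A + B) → x.natAbs.primeFactors ⊆ S := fun x hx => hS' ▸ sub n0 hx
  have hS : ∀ q ∈ S, q.Prime := fun q hq => Nat.prime_of_mem_primeFactors (hS' ▸ hq)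
  rw [← hS']
  obtain ⟨M, hM⟩ : ∃ M : ℝ, M = max |(A : ℝ)| |(B : ℝ)| := ⟨_, rfl⟩
  rw [← hM]
  have mA : |(A : ℝ)| ≤ M := hM ▸ le_max_left _ _
  have mB : |(B : ℝ)| ≤ M := hM ▸ le_max_right _ _
  have M1 : 1 ≤ M := le_trans (by exact_mod_cast Int.one_le_abs A0) mA
  have l0 := Real.log_nonneg M1
  obtain ⟨L, hL⟩ : ∃ L : ℝ, L = Real.log M + 4 := ⟨_, rfl⟩
  have L4 : 4 ≤ L := by linarith
  have eL : 2 * M ≤ Real.exp L := by
    rw [hL, Real.exp_add, Real.exp_log (by linarith)]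
    nlinarith [Real.add_one_le_exp 4]
  have eA : |(A : ℝ)| ≤ Real.exp L := by linarith
  have eB : |(B : ℝ)| ≤ Real.exp L := by linarith
  have eC : |((A + B : ℤ) : ℝ)| ≤ Real.exp L := by
    push_cast
    linarith [abs_add_le (A : ℝ) B]
  have b0 : 0 ≤ V4.bnd C δ S 1 1 L := bnd_one_nonneg (by linarith) δ S 1 (by linarith)
  have tA : |(A : ℝ)| ≤ |((A + B : ℤ) : ℝ)| + |(B : ℝ)| := by
    push_cast
    simpa using abs_sub ((A : ℝ) + B) B
  have tB : |(B : ℝ)| ≤ |((A + B : ℤ) : ℝ)| + |(A : ℝ)| := by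
    push_cast
    simpa using abs_sub ((A : ℝ) + B) A
  have pA := abs_nonneg (A : ℝ)
  have pB := abs_nonneg (B : ℝ)
  have pC := abs_nonneg ((A + B : ℤ) : ℝ)
  have c1 : IsCoprime (A + B) B := by simpa using co.add_mul_left_left 1
  have c2 : IsCoprime (A + B) A := by simpa [add_comm] using co.symm.add_mul_left_left 1
  obtain ⟨x, x1, x2⟩ := key lq (u := A) (w := -B) (S := S) (𝓛 := L) A0 (neg_ne_zero.2 B0)
    (fun e => C0 (by rw [e]; ring)) co.neg_right hS (hs _ ⟨-(A + B), by ring⟩) (hs _ ⟨A * B, by ring⟩)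
    (by linarith) eA (by simpa using eB) b0 (hL ▸ logmax M1 (by
      rw [Int.cast_neg, abs_neg, hM]; exact max_le (by linarith) (by linarith)))
  obtain ⟨y, y1, y2⟩ := key lq (u := A + B) (w := B) (S := S) (𝓛 := L) C0 B0
    (fun e => A0 (by linarith)) c1 hS (hs _ ⟨A, by ring⟩) (hs _ ⟨B * (A + B), by ring⟩)
    (by linarith) eC eB b0 (hL ▸ logmax M1 (by rw [hM]; exact max_le tA (by linarith)))
  obtain ⟨z, z1, z2⟩ := key lq (u := A + B) (w := A) (S := S) (𝓛 := L) C0 A0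
    (fun e => B0 (by linarith)) c2 hS (hs _ ⟨B, by ring⟩) (hs _ ⟨A * (A + B), by ring⟩)
    (by linarith) eC eA b0 (hL ▸ logmax M1 (by rw [hM]; exact max_le (by linarith) tB))
  rw [sub_neg_eq_add] at x1
  rw [add_sub_cancel_right] at y1
  rw [add_sub_cancel_left] at z1
  have x3 : x = 1 ∨ x ∈ S := x1.imp id fun h => hs _ ⟨A * B, by ring⟩ h
  have y3 : y = 1 ∨ y ∈ S := y1.imp id fun h => hs _ ⟨B * (A + B), by ring⟩ h
  have z3 : z = 1 ∨ z ∈ S := z1.imp id fun h => hs _ ⟨A * (A + B), by ring⟩ h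
  have d : x * y * z ∣ ∏ q ∈ S, q :=
    Nat.Coprime.mul_dvd_of_dvd_of_dvd
      (Nat.Coprime.mul_left (cop c1 (dvd1 x1) (dvd1 z1)) (cop co (dvd1 y1) (dvd1 z1)))
      (Nat.Coprime.mul_dvd_of_dvd_of_dvd (cop c2 (dvd1 x1) (dvd1 y1)) (dvd2 x3) (dvd2 y3)) (dvd2 z3)
  have g1 := g S x y z L hS x3 y3 z3 d (by linarith)
  have hc := card_le hS
  have N1 : (1 : ℝ) ≤ ((∏ q ∈ S, q : ℕ) : ℝ) := by
    exact_mod_cast Finset.prod_pos fun q hq => (hS q hq).pos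
  obtain ⟨N, hN⟩ : ∃ N : ℝ, N = ((∏ q ∈ S, q : ℕ) : ℝ) := ⟨_, rfl⟩
  rw [← hN] at g1 hc N1 ⊢
  have c0 : (0 : ℝ) ≤ S.card + 1 := by positivity
  have lN := Real.log_nonneg N1
  have l3 : 1 ≤ Real.log L ^ 3 := one_le_pow₀ (by
    rw [Real.le_log_iff_exp_le (by linarith)]; linarith [Real.exp_one_lt_d9])
  have E1 : 1 ≤ N ^ (1 / 3 - η) := Real.one_le_rpow N1 (by linarith)
  obtain ⟨V, hV⟩ : ∃ V, V = N ^ (1 / 3 - η) * Real.log L ^ 3 := ⟨_, rfl⟩
  have V1 : 1 ≤ V := hV ▸ one_le_mul_of_one_le_of_one_le E1 l3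
  rw [mul_assoc, ← hV] at g1
  have k1 : L ≤ 5 + (S.card + 1) * (K * V) := by
    rcases min_le_iff.1 g1 with h | h
    · linarith [mul_le_mul_of_nonneg_left h c0]
    · rcases min_le_iff.1 h with h | h
      · linarith [mul_le_mul_of_nonneg_left h c0]
      · linarith [mul_le_mul_of_nonneg_left h c0]
  have k2 : L ≤ (5 + 2 * K) * (1 + Real.log N) * N ^ (1 / 3 - η) * Real.log L ^ 3 := by
    rw [mul_assoc, ← hV]
    have t1 := mul_le_mul_of_nonneg_right hc (show 0 ≤ K * V by positivity)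
    have t2 : 1 ≤ (1 + Real.log N) * V := one_le_mul_of_one_le_of_one_le (by linarith) V1
    have t3 : (5 + 2 * K) * (1 + Real.log N) * V =
        5 * ((1 + Real.log N) * V) + 2 * (1 + Real.log N) * (K * V) := by ring
    rw [t3]
    exact k1.trans (add_le_add (by linarith only [t2]) t1)
  have k3 := final (by linarith) N1 (by linarith) (half_pos η0) (by linarith) k2
  rw [show 1 / 3 - η + η / 2 = 1 / 3 - η / 2 by ring] at k3
  linarith

end Pool.Agent.Szpiro98.V5
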