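import Pool.Agent.Lib.Szpiro98.Anal

/-! Houses of algebraic integers, Liouville's inequality, Siegel's lemma and Kummer theory. -/

namespace Pool.Agent.Szpiro98

open Finset Module

abbrev Qb := AlgebraicClosure ℚ

instance : Algebra.IsAlgebraic ℚ Qb := AlgebraicClosure.isAlgebraic ℚ

instance (L : IntermediateField ℚ Qb) : Algebra.IsAlgebraic L Qb := Algebra.IsAlgebraic.tower_top (K := ℚ) L

/-- `θ` is an algebraic integer all of whose conjugates have absolute value at most `M`. -/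
def Hs (θ : Qb) (M : ℝ) : Prop := IsIntegral ℤ θ ∧ ∀ σ : Qb →+* ℂ, ‖σ θ‖ ≤ M

noncomputable def emb : Qb →+* ℂ := (IsAlgClosed.lift : Qb →ₐ[ℚ] ℂ).toRingHom

namespace Hs
variable {x y : Qb} {M N : ℝ}

lemma nonneg (h : Hs x M) : 0 ≤ M := (norm_nonneg _).trans (h.2 emb)

lemma mono (h : Hs x M) (e : M ≤ N) : Hs x N := ⟨h.1, fun σ => (h.2 σ).trans e⟩

lemma mul (h : Hs x M) (k : Hs y N) : Hs (x * y) (M * N) :=
  ⟨h.1.mul k.1, fun σ => by rw [map_mul, norm_mul]; exact mul_le_mul (h.2 σ) (k.2 σ) (norm_nonneg _) h.nonneg⟩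

lemma sub (h : Hs x M) (k : Hs y N) : Hs (x - y) (M + N) :=
  ⟨h.1.sub k.1, fun σ => by rw [map_sub]; exact (norm_sub_le _ _).trans (add_le_add (h.2 σ) (k.2 σ))⟩

lemma pow (h : Hs x M) (n : ℕ) : Hs (x ^ n) (M ^ n) :=
  ⟨h.1.pow n, fun σ => by rw [map_pow, norm_pow]; exact pow_le_pow_left₀ (norm_nonneg _) (h.2 σ) n⟩

lemma int (n : ℤ) : Hs n |(n : ℝ)| := ⟨isIntegral_intCast n, fun σ => by simp⟩

lemma sum {ι : Type} (I : Finset ι) {f : ι → Qb} {g : ι → ℝ} (h : ∀ i ∈ I, Hs (f i) (g i)) :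
    Hs (∑ i ∈ I, f i) (∑ i ∈ I, g i) :=
  ⟨IsIntegral.sum _ fun i hi => (h i hi).1, fun σ => by
    rw [map_sum]; exact (norm_sum_le _ _).trans (sum_le_sum fun i hi => (h i hi).2 σ)⟩

lemma root {q : ℕ} (hq : 0 < q) (h0 : 0 ≤ M) (h : Hs (x ^ q) (M ^ q)) : Hs x M :=
  ⟨h.1.of_pow hq, fun σ => le_of_pow_le_pow_left₀ hq.ne' h0 (by simpa using h.2 σ)⟩

lemma map (h : Hs x M) (φ : Qb →+* Qb) : Hs (φ x) M :=
  ⟨h.1.map φ.toIntAlgHom, fun σ => h.2 (σ.comp φ)⟩

end Hs

lemma exists_ext {E : Type} [Field E] [IsAlgClosed E] [Algebra ℚ E] (L : IntermediateField ℚ Qb)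
    (σ : L →ₐ[ℚ] E) : ∃ φ : Qb →+* E, ∀ x : L, φ x = σ x := by
  obtain ⟨φ, h⟩ := IsAlgClosed.surjective_domRestrict_of_isAlgebraic (K := ℚ) (L := L) (M := E) (E := Qb) σ
  exact ⟨φ.toRingHom, fun x => by rw [← h]; rfl⟩

lemma norm_int {L : Type} [Field L] [Algebra ℚ L] {x : L} (h : IsIntegral ℤ x) :
    ∃ n : ℤ, Algebra.norm ℚ x = n := by
  obtain ⟨n, hn⟩ := IsIntegrallyClosed.isIntegral_iff.1 (Algebra.isIntegral_norm ℚ h)
  exact ⟨n, hn.symm⟩

lemma integral_sub {L : IntermediateField ℚ Qb} {x : L} (h : IsIntegral ℤ (x : Qb)) : IsIntegral ℤ x :=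
  (isIntegral_algHom_iff (L.val.restrictScalars ℤ) Subtype.val_injective).1 h

lemma liou {F : Type} [NormedField F] (ι : Qb →+* F) (hι : ∀ θ M, 1 ≤ M → Hs θ M → ‖ι θ‖ ≤ M)
    (hi : ∀ n : ℤ, n ≠ 0 → 1 ≤ |(n : ℝ)| * ‖(n : F)‖) {θ : Qb} {M : ℝ} (h0 : θ ≠ 0) (h : Hs θ M)
    (M1 : 1 ≤ M) {k d : ℕ} (k0 : 0 < k) {L : IntermediateField ℚ Qb} [FiniteDimensional ℚ L]
    (hL : θ ^ k ∈ L) (hd : finrank ℚ L ≤ d) : 1 ≤ M ^ (2 * d) * ‖ι θ‖ := by
  classical
  set x : L := ⟨θ ^ k, hL⟩ with hx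
  obtain ⟨n, hn⟩ := norm_int (x := x) (integral_sub (h.pow k).1)
  have n0 : n ≠ 0 := by
    rintro rfl
    exact pow_ne_zero k h0 (congrArg Subtype.val (Algebra.norm_eq_zero_iff.1 (hn.trans Int.cast_zero)))
  have e := Algebra.norm_eq_prod_embeddings ℚ Qb x
  rw [hn, map_intCast] at e
  have c : ∀ σ : L →ₐ[ℚ] Qb, Hs (σ x) (M ^ k) := fun σ => by
    obtain ⟨φ, hφ⟩ := exists_ext L σ
    rw [← hφ]; exact (h.pow k).map φ
  have k1 : 1 ≤ M ^ k := one_le_pow₀ M1
  have cd := AlgHom.card ℚ L Qb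
  have a : |(n : ℝ)| ≤ (M ^ k) ^ d := by
    rw [← Complex.norm_intCast, ← map_intCast emb, e, map_prod, norm_prod]
    refine (prod_le_prod (fun _ _ => norm_nonneg _) fun σ _ => (c σ).2 emb).trans ?_
    rw [prod_const, card_univ, cd]; exact pow_le_pow_right₀ k1 hd
  have b : ‖(n : F)‖ ≤ ‖ι θ‖ ^ k * (M ^ k) ^ d := by
    rw [← map_intCast ι, e, map_prod, norm_prod, ← norm_pow, ← map_pow]
    refine (mul_prod_erase _ _ (mem_univ L.val)).symm.trans_le ?_
    refine mul_le_mul_of_nonneg_left ((prod_le_prod (fun _ _ => norm_nonneg _)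
      fun σ _ => hι _ _ k1 (c σ)).trans ?_) (norm_nonneg _)
    rw [prod_const]; exact pow_le_pow_right₀ k1 ((card_le_univ _).trans (cd.trans_le hd))
  refine (one_le_pow_iff_of_nonneg (by positivity) k0.ne').1 ((hi n n0).trans
    ((mul_le_mul a b (norm_nonneg _) (by positivity)).trans_eq (by ring)))

lemma norm_le_of_ultra {F : Type} [NormedField F] [IsUltrametricDist F] {x : F} (h : IsIntegral ℤ x) :
    ‖x‖ ≤ 1 :=
  (Valuation.integer.integers (NormedField.valuation (K := F))).mem_of_integral h.tower_top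

lemma siegel {E I : Type} [Fintype E] [Fintype I] [Nonempty I] (L : IntermediateField ℚ Qb)
    [FiniteDimensional ℚ L] {d : ℕ} (hd : finrank ℚ L ≤ d) (a : E → I → Qb) (ha : ∀ e i, a e i ∈ L) {A : ℝ}
    (A1 : 1 ≤ A) (hA : ∀ e i, Hs (a e i) A) (hc : 4 * d * Fintype.card E ≤ Fintype.card I) :
    ∃ p : I → ℤ, p ≠ 0 ∧ (∀ i, |(p i : ℝ)| ≤ 8 * Fintype.card I * A) ∧ ∀ e, ∑ i, p i * a e i = 0 := by
  classical
  have c1 : (1 : ℝ) ≤ Fintype.card I := by exact_mod_cast Fintype.card_pos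
  have c2 : (1 : ℝ) ≤ Fintype.card I * A := one_le_mul_of_one_le_of_one_le c1 A1
  set Y := ⌈7 * (Fintype.card I * A)⌉₊ with hY
  have y1 := Nat.le_ceil (7 * (Fintype.card I * A))
  have y2 := Nat.ceil_lt_add_one (by positivity : 0 ≤ 7 * (Fintype.card I * A))
  rw [← hY] at y1 y2
  set R := ⌈2 * (Fintype.card I * (Y * A))⌉₊ with hR
  have r1 := Nat.le_ceil (2 * (Fintype.card I * (Y * A)))
  have r2 := Nat.ceil_lt_add_one (by positivity : 0 ≤ 2 * (Fintype.card I * (Y * A)))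
  rw [← hR] at r1 r2
  set v : (I → ℤ) → E → L := fun p e => ∑ i, p i * ⟨a e i, ha e i⟩ with hv
  have v1 : ∀ p e, (v p e : Qb) = ∑ i, p i * a e i := fun p e => by simp [hv]
  set g : Bool → ℂ → ℝ := fun b z => if b then z.re else z.im with hg
  have g1 : ∀ b z, |g b z| ≤ ‖z‖ := fun b z => by
    cases b; exacts [Complex.abs_im_le_norm z, Complex.abs_re_le_norm z]
  obtain ⟨p, hp, p', hp', ne, e⟩ := exists_ne_map_eq_of_card_lt_of_maps_to
    (s := Fintype.piFinset fun _ : I => Icc (0 : ℤ) Y)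
    (t := Fintype.piFinset fun _ : E × (L →ₐ[ℚ] ℂ) × Bool => Icc (-R : ℤ) R)
    (f := fun p z => ⌊2 * g z.2.2 (z.2.1 (v p z.1))⌋) (by
      simp only [Fintype.card_piFinset, prod_const, Int.card_Icc, card_univ, Fintype.card_prod,
        AlgHom.card, Fintype.card_bool]
      have : 2 * R + 1 ≤ Y ^ 2 := by
        have : (2 * R + 1 : ℝ) ≤ Y ^ 2 := by nlinarith
        exact_mod_cast this
      have y0 : 0 < Y := by exact_mod_cast (by linarith : (0 : ℝ) < Y)
      calc _ ≤ (Y ^ 2) ^ (Fintype.card E * (finrank ℚ L * 2)) := Nat.pow_le_pow_left (by omega) _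
        _ ≤ Y ^ Fintype.card I := by rw [← pow_mul]; exact Nat.pow_le_pow_right y0 (by nlinarith)
        _ < _ := Nat.pow_lt_pow_left (by omega) Fintype.card_ne_zero) fun p hp => by
      simp only [mem_coe, Fintype.mem_piFinset, mem_Icc] at hp ⊢
      intro z
      obtain ⟨φ, hφ⟩ := exists_ext L z.2.1
      have := (Hs.sum univ (g := fun _ => Y * A) fun i _ => ((Hs.int (p i)).mono (by
        rw [← Int.cast_abs, abs_of_nonneg (hp i).1]; exact_mod_cast (hp i).2)).mul (hA z.1 i)).2 φ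
      rw [← v1, hφ, sum_const, card_univ, nsmul_eq_mul] at this
      have := abs_le.1 ((g1 z.2.2 _).trans this)
      exact ⟨Int.le_floor.2 (by push_cast; linarith), Int.floor_le_iff.2 (by push_cast; linarith)⟩
  simp only [Fintype.mem_piFinset, mem_Icc] at hp hp'
  refine ⟨p - p', sub_ne_zero.2 ne, fun i => ?_, fun e' => ?_⟩
  · have : |(p - p') i| ≤ Y := by have := hp i; have := hp' i; rw [Pi.sub_apply, abs_le]; omega
    have : |(((p - p') i : ℤ) : ℝ)| ≤ Y := by exact_mod_cast this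
    linarith
  have i1 : IsIntegral ℤ (v (p - p') e') := integral_sub (by
    rw [v1]; exact (Hs.sum univ fun i _ => (Hs.int _).mul (hA e' i)).1)
  obtain ⟨n, hn⟩ := norm_int i1
  have e2 := Algebra.norm_eq_prod_embeddings ℚ ℂ (v (p - p') e')
  rw [hn, map_intCast] at e2
  have sm : ∀ σ : L →ₐ[ℚ] ℂ, ‖σ (v (p - p') e')‖ ≤ 3 / 4 := fun σ => by
    have f : σ (v (p - p') e') = σ (v p e') - σ (v p' e') := by
      rw [← map_sub]; congr 1; simp [hv, sub_mul]
    have a1 := Int.abs_sub_lt_one_of_floor_eq_floor (congrFun e (e', σ, true))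
    have a2 := Int.abs_sub_lt_one_of_floor_eq_floor (congrFun e (e', σ, false))
    simp only [hg, if_true, Bool.false_eq_true, if_false, ← mul_sub, ← Complex.sub_re, ← Complex.sub_im,
      ← f, abs_lt] at a1 a2
    refine le_of_sq_le_sq (by rw [Complex.sq_norm, Complex.normSq_apply]; nlinarith) (by norm_num)
  have : |(n : ℝ)| < 1 := by
    rw [← Complex.norm_intCast, e2, norm_prod]
    refine (prod_le_prod (fun _ _ => norm_nonneg _) fun σ _ => sm σ).trans_lt ?_
    rw [prod_const, card_univ, AlgHom.card]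
    exact pow_lt_one₀ (by norm_num) (by norm_num) finrank_pos.ne'
  have : n = 0 := Int.abs_lt_one_iff.1 (by exact_mod_cast this)
  rw [this, Int.cast_zero, Algebra.norm_eq_zero_iff] at hn
  rw [← v1, hn]; rfl

lemma exists_tower {q : ℕ} (q0 : 0 < q) (L : IntermediateField ℚ Qb) [FiniteDimensional ℚ L] (s : Finset Qb)
    (hs : ∀ x ∈ s, x ^ q ∈ L) : ∃ L' : IntermediateField ℚ Qb, FiniteDimensional ℚ L' ∧ L ≤ L' ∧
      finrank ℚ L' ≤ finrank ℚ L * q ^ s.card ∧ ∀ x ∈ s, x ∈ L' := by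
  classical
  induction s using Finset.induction_on with
  | empty => exact ⟨L, inferInstance, le_rfl, by simp, by simp⟩
  | insert x s hx ih =>
    obtain ⟨E, f, a, b, c⟩ := ih fun y hy => hs y (mem_insert_of_mem hy)
    have i : IsIntegral E x := Algebra.IsIntegral.isIntegral x
    have f1 := IntermediateField.adjoin.finiteDimensional i
    have : IsScalarTower ℚ E (IntermediateField.adjoin E {x}) :=
      IsScalarTower.of_algebraMap_eq' (Subsingleton.elim _ _)
    have e : finrank ℚ E * finrank E (IntermediateField.adjoin E {x}) =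
        finrank ℚ ((IntermediateField.adjoin E {x}).restrictScalars ℚ) := by
      exact finrank_mul_finrank ℚ E (IntermediateField.adjoin E {x})
    refine ⟨(IntermediateField.adjoin E {x}).restrictScalars ℚ,
      Module.Finite.trans (R := ℚ) E (IntermediateField.adjoin E {x}),
      fun y hy => (IntermediateField.adjoin E {x}).algebraMap_mem ⟨y, a hy⟩, ?_, fun y hy => ?_⟩
    · rw [← e, card_insert_of_notMem hx, pow_succ, ← mul_assoc, IntermediateField.adjoin.finrank i]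
      refine Nat.mul_le_mul b ?_
      have := minpoly.min E x (Polynomial.monic_X_pow_sub_C (⟨_, a (hs x (mem_insert_self _ _))⟩ : E) q0.ne')
        (by simp)
      rw [Polynomial.degree_X_pow_sub_C q0] at this
      exact Polynomial.natDegree_le_iff_degree_le.2 this
    · rcases mem_insert.1 hy with rfl | hy
      · exact IntermediateField.mem_adjoin_simple_self E y
      · exact (IntermediateField.adjoin E {x}).algebraMap_mem ⟨y, c y hy⟩

open Classical in
lemma kummer_split {q : ℕ} (hq : q.Prime) (L : IntermediateField ℚ Qb) (hμ : ∀ ζ : Qb, ζ ^ q = 1 → ζ ∈ L)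
    {ι : Type} (I : Finset ι) (c : ι → ℤ) (ρ : ι → Qb) (h : ∀ i ∈ I, ρ i ^ q ∈ L)
    (h0 : ∑ i ∈ I, c i * ρ i = 0) : ∑ i ∈ I.filter (fun i => ρ i ∈ L), c i * ρ i = 0 := by
  set E := IntermediateField.adjoin L (I.image ρ : Set Qb) with hE
  have f : FiniteDimensional L E :=
    IntermediateField.finiteDimensional_adjoin fun x _ => Algebra.IsIntegral.isIntegral x
  have m : ∀ i : I, ρ i ∈ E := fun i => IntermediateField.subset_adjoin _ _ (mem_coe.2 (mem_image_of_mem ρ i.2))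
  have e : ∑ i : I, c i • (⟨ρ i, m i⟩ : E) = 0 := Subtype.ext (by
    rw [← sum_attach] at h0; simpa using h0)
  have t : ∀ i : I, (Algebra.trace L E ⟨ρ i, m i⟩ : Qb) = if ρ i ∈ L then finrank L E * ρ i else 0 := by
    intro i
    split_ifs with k
    · rw [show (⟨ρ i, m i⟩ : E) = algebraMap L E ⟨ρ i, k⟩ from rfl, Algebra.trace_algebraMap]; simp
    · have ir := X_pow_sub_C_irreducible_of_prime hq (a := (⟨_, h i i.2⟩ : L)) fun b hb => k (by
        have hb : (b : Qb) ^ q = ρ i ^ q := congrArg Subtype.val hb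
        by_cases b0 : (b : Qb) = 0
        · rw [b0, zero_pow hq.ne_zero, eq_comm, pow_eq_zero_iff hq.ne_zero] at hb
          rw [hb]; exact zero_mem _
        · have := mul_mem (hμ (ρ i / b) (by rw [div_pow, hb, div_self (hb ▸ pow_ne_zero _ b0)])) b.2
          rwa [div_mul_cancel₀ _ b0] at this)
      rw [trace_eq_finrank_mul_minpoly_nextCoeff, ← minpoly.eq_of_irreducible_of_monic ir
        (Subtype.ext (by simp)) (Polynomial.monic_X_pow_sub_C _ hq.ne_zero),
        Polynomial.nextCoeff_of_natDegree_pos (by rw [Polynomial.natDegree_X_pow_sub_C]; exact hq.pos),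
        Polynomial.natDegree_X_pow_sub_C]
      have := hq.two_le
      rw [Polynomial.coeff_sub, Polynomial.coeff_X_pow, Polynomial.coeff_C, if_neg (by omega), if_neg (by omega)]
      simp
  have e2 := congrArg (fun x => (Algebra.trace L E x : Qb)) e
  simp only [map_sum, map_zsmul, map_zero, IntermediateField.coe_sum, AddSubgroupClass.coe_zsmul, t,
    ZeroMemClass.coe_zero] at e2
  have : (finrank L E : Qb) ≠ 0 := by exact_mod_cast finrank_pos.ne'
  refine mul_left_cancel₀ this ?_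
  rw [mul_zero, ← e2, sum_filter, mul_sum, ← sum_attach]
  exact sum_congr rfl fun i _ => by split_ifs <;> simp; ring

end Pool.Agent.Szpiro98
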