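import Pool.Agent.Lib.Szpiro98.Interp

/-! The analytic input of Baker's method, archimedean and non-archimedean. -/

namespace Pool.Agent.Szpiro98

open Finset NormedSpace

/-- What the descent needs to know about the completion. -/
structure An (F : Type) [NormedField F] (q : ℕ) (ω : ℝ) (W : ℝ → ℝ) (Dom : AddSubgroup F) : Prop where
  add : ∀ x ∈ Dom, ∀ y ∈ Dom, exp (x + y) = exp x * exp y
  dom : ∀ (h : ℝ) (t : F), ‖t‖ ≤ W h → t ∈ Dom
  div : ∀ (h : ℝ) (t : F), ‖t‖ ≤ W (q * h) → ‖t / q‖ ≤ W h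
  small : ∀ h, 1 ≤ h → W h ≤ h * ω
  near : ∀ t : F, ‖t‖ ≤ 1 / 16 → ‖exp t - 1 - t‖ ≤ ‖t‖ / 2
  int_ge : ∀ n : ℤ, n ≠ 0 → 1 ≤ |(n : ℝ)| * ‖(n : F)‖
  int_le : ∀ n : ℤ, ‖(n : F)‖ ≤ |(n : ℝ)|
  ext : ∀ (ι : Type) (I : Finset ι) (A ℓ ℓ' : ι → F) (n τ A' s e : ℕ) (δ : ℝ), 1 ≤ n → 1 ≤ τ → 1 ≤ A' →
    40 * n * ω ≤ 1 → (∀ i ∈ I, ‖ℓ i‖ ≤ W (n * τ)) → (∀ i ∈ I, ‖ℓ i - ℓ' i‖ ≤ δ) → 0 ≤ δ → δ ≤ ω →
    δ * (2 * q * A') ≤ 1 → s ≤ 2 * q * A' * q ^ e →
    (∀ a < A', ∀ k < τ, ∑ i ∈ I, A i * ℓ' i ^ k * exp (ℓ i * (q * a + 1 : ℕ)) = 0) →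
    ‖∑ i ∈ I, A i * exp (ℓ i * (s / q ^ e))‖ ≤
      (∑ i ∈ I, ‖A i‖) * Real.exp (n * τ * A') * ((40 * n * ω) ^ (A' * τ) + δ * (8 * q * A') ^ (A' * τ + 1))

lemma jet_le {F : Type} [NormedField F] {ι : Type} (I : Finset ι) (A u v c : ι → F) {B : ℝ}
    (h : ∑ i ∈ I, A i * c i * v i = 0) (hB : ∀ i ∈ I, ‖c i‖ * ‖u i - v i‖ ≤ B) :
    ‖∑ i ∈ I, A i * (c i * u i)‖ ≤ (∑ i ∈ I, ‖A i‖) * B := by
  rw [← sub_zero (∑ i ∈ I, A i * (c i * u i)), ← h, ← sum_sub_distrib, sum_mul]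
  refine (norm_sum_le _ _).trans (sum_le_sum fun i hi => ?_)
  rw [mul_assoc, ← mul_sub, ← mul_sub, norm_mul, norm_mul]
  exact mul_le_mul_of_nonneg_left (hB i hi) (norm_nonneg _)

lemma an_complex {q : ℕ} (q1 : 1 ≤ q) (q3 : q ≤ 3) {ω : ℝ} (ω0 : 0 ≤ ω) :
    An ℂ q ω (fun h => h * ω) ⊤ := by
  have q0 : (0 : ℝ) < q := by exact_mod_cast q1
  refine ⟨fun x _ y _ => by simp only [← Complex.exp_eq_exp_ℂ, Complex.exp_add], fun _ _ _ => trivial,
    fun h t ht => ?_, fun _ _ => le_rfl, fun t ht => ?_, fun n hn => ?_, fun n => by simp, ?_⟩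
  · rw [norm_div, Complex.norm_natCast, div_le_iff₀ q0]; linarith
  · rw [← Complex.exp_eq_exp_ℂ]
    nlinarith [Complex.norm_exp_sub_one_sub_id_le (x := t) (by linarith), norm_nonneg t]
  · have : (1 : ℝ) ≤ |(n : ℝ)| := by exact_mod_cast Int.one_le_abs hn
    rw [Complex.norm_intCast]; nlinarith
  intro ι I A ℓ ℓ' n τ A' s e δ n1 τ1 A1 hω h1 h2 δ0 δ1 δ2 hs hv
  have n1' : (1 : ℝ) ≤ n := by exact_mod_cast n1
  have τ1' : (1 : ℝ) ≤ τ := by exact_mod_cast τ1
  have A1' : (1 : ℝ) ≤ A' := by exact_mod_cast A1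
  have q1' : (1 : ℝ) ≤ q := by exact_mod_cast q1
  have q3' : (q : ℝ) ≤ 3 := by exact_mod_cast q3
  have nτ : (1 : ℝ) ≤ n * τ := one_le_mul_of_one_le_of_one_le n1' τ1'
  set ρ : ℝ := 2 * q * A' with hρ
  have ρ1 : 2 ≤ ρ := by nlinarith
  set w : ℝ := 2 * (n * τ * ω) with hw
  have w0 : 0 ≤ w := by positivity
  have w1 : ∀ i ∈ I, ‖ℓ i‖ ≤ w := fun i hi => by nlinarith [h1 i hi, norm_nonneg (ℓ i)]
  have w2 : ∀ i ∈ I, ‖ℓ' i‖ ≤ w := fun i hi => by
    have := norm_sub_norm_le (ℓ' i) (ℓ i)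
    rw [norm_sub_rev] at this
    nlinarith [h1 i hi, h2 i hi]
  have w3 : 2 * (w * ρ) ≤ n * τ * A' := by
    calc _ = 8 * q * (n * ω) * (τ * A') := by ring
      _ ≤ 8 * 3 * (1 / 40) * (τ * A') := by gcongr; linarith
      _ ≤ _ := by nlinarith [mul_le_mul_of_nonneg_right n1' (by positivity : (0 : ℝ) ≤ τ * A')]
  have ex : ∀ (x : ℝ) (k : ℕ), HasSum (fun m => G (List.replicate (k + 1) ρ) (m + 1) * (x ^ m / m.factorial))
      (x ^ k / k.factorial * Real.exp (x * ρ)) := fun x k => by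
    rw [Real.exp_eq_exp_ℝ]; exact hasSum_rep (Real.summable_pow_div_factorial _) k
  have tm : ∀ i ∈ I, ∀ zs : List ℂ, (∀ z ∈ zs, ‖z‖ ≤ ρ) → ∀ m, ‖G zs (m + 1) * (ℓ' i ^ m / m.factorial)‖ ≤
      G (List.replicate zs.length ρ) (m + 1) * (w ^ m / m.factorial) := fun i hi zs hz m => by
    rw [norm_mul, norm_div, norm_pow, Complex.norm_natCast]
    have := norm_G_le (by linarith) (m + 1) zs hz
    exact mul_le_mul this (by gcongr; exact w2 i hi) (by positivity) ((norm_nonneg _).trans this)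
  have df : ∀ i ∈ I, ∀ y : ℂ, ‖y‖ ≤ ρ → ‖exp (ℓ' i * y) - exp (ℓ i * y)‖ ≤ Real.exp (w * ρ) * (2 * (δ * ρ)) :=
    fun i hi y hy => by
      have a : ‖(ℓ' i - ℓ i) * y‖ ≤ δ * ρ := by
        rw [norm_mul, norm_sub_rev]; exact mul_le_mul (h2 i hi) hy (norm_nonneg _) δ0
      rw [← Complex.exp_eq_exp_ℂ, show ℓ' i * y = ℓ i * y + (ℓ' i - ℓ i) * y by ring, Complex.exp_add,
        ← mul_sub_one, norm_mul]
      refine mul_le_mul ((Complex.norm_exp_le_exp_norm _).trans (Real.exp_le_exp.2 ?_))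
        ((Complex.norm_exp_sub_one_le (a.trans δ2)).trans (by linarith)) (norm_nonneg _) (by positivity)
      rw [norm_mul]; exact mul_le_mul (w1 i hi) hy (norm_nonneg _) w0
  have nz : ∀ m : ℕ, m ≤ q * A' → (m : ℝ) ≤ ρ := fun m hm => by
    have : (m : ℝ) ≤ q * A' := by exact_mod_cast hm
    nlinarith
  have y1 : (s : ℝ) / q ^ e ≤ ρ := by rw [div_le_iff₀ (by positivity), hρ]; exact_mod_cast hs
  have y2 : ‖(s / q ^ e : ℂ)‖ ≤ ρ := by simpa using y1
  set M := ∑ i ∈ I, ‖A i‖ with hM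
  have M0 : 0 ≤ M := sum_nonneg fun _ _ => norm_nonneg _
  set N := A' * τ with hN
  have h := ext_gen I A ℓ' (Z := fun z => ‖z‖ ≤ ρ) (fun i hi zs hz => by
      cases zs with
      | nil => simpa [G] using summable_zero
      | cons z zs => exact (ex w zs.length).summable.of_norm_bounded (tm i hi _ hz))
    (q := q) (A' := A') (τ := τ) q1 (fun m hm => by simpa using nz m hm) (κ := 1) (ρ := ρ)
    (ε := M * (Real.exp (w * ρ) * (Real.exp (w * ρ) * (2 * (δ * ρ)))))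
    (R := w ^ N / N.factorial * Real.exp (w * ρ)) le_rfl (by linarith) (by positivity)
    (fun a b _ _ e => by
      rw [one_mul, ← Int.cast_natCast a, ← Int.cast_natCast b, ← Int.cast_sub, Complex.norm_intCast]
      exact_mod_cast Int.one_le_abs (sub_ne_zero.2 (Nat.cast_injective.ne e)))
    (fun a ha k hk => jet_le I A _ (fun i => exp (ℓ i * (q * a + 1 : ℕ))) _ (by
      simp only [← mul_div_assoc, div_mul_eq_mul_div, ← sum_div, hv a ha k hk, zero_div]) fun i hi => by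
      refine mul_le_mul ?_ (df i hi _ (by rw [Complex.norm_natCast]; exact nz (q * a + 1) (by nlinarith))) (norm_nonneg _)
        (by positivity)
      rw [norm_div, norm_pow, Complex.norm_natCast]
      refine le_trans (by gcongr; exact w2 i hi) ((Real.pow_div_factorial_le_exp w w0 k).trans ?_)
      exact Real.exp_le_exp.2 (by nlinarith))
    y2 (fun m hm => by
      rw [show (s / q ^ e - m : ℂ) = ((s / q ^ e - m : ℝ) : ℂ) by push_cast; rfl, Complex.norm_real,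
        Real.norm_eq_abs, abs_le]
      have : (0 : ℝ) ≤ s / q ^ e := by positivity
      constructor <;> linarith [nz m hm, Nat.cast_nonneg (α := ℝ) m])
    fun i hi zs hz hl => tsum_of_norm_bounded (ex w N) fun m => hl ▸ tm i hi zs hz m
  have d : ‖∑ i ∈ I, A i * exp (ℓ i * (s / q ^ e)) - ∑ i ∈ I, A i * exp (ℓ' i * (s / q ^ e))‖ ≤
      M * (Real.exp (w * ρ) * (2 * (δ * ρ))) := by
    rw [← sum_sub_distrib, hM, sum_mul]
    refine (norm_sum_le _ _).trans (sum_le_sum fun i hi => ?_)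
    rw [← mul_sub, norm_mul, norm_sub_rev]
    exact mul_le_mul_of_nonneg_left (df i hi _ y2) (norm_nonneg _)
  refine (norm_le_insert' _ _).trans ((add_le_add h d).trans ?_)
  have e1 : 1 ≤ Real.exp (w * ρ) := Real.one_le_exp (by positivity)
  have e2 : Real.exp (w * ρ) * Real.exp (w * ρ) ≤ Real.exp (n * τ * A') := by
    rw [← Real.exp_add]; exact Real.exp_le_exp.2 (by linarith)
  have e3 : ρ ^ N * (w ^ N / N.factorial) ≤ (40 * n * ω) ^ N := by
    have := Real.pow_div_factorial_le_exp (N : ℝ) (Nat.cast_nonneg _) N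
    calc _ = (4 * q * n * ω) ^ N * ((N : ℝ) ^ N / N.factorial) := by
          rw [← mul_div_assoc, ← mul_div_assoc, ← mul_pow, ← mul_pow, hN]; congr 2; push_cast; ring
      _ ≤ (4 * 3 * n * ω) ^ N * 3 ^ N := by
          gcongr
          refine this.trans ?_
          rw [← Real.exp_one_pow]; gcongr; linarith [Real.exp_one_lt_d9]
      _ ≤ _ := by
          rw [← mul_pow]
          exact pow_le_pow_left₀ (by positivity)
            (by nlinarith [mul_nonneg (Nat.cast_nonneg (α := ℝ) n) ω0]) _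
  have e4 : (N : ℝ) ≤ 2 ^ N := by exact_mod_cast Nat.lt_two_pow_self.le
  have e5 : (1 : ℝ) ≤ (4 * ρ) ^ N := one_le_pow₀ (by linarith)
  generalize Real.exp (w * ρ) = E at *
  calc _ = M * E * (ρ ^ N * (w ^ N / N.factorial)) + M * (E * E) * δ * (2 * ρ * (N * (2 * ρ) ^ N))
        + M * (E * 1) * δ * (2 * ρ * 1) := by rw [mul_pow 2 ρ]; ring
    _ ≤ M * (E * E) * (40 * n * ω) ^ N + M * (E * E) * δ * (2 * ρ * (2 ^ N * (2 * ρ) ^ N))
        + M * (E * E) * δ * (2 * ρ * (4 * ρ) ^ N) := by gcongr; nlinarith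
    _ = M * (E * E) * ((40 * n * ω) ^ N + δ * (8 * q * A') ^ (N + 1)) := by
        rw [← mul_pow, show 2 * (2 * ρ) = 4 * ρ by ring, show 8 * (q : ℝ) * A' = 4 * ρ by rw [hρ]; ring]; ring
    _ ≤ _ := by gcongr

section
variable {F : Type} [NormedField F] [CompleteSpace F] [CharZero F] [IsUltrametricDist F]
  (hF : ∀ m : ℕ, ‖(m.factorial : F)⁻¹‖ ≤ 2 ^ m)
include hF

omit [CompleteSpace F] [CharZero F] [IsUltrametricDist F] in
lemma term_le {t : F} {r : ℝ} (h : ‖t‖ ≤ r) (m : ℕ) : ‖t ^ m / m.factorial‖ ≤ (2 * r) ^ m := by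
  have := norm_nonneg t
  rw [div_eq_mul_inv, norm_mul, norm_pow, mul_pow, mul_comm]
  exact mul_le_mul (hF m) (by gcongr) (by positivity) (by positivity)

omit [CompleteSpace F] [CharZero F] [IsUltrametricDist F] in
lemma exp_summable {t : F} (h : ‖t‖ ≤ 1 / 4) : Summable fun m : ℕ => ‖t ^ m / m.factorial‖ :=
  summable_geometric_two.of_nonneg_of_le (fun _ => norm_nonneg _) fun m =>
    (term_le hF h m).trans_eq (by norm_num)

omit [IsUltrametricDist F] in
lemma exp_add_small {x y : F} (hx : ‖x‖ ≤ 1 / 4) (hy : ‖y‖ ≤ 1 / 4) : exp (x + y) = exp x * exp y := by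
  simp only [exp_eq_tsum_div]
  rw [tsum_mul_tsum_eq_tsum_sum_antidiagonal_of_summable_norm (exp_summable hF hx) (exp_summable hF hy)]
  congr 1; funext n
  rw [(Commute.all x y).add_pow', sum_div]
  refine sum_congr rfl fun m hm => ?_
  rw [← mem_antidiagonal.1 hm, ← Nat.add_choose_mul_factorial_mul_factorial m.1 m.2, nsmul_eq_mul,
    Nat.choose_symm_add]
  have : ((m.1 + m.2).choose m.2 : F) ≠ 0 := by exact_mod_cast (Nat.choose_pos (by omega)).ne'
  have : (m.1.factorial : F) ≠ 0 := by exact_mod_cast m.1.factorial_ne_zero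
  have : (m.2.factorial : F) ≠ 0 := by exact_mod_cast m.2.factorial_ne_zero
  push_cast; field_simp

omit [IsUltrametricDist F] in
lemma exp_near {t : F} (h : ‖t‖ ≤ 1 / 16) : ‖exp t - 1 - t‖ ≤ ‖t‖ / 2 := by
  have t0 := norm_nonneg t
  have a := (hasSum_nat_add_iff' 2).2 (exp_summable hF (t := t) (by linarith)).of_norm.hasSum
  simp only [sum_range_succ, range_zero, sum_empty] at a
  have b := (hasSum_geometric_of_lt_one (r := 1 / 8) (by norm_num) (by norm_num)).mul_left (4 * ‖t‖ ^ 2)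
  have := a.norm_le_of_bounded b fun m => (term_le hF le_rfl _).trans (by
    rw [pow_add, mul_comm]; gcongr; nlinarith; linarith)
  rw [exp_eq_tsum_div, sub_sub]
  simp at this
  nlinarith

lemma norm_exp_le {t : F} (h : ‖t‖ ≤ 1 / 16) : ‖exp t‖ ≤ 1 := by
  have := exp_near hF h
  have a := norm_add_le (exp t - 1 - t) t
  have b := IsUltrametricDist.norm_add_le_max (exp t - 1 - t + t) 1
  rw [show exp t - 1 - t + t + 1 = exp t by ring, norm_one] at b
  exact b.trans (max_le (by linarith) le_rfl)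

omit hF [CompleteSpace F] [CharZero F] in
lemma ult_sub {x y : F} {r : ℝ} (hx : ‖x‖ ≤ r) (hy : ‖y‖ ≤ r) : ‖x - y‖ ≤ r := by
  rw [sub_eq_add_neg]
  exact (IsUltrametricDist.norm_add_le_max _ _).trans (max_le hx (by rwa [norm_neg]))

lemma exp_sub {t u : F} (ht : ‖t‖ ≤ 1 / 16) (hu : ‖u‖ ≤ 1 / 16) :
    ‖exp t - exp u - (t - u)‖ ≤ ‖t - u‖ / 2 := by
  have d := ult_sub ht hu
  have e := exp_add_small hF (x := u) (y := t - u) (by linarith) (by linarith)
  rw [add_sub_cancel] at e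
  rw [e, show exp u * exp (t - u) - exp u - (t - u) =
    exp u * (exp (t - u) - 1 - (t - u)) - (t - u) * (1 - exp u) by ring]
  refine ult_sub ?_ ?_ <;> rw [norm_mul]
  · exact (mul_le_of_le_one_left (norm_nonneg _) (norm_exp_le hF hu)).trans (exp_near hF d)
  · have := exp_near hF hu
    have a := norm_add_le (exp u - 1 - u) u
    rw [sub_add_cancel, norm_sub_rev] at a
    nlinarith [norm_nonneg (t - u)]

lemma exists_log {x : F} {r : ℝ} (hr : r ≤ 1 / 16) (hx : ‖x - 1‖ ≤ r / 2) : ∃ t, ‖t‖ ≤ r ∧ exp t = x := by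
  have r0 : 0 ≤ r := by linarith [norm_nonneg (x - 1)]
  set T : F → F := fun t => t + (x - exp t) with hT
  have a : ∀ t u, ‖t‖ ≤ r → ‖u‖ ≤ r → ‖T t - T u‖ ≤ ‖t - u‖ / 2 := fun t u ht hu => by
    rw [show T t - T u = -(exp t - exp u - (t - u)) by simp only [hT]; ring, norm_neg]
    exact exp_sub hF (by linarith) (by linarith)
  have m : Set.MapsTo T (Metric.closedBall 0 r) (Metric.closedBall 0 r) := fun t ht => by
    rw [mem_closedBall_zero_iff] at ht ⊢
    have := a t 0 ht (by simpa)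
    have b := norm_add_le (T t - T 0) (T 0)
    rw [sub_add_cancel] at b
    simp only [hT, zero_add, exp_zero, sub_zero] at *
    linarith
  obtain ⟨t, h1, h2, -⟩ := ContractingWith.exists_fixedPoint' (K := 1 / 2) Metric.isClosed_closedBall.isComplete m
    ⟨by norm_num, LipschitzWith.of_dist_le_mul fun t u => by
      have := a t u (mem_closedBall_zero_iff.1 t.2) (mem_closedBall_zero_iff.1 u.2)
      simp only [Subtype.dist_eq, dist_eq_norm, Set.MapsTo.val_restrict_apply]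
      push_cast; linarith⟩ (Metric.mem_closedBall_self r0) (edist_ne_top _ _)
  exact ⟨t, mem_closedBall_zero_iff.1 h1, by have := h2.eq; simp only [hT] at this; grind⟩

lemma an_ultra {q : ℕ} (q1 : 1 ≤ q) (hq : ‖(q : F)‖ = 1) {ω : ℝ} (ω0 : 0 ≤ ω) (ω1 : ω ≤ 1 / 40)
    (hi : ∀ n : ℤ, n ≠ 0 → 1 ≤ |(n : ℝ)| * ‖(n : F)‖) :
    An F q ω (fun _ => ω) (IsUltrametricDist.closedBall_openAddSubgroup F (r := 1 / 16) (by norm_num)) := by
  have md : ∀ t : F, t ∈ (IsUltrametricDist.closedBall_openAddSubgroup F (r := 1 / 16)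
      (by norm_num) : AddSubgroup F) ↔ ‖t‖ ≤ 1 / 16 := fun t => mem_closedBall_zero_iff
  refine ⟨fun x hx y hy => exp_add_small hF (by linarith [(md x).1 hx]) (by linarith [(md y).1 hy]),
    fun _ t h => (md t).2 (by linarith), fun h t ht => by rwa [norm_div, hq, div_one],
    fun h h1 => le_mul_of_one_le_left ω0 h1, fun t => exp_near hF, hi, fun n => ?_, ?_⟩
  · rcases eq_or_ne n 0 with rfl | h
    · simp
    · exact (IsUltrametricDist.norm_intCast_le_one F n).trans (by exact_mod_cast Int.one_le_abs h)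
  intro ι I A ℓ ℓ' n τ A' s e δ n1 τ1 A1 hω h1 h2 δ0 δ1 δ2 hs hv
  have n1' : (1 : ℝ) ≤ n := by exact_mod_cast n1
  have κ1 : (1 : ℝ) ≤ q * A' := by exact_mod_cast Nat.mul_pos q1 A1
  have w2 : ∀ i ∈ I, ‖ℓ' i‖ ≤ ω := fun i hi => by
    simpa using ult_sub (h1 i hi) ((h2 i hi).trans δ1)
  have tm : ∀ i ∈ I, ∀ zs : List F, (∀ z ∈ zs, ‖z‖ ≤ 1) → ∀ m, ‖G zs (m + 1) * (ℓ' i ^ m / m.factorial)‖ ≤
      (2 * ω) ^ m := fun i hi zs hz m => by
    rw [norm_mul]
    exact (mul_le_of_le_one_left (norm_nonneg _) (norm_G_le_one _ zs hz)).trans (term_le hF (w2 i hi) m)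
  have df : ∀ i ∈ I, ∀ y : F, ‖y‖ ≤ 1 → ‖exp (ℓ' i * y) - exp (ℓ i * y)‖ ≤ 2 * δ := fun i hi y hy => by
    have b : ∀ t : F, ‖t * y‖ ≤ ‖t‖ := fun t => by
      rw [norm_mul]; exact mul_le_of_le_one_right (norm_nonneg _) hy
    have := exp_sub hF (t := ℓ' i * y) (u := ℓ i * y) (by linarith [b (ℓ' i), w2 i hi])
      (by linarith [b (ℓ i), h1 i hi])
    have a := norm_add_le (exp (ℓ' i * y) - exp (ℓ i * y) - (ℓ' i * y - ℓ i * y)) (ℓ' i * y - ℓ i * y)
    have c := b (ℓ' i - ℓ i)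
    rw [sub_mul, norm_sub_rev (ℓ' i)] at c
    rw [sub_add_cancel] at a
    linarith [h2 i hi]
  have y2 : ‖(s / q ^ e : F)‖ ≤ 1 := by
    rw [norm_div, norm_pow, hq, one_pow, div_one]; exact IsUltrametricDist.norm_natCast_le_one F s
  set M := ∑ i ∈ I, ‖A i‖ with hM
  have M0 : 0 ≤ M := sum_nonneg fun _ _ => norm_nonneg _
  set N := A' * τ with hN
  have N1 : 1 ≤ N := Nat.mul_pos A1 τ1
  have g := hasSum_geometric_of_lt_one (r := 2 * ω) (by positivity) (by linarith)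
  have h := ext_gen I A ℓ' (Z := fun z => ‖z‖ ≤ 1)
    (fun i hi zs hz => g.summable.of_norm_bounded (tm i hi _ hz))
    (q := q) (A' := A') (τ := τ) q1 (fun m _ => IsUltrametricDist.norm_natCast_le_one F m) (κ := q * A')
    (ρ := 1) (ε := M * (2 * δ)) (R := (2 * ω) ^ N * (1 - 2 * ω)⁻¹) κ1 le_rfl (by positivity)
    (fun a b ha hb e => by
      refine (hi (a - b) (by omega)).trans ?_
      have : (a : ℝ) ≤ q * A' := by exact_mod_cast ha
      have : (b : ℝ) ≤ q * A' := by exact_mod_cast hb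
      push_cast; gcongr; rw [abs_le]
      constructor <;> linarith [Nat.cast_nonneg (α := ℝ) a, Nat.cast_nonneg (α := ℝ) b])
    (fun a ha k hk => jet_le I A _ (fun i => exp (ℓ i * (q * a + 1 : ℕ))) _ (by
      simp only [← mul_div_assoc, div_mul_eq_mul_div, ← sum_div, hv a ha k hk, zero_div]) fun i hi =>
      (mul_le_of_le_one_left (norm_nonneg _) ((term_le hF (w2 i hi) k).trans
        (pow_le_one₀ (by positivity) (by linarith)))).trans
        (df i hi _ (IsUltrametricDist.norm_natCast_le_one F _)))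
    y2 (fun m _ => ult_sub y2 (IsUltrametricDist.norm_natCast_le_one F m))
    fun i hi zs hz hl => by
      have a := (g.summable.of_norm_bounded (tm i hi _ hz)).sum_add_tsum_nat_add N
      rw [sum_eq_zero fun m hm => by
        have := norm_G_le zero_le_one (m + 1) zs hz
        rw [hl, G_rep, Nat.choose_eq_zero_of_lt (mem_range.1 hm), Nat.cast_zero, zero_mul,
          norm_le_zero_iff] at this
        rw [this, zero_mul], zero_add] at a
      rw [DD, ← a]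
      exact tsum_of_norm_bounded (g.mul_left _) fun m => (tm i hi zs hz _).trans_eq (by ring)
  have d : ‖∑ i ∈ I, A i * exp (ℓ i * (s / q ^ e)) - ∑ i ∈ I, A i * exp (ℓ' i * (s / q ^ e))‖ ≤
      M * (2 * δ) := by
    rw [← sum_sub_distrib, hM, sum_mul]
    refine (norm_sum_le _ _).trans (sum_le_sum fun i hi => ?_)
    rw [← mul_sub, norm_mul, norm_sub_rev]
    exact mul_le_mul_of_nonneg_left (df i hi _ y2) (norm_nonneg _)
  refine (norm_le_insert' _ _).trans ((add_le_add h d).trans ?_)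
  have e1 : 1 ≤ Real.exp (n * τ * A') := Real.one_le_exp (by positivity)
  have e4 : (N : ℝ) ≤ 2 ^ N := by exact_mod_cast Nat.lt_two_pow_self.le
  have e3 : (1 - 2 * ω)⁻¹ ≤ 2 ^ N := le_trans (by rw [inv_le_comm₀ (by linarith) two_pos]; linarith)
    (le_self_pow₀ one_le_two (by omega))
  have e5 : (1 : ℝ) ≤ (8 * q * A') ^ N := one_le_pow₀ (by linarith)
  calc _ = M * 1 * ((2 * ω) ^ N * (1 - 2 * ω)⁻¹ + δ * (2 * (N * (2 * (q * A')) ^ N) + 2 * 1)) := by ring
    _ ≤ M * Real.exp (n * τ * A') * ((2 * ω) ^ N * 2 ^ N + δ * (2 * (2 ^ N * (2 * (q * A')) ^ N)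
        + 2 * (8 * q * A') ^ N)) := by
        have : 0 < 1 - 2 * ω := by linarith
        gcongr
    _ ≤ _ := by
        rw [← mul_pow, ← mul_pow, pow_succ]
        have : (2 * (2 * ((q : ℝ) * A'))) ^ N ≤ (8 * q * A') ^ N :=
          pow_le_pow_left₀ (by positivity) (by linarith) _
        refine mul_le_mul_of_nonneg_left (add_le_add (pow_le_pow_left₀ (by positivity) (by nlinarith) _)
          (mul_le_mul_of_nonneg_left (by nlinarith) δ0)) (by positivity)

end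

end Pool.Agent.Szpiro98
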