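import Pool.Agent.Lib.Szpiro98.Blue2
import Pool.Agent.Lib.helper22.Val

/-! Block AUX: auxiliary primes with at least two places above them. -/

namespace Pool.Agent.Szpiro98.V2

open Finset Module NumberField IsDedekindDomain Pool.Agent.Lib.helper22.Val
open scoped nonZeroDivisors

namespace AuxB

variable {K : Type} [Field K] [NumberField K]

lemma exists_theta (hp : (finrank ℚ K).Prime) (hK : finrank ℚ K ≤ 3) :
    ∃ θ : 𝓞 K, (∀ r : ℚ, (θ : K) ≠ r) ∧ ∀ φ : K →+* ℂ, ‖φ θ‖ ≤ 10 * √(dk K) := by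
  have hs : 1 ≤ √(dk K) := Real.one_le_sqrt.2 Fam.one_le_dk
  let B : NNReal := ⟨9 * √(dk K), by positivity⟩
  have hB : (B : ℝ) = 9 * √(dk K) := rfl
  have h1 : (⊤ : Ideal (𝓞 K)) ∈ (Ideal (𝓞 K))⁰ := mem_nonZeroDivisors_of_ne_zero (by simp)
  have h2 := Fam.mink_le hK h1
  have e : FractionalIdeal.mk0 K ⟨⊤, h1⟩ = 1 := by
    have : (⟨⊤, h1⟩ : (Ideal (𝓞 K))⁰) = 1 := Subtype.ext (by simp)
    rw [this, map_one]
  rw [e, Ideal.absNorm_top, Nat.cast_one, one_mul] at h2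
  have h3 : mixedEmbedding.minkowskiBound K 1 < B := by
    refine h2.trans_lt ?_
    rw [← ENNReal.ofReal_coe_nnreal, hB, ENNReal.ofReal_lt_ofReal_iff (by positivity)]
    linarith
  have key : ∃ a : 𝓞 K, IntermediateField.adjoin ℚ {(a : K)} = ⊤ ∧
      ∀ w : InfinitePlace K, w a ≤ 10 * √(dk K) := by
    obtain ⟨w0⟩ : Nonempty (InfinitePlace K) := inferInstance
    rcases w0.isReal_or_isComplex with h | h
    · obtain ⟨a, a1, a2⟩ := mixedEmbedding.exists_primitive_element_lt_of_isReal K h (B := B)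
        (h3.trans_le (le_mul_of_one_le_left zero_le
          (by exact_mod_cast mixedEmbedding.one_le_convexBodyLTFactor K)))
      refine ⟨a, a1, fun w => (a2 w).le.trans ?_⟩
      push_cast
      rw [hB]
      exact max_le (by linarith) (by linarith)
    · obtain ⟨a, a1, a2⟩ := mixedEmbedding.exists_primitive_element_lt_of_isComplex K h (B := B)
        (h3.trans_le (le_mul_of_one_le_left zero_le
          (by exact_mod_cast mixedEmbedding.one_le_convexBodyLT'Factor K)))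
      refine ⟨a, a1, fun w => (a2 w).le.trans ?_⟩
      rw [hB, Real.sqrt_le_left (by positivity)]
      nlinarith
  obtain ⟨a, a1, a2⟩ := key
  refine ⟨a, fun r hr => ?_, fun φ => ?_⟩
  · have : IntermediateField.adjoin ℚ {(a : K)} = ⊥ := by
      rw [IntermediateField.adjoin_simple_eq_bot_iff, hr]
      exact IntermediateField.mem_bot.2 ⟨r, rfl⟩
    rw [this] at a1
    exact hp.ne_one (IntermediateField.bot_eq_top_iff_finrank_eq_one.1 a1)
  · rw [← InfinitePlace.apply]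
    exact a2 _

/-- absolute value of the norm -/
noncomputable def nm (x : 𝓞 K) : ℕ := (Algebra.norm ℤ x).natAbs

lemma nm_ne {x : 𝓞 K} (h : x ≠ 0) : nm x ≠ 0 :=
  Int.natAbs_ne_zero.2 (Algebra.norm_ne_zero_iff.2 h)

lemma norm_prod (x : 𝓞 K) : ((Algebra.norm ℤ x : ℤ) : ℂ) = ∏ φ : K →ₐ[ℚ] ℂ, φ x := by
  rw [← Algebra.norm_eq_prod_embeddings ℚ ℂ, ← Algebra.coe_norm_int]
  simp

lemma trace_sum (x : 𝓞 K) : ((Algebra.trace ℤ _ x : ℤ) : ℂ) = ∑ φ : K →ₐ[ℚ] ℂ, φ x := by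
  rw [← trace_eq_sum_embeddings ℂ, ← Algebra.coe_trace_int]
  simp

lemma card_emb : Fintype.card (K →ₐ[ℚ] ℂ) = finrank ℚ K := AlgHom.card ℚ K ℂ

lemma nm_le (hK : finrank ℚ K ≤ 3) {x : 𝓞 K} {B : ℝ} (hB : 1 ≤ B) (h : ∀ φ : K →+* ℂ, ‖φ x‖ ≤ B) :
    (nm x : ℝ) ≤ B ^ 3 := by
  have e : (nm x : ℝ) = ‖((Algebra.norm ℤ x : ℤ) : ℂ)‖ := by
    rw [nm, Nat.cast_natAbs, Complex.norm_intCast]
    push_cast
    rfl
  rw [e, AuxB.norm_prod, _root_.norm_prod]
  refine (prod_le_prod (fun _ _ => norm_nonneg _) fun φ _ => h φ.toRingHom).trans ?_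
  rw [prod_const, card_univ, card_emb]
  exact pow_le_pow_right₀ hB hK

lemma trace_dvd {l : ℕ} (hl : l.Prime) {γ β : 𝓞 K} {k : ℕ} (h : γ ^ k = l * β) :
    (l : ℤ) ∣ Algebra.trace ℤ _ γ := by
  classical
  have : Fact l.Prime := ⟨hl⟩
  let b := RingOfIntegers.basis K
  let f : 𝓞 K →+* Matrix _ _ (ZMod l) :=
    (Int.castRingHom (ZMod l)).mapMatrix.comp (Algebra.leftMulMatrix b).toRingHom
  have h1 : IsNilpotent (f γ) := ⟨k, by
    rw [← map_pow, h, map_mul, map_natCast]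
    have : (l : Matrix (Free.ChooseBasisIndex ℤ (𝓞 K)) (Free.ChooseBasisIndex ℤ (𝓞 K)) (ZMod l)) = 0 := by
      rw [← map_natCast (algebraMap (ZMod l) _), ZMod.natCast_self, map_zero]
    rw [this, zero_mul]⟩
  have h2 := (Matrix.isNilpotent_trace_of_isNilpotent h1).eq_zero
  rw [← ZMod.intCast_zmod_eq_zero_iff_dvd, Algebra.trace_eq_matrix_trace b, ← h2]
  simp [f, Matrix.trace]

lemma dvd_nm {l : ℕ} (hl : l.Prime) {v : HOS K} (hv : (l : 𝓞 K) ∈ v.asIdeal) {x : 𝓞 K}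
    (hx : x ∈ v.asIdeal) : l ∣ nm x := by
  have h1 : Ideal.absNorm v.asIdeal ∣ l ^ finrank ℤ (𝓞 K) := by
    rw [← Ideal.absNorm_span_natCast]
    exact Ideal.absNorm_dvd_absNorm_of_le ((Ideal.span_singleton_le_iff_mem _).2 hv)
  obtain ⟨i, -, hi⟩ := (Nat.dvd_prime_pow hl).1 h1
  have h2 := NumberField.HeightOneSpectrum.one_lt_absNorm v
  have h3 : l ∣ Ideal.absNorm v.asIdeal := by
    rw [hi] at h2 ⊢
    exact dvd_pow_self _ fun h => by simp [h] at h2
  exact h3.trans (Int.natCast_dvd.1 (Ideal.absNorm_dvd_norm_of_mem hx))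

lemma two {l : ℕ} (hl : l.Prime) {γ : 𝓞 K} (h1 : l ∣ nm γ)
    (h2 : ¬ l ∣ nm ((finrank ℚ K : 𝓞 K) * γ - ((Algebra.trace ℤ _ γ : ℤ) : 𝓞 K))) :
    ∃ v w : HOS K, v ≠ w ∧ (l : 𝓞 K) ∈ v.asIdeal ∧ (l : 𝓞 K) ∈ w.asIdeal ∧ γ ∈ v.asIdeal := by
  have l0 : (l : 𝓞 K) ≠ 0 := Nat.cast_ne_zero.2 hl.ne_zero
  obtain ⟨P, p1, p2, p3⟩ := Ideal.exists_isMaximal_dvd_of_dvd_absNorm' hl (Ideal.span {γ})
    (by rw [Ideal.absNorm_span_singleton]; exact h1)
  have p4 : (l : 𝓞 K) ∈ P := by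
    have : (l : ℤ) ∈ P.under ℤ := p2 ▸ Ideal.mem_span_singleton_self _
    simpa [Ideal.under_def] using this
  have p5 : γ ∈ P := (Ideal.span_singleton_le_iff_mem _).1 (Ideal.dvd_iff_le.1 p3)
  let v : HOS K := ⟨P, p1.isPrime, by rintro rfl; exact l0 (by simpa using p4)⟩
  by_contra hc
  have hr : γ ∈ (Ideal.span {(l : 𝓞 K)}).radical := by
    rw [Ideal.radical_eq_sInf, Submodule.mem_sInf]
    rintro J ⟨j1, j2⟩
    have j3 : (l : 𝓞 K) ∈ J := (Ideal.span_singleton_le_iff_mem _).1 j1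
    let w : HOS K := ⟨J, j2, by rintro rfl; exact l0 (by simpa using j3)⟩
    have : v = w := by
      by_contra hne
      exact hc ⟨v, w, hne, p4, j3, p5⟩
    have e : P = J := congrArg HeightOneSpectrum.asIdeal this
    exact e ▸ p5
  obtain ⟨k, hk⟩ := hr
  obtain ⟨β, hβ⟩ := Ideal.mem_span_singleton.1 hk
  obtain ⟨c, hc'⟩ := trace_dvd hl hβ
  refine h2 (dvd_nm hl (v := v) p4 (sub_mem (Ideal.mul_mem_left _ _ p5) ?_))
  rw [hc']
  push_cast
  exact Ideal.mul_mem_right _ _ p4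

lemma smooth_card (T A : Finset ℕ) (B : ℕ)
    (h : ∀ n ∈ A, n ≠ 0 ∧ n.primeFactors ⊆ T ∧ n ≤ B ^ 6) : A.card ≤ 6 ^ T.card * B := by
  classical
  let a : ℕ → ℕ := fun n => ∏ p ∈ T, p ^ (n.factorization p % 6)
  let b : ℕ → ℕ := fun n => ∏ p ∈ T, p ^ (n.factorization p / 6)
  have e : ∀ n ∈ A, n = a n * b n ^ 6 := fun n hn => by
    obtain ⟨h1, h2, -⟩ := h n hn
    rw [← prod_pow, ← prod_mul_distrib]
    conv_lhs => rw [← Nat.prod_factorization_pow_eq_self h1,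
      Finsupp.prod_of_support_subset _ (s := T) h2 _ fun _ _ => pow_zero _]
    exact prod_congr rfl fun p _ => by rw [← pow_mul, ← pow_add, Nat.mod_add_div']
  let F : ℕ → (T → Fin 6) × ℕ := fun n =>
    (fun p => ⟨n.factorization p % 6, Nat.mod_lt _ (by norm_num)⟩, b n)
  have h3 : A.card ≤ ((univ : Finset (T → Fin 6)) ×ˢ Icc 1 B).card := by
    refine card_le_card_of_injOn F (fun n hn => ?_) fun n hn n' hn' hF => ?_
    · obtain ⟨h1, -, h2⟩ := h n hn
      have k := e n hn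
      have a0 : a n ≠ 0 := fun z => h1 (by rw [k, z, zero_mul])
      have b0 : b n ≠ 0 := fun z => h1 (by rw [k, z]; simp)
      refine mem_coe.2 (mem_product.2 ⟨mem_univ _, mem_Icc.2 ⟨Nat.one_le_iff_ne_zero.2 b0, ?_⟩⟩)
      refine (Nat.pow_le_pow_iff_left (n := 6) (by norm_num)).1 (le_trans ?_ h2)
      calc b n ^ 6 ≤ a n * b n ^ 6 := Nat.le_mul_of_pos_left _ (Nat.pos_of_ne_zero a0)
        _ = n := k.symm
    · have f1 : b n = b n' := congrArg Prod.snd hF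
      have f2 : a n = a n' := prod_congr rfl fun p hp => by
        have := congrArg Fin.val (congrFun (congrArg Prod.fst hF) ⟨p, hp⟩)
        exact congrArg (p ^ ·) this
      rw [e n hn, e n' hn', f1, f2]
  simpa using h3

lemma fiber_card (hp : (finrank ℚ K).Prime) (hK : finrank ℚ K ≤ 3) (θ : 𝓞 K) (M : Finset ℕ) (c : ℕ) :
    (M.filter fun m : ℕ => nm (θ + (m : 𝓞 K)) = c).card ≤ 6 := by
  classical
  let G : Polynomial ℂ := ∏ φ : K →ₐ[ℚ] ℂ, (Polynomial.X + Polynomial.C (φ θ))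
  have g1 : G.Monic := Polynomial.monic_prod_of_monic _ _ fun φ _ => Polynomial.monic_X_add_C _
  have g2 : G.natDegree = finrank ℚ K := by
    rw [Polynomial.natDegree_prod_of_monic _ _ fun φ _ => Polynomial.monic_X_add_C _]
    simp
  have g3 : (G ^ 2 - Polynomial.C ((c : ℂ) ^ 2)).natDegree = 2 * finrank ℚ K := by
    rw [Polynomial.natDegree_sub_C, g1.natDegree_pow, g2]
  have g4 : G ^ 2 - Polynomial.C ((c : ℂ) ^ 2) ≠ 0 := fun z => by
    rw [z, Polynomial.natDegree_zero] at g3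
    have := hp.pos
    omega
  refine le_trans (card_le_card_of_injOn (fun m : ℕ => (m : ℂ))
    (t := (G ^ 2 - Polynomial.C ((c : ℂ) ^ 2)).roots.toFinset) (fun m hm => ?_)
    Nat.cast_injective.injOn) ?_
  · have h := (mem_filter.1 hm).2
    have e : G.eval (m : ℂ) = ((Algebra.norm ℤ (θ + m) : ℤ) : ℂ) := by
      rw [norm_prod, Polynomial.eval_prod]
      exact prod_congr rfl fun φ _ => by simp [add_comm]
    refine mem_coe.2 (Multiset.mem_toFinset.2 ((Polynomial.mem_roots g4).2 ?_))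
    rw [Polynomial.IsRoot, Polynomial.eval_sub, Polynomial.eval_pow, e, Polynomial.eval_C, ← h, nm, sub_eq_zero]
    have := congrArg (Int.cast : ℤ → ℂ) (Int.natAbs_sq (Algebra.norm ℤ (θ + (m : 𝓞 K)))).symm
    rwa [Int.cast_pow, Int.cast_pow, Int.cast_natCast] at this
  · exact (Multiset.toFinset_card_le _).trans ((Polynomial.card_roots' _).trans (by omega))

lemma exists_primes (hp : (finrank ℚ K).Prime) (hK : finrank ℚ K ≤ 3) (θ : 𝓞 K) (hθ : ∀ r : ℚ, (θ : K) ≠ r)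
    (U : Finset ℕ) (t c : ℕ) (hc : 6 ^ (t + U.card + 1) < c) (hY : ∀ φ : K →+* ℂ, ‖φ θ‖ ≤ c) :
    ∃ L : Finset ℕ, L.card = t ∧ ∀ l ∈ L, l.Prime ∧ l ∉ U ∧
      ∃ m : ℕ, l ∣ nm (θ + (m : 𝓞 K)) ∧ nm (θ + (m : 𝓞 K)) ≠ 0 ∧ nm (θ + (m : 𝓞 K)) ≤ (2 * c) ^ 6 := by
  classical
  have c1 : 1 ≤ c := (Nat.zero_le _).trans_lt hc
  have g0 : ∀ m : ℕ, nm (θ + (m : 𝓞 K)) ≠ 0 := fun m => nm_ne fun z => hθ (-m) (by
    have := congrArg (fun x : 𝓞 K => (x : K)) z
    push_cast at this ⊢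
    exact eq_neg_of_add_eq_zero_left this)
  have g1 : ∀ m ∈ range (2 * c ^ 2), nm (θ + (m : 𝓞 K)) ≤ (2 * c) ^ 6 := fun m hm => by
    have c2 : (1 : ℝ) ≤ c := by exact_mod_cast c1
    have m1 : (m : ℝ) ≤ 2 * c ^ 2 := by exact_mod_cast (mem_range.1 hm).le
    have := nm_le hK (x := θ + m) (B := (2 * c) ^ 2) (by nlinarith) fun φ => by
      push_cast
      rw [map_add, map_natCast]
      refine (norm_add_le _ _).trans ?_
      rw [Complex.norm_natCast]
      nlinarith [hY φ]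
    rw [← pow_mul] at this
    exact_mod_cast this
  let A := (range (2 * c ^ 2)).image fun m : ℕ => nm (θ + (m : 𝓞 K))
  let T := A.biUnion Nat.primeFactors
  by_cases ht : t ≤ (T \ U).card
  · obtain ⟨L, l1, l2⟩ := exists_subset_card_eq ht
    refine ⟨L, l2, fun l hl => ?_⟩
    obtain ⟨a1, a2⟩ := mem_sdiff.1 (l1 hl)
    obtain ⟨n, n1, n2⟩ := mem_biUnion.1 a1
    obtain ⟨m, m1, rfl⟩ := mem_image.1 n1
    exact ⟨Nat.prime_of_mem_primeFactors n2, a2, m, Nat.dvd_of_mem_primeFactors n2, g0 m, g1 m m1⟩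
  · exfalso
    have h1 : T.card ≤ t + U.card := by
      have := card_le_card_sdiff_add_card (s := T) (t := U)
      omega
    have h2 := smooth_card T A (2 * c) fun n hn => by
      obtain ⟨m, m1, rfl⟩ := mem_image.1 hn
      exact ⟨g0 m, subset_biUnion_of_mem Nat.primeFactors hn, g1 m m1⟩
    have h3 : (range (2 * c ^ 2)).card ≤ 6 * A.card :=
      card_le_mul_card_image _ _ fun n _ => fiber_card hp hK θ _ n
    rw [card_range] at h3
    have h4 : 6 ^ T.card ≤ 6 ^ (t + U.card) := Nat.pow_le_pow_right (by norm_num) h1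
    rw [pow_succ] at hc
    nlinarith

lemma two_pow_le {n : ℕ} (h : n ≠ 0) : 2 ^ n.primeFactors.card ≤ n :=
  (pow_card_le_prod _ _ _ fun _ hp => (Nat.prime_of_mem_primeFactors hp).two_le).trans
    (Nat.le_of_dvd (Nat.pos_of_ne_zero h) (Nat.prod_primeFactors_dvd n))

lemma uniq {v : HOS K} {p q : ℕ} (hp : p.Prime) (hq : q.Prime) (h1 : (p : 𝓞 K) ∈ v.asIdeal)
    (h2 : (q : 𝓞 K) ∈ v.asIdeal) : p = q := by
  by_contra hne
  exact ((val_natCast_lt_iff v _).2 h2).ne (val_nat_eq_one h1 ((Nat.coprime_primes hp hq).2 hne))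

lemma wt_nonneg (v : HOS K) : 0 ≤ wt v := by
  have := Fam.half_le_log v
  unfold wt
  linarith

lemma num {D : ℝ} (hD : 1 ≤ D) {t s o u : ℕ} (hu : u ≤ s + 2 + o) (ho : (2 : ℝ) ^ o ≤ (60 * √D) ^ 3) :
    12 * Real.log (2 * (6 ^ (t + u + 1) + ⌈10 * √D⌉₊ : ℕ)) ≤ 10000 * (t + s + 1 + Real.log D) := by
  have hs : 1 ≤ √D := Real.one_le_sqrt.2 hD
  have l0 := Real.log_nonneg hD
  have l1 : Real.log √D = Real.log D / 2 := Real.log_sqrt (by linarith)
  have l2 := Real.log_two_gt_d9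
  have l3 : Real.log 60 ≤ 59 := by linarith [Real.log_le_sub_one_of_pos (x := 60) (by norm_num)]
  have l4 : Real.log 6 ≤ 2 := by
    rw [Real.log_le_iff_le_exp (by norm_num)]
    have := Real.add_one_le_exp (1 : ℝ)
    have e : Real.exp 2 = Real.exp 1 * Real.exp 1 := by rw [← Real.exp_add]; norm_num
    have := Real.exp_one_gt_d9
    nlinarith
  have l5 : Real.log 24 ≤ 23 := by linarith [Real.log_le_sub_one_of_pos (x := 24) (by norm_num)]
  have h1 := Real.log_le_log (by positivity) ho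
  rw [Real.log_pow, Real.log_pow, Real.log_mul (by norm_num) (by linarith), l1] at h1
  push_cast at h1
  have o0 : (0 : ℝ) ≤ o := Nat.cast_nonneg _
  have h2 : (o : ℝ) ≤ 270 + 3 * Real.log D := by nlinarith
  have h3 : (1 : ℝ) ≤ 6 ^ (t + u + 1) := one_le_pow₀ (by norm_num)
  have h4 := Nat.ceil_lt_add_one (a := 10 * √D) (by positivity)
  have h5 : (2 * (6 ^ (t + u + 1) + ⌈10 * √D⌉₊ : ℕ) : ℝ) ≤ 6 ^ (t + u + 1) * (24 * √D) := by
    push_cast
    nlinarith
  have h6 := Real.log_le_log (by positivity) h5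
  rw [Real.log_mul (x := 6 ^ (t + u + 1)) (by positivity) (by positivity), Real.log_pow,
    Real.log_mul (x := 24) (by norm_num) (by linarith), l1] at h6
  have h7 : (u : ℝ) ≤ s + 2 + o := by exact_mod_cast hu
  have h8 : ((t + u + 1 : ℕ) : ℝ) * Real.log 6 ≤ (t + u + 1) * 2 := by
    push_cast
    gcongr
  have t0 : (0 : ℝ) ≤ t := Nat.cast_nonneg _
  have s0 : (0 : ℝ) ≤ s := Nat.cast_nonneg _
  linarith

end AuxB

open AuxB in
theorem aux : AuxStmt := by
  classical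
  intro K _ _ hp hK S t P P' hP hP' hS
  obtain ⟨θ, θ1, θ2⟩ := exists_theta hp hK
  have hs : 1 ≤ √(dk K) := Real.one_le_sqrt.2 Fam.one_le_dk
  set δ : 𝓞 K := (finrank ℚ K : 𝓞 K) * θ - (Algebra.trace ℤ _ θ : ℤ) with hδ
  have n0 : (finrank ℚ K : K) ≠ 0 := Nat.cast_ne_zero.2 hp.ne_zero
  have n3 : (finrank ℚ K : ℝ) ≤ 3 := by exact_mod_cast hK
  have δ0 : δ ≠ 0 := fun z => θ1 ((Algebra.trace ℤ _ θ : ℤ) / finrank ℚ K) (by
    have := congrArg (fun x : 𝓞 K => (x : K)) (hδ.symm.trans z)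
    simp only [map_sub, map_mul, map_natCast, map_intCast, map_zero] at this
    push_cast
    rw [eq_div_iff n0]
    linear_combination this)
  have δ1 : (nm δ : ℝ) ≤ (60 * √(dk K)) ^ 3 := nm_le hK (by linarith) fun φ => by
    have a1 : ‖((Algebra.trace ℤ _ θ : ℤ) : ℂ)‖ ≤ 30 * √(dk K) := by
      rw [trace_sum]
      refine (norm_sum_le _ _).trans ((sum_le_card_nsmul _ _ _ fun ψ _ => θ2 ψ.toRingHom).trans ?_)
      rw [card_univ, card_emb, nsmul_eq_mul]
      nlinarith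
    rw [hδ]
    simp only [map_sub, map_mul, map_natCast, map_intCast]
    refine (norm_sub_le _ _).trans ?_
    rw [norm_mul, Complex.norm_natCast]
    nlinarith [θ2 φ, norm_nonneg (φ θ)]
  have δ2 : ∀ m : ℕ, (finrank ℚ K : 𝓞 K) * (θ + m) - (Algebra.trace ℤ _ (θ + m) : ℤ) = δ := fun m => by
    have : Algebra.trace ℤ (𝓞 K) (m : 𝓞 K) = finrank ℚ K * m := by
      rw [← map_natCast (algebraMap ℤ (𝓞 K)), Algebra.trace_algebraMap, RingOfIntegers.rank, nsmul_eq_mul]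
    rw [map_add, this, hδ]
    push_cast
    ring
  choose bl b1 b2 using fun w : HOS K => exists_prime_mem w
  set U := (insert P (insert P' S)).image bl ∪ (nm δ).primeFactors with hU
  have u1 : U.card ≤ S.card + 2 + (nm δ).primeFactors.card := by
    refine (card_union_le _ _).trans (Nat.add_le_add_right (card_image_le.trans ?_) _)
    exact (card_insert_le _ _).trans (Nat.succ_le_succ (card_insert_le _ _))
  set c := 6 ^ (t + U.card + 1) + ⌈10 * √(dk K)⌉₊ with hc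
  have c0 : 0 < ⌈10 * √(dk K)⌉₊ := Nat.ceil_pos.2 (by linarith)
  obtain ⟨L, l1, l2⟩ := exists_primes hp hK θ θ1 U t c (by omega) fun φ =>
    (θ2 φ).trans ((Nat.le_ceil _).trans (by exact_mod_cast Nat.le_add_left _ _))
  have hn := num (t := t) Fam.one_le_dk u1 (le_trans (by exact_mod_cast two_pow_le (nm_ne δ0)) δ1)
  have key : ∀ l : ℕ, ∃ v w : HOS K, l ∈ L → v ≠ w ∧ (l : 𝓞 K) ∈ v.asIdeal ∧ (l : 𝓞 K) ∈ w.asIdeal ∧
      wt v ≤ 10000 * (t + S.card + 1 + Real.log (dk K)) := fun l => by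
    by_cases hl : l ∈ L
    · obtain ⟨a1, a2, m, a3, a4, a5⟩ := l2 l hl
      obtain ⟨v, w, k1, k2, k3, k4⟩ := two a1 a3 (by
        rw [δ2]
        exact fun h => a2 (mem_union_right _ (Nat.mem_primeFactors.2 ⟨a1, h, nm_ne δ0⟩)))
      refine ⟨v, w, fun _ => ⟨k1, k2, k3, le_trans ?_ hn⟩⟩
      have k5 : Ideal.absNorm v.asIdeal ≤ (2 * c) ^ 6 :=
        (Nat.le_of_dvd (Nat.pos_of_ne_zero a4)
          (Int.natCast_dvd.1 (Ideal.absNorm_dvd_norm_of_mem k4))).trans a5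
      have k6 : (Ideal.absNorm v.asIdeal : ℝ) ≤ (2 * c) ^ 6 := by exact_mod_cast k5
      have k7 := Real.log_le_log (zero_lt_one.trans_le (Fam.one_le_norm v.ne_bot)) k6
      rw [Real.log_pow] at k7
      unfold wt
      push_cast at k7
      linarith
    · exact ⟨P, P, fun h => absurd h hl⟩
  choose v w kv using key
  have nS : ∀ l ∈ L, ∀ x : HOS K, (l : 𝓞 K) ∈ x.asIdeal → x ∉ insert P (insert P' S) := fun l hl x hx h =>
    (l2 l hl).2.1 (mem_union_left _ (mem_image.2 ⟨x, h, uniq (b1 x) (l2 l hl).1 (b2 x) hx⟩))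
  have inj : Set.InjOn v L := fun l hl l' hl' e =>
    uniq (l2 l hl).1 (l2 l' hl').1 (kv l hl).2.1 (e ▸ (kv l' hl').2.1)
  have dis : Disjoint S (L.image v) := disjoint_right.2 fun x hx h => by
    obtain ⟨l, hl, rfl⟩ := mem_image.1 hx
    exact nS l hl _ (kv l hl).2.1 (mem_insert_of_mem (mem_insert_of_mem h))
  refine ⟨S ∪ L.image v, subset_union_left, fun h => ?_, fun h => ?_, ?_, ?_, fun x hx => hS x ⟨hx.1, ?_⟩⟩
  · rcases mem_union.1 h with h | h
    · exact hP h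
    · obtain ⟨l, hl, e⟩ := mem_image.1 h
      exact nS l hl _ (kv l hl).2.1 (e ▸ mem_insert_self _ _)
  · rcases mem_union.1 h with h | h
    · exact hP' h
    · obtain ⟨l, hl, e⟩ := mem_image.1 h
      exact nS l hl _ (kv l hl).2.1 (mem_insert_of_mem (e ▸ mem_insert_self _ _))
  · rw [card_union_of_disjoint dis, card_image_of_injOn inj, l1]
  · rw [prod_union dis, prod_image inj]
    refine mul_le_mul_of_nonneg_left ?_ (prod_nonneg fun x _ => wt_nonneg x)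
    rw [← l1, ← prod_const]
    exact prod_le_prod (fun l _ => wt_nonneg _) fun l hl => by rw [l1]; exact (kv l hl).2.2.2
  · intro y hy
    by_cases h : y ∈ L.image v
    · obtain ⟨l, hl, rfl⟩ := mem_image.1 h
      obtain ⟨k1, k2, k3, -⟩ := kv l hl
      have x0 : x ≠ 0 := fun z => hx.1 (by rw [z, Rat.cast_zero])
      rw [val_rat_eq_one_iff (l2 l hl).1 k2 x0, ← val_rat_eq_one_iff (l2 l hl).1 k3 x0]
      refine hx.2 _ fun h' => ?_
      rcases mem_union.1 h' with h' | h'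
      · exact nS l hl _ k3 (mem_insert_of_mem (mem_insert_of_mem h'))
      · obtain ⟨l', hl', e⟩ := mem_image.1 h'
        have : l' = l := uniq (l2 l' hl').1 (l2 l hl).1 (kv l' hl').2.1 (e ▸ k3)
        exact k1 (this ▸ e)
    · exact hx.2 y fun h' => (mem_union.1 h').elim hy h

end Pool.Agent.Szpiro98.V2
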