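import Pool.Agent.Lib.Szpiro98.Main

/-! Second round: auxiliary primes. Names in `V2` shadow the first-round names. -/

namespace Pool.Agent.Szpiro98.V2

open Finset Module NumberField IsDedekindDomain NormedSpace Pool.Agent.Lib.MP_cafdd5_nt

noncomputable def cb (R N A0 q J : ℕ) : ℝ :=
  4 ^ R * A0 * q ^ J * (2001 * N + 3 * Real.log (24 * (4 ^ R * A0 * q ^ J)))

def CoreStmt : Prop :=
  ∀ (F : Type) [NormedField F] [CharZero F] (q R N : ℕ) (W : ℝ → ℝ) (Dom : AddSubgroup F), q.Prime → q ≤ 3 →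
    An F q (om N) W Dom → ∀ ι : Qb →+* F, (∀ θ M, 1 ≤ M → Hs θ M → ‖ι θ‖ ≤ M) →
    ∀ (L : IntermediateField ℚ Qb) [FiniteDimensional ℚ L], finrank ℚ L ≤ 18 → (∀ ζ : Qb, ζ ^ q = 1 → ζ ∈ L) →
    ∀ (m : ℕ) (κ : Type) (I : Finset κ) (μ : κ → Fin (m + 1) → ℤ) (b : Fin (m + 1) → ℤ) (c : Fin (m + 1) → F)
      (z : κ → Qb) (X : ℝ) (J A0 : ℕ), m + 1 ≤ R → R ≤ N → b ≠ 0 → (∀ k, |(b k : ℝ)| ≤ X) →
      (∀ i ∈ I, ∀ k, |(μ i k : ℝ)| ≤ X) → 3 * Real.log (2 * X ^ 2) ≤ A0 →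
      (∀ i ∈ I, z i ∈ L ∧ z i ≠ 0 ∧ Hs (z i) (Real.exp (N * q ^ J))) →
      Set.InjOn (fun i => ∑ k, c k * μ i k) I →
      (∀ i ∈ I, ∀ j ∈ I, ι (z i) = ι (z j) * exp (∑ k, c k * μ i k - ∑ k, c k * μ j k) ∧
        ‖∑ k, c k * μ i k - ∑ k, c k * μ j k‖ ≤ W (N * q ^ J)) →
      72 * A0 * Real.exp (6 * R) * (2 * q ^ J) ^ m ≤ I.card →
      Real.exp (-cb R N A0 q J) ≤ ‖∑ k, c k * b k‖

/-- The data shared by the archimedean and the `p`-adic argument. -/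
structure Setup (F : Type) [NormedField F] (K : Type) [Field K] [NumberField K] where
  q : ℕ
  R : ℕ
  N : ℕ
  e : ℕ
  W : ℝ → ℝ
  Dom : AddSubgroup F
  D' : AddSubgroup F
  ι : Qb →+* F
  σ : K →+* Qb
  τ : K →+* Qb
  S : Finset (HOS K)
  ψ : F →+ ℝ
  hq : q.Prime
  q3 : q ≤ 3
  an : An F q (om N) W Dom
  le : D' ≤ Dom
  hι : ∀ θ M, 1 ≤ M → Hs θ M → ‖ι θ‖ ≤ M
  hK : (finrank ℚ K).Prime
  K3 : finrank ℚ K ≤ 3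
  ne : σ ≠ τ
  hS : ∀ x : ℚ, SU S (x : K) → x = 1 ∨ x = -1
  hd : ∀ t ∈ D', (e ≠ 0 → |ψ t| ≤ Real.exp (-100)) → |Real.log ‖exp t‖| ≤ 6 * Real.exp (-100) →
    ‖t‖ ≤ 7 * Real.exp (-100)
  hR : R = S.card + rk K + e + 1
  RN : R ≤ N

namespace Setup
variable {F : Type} [NormedField F] {K : Type} [Field K] [NumberField K] (s : Setup F K)

def Lg (γ : K) (t : F) : Prop := exp t * s.ι (s.τ γ) = s.ι (s.σ γ)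

def Ref (κ : ℝ) : Prop :=
  ∀ (J : ℕ) (Γ : Finset K),
    (∀ γ ∈ Γ, ∀ γ' ∈ Γ, SU s.S (γ / γ') ∧ (s.σ (γ / γ') = s.τ (γ / γ') → γ = γ')) →
    ∃ (I : Finset (K × ℕ)) (t : K × ℕ → F), Γ.card ≤ I.card * κ ∧ Set.InjOn t I ∧
      (∀ i ∈ I, i.1 ∈ Γ ∧ t i ∈ s.D') ∧ ∀ i ∈ I, ∀ k ∈ I, |s.ψ (t i - t k)| ≤ s.N * s.q ^ J ∧
        s.Lg (i.1 / k.1) (t i - t k) ∧ ‖t i - t k‖ ≤ s.W (s.N * s.q ^ J)

end Setup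

def CoordStmt : Prop :=
  ∀ (F : Type) [NormedField F] [CharZero F] (K : Type) [Field K] [NumberField K] (s : Setup F K)
    (κ : Type) (I : Finset κ) (γ : κ → K) (t : κ → F) (M J A0 : ℕ) (B : ℝ) (β : K) (tb : F), 0 < M → 1 ≤ B →
    (∀ i ∈ I, γ i ≠ 0 ∧ t i ∈ s.D' ∧ Hs (s.σ (γ i) * s.τ (M / γ i)) (Real.exp (s.N * s.q ^ J))) →
    (∀ i ∈ I, ∀ k ∈ I, SU s.S (γ i / γ k) ∧ Sz (γ i / γ k) B ∧ |s.ψ (t i - t k)| ≤ B ∧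
      s.Lg (γ i / γ k) (t i - t k) ∧ ‖t i - t k‖ ≤ s.W (s.N * s.q ^ J)) →
    Set.InjOn t I → 72 * A0 * Real.exp (6 * s.R) * (2 * s.q ^ J) ^ (s.R - 1) ≤ I.card * (2 * s.q ^ J) →
    3 * Real.log (2 * (Real.exp (3 * s.R ^ 2 + 100) * B) ^ 2) ≤ A0 →
    SU s.S β → Sz β B → |s.ψ tb| ≤ B → tb ∈ s.D' → s.Lg β tb → tb ≠ 0 →
    Real.exp (-cb s.R s.N A0 s.q J) ≤ ‖tb‖

def MidStmt : Prop :=
  ∃ C : ℝ, 1 ≤ C ∧ ∀ (F : Type) [NormedField F] [CharZero F] (K : Type) [Field K] [NumberField K] (s : Setup F K)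
    (l : ℕ) (κ 𝓛 : ℝ) (β : K) (tb : F), s.e = 0 → 1 ≤ l → s.N = s.R * l → (l : ℝ) ^ (s.R - 1) ≤ κ → s.Ref κ →
    3 ≤ 𝓛 → SU s.S β → Sz β (200 * 𝓛) → |s.ψ tb| ≤ 200 * 𝓛 → tb ∈ s.D' → s.Lg β tb → tb ≠ 0 →
    mb C s.R (∏ v ∈ s.S, wt v) (dk K) (κ * l / l ^ (s.R - 1)) 𝓛 < 𝓛 →
    Real.exp (-mb C s.R (∏ v ∈ s.S, wt v) (dk K) (κ * l / l ^ (s.R - 1)) 𝓛) ≤ ‖tb‖

def RefPStmt : Prop :=
  ∀ (p : ℕ) [Fact p.Prime] (K : Type) [Field K] [NumberField K] (s : Setup ℂ_[p] K) (r : ℚ_[p]),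
    p ≠ 2 → 4 ≤ p * om s.N ^ 2 → s.ψ = 0 → (∀ h, s.W h = om s.N) → (∀ t, ‖t‖ ≤ om s.N → t ∈ s.D') →
    (∀ η, SU s.S η → ‖s.ι (s.σ η)‖ = 1 ∧ ‖s.ι (s.τ η)‖ = 1) → Rho (s.ι.comp s.σ) (s.ι.comp s.τ) r →
    s.Ref (2 * p)

def AuxStmt : Prop :=
  ∀ (K : Type) [Field K] [NumberField K], (finrank ℚ K).Prime → finrank ℚ K ≤ 3 →
    ∀ (S : Finset (HOS K)) (t : ℕ) (P P' : HOS K), P ∉ S → P' ∉ S → (∀ x : ℚ, SU S (x : K) → x = 1 ∨ x = -1) →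
    ∃ S2 : Finset (HOS K), S ⊆ S2 ∧ P ∉ S2 ∧ P' ∉ S2 ∧ S2.card = S.card + t ∧
      ∏ v ∈ S2, wt v ≤ (∏ v ∈ S, wt v) * (10000 * (t + S.card + 1 + Real.log (dk K))) ^ t ∧
      ∀ x : ℚ, SU S2 (x : K) → x = 1 ∨ x = -1

/-- The local bound at a large prime with `t` auxiliary primes (first-round `bnd`). -/
def LocT (C : ℝ) : Prop :=
  ∀ (p : ℕ) [Fact p.Prime] (ι : Qb →+* ℂ_[p]) (K : Type) [Field K] [NumberField K], (finrank ℚ K).Prime →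
    finrank ℚ K ≤ 3 → ∀ (σ τ : K →+* Qb) (r : ℚ_[p]), Rho (ι.comp σ) (ι.comp τ) r →
    ∀ (β : K) (n : ℤ) (S : Finset ℕ) (𝓛 : ℝ) (t : ℕ), σ β ≠ τ β → Algebra.norm ℚ β = n → (∀ q ∈ S, q.Prime) →
    n.natAbs.primeFactors ⊆ S → 3 ≤ 𝓛 → Hk β (Real.exp 𝓛) →
    C * (t + S.card + 1 + Real.log (dk K)) ^ 2 ≤ Real.log p →
    Szpiro98.bnd C S (dk K) (p * ((1 + Real.log p) / 2 ^ t)) 𝓛 < 𝓛 →
    Real.exp (-Szpiro98.bnd C S (dk K) (p * ((1 + Real.log p) / 2 ^ t)) 𝓛) * ‖ι (τ β)‖ ≤ ‖ι (σ β) - ι (τ β)‖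

def LocTStmt : Prop := ∃ C₀ : ℝ, ∀ C, C₀ ≤ C → LocT C

noncomputable def sav (C : ℝ) (S : Finset ℕ) (D κ : ℝ) : ℝ :=
  min 1 ((1 + Real.log κ) / 2 ^ ⌊√(Real.log κ / C) - (S.card + 1 + Real.log D)⌋₊)

noncomputable def bnd (C : ℝ) (S : Finset ℕ) (D κ 𝓛 : ℝ) : ℝ := Szpiro98.bnd C S D (κ * sav C S D κ) 𝓛

def LocP (C : ℝ) : Prop :=
  ∀ (p : ℕ) [Fact p.Prime] (ι : Qb →+* ℂ_[p]) (K : Type) [Field K] [NumberField K], (finrank ℚ K).Prime →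
    finrank ℚ K ≤ 3 → ∀ (σ τ : K →+* Qb) (r : ℚ_[p]), Rho (ι.comp σ) (ι.comp τ) r →
    ∀ (β : K) (n : ℤ) (S : Finset ℕ) (𝓛 : ℝ), σ β ≠ τ β → Algebra.norm ℚ β = n → (∀ q ∈ S, q.Prime) →
    n.natAbs.primeFactors ⊆ S → 3 ≤ 𝓛 → Hk β (Real.exp 𝓛) → bnd C S (dk K) (kap p r.valuation) 𝓛 < 𝓛 →
    Real.exp (-bnd C S (dk K) (kap p r.valuation) 𝓛) * ‖ι (τ β)‖ ≤ ‖ι (σ β) - ι (τ β)‖

def LocI (C : ℝ) : Prop :=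
  ∀ (ι : Qb →+* ℂ) (K : Type) [Field K] [NumberField K], (finrank ℚ K).Prime →
    finrank ℚ K ≤ 3 → ∀ (σ τ : K →+* Qb),
    ∀ (β : K) (n : ℤ) (S : Finset ℕ) (𝓛 : ℝ), σ β ≠ τ β → Algebra.norm ℚ β = n → (∀ q ∈ S, q.Prime) →
    n.natAbs.primeFactors ⊆ S → 3 ≤ 𝓛 → Hk β (Real.exp 𝓛) → bnd C S (dk K) 1 𝓛 < 𝓛 →
    Real.exp (-bnd C S (dk K) 1 𝓛) * ‖ι (τ β)‖ ≤ ‖ι (σ β) - ι (τ β)‖

def Loc (C : ℝ) (a b : ℤ) : Prop :=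
  ∃ d c : ℤ, d ≠ 0 ∧ c ≠ 0 ∧ DiscOK a b d c ∧ c.natAbs.primeFactors ⊆ SS a b ∧
    (bnd C (SS a b) |d| 1 (LL a b) < LL a b →
      LL a b ≤ 6 * Real.log |(c : ℝ)| + 12 * bnd C (SS a b) |d| 1 (LL a b) + 100) ∧
    ∀ p : ℕ, p.Prime → 30 < padicValInt p c →
      bnd C (SS a b) |d| (kap p (padicValInt p c)) (LL a b) < LL a b →
      padicValInt p c * Real.log p ≤ 30 * Real.log p + 2 * bnd C (SS a b) |d| (kap p (padicValInt p c)) (LL a b)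

def IrrStmt : Prop :=
  ∀ C : ℝ, 1 ≤ C → LocP C → LocI C → ∀ a b : ℤ, disc a b ≠ 0 → MinP a b → (∀ e : ℤ, e ^ 3 - a * e - b ≠ 0) →
    Loc C a b

def Quad (C : ℝ) : Prop :=
  ∀ (A B c : ℤ) (S : Finset ℕ) (𝓛 : ℝ), c = A ^ 2 - 4 * B → ¬IsSquare c → B ≠ 0 →
    (∀ p : ℕ, p.Prime → ¬((p : ℤ) ^ 4 ∣ A ∧ (p : ℤ) ^ 8 ∣ B)) → (∀ q ∈ S, q.Prime) → B.natAbs.primeFactors ⊆ S →
    3 ≤ 𝓛 → |(A : ℝ)| + √|(c : ℝ)| ≤ Real.exp 𝓛 →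
    ∃ d : ℤ, d ≠ 0 ∧ (∀ p : ℕ, p.Prime → padicValInt p d ≤ 3 ∧ (p ≠ 2 → padicValInt p d ≤ padicValInt p c % 2)) ∧
      (bnd C S |d| 1 𝓛 < 𝓛 → Real.log (max ((A : ℝ) ^ 2) |(B : ℝ)|) ≤ Real.log |(c : ℝ)| + 2 * bnd C S |d| 1 𝓛 + 2) ∧
      ∀ p : ℕ, p.Prime → bnd C S |d| (kap p (padicValInt p c)) 𝓛 < 𝓛 →
        padicValInt p c * Real.log p ≤ 8 * Real.log p + 2 * bnd C S |d| (kap p (padicValInt p c)) 𝓛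

def QuadStmt : Prop := ∀ C : ℝ, 1 ≤ C → LocP C → LocI C → Quad C

def RedStmt : Prop :=
  ∀ C : ℝ, 1 ≤ C → Quad C → ∀ a b e : ℤ, disc a b ≠ 0 → MinP a b → e ^ 3 - a * e - b = 0 → Loc C a b

def CombStmt : Prop :=
  ∀ C : ℝ, 1 ≤ C → Szpiro98.LocP C → Szpiro98.LocI C → LocT C → LocP C ∧ LocI C

def NumAStmt : Prop :=
  ∀ C : ℝ, 10 ≤ C → ∃ c C' : ℝ, 0 < c ∧ c ≤ 1 ∧ 1 ≤ C' ∧ ∀ (a b d e : ℤ) (𝓛 : ℝ), disc a b ≠ 0 → d ≠ 0 → e ≠ 0 →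
    DiscOK a b d e → e.natAbs.primeFactors ⊆ SS a b → 3 ≤ 𝓛 →
    bnd C (SS a b) |d| 1 𝓛 ≤ C' * cond a b * Real.exp (-(c * √(Real.log (cond a b)))) * Real.log 𝓛 ^ 3 ∧
    ∀ p : ℕ, p.Prime → 30 < padicValInt p e → bnd C (SS a b) |d| (kap p (padicValInt p e)) 𝓛 ≤
      C' * cond a b * Real.exp (-(c * √(Real.log (cond a b)))) * Real.log 𝓛 ^ 3

def NumBStmt : Prop :=
  ∀ C : ℝ, 10 ≤ C → ∃ c C' : ℝ, 0 < c ∧ ∀ a b : ℤ, disc a b ≠ 0 → Loc C a b →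
    LL a b ≤ C' * cond a b * Real.exp (-(c * √(Real.log (cond a b))))

theorem fin (lt : LocTStmt) (cm : CombStmt) (irr : IrrStmt) (quad : QuadStmt) (red : RedStmt) (nb : NumBStmt) :
    ∃ c C : ℝ, 0 < c ∧ ∀ a b : ℤ, disc a b ≠ 0 → IsMinimalShort a b →
      Real.log (max (|(a : ℝ)| ^ 3) ((b : ℝ) ^ 2)) ≤ C * cond a b * Real.exp (-(c * √(Real.log (cond a b)))) := by
  obtain ⟨C1, h1⟩ := locp'
  obtain ⟨C2, h2⟩ := loci'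
  obtain ⟨C3, h3⟩ := lt
  set C := max (max 10 C3) (max C1 C2)
  have c0 : 10 ≤ C := (le_max_left _ _).trans (le_max_left _ _)
  obtain ⟨p1, p2⟩ := cm C (by linarith) (h1 C ((le_max_left _ _).trans (le_max_right _ _)))
    (h2 C ((le_max_right _ _).trans (le_max_right _ _))) (h3 C ((le_max_right _ _).trans (le_max_left _ _)))
  obtain ⟨c, C', c1, g⟩ := nb C c0
  refine ⟨c, C', c1, fun a b hD hm => ?_⟩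
  have m := minP hD hm
  have l : Loc C a b := by
    by_cases h : ∃ e : ℤ, e ^ 3 - a * e - b = 0
    · obtain ⟨e, he⟩ := h
      exact red C (by linarith) (quad C (by linarith) p1 p2) a b e hD m he
    · exact irr C (by linarith) p1 p2 a b hD m fun e he => h ⟨e, he⟩
  have := g a b hD l
  unfold LL at this
  linarith

end Pool.Agent.Szpiro98.V2
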