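import Pool.Agent.Lib.Szpiro98.Main

/-! Third round: one embedding only (`S`-units of `ℚ`), curves with a rational 2-torsion point. -/

namespace Pool.Agent.Szpiro98.V3

open Finset Module NumberField IsDedekindDomain NormedSpace Pool.Agent.Lib.MP_cafdd5_nt

/-- The data shared by the archimedean and the `p`-adic argument. -/
structure Setup (F : Type) [NormedField F] (K : Type) [Field K] [NumberField K] where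
  q : ℕ
  N : ℕ
  e : ℕ
  W : ℝ → ℝ
  Dom : AddSubgroup F
  D' : AddSubgroup F
  ι : Qb →+* F
  σ : K →+* Qb
  S : Finset (HOS K)
  ψ : F →+ ℝ
  hq : q.Prime
  q3 : q ≤ 3
  an : An F q (om N) W Dom
  le : D' ≤ Dom
  hι : ∀ θ M, 1 ≤ M → Hs θ M → ‖ι θ‖ ≤ M
  K3 : finrank ℚ K ≤ 3
  hd : ∀ t ∈ D', (e ≠ 0 → |ψ t| ≤ Real.exp (-100)) → |Real.log ‖exp t‖| ≤ 6 * Real.exp (-100) →
    ‖t‖ ≤ 7 * Real.exp (-100)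
  hN : N = S.card + rk K + e + 1

namespace Setup
variable {F : Type} [NormedField F] {K : Type} [Field K] [NumberField K] (s : Setup F K)

/-- `t` is a logarithm of `σ γ`. -/
def Lg (γ : K) (t : F) : Prop := exp t = s.ι (s.σ γ)

/-- A family of `S`-units can be refined, at cost `κ`, to a family with close logarithms. -/
def Ref (κ : ℝ) : Prop :=
  ∀ (J : ℕ) (Γ : Finset K), κ ≤ s.q ^ J →
    (∀ γ ∈ Γ, ∀ γ' ∈ Γ, SU s.S (γ / γ') ∧ Sz (γ / γ') (s.N * s.q ^ J)) →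
    ∃ (I : Finset (K × ℕ)) (t : K × ℕ → F), Γ.card * ((s.q : ℝ) ^ J / 5) ^ s.e ≤ I.card * κ ∧ Set.InjOn t I ∧
      (∀ i ∈ I, i.1 ∈ Γ ∧ t i ∈ s.D') ∧ ∀ i ∈ I, ∀ k ∈ I, |s.ψ (t i - t k)| ≤ s.N * s.q ^ J ∧
        s.Lg (i.1 / k.1) (t i - t k) ∧ ‖t i - t k‖ ≤ s.W (s.N * s.q ^ J)

end Setup

def CoordStmt : Prop :=
  ∀ (F : Type) [NormedField F] [CharZero F] (K : Type) [Field K] [NumberField K] (s : Setup F K)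
    (κ : Type) (I : Finset κ) (γ : κ → K) (t : κ → F) (J A0 : ℕ) (B : ℝ) (β : K) (tb : F), 1 ≤ B →
    (∀ i ∈ I, γ i ≠ 0 ∧ t i ∈ s.D' ∧ Hs (s.σ (γ i)) (Real.exp (s.N * s.q ^ J))) →
    (∀ i ∈ I, ∀ k ∈ I, SU s.S (γ i / γ k) ∧ Sz (γ i / γ k) B ∧ |s.ψ (t i - t k)| ≤ B ∧
      s.Lg (γ i / γ k) (t i - t k) ∧ ‖t i - t k‖ ≤ s.W (s.N * s.q ^ J)) →
    Set.InjOn t I → 72 * A0 * Real.exp (6 * s.N) * (2 * s.q ^ J) ^ (s.N - 1) ≤ I.card * (2 * s.q ^ J) →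
    3 * Real.log (2 * (Real.exp (3 * s.N ^ 2 + 100) * B) ^ 2) ≤ A0 →
    SU s.S β → Sz β B → |s.ψ tb| ≤ B → tb ∈ s.D' → s.Lg β tb → tb ≠ 0 →
    Real.exp (-cb s.N A0 s.q J) ≤ ‖tb‖

def MidStmt : Prop :=
  ∃ C : ℝ, 1 ≤ C ∧ ∀ (F : Type) [NormedField F] [CharZero F] (K : Type) [Field K] [NumberField K] (s : Setup F K)
    (κ 𝓛 : ℝ) (β : K) (tb : F), 1 ≤ κ → s.Ref κ → 3 ≤ 𝓛 → SU s.S β → Sz β (200 * 𝓛) → |s.ψ tb| ≤ 200 * 𝓛 →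
    tb ∈ s.D' → s.Lg β tb → tb ≠ 0 → mb C s.N (∏ v ∈ s.S, wt v) (dk K) κ 𝓛 < 𝓛 →
    Real.exp (-mb C s.N (∏ v ∈ s.S, wt v) (dk K) κ 𝓛) ≤ ‖tb‖

def RefPStmt : Prop :=
  ∀ (p : ℕ) [Fact p.Prime] (K : Type) [Field K] [NumberField K] (s : Setup ℂ_[p] K),
    s.e = 0 → s.ψ = 0 → (∀ h, s.W h = om s.N) → (∀ t, ‖t‖ ≤ om s.N → t ∈ s.D') →
    (∀ η, SU s.S η → ‖s.ι (s.σ η)‖ = 1) → (∀ η, ∃ u : ℚ_[p], s.ι (s.σ η) = algebraMap _ _ u) →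
    s.Ref (2 * p / om s.N)

def RefIStmt : Prop :=
  ∀ (K : Type) [Field K] [NumberField K] (s : Setup ℂ K), s.e = 1 → (∀ t, s.ψ t = t.im) →
    (∀ h, s.W h = h * om s.N) → s.D' = ⊤ → s.Ref (100 / om s.N ^ 2)

def SunStmt : Prop :=
  ∀ (K : Type) [Field K] [NumberField K], finrank ℚ K ≤ 3 → ∀ (u w : ℤ) (S : Finset ℕ) (𝓛 : ℝ),
    u ≠ 0 → w ≠ 0 → (∀ q ∈ S, q.Prime) → (u * w).natAbs.primeFactors ⊆ S → 1 ≤ 𝓛 → |(u : ℝ)| ≤ Real.exp 𝓛 →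
    |(w : ℝ)| ≤ Real.exp 𝓛 → ∃ S' : Finset (HOS K), S'.card ≤ 3 * S.card ∧
      ∏ v ∈ S', wt v ≤ ∏ q ∈ S, (6 * Real.log q) ^ 3 ∧ SU S' ((u : K) / w) ∧ Sz ((u : K) / w) (200 * 𝓛)

def LocQ (C : ℝ) : Prop :=
  ∀ (u w : ℤ) (S : Finset ℕ) (𝓛 : ℝ), u ≠ 0 → w ≠ 0 → u ≠ w → (∀ q ∈ S, q.Prime) →
    (u * w).natAbs.primeFactors ⊆ S → 3 ≤ 𝓛 → |(u : ℝ)| ≤ Real.exp 𝓛 → |(w : ℝ)| ≤ Real.exp 𝓛 →
    (bnd C S 1 1 𝓛 < 𝓛 → Real.exp (-bnd C S 1 1 𝓛) * |(w : ℝ)| ≤ |(u : ℝ) - w|) ∧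
    ∀ (p : ℕ) [Fact p.Prime], bnd C S 1 p 𝓛 < 𝓛 →
      Real.exp (-bnd C S 1 p 𝓛) * ‖(w : ℚ_[p])‖ ≤ ‖(u : ℚ_[p]) - w‖

def LocQStmt : Prop := ∃ C₀ : ℝ, ∀ C, C₀ ≤ C → LocQ C

def Quad (C : ℝ) : Prop :=
  ∀ (A B c : ℤ) (S : Finset ℕ) (𝓛 : ℝ), c = A ^ 2 - 4 * B → c ≠ 0 → B ≠ 0 →
    (∀ p : ℕ, p.Prime → ¬((p : ℤ) ^ 4 ∣ A ∧ (p : ℤ) ^ 8 ∣ B)) → (∀ q ∈ S, q.Prime) → B.natAbs.primeFactors ⊆ S →
    3 ≤ 𝓛 → |(A : ℝ)| + √|(c : ℝ)| ≤ Real.exp 𝓛 →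
    ∃ d : ℤ, d ≠ 0 ∧ (∀ p : ℕ, p.Prime → padicValInt p d ≤ 3 ∧ (p ≠ 2 → padicValInt p d ≤ padicValInt p c % 2)) ∧
      (bnd C S |d| 1 𝓛 < 𝓛 → Real.log (max ((A : ℝ) ^ 2) |(B : ℝ)|) ≤ Real.log |(c : ℝ)| + 2 * bnd C S |d| 1 𝓛 + 2) ∧
      ∀ p : ℕ, p.Prime → bnd C S |d| (kap p (padicValInt p c)) 𝓛 < 𝓛 →
        padicValInt p c * Real.log p ≤ 8 * Real.log p + 2 * bnd C S |d| (kap p (padicValInt p c)) 𝓛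

def QuadStmt : Prop := ∀ C : ℝ, 1 ≤ C → Szpiro98.Quad C → LocQ C → Quad C

def Loc (C : ℝ) (a b : ℤ) : Prop :=
  ∃ d c : ℤ, d ≠ 0 ∧ c ≠ 0 ∧ |(d : ℝ)| ≤ 6 ^ 15 * cond a b ∧
    (∀ p : ℕ, p.Prime → (p : ℤ) ∣ c → |(d : ℝ)| * kap p (padicValInt p c) ^ 2 ≤ 6 ^ 18 * cond a b) ∧
    c.natAbs.primeFactors ⊆ SS a b ∧
    (bnd C (SS a b) |d| 1 (LL a b) < LL a b →
      LL a b ≤ 6 * Real.log |(c : ℝ)| + 12 * bnd C (SS a b) |d| 1 (LL a b) + 100) ∧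
    ∀ p : ℕ, p.Prime → 30 < padicValInt p c →
      bnd C (SS a b) |d| (kap p (padicValInt p c)) (LL a b) < LL a b →
      padicValInt p c * Real.log p ≤ 30 * Real.log p + 2 * bnd C (SS a b) |d| (kap p (padicValInt p c)) (LL a b)

def RedStmt : Prop :=
  ∀ C : ℝ, 1 ≤ C → Quad C → ∀ a b e : ℤ, disc a b ≠ 0 → MinP a b → e ^ 3 - a * e - b = 0 → Loc C a b

def GlueStmt : Prop :=
  ∀ C : ℝ, 10 ≤ C → ∃ C' : ℝ, 1 ≤ C' ∧ ∀ a b : ℤ, disc a b ≠ 0 → Loc C a b →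
    LL a b ≤ ((SS a b).card + 1) * UU C' a b 1

theorem fin (lq : LocQStmt) (qs : QuadStmt) (red : RedStmt) (glue : GlueStmt) (ε : ℝ) (hε : 0 < ε) :
    ∃ C : ℝ, ∀ a b : ℤ, disc a b ≠ 0 → IsMinimalShort a b → (∃ x : ℚ, x ^ 3 - a * x - b = 0) →
      Real.log (max (|(a : ℝ)| ^ 3) ((b : ℝ) ^ 2)) ≤ C * (cond a b : ℝ) ^ (1 / 2 + ε) := by
  obtain ⟨C1, h1⟩ := locp'
  obtain ⟨C2, h2⟩ := loci'
  obtain ⟨C3, h3⟩ := lq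
  set C := max (max 10 C3) (max C1 C2)
  have c0 : 10 ≤ C := (le_max_left _ _).trans (le_max_left _ _)
  have q := qs C (by linarith) (quad C (by linarith) (h1 C ((le_max_left _ _).trans (le_max_right _ _)))
    (h2 C ((le_max_right _ _).trans (le_max_right _ _)))) (h3 C ((le_max_right _ _).trans (le_max_left _ _)))
  obtain ⟨C', c1, g⟩ := glue C c0
  obtain ⟨C'', s⟩ := sum C' c1 ε hε
  refine ⟨C'', fun a b hD hm ⟨x, hx⟩ => ?_⟩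
  obtain ⟨e, he⟩ : ∃ e : ℤ, e ^ 3 - a * e - b = 0 := by
    by_contra h
    exact IRR.no_rat (fun e he => h ⟨e, he⟩) x hx
  have := s a b 1 hD le_rfl (by exact_mod_cast GLUE.cond_pos a b)
    (g a b hD (red C (by linarith) q a b e hD (minP hD hm) he))
  unfold LL at this
  rw [Real.sqrt_one, mul_one] at this
  linarith

end Pool.Agent.Szpiro98.V3
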