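import Pool.Agent.Lib.Szpiro98.Blue2

/-! Block COORD2: integer coordinates on the group of `S`-units with logarithms. -/

namespace Pool.Agent.Szpiro98.V2

open Finset Module NumberField IsDedekindDomain NormedSpace

namespace Coord

open Pool.Agent.Szpiro98.Coord (integral_of_val log_le delta_le)

variable {F : Type} [NormedField F] {K : Type} [Field K] [NumberField K] (s : Setup F K)

lemma exists_L : ∃ L : IntermediateField ℚ Qb, FiniteDimensional ℚ L ∧ finrank ℚ L ≤ 18 ∧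
    (∀ ζ : Qb, ζ ^ s.q = 1 → ζ ∈ L) ∧ (∀ x, s.σ x ∈ L) ∧ ∀ x, s.τ x ∈ L := by
  have fr : ∀ σ : K →+* Qb, FiniteDimensional ℚ σ.toRatAlgHom.fieldRange ∧
      finrank ℚ σ.toRatAlgHom.fieldRange ≤ 3 := fun σ =>
    ⟨σ.toRatAlgHom.equivFieldRange.toLinearEquiv.finiteDimensional,
      σ.toRatAlgHom.equivFieldRange.toLinearEquiv.finrank_eq ▸ s.K3⟩
  have f1 := (fr s.σ).1
  have f2 := (fr s.τ).1
  obtain ⟨r, hr⟩ := IsAlgClosed.exists_pow_nat_eq (-3 : Qb) two_pos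
  obtain ⟨L, fL, le, dL, hL⟩ := exists_tower two_pos (s.σ.toRatAlgHom.fieldRange ⊔ s.τ.toRatAlgHom.fieldRange) {r}
    (fun x hx => by
      rw [mem_singleton.1 hx, hr]
      exact neg_mem (ofNat_mem _ 3))
  have rL := hL r (mem_singleton_self r)
  refine ⟨L, fL, dL.trans ?_, fun ζ hζ => ?_, fun x => le (le_sup_left (a := s.σ.toRatAlgHom.fieldRange) ⟨x, rfl⟩),
    fun x => le (le_sup_right (b := s.τ.toRatAlgHom.fieldRange) ⟨x, rfl⟩)⟩
  · have := (IntermediateField.finrank_sup_le s.σ.toRatAlgHom.fieldRange s.τ.toRatAlgHom.fieldRange).trans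
      (Nat.mul_le_mul (fr s.σ).2 (fr s.τ).2)
    rw [card_singleton]; omega
  · have h2 := s.hq.two_le
    have h3 := s.q3
    rcases (by omega : s.q = 2 ∨ s.q = 3) with h | h <;> rw [h] at hζ
    · rcases sq_eq_one_iff.1 hζ with k | k <;> simp [k]
    · have e : (ζ - 1) * ((2 * ζ + 1 - r) * (2 * ζ + 1 + r)) = 0 := by
        linear_combination 4 * hζ - (ζ - 1) * hr
      have two : (2 : Qb) ∈ L := ofNat_mem _ 2
      rcases mul_eq_zero.1 e with k | k
      · rw [sub_eq_zero.1 k]; exact one_mem _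
      rcases mul_eq_zero.1 k with k | k
      · rw [show ζ = (r - 1) / 2 by linear_combination k / 2]
        exact div_mem (sub_mem rL (one_mem _)) two
      · rw [show ζ = (-r - 1) / 2 by linear_combination k / 2]
        exact div_mem (sub_mem (neg_mem rL) (one_mem _)) two

/-- A unit with a small logarithm is `±1`. -/
lemma key {u : K} {t : F} (u0 : u ≠ 0) (h : ∀ v : HOS K, v.valuation K u = 1) (w0 : InfinitePlace K)
    (hw : ∀ w, w ≠ w0 → |Real.log (w u)| ≤ Real.exp (-100)) (ht : t ∈ s.D')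
    (hψ : s.e ≠ 0 → |s.ψ t| ≤ Real.exp (-100)) (hL : s.Lg u t) : t = 0 ∧ (u = 1 ∨ u = -1) := by
  obtain ⟨L, fL, dL, -, hσ, hτ⟩ := exists_L s
  set δ := Real.exp (-100) with hδ
  have δ0 : 0 < δ := Real.exp_pos _
  have δ1 := delta_le
  rw [← hδ] at δ1
  have δ2 : δ ≤ 1 / 1000 := by nlinarith
  have lg := log_le u0 h s.K3 w0 δ0.le hw
  have E1 : 1 ≤ Real.exp (3 * δ) := Real.one_le_exp (by positivity)
  have E2 : Real.exp (3 * δ) ≤ 3 / 2 := by
    have := Real.abs_exp_sub_one_le (x := 3 * δ) (by rw [abs_of_pos (by positivity)]; linarith)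
    rw [abs_of_pos (by positivity : 0 < 3 * δ)] at this
    linarith [le_abs_self (Real.exp (3 * δ) - 1)]
  have k1 : Hk u (Real.exp (3 * δ)) := ⟨integral_of_val h, fun φ => by
    rw [← InfinitePlace.apply, ← Real.log_le_iff_le_exp (InfinitePlace.pos_iff.2 u0)]
    exact (abs_le.1 (lg _)).2⟩
  have k2 : Hk u⁻¹ (Real.exp (3 * δ)) := ⟨integral_of_val fun v => by rw [map_inv₀, h v, inv_one], fun φ => by
    rw [← InfinitePlace.apply, ← Real.log_le_iff_le_exp (InfinitePlace.pos_iff.2 (inv_ne_zero u0)), map_inv₀,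
      Real.log_inv]
    linarith [(abs_le.1 (lg (InfinitePlace.mk φ))).1]⟩
  have b : ∀ σ : K →+* Qb, 0 < ‖s.ι (σ u)‖ ∧ |Real.log ‖s.ι (σ u)‖| ≤ 3 * δ ∧ ‖s.ι (σ u)‖ ≤ 3 / 2 := fun σ => by
    have p : 0 < ‖s.ι (σ u)‖ := norm_pos_iff.2 (by simpa using u0)
    have a1 := s.hι _ _ E1 (k1.hs σ)
    have a2 := s.hι _ _ E1 (k2.hs σ)
    rw [map_inv₀, map_inv₀, norm_inv, ← Real.log_le_iff_le_exp (inv_pos.2 p), Real.log_inv] at a2
    exact ⟨p, abs_le.2 ⟨by linarith, (Real.log_le_iff_le_exp p).2 a1⟩, a1.trans E2⟩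
  have hL' : exp t * s.ι (s.τ u) = s.ι (s.σ u) := hL
  have τ0 : s.ι (s.τ u) ≠ 0 := norm_pos_iff.1 (b s.τ).1
  have t1 : ‖t‖ ≤ 7 * δ := s.hd t ht hψ (by
    rw [eq_div_of_mul_eq τ0 hL', norm_div, Real.log_div (b s.σ).1.ne' (b s.τ).1.ne']
    have := abs_sub (Real.log ‖s.ι (s.σ u)‖) (Real.log ‖s.ι (s.τ u)‖)
    linarith [(b s.σ).2.1, (b s.τ).2.1])
  have nr := s.an.near t (by linarith)
  have st : s.σ u = s.τ u := by
    by_contra ne
    have := liou s.ι s.hι s.an.int_ge (sub_ne_zero.2 ne) (((k1.hs s.σ).sub (k1.hs s.τ)).mono (N := 3) (by linarith))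
      (by norm_num) one_pos (L := L) (by rw [pow_one]; exact sub_mem (hσ u) (hτ u)) dL
    rw [map_sub, ← hL', ← sub_one_mul, norm_mul] at this
    have e1 : ‖exp t - 1‖ ≤ 21 / 2 * δ := by
      have := norm_add_le (exp t - 1 - t) t
      rw [sub_add_cancel] at this
      linarith
    have e2 : ‖exp t - 1‖ * ‖s.ι (s.τ u)‖ ≤ 21 / 2 * δ * (3 / 2) :=
      mul_le_mul e1 (b s.τ).2.2 (norm_nonneg _) (by positivity)
    norm_num at this δ1
    nlinarith
  obtain ⟨r, rfl⟩ := eq_rat s.hK s.ne st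
  refine ⟨?_, ?_⟩
  · rw [st] at hL'
    rw [mul_left_eq_self₀.1 hL' |>.resolve_right τ0, sub_self, zero_sub, norm_neg] at nr
    exact norm_le_zero_iff.1 (by linarith)
  · rcases s.hS r ⟨u0, fun v _ => h v⟩ with k | k <;> simp [k]

/-- Pairs of an `S`-unit and a logarithm of it. -/
def G : AddSubgroup (Additive Kˣ × F) where
  carrier := {x | SU s.S (x.1.toMul : K) ∧ x.2 ∈ s.D' ∧ s.Lg (x.1.toMul : K) x.2}
  zero_mem' := by
    refine ⟨⟨by simp, fun v _ => by simp⟩, zero_mem _, ?_⟩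
    simp [Setup.Lg]
  add_mem' := by
    rintro ⟨u, t⟩ ⟨u', t'⟩ ⟨a1, a2, a3⟩ ⟨b1, b2, b3⟩
    refine ⟨⟨Units.ne_zero _, fun v hv => ?_⟩, add_mem a2 b2, ?_⟩
    · have := a1.2 v hv
      have := b1.2 v hv
      simp_all
    · simp only [Setup.Lg, Prod.fst_add, Prod.snd_add, toMul_add, Units.val_mul, map_mul] at a3 b3 ⊢
      rw [s.an.add _ (s.le a2) _ (s.le b2), ← a3, ← b3]; ring
  neg_mem' := by
    rintro ⟨u, t⟩ ⟨a1, a2, a3⟩
    refine ⟨⟨Units.ne_zero _, fun v hv => ?_⟩, neg_mem a2, ?_⟩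
    · have := a1.2 v hv
      simp_all
    · have e := s.an.add _ (s.le a2) _ (s.le (neg_mem a2))
      have e0 := s.an.near 0 (by simp)
      simp only [norm_zero, zero_div, norm_le_zero_iff, sub_zero, sub_eq_zero] at e0
      simp only [Setup.Lg, Prod.fst_neg, Prod.snd_neg, toMul_neg, Units.val_inv_eq_inv_val, map_inv₀] at a3 e ⊢
      rw [add_neg_cancel, e0] at e
      rw [← a3, mul_inv, ← eq_inv_of_mul_eq_one_right e.symm]

open scoped Classical

abbrev V (w0 : InfinitePlace K) : Type := (s.S → ℝ) × ({w : InfinitePlace K // w ≠ w0} → ℝ) × (Fin s.e → ℝ)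

noncomputable def phi (w0 : InfinitePlace K) : G s →+ V s w0 :=
  AddMonoidHom.mk' (fun x => (fun v => ((WithZero.log (v.1.valuation K (x.1.1.toMul : K)) : ℤ) : ℝ),
    fun w => Real.log (w.1 (x.1.1.toMul : K)), fun _ => s.ψ x.1.2)) (by
      rintro ⟨⟨u, t⟩, -⟩ ⟨⟨u', t'⟩, -⟩
      refine Prod.ext (funext fun v => ?_) (Prod.ext (funext fun w => ?_) (funext fun k => ?_))
      · simp [WithZero.log_mul]
      · have p : ∀ u : Kˣ, w.1 (u : K) ≠ 0 := fun u => (InfinitePlace.pos_iff.2 u.ne_zero).ne'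
        simp [Real.log_mul (p _) (p _)]
      · simp)

lemma finrank_V (w0 : InfinitePlace K) : finrank ℝ (V s w0) + 1 = s.R := by
  rw [s.hR, rk]
  simp [Module.finrank_prod, Fintype.card_subtype_compl, add_assoc]

lemma phi_le (w0 : InfinitePlace K) (x : G s) {B : ℝ} (B0 : 0 ≤ B) (h1 : Sz (x.1.1.toMul : K) B)
    (h2 : |s.ψ x.1.2| ≤ B) : ‖phi s w0 x‖ ≤ B := by
  rw [Prod.norm_def, Prod.norm_def, max_le_iff, max_le_iff, pi_norm_le_iff_of_nonneg B0,
    pi_norm_le_iff_of_nonneg B0, pi_norm_le_iff_of_nonneg B0]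
  exact ⟨fun v => h1.1 v, fun w => h1.2 w, fun _ => h2⟩

lemma phi_small (w0 : InfinitePlace K) (x : G s) (h : ‖phi s w0 x‖ < Real.exp (-100)) :
    x.1.2 = 0 ∧ phi s w0 x = 0 := by
  obtain ⟨⟨u, t⟩, a1, a2, a3⟩ := x
  have δ0 := Real.exp_pos (-100)
  rw [Prod.norm_def, Prod.norm_def, max_lt_iff, max_lt_iff, pi_norm_lt_iff δ0, pi_norm_lt_iff δ0,
    pi_norm_lt_iff δ0] at h
  obtain ⟨h1, h2, h3⟩ := h
  have hv : ∀ v : HOS K, v.valuation K (u.toMul : K) = 1 := fun v => by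
    by_cases k : v ∈ s.S
    swap
    · exact a1.2 v k
    have b : |((WithZero.log (v.valuation K (u.toMul : K)) : ℤ) : ℝ)| < 1 :=
      (h1 ⟨v, k⟩).trans_le (Real.exp_le_one_iff.2 (by norm_num))
    have b : WithZero.log (v.valuation K (u.toMul : K)) = 0 := Int.abs_lt_one_iff.1 (by exact_mod_cast b)
    rw [← WithZero.exp_log (x := v.valuation K (u.toMul : K)) (by simp), b, WithZero.exp_zero]
  obtain ⟨t0, hu⟩ := key s (Units.ne_zero _) hv w0 (fun w hw => (h2 ⟨w, hw⟩).le) a2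
    (fun e => (h3 ⟨0, Nat.pos_of_ne_zero e⟩).le) a3
  refine ⟨t0, Prod.ext (funext fun v => ?_) (Prod.ext (funext fun w => ?_) (funext fun k => ?_))⟩
  · simp [phi, hv]
  · have m : w.1 (-1) = 1 := by rw [← InfinitePlace.norm_embedding_eq]; simp
    rcases hu with k | k <;> simp [phi, k, m]
  · simp only at t0
    simp [phi, t0]

lemma coords : ∃ c : Fin (s.R - 1) → F, ∀ (u : K) (t : F) (B : ℝ), 0 ≤ B → SU s.S u → t ∈ s.D' →
    s.Lg u t → Sz u B → |s.ψ t| ≤ B → ∃ a : Fin (s.R - 1) → ℤ, t = ∑ k, c k * a k ∧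
      ∀ k, |(a k : ℝ)| ≤ Real.exp (3 * s.R ^ 2 + 100) * B := by
  obtain ⟨w0⟩ : Nonempty (InfinitePlace K) := inferInstance
  have fr := finrank_V s w0
  obtain ⟨y, hy⟩ := lat (s.R - 1) (V s w0) (by omega) (G s) (phi s w0) _ (Real.exp_pos (-100))
    fun x hx => (phi_small s w0 x hx).2
  refine ⟨fun k => (y k).1.2, fun u t B B0 a1 a2 a3 a4 a5 => ?_⟩
  set x : G s := ⟨(Additive.ofMul (Units.mk0 u a1.1), t), a1, a2, a3⟩ with hx
  obtain ⟨a, e, ha⟩ := hy x
  refine ⟨a, ?_, fun k => ?_⟩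
  · have := (phi_small s w0 (x - ∑ k, a k • y k) (by
      rw [map_sub, map_sum]
      simp only [map_zsmul]
      rw [← e, sub_self, norm_zero]; exact Real.exp_pos _)).1
    simp only [AddSubgroupClass.coe_sub, AddSubmonoidClass.coe_finsetSum, AddSubgroupClass.coe_zsmul, Prod.snd_sub,
      Prod.snd_sum, Prod.smul_snd, zsmul_eq_mul, sub_eq_zero] at this
    exact this.trans (sum_congr rfl fun k _ => mul_comm _ _)
  · have b := (ha k).trans (mul_le_mul_of_nonneg_left (phi_le s w0 x B0 a4 a5) (Real.exp_pos _).le)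
    rw [Real.exp_neg, ← div_eq_mul_inv, div_le_iff₀ (Real.exp_pos _), mul_right_comm, ← Real.exp_add] at b
    refine b.trans (mul_le_mul_of_nonneg_right (Real.exp_le_exp.2 ?_) B0)
    have : ((s.R - 1 : ℕ) : ℝ) ≤ s.R := by exact_mod_cast Nat.sub_le _ _
    have := pow_le_pow_left₀ (Nat.cast_nonneg _) this 2
    linarith

end Coord

theorem coord (h1 : CoreStmt) : CoordStmt := by
  intro F _ _ K _ _ s κ I γ t M J A0 B β tb M0 B1 hI hII inj hc hA b1 b2 b3 b4 b5 b6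
  classical
  obtain ⟨L, fL, dL, hζ, hσ, hτ⟩ := Coord.exists_L s
  obtain ⟨c, hcc⟩ := Coord.coords s
  have B0 : 0 ≤ B := by linarith
  obtain ⟨b, eb, hb⟩ := hcc β tb B B0 b1 b4 b5 b2 b3
  have b0 : b ≠ 0 := by
    rintro rfl
    exact b6 (by simpa using eb)
  have q0 : (0 : ℝ) < 2 * s.q ^ J := by have := s.hq.pos; positivity
  have X1 : 1 ≤ Real.exp (3 * s.R ^ 2 + 100) * B :=
    one_le_mul_of_one_le_of_one_le (Real.one_le_exp (by positivity)) B1
  have A1 : (0 : ℝ) < A0 := by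
    have := Real.log_pos (x := 2 * (Real.exp (3 * s.R ^ 2 + 100) * B) ^ 2) (by nlinarith)
    linarith
  have ne : I.Nonempty := by
    rw [← card_pos, ← Nat.cast_pos (α := ℝ)]
    exact (mul_pos_iff_of_pos_right q0).1 (lt_of_lt_of_le (by positivity) hc)
  obtain ⟨i0, hi0⟩ := ne
  have ex : ∀ i, ∃ a : Fin (s.R - 1) → ℤ, i ∈ I → t i - t i0 = ∑ k, c k * a k ∧
      ∀ k, |(a k : ℝ)| ≤ Real.exp (3 * s.R ^ 2 + 100) * B := fun i => by
    by_cases hi : i ∈ I
    · obtain ⟨a1, a2, a3, a4, -⟩ := hII i hi i0 hi0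
      obtain ⟨a, ha⟩ := hcc _ _ B B0 a1 (sub_mem (hI i hi).2.1 (hI i0 hi0).2.1) a4 a2 a3
      exact ⟨a, fun _ => ha⟩
    · exact ⟨0, fun h => absurd h hi⟩
  choose μ hμ using ex
  have N1 : s.R - 1 ≤ s.R := Nat.sub_le _ _
  generalize s.R - 1 = n at c b μ eb hb b0 hμ hc N1
  cases n with
  | zero => exact absurd (Subsingleton.elim _ _) b0
  | succ m =>
    rw [eb]
    refine h1 F s.q s.R s.N s.W s.Dom s.hq s.q3 s.an s.ι s.hι L dL hζ m κ I μ b c
      (fun i => s.σ (γ i) * s.τ (M / γ i)) _ J A0 N1 s.RN b0 hb (fun i hi => (hμ i hi).2) hA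
      (fun i hi => ⟨mul_mem (hσ _) (hτ _), ?_, (hI i hi).2.2⟩) (fun i hi j hj e => inj hi hj ?_)
      (fun i hi j hj => ?_) ?_
    · have := (hI i hi).1
      simpa [this] using M0.ne'
    · simp only at e
      rw [← (hμ i hi).1, ← (hμ j hj).1] at e
      exact sub_left_injective e
    · rw [← (hμ i hi).1, ← (hμ j hj).1, sub_sub_sub_cancel_right]
      obtain ⟨-, -, -, a4, a5⟩ := hII i hi j hj
      refine ⟨?_, a5⟩
      have a4 : exp (t i - t j) * s.ι (s.τ (γ i / γ j)) = s.ι (s.σ (γ i / γ j)) := a4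
      have n1 : ∀ σ : K →+* Qb, s.ι (σ (γ i)) ≠ 0 := fun σ => by simpa using (hI i hi).1
      have n2 : ∀ σ : K →+* Qb, s.ι (σ (γ j)) ≠ 0 := fun σ => by simpa using (hI j hj).1
      have := n1 s.σ
      have := n1 s.τ
      have := n2 s.σ
      have := n2 s.τ
      simp only [map_div₀, map_mul] at a4 ⊢
      rw [eq_div_of_mul_eq (div_ne_zero (n1 s.τ) (n2 s.τ)) a4]
      field_simp
    · rw [pow_succ, ← mul_assoc] at hc
      exact le_of_mul_le_mul_right hc q0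

end Pool.Agent.Szpiro98.V2
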