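import Pool.Agent.Lib.Szpiro98.CoreC

namespace Pool.Agent.Szpiro98

open Finset Module NormedSpace Core

lemma Core.mon_le {m T : ℕ} {l : Fin m → ℤ} {Y : ℝ} (Y1 : 1 ≤ Y) (h : ∀ k, |(l k : ℝ)| ≤ Y) {α : Fin m → ℕ}
    (hα : ∑ k, α k ≤ T) : |(mon l α : ℝ)| ≤ Y ^ T := by
  simp only [mon, Int.cast_prod, Int.cast_pow, abs_prod, abs_pow]
  refine (prod_le_prod (fun _ _ => by positivity) fun k _ => pow_le_pow_left₀ (abs_nonneg _) (h k) _).trans ?_
  rw [prod_pow_eq_pow_sum]; exact pow_le_pow_right₀ Y1 hα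

lemma Core.start {q N m τ A : ℕ} (q1 : 1 ≤ q) (q3 : q ≤ 3) (mN : m + 1 ≤ N) (τ1 : 1 ≤ τ) (A1 : 1 ≤ A)
    (L : IntermediateField ℚ Qb) [FiniteDimensional ℚ L] (hL : finrank ℚ L ≤ 18) {κ : Type} (I : Finset κ)
    (lam : κ → Fin m → ℤ) (z : κ → Qb) {Y : ℝ} (Y1 : 1 ≤ Y) (hY : 3 * Real.log Y ≤ A)
    (hl : ∀ i ∈ I, ∀ k, |(lam i k : ℝ)| ≤ Y) (hz : ∀ i ∈ I, z i ∈ L ∧ Hs (z i) (Real.exp (N * τ)))
    (hc : 72 * A * Real.exp (6 * N) * (2 * τ) ^ m ≤ I.card) :
    ∃ I' ⊆ I, ∃ p : κ → ℤ, (∃ i ∈ I', p i ≠ 0) ∧ Van q p lam I' z (2 * (2 * N + 1) * τ) A ∧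
      ∀ α : Fin m → ℕ, ∑ k, α k ≤ 2 * (2 * N + 1) * τ →
        ∑ i ∈ I', |((p i * mon (lam i) α : ℤ) : ℝ)| ≤ Real.exp (40 * (N * (A * τ))) := by
  classical
  set T := 2 * (2 * N + 1) * τ with hT
  have n1 : (1 : ℝ) ≤ N := by exact_mod_cast (by omega : 1 ≤ N)
  have t1 : (1 : ℝ) ≤ τ := by exact_mod_cast τ1
  have a1 : (1 : ℝ) ≤ A := by exact_mod_cast A1
  set B : ℝ := N * (A * τ) with hB
  have T6 : T ≤ 6 * N * τ := Nat.mul_le_mul_right _ (by omega)
  have cm := card_mons (m := m) τ1 T6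
  have c1 : ((72 * ((mons m T).card * A) : ℕ) : ℝ) ≤ 72 * A * Real.exp (6 * N) * (2 * τ) ^ m := by
    push_cast at cm ⊢; nlinarith
  obtain ⟨I', s, hI⟩ := exists_subset_card_eq (s := I) (n := 72 * ((mons m T).card * A)) (by exact_mod_cast c1.trans hc)
  have : Nonempty I' := (card_pos.1 (by
    have := card_pos.2 ⟨_, mem_mons (m := m) (T := T) (α := 0) (by simp)⟩
    rw [hI]; positivity)).to_subtype
  have at1 : 1 ≤ A * (τ : ℝ) := one_le_mul_of_one_le_of_one_le a1 t1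
  have b1 : N ≤ B := le_mul_of_one_le_right (by positivity) at1
  have b2 : A ≤ B := (le_mul_of_one_le_right (by positivity) t1).trans (le_mul_of_one_le_left (by positivity) n1)
  have b3 : N * τ ≤ B := by rw [hB]; gcongr; exact le_mul_of_one_le_left (by positivity) a1
  have y1 : Y ^ T ≤ Real.exp (2 * B) := by
    rw [← Real.exp_log (by linarith : 0 < Y), ← Real.exp_nat_mul, Real.exp_le_exp]
    have : (T : ℝ) ≤ 6 * N * τ := by exact_mod_cast T6
    have := mul_le_mul this hY (by linarith [Real.log_nonneg Y1]) (by positivity)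
    linarith
  have c2 : (I'.card : ℝ) ≤ Real.exp (13 * B) := by
    have e1 : (72 : ℝ) ≤ Real.exp (5 * B) :=
      calc (72 : ℝ) ≤ Real.exp 1 ^ 5 := le_trans (by norm_num) (pow_le_pow_left₀ (by norm_num) Real.exp_one_gt_d9.le 5)
        _ ≤ _ := by rw [← Real.exp_nat_mul, Real.exp_le_exp]; push_cast; linarith
    have e2 : (A : ℝ) ≤ Real.exp B := by linarith [Real.add_one_le_exp B]
    have e3 : (2 * τ : ℝ) ^ m ≤ Real.exp B := by
      refine (pow_le_pow_left₀ (by positivity) Real.two_mul_le_exp _).trans ?_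
      rw [← Real.exp_nat_mul, Real.exp_le_exp]
      refine le_trans ?_ b3
      gcongr; omega
    calc _ ≤ _ := hI ▸ c1
      _ ≤ Real.exp (5 * B) * Real.exp B * Real.exp (6 * B) * Real.exp B := by gcongr
      _ = _ := by simp only [← Real.exp_add]; ring_nf
  obtain ⟨p, p0, p1, p2⟩ := siegel (E := mons m T × Fin A) (I := I') L hL
    (fun e i => mon (lam i) e.1 * z i ^ (q * e.2 + 1))
    (fun e i => mul_mem (intCast_mem _ _) (pow_mem (hz i (s i.2)).1 _)) (A := Real.exp (5 * B))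
    (Real.one_le_exp (by positivity)) (fun e i => ((Hs.int _).mul ((hz i (s i.2)).2.pow _)).mono (by
      have h1 := (mon_le Y1 (hl i (s i.2)) (mem_filter.1 e.1.2).2).trans y1
      have h2 : ((q * e.2 + 1 : ℕ) : ℝ) ≤ 3 * A := by
        have := e.2.2
        exact_mod_cast (by nlinarith : q * e.2 + 1 ≤ 3 * A)
      have h3 := mul_le_mul_of_nonneg_right h2 (by positivity : (0 : ℝ) ≤ N * τ)
      rw [← Real.exp_nat_mul, show 5 * B = 2 * B + 3 * B by ring, Real.exp_add]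
      exact mul_le_mul h1 (Real.exp_le_exp.2 (by linarith)) (by positivity) (by positivity))) (by simp [hI])
  refine ⟨I', s, fun i => if h : i ∈ I' then p ⟨i, h⟩ else 0, ?_, fun α hα a ha => ?_, fun α hα => ?_⟩
  · obtain ⟨i, hi⟩ := Function.ne_iff.1 p0
    exact ⟨i, i.2, by simpa using hi⟩
  · rw [← p2 (⟨α, mem_mons hα⟩, ⟨a, ha⟩), ← sum_coe_sort]
    exact sum_congr rfl fun i _ => by simp [mul_assoc]
  · have e1 : (8 : ℝ) ≤ Real.exp (7 * B) := by linarith [Real.add_one_le_exp (7 * B)]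
    rw [Fintype.card_coe] at p1
    calc _ ≤ ∑ _i ∈ I', 8 * I'.card * Real.exp (5 * B) * Real.exp (2 * B) := sum_le_sum fun i hi => by
          simp only [dif_pos hi, Int.cast_mul, abs_mul]
          exact mul_le_mul (p1 _) ((mon_le Y1 (hl i (s hi)) hα).trans y1) (abs_nonneg _) (by positivity)
      _ ≤ Real.exp (13 * B) * (Real.exp (7 * B) * Real.exp (13 * B) * Real.exp (5 * B) * Real.exp (2 * B)) := by
          rw [sum_const, nsmul_eq_mul]; gcongr
      _ = _ := by simp only [← Real.exp_add]; ring_nf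

theorem core : CoreStmt := by
  intro F _ _ q N W Dom hq q3 an ι hι L _ hL hμ m κ I μ b c z X J A0 mN b0 bX μX hA hz inj hr hc
  obtain ⟨k0, hk⟩ := Function.ne_iff.1 b0
  have hk : b k0 ≠ 0 := hk
  have X1 : 1 ≤ X := le_trans (by exact_mod_cast Int.one_le_abs hk) (bX k0)
  have Y2 : 2 ≤ 2 * X ^ 2 := by nlinarith
  have A1 : 1 ≤ A0 := by
    have := Real.log_pos (by linarith : 1 < 2 * X ^ 2)
    exact_mod_cast (by linarith : (0 : ℝ) < A0)
  have N1 : 1 ≤ N := by omega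
  have q0 : (q : F) ≠ 0 := by exact_mod_cast hq.ne_zero
  have b1 : (b k0 : F) ≠ 0 := by exact_mod_cast hk
  have τ1 : ∀ j, 1 ≤ q ^ j := fun j => Nat.pow_pos hq.pos
  set lam : κ → Fin m → ℤ := fun i k => b k0 * μ i (k0.succAbove k) - b (k0.succAbove k) * μ i k0 with hlam
  obtain ⟨I0, s0, p, p0, V, hE⟩ := Core.start hq.pos q3 mN (τ1 J) A1 L hL I lam z (Y := 2 * X ^ 2) (by linarith) hA
    (fun i hi k => by
      have a1 := mul_le_mul (bX k0) (μX i hi (k0.succAbove k)) (abs_nonneg _) (by linarith)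
      have a2 := mul_le_mul (bX (k0.succAbove k)) (μX i hi k0) (abs_nonneg _) (by linarith)
      simp only [hlam, Int.cast_sub, Int.cast_mul]
      refine (abs_sub _ _).trans ?_
      rw [abs_mul, abs_mul]; linarith)
    (fun i hi => ⟨(hz i hi).1, by simpa using (hz i hi).2.2⟩) (by simpa using hc)
  by_contra hΛ
  set Λ := ∑ k, c k * b k with hl
  set Z := 4 ^ N * A0 * q ^ J with hZ
  have z1 : q ^ J ≤ Z := Nat.le_mul_of_pos_left _ (by positivity)
  have z2 : A0 ≤ Z := (Nat.le_mul_of_pos_left _ (by positivity)).trans (Nat.le_mul_of_pos_right _ (τ1 J))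
  have z3 : (1 : ℝ) ≤ Z := by exact_mod_cast A1.trans z2
  have hδ : q ^ J * (2 * X ^ 2 * ‖Λ‖) * (24 * Z) ^ (Z + 1) ≤ om N ^ Z := by
    have l0 : 0 ≤ Real.log (24 * Z) := Real.log_nonneg (by linarith)
    have a1 : (q : ℝ) ^ J ≤ Real.exp (Real.log (24 * Z)) := by
      rw [Real.exp_log (by linarith)]
      have : (q : ℝ) ^ J ≤ Z := by exact_mod_cast z1
      linarith
    have a2 : 2 * X ^ 2 ≤ Real.exp Z := by
      have : (A0 : ℝ) ≤ Z := by exact_mod_cast z2
      have := Real.log_pos (by linarith : 1 < 2 * X ^ 2)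
      rw [← Real.log_le_iff_le_exp (by linarith)]; linarith
    have a3 : ‖Λ‖ ≤ Real.exp (-(Z * (2001 * N + 3 * Real.log (24 * Z)))) := by
      have := (not_le.1 hΛ).le
      simpa [cb, hZ] using this
    have n1 : (1 : ℝ) ≤ N := by exact_mod_cast N1
    calc _ ≤ Real.exp (Real.log (24 * Z)) * (Real.exp Z * Real.exp (-(Z * (2001 * N + 3 * Real.log (24 * Z))))) *
          Real.exp (Real.log (24 * Z)) ^ (Z + 1) := by gcongr; rw [Real.exp_log (by linarith)]
      _ ≤ _ := by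
          simp only [om, ← Real.exp_nat_mul, ← Real.exp_add, Real.exp_le_exp]
          push_cast; nlinarith
  have hu : ∀ j ≤ J, ∀ i ∈ I, ∀ i' ∈ I, ‖lf (fun k => c k / q ^ j) (μ i) - lf (fun k => c k / q ^ j) (μ i') -
      (∑ k, c (k0.succAbove k) / b k0 / q ^ j * lam i k - ∑ k, c (k0.succAbove k) / b k0 / q ^ j * lam i' k)‖ ≤
        q ^ J * (2 * X ^ 2 * ‖Λ‖) := fun j hj i hi i' hi' => by
    have e : ∀ i, ∑ k, c (k0.succAbove k) / b k0 / q ^ j * lam i k = (lf c (μ i) - μ i k0 * Λ / b k0) / q ^ j :=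
      fun i => by
        simp only [lf, hl, hlam, Fin.sum_univ_succAbove _ k0, eq_div_iff (pow_ne_zero j q0), sum_mul]
        rw [mul_add, add_div, mul_sum, sum_div, add_sub_add_comm, ← sum_sub_distrib,
          show c k0 * μ i k0 - μ i k0 * (c k0 * b k0) / b k0 = 0 by field_simp; ring, zero_add]
        exact sum_congr rfl fun _ _ => by push_cast; field_simp
    have iv : ∀ n : ℤ, n ≠ 0 → ‖(n : F)⁻¹‖ ≤ |(n : ℝ)| := fun n h => by
      rw [norm_inv, inv_le_iff_one_le_mul₀ (norm_pos_iff.2 (by exact_mod_cast h))]; exact an.int_ge n h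
    have a1 : ‖((q : F) ^ j)⁻¹‖ ≤ q ^ J := by
      have := iv (q ^ j) (pow_ne_zero _ (by exact_mod_cast hq.ne_zero))
      push_cast at this
      rw [abs_of_nonneg (by positivity)] at this
      exact this.trans (pow_le_pow_right₀ (by exact_mod_cast hq.pos) hj)
    have a2 := (iv _ hk).trans (bX k0)
    have a3 : ‖((μ i k0 - μ i' k0 : ℤ) : F)‖ ≤ 2 * X := (an.int_le _).trans (by
      push_cast; linarith [abs_sub (μ i k0 : ℝ) (μ i' k0), μX i hi k0, μX i' hi' k0])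
    rw [lf_div, lf_div, e, e, show lf c (μ i) / q ^ j - lf c (μ i') / q ^ j - ((lf c (μ i) - μ i k0 * Λ / b k0) / q ^ j -
      (lf c (μ i') - μ i' k0 * Λ / b k0) / q ^ j) = ((q : F) ^ j)⁻¹ * ((μ i k0 - μ i' k0 : ℤ) * (b k0 : F)⁻¹ * Λ) by
        push_cast; ring, norm_mul, norm_mul, norm_mul, show 2 * X ^ 2 = 2 * X * X by ring]
    gcongr
  have main : ∀ j ≤ J, ∃ I' ⊆ I0, ∃ z',
      St q N W ι L p lam μ I' z' (fun k => c k / q ^ j) (q ^ (J - j)) (q ^ j * A0) (q ^ j) := by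
    intro j
    induction j with
    | zero =>
      refine fun _ => ⟨I0, Subset.rfl, z, p0, fun i hi => ?_, fun i hi j hj => ?_, by simpa using V⟩
      · simpa using ⟨(hz i (s0 hi)).2.1, (hz i (s0 hi)).2.2, (hz i (s0 hi)).1⟩
      · simpa [lf] using ⟨div_mem (hz i (s0 hi)).1 (hz j (s0 hj)).1, hr i (s0 hi) j (s0 hj)⟩
    | succ j ih =>
      intro hj
      obtain ⟨I', s, z', S⟩ := ih (by omega)
      have e : q ^ (J - j) = q * q ^ (J - (j + 1)) := by rw [← pow_succ']; congr 1; omega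
      have e2 : q ^ j * A0 * q ^ (J - j) = A0 * q ^ J := by
        rw [mul_comm _ A0, mul_assoc, ← pow_add]; congr 2; omega
      rw [e] at S
      obtain ⟨I'', s', z'', S'⟩ := step an hι hq q3 N1 hL hμ mN (τ1 _) (Nat.mul_pos (τ1 j) A1) (τ1 j) S
        (fun i hi i' hi' => hu j (by omega) i (s0 (s hi)) i' (s0 (s hi'))) (Z := Z)
        (by rw [← e, mul_assoc, e2, hZ, mul_assoc]) hδ fun α hα => by
          rw [← e] at hα ⊢
          rw [← Nat.cast_mul, e2, Nat.cast_mul]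
          exact (sum_le_sum_of_subset_of_nonneg s fun _ _ _ => abs_nonneg _).trans (hE α (hα.trans
            (Nat.mul_le_mul_left _ (Nat.pow_le_pow_right hq.pos (by omega)))))
      refine ⟨I'', s'.trans s, z'', ?_⟩
      simpa only [pow_succ, div_div, mul_comm q, mul_right_comm _ A0 q] using S'
  obtain ⟨I', s, z', S⟩ := main J le_rfl
  rw [Nat.sub_self, pow_zero] at S
  refine last an hι N1 hL (Nat.mul_pos (τ1 J) A1) (τ1 J) S fun i hi j hj h => inj (s0 (s hi)) (s0 (s hj)) ?_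
  simp only [lf_div] at h
  exact (div_left_inj' (pow_ne_zero J q0)).1 h

end Pool.Agent.Szpiro98
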