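import Pool.Agent.Lib.Szpiro98.Blue

namespace Pool.Agent.Szpiro98.Core

open Finset Module NormedSpace

lemma exists_root {F : Type} [Field F] (ι : Qb →+* F) {q : ℕ} (q0 : 0 < q) {w : F} {y : Qb} (h : w ^ q = ι y) :
    ∃ y', ι y' = w ∧ y' ^ q = y := by
  obtain ⟨y', h'⟩ := (IsAlgClosed.splits (Polynomial.X ^ q - Polynomial.C y)).mem_range_of_isRoot
    (Polynomial.X_pow_sub_C_ne_zero q0 y) (i := ι) (x := w) (by simp [h])
  exact ⟨y', h', ι.injective (by rw [map_pow, h', h])⟩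

section
variable {F : Type} [NormedField F] {q : ℕ} {ω : ℝ} {W : ℝ → ℝ} {Dom : AddSubgroup F} (an : An F q ω W Dom)
include an

lemma exp_nat {t : F} (h : t ∈ Dom) (n : ℕ) : exp (t * n) = exp t ^ n := by
  induction n with
  | zero => simp
  | succ n ih =>
    rw [Nat.cast_succ, mul_add, mul_one, an.add _ (by rw [mul_comm, ← nsmul_eq_mul]; exact nsmul_mem h n) _ h, ih,
      pow_succ]

lemma exp_neg' {t : F} (h : t ∈ Dom) : exp (-t) = (exp t)⁻¹ :=
  eq_inv_of_mul_eq_one_left (by rw [← an.add _ (neg_mem h) _ h]; simp)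

/-- Integer vectors whose image has the `r`-th power of its exponential in `E`. -/
def Hh (ι : Qb →+* F) {n : ℕ} (c : Fin n → F) (E : IntermediateField ℚ Qb) (r : ℕ) : AddSubgroup (Fin n → ℤ) where
  carrier := {h | ∑ k, c k * h k ∈ Dom ∧ ∃ y ∈ E, ι y = exp (∑ k, c k * h k) ^ r}
  zero_mem' := ⟨by simp, 1, one_mem _, by simp⟩
  add_mem' := by
    rintro a b ⟨a1, x, a2, a3⟩ ⟨b1, y, b2, b3⟩
    have e : ∑ k, c k * (a + b) k = ∑ k, c k * a k + ∑ k, c k * b k := by simp [mul_add, sum_add_distrib]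
    exact ⟨e ▸ add_mem a1 b1, x * y, mul_mem a2 b2, by rw [e, an.add _ a1 _ b1, mul_pow, map_mul, a3, b3]⟩
  neg_mem' := by
    rintro a ⟨a1, x, a2, a3⟩
    have e : ∑ k, c k * (-a) k = -∑ k, c k * a k := by simp
    exact ⟨e ▸ neg_mem a1, x⁻¹, inv_mem a2, by rw [e, exp_neg' an a1, inv_pow, map_inv₀, a3]⟩

lemma deg (q0 : 0 < q) (ι : Qb →+* F) {n : ℕ} (c : Fin n → F) (L : IntermediateField ℚ Qb) [FiniteDimensional ℚ L] :
    ∃ L' : IntermediateField ℚ Qb, FiniteDimensional ℚ L' ∧ L ≤ L' ∧ finrank ℚ L' ≤ finrank ℚ L * q ^ n ∧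
      Hh an ι c L q ≤ Hh an ι c L' 1 := by
  classical
  set H := (Hh an ι c L q).toIntSubmodule
  let v := Module.finBasis ℤ H
  have hv : ∀ k, ∃ w, ι w = exp (∑ j, c j * (v k : Fin n → ℤ) j) ∧ w ^ q ∈ L := fun k => by
    obtain ⟨-, y, a, b⟩ := (v k).2
    obtain ⟨w, h1, h2⟩ := exists_root ι q0 b.symm
    exact ⟨w, h1, h2 ▸ a⟩
  choose w w1 w2 using hv
  obtain ⟨L', f, a, b, d⟩ := exists_tower q0 L (univ.image w) (by simpa using w2)
  refine ⟨L', f, a, b.trans (Nat.mul_le_mul_left _ (Nat.pow_le_pow_right q0 (card_image_le.trans ?_))), fun h hh => ?_⟩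
  · simpa using Submodule.finrank_le H
  · have e := congrArg Subtype.val (v.sum_repr ⟨h, hh⟩)
    simp only [AddSubmonoidClass.coe_finset_sum, Submodule.coe_smul] at e
    rw [← e]
    refine sum_mem fun k _ => zsmul_mem ?_ _
    exact ⟨(v k).2.1, w k, d _ (mem_image_of_mem _ (mem_univ _)), by rw [pow_one, w1]⟩

end

/-- Monomial in the labels. -/
def mon {m : ℕ} (l : Fin m → ℤ) (α : Fin m → ℕ) : ℤ := ∏ k, l k ^ α k

lemma polyvan {F κ : Type} [CommRing F] {m T : ℕ} (I : Finset κ) (lam : κ → Fin m → ℤ) (w : κ → F) (u0 : F)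
    (u : Fin m → F) (h : ∀ α : Fin m → ℕ, ∑ k, α k ≤ T → ∑ i ∈ I, mon (lam i) α * w i = 0) (r : ℕ) :
    ∀ α : Fin m → ℕ, ∑ k, α k + r ≤ T → ∑ i ∈ I, mon (lam i) α * (u0 + ∑ k, u k * lam i k) ^ r * w i = 0 := by
  induction r with
  | zero => simpa using h
  | succ r ih =>
    intro α hα
    have e : ∀ i k, (mon (lam i) (α + Pi.single k 1) : F) = mon (lam i) α * lam i k := fun i k => by
      simp only [mon, Pi.add_apply, pow_add, prod_mul_distrib, Pi.single_apply, pow_ite]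
      simp
    calc _ = u0 * ∑ i ∈ I, mon (lam i) α * (u0 + ∑ k, u k * lam i k) ^ r * w i + ∑ j, u j * ∑ i ∈ I,
          mon (lam i) (α + Pi.single j 1) * (u0 + ∑ k, u k * lam i k) ^ r * w i := by
          simp only [e, mul_sum]
          rw [sum_comm, ← sum_add_distrib]
          refine sum_congr rfl fun i _ => ?_
          rw [pow_succ, mul_add _ u0, mul_add, add_mul, mul_sum, mul_sum, sum_mul]
          congr 1
          · ring
          · exact sum_congr rfl fun _ _ => by ring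
      _ = 0 := by
          rw [ih α (by omega), mul_zero, zero_add]
          exact sum_eq_zero fun j _ => by rw [ih _ (by simp [sum_add_distrib]; omega), mul_zero]

/-- Exponent vectors of total degree at most `T`. -/
def mons (m T : ℕ) : Finset (Fin m → ℕ) := (Fintype.piFinset fun _ => range (T + 1)).filter fun α => ∑ k, α k ≤ T

lemma mem_mons {m T : ℕ} {α : Fin m → ℕ} (h : ∑ k, α k ≤ T) : α ∈ mons m T :=
  mem_filter.2 ⟨Fintype.mem_piFinset.2 fun k => mem_range.2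
    (Nat.lt_succ_of_le ((single_le_sum (fun _ _ => Nat.zero_le _) (mem_univ k)).trans h)), h⟩

lemma card_mons {m T τ c : ℕ} (τ1 : 1 ≤ τ) (h : T ≤ c * τ) : ((mons m T).card : ℝ) ≤ Real.exp c * (2 * τ) ^ m := by
  have t1 : (1 : ℝ) ≤ τ := by exact_mod_cast τ1
  set x : ℝ := τ / (τ + 1) with hx
  have x0 : 0 < x := by positivity
  have x1 : x < 1 := (div_lt_one (by positivity)).2 (by linarith)
  have a : (mons m T).card * x ^ T ≤ (2 * τ) ^ m :=
    calc _ = ∑ α ∈ mons m T, x ^ T := by simp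
      _ ≤ ∑ α ∈ mons m T, ∏ k, x ^ α k := sum_le_sum fun α hα => by
          rw [prod_pow_eq_pow_sum]; exact pow_le_pow_of_le_one x0.le x1.le (mem_filter.1 hα).2
      _ ≤ ∑ α ∈ Fintype.piFinset fun _ : Fin m => range (T + 1), ∏ k, x ^ α k :=
          sum_le_sum_of_subset_of_nonneg (filter_subset _ _) fun _ _ _ => by positivity
      _ = ∏ _k : Fin m, ∑ a ∈ range (T + 1), x ^ a := (prod_univ_sum _ fun _ a => x ^ a).symm
      _ ≤ (2 * τ) ^ m := by
          rw [prod_const, card_univ, Fintype.card_fin]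
          refine pow_le_pow_left₀ (by positivity) (((hasSum_geometric_of_lt_one x0.le x1).summable.sum_le_tsum _
            fun _ _ => by positivity).trans ?_) _
          rw [tsum_geometric_of_lt_one x0.le x1, show (1 - x)⁻¹ = τ + 1 by rw [hx]; field_simp; ring]; linarith
  have b : 1 ≤ Real.exp c * x ^ T := by
    have : 1 ≤ Real.exp (1 / τ) * x := by
      have := Real.add_one_le_exp (1 / (τ : ℝ))
      calc (1 : ℝ) = (1 / τ + 1) * x := by rw [hx]; field_simp; ring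
        _ ≤ _ := by gcongr
    refine (one_le_pow₀ this (n := T)).trans ?_
    rw [mul_pow, ← Real.exp_nat_mul]
    gcongr
    rw [mul_one_div, div_le_iff₀ (by linarith)]; exact_mod_cast h
  calc _ ≤ (mons m T).card * (Real.exp c * x ^ T) := le_mul_of_one_le_right (by positivity) b
    _ = Real.exp c * ((mons m T).card * x ^ T) := by ring
    _ ≤ _ := by gcongr

lemma om_pos (N : ℕ) : 0 < om N := Real.exp_pos _

lemma om_le {N : ℕ} (N1 : 1 ≤ N) : 80 * N * om N ≤ Real.exp (-(1994 * N)) := by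
  have n1 : (1 : ℝ) ≤ N := by exact_mod_cast N1
  have : (80 * N : ℝ) ≤ Real.exp (6 * N) := by
    have a := Real.add_one_le_exp (N : ℝ)
    have b : (80 : ℝ) ≤ Real.exp (5 * N) := by
      have := Real.add_one_le_exp (1 : ℝ)
      calc (80 : ℝ) ≤ Real.exp 1 ^ 5 := le_trans (by norm_num) (pow_le_pow_left₀ (by norm_num) Real.exp_one_gt_d9.le 5)
        _ ≤ _ := by rw [← Real.exp_nat_mul]; gcongr; push_cast; linarith
    calc _ ≤ Real.exp (5 * N) * Real.exp N := by gcongr; linarith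
      _ = _ := by rw [← Real.exp_add]; ring_nf
  calc _ ≤ Real.exp (6 * N) * om N := by have := om_pos N; gcongr
    _ = _ := by rw [om, ← Real.exp_add]; ring_nf

lemma zero {F : Type} [NormedField F] (ι : Qb →+* F) (hι : ∀ θ M, 1 ≤ M → Hs θ M → ‖ι θ‖ ≤ M)
    (hi : ∀ n : ℤ, n ≠ 0 → 1 ≤ |(n : ℝ)| * ‖(n : F)‖) {θ : Qb} {G : ℝ} (G0 : 0 ≤ G) (h : Hs θ (Real.exp G))
    {k d N y : ℕ} (k0 : 0 < k) {L : IntermediateField ℚ Qb} [FiniteDimensional ℚ L] (hL : θ ^ k ∈ L)
    (hd : finrank ℚ L ≤ d) (N1 : 1 ≤ N) (y1 : 1 ≤ y) (hG : (2 * d + 1) * G ≤ 1900 * (N * y))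
    (hθ : ‖ι θ‖ ≤ Real.exp G * Real.exp (N * y) * (2 * (40 * N * om N) ^ y)) : θ = 0 := by
  by_contra h0
  have a := liou ι hι hi h0 h (Real.one_le_exp G0) k0 hL hd
  have o := om_pos N
  have b : 2 * (40 * N * om N) ^ y ≤ Real.exp (-(1994 * N)) ^ y :=
    calc _ ≤ 2 ^ y * (40 * N * om N) ^ y := by gcongr; exact le_self_pow₀ one_le_two (by omega)
      _ = (80 * N * om N) ^ y := by rw [← mul_pow]; ring_nf
      _ ≤ _ := by gcongr; exact om_le N1
  have c : ‖ι θ‖ ≤ Real.exp G * Real.exp (N * y) * Real.exp (-(1994 * N)) ^ y := hθ.trans (by gcongr)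
  have e : 1 ≤ Real.exp G ^ (2 * d) * (Real.exp G * Real.exp (N * y) * Real.exp (-(1994 * N)) ^ y) :=
    a.trans (by gcongr)
  rw [← Real.exp_nat_mul, ← Real.exp_nat_mul, ← Real.exp_add, ← Real.exp_add, ← Real.exp_add, Real.one_le_exp_iff] at e
  have : (1 : ℝ) ≤ N * y := by exact_mod_cast Nat.mul_pos N1 y1
  push_cast at e
  nlinarith

end Pool.Agent.Szpiro98.Core
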