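import Pool.Agent.Lib.Szpiro98.CoreA

namespace Pool.Agent.Szpiro98.Core

open Finset Module NormedSpace

/-- Vanishing to order `T` at the first `A` points. -/
def Van {κ : Type} {m : ℕ} (q : ℕ) (p : κ → ℤ) (lam : κ → Fin m → ℤ) (I : Finset κ) (z : κ → Qb) (T A : ℕ) : Prop :=
  ∀ α : Fin m → ℕ, ∑ k, α k ≤ T → ∀ a < A, ∑ i ∈ I, ((p i * mon (lam i) α : ℤ) : Qb) * z i ^ (q * a + 1) = 0

variable {F : Type} [NormedField F] [CharZero F] {q N : ℕ} {W : ℝ → ℝ} {Dom : AddSubgroup F}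
  (an : An F q (om N) W Dom) {ι : Qb →+* F} (hι : ∀ θ M, 1 ≤ M → Hs θ M → ‖ι θ‖ ≤ M) (hq : q.Prime) (q3 : q ≤ 3)
  (N1 : 1 ≤ N) {κ : Type} {m : ℕ} {p : κ → ℤ} {lam : κ → Fin m → ℤ}

lemma om_small (N1 : 1 ≤ N) : 80 * N * om N ≤ 1 :=
  (om_le N1).trans (Real.exp_le_one_iff.2 (neg_nonpos.2 (by positivity)))

include an hι hq q3 N1

lemma ext_step {I : Finset κ} {i0 : κ} (h0 : i0 ∈ I) {z ρ : κ → Qb} {d : κ → F} {u0 : F} {u : Fin m → F}
    {τ A T e s k D Z : ℕ} {δ E h : ℝ} (τ1 : 1 ≤ τ) (A1 : 1 ≤ A) (z0 : z i0 ≠ 0)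
    (hz : ∀ i ∈ I, ι (z i) = ι (z i0) * exp (d i) ∧ ‖d i‖ ≤ W (N * τ) ∧ ‖d i - (u0 + ∑ k, u k * lam i k)‖ ≤ δ)
    (hZ : A * τ ≤ Z) (hδ : δ * (24 * Z) ^ (Z + 1) ≤ om N ^ Z) (hV : Van q p lam I z (T + τ) A)
    {L : IntermediateField ℚ Qb} [FiniteDimensional ℚ L] (hD : finrank ℚ L ≤ D)
    (hρ : ∀ i ∈ I, ι (ρ i) = ι (ρ i0) * exp (d i / q ^ e) ∧ d i / q ^ e ∈ Dom ∧ Hs (ρ i) (Real.exp h) ∧ ρ i / ρ i0 ∈ L)
    (ρ0 : ρ i0 ≠ 0) (k0 : 0 < k) (ρk : ρ i0 ^ k ∈ L) {α : Fin m → ℕ} (hα : ∑ k, α k ≤ T)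
    (hE : ∑ i ∈ I, |((p i * mon (lam i) α : ℤ) : ℝ)| ≤ Real.exp E) (E0 : 0 ≤ E) (hh : 0 ≤ h)
    (hs : s ≤ 2 * q * A * q ^ e) (hG : (2 * D + 1) * (E + h * s) ≤ 1900 * (N * (A * τ))) :
    ∑ i ∈ I, ((p i * mon (lam i) α : ℤ) : Qb) * ρ i ^ s = 0 := by
  have o := om_pos N
  have o1 := om_small N1
  have n1 : (1 : ℝ) ≤ N := by exact_mod_cast N1
  have y1 : 1 ≤ A * τ := Nat.mul_pos A1 τ1
  have Z1 : 1 ≤ Z := y1.trans hZ
  have z1 : (1 : ℝ) ≤ Z := by exact_mod_cast Z1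
  have δ0 : 0 ≤ δ := (norm_nonneg _).trans (hz i0 h0).2.2
  have AZ : (q : ℝ) * A ≤ 3 * Z := by
    exact_mod_cast Nat.mul_le_mul q3 ((Nat.le_mul_of_pos_right A τ1).trans hZ)
  have o2 : om N ≤ 1 := by nlinarith
  have b1 : (24 * Z : ℝ) ≤ (24 * Z) ^ (Z + 1) := le_self_pow₀ (by linarith) (by omega)
  have b2 : om N ^ Z ≤ om N := pow_le_of_le_one o.le o2 (by omega)
  have b3 : δ * (24 * Z) ≤ om N := (mul_le_mul_of_nonneg_left b1 δ0).trans (hδ.trans b2)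
  have x := an.ext κ I (fun i => ((p i * mon (lam i) α : ℤ) : F)) d (fun i => u0 + ∑ k, u k * lam i k) N τ A s e δ
    N1 τ1 A1 (by linarith) (fun i hi => (hz i hi).2.1) (fun i hi => (hz i hi).2.2) δ0 (by nlinarith)
    (by nlinarith) hs fun a ha r hr => by
      have := polyvan (T := T + τ) I lam (fun i => p i * ι (z i) ^ (q * a + 1)) u0 u (fun β hβ => by
        have := congrArg ι (hV β hβ a ha)
        simp only [map_sum, map_mul, map_pow, map_intCast, map_zero, Int.cast_mul] at this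
        rw [← this]; exact sum_congr rfl fun _ _ => by ring) r α (by omega)
      refine mul_left_cancel₀ (pow_ne_zero (q * a + 1) ((map_ne_zero ι).2 z0)) ?_
      rw [mul_zero, ← this, mul_sum]
      refine sum_congr rfl fun i hi => ?_
      rw [exp_nat an (an.dom _ _ (hz i hi).2.1), (hz i hi).1]; push_cast; ring
  refine zero ι hι an.int_ge (G := E + h * s) (by positivity) ?_ k0 ?_ hD N1 y1 (by push_cast; exact hG) ?_
  · refine (Hs.sum I fun i hi => (Hs.int _).mul ((hρ i hi).2.2.1.pow s)).mono ?_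
    rw [← sum_mul, Real.exp_add, ← Real.exp_nat_mul, mul_comm (s : ℝ)]; gcongr
  · have : ∑ i ∈ I, ((p i * mon (lam i) α : ℤ) : Qb) * ρ i ^ s =
        ρ i0 ^ s * ∑ i ∈ I, ((p i * mon (lam i) α : ℤ) : Qb) * (ρ i / ρ i0) ^ s := by
      rw [mul_sum]; exact sum_congr rfl fun _ _ => by rw [div_pow]; field_simp
    rw [this, mul_pow, pow_right_comm]
    exact mul_mem (pow_mem ρk _) (pow_mem (sum_mem fun i hi => mul_mem (intCast_mem _ _) (pow_mem (hρ i hi).2.2.2 _)) _)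
  · have : ι (∑ i ∈ I, ((p i * mon (lam i) α : ℤ) : Qb) * ρ i ^ s) =
        ι (ρ i0) ^ s * ∑ i ∈ I, ((p i * mon (lam i) α : ℤ) : F) * exp (d i * (s / q ^ e)) := by
      rw [mul_sum, map_sum]
      refine sum_congr rfl fun i hi => ?_
      rw [map_mul, map_pow, map_intCast, (hρ i hi).1, mul_pow, ← exp_nat an (hρ i hi).2.1,
        show d i / q ^ e * s = d i * (s / q ^ e) by ring]
      ring
    have a1 : ‖ι (ρ i0)‖ ^ s ≤ Real.exp (h * s) := by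
      rw [mul_comm, Real.exp_nat_mul]; gcongr; exact hι _ _ (Real.one_le_exp hh) (hρ i0 h0).2.2.1
    have a2 : ∑ i ∈ I, ‖((p i * mon (lam i) α : ℤ) : F)‖ ≤ Real.exp E :=
      (sum_le_sum fun i _ => an.int_le _).trans hE
    have a3 : δ * (8 * q * A) ^ (A * τ + 1) ≤ (40 * N * om N) ^ (A * τ) :=
      calc _ ≤ δ * (24 * Z) ^ (Z + 1) := by
            refine mul_le_mul_of_nonneg_left ((pow_le_pow_left₀ (by positivity) (by linarith) _).trans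
              (pow_le_pow_right₀ (by linarith) (by omega))) δ0
        _ ≤ om N ^ (A * τ) := hδ.trans (pow_le_pow_of_le_one o.le o2 hZ)
        _ ≤ _ := by gcongr; nlinarith
    rw [this, norm_mul, norm_pow]
    calc _ ≤ Real.exp (h * s) * (Real.exp E * Real.exp (N * τ * A) * (2 * (40 * N * om N) ^ (A * τ))) := by
          refine mul_le_mul a1 (x.trans ?_) (norm_nonneg _) (by positivity)
          gcongr; linarith
      _ = _ := by rw [Real.exp_add]; push_cast; ring_nf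

lemma dbl {I : Finset κ} {i0 : κ} (h0 : i0 ∈ I) {z : κ → Qb} {d : κ → F} {u0 : F} {u : Fin m → F}
    {τ A T0 k Z : ℕ} {δ : ℝ} (τ1 : 1 ≤ τ) (A1 : 1 ≤ A) (z0 : z i0 ≠ 0)
    (hz : ∀ i ∈ I, ι (z i) = ι (z i0) * exp (d i) ∧ ‖d i‖ ≤ W (N * τ) ∧ ‖d i - (u0 + ∑ k, u k * lam i k)‖ ≤ δ)
    (hδ : δ * (24 * Z) ^ (Z + 1) ≤ om N ^ Z) {L : IntermediateField ℚ Qb} [FiniteDimensional ℚ L]
    (hD : finrank ℚ L ≤ 18) (hρ : ∀ i ∈ I, Hs (z i) (Real.exp (N * τ)) ∧ z i / z i0 ∈ L) (k0 : 0 < k)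
    (zk : z i0 ^ k ∈ L) (hE : ∀ α : Fin m → ℕ, ∑ k, α k ≤ T0 →
      ∑ i ∈ I, |((p i * mon (lam i) α : ℤ) : ℝ)| ≤ Real.exp (40 * (N * (A * τ)))) (r : ℕ) :
    ∀ T, T + r * τ ≤ T0 → 2 ^ r * A * τ ≤ Z → Van q p lam I z (T + r * τ) A → Van q p lam I z T (2 ^ r * A) := by
  induction r with
  | zero => intro T _ _ h; simpa using h
  | succ r ih =>
    intro T h1 h2 h3 α hα a ha
    have e : T + (r + 1) * τ = T + τ + r * τ := by ring
    have hZ : 2 ^ r * A * τ ≤ Z := le_trans (by rw [pow_succ]; nlinarith [Nat.zero_le (2 ^ r * A * τ)]) h2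
    have A2 : A ≤ 2 ^ r * A := Nat.le_mul_of_pos_left _ (by positivity)
    have hs : q * a + 1 ≤ 2 * q * (2 ^ r * A) := by
      have := hq.pos; rw [pow_succ] at ha; nlinarith
    refine ext_step an hι hq q3 N1 h0 (e := 0) τ1 (A1.trans A2) z0 hz hZ hδ (ih _ (e ▸ h1) hZ (e ▸ h3)) hD
      (fun i hi => by simpa using ⟨(hz i hi).1, an.dom _ _ (hz i hi).2.1, hρ i hi⟩) z0 k0 zk hα
      (hE α (by omega)) (by positivity) (by positivity) (by simpa using hs) ?_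
    have a1 : ((q * a + 1 : ℕ) : ℝ) ≤ 6 * (2 ^ r * A : ℕ) := by exact_mod_cast hs.trans (by nlinarith)
    have a2 : (A : ℝ) ≤ (2 ^ r * A : ℕ) := by exact_mod_cast A2
    have a3 : (0 : ℝ) ≤ N * τ := by positivity
    have := mul_le_mul_of_nonneg_left a1 a3
    have := mul_le_mul_of_nonneg_left a2 a3
    push_cast at *
    nlinarith

end Pool.Agent.Szpiro98.Core
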