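import Pool.Agent.Lib.Szpiro98.CoreB

namespace Pool.Agent.Szpiro98.Core

open Finset Module NormedSpace

/-- The linear form with coefficients `c`. -/
def lf {F : Type} [Field F] {n : ℕ} (c : Fin n → F) (μ : Fin n → ℤ) : F := ∑ k, c k * μ k

lemma lf_div {F : Type} [Field F] {n : ℕ} (c : Fin n → F) (μ : Fin n → ℤ) (x : F) :
    lf (fun k => c k / x) μ = lf c μ / x := by
  rw [lf, lf, sum_div]; exact sum_congr rfl fun _ _ => by ring

lemma lf_sub {F : Type} [Field F] {n : ℕ} (c : Fin n → F) (μ ν : Fin n → ℤ) : lf c (μ - ν) = lf c μ - lf c ν := by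
  simp [lf, mul_sub]

/-- The state of the descent at one level. -/
structure St {F : Type} [NormedField F] (q N : ℕ) (W : ℝ → ℝ) (ι : Qb →+* F) (L : IntermediateField ℚ Qb)
    {κ : Type} {m n : ℕ} (p : κ → ℤ) (lam : κ → Fin m → ℤ) (μ : κ → Fin n → ℤ) (I : Finset κ) (z : κ → Qb)
    (c : Fin n → F) (τ A k : ℕ) : Prop where
  ne : ∃ i ∈ I, p i ≠ 0
  hz : ∀ i ∈ I, z i ≠ 0 ∧ Hs (z i) (Real.exp (N * τ)) ∧ z i ^ k ∈ L
  hr : ∀ i ∈ I, ∀ j ∈ I, z i / z j ∈ L ∧ ι (z i) = ι (z j) * exp (lf c (μ i) - lf c (μ j)) ∧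
    ‖lf c (μ i) - lf c (μ j)‖ ≤ W (N * τ)
  van : Van q p lam I z (2 * (2 * N + 1) * τ) A

variable {F : Type} [NormedField F] [CharZero F] {q N : ℕ} {W : ℝ → ℝ} {Dom : AddSubgroup F}
  (an : An F q (om N) W Dom) {ι : Qb →+* F} (hι : ∀ θ M, 1 ≤ M → Hs θ M → ‖ι θ‖ ≤ M) (hq : q.Prime) (q3 : q ≤ 3)
  (N1 : 1 ≤ N) {κ : Type} {m n : ℕ} {p : κ → ℤ} {lam : κ → Fin m → ℤ} {μ : κ → Fin n → ℤ}
  {L : IntermediateField ℚ Qb} [FiniteDimensional ℚ L] (hL : finrank ℚ L ≤ 18)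

include an hι hq q3 N1 hL

lemma step (hμ : ∀ ζ : Qb, ζ ^ q = 1 → ζ ∈ L) (nN : n ≤ N) {I : Finset κ} {z : κ → Qb} {c : Fin n → F}
    {τ A k Z : ℕ} {δ : ℝ} {u : Fin m → F} (τ1 : 1 ≤ τ) (A1 : 1 ≤ A) (k0 : 0 < k)
    (S : St q N W ι L p lam μ I z c (q * τ) A k)
    (hu : ∀ i ∈ I, ∀ j ∈ I, ‖lf c (μ i) - lf c (μ j) - (∑ k, u k * lam i k - ∑ k, u k * lam j k)‖ ≤ δ)
    (hZ : 4 ^ N * A * (q * τ) ≤ Z) (hδ : δ * (24 * Z) ^ (Z + 1) ≤ om N ^ Z)
    (hE : ∀ α : Fin m → ℕ, ∑ k, α k ≤ 2 * (2 * N + 1) * (q * τ) →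
      ∑ i ∈ I, |((p i * mon (lam i) α : ℤ) : ℝ)| ≤ Real.exp (40 * (N * (A * (q * τ : ℕ))))) :
    ∃ I' ⊆ I, ∃ z', St q N W ι L p lam μ I' z' (fun k => c k / q) τ (q * A) (q * k) := by
  classical
  obtain ⟨i0, h0, p0⟩ := S.ne
  have q2 := hq.two_le
  have q0 : (q : F) ≠ 0 := by exact_mod_cast hq.ne_zero
  have t1 : 1 ≤ q * τ := Nat.mul_pos hq.pos τ1
  have z0 := (S.hz i0 h0).1
  set d : κ → F := fun i => lf c (μ i) - lf c (μ i0) with hd
  have hz : ∀ i ∈ I, ι (z i) = ι (z i0) * exp (d i) ∧ ‖d i‖ ≤ W (N * (q * τ : ℕ)) ∧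
      ‖d i - (-(∑ k, u k * lam i0 k) + ∑ k, u k * lam i k)‖ ≤ δ := fun i hi =>
    ⟨(S.hr i hi i0 h0).2.1, (S.hr i hi i0 h0).2.2, by rw [neg_add_eq_sub]; exact hu i hi i0 h0⟩
  have e4 : 2 ^ (2 * N) = 4 ^ N := by rw [pow_mul]; norm_num
  have i1 := Nat.mul_le_mul_left ((2 * N + 1) * τ) q2
  have i2 : 2 * (2 * N + 1) * τ + q * τ + 2 * N * (q * τ) ≤ 2 * (2 * N + 1) * (q * τ) := by nlinarith
  have V := dbl an hι hq q3 N1 h0 t1 A1 z0 hz hδ hL (fun i hi => ⟨(S.hz i hi).2.1, (S.hr i hi i0 h0).1⟩) k0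
    (S.hz i0 h0).2.2 hE (2 * N) (2 * (2 * N + 1) * τ + q * τ) i2 (e4 ▸ hZ)
    fun α hα => S.van α (hα.trans i2)
  rw [e4] at V
  have hW : ∀ i ∈ I, ∀ j ∈ I, ‖(lf c (μ i) - lf c (μ j)) / q‖ ≤ W (N * τ) := fun i hi j hj =>
    an.div _ _ (by have := (S.hr i hi j hj).2.2; push_cast at this; rwa [mul_left_comm])
  have hD : ∀ i ∈ I, d i / q ∈ Dom := fun i hi => an.dom _ _ (hW i hi i0 h0)
  have hq' : ∀ i ∈ I, exp (d i / q) ^ q = exp (d i) := fun i hi => by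
    rw [← exp_nat an (hD i hi), div_mul_cancel₀ _ q0]
  obtain ⟨r0, hr0⟩ := IsAlgClosed.exists_pow_nat_eq (z i0) hq.pos
  have : ∀ i, ∃ r, i ∈ I → ι r = ι r0 * exp (d i / q) ∧ r ^ q = z i := fun i => by
    by_cases hi : i ∈ I
    · obtain ⟨r, h⟩ := exists_root ι hq.pos (w := ι r0 * exp (d i / q)) (y := z i)
        (by rw [mul_pow, ← map_pow, hr0, hq' i hi, (hz i hi).1])
      exact ⟨r, fun _ => h⟩
    · exact ⟨0, fun h => absurd h hi⟩
  choose ρ hρ using this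
  have ρ0 : ρ i0 = r0 := ι.injective (by simp [(hρ i0 h0).1, hd])
  subst ρ0
  have ρn : ∀ i ∈ I, ρ i ≠ 0 := fun i hi h => (S.hz i hi).1 (by rw [← (hρ i hi).2, h, zero_pow hq.ne_zero])
  have ρH : ∀ i ∈ I, Hs (ρ i) (Real.exp (N * τ)) := fun i hi => Hs.root hq.pos (Real.exp_pos _).le (by
    rw [(hρ i hi).2, ← Real.exp_nat_mul, mul_left_comm]; simpa using (S.hz i hi).2.1)
  have ρq : ∀ i ∈ I, (ρ i / ρ i0) ^ q = z i / z i0 := fun i hi => by rw [div_pow, (hρ i hi).2, hr0]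
  have ι0 := (map_ne_zero ι).2 (ρn i0 h0)
  obtain ⟨L', f, l1, l2, l3⟩ := deg an hq.pos ι (fun k => c k / q) L
  have m1 : ∀ i ∈ I, ρ i / ρ i0 ∈ L' := fun i hi => by
    have e : ∑ k, c k / q * ((μ i - μ i0) k : ℤ) = d i / q := by
      rw [← lf, lf_div, lf_sub]
    obtain ⟨-, y, y1, y2⟩ := l3 (x := μ i - μ i0) ⟨e ▸ hD i hi, _, (S.hr i hi i0 h0).1, by
      rw [e, hq' i hi, map_div₀, (hz i hi).1, mul_div_cancel_left₀ _ ((map_ne_zero ι).2 z0)]⟩
    rwa [show ρ i / ρ i0 = y from ι.injective (by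
      rw [y2, e, pow_one, map_div₀, (hρ i hi).1, mul_div_cancel_left₀ _ ι0])]
  have ρk : ∀ i ∈ I, ρ i ^ (q * k) ∈ L := fun i hi => by rw [pow_mul, (hρ i hi).2]; exact (S.hz i hi).2.2
  have f4 : 4 ≤ 4 ^ N := Nat.le_self_pow (by omega) 4
  refine ⟨I.filter fun i => ρ i / ρ i0 ∈ L, filter_subset _ _, ρ, ⟨i0, mem_filter.2 ⟨h0, by
    rw [div_self (ρn i0 h0)]; exact one_mem _⟩, p0⟩, fun i hi => ?_, fun i hi j hj => ?_, fun α hα a ha => ?_⟩
  · have := (mem_filter.1 hi).1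
    exact ⟨ρn i this, ρH i this, ρk i this⟩
  · obtain ⟨hi, li⟩ := mem_filter.1 hi
    obtain ⟨hj, lj⟩ := mem_filter.1 hj
    rw [lf_div, lf_div, ← sub_div]
    refine ⟨by simpa [div_div_div_cancel_right₀ (ρn i0 h0)] using div_mem li lj, ?_, hW i hi j hj⟩
    rw [(hρ i hi).1, (hρ j hj).1, mul_assoc, ← an.add _ (hD j hj) _ (an.dom _ _ (hW i hi j hj))]
    congr 2; simp only [hd]; ring
  have hs : q * a + 1 ≤ q * (q * A) := by nlinarith
  have v := ext_step an hι hq q3 N1 h0 (e := 1) (s := q * a + 1) t1 (Nat.mul_pos (by omega) A1) z0 hz hZ hδ V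
    (l2.trans (Nat.mul_le_mul hL ((Nat.pow_le_pow_left (q3.trans (by norm_num : 3 ≤ 4)) n).trans
      (Nat.pow_le_pow_right (by norm_num) nN))))
    (fun i hi => by simpa using ⟨(hρ i hi).1, hD i hi, ρH i hi, m1 i hi⟩) (ρn i0 h0) (Nat.mul_pos hq.pos k0)
    (l1 (ρk i0 h0)) hα (hE α (by omega)) (by positivity) (by positivity)
    (hs.trans (by rw [pow_one]; nlinarith [Nat.zero_le (q * q * A)])) (by
      have a1 : ((q * a + 1 : ℕ) : ℝ) ≤ 3 * (q * A) := by exact_mod_cast hs.trans (Nat.mul_le_mul_right _ q3)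
      have a2 : (4 : ℝ) ≤ 4 ^ N := by exact_mod_cast f4
      have a3 := mul_le_mul_of_nonneg_left a1 (by positivity : (0 : ℝ) ≤ N * τ)
      have a4 : (0 : ℝ) ≤ N * (A * (q * τ)) := by positivity
      push_cast at *
      refine (mul_le_mul (b := (37 * 4 ^ N : ℝ)) (d := (43 * (N * (A * (q * τ))) : ℝ)) ?_ ?_ ?_ ?_).trans ?_
      exacts [by linarith, by linarith, by positivity, by positivity, by nlinarith])
  have w := kummer_split hq L hμ I (fun i => p i * mon (lam i) α) (fun i => (ρ i / ρ i0) ^ (q * a + 1))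
    (fun i hi => by rw [pow_right_comm, ρq i hi]; exact pow_mem (S.hr i hi i0 h0).1 _) (by
      simp only [div_pow, ← mul_div_assoc]; rw [← sum_div, v, zero_div])
  rw [filter_congr (q := fun i => ρ i / ρ i0 ∈ L) fun i hi => by
    have := pow_mem (S.hr i hi i0 h0).1 a
    rw [pow_succ, pow_mul, ρq i hi]
    exact ⟨fun h => by simpa [(S.hz i hi).1, z0] using mul_mem (inv_mem this) h, mul_mem this⟩] at w
  simp only [div_pow, ← mul_div_assoc] at w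
  rwa [← sum_div, div_eq_zero_iff, or_iff_left (pow_ne_zero _ (ρn i0 h0))] at w

omit hq q3 in
lemma last {I : Finset κ} {z : κ → Qb} {c : Fin n → F} {A k : ℕ} (A1 : 1 ≤ A) (k0 : 0 < k)
    (S : St q N W ι L p lam μ I z c 1 A k) (inj : Set.InjOn (fun i => lf c (μ i)) I) : False := by
  obtain ⟨i0, h0, p0⟩ := S.ne
  have n1 : (1 : ℝ) ≤ N := by exact_mod_cast N1
  have o := om_small N1
  have z0 := (S.hz i0 h0).1
  have : ∀ i ∈ I, i = i0 := fun i hi => by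
    obtain ⟨a, b, e⟩ := S.hr i hi i0 h0
    set t := lf c (μ i) - lf c (μ i0) with ht
    have e1 : ‖t‖ ≤ N * om N := by simpa using e.trans (an.small _ (by simpa using n1))
    have e2 := an.near t (by linarith)
    have e3 : ‖exp t - 1‖ ≤ 2 * ‖t‖ := by
      have := norm_add_le (exp t - 1 - t) t
      rw [sub_add_cancel] at this; linarith [norm_nonneg t]
    have H : ∀ j ∈ I, Hs (z j) (Real.exp N) := fun j hj => by simpa using (S.hz j hj).2.1
    have e4 : z i - z i0 = 0 := zero ι hι an.int_ge (G := 2 * N) (y := 1) (by positivity)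
      (((H i hi).sub (H i0 h0)).mono (by
        have := Real.add_one_le_exp (N : ℝ)
        rw [two_mul, Real.exp_add]; nlinarith)) k0 (by
        rw [show z i - z i0 = z i0 * (z i / z i0 - 1) by field_simp, mul_pow]
        exact mul_mem (S.hz i0 h0).2.2 (pow_mem (sub_mem a (one_mem _)) _)) hL N1 le_rfl (by push_cast; linarith) (by
        rw [map_sub, b, ← mul_sub_one, norm_mul, pow_one, Nat.cast_one, mul_one]
        refine mul_le_mul ((hι _ _ (Real.one_le_exp (by linarith)) (H i0 h0)).trans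
          (le_mul_of_one_le_left (by positivity) (Real.one_le_exp (by linarith)))) (by linarith [norm_nonneg t])
          (norm_nonneg _) (by positivity))
    rw [sub_eq_zero.1 e4, eq_comm, mul_eq_left₀ ((map_ne_zero ι).2 z0)] at b
    rw [b, sub_self, zero_sub, norm_neg] at e2
    exact inj hi h0 (sub_eq_zero.1 (norm_le_zero_iff.1 (by linarith)))
  have v := S.van 0 (by simp) 0 A1
  rw [sum_eq_single_of_mem i0 h0 fun i hi h => absurd (this i hi) h] at v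
  simp [mon, p0, z0] at v

end Pool.Agent.Szpiro98.Core
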