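import Pool.Agent.Lib.Szpiro98.Blue

/-! Discriminants of orders in a cubic field. -/

namespace Pool.Agent.Szpiro98.DISC3

open Module NumberField Matrix Pool.Agent.Lib.MP_cafdd5_nt

variable {K : Type} [Field K] [NumberField K]

lemma key (h3 : finrank ℚ K = 3) (x : Fin 3 → K) (hx : ∀ i, IsIntegral ℤ (x i)) :
    ∃ k : ℤ, Algebra.discr ℚ x = k ^ 2 * discr K := by
  classical
  have hc : Fintype.card (Free.ChooseBasisIndex ℤ (𝓞 K)) = Fintype.card (Fin 3) := by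
    rw [← finrank_eq_card_chooseBasisIndex, RingOfIntegers.rank, h3, Fintype.card_fin]
  let e := Fintype.equivOfCardEq hc
  let B := (integralBasis K).reindex e
  let P : Matrix (Fin 3) (Fin 3) ℤ := fun i j ↦
    (RingOfIntegers.basis K).repr ⟨x j, hx j⟩ (e.symm i)
  have hP : B.toMatrix x = P.map (Int.castRingHom ℚ) := by
    ext i j
    rw [Basis.toMatrix_apply, Basis.repr_reindex_apply]
    exact integralBasis_repr_apply K ⟨x j, hx j⟩ _
  refine ⟨P.det, ?_⟩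
  have h1 := Algebra.discr_of_matrix_vecMul (A := ℚ) B (B.toMatrix x)
  rw [B.toMatrix_map_vecMul, hP, ← RingHom.mapMatrix_apply, ← RingHom.map_det] at h1
  rw [h1, coe_discr, Basis.coe_reindex, Algebra.discr_reindex]
  simp

lemma indep (h3 : finrank ℚ K = 3) {θ : K} (hθ : ∀ x : ℚ, θ ≠ x) :
    LinearIndependent ℚ fun i : Fin 3 ↦ θ ^ (i : ℕ) := by
  have hi : IsIntegral ℚ θ := Algebra.IsIntegral.isIntegral θ
  have h1 : (minpoly ℚ θ).natDegree ∣ 3 := h3 ▸ minpoly.degree_dvd hi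
  have h2 : (minpoly ℚ θ).natDegree = 3 := by
    rcases (Nat.dvd_prime Nat.prime_three).1 h1 with h | h
    · obtain ⟨x, hx⟩ := minpoly.natDegree_eq_one_iff.1 h
      exact absurd hx.symm (hθ x)
    · exact h
  have := linearIndependent_pow (K := ℚ) θ
  rwa [h2] at this

lemma discr_pow (h3 : finrank ℚ K = 3) {θ : K} (hθ : ∀ x : ℚ, θ ≠ x) {a b : ℤ}
    (h : θ ^ 3 - a * θ - b = 0) : Algebra.discr ℚ ![1, θ, θ ^ 2] = disc a b := by
  let B : Basis (Fin 3) ℚ K :=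
    basisOfLinearIndependentOfCardEqFinrank (indep h3 hθ) (by simp [h3])
  have hB : ∀ i, B i = θ ^ (i : ℕ) := fun i ↦ by simp [B]
  have b0 : B 0 = 1 := by simp [hB]
  have b1 : B 1 = θ := by simp [hB]
  have b2 : B 2 = θ ^ 2 := by simp [hB]
  have tr : ∀ x, Algebra.trace ℚ K x =
      B.repr (x * B 0) 0 + B.repr (x * B 1) 1 + B.repr (x * B 2) 2 := fun x ↦ by
    rw [Algebra.trace_eq_matrix_trace B, Matrix.trace_fin_three]
    simp only [Algebra.leftMulMatrix_eq_repr_mul]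
  have e3 : θ * B 2 = (a : ℚ) • B 1 + (b : ℚ) • B 0 := by
    rw [b0, b1, b2, Algebra.smul_def, Algebra.smul_def]
    simp only [map_intCast]
    linear_combination h
  have e4 : θ ^ 2 * B 2 = (a : ℚ) • B 2 + (b : ℚ) • B 1 := by
    rw [b1, b2, Algebra.smul_def, Algebra.smul_def]
    simp only [map_intCast]
    linear_combination θ * h
  have t0 : Algebra.trace ℚ K 1 = 3 := by
    rw [tr]; simp; norm_num
  have t1 : Algebra.trace ℚ K θ = 0 := by
    rw [tr, e3, show θ * B 0 = B 1 by rw [b0, b1, mul_one],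
      show θ * B 1 = B 2 by rw [b1, b2, sq]]
    simp
  have t2 : Algebra.trace ℚ K (θ ^ 2) = 2 * a := by
    rw [tr, e4, show θ ^ 2 * B 0 = B 2 by rw [b0, b2, mul_one],
      show θ ^ 2 * B 1 = θ * B 2 by rw [b1, b2]; ring, e3]
    simp
    ring
  have t3 : Algebra.trace ℚ K (θ * θ ^ 2) = 3 * b := by
    rw [← b2, e3, map_add, map_smul, map_smul, b0, b1, t0, t1]
    simp
    ring
  have t4 : Algebra.trace ℚ K (θ ^ 2 * θ ^ 2) = 2 * a ^ 2 := by
    nth_rewrite 2 [← b2]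
    rw [e4, map_add, map_smul, map_smul, b2, b1, t2, t1]
    simp
    ring
  have t2' : Algebra.trace ℚ K (θ * θ) = 2 * a := by rw [← sq, t2]
  rw [Algebra.discr_def, Matrix.det_fin_three]
  simp only [Algebra.traceMatrix_apply, Algebra.traceForm_apply, Matrix.cons_val_zero,
    Matrix.cons_val_one, Matrix.cons_val_two, Matrix.head_cons, Matrix.tail_cons, one_mul, mul_one,
    t0, t1, t2, t2', t3, t4, mul_comm (θ ^ 2) θ, disc]
  push_cast
  ring

lemma int_of_cubic {x : K} (p q r : ℤ) (h : x ^ 3 + p * x ^ 2 + q * x + r = 0) : IsIntegral ℤ x := by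
  refine ⟨Polynomial.X ^ 3 + Polynomial.C p * Polynomial.X ^ 2 + Polynomial.C q * Polynomial.X +
    Polynomial.C r, by monicity!, ?_⟩
  simp only [Polynomial.eval₂_add, Polynomial.eval₂_mul, Polynomial.eval₂_X_pow,
    Polynomial.eval₂_C, Polynomial.eval₂_X]
  simpa using h

/-- the basic divisibility -/
lemma dvd_disc (h3 : finrank ℚ K = 3) {θ : K} (hθ : ∀ x : ℚ, θ ≠ x) {a b : ℤ}
    (h : θ ^ 3 - a * θ - b = 0) {m c : ℤ} (hm : m ≠ 0) (h1 : m ∣ 3 * c ^ 2 - a)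
    (h2 : m ^ 2 ∣ c ^ 3 - a * c - b) : discr K * m ^ 2 ∣ disc a b := by
  obtain ⟨u, hu⟩ := h1
  obtain ⟨w, hw⟩ := h2
  have hm' : (m : K) ≠ 0 := Int.cast_ne_zero.2 hm
  have hmq : (m : ℚ) ≠ 0 := Int.cast_ne_zero.2 hm
  have hu' : 3 * (c : K) ^ 2 - a = m * u := by exact_mod_cast congrArg (Int.cast : ℤ → K) hu
  have hw' : (c : K) ^ 3 - a * c - b = m ^ 2 * w := by exact_mod_cast congrArg (Int.cast : ℤ → K) hw
  set ψ : K := θ ^ 2 + c * θ + c ^ 2 - a with hψ
  have e1 : ψ * (θ - c) = -(m ^ 2 * w) := by rw [hψ]; linear_combination h - hw'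
  have e2 : ψ ^ 3 - m * u * ψ ^ 2 + 3 * c * (m ^ 2 * w) * ψ - (m ^ 2 * w) ^ 2 = 0 := by
    have e3 : ψ = (θ - c) ^ 2 + 3 * c * (θ - c) + m * u := by rw [hψ]; linear_combination hu'
    linear_combination ψ ^ 2 * e3 + (ψ * (θ - c) - m ^ 2 * w + 3 * c * ψ) * e1
  have i2 : IsIntegral ℤ (ψ / m) := by
    refine int_of_cubic (-u) (3 * c * w) (-(m * w ^ 2)) ?_
    push_cast
    field_simp
    linear_combination e2
  have i1 : IsIntegral ℤ θ := int_of_cubic 0 (-a) (-b) (by push_cast; linear_combination h)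
  obtain ⟨k, hk⟩ := key h3 ![1, θ, ψ / m] fun i ↦ by
    fin_cases i
    exacts [isIntegral_one, i1, i2]
  have h1 := Algebra.discr_of_matrix_mulVec (A := ℚ) ![1, θ, θ ^ 2]
    !![1, 0, 0; 0, 1, 0; (c ^ 2 - a) / m, c / m, 1 / m]
  have h2 : (!![1, 0, 0; 0, 1, 0; (c ^ 2 - a) / m, c / m, 1 / m] : Matrix (Fin 3) (Fin 3) ℚ).map
      (algebraMap ℚ K) *ᵥ ![1, θ, θ ^ 2] = ![1, θ, ψ / m] := by
    ext i
    fin_cases i <;> simp [Matrix.mulVec, dotProduct, Fin.sum_univ_three, hψ]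
    field_simp
    ring
  rw [h2, hk, discr_pow h3 hθ h, Matrix.det_fin_three] at h1
  refine ⟨k ^ 2, ?_⟩
  have : (disc a b : ℚ) = discr K * m ^ 2 * k ^ 2 := by
    simp at h1
    field_simp at h1
    linear_combination -h1
  exact_mod_cast this

end Pool.Agent.Szpiro98.DISC3
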