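import Pool.Agent.Lib.Szpiro98.Blue5

/-! Block FULL5: curves with full rational 2-torsion. -/

namespace Pool.Agent.Szpiro98.V5

open Finset Pool.Agent.Lib.MP_cafdd5_nt

namespace Full

lemma prod_le_SS (a b : ℤ) (hD : disc a b ≠ 0) {n : ℕ} (h : (n : ℤ) ∣ disc a b) :
    ∏ q ∈ n.primeFactors, q ≤ 6 * cond a b := by
  refine le_trans (prod_le_prod_of_subset_of_one_le' ?_ ?_) (SumB.rad_le a b)
  · exact (Nat.primeFactors_mono (Int.natCast_dvd.1 h) (Int.natAbs_ne_zero.2 hD)).trans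
      ((subset_insert _ _).trans (subset_insert _ _))
  · intro q hq _
    simp only [SS, mem_insert] at hq
    rcases hq with rfl | rfl | hq
    · norm_num
    · norm_num
    · exact (Nat.prime_of_mem_primeFactors hq).pos

lemma gcd_le {a b e f : ℤ} (hD : disc a b ≠ 0) (hm : ∀ p : ℕ, p.Prime → ¬((p : ℤ) ^ 2 ∣ e ∧ (p : ℤ) ^ 2 ∣ f))
    {g : ℕ} (hg : g ≠ 0) (h1 : (g : ℤ) ∣ 3 * e) (h2 : (g : ℤ) ∣ 3 * f) (h3 : (g : ℤ) ∣ disc a b) :
    g ≤ 54 * cond a b := by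
  obtain ⟨w, u, rfl, hw⟩ := Nat.sq_mul_squarefree g
  have hu : u ≠ 0 := by rintro rfl; simp at hg
  have hsq : ∀ n : ℕ, n ∣ u → (n : ℤ) ^ 2 ∣ 3 * e ∧ (n : ℤ) ^ 2 ∣ 3 * f := by
    intro n hn
    have : (n : ℤ) ^ 2 ∣ ((u ^ 2 * w : ℕ) : ℤ) := by
      exact_mod_cast (pow_dvd_pow_of_dvd hn 2).mul_right w
    exact ⟨this.trans h1, this.trans h2⟩
  obtain ⟨k, hk⟩ : ∃ k, u = 3 ^ k := ⟨_, Nat.eq_prime_pow_of_unique_prime_dvd hu fun {p} hp hd => by
    by_contra hne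
    have hc : IsCoprime ((p : ℤ) ^ 2) 3 := IsCoprime.pow_left (by
      exact_mod_cast Nat.isCoprime_iff_coprime.2 ((Nat.coprime_primes hp Nat.prime_three).2 hne))
    exact hm p hp ⟨hc.dvd_of_dvd_mul_left (hsq p hd).1, hc.dvd_of_dvd_mul_left (hsq p hd).2⟩⟩
  have hk1 : k ≤ 1 := by
    by_contra h
    have := hsq 9 (hk ▸ pow_dvd_pow 3 (show 2 ≤ k by omega))
    refine hm 3 Nat.prime_three ?_
    push_cast at this ⊢
    omega
  have hu3 : u ≤ 3 := hk ▸ (Nat.pow_le_pow_right (by norm_num) hk1)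
  have hw6 : w ≤ 6 * cond a b := by
    rw [← Nat.prod_primeFactors_of_squarefree hw]
    exact prod_le_SS a b hD ((Int.natCast_dvd_natCast.2 (dvd_mul_left w _)).trans h3)
  calc u ^ 2 * w ≤ 3 ^ 2 * (6 * cond a b) := by gcongr
    _ = _ := by ring

end Full

open Full in
theorem full : FullStmt := by
  intro η K h0 h6 habc
  refine ⟨393 + 36 * max K 0, fun a b e f hD hm hef he hf => ?_⟩
  obtain rfl : a = e ^ 2 + e * f + f ^ 2 :=
    mul_left_cancel₀ (sub_ne_zero.2 hef) (by linear_combination hf - he)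
  obtain rfl : b = -(e * f * (e + f)) := by linear_combination -he
  set a := e ^ 2 + e * f + f ^ 2 with ha
  set b := -(e * f * (e + f)) with hb
  have hg0 : 0 < Int.gcd (e - f) (e + 2 * f) := Int.gcd_pos_of_ne_zero_left _ (sub_ne_zero.2 hef)
  obtain ⟨A, B, hAB, hA, hB⟩ := Int.exists_gcd_one hg0
  set g := Int.gcd (e - f) (e + 2 * f)
  have hd : disc a b = ((g : ℤ) ^ 3 * (A * B * (A + B))) ^ 2 := by
    have : disc a b = ((e - f) * (e + 2 * f) * ((e - f) + (e + 2 * f))) ^ 2 := by rw [disc, ha, hb]; ring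
    rw [this, hA, hB]; ring
  have e3 : 3 * e = (2 * A + B) * g := by linear_combination 2 * hA + hB
  have f3 : 3 * f = (B - A) * g := by linear_combination hB - hA
  have hP : A * B * (A + B) ≠ 0 := fun h => hD (by rw [hd, h]; simp)
  have hgN : g ≤ 54 * cond a b := by
    refine gcd_le (e := e) (f := f) hD (fun p hp h => hm p hp ?_) hg0.ne' ⟨_, by rw [e3, mul_comm]⟩
      ⟨_, by rw [f3, mul_comm]⟩ ⟨(g : ℤ) ^ 5 * (A * B * (A + B)) ^ 2, by rw [hd]; ring⟩
    obtain ⟨⟨u, rfl⟩, v, rfl⟩ := h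
    exact ⟨⟨u ^ 2 + u * v + v ^ 2, by rw [ha]; ring⟩, ⟨-(u * v * (u + v)), by rw [hb]; ring⟩⟩
  have hR := prod_le_SS a b hD (n := (A * B * (A + B)).natAbs)
    (Int.natAbs_dvd.2 ⟨(g : ℤ) ^ 6 * (A * B * (A + B)), by rw [hd]; ring⟩)
  have key := habc A B (left_ne_zero_of_mul (left_ne_zero_of_mul hP)) (right_ne_zero_of_mul (left_ne_zero_of_mul hP))
    (right_ne_zero_of_mul hP) (Int.isCoprime_iff_gcd_eq_one.2 hAB)
  have hN : (1 : ℝ) ≤ cond a b := by
    have : 0 < cond a b := by omega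
    exact_mod_cast this
  set N : ℝ := (cond a b : ℝ)
  set m : ℝ := max |(A : ℝ)| |(B : ℝ)|
  have hm1 : 1 ≤ m := le_max_of_le_left (by
    exact_mod_cast Int.one_le_abs (left_ne_zero_of_mul (left_ne_zero_of_mul hP)))
  have hg1 : (1 : ℝ) ≤ g := by exact_mod_cast hg0
  have hθ : 0 ≤ 1 / 3 - η := by linarith
  have hN1 : 1 ≤ N ^ (1 / 3 - η) := Real.one_le_rpow hN hθ
  have k1 : Real.log m ≤ max K 0 * (6 * N ^ (1 / 3 - η)) := by
    refine key.trans ((mul_le_mul_of_nonneg_right (le_max_left K 0) (by positivity)).trans ?_)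
    refine mul_le_mul_of_nonneg_left ?_ (le_max_right K 0)
    calc _ ≤ (6 * N) ^ (1 / 3 - η) := Real.rpow_le_rpow (by positivity) (by simp only [N]; exact_mod_cast hR) hθ
      _ = 6 ^ (1 / 3 - η) * N ^ (1 / 3 - η) := Real.mul_rpow (by norm_num) (by linarith)
      _ ≤ _ := by
        gcongr
        exact (Real.rpow_le_rpow_of_exponent_le (by norm_num) (by linarith)).trans_eq (Real.rpow_one 6)
  have k2 : Real.log g ≤ 60 * N ^ (1 / 3 - η) := by
    have h1 : Real.log g ≤ Real.log (54 * N) := Real.log_le_log (by linarith) (by simp only [N]; exact_mod_cast hgN)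
    have h2 := Real.log_le_rpow_div (by linarith : 0 ≤ N) (by norm_num : (0 : ℝ) < 1 / 6)
    have h3 : N ^ (1 / 6 : ℝ) ≤ N ^ (1 / 3 - η) := Real.rpow_le_rpow_of_exponent_le hN (by linarith)
    rw [Real.log_mul (by norm_num) (by linarith)] at h1
    linarith [Real.log_le_sub_one_of_pos (by norm_num : (0 : ℝ) < 54)]
  have hA' := abs_le.1 (le_max_left |(A : ℝ)| |(B : ℝ)|)
  have hB' := abs_le.1 (le_max_right |(A : ℝ)| |(B : ℝ)|)
  have e3' : 3 * (e : ℝ) = (2 * A + B) * g := by exact_mod_cast e3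
  have f3' : 3 * (f : ℝ) = (B - A) * g := by exact_mod_cast f3
  have he' : |(e : ℝ)| ≤ m * g := abs_le.2 ⟨by nlinarith, by nlinarith⟩
  have hf' : |(f : ℝ)| ≤ m * g := abs_le.2 ⟨by nlinarith, by nlinarith⟩
  have hM : 1 ≤ m * g := one_le_mul_of_one_le_of_one_le hm1 hg1
  set M := m * g with hMd
  have ha' : |(a : ℝ)| ≤ 3 * M ^ 2 := by
    rw [ha]
    push_cast
    calc _ ≤ |(e : ℝ)| ^ 2 + |(e : ℝ)| * |(f : ℝ)| + |(f : ℝ)| ^ 2 := by
          rw [← abs_pow, ← abs_pow, ← abs_mul]; exact abs_add_three _ _ _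
      _ ≤ M ^ 2 + M * M + M ^ 2 := by gcongr
      _ = _ := by ring
  have hb' : |(b : ℝ)| ≤ 2 * M ^ 3 := by
    rw [hb]
    push_cast
    rw [abs_neg, abs_mul, abs_mul]
    calc _ ≤ M * M * (M + M) := by
          gcongr
          exact (abs_add_le _ _).trans (add_le_add he' hf')
      _ = _ := by ring
  have hmax : max (|(a : ℝ)| ^ 3) ((b : ℝ) ^ 2) ≤ 27 * M ^ 6 := by
    refine max_le ?_ ?_
    · calc _ ≤ (3 * M ^ 2) ^ 3 := by gcongr
        _ = _ := by ring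
    · calc _ = |(b : ℝ)| ^ 2 := (sq_abs _).symm
        _ ≤ (2 * M ^ 3) ^ 2 := by gcongr
        _ ≤ _ := by nlinarith [pow_pos (by linarith : 0 < M) 6]
  have hlog : Real.log (max (|(a : ℝ)| ^ 3) ((b : ℝ) ^ 2)) ≤ Real.log (27 * M ^ 6) := by
    rcases (le_max_of_le_right (sq_nonneg (b : ℝ)) : 0 ≤ max (|(a : ℝ)| ^ 3) ((b : ℝ) ^ 2)).eq_or_lt with h | h
    · rw [← h, Real.log_zero]
      exact Real.log_nonneg (by nlinarith [one_le_pow₀ (n := 6) hM])
    · exact Real.log_le_log h hmax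
  rw [Real.log_mul (by norm_num) (by positivity), Real.log_pow, hMd, Real.log_mul (by linarith) (by linarith)] at hlog
  unfold LL
  push_cast at hlog
  nlinarith [Real.log_le_sub_one_of_pos (by norm_num : (0 : ℝ) < 27)]

end Pool.Agent.Szpiro98.V5
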