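import Pool.Agent.Lib.Szpiro98.Blue5

/-! Block GLUE5: from the two local bounds to the global inequality, one rational 2-torsion point. -/

namespace Pool.Agent.Szpiro98.V5

open Finset Pool.Agent.Lib.MP_cafdd5_nt V4

namespace Glue5

lemma final {L N θ ε C : ℝ} (hL : 1 ≤ L) (hN : 1 ≤ N) (θ1 : θ ≤ 1) (ε0 : 0 < ε) (hC : 1 ≤ C)
    (h : L ≤ C * (1 + Real.log N) * N ^ θ * Real.log L ^ 3) :
    L ≤ C * (2 * Real.log (216 * C) + 4) ^ 3 * (1 + 4 / ε) ^ 4 * N ^ (θ + ε) := by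
  have h0 := Real.log_nonneg hN
  have N0 : 0 < N := by linarith
  have hK : 0 ≤ Real.log (216 * C) := Real.log_nonneg (by linarith)
  have h3 := V2.NumB.boot hL h (by positivity)
  have h4 : Real.log (216 * (C * (1 + Real.log N) * N ^ θ)) ≤
      Real.log (216 * C) + 2 * Real.log N := by
    rw [← mul_assoc, ← mul_assoc, Real.log_mul (by positivity) (by positivity),
      Real.log_mul (by positivity) (by positivity), Real.log_rpow N0]
    have := Real.log_le_sub_one_of_pos (by positivity : 0 < 1 + Real.log N)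
    have := mul_le_mul_of_nonneg_right θ1 h0
    linarith
  have h5 : Real.log L ≤ (2 * Real.log (216 * C) + 4) * (1 + Real.log N) := by nlinarith
  have h6 := pow_le_pow_left₀ (Real.log_nonneg hL) h5 3
  have h7 := SumB.one_add_log_le hN ε0
  calc L ≤ _ := h
    _ ≤ C * (1 + Real.log N) * N ^ θ * ((2 * Real.log (216 * C) + 4) * (1 + Real.log N)) ^ 3 :=
      mul_le_mul_of_nonneg_left h6 (by positivity)
    _ = C * (2 * Real.log (216 * C) + 4) ^ 3 * N ^ θ * (1 + Real.log N) ^ 4 := by ring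
    _ ≤ C * (2 * Real.log (216 * C) + 4) ^ 3 * N ^ θ * ((1 + 4 / ε) ^ 4 * N ^ ε) :=
      mul_le_mul_of_nonneg_left h7 (by positivity)
    _ = _ := by rw [Real.rpow_add N0]; ring

lemma bnd_nonneg {C : ℝ} (hC : 0 ≤ C) (δ : ℝ) (S : Finset ℕ) (D : ℝ) {κ 𝓛 : ℝ} (hκ : 1 ≤ κ)
    (h : 1 ≤ 𝓛) : 0 ≤ V4.bnd C δ S D κ 𝓛 :=
  IRR.bnd_nonneg S hC (mul_nonneg (by linarith) (le_min zero_le_one (sv_nonneg hC δ S D hκ))) h

lemma pick {bd : Bd} {a b d c : ℤ} (h : Loc2 bd a b d c)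
    (h0 : 0 ≤ bd (SS a b) |d| 1 (LL a b)) :
    ∃ x : ℕ, (x = 1 ∨ x.Prime ∧ (x : ℤ) ∣ c ∧ Even (padicValInt x c)) ∧
      LL a b ≤ 200 * ((SS a b).card + 1) *
        (bd (SS a b) |d| x (LL a b) + (2 + Real.log (cond a b))) := by
  obtain ⟨-, hc, -, hS, hI, hP⟩ := h
  have hN : (1 : ℝ) ≤ cond a b := by exact_mod_cast GLUE.cond_pos a b
  have l0 := Real.log_nonneg hN
  obtain ⟨x, hx, hm⟩ := exists_max_image
    (insert 1 (c.natAbs.primeFactors.filter fun p => Even (padicValInt p c)))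
    (fun x : ℕ => bd (SS a b) |d| x (LL a b)) (insert_nonempty _ _)
  refine ⟨x, ?_, ?_⟩
  · rcases mem_insert.1 hx with e | e
    · exact Or.inl e
    · obtain ⟨e1, e2⟩ := mem_filter.1 e
      exact Or.inr ⟨Nat.prime_of_mem_primeFactors e1,
        Int.natCast_dvd.2 (Nat.dvd_of_mem_primeFactors e1), e2⟩
  have b1 := hm 1 (mem_insert_self _ _)
  simp only [Nat.cast_one] at b1
  have b2 : ∀ p ∈ c.natAbs.primeFactors,
      bd (SS a b) |d| (kap p (padicValInt p c)) (LL a b) ≤ bd (SS a b) |d| x (LL a b) := by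
    intro p hp
    by_cases ho : Odd ((padicValInt p c : ℕ) : ℤ)
    · rw [kap, if_pos ho]
      exact b1
    · rw [kap, if_neg ho]
      refine hm p (mem_insert_of_mem (mem_filter.2 ⟨hp, ?_⟩))
      rwa [Int.not_odd_iff_even, Int.even_coe_nat] at ho
  obtain ⟨F, hF⟩ : ∃ F, F = bd (SS a b) |d| x (LL a b) := ⟨_, rfl⟩
  rw [← hF] at b1 b2 ⊢
  have F0 : 0 ≤ F := h0.trans b1
  obtain ⟨U, hU⟩ : ∃ U, U = F + (2 + Real.log (cond a b)) := ⟨_, rfl⟩
  rw [← hU]
  have U2 : 2 ≤ U := by linarith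
  have hc0 : (0 : ℝ) ≤ (SS a b).card := Nat.cast_nonneg _
  by_cases hLU : LL a b ≤ U
  · nlinarith
  push Not at hLU
  have c1 := hI (by linarith)
  have c2 : ∀ p ∈ c.natAbs.primeFactors, (padicValInt p c : ℝ) * Real.log p ≤ 32 * U := by
    intro p hp
    have l1 := V2.NumB.log_le (hS hp)
    have l2 := b2 p hp
    have := hP p (Nat.prime_of_mem_primeFactors hp) (by linarith)
    linarith
  have c3 : Real.log |(c : ℝ)| ≤ (SS a b).card * (32 * U) := by
    rw [GLUE.log_abs_eq]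
    calc _ ≤ (c.natAbs.primeFactors.card : ℝ) * (32 * U) := by
          have := Finset.sum_le_card_nsmul _ _ _ c2
          rwa [nsmul_eq_mul] at this
      _ ≤ _ := mul_le_mul_of_nonneg_right (by exact_mod_cast Finset.card_le_card hS) (by linarith)
  nlinarith

end Glue5

open Glue5 in
theorem two (h : TwoNumStmt) : TwoStmt := by
  intro C δ hC δ0 δ1
  obtain ⟨η, K, η0, η1, hK, g⟩ := h C δ hC δ0 δ1
  refine ⟨η / 2, 5600 * K * (2 * Real.log (216 * (5600 * K)) + 4) ^ 3 * (1 + 4 / (η / 2)) ^ 4,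
    by positivity, fun a b e d1 d2 hD he L1 L2 => ?_⟩
  have hN : (1 : ℝ) ≤ cond a b := by exact_mod_cast GLUE.cond_pos a b
  have hL6 := GLUE.LL_ge a b
  obtain ⟨x, hx, X⟩ := pick L1 (bnd_nonneg (by linarith) δ _ _ le_rfl (by linarith))
  obtain ⟨y, hy, Y⟩ := pick L2 (bnd_nonneg (by linarith) δ _ _ le_rfl (by linarith))
  have m := g a b e d1 d2 x y (LL a b) hD he L1.1 L2.1 L1.2.2.1 L2.2.2.1 hx hy (by linarith)
  rw [show 1 / 2 - η / 2 = 1 / 2 - η + η / 2 by ring]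
  refine final (by linarith) hN (by linarith) (half_pos η0) (by linarith) ?_
  have l0 := Real.log_nonneg hN
  have l3 : 1 ≤ Real.log (LL a b) ^ 3 := one_le_pow₀ (GLUE.logLL_ge a b)
  have hcard := V2.NumB.card_le a b
  have hE : 2 + Real.log (cond a b) ≤ 6 * (cond a b : ℝ) ^ (1 / 2 - η) := by
    have h1 := Real.log_le_rpow_div (by linarith : (0 : ℝ) ≤ cond a b) (by norm_num : (0 : ℝ) < 1 / 4)
    have h2 : (cond a b : ℝ) ^ (1 / 4 : ℝ) ≤ (cond a b : ℝ) ^ (1 / 2 - η) :=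
      Real.rpow_le_rpow_of_exponent_le hN (by linarith)
    have h3 : 1 ≤ (cond a b : ℝ) ^ (1 / 2 - η) := Real.one_le_rpow hN (by linarith)
    linarith
  obtain ⟨E, hE'⟩ : ∃ E, E = (cond a b : ℝ) ^ (1 / 2 - η) := ⟨_, rfl⟩
  rw [← hE'] at m hE ⊢
  have E0 : 0 ≤ E := by linarith
  have u0 : E ≤ K * E * Real.log (LL a b) ^ 3 :=
    (le_mul_of_one_le_left E0 hK).trans (le_mul_of_one_le_right (by positivity) l3)
  have hc0 : (0 : ℝ) ≤ (SS a b).card := Nat.cast_nonneg _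
  have key : LL a b ≤ 200 * ((SS a b).card + 1) * (7 * (K * E * Real.log (LL a b) ^ 3)) := by
    rcases min_le_iff.1 m with m | m
    · exact X.trans (mul_le_mul_of_nonneg_left (by linarith) (by positivity))
    · exact Y.trans (mul_le_mul_of_nonneg_left (by linarith) (by positivity))
  refine key.trans ((mul_le_mul_of_nonneg_right (mul_le_mul_of_nonneg_left hcard (by norm_num))
    (by linarith)).trans_eq ?_)
  ring

end Pool.Agent.Szpiro98.V5
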