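import Mathlib

/-! Divided differences of exponential sums and the extrapolation estimate of Baker's method. -/

namespace Pool.Agent.Szpiro98

open Finset

section
variable {R : Type} [CommRing R]

/-- `G zs (m + 1)` is the divided difference of `X ^ m` at the nodes `zs`. -/
def G : List R → ℕ → R
  | [], 0 => 1
  | [], _ + 1 => 0
  | _ :: _, 0 => 0
  | z :: zs, m + 1 => z * G (z :: zs) m + G zs m

lemma G_sub (y z : R) (zs : List R) (m : ℕ) :
    (y - z) * G (y :: z :: zs) m = G (y :: zs) m - G (z :: zs) m := by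
  induction m with
  | zero => simp [G]
  | succ m ih => simp only [G]; linear_combination y * ih

lemma G_swap (y z : R) (zs : List R) (m : ℕ) : G (y :: z :: zs) m = G (z :: y :: zs) m := by
  induction m with
  | zero => simp [G]
  | succ m ih => simp only [G]; linear_combination G_sub y z zs m + z * ih

lemma G_perm {l l' : List R} (h : l.Perm l') : G l = G l' := by
  induction h with
  | nil => rfl
  | cons z _ ih =>
    funext m
    induction m with
    | zero => simp [G]
    | succ m ih2 => simp only [G, ih, ih2]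
  | swap y z zs => funext m; exact G_swap _ _ _ _
  | trans _ _ a b => exact a.trans b

lemma G_rep (z : R) (m k : ℕ) : G (List.replicate (k + 1) z) (m + 1) = m.choose k * z ^ (m - k) := by
  induction m generalizing k with
  | zero => cases k <;> simp [G, List.replicate_succ]
  | succ m ih =>
    rw [List.replicate_succ, G, ← List.replicate_succ, ih]
    cases k with
    | zero => simp [G, pow_succ']
    | succ k =>
      rw [ih, Nat.choose_succ_succ', Nat.add_sub_add_right]
      rcases le_or_gt (k + 1) m with h | h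
      · rw [show m - k = m - (k + 1) + 1 by omega]; push_cast; ring
      · simp [Nat.choose_eq_zero_of_lt h]

end

variable {F : Type} [NormedField F]

lemma norm_G_le {ρ : ℝ} (h0 : 0 ≤ ρ) (m : ℕ) (zs : List F) (h : ∀ z ∈ zs, ‖z‖ ≤ ρ) :
    ‖G zs m‖ ≤ G (List.replicate zs.length ρ) m := by
  induction m generalizing zs with
  | zero => cases zs <;> simp [G, List.replicate_succ]
  | succ m ih =>
    cases zs with
    | nil => simp [G]
    | cons z zs =>
      have a := ih (z :: zs) h
      have b := ih zs fun y hy => h y (List.mem_cons_of_mem _ hy)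
      rw [List.length_cons, List.replicate_succ] at *
      rw [G, G]
      refine (norm_add_le _ _).trans (add_le_add ?_ b)
      rw [norm_mul]
      exact mul_le_mul (h z List.mem_cons_self) a (norm_nonneg _) h0

lemma norm_G_le_one [IsUltrametricDist F] (m : ℕ) (zs : List F) (h : ∀ z ∈ zs, ‖z‖ ≤ 1) : ‖G zs m‖ ≤ 1 := by
  induction m generalizing zs with
  | zero => cases zs <;> simp [G]
  | succ m ih =>
    cases zs with
    | nil => simp [G]
    | cons z zs =>
      rw [G]
      refine (IsUltrametricDist.norm_add_le_max _ _).trans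
        (max_le ?_ (ih zs fun y hy => h y (List.mem_cons_of_mem _ hy)))
      rw [norm_mul]
      exact mul_le_one₀ (h z List.mem_cons_self) (norm_nonneg _) (ih _ h)

lemma newton_bound [DecidableEq F] {Φ : List F → F} {Z : F → Prop} (hp : ∀ l l', l.Perm l' → Φ l = Φ l')
    (hs : ∀ y z zs, (∀ x ∈ y :: z :: zs, Z x) → (y - z) * Φ (y :: z :: zs) = Φ (y :: zs) - Φ (z :: zs))
    {nd : F → Prop} (hZ : ∀ z, nd z → Z z) {κ ρ ε : ℝ} (κ1 : 1 ≤ κ) (ρ1 : 1 ≤ ρ) (ε0 : 0 ≤ ε)
    (hκ : ∀ y z, nd y → nd z → y ≠ z → 1 ≤ κ * ‖y - z‖) {τ : ℕ}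
    (hj : ∀ z k, nd z → k < τ → ‖Φ (List.replicate (k + 1) z)‖ ≤ ε) {y : F} (hy : Z y)
    (hρ : ∀ z, nd z → ‖y - z‖ ≤ ρ) (l : List F) (h1 : ∀ z ∈ l, nd z) (h2 : ∀ z, l.count z ≤ τ) :
    ‖Φ [y]‖ ≤ ρ ^ l.length * (l.length * (ε * (2 * κ) ^ l.length) + ‖Φ (y :: l)‖) := by
  have a : ∀ n, ∀ zs : List F, zs.length = n + 1 → (∀ z ∈ zs, nd z) → (∀ z, zs.count z ≤ τ) →
      ‖Φ zs‖ ≤ ε * (2 * κ) ^ n := by
    intro n
    induction n with
    | zero =>
      intro zs e b c
      obtain ⟨z, rfl⟩ := List.length_eq_one_iff.1 e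
      simpa using hj z 0 (b z (by simp)) (by have := c z; simp at this; omega)
    | succ n ih =>
      intro zs e b c
      obtain _ | ⟨x, xs⟩ := zs
      · simp at e
      by_cases d : ∀ z ∈ xs, z = x
      · have e1 : x :: xs = List.replicate (n + 1 + 1) x := List.eq_replicate_iff.2 ⟨e, by simpa using d⟩
        have := c x
        rw [e1] at this ⊢
        exact (hj x _ (b x (by simp)) (by simpa using this)).trans
          (le_mul_of_one_le_right ε0 (one_le_pow₀ (by linarith)))
      · push Not at d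
        obtain ⟨z, hz, zx⟩ := d
        have p := List.perm_cons_erase hz
        set ws := xs.erase z
        have p1 : (x :: xs).Perm (x :: z :: ws) := p.cons x
        have m : ∀ u ∈ x :: z :: ws, nd u := fun u hu => b u (p1.mem_iff.2 hu)
        have l1 : ws.length = n := by have := p1.length_eq; simp at this e; omega
        have c1 : ∀ u, (x :: z :: ws).count u ≤ τ := fun u => p1.count_eq u ▸ c u
        have i1 := ih (x :: ws) (by simp [l1]) (fun u hu => m u (by grind)) fun u =>
          le_trans (List.Sublist.count_le u (by simp)) (c1 u)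
        have i2 := ih (z :: ws) (by simp [l1]) (fun u hu => m u (by grind)) fun u =>
          le_trans (List.Sublist.count_le u (by simp)) (c1 u)
        have e2 := congrArg norm (hs x z ws fun u hu => hZ u (m u hu))
        rw [norm_mul] at e2
        rw [hp _ _ p1]
        have k := hκ x z (m x (by simp)) (m z (by simp)) zx.symm
        have := norm_sub_le (Φ (x :: ws)) (Φ (z :: ws))
        calc _ ≤ κ * ‖x - z‖ * ‖Φ (x :: z :: ws)‖ := le_mul_of_one_le_left (norm_nonneg _) k
          _ ≤ κ * (ε * (2 * κ) ^ n + ε * (2 * κ) ^ n) := by rw [mul_assoc, e2]; gcongr; linarith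
          _ = _ := by ring
  set B := ε * (2 * κ) ^ l.length with hB
  have B0 : 0 ≤ B := by positivity
  have b : ∀ rs ws : List F, (rs.reverse ++ ws).Perm l →
      ‖Φ (y :: ws)‖ ≤ ρ ^ rs.length * (rs.length * B + ‖Φ (y :: l)‖) := by
    intro rs
    induction rs with
    | nil => intro ws p; rw [hp _ _ (List.Perm.cons y (by simpa using p))]; simp
    | cons z rs ih =>
      intro ws p
      rw [List.reverse_cons, List.append_assoc, List.singleton_append] at p
      have m : ∀ u ∈ z :: ws, nd u := fun u hu => h1 u (p.mem_iff.1 (List.mem_append_right _ hu))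
      have i1 := ih _ p
      have l1 := p.length_eq
      simp only [List.length_append, List.length_cons] at l1
      have i2 := (a ws.length (z :: ws) rfl m fun u => le_trans (List.Sublist.count_le u (by simp))
        (p.count_eq u ▸ h2 u)).trans (mul_le_mul_of_nonneg_left
          (pow_le_pow_right₀ (by linarith) (by omega : ws.length ≤ l.length)) ε0)
      have e := hs y z ws fun u hu => by
        rcases List.mem_cons.1 hu with rfl | hu
        exacts [hy, hZ u (m u hu)]
      rw [eq_sub_iff_add_eq] at e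
      rw [← e]
      refine (norm_add_le _ _).trans ?_
      rw [norm_mul, List.length_cons, pow_succ', Nat.cast_succ]
      have r1 : 1 ≤ ρ * ρ ^ rs.length := one_le_mul_of_one_le_of_one_le ρ1 (one_le_pow₀ ρ1)
      have := mul_le_mul (hρ z (m z (by simp))) i1 (norm_nonneg _) (by linarith)
      nlinarith [mul_le_mul_of_nonneg_right r1 B0]
  simpa using b l.reverse [] (by simp)

lemma HasSum.congr_funext {f g : ℕ → F} {a : F} (h : HasSum f a) (e : ∀ m, g m = f m) : HasSum g a :=
  (funext e : g = f) ▸ h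

lemma count_nodes [DecidableEq F] {f : ℕ → F} (hf : Function.Injective f) (τ A : ℕ) (z : F) :
    ((List.range A).flatMap fun a => List.replicate τ (f a)).count z ≤ τ := by
  induction A with
  | zero => simp
  | succ n ih =>
    rw [List.range_succ, List.flatMap_append, List.count_append, List.flatMap_singleton,
      List.count_replicate]
    split_ifs with h
    · rw [List.count_eq_zero.2 fun c => ?_]; · simp
      simp only [List.mem_flatMap, List.mem_range, List.mem_replicate] at c
      obtain ⟨a, b, -, c⟩ := c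
      have := hf (c.symm.trans (beq_iff_eq.1 h).symm)
      omega
    · simpa using ih

/-- Divided difference of `z ↦ exp (t z)`. -/
noncomputable def DD (zs : List F) (t : F) : F := ∑' m, G zs (m + 1) * (t ^ m / m.factorial)

lemma hasSum_rep [CharZero F] {t z : F} (h : Summable fun m : ℕ => (t * z) ^ m / m.factorial) (k : ℕ) :
    HasSum (fun m => G (List.replicate (k + 1) z) (m + 1) * (t ^ m / m.factorial))
      (t ^ k / k.factorial * NormedSpace.exp (t * z)) := by
  rw [← hasSum_nat_add_iff' k, sum_eq_zero fun m hm => by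
    rw [G_rep, Nat.choose_eq_zero_of_lt (mem_range.1 hm)]; simp, sub_zero, NormedSpace.exp_eq_tsum_div]
  refine HasSum.congr_funext (h.hasSum.mul_left (t ^ k / k.factorial)) fun m => ?_
  rw [G_rep, Nat.add_sub_cancel, ← Nat.add_choose_mul_factorial_mul_factorial m k]
  have : ((m + k).choose k : F) ≠ 0 := by exact_mod_cast (Nat.choose_pos (by omega)).ne'
  have : (m.factorial : F) ≠ 0 := by exact_mod_cast m.factorial_ne_zero
  have : (k.factorial : F) ≠ 0 := by exact_mod_cast k.factorial_ne_zero
  push_cast; field_simp; ring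

/-- The nodes. -/
def nodes (F : Type) [NormedField F] (q A τ : ℕ) : List F :=
  (List.range A).flatMap fun a => List.replicate τ ((q * a + 1 : ℕ) : F)

lemma ext_gen [CharZero F] {ι : Type} (I : Finset ι) (A ℓ : ι → F) {Z : F → Prop}
    (hS : ∀ i ∈ I, ∀ zs : List F, (∀ z ∈ zs, Z z) → Summable fun m => G zs (m + 1) * (ℓ i ^ m / m.factorial))
    {q A' τ : ℕ} (hq : 0 < q) (hZ : ∀ n : ℕ, n ≤ q * A' → Z n) {κ ρ ε R : ℝ} (κ1 : 1 ≤ κ) (ρ1 : 1 ≤ ρ)
    (ε0 : 0 ≤ ε) (hκ : ∀ m n : ℕ, m ≤ q * A' → n ≤ q * A' → m ≠ n → 1 ≤ κ * ‖(m : F) - n‖)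
    (hj : ∀ a < A', ∀ k < τ,
      ‖∑ i ∈ I, A i * (ℓ i ^ k / k.factorial * NormedSpace.exp (ℓ i * (q * a + 1 : ℕ)))‖ ≤ ε)
    {y : F} (hy : Z y) (hρ : ∀ n : ℕ, n ≤ q * A' → ‖y - n‖ ≤ ρ)
    (hR : ∀ i ∈ I, ∀ zs : List F, (∀ z ∈ zs, Z z) → zs.length = A' * τ + 1 → ‖DD zs (ℓ i)‖ ≤ R) :
    ‖∑ i ∈ I, A i * NormedSpace.exp (ℓ i * y)‖ ≤
      ρ ^ (A' * τ) * ((A' * τ : ℕ) * (ε * (2 * κ) ^ (A' * τ)) + (∑ i ∈ I, ‖A i‖) * R) := by
  classical
  have rep : ∀ i ∈ I, ∀ z, Z z → ∀ k, DD (List.replicate (k + 1) z) (ℓ i) =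
      ℓ i ^ k / k.factorial * NormedSpace.exp (ℓ i * z) := fun i hi z hz k =>
    (hasSum_rep ((hS i hi [z] (by simpa using hz)).congr fun m => by
      have := G_rep z m 0
      simp only [zero_add, List.replicate_one] at this
      rw [this, mul_pow]; simp; ring) k).tsum_eq
  have len : (nodes F q A' τ).length = A' * τ := by simp [nodes]
  have mem : ∀ z ∈ nodes F q A' τ, ∃ a < A', z = ((q * a + 1 : ℕ) : F) := fun z hz => by
    simp only [nodes, List.mem_flatMap, List.mem_range, List.mem_replicate] at hz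
    obtain ⟨a, b, -, c⟩ := hz
    exact ⟨a, b, c⟩
  have le : ∀ a < A', q * a + 1 ≤ q * A' := fun a h => by nlinarith
  have h := newton_bound (Φ := fun zs => ∑ i ∈ I, A i * DD zs (ℓ i)) (Z := Z)
    (fun l l' p => by simp only [DD, G_perm p]) (fun y z zs hz => by
      rw [mul_sum, ← sum_sub_distrib]
      refine sum_congr rfl fun i hi => ?_
      rw [mul_left_comm, ← mul_sub, DD, DD, DD, ← Summable.tsum_sub (hS i hi _ (by grind)) (hS i hi _ (by grind)),
        ← tsum_mul_left]
      congr 2; funext m; rw [← mul_assoc, G_sub, sub_mul])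
    (nd := fun z => ∃ a < A', z = ((q * a + 1 : ℕ) : F)) (by rintro _ ⟨a, h, rfl⟩; exact hZ _ (le a h))
    κ1 ρ1 ε0 (by
      rintro _ _ ⟨a, h, rfl⟩ ⟨b, h', rfl⟩ e
      exact hκ _ _ (le a h) (le b h') fun c => e (by rw [c])) (τ := τ) (by
      rintro _ k ⟨a, h, rfl⟩ hk
      rw [sum_congr rfl fun i hi => by rw [rep i hi _ (hZ _ (le a h))]]
      exact hj a h k hk) hy (by rintro _ ⟨a, h, rfl⟩; exact hρ _ (le a h)) (nodes F q A' τ) mem
      (count_nodes (fun a b e => by
        have := Nat.cast_injective e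
        exact Nat.eq_of_mul_eq_mul_left hq (by omega)) _ _)
  rw [len, sum_congr rfl fun i hi => by rw [show [y] = List.replicate (0 + 1) y from rfl, rep i hi y hy]] at h
  simp only [pow_zero, Nat.factorial_zero, Nat.cast_one, div_one, one_mul] at h
  refine h.trans ?_
  gcongr
  rw [sum_mul]
  refine (norm_sum_le _ _).trans (sum_le_sum fun i hi => ?_)
  rw [norm_mul]
  refine mul_le_mul_of_nonneg_left (hR i hi _ (fun z hz => ?_) (by simp [len])) (norm_nonneg _)
  rcases List.mem_cons.1 hz with rfl | hz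
  · exact hy
  · obtain ⟨a, h, rfl⟩ := mem z hz
    exact hZ _ (le a h)

end Pool.Agent.Szpiro98
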