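import Pool.Agent.Lib.Szpiro98.Blue2

/-! Block LOCT: the local bound at a large prime, with auxiliary primes. -/

namespace Pool.Agent.Szpiro98.V2

open Finset Module NumberField IsDedekindDomain NormedSpace Pool.Agent.Lib.MP_cafdd5_nt

namespace LOCT

lemma mb_le {C1 C s W D 𝓛 P l : ℝ} {R t : ℕ} {S : Finset ℕ} (hC1 : 1 ≤ C1) (hC : 216 * C1 ^ 3 ≤ C)
    (hR : R ≤ 3 * S.card + 3 + t) (ht : t ≤ R - 1) (hW0 : 0 ≤ W)
    (hW : W ≤ (∏ q ∈ S, (6 * Real.log q) ^ 3) * (30000 * s) ^ t) (hs : 0 ≤ s)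
    (hl : 60000 * C1 * s ≤ l) (hl1 : 1 ≤ l) (hl2 : l ≤ 1 + Real.log P) (hP : 0 ≤ P) (hD : 1 ≤ D)
    (h : 3 ≤ 𝓛) :
    2 * mb C1 R W D (2 * P * l / l ^ (R - 1)) 𝓛 ≤
      Szpiro98.bnd C S D (P * ((1 + Real.log P) / 2 ^ t)) 𝓛 := by
  have h1 := LOCP.one_le_log h
  have h2 := Real.log_nonneg hD
  have hlq : ∀ q : ℕ, 0 ≤ Real.log q := fun q => Real.log_natCast_nonneg q
  have e : 2 * mb C1 R W D (2 * P * l / l ^ (R - 1)) 𝓛 = 4 * (C1 ^ R * W / l ^ (R - 1)) * l *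
      ((√D * (1 + Real.log D) ^ 4) * P * Real.log 𝓛 ^ 3) := by
    rw [mb]
    ring
  have e' : Szpiro98.bnd C S D (P * ((1 + Real.log P) / 2 ^ t)) 𝓛 =
      C * ((∏ q ∈ S, C * Real.log q ^ 3) * (1 / 2) ^ t) * (1 + Real.log P) *
      ((√D * (1 + Real.log D) ^ 4) * P * Real.log 𝓛 ^ 3) := by
    rw [Szpiro98.bnd, one_div, inv_pow]
    ring
  rw [e, e']
  refine mul_le_mul_of_nonneg_right ?_ (by positivity)
  have hp0 : 0 ≤ ∏ q ∈ S, (6 * Real.log q) ^ 3 := prod_nonneg fun q _ => by have := hlq q; positivity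
  have hc3 : 0 ≤ C1 ^ 3 := by positivity
  have hp1 : 0 ≤ ∏ q ∈ S, C * Real.log q ^ 3 :=
    prod_nonneg fun q _ => mul_nonneg (by linarith) (pow_nonneg (hlq q) 3)
  have a1 : C1 * (30000 * s) / l ≤ 1 / 2 := by
    rw [div_le_iff₀ (by linarith)]
    linarith
  have a2 : C1 ^ R * W / l ^ (R - 1) ≤
      C1 ^ 3 * ((∏ q ∈ S, C * Real.log q ^ 3) * (1 / 2) ^ t) := by
    calc C1 ^ R * W / l ^ (R - 1)
        ≤ C1 ^ (3 * S.card + 3 + t) * ((∏ q ∈ S, (6 * Real.log q) ^ 3) * (30000 * s) ^ t) /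
            l ^ t := by gcongr
      _ = C1 ^ 3 * ((∏ q ∈ S, (216 * C1 ^ 3 * Real.log q ^ 3)) * (C1 * (30000 * s) / l) ^ t) := by
          have : ∏ q ∈ S, (216 * C1 ^ 3 * Real.log q ^ 3) =
              (C1 ^ 3) ^ S.card * ∏ q ∈ S, (6 * Real.log q) ^ 3 := by
            rw [← prod_const, ← prod_mul_distrib]
            exact prod_congr rfl fun q _ => by ring
          rw [this, div_pow, mul_pow C1, pow_add, pow_add, pow_mul]
          ring
      _ ≤ _ := by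
          refine mul_le_mul_of_nonneg_left (mul_le_mul (prod_le_prod
            (fun q _ => by have := hlq q; positivity) fun q _ => ?_)
            (pow_le_pow_left₀ (by positivity) a1 t) (by positivity) hp1) hc3
          exact mul_le_mul_of_nonneg_right hC (pow_nonneg (hlq q) 3)
  refine mul_le_mul ?_ hl2 (by linarith) (mul_nonneg (by linarith) (by positivity))
  calc _ ≤ 4 * (C1 ^ 3 * ((∏ q ∈ S, C * Real.log q ^ 3) * (1 / 2) ^ t)) := by linarith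
    _ = 4 * C1 ^ 3 * ((∏ q ∈ S, C * Real.log q ^ 3) * (1 / 2) ^ t) := by ring
    _ ≤ _ := mul_le_mul_of_nonneg_right (by linarith) (by positivity)

lemma pow_le_exp (R l : ℕ) (hl : 1 ≤ l) : (l : ℝ) ^ (R - 1) ≤ Real.exp ((R * l : ℕ) : ℝ) := by
  have h1 : (1 : ℝ) ≤ l := by exact_mod_cast hl
  calc (l : ℝ) ^ (R - 1) ≤ (l : ℝ) ^ R := pow_le_pow_right₀ h1 (Nat.sub_le _ _)
    _ ≤ Real.exp l ^ R := pow_le_pow_left₀ (by linarith) (by linarith [Real.add_one_le_exp (l : ℝ)]) R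
    _ = _ := by rw [← Real.exp_nat_mul, Nat.cast_mul]

end LOCT

open LOCP in
theorem loct (h1 : AuxStmt) (h2 : MidStmt) (h3 : RefPStmt) : LocTStmt := by
  classical
  obtain ⟨C1, hC1, h2⟩ := h2
  refine ⟨4000 * 180003 * C1 + 2 + 216 * C1 ^ 3,
    fun C hC p _ ι K _ _ hK K3 σ τ r hρ β n S 𝓛 t₀ hne hn hS hnS h𝓛 hβ hlp hb => ?_⟩
  obtain ⟨hF, hi, hu⟩ := anp p
  have hp : p.Prime := Fact.out
  obtain ⟨P, hP⟩ := val p K (ι.comp σ)
  obtain ⟨P', hP'⟩ := val p K (ι.comp τ)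
  have β0 : β ≠ 0 := by
    rintro rfl
    exact hne (by simp)
  obtain ⟨S', r0, hPS, hcard, hwt, hr0, hsu, hsz, hrat⟩ :=
    sun K K3 β n S 𝓛 P β0 hn hS hnS (by linarith) hβ
  obtain ⟨S2, hsub, hP2, hP2', hc2, hw2, hrat2⟩ := h1 K hK K3 (S'.erase P') t₀ P P'
    (fun k => hPS (mem_of_mem_erase k)) (notMem_erase _ _)
    fun x hx => hrat x ⟨hx.1, fun v hv => hx.2 v fun k => hv (mem_of_mem_erase k)⟩
  have hD := one_le_dk K
  have hlD := Real.log_nonneg hD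
  have hce : (S'.erase P').card ≤ 3 * S.card := (card_erase_le (s := S') (a := P')).trans hcard
  obtain ⟨s₀, hs₀⟩ : ∃ s₀ : ℝ, s₀ = t₀ + S.card + 1 + Real.log (dk K) := ⟨_, rfl⟩
  rw [← hs₀] at hlp
  have ht0 : (0 : ℝ) ≤ t₀ := Nat.cast_nonneg _
  have hS0 : (0 : ℝ) ≤ S.card := Nat.cast_nonneg _
  have hs1 : 1 ≤ s₀ := by linarith
  obtain ⟨R, hR⟩ : ∃ R, R = S2.card + rk K + 0 + 1 := ⟨_, rfl⟩
  have hR1 : 1 ≤ R := by omega
  have hR2 : R ≤ 3 * S.card + 3 + t₀ := by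
    have := rk_le K K3
    omega
  have hR3 : (R : ℝ) ≤ 3 * s₀ := by
    have : (R : ℝ) ≤ 3 * S.card + 3 + t₀ := by exact_mod_cast hR2
    linarith
  obtain ⟨l, hl⟩ : ∃ l : ℕ, l = ⌈60000 * C1 * s₀⌉₊ := ⟨_, rfl⟩
  have hcs : 1 ≤ C1 * s₀ := one_le_mul_of_one_le_of_one_le hC1 hs1
  have hl1 : 60000 * C1 * s₀ ≤ l := hl ▸ Nat.le_ceil _
  have hl2 : (l : ℝ) ≤ 60001 * (C1 * s₀) := by
    have := Nat.ceil_lt_add_one (a := 60000 * C1 * s₀) (by linarith)
    rw [← hl] at this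
    linarith
  have hl3 : (1 : ℝ) ≤ l := by linarith
  have hl4 : 1 ≤ l := by exact_mod_cast hl3
  obtain ⟨N, hN⟩ : ∃ N, N = R * l := ⟨_, rfl⟩
  have hRN : R ≤ N := hN ▸ Nat.le_mul_of_pos_right _ hl4
  have hlN : l ≤ N := hN ▸ Nat.le_mul_of_pos_left _ hR1
  have hN1 : 1 ≤ N := hR1.trans hRN
  have hN0 : (1 : ℝ) ≤ N := by exact_mod_cast hN1
  have hc3 : 0 ≤ C1 ^ 3 := by positivity
  have hNp : 4000 * (N : ℝ) + 2 ≤ Real.log p := by
    have a : (N : ℝ) ≤ 3 * s₀ * (60001 * (C1 * s₀)) := by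
      rw [hN, Nat.cast_mul]
      exact mul_le_mul hR3 hl2 (by linarith) (by linarith)
    have b : 1 ≤ s₀ ^ 2 := one_le_pow₀ hs1
    have c : (4000 * 180003 * C1 + 2) * s₀ ^ 2 ≤ C * s₀ ^ 2 :=
      mul_le_mul_of_nonneg_right (by linarith) (by linarith)
    nlinarith
  have hp0 : (0 : ℝ) < p := by exact_mod_cast hp.pos
  have hpe : Real.exp (4000 * N + 2) ≤ p := (Real.le_log_iff_exp_le hp0).1 hNp
  have hp2 : p ≠ 2 := by
    rintro rfl
    have := Real.log_two_lt_d9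
    push_cast at hNp
    linarith
  have hpq : ¬ p ∣ 2 := fun k => hp2 ((Nat.prime_dvd_prime_iff_eq hp Nat.prime_two).1 k)
  obtain ⟨ω1, ω2⟩ := om_le hN1
  have ω0 : 0 < om N := Real.exp_pos _
  have hpω : 4 ≤ p * om N ^ 2 := by
    have a : Real.exp (4000 * N + 2) * om N ^ 2 = Real.exp 1 * Real.exp 1 := by
      rw [om, ← Real.exp_nat_mul, ← Real.exp_add, ← Real.exp_add]
      congr 1
      push_cast
      ring
    have b := Real.add_one_le_exp (1 : ℝ)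
    calc (4 : ℝ) ≤ Real.exp 1 * Real.exp 1 := by nlinarith
      _ ≤ _ := by rw [← a]; gcongr
  have md : ∀ (a : ℝ) (ha : 0 < a) (t : ℂ_[p]), t ∈ (IsUltrametricDist.closedBall_openAddSubgroup ℂ_[p]
      (r := a) ha : AddSubgroup ℂ_[p]) ↔ ‖t‖ ≤ a := fun a ha t => mem_closedBall_zero_iff
  let s : Setup ℂ_[p] K :=
    { q := 2
      R := R
      N := N
      e := 0
      W := fun _ => om N
      Dom := IsUltrametricDist.closedBall_openAddSubgroup ℂ_[p] (r := 1 / 16) (by norm_num)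
      D' := IsUltrametricDist.closedBall_openAddSubgroup ℂ_[p] (r := om N) ω0
      ι := ι
      σ := σ
      τ := τ
      S := S2
      ψ := 0
      hq := Nat.prime_two
      q3 := by norm_num
      an := an_ultra hF Nat.prime_two.pos (hu 2 hpq) ω0.le ω2 hi
      le := fun t ht => (md _ _ t).2 (by linarith [(md _ _ t).1 ht])
      hι := fun θ M hM h => (norm_le ι h.1).trans hM
      hK := hK
      K3 := K3
      ne := fun h => hne (by rw [h])
      hS := hrat2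
      hd := fun t ht _ _ => by linarith [(md _ _ t).1 ht, Real.exp_pos (-100)]
      hR := hR
      RN := hRN }
  have href := h3 p K s r hp2 hpω rfl (fun _ => rfl) (fun t ht => (md _ ω0 t).2 ht)
    (fun η hη => ⟨(hP η hη.1).1 (hη.2 P hP2), (hP' η hη.1).1 (hη.2 P' hP2')⟩) hρ
  have hW1 : 1 ≤ ∏ v ∈ S2, wt v := Finset.one_le_prod fun v _ => one_le_wt v
  have hW2 : ∏ v ∈ S'.erase P', wt v ≤ ∏ q ∈ S, (6 * Real.log q) ^ 3 :=
    (prod_le_prod_of_subset_of_one_le (erase_subset _ _) (fun v _ => zero_le_one.trans (one_le_wt v))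
      fun v _ _ => one_le_wt v).trans hwt
  have hW3 : ∏ v ∈ S2, wt v ≤ (∏ q ∈ S, (6 * Real.log q) ^ 3) * (30000 * s₀) ^ t₀ := by
    have a : ((S'.erase P').card : ℝ) ≤ 3 * S.card := by exact_mod_cast hce
    have b : (0 : ℝ) ≤ (S'.erase P').card := Nat.cast_nonneg _
    have c : 0 ≤ ∏ v ∈ S'.erase P', wt v := prod_nonneg fun v _ => zero_le_one.trans (one_le_wt v)
    exact hw2.trans (mul_le_mul hW2 (pow_le_pow_left₀ (by linarith) (by linarith) _)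
      (pow_nonneg (by linarith) _) (c.trans hW2))
  have hle : (l : ℝ) ^ (R - 1) ≤ Real.exp N := hN ▸ LOCT.pow_le_exp R l hl4
  have hlpos : (0 : ℝ) < (l : ℝ) ^ (R - 1) := by positivity
  have hsplit : Real.exp (4000 * N + 2) = Real.exp (3999 * N + 2) * Real.exp N := by
    rw [← Real.exp_add]
    congr 1
    ring
  have he1 := Real.add_one_le_exp (3999 * (N : ℝ) + 2)
  have he0 := Real.exp_pos (N : ℝ)
  have hκ2 : 2000 * (N : ℝ) + 1 ≤ 2 * p * l / (l : ℝ) ^ (R - 1) := by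
    rw [le_div_iff₀ hlpos]
    calc _ ≤ Real.exp (3999 * N + 2) * Real.exp N :=
          mul_le_mul (by linarith) hle hlpos.le (Real.exp_pos _).le
      _ ≤ p := hsplit ▸ hpe
      _ ≤ _ := by nlinarith
  have hκ1 : (l : ℝ) ^ (R - 1) ≤ 2 * p := by
    have : Real.exp N ≤ Real.exp (4000 * N + 2) := Real.exp_le_exp.2 (by linarith)
    linarith
  have b1 := le_mb (C := C1) R hC1 hW1 hD (le_trans (by positivity) hκ2) h𝓛
  have b2 := LOCT.mb_le (C := C) (P := p) (l := l) hC1 (by linarith) hR2 (by omega) (by linarith) hW3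
    (by linarith) hl1 hl3 (by
      have : (l : ℝ) ≤ N := by exact_mod_cast hlN
      linarith) hp0.le hD h𝓛
  have key : ∀ tb : ℂ_[p], 3 ≤ 𝓛 → SU S2 (β ^ 6 / r0) →
      Sz (β ^ 6 / r0) (200 * 𝓛) → |(0 : ℝ)| ≤ 200 * 𝓛 → tb ∈ s.D' → s.Lg (β ^ 6 / r0) tb → tb ≠ 0 →
      mb C1 R (∏ v ∈ S2, wt v) (dk K) (2 * p * l / (l : ℝ) ^ (R - 1)) 𝓛 < 𝓛 →
      Real.exp (-mb C1 R (∏ v ∈ S2, wt v) (dk K) (2 * p * l / (l : ℝ) ^ (R - 1)) 𝓛) ≤ ‖tb‖ :=
    fun tb => h2 ℂ_[p] K s l _ 𝓛 (β ^ 6 / r0) tb rfl hl4 hN hκ1 href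
  generalize mb C1 R (∏ v ∈ S2, wt v) (dk K) (2 * p * l / (l : ℝ) ^ (R - 1)) 𝓛 = b at b1 b2 key
  have τ0 : ι (τ β) ≠ 0 := by simpa using β0
  obtain ⟨x, hx⟩ : ∃ x, ι (σ β) = x * ι (τ β) := ⟨_, (div_mul_cancel₀ _ τ0).symm⟩
  have x1 : x ≠ 1 := by
    rintro rfl
    exact hne (ι.injective (by rw [hx, one_mul]))
  rw [hx, ← sub_one_mul, norm_mul]
  refine mul_le_mul_of_nonneg_right ?_ (norm_nonneg _)
  have e1 : Real.exp (-1) ≤ 1 / 2 := by
    rw [Real.exp_neg, one_div]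
    exact inv_anti₀ (by norm_num) (by linarith [Real.add_one_le_exp (1 : ℝ)])
  by_cases hc : ‖x - 1‖ ≤ om N / 2
  swap
  · refine le_trans ?_ (not_le.1 hc).le
    calc _ ≤ Real.exp (-(2000 * N) + -1) := Real.exp_le_exp.2 (by linarith)
      _ ≤ _ := by
        rw [Real.exp_add, om, div_eq_mul_one_div]
        gcongr
  obtain ⟨t, ht, hte⟩ := exists_log hF (x := x) (r := 2 * ‖x - 1‖) (by linarith) (by linarith)
  obtain ⟨t1, t2⟩ := exp_nat_mul hF (t := t) (by linarith) 6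
  have t0 : t ≠ 0 := by
    rintro rfl
    exact x1 (by rw [← hte, exp_zero])
  have xn : ‖x‖ = 1 := by
    have := IsUltrametricDist.norm_add_eq_max_of_norm_ne_norm (x := x - 1) (y := 1)
      (by rw [norm_one]; linarith)
    rw [sub_add_cancel, norm_one] at this
    rw [this, max_eq_right (by linarith)]
  have lg : x ^ 6 * ι (τ (β ^ 6 / r0)) = ι (σ (β ^ 6 / r0)) := by
    simp only [map_div₀, map_pow, map_ratCast, hx]
    ring
  have su : SU S2 (β ^ 6 / r0) := by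
    refine ⟨hsu.1, fun v hv => ?_⟩
    by_cases h : v = P'
    · rw [h]
      refine (hP' _ hsu.1).2 ?_
      have a := (hP _ hsu.1).1 (hsu.2 P hPS)
      have b := congrArg norm lg
      rw [norm_mul, norm_pow, xn, one_pow, one_mul] at b
      exact b.trans a
    · exact hsu.2 v fun k => hv (hsub (mem_erase.2 ⟨h, k⟩))
  have fin := key ((6 : ℕ) * t) h𝓛 su hsz (by simp; linarith)
    ((md _ ω0 _).2 (by linarith)) (by rw [← hte, ← t2] at lg; exact lg)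
    (mul_ne_zero (by norm_num) t0) (by linarith)
  calc _ ≤ Real.exp (-b + -1) := Real.exp_le_exp.2 (by linarith)
    _ ≤ 2 * ‖x - 1‖ * (1 / 2) := by
      rw [Real.exp_add]
      gcongr
      linarith
    _ = _ := by ring

end Pool.Agent.Szpiro98.V2
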