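import Pool.Agent.Lib.Szpiro98.Blue2

namespace Pool.Agent.Szpiro98.V2

open Finset Module NumberField IsDedekindDomain NormedSpace Pool.Agent.Lib.MP_cafdd5_nt

open Mid in
theorem mid (h1 : CoordStmt) : MidStmt := by
  refine ⟨c0 * (1280 * Real.exp 6), one_le_mul_of_one_le_of_one_le (by norm_num [c0])
    (by linarith [Real.add_one_le_exp 6]),
    fun F _ _ K _ _ s l κ0 L β tb he hl1 hNl hκ0 hRef hL hβ hβ' hψ htb hLg h0 hmb => ?_⟩
  have hl' : (1 : ℝ) ≤ l := by exact_mod_cast hl1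
  have hlp : (0 : ℝ) < l ^ (s.R - 1) := by positivity
  obtain ⟨κ, hκe⟩ : ∃ κ, κ = κ0 / l ^ (s.R - 1) := ⟨_, rfl⟩
  have hκ : 1 ≤ κ := by rw [hκe]; exact (one_le_div hlp).2 hκ0
  have hκ0e : κ0 = l ^ (s.R - 1) * κ := by rw [hκe]; field_simp
  have hNe : (s.N : ℝ) = s.R * l := by exact_mod_cast hNl
  have hmbe : mb (c0 * (1280 * Real.exp 6)) s.R (∏ v ∈ s.S, wt v) (dk K) (κ0 * l / l ^ (s.R - 1)) L =
      (c0 * (1280 * Real.exp 6)) ^ s.R * (∏ v ∈ s.S, wt v) * (√(dk K) * (1 + Real.log (dk K)) ^ 4) * κ *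
        Real.log L ^ 3 * l := by
    rw [mb, hκe]; ring
  rw [hmbe] at hmb ⊢
  have hD := one_le_dk K
  obtain ⟨hY0, hY⟩ := log_Y hD
  have hR : 1 ≤ ∏ v ∈ s.S, wt v := one_le_prod fun v _ => one_le_wt v
  have hl : 1 ≤ Real.log L := (Real.le_log_iff_exp_le (by linarith)).2
    (Real.exp_one_lt_d9.le.trans (by linarith))
  have hN : 1 ≤ s.R := by rw [s.hR]; omega
  have hN' : (1 : ℝ) ≤ s.R := by exact_mod_cast hN
  have hSN : (s.S.card : ℝ) + 1 ≤ s.R := by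
    exact_mod_cast (by rw [s.hR]; omega : s.S.card + 1 ≤ s.R)
  have hS0 : (0 : ℝ) ≤ s.S.card := Nat.cast_nonneg _
  have hsq : 1 ≤ √(dk K) := Real.one_le_sqrt.2 hD
  obtain ⟨A0, hA1, hA2⟩ : ∃ A0 : ℕ, 2000 * s.R ^ 2 * Real.log L ≤ A0 ∧
      (A0 : ℝ) ≤ 2001 * s.R ^ 2 * Real.log L := by
    have := one_le_mul_of_one_le_of_one_le (one_le_pow₀ (n := 2) hN') hl
    refine ⟨_, Nat.le_ceil _, (Nat.ceil_lt_add_one (by positivity)).le.trans (by linarith)⟩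
  have hA : (1 : ℝ) ≤ A0 := by
    linarith [one_le_mul_of_one_le_of_one_le (one_le_pow₀ (n := 2) hN') hl]
  obtain ⟨R', hR'⟩ : ∃ R', R' = (∏ v ∈ s.S, wt v) * (9 * √(dk K)) *
    (1 + Real.log (9 * √(dk K))) ^ 4 := ⟨_, rfl⟩
  have hR1 : 1 + Real.log (9 * √(dk K)) ≤ R' := by
    rw [hR']
    exact (le_self_pow₀ (by linarith) four_ne_zero).trans (le_mul_of_one_le_left (by positivity)
      (one_le_mul_of_one_le_of_one_le hR (by linarith)))
  have hR2 : R' ≤ (∏ v ∈ s.S, wt v) * (9 ^ 5 * (√(dk K) * (1 + Real.log (dk K)) ^ 4)) := by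
    rw [hR']
    refine (mul_le_mul_of_nonneg_left (pow_le_pow_left₀ (by linarith) hY 4)
      (by positivity)).trans (le_of_eq (by ring))
  have hR0 : 1 ≤ R' := by linarith
  have hc : 1 ≤ A0 * Real.exp (6 * s.R) * 10 ^ s.R := one_le_mul_of_one_le_of_one_le
    (one_le_mul_of_one_le_of_one_le hA (Real.one_le_exp (by positivity))) (one_le_pow₀ (by norm_num))
  have hΘ : 36 * (R' * κ) ≤ 36 * A0 * Real.exp (6 * s.R) * 10 ^ s.R * R' * κ := by
    nlinarith [mul_le_mul_of_nonneg_right hc (show 0 ≤ R' * κ by positivity)]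
  have hRκ : R' ≤ R' * κ := le_mul_of_one_le_right (by linarith) hκ
  have hκR : κ ≤ R' * κ := le_mul_of_one_le_left (by linarith) hR0
  obtain ⟨J, hJ1, hJ2⟩ : ∃ J : ℕ, 36 * A0 * Real.exp (6 * s.R) * 10 ^ s.R * R' * κ ≤ s.q ^ J ∧
      (s.q : ℝ) ^ J ≤ 3 * (36 * A0 * Real.exp (6 * s.R) * 10 ^ s.R * R' * κ) := by
    obtain ⟨n, a, b⟩ := exists_nat_pow_near (x := 36 * A0 * Real.exp (6 * s.R) * 10 ^ s.R * R' * κ)
      (y := (s.q : ℝ)) (by linarith) (by exact_mod_cast s.hq.one_lt)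
    refine ⟨n + 1, b.le, ?_⟩
    rw [pow_succ']
    exact mul_le_mul (by exact_mod_cast s.q3) a (by positivity) (by norm_num)
  have hnum := mul_le_mul_of_nonneg_right
    (num hN (by linarith) (by linarith) (by linarith) (by linarith) hA2 hR2 hJ2)
    (show (0 : ℝ) ≤ l by linarith)
  have hx : (0 : ℝ) < s.q ^ J := by linarith
  have hZ0 : (0 : ℝ) < 4 ^ s.R * A0 * s.q ^ J := by positivity
  have hZl : (4 : ℝ) ^ s.R * A0 * s.q ^ J * l ≤ L :=
    (mul_le_mul_of_nonneg_right (le_mul_of_one_le_right hZ0.le (by nlinarith))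
      (by linarith)).trans (hnum.trans hmb.le)
  have hZ : (4 : ℝ) ^ s.R * A0 * s.q ^ J ≤ L := (le_mul_of_one_le_right hZ0.le hl').trans hZl
  obtain ⟨y, hy⟩ : ∃ y : ℝ, y = l * s.q ^ J := ⟨_, rfl⟩
  have hxy : (s.q : ℝ) ^ J ≤ y := by rw [hy]; exact le_mul_of_one_le_left hx.le hl'
  have hNy : (s.N : ℝ) * s.q ^ J = s.R * y := by rw [hNe, hy]; ring
  have hNx : s.R * y ≤ 200 * L := by
    have h4 : (s.R : ℝ) ≤ 4 ^ s.R := by exact_mod_cast (Nat.lt_pow_self (by norm_num)).le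
    have := mul_le_mul_of_nonneg_right (h4.trans (le_mul_of_one_le_right (by positivity) hA))
      (hx.le.trans hxy)
    rw [hy] at this ⊢
    linarith
  obtain ⟨Γ, M, hM, hcard, hΓ1, hΓ2⟩ := fam cnt K s.K3 s.S (y / 5) (by linarith)
  rw [← hR'] at hcard
  obtain ⟨I, t, hI, hinj, hI1, hI2⟩ := hRef J Γ fun γ hγ γ' hγ' => by
    obtain ⟨a, b, c⟩ := hΓ2 γ hγ γ' hγ'
    refine ⟨a, fun e => ?_⟩
    obtain ⟨r, hr⟩ := eq_rat s.hK s.ne e
    have h0' := (hΓ1 γ' hγ').1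
    rcases s.hS r (hr ▸ a) with rfl | rfl
    · exact (div_eq_one_iff_eq h0').1 (hr.trans Rat.cast_one)
    · rw [div_eq_iff h0'] at hr
      exact (c (by rw [hr]; simp)).elim
  refine le_trans (Real.exp_le_exp.2 (neg_le_neg (le_trans ?_ hnum))) (h1 F K s _ I Prod.fst t M J
    A0 (200 * L) β tb hM (by linarith) (fun i hi => ?_) (fun i hi k hk => ?_) hinj ?_
    ((log_A hN' (by linarith) hl).trans hA1) hβ hβ' hψ htb hLg h0)
  · rw [mul_assoc _ _ (l : ℝ)]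
    refine mul_le_mul_of_nonneg_left ?_ hZ0.le
    have := Real.log_le_log (by positivity) (mul_le_mul_of_nonneg_left hZ (by norm_num : (0 : ℝ) ≤ 24))
    rw [Real.log_mul (x := 24) (y := L) (by norm_num) (by linarith)] at this
    have h3 := Real.log_le_sub_one_of_pos (show (0 : ℝ) < 24 by norm_num)
    have h4 : (1 : ℝ) ≤ s.N := by rw [hNe]; exact one_le_mul_of_one_le_of_one_le hN' hl'
    rw [show 2073 * (s.R : ℝ) * Real.log L * l = 2073 * s.N * Real.log L by rw [hNe]; ring]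
    nlinarith [mul_nonneg (sub_nonneg.2 h4) (sub_nonneg.2 hl)]
  · obtain ⟨a, b, c⟩ := hΓ1 _ (hI1 i hi).1
    refine ⟨a, (hI1 i hi).2, ((b.hs _).mul (c.hs _)).mono ?_⟩
    rw [← Real.exp_add, hNy]
    exact Real.exp_le_exp.2 (by nlinarith)
  · obtain ⟨a, b, -⟩ := hΓ2 _ (hI1 i hi).1 _ (hI1 k hk).1
    obtain ⟨c, d, e⟩ := hI2 i hi k hk
    exact ⟨a, sz_mono b (by nlinarith), c.trans (hNy.le.trans hNx), d, e⟩
  · have h3 : ((s.q : ℝ) ^ J / 5) ^ (s.R - 1) ≤ I.card * κ * R' := by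
      refine le_of_mul_le_mul_left ?_ hlp
      rw [← mul_pow, ← mul_div_assoc, ← hy]
      rw [show s.S.card + rk K = s.R - 1 by rw [s.hR, he]; rfl] at hcard
      refine hcard.trans ((mul_le_mul_of_nonneg_right hI (by linarith)).trans (le_of_eq ?_))
      rw [hκ0e]; ring
    have h4 : (10 : ℝ) ^ (s.R - 1) ≤ 10 ^ s.R := pow_le_pow_right₀ (by norm_num) (Nat.sub_le _ _)
    have hκ' : 0 ≤ κ := by linarith
    have hR0' : 0 ≤ R' := by linarith
    clear hκ0e hκe hR' hy hNe hNl hNy hmbe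
    calc _ = 72 * A0 * Real.exp (6 * s.R) * (10 ^ (s.R - 1) * ((s.q : ℝ) ^ J / 5) ^ (s.R - 1)) := by
          rw [← mul_pow]; congr 2; ring
      _ ≤ 72 * A0 * Real.exp (6 * s.R) * (10 ^ s.R * (I.card * κ * R')) := by gcongr
      _ = I.card * (2 * (36 * A0 * Real.exp (6 * s.R) * 10 ^ s.R * R' * κ)) := by ring
      _ ≤ _ := by gcongr

end Pool.Agent.Szpiro98.V2
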