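import Pool.Agent.Lib.Szpiro98.Blue2

/-! Block NUMA: numerical bound for the second-round local bound. -/

namespace Pool.Agent.Szpiro98.V2

open Finset Pool.Agent.Lib.MP_cafdd5_nt

namespace NumA

lemma easy {C : ℝ} (hC : 10 ≤ C) : ∃ K : ℝ, 1 ≤ K ∧ ∀ (S : Finset ℕ) (N D κ : ℝ), (∀ q ∈ S, 1 ≤ q) →
    ((∏ q ∈ S, q : ℕ) : ℝ) ≤ 6 * N → 1 ≤ N → 1 ≤ D → 0 ≤ κ → D ≤ 6 ^ 15 * N → D * κ ^ 2 ≤ 6 ^ 18 * N →
    C * (∏ q ∈ S, C * Real.log q ^ 3) * (√D * (1 + Real.log D) ^ 4) * κ ≤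
      K * N * Real.exp (-(Real.log N / 4)) := by
  obtain ⟨K, K1, hK⟩ := SumB.prod_le (C := C) (η := 1 / 8) (by linarith) (by norm_num)
  refine ⟨C * (K * 6) * (6 ^ 9 * 76 ^ 4 * 33 ^ 4), ?_, fun S N D κ hS hP hN hD hκ h1 h2 => ?_⟩
  · have : 1 ≤ C * (K * 6) := by nlinarith
    nlinarith
  have N0 : 0 < N := by linarith
  have a1 := GLUE.mid_le (Q := 1) hD hN hκ h1 (by simpa using h2)
  rw [mul_one] at a1
  have a2 := SumB.one_add_log_le hN (η := 1 / 8) (by norm_num)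
  have a3 : ∏ q ∈ S, C * Real.log q ^ 3 ≤ K * 6 * N ^ (1 / 8 : ℝ) := by
    refine (hK S hS).trans ?_
    rw [mul_assoc]
    refine mul_le_mul_of_nonneg_left ?_ (by linarith)
    refine (Real.rpow_le_rpow (by positivity) hP (by norm_num)).trans ?_
    rw [Real.mul_rpow (by norm_num) N0.le]
    refine mul_le_mul_of_nonneg_right ?_ (by positivity)
    calc (6 : ℝ) ^ (1 / 8 : ℝ) ≤ 6 ^ (1 : ℝ) := Real.rpow_le_rpow_of_exponent_le (by norm_num) (by norm_num)
      _ = 6 := Real.rpow_one 6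
  have a4 : N ^ (1 / 8 : ℝ) * (√N * N ^ (1 / 8 : ℝ)) = N * Real.exp (-(Real.log N / 4)) := by
    rw [Real.sqrt_eq_rpow, ← Real.rpow_add N0, ← Real.rpow_add N0, Real.rpow_def_of_pos N0]
    nth_rewrite 2 [← Real.exp_log N0]
    rw [← Real.exp_add]
    congr 1
    ring
  have l1 := Real.log_nonneg hN
  have l2 := Real.log_nonneg hD
  have p0 : 0 ≤ ∏ q ∈ S, C * Real.log q ^ 3 :=
    prod_nonneg fun q _ => mul_nonneg (by linarith) (pow_nonneg (Real.log_natCast_nonneg q) 3)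
  have C0 : 0 ≤ C := by linarith
  have K0 : 0 ≤ K := by linarith
  calc _ = C * (∏ q ∈ S, C * Real.log q ^ 3) * (√D * (1 + Real.log D) ^ 4 * κ) := by ring
    _ ≤ C * (K * 6 * N ^ (1 / 8 : ℝ)) * ((6 ^ 9 * 76 ^ 4) * (√N * ((1 + 4 / (1 / 8)) ^ 4 * N ^ (1 / 8 : ℝ)))) := by
      refine mul_le_mul (mul_le_mul_of_nonneg_left a3 C0) (a1.trans ?_) (by positivity) (by positivity)
      gcongr
    _ = C * (K * 6) * (6 ^ 9 * 76 ^ 4 * 33 ^ 4) * (N ^ (1 / 8 : ℝ) * (√N * N ^ (1 / 8 : ℝ))) := by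
      norm_num; ring
    _ = _ := by rw [a4]; ring

lemma key {c u z w r m : ℝ} (c0 : 0 < c) (c1 : c ≤ 1 / 8) (hu : 0 ≤ u) (hz : 0 ≤ z) (hw : w ≤ 87 + 3 * z)
    (hr : 96 * c * √u ≤ r) (hm : m ≤ (1 + u) / 2 ^ ⌊r - w⌋₊) :
    u ^ 3 * Real.exp (-(z / 4)) * m ≤ (8 / c) ^ 8 * Real.exp 3 * Real.exp (-(c * √(u + z))) := by
  set t := ⌊r - w⌋₊
  set x := √u with hx
  have x0 : 0 ≤ x := Real.sqrt_nonneg u
  have xu : x ^ 2 = u := Real.sq_sqrt hu
  have t0 : (0 : ℝ) ≤ t := Nat.cast_nonneg t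
  have t1 : r - w < t + 1 := Nat.lt_floor_add_one _
  have b1 : Real.exp (t / 2) ≤ 2 ^ t := by
    have h2 : Real.exp (1 / 2) ≤ 2 := by
      rw [← Real.le_log_iff_exp_le (by norm_num)]
      linarith [Real.log_two_gt_d9]
    calc Real.exp (t / 2) = Real.exp (1 / 2) ^ t := by rw [← Real.exp_nat_mul]; congr 1; ring
      _ ≤ _ := pow_le_pow_left₀ (by positivity) h2 t
  have b2 : m ≤ (1 + u) * Real.exp (-(t / 2)) := by
    refine hm.trans ?_
    rw [Real.exp_neg, ← div_eq_mul_inv]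
    exact div_le_div_of_nonneg_left (by linarith) (by positivity) b1
  have b3 : u ^ 3 * (1 + u) ≤ (8 / c) ^ 8 * Real.exp (c * x) := by
    have e1 : 1 + x ≤ 8 / c * Real.exp (c * x / 8) := by
      have e2 := Real.add_one_le_exp (c * x / 8)
      have e3 : 1 ≤ 8 / c := by rw [le_div_iff₀ c0]; linarith
      have e4 : 8 / c * (c * x / 8 + 1) = x + 8 / c := by field_simp
      have e5 := mul_le_mul_of_nonneg_left e2 (by linarith : 0 ≤ 8 / c)
      linarith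
    have e6 : 1 + u ≤ (1 + x) ^ 2 := by nlinarith
    calc u ^ 3 * (1 + u) ≤ (1 + u) ^ 3 * (1 + u) := by gcongr; linarith
      _ = (1 + u) ^ 4 := by ring
      _ ≤ ((1 + x) ^ 2) ^ 4 := by gcongr
      _ = (1 + x) ^ 8 := by ring
      _ ≤ (8 / c * Real.exp (c * x / 8)) ^ 8 := by gcongr
      _ = _ := by
        rw [mul_pow, ← Real.exp_nat_mul]
        congr 2
        push_cast
        ring
  have b4 : √(u + z) ≤ x + (1 + z) := by
    rw [Real.sqrt_le_left (by positivity)]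
    nlinarith
  have b5 : c * √(u + z) ≤ c * x + c + c * z := by nlinarith
  have b6 : c * z ≤ z / 8 := by nlinarith
  calc _ ≤ u ^ 3 * Real.exp (-(z / 4)) * ((1 + u) * Real.exp (-(t / 2))) := by gcongr
    _ = u ^ 3 * (1 + u) * (Real.exp (-(z / 4)) * Real.exp (-(t / 2))) := by ring
    _ ≤ (8 / c) ^ 8 * Real.exp (c * x) * (Real.exp (-(z / 4)) * Real.exp (-(t / 2))) := by gcongr
    _ = (8 / c) ^ 8 * Real.exp (c * x + -(z / 4) + -(t / 2)) := by
      rw [Real.exp_add, Real.exp_add]; ring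
    _ ≤ (8 / c) ^ 8 * Real.exp (3 + -(c * √(u + z))) := by
      refine mul_le_mul_of_nonneg_left (Real.exp_le_exp.2 ?_) (by positivity)
      linarith
    _ = _ := by rw [Real.exp_add]; ring

lemma sav_nonneg (C : ℝ) (S : Finset ℕ) (D : ℝ) {κ : ℝ} (h : 1 ≤ κ) : 0 ≤ sav C S D κ := by
  have := Real.log_nonneg h
  exact le_min zero_le_one (by positivity)

lemma card_le {S : Finset ℕ} {N : ℝ} (hS : ∀ q ∈ S, q.Prime) (hN : 1 ≤ N) (h : ((∏ q ∈ S, q : ℕ) : ℝ) ≤ 6 * N) :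
    (S.card : ℝ) ≤ 10 + 2 * Real.log N := by
  have h1 : 2 ^ S.card ≤ ∏ q ∈ S, q := pow_card_le_prod S (fun q => q) 2 fun q hq => (hS q hq).two_le
  have h2 : (2 : ℝ) ^ S.card ≤ 6 * N := le_trans (by exact_mod_cast h1) h
  have h3 := Real.log_le_log (by positivity) h2
  rw [Real.log_pow, Real.log_mul (by norm_num) (by linarith)] at h3
  have k2 : Real.log 6 ≤ 6 - 1 := Real.log_le_sub_one_of_pos (by norm_num)
  have k3 := Real.log_two_gt_d9
  have k4 : (0 : ℝ) ≤ S.card := Nat.cast_nonneg _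
  nlinarith

end NumA

open NumA in
theorem numa : NumAStmt := by
  intro C hC
  obtain ⟨K, K1, hK⟩ := easy hC
  have sC : 3 ≤ √C := Real.le_sqrt_of_sq_le (by linarith)
  set c : ℝ := 1 / (96 * √C) with hc
  have c0 : 0 < c := by positivity
  have c1 : c ≤ 1 / 8 := one_div_le_one_div_of_le (by norm_num) (by linarith)
  have e3 : 1 ≤ Real.exp 3 := Real.one_le_exp (by norm_num)
  have e8 : 1 ≤ (8 / c) ^ 8 := one_le_pow₀ (by rw [le_div_iff₀ c0]; linarith)
  have e9 : 1 ≤ C * (8 / c) ^ 8 := one_le_mul_of_one_le_of_one_le (by linarith) e8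
  refine ⟨c, C * (8 / c) ^ 8 * (K * Real.exp 3), c0, by linarith,
    one_le_mul_of_one_le_of_one_le e9 (one_le_mul_of_one_le_of_one_le K1 e3), ?_⟩
  intro a b d e 𝓛 hD hd he h hS hL
  have hN : (1 : ℝ) ≤ cond a b := by exact_mod_cast GLUE.cond_pos a b
  have hd1 : (1 : ℝ) ≤ |(d : ℝ)| := by exact_mod_cast Int.one_le_abs hd
  have hdN := GLUE.d_le hD hd h
  have hR : ((∏ q ∈ SS a b, q : ℕ) : ℝ) ≤ 6 * (cond a b : ℝ) := by exact_mod_cast SumB.rad_le a b
  have l0 : 0 ≤ Real.log 𝓛 ^ 3 := pow_nonneg (Real.log_nonneg (by linarith)) 3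
  set N : ℝ := ((cond a b : ℕ) : ℝ) with hNd
  have K0 : 0 ≤ K := by linarith
  have N0 : 0 < N := by linarith
  have small : ∀ κ : ℝ, 1 ≤ κ → κ ≤ 4 → bnd C (SS a b) |d| κ 𝓛 ≤
      C * (8 / c) ^ 8 * (K * Real.exp 3) * N * Real.exp (-(c * √(Real.log N))) * Real.log 𝓛 ^ 3 := by
    intro κ k1 k4
    have s0 := sav_nonneg C (SS a b) |(d : ℝ)| k1
    have s1 : sav C (SS a b) |(d : ℝ)| κ ≤ 1 := min_le_left _ _
    have s2 : 0 ≤ κ * sav C (SS a b) |(d : ℝ)| κ := by positivity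
    have s3 : κ * sav C (SS a b) |(d : ℝ)| κ ≤ 4 := by nlinarith
    have s4 : (κ * sav C (SS a b) |(d : ℝ)| κ) ^ 2 ≤ 16 := by nlinarith
    have s5 := mul_le_mul hdN s4 (by positivity) (by positivity)
    have g := hK (SS a b) N |(d : ℝ)| _ (fun q hq => (GLUE.SS_prime hq).one_lt.le) hR hN hd1 s2 hdN (by nlinarith)
    unfold bnd Szpiro98.bnd
    refine mul_le_mul_of_nonneg_right (g.trans ?_) l0
    have y0 : 0 ≤ √(Real.log N) := Real.sqrt_nonneg _
    have y1 : √(Real.log N) ^ 2 = Real.log N := Real.sq_sqrt (Real.log_nonneg hN)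
    have y2 : Real.exp (-(Real.log N / 4)) ≤ Real.exp 3 * Real.exp (-(c * √(Real.log N))) := by
      rw [← Real.exp_add]
      refine Real.exp_le_exp.2 ?_
      nlinarith [sq_nonneg (√(Real.log N) - 1)]
    calc K * N * Real.exp (-(Real.log N / 4)) ≤ K * N * (Real.exp 3 * Real.exp (-(c * √(Real.log N)))) := by
          gcongr
      _ = 1 * (K * Real.exp 3) * N * Real.exp (-(c * √(Real.log N))) := by ring
      _ ≤ _ := by gcongr
  refine ⟨small 1 le_rfl (by norm_num), fun p hp hv => ?_⟩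
  unfold kap
  split_ifs with ho
  · exact small 1 le_rfl (by norm_num)
  have p1 : (1 : ℝ) ≤ p := by exact_mod_cast hp.one_lt.le
  by_cases hp5 : 5 ≤ p
  swap
  · exact small p p1 (by exact_mod_cast (by omega : p ≤ 4))
  have hev : Even (padicValInt p e) := by
    rw [Int.odd_coe_nat, Nat.not_odd_iff_even] at ho
    exact ho
  obtain ⟨-, -, h3⟩ := (h p hp).2 hp5
  obtain ⟨hpd, -⟩ := h3 hv hev
  have : Fact p.Prime := ⟨hp⟩
  have hpc : p ∣ e.natAbs := dvd_of_one_le_padicValNat (le_trans (by norm_num) hv.le)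
  have hm : p ∈ SS a b := hS (Nat.mem_primeFactors.2 ⟨hp, hpc, Int.natAbs_ne_zero.2 he⟩)
  have hpD : (p : ℤ) ∣ disc a b := by
    have hm := hm
    unfold SS at hm
    rcases Finset.mem_insert.1 hm with k | k
    · omega
    rcases Finset.mem_insert.1 k with k | k
    · omega
    exact Int.natCast_dvd.2 (Nat.dvd_of_mem_primeFactors k)
  have hj : p ^ 1 ∣ cond a b :=
    (pow_dvd_pow p (by split_ifs <;> norm_num)).trans (GLUE.pow_dvd_cond hD hp hp5 hpD)
  have h1 := GLUE.dp_le hD hd h hp hpd hj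
  rw [pow_one] at h1 hj
  have pN : (p : ℝ) ≤ N := by rw [hNd]; exact_mod_cast Nat.le_of_dvd (GLUE.cond_pos a b) hj
  have p0 : (0 : ℝ) < p := by linarith
  obtain ⟨M, hM⟩ : ∃ M : ℝ, N = p * M := ⟨N / p, by field_simp⟩
  have M1 : 1 ≤ M := le_of_mul_le_mul_left (by linarith) p0
  have dM : |(d : ℝ)| ≤ 6 ^ 15 * M := le_of_mul_le_mul_left (by rw [← hNd, hM] at h1; linarith) p0
  have rM : ((∏ q ∈ (SS a b).erase p, q : ℕ) : ℝ) ≤ 6 * M := by
    refine le_of_mul_le_mul_left ?_ p0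
    rw [← mul_prod_erase _ _ hm, Nat.cast_mul, hM] at hR
    linarith
  have g := hK ((SS a b).erase p) M |(d : ℝ)| 1 (fun q hq => (GLUE.SS_prime (mem_of_mem_erase hq)).one_lt.le) rM M1
    hd1 zero_le_one dM (by nlinarith)
  have cM := card_le (fun q hq => GLUE.SS_prime (mem_of_mem_erase hq)) M1 rM
  have cS : ((SS a b).card : ℝ) = ((SS a b).erase p).card + 1 := by exact_mod_cast (card_erase_add_one hm).symm
  have lD : Real.log |(d : ℝ)| ≤ 75 + Real.log M := by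
    have k1 := Real.log_le_log (by linarith) dM
    rw [Real.log_mul (by positivity) (by linarith), Real.log_pow] at k1
    have k2 : Real.log 6 ≤ 6 - 1 := Real.log_le_sub_one_of_pos (by norm_num)
    push_cast at k1
    linarith
  have u0 := Real.log_nonneg p1
  have g2 := key (m := sav C (SS a b) |(d : ℝ)| p) (u := Real.log p) (z := Real.log M)
    (w := (SS a b).card + 1 + Real.log |(d : ℝ)|) (r := √(Real.log p / C)) c0 c1 u0 (Real.log_nonneg M1)
    (by linarith) (by rw [Real.sqrt_div u0, hc]; exact le_of_eq (by field_simp)) (min_le_right _ _)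
  rw [← Real.log_mul p0.ne' (by linarith), ← hM] at g2
  have s0 := sav_nonneg C (SS a b) |(d : ℝ)| p1
  have C0 : 0 ≤ C := by linarith
  unfold bnd Szpiro98.bnd
  refine mul_le_mul_of_nonneg_right ?_ l0
  rw [← mul_prod_erase _ _ hm]
  calc _ = C * (∏ q ∈ (SS a b).erase p, C * Real.log q ^ 3) * (√|(d : ℝ)| * (1 + Real.log |(d : ℝ)|) ^ 4) * 1 *
        (C * p * Real.log p ^ 3 * sav C (SS a b) |(d : ℝ)| p) := by ring
    _ ≤ K * M * Real.exp (-(Real.log M / 4)) * (C * p * Real.log p ^ 3 * sav C (SS a b) |(d : ℝ)| p) :=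
      mul_le_mul_of_nonneg_right g (by positivity)
    _ = C * K * N * (Real.log p ^ 3 * Real.exp (-(Real.log M / 4)) * sav C (SS a b) |(d : ℝ)| p) := by
      rw [hM]; ring
    _ ≤ C * K * N * ((8 / c) ^ 8 * Real.exp 3 * Real.exp (-(c * √(Real.log N)))) :=
      mul_le_mul_of_nonneg_left g2 (by positivity)
    _ = _ := by ring

end Pool.Agent.Szpiro98.V2
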