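import Pool.Agent.Lib.Szpiro98.Blue2

/-! Block NUMB: from the local bounds to the global inequality, second round. -/

namespace Pool.Agent.Szpiro98.V2

open Finset Pool.Agent.Lib.MP_cafdd5_nt

namespace NumB

lemma log_six : Real.log 6 ≤ 2 := by
  rw [Real.log_le_iff_le_exp (by norm_num), show (2 : ℝ) = 1 + 1 by norm_num, Real.exp_add]
  have := Real.exp_one_gt_d9
  nlinarith

lemma log_prod_le (a b : ℤ) : Real.log ((∏ q ∈ SS a b, q : ℕ) : ℝ) ≤ 2 + Real.log (cond a b) := by
  have hN : (1 : ℝ) ≤ cond a b := by exact_mod_cast GLUE.cond_pos a b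
  have h0 : 0 < ∏ q ∈ SS a b, q := Finset.prod_pos fun q hq => (GLUE.SS_prime hq).pos
  have h1 : ((∏ q ∈ SS a b, q : ℕ) : ℝ) ≤ 6 * cond a b := by exact_mod_cast SumB.rad_le a b
  have h2 := Real.log_le_log (by exact_mod_cast h0) h1
  rw [Real.log_mul (by norm_num) (by linarith)] at h2
  linarith [log_six]

lemma log_le {a b : ℤ} {p : ℕ} (hp : p ∈ SS a b) : Real.log p ≤ 2 + Real.log (cond a b) := by
  have h0 : 0 < ∏ q ∈ SS a b, q := Finset.prod_pos fun q hq => (GLUE.SS_prime hq).pos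
  have h1 : p ≤ ∏ q ∈ SS a b, q := Nat.le_of_dvd h0 (Finset.dvd_prod_of_mem (fun q : ℕ => q) hp)
  exact (Real.log_le_log (by exact_mod_cast (GLUE.SS_prime hp).pos) (by exact_mod_cast h1)).trans
    (log_prod_le a b)

lemma card_le (a b : ℤ) : ((SS a b).card : ℝ) + 1 ≤ 4 * (1 + Real.log (cond a b)) := by
  have hN : (1 : ℝ) ≤ cond a b := by exact_mod_cast GLUE.cond_pos a b
  have h1 : 2 ^ (SS a b).card ≤ ∏ q ∈ SS a b, q :=
    Finset.pow_card_le_prod _ _ _ fun q hq => (GLUE.SS_prime hq).two_le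
  have h2 : Real.log ((2 : ℝ) ^ (SS a b).card) ≤ Real.log ((∏ q ∈ SS a b, q : ℕ) : ℝ) :=
    Real.log_le_log (by positivity) (by exact_mod_cast h1)
  rw [Real.log_pow] at h2
  have h3 := log_prod_le a b
  have h4 := Real.log_two_gt_d9
  have h5 := Real.log_nonneg hN
  have h6 : (0 : ℝ) ≤ (SS a b).card := Nat.cast_nonneg _
  nlinarith

lemma E_ge {N c : ℝ} (hN : 1 ≤ N) (hc : c ≤ 1) :
    2 + Real.log N ≤ 4 * (N * Real.exp (-(c * √(Real.log N)))) := by
  have h0 := Real.log_nonneg hN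
  have h1 := Real.sq_sqrt h0
  have h2 := Real.sqrt_nonneg (Real.log N)
  have h3 : N = Real.exp (Real.log N) := (Real.exp_log (by linarith)).symm
  set x := Real.log N
  set y := √x
  have h4 : Real.exp (x / 2) * Real.exp (-(1 / 2)) ≤ N * Real.exp (-(c * y)) := by
    rw [h3, ← Real.exp_add, ← Real.exp_add]
    exact Real.exp_le_exp.2 (by nlinarith [sq_nonneg (y - 1)])
  have h5 := Real.add_one_le_exp (x / 2)
  have h6 := Real.add_one_le_exp (-(1 / 2) : ℝ)
  have h7 : (x / 2 + 1) * (-(1 / 2) + 1) ≤ Real.exp (x / 2) * Real.exp (-(1 / 2)) :=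
    mul_le_mul h5 h6 (by norm_num) (Real.exp_pos _).le
  linarith

lemma poly_le {x c : ℝ} (hx : 0 ≤ x) (c0 : 0 < c) (hc : c ≤ 1) :
    (1 + x) ^ 4 ≤ (16 / c) ^ 8 * Real.exp (c / 2 * √x) := by
  have h1 := Real.sq_sqrt hx
  have h2 := Real.sqrt_nonneg x
  set y := √x
  have h3 : 1 + y ≤ 16 / c * Real.exp (c / 16 * y) := by
    have h4 := Real.add_one_le_exp (c / 16 * y)
    have h5 : 1 ≤ 16 / c := by rw [le_div_iff₀ c0]; linarith
    have h6 : 16 / c * (c / 16 * y + 1) = y + 16 / c := by field_simp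
    have h7 := mul_le_mul_of_nonneg_left h4 (by linarith : 0 ≤ 16 / c)
    linarith
  calc (1 + x) ^ 4 ≤ ((1 + y) ^ 2) ^ 4 := pow_le_pow_left₀ (by linarith) (by nlinarith) 4
    _ = (1 + y) ^ 8 := by ring
    _ ≤ (16 / c * Real.exp (c / 16 * y)) ^ 8 := pow_le_pow_left₀ (by linarith) h3 8
    _ = _ := by
      rw [mul_pow, ← Real.exp_nat_mul]
      congr 2
      push_cast
      ring

lemma boot {L T : ℝ} (hL : 1 ≤ L) (h : L ≤ T * Real.log L ^ 3) (hT : 0 < T) :
    Real.log L ≤ 2 * Real.log (216 * T) := by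
  have h1 := SumB.log_pow_le hL (by norm_num : (0 : ℝ) < 1 / 2) 3 (by norm_num)
  rw [← Real.sqrt_eq_rpow] at h1
  have s : 0 < √L := by positivity
  have h2 : √L * √L ≤ 216 * T * √L := by
    rw [Real.mul_self_sqrt (by linarith)]
    have := mul_le_mul_of_nonneg_left h1 hT.le
    norm_num at this
    linarith
  have h3 : √L ≤ 216 * T := le_of_mul_le_mul_right h2 s
  have h4 := Real.log_le_log s h3
  rw [Real.log_sqrt (by linarith)] at h4
  linarith

lemma final {L N c C : ℝ} (hL : 1 ≤ L) (hN : 1 ≤ N) (c0 : 0 < c) (hc : c ≤ 1) (hC : 1 ≤ C)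
    (h : L ≤ C * (1 + Real.log N) * (N * Real.exp (-(c * √(Real.log N)))) * Real.log L ^ 3) :
    L ≤ C * (2 * Real.log (216 * C) + 4) ^ 3 * (16 / c) ^ 8 * N *
      Real.exp (-(c / 2 * √(Real.log N))) := by
  have h0 := Real.log_nonneg hN
  have h2 := Real.sqrt_nonneg (Real.log N)
  have hK : 0 ≤ Real.log (216 * C) := Real.log_nonneg (by linarith)
  have h3 := boot hL h (by positivity)
  have h4 : Real.log (216 * (C * (1 + Real.log N) * (N * Real.exp (-(c * √(Real.log N)))))) ≤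
      Real.log (216 * C) + 2 * Real.log N := by
    rw [← mul_assoc, ← mul_assoc, Real.log_mul (by positivity) (by positivity),
      Real.log_mul (by positivity) (by positivity), Real.log_exp, ← mul_assoc,
      Real.log_mul (by positivity) (by positivity)]
    have := Real.log_le_sub_one_of_pos (by positivity : 0 < 1 + Real.log N)
    have := mul_nonneg c0.le h2
    linarith
  have h5 : Real.log L ≤ (2 * Real.log (216 * C) + 4) * (1 + Real.log N) := by nlinarith
  have h6 := pow_le_pow_left₀ (Real.log_nonneg hL) h5 3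
  have h7 := poly_le h0 c0 hc
  have e : Real.exp (-(c / 2 * √(Real.log N))) =
      Real.exp (c / 2 * √(Real.log N)) * Real.exp (-(c * √(Real.log N))) := by
    rw [← Real.exp_add]; congr 1; ring
  calc L ≤ _ := h
    _ ≤ C * (1 + Real.log N) * (N * Real.exp (-(c * √(Real.log N)))) *
        ((2 * Real.log (216 * C) + 4) * (1 + Real.log N)) ^ 3 :=
      mul_le_mul_of_nonneg_left h6 (by positivity)
    _ = C * (2 * Real.log (216 * C) + 4) ^ 3 * (N * Real.exp (-(c * √(Real.log N)))) *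
        (1 + Real.log N) ^ 4 := by ring
    _ ≤ C * (2 * Real.log (216 * C) + 4) ^ 3 * (N * Real.exp (-(c * √(Real.log N)))) *
        ((16 / c) ^ 8 * Real.exp (c / 2 * √(Real.log N))) :=
      mul_le_mul_of_nonneg_left h7 (by positivity)
    _ = _ := by rw [e]; ring

end NumB

open NumB in
theorem numb (h : NumAStmt) : NumBStmt := by
  intro C hC
  obtain ⟨c, C', c0, c1, hC', g⟩ := h C hC
  refine ⟨c / 2, 3072 * C' * (2 * Real.log (216 * (3072 * C')) + 4) ^ 3 * (16 / c) ^ 8, by positivity,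
    fun a b hD hL => ?_⟩
  obtain ⟨d, e, hd, he, hok, hS, hI, hP⟩ := hL
  have hN : (1 : ℝ) ≤ cond a b := by exact_mod_cast GLUE.cond_pos a b
  have hL6 := GLUE.LL_ge a b
  obtain ⟨b1, b2⟩ := g a b d e (LL a b) hD hd he hok hS (by linarith)
  refine final (by linarith) hN c0 c1 (by linarith) ?_
  have hE := E_ge hN c1
  have l0 := Real.log_nonneg hN
  have l3 : 1 ≤ Real.log (LL a b) ^ 3 := one_le_pow₀ (GLUE.logLL_ge a b)
  have hcard := card_le a b
  rw [mul_assoc C'] at b1 b2
  obtain ⟨E, hE'⟩ : ∃ E, E = (cond a b : ℝ) * Real.exp (-(c * √(Real.log (cond a b)))) := ⟨_, rfl⟩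
  rw [← hE'] at b1 b2 hE ⊢
  have E0 : 0 ≤ E := by linarith
  obtain ⟨U, hU⟩ : ∃ U : ℝ, U = 4 * (C' * E * Real.log (LL a b) ^ 3) := ⟨_, rfl⟩
  have u0 : E ≤ C' * E * Real.log (LL a b) ^ 3 :=
    (le_mul_of_one_le_left E0 hC').trans (le_mul_of_one_le_right (by positivity) l3)
  have u1 : 2 + Real.log (cond a b) ≤ U := by linarith
  have u2 : C' * E * Real.log (LL a b) ^ 3 ≤ U := by linarith
  have hc0 : (0 : ℝ) ≤ (SS a b).card := Nat.cast_nonneg _
  have key : LL a b ≤ ((SS a b).card + 1) * (192 * U) := by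
    replace b1 := b1.trans u2
    replace b2 := fun p hp hv => (b2 p hp hv).trans u2
    by_cases hLU : LL a b ≤ U
    · nlinarith
    push Not at hLU
    have c1 := hI (b1.trans_lt hLU)
    have c2 : ∀ p ∈ e.natAbs.primeFactors, (padicValInt p e : ℝ) * Real.log p ≤ 32 * U := by
      intro p hp
      have hpp := Nat.prime_of_mem_primeFactors hp
      have l0 := Real.log_natCast_nonneg p
      have l1 : Real.log p ≤ U := (log_le (hS hp)).trans u1
      by_cases hv : 30 < padicValInt p e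
      · have := hP p hpp hv ((b2 p hpp hv).trans_lt hLU)
        linarith [b2 p hpp hv]
      · have h30 : (padicValInt p e : ℝ) ≤ 30 := by exact_mod_cast not_lt.1 hv
        nlinarith
    have c3 : Real.log |(e : ℝ)| ≤ (SS a b).card * (32 * U) := by
      rw [GLUE.log_abs_eq]
      calc _ ≤ (e.natAbs.primeFactors.card : ℝ) * (32 * U) := by
            have := Finset.sum_le_card_nsmul _ _ _ c2
            rwa [nsmul_eq_mul] at this
        _ ≤ _ := mul_le_mul_of_nonneg_right (by exact_mod_cast Finset.card_le_card hS) (by linarith)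
    nlinarith
  refine key.trans ((mul_le_mul_of_nonneg_right hcard (by linarith)).trans_eq ?_)
  rw [hU]
  ring

end Pool.Agent.Szpiro98.V2
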