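import Pool.Agent.Lib.Szpiro98.Blue2

namespace Pool.Agent.Szpiro98.V2

open Finset Module NumberField IsDedekindDomain NormedSpace CLS

theorem core2 {p : ℕ} [hp : Fact p.Prime] (s ω : ℝ) (o : Prop) [Decidable o] (h0 : 0 < ω) (h1 : ω ≤ 1) (hs0 : 0 ≤ s)
    (hs : s ^ 2 = if o then (p : ℝ)⁻¹ else 1) (p2 : p ≠ 2) (hc : 1 ≤ p * ω ^ 2) :
    ∃ (T : Type) (_ : Fintype T) (c : ℚ_[p] × ℚ_[p] → T),
      (Fintype.card T : ℝ) ≤ 2 * p ∧ ∀ U V U' V' : ℚ_[p], ‖U‖ ≤ 1 → ‖V‖ ≤ 1 →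
        ‖U'‖ ≤ 1 → ‖V'‖ ≤ 1 → c (U, V) = c (U', V') →
          s * ‖V * U' - U * V'‖ ≤ ω * ‖(2 : ℚ_[p])‖ := by
  classical
  have hp1 : (1 : ℝ) < p := by exact_mod_cast hp.out.one_lt
  have hpi : (p : ℝ)⁻¹ ≤ 1 := inv_le_one_of_one_le₀ hp1.le
  have hs1 : s ≤ 1 := by
    refine (pow_le_one_iff_of_nonneg hs0 two_ne_zero).1 ?_
    rw [hs]; split_ifs; exacts [hpi, le_rfl]
  have h2 : ‖(2 : ℚ_[p])‖ = 1 := by
    have := (Padic.norm_natCast_eq_one_iff (p := p) (n := 2)).2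
      ((Nat.coprime_primes hp.out Nat.prime_two).2 p2)
    simpa using this
  rw [h2, mul_one]
  have h3 : (p : ℝ)⁻¹ ≤ ω ^ 2 := by
    rw [inv_le_iff_one_le_mul₀' (by positivity)]; exact hc
  by_cases ho : o
  · simp only [ho, if_true] at hs ⊢
    refine ⟨Unit, inferInstance, fun _ => (), by simp; linarith, fun U V U' V' a b a' b' _ => ?_⟩
    refine (mul_le_of_le_one_right hs0 (sub_le (mul_le b a') (mul_le a b'))).trans ?_
    exact (pow_le_pow_iff_left₀ hs0 h0.le two_ne_zero).1 (hs ▸ h3)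
  · obtain ⟨c, hcl⟩ := exists_cls (p := p) 1
    have : NeZero (p ^ 1) := ⟨pow_ne_zero _ hp.out.ne_zero⟩
    refine ⟨Option (ZMod (p ^ 1)), inferInstance,
      fun x => if ‖x.1‖ = 1 then some (c (x.2 / x.1)) else none, ?_,
      fun U V U' V' a b a' b' e => ?_⟩
    · simp only [Fintype.card_option, ZMod.card]
      push_cast
      linarith
    · refine (mul_le_of_le_one_left (norm_nonneg _) hs1).trans
        (le_trans ?_ (h3.trans (by nlinarith)))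
      dsimp only at e
      split_ifs at e with k1 k2 k2
      · have n1 : U ≠ 0 := fun h => by simp [h] at k1
        have n2 : U' ≠ 0 := fun h => by simp [h] at k2
        rw [show V * U' - U * V' = U * (U' * (V / U - V' / U')) by field_simp]
        refine mul_le a (mul_le a' ?_)
        simpa using hcl _ _ (by simpa [k1] using b) (by simpa [k2] using b') (Option.some.inj e)
      · rw [mul_comm U]
        exact sub_le (mul_le b (norm_le_of_lt (a'.lt_of_ne k2)))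
          (mul_le b' (norm_le_of_lt (a.lt_of_ne k1)))

theorem cls2 (p : ℕ) [hp : Fact p.Prime] (ρ : ℂ_[p]) (r : ℚ_[p]) (hr : r ≠ 0)
    (hρ : ρ ^ 2 = algebraMap ℚ_[p] ℂ_[p] r) (ω : ℝ) (h0 : 0 < ω) (h1 : ω ≤ 1) (p2 : p ≠ 2) (hω : 1 ≤ p * ω ^ 2) :
    ∃ (n : ℕ) (cls : ℂ_[p] × ℂ_[p] → Fin n), (n : ℝ) ≤ 2 * p ∧
      ∀ x y x' y' : ℂ_[p], (∃ u v : ℚ_[p], x = algebraMap _ _ u + algebraMap _ _ v * ρ ∧
          y = algebraMap _ _ u - algebraMap _ _ v * ρ) →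
        (∃ u v : ℚ_[p], x' = algebraMap _ _ u + algebraMap _ _ v * ρ ∧
          y' = algebraMap _ _ u - algebraMap _ _ v * ρ) →
        ‖x‖ = 1 → ‖y‖ = 1 → ‖x'‖ = 1 → ‖y'‖ = 1 → cls (x, y) = cls (x', y') → ‖x * y' - y * x'‖ ≤ ω := by
  classical
  have hp1 : (1 : ℝ) < p := by exact_mod_cast hp.out.one_lt
  have hp0 : (p : ℚ_[p]) ≠ 0 := by exact_mod_cast hp.out.ne_zero
  set ι := algebraMap ℚ_[p] ℂ_[p] with hι
  have hn : ∀ a, ‖ι a‖ = ‖a‖ := fun a => PadicComplex.norm_extends' p a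
  set j := r.valuation / 2
  set q : ℚ_[p] := (p : ℚ_[p]) ^ j with hq
  have hq0 : q ≠ 0 := zpow_ne_zero _ hp0
  have hq1 : ι q ≠ 0 := by simpa using hq0
  have hρ0 : ρ ≠ 0 := fun e => hr (by simpa [e] using hρ.symm)
  have hs : ‖ρ / ι q‖ ^ 2 = if Odd r.valuation then (p : ℝ)⁻¹ else 1 := by
    rw [← norm_pow, div_pow, hρ, ← map_pow, ← map_div₀, hn, norm_div, norm_pow, hq, norm_zpow,
      Padic.norm_p, Padic.norm_eq_zpow_neg_valuation hr, inv_zpow', ← zpow_natCast, ← zpow_mul,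
      ← zpow_sub₀ (by positivity)]
    split_ifs with h
    · rw [← zpow_neg_one]
      congr 1
      rw [Int.odd_iff] at h
      omega
    · rw [← zpow_zero (p : ℝ)]
      congr 1
      rw [Int.odd_iff] at h
      omega
  obtain ⟨T, _, c, hc, H⟩ := core2 (p := p) _ ω (Odd r.valuation) h0 h1 (norm_nonneg _) hs p2 hω
  have hl := Function.leftInverse_invFun ι.injective
  refine ⟨Fintype.card T, fun z => Fintype.equivFin T
    (c (Function.invFun ι (z.1 + z.2), Function.invFun ι ((z.1 - z.2) / (ρ / ι q)))), hc, ?_⟩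
  have key : ∀ u v : ℚ_[p], ‖ι u + ι v * ρ‖ = 1 → ‖ι u - ι v * ρ‖ = 1 →
      (ι u + ι v * ρ + (ι u - ι v * ρ) = ι (2 * u) ∧
      (ι u + ι v * ρ - (ι u - ι v * ρ)) / (ρ / ι q) = ι (2 * v * q)) ∧ ‖2 * u‖ ≤ 1 ∧
      ‖2 * v * q‖ ≤ 1 := fun u v a b => by
    have e1 : ι u + ι v * ρ + (ι u - ι v * ρ) = ι (2 * u) := by simp only [map_mul, map_ofNat]; ring
    have e2 : ι u + ι v * ρ + -(ι u - ι v * ρ) = ι (2 * v * q) * (ρ / ι q) := by
      simp only [map_mul, map_ofNat]; field_simp; ring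
    refine ⟨⟨e1, by rw [sub_eq_add_neg, e2, mul_div_cancel_right₀ _ (div_ne_zero hρ0 hq1)]⟩, ?_,
      CLS.norm_le_one ?_⟩
    · rw [← hn, ← e1]
      exact (IsUltrametricDist.norm_add_le_max _ _).trans (max_le a.le b.le)
    · have h3 := (IsUltrametricDist.norm_add_le_max (ι u + ι v * ρ) (-(ι u - ι v * ρ))).trans
        (max_le a.le (by rw [norm_neg, b]))
      rw [e2, norm_mul, hn] at h3
      have h4 := pow_le_one₀ (n := 2) (by positivity) h3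
      rw [mul_pow, hs] at h4
      split_ifs at h4
      · rwa [← div_eq_mul_inv, div_le_one (by positivity)] at h4
      · linarith
  rintro _ _ _ _ ⟨u, v, rfl, rfl⟩ ⟨u', v', rfl, rfl⟩ a b a' b' e
  obtain ⟨⟨e1, e2⟩, n1, n2⟩ := key u v a b
  obtain ⟨⟨e1', e2'⟩, n1', n2'⟩ := key u' v' a' b'
  have e := (Fintype.equivFin T).injective e
  simp only [e1, e2, e1', e2', hl _] at e
  have h3 := H _ _ _ _ n1 n2 n1' n2' e
  have h2 : (0 : ℝ) < ‖(2 : ℚ_[p])‖ := by simp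
  refine le_of_mul_le_mul_right (le_of_eq_of_le ?_ h3) h2
  rw [← hn, ← hn, ← norm_mul, ← norm_mul]
  congr 1
  simp only [map_mul, map_sub, map_ofNat]
  field_simp
  ring

theorem refp' : RefPStmt := by
  have h1 := anp
  classical
  intro p _ K _ _ s r p2 hω hψ hW hD hU ⟨hr, ρ, hρ, hrho⟩ J Γ hΓ
  have ω0 : 0 < om s.N := Real.exp_pos _
  have ω1 : om s.N ≤ 1 / 16 := by
    have hN : (1 : ℝ) ≤ s.N := by exact_mod_cast (by have := s.hR; have := s.RN; omega : 1 ≤ s.N)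
    rw [om, Real.exp_neg, ← one_div]
    refine one_div_le_one_div_of_le (by norm_num) ?_
    linarith [Real.add_one_le_exp (2000 * (s.N : ℝ))]
  rcases Γ.eq_empty_or_nonempty with rfl | ⟨γ0, h0⟩
  · exact ⟨∅, fun _ => 0, by simp, by simp, by simp, by simp⟩
  obtain ⟨n, cls, hn, hcls⟩ := cls2 p ρ r hr hρ (om s.N / 2) (by linarith) (by linarith) p2 (by linarith)
  have hγ0 : γ0 ≠ 0 := fun e => (hΓ γ0 h0 γ0 h0).1.1 (by simp [e])
  set x : K → ℂ_[p] := fun γ => s.ι (s.σ (γ / γ0)) with hx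
  set y : K → ℂ_[p] := fun γ => s.ι (s.τ (γ / γ0)) with hy
  have hx1 : ∀ γ ∈ Γ, ‖x γ‖ = 1 := fun γ h => (hU _ (hΓ γ h γ0 h0).1).1
  have hy1 : ∀ γ ∈ Γ, ‖y γ‖ = 1 := fun γ h => (hU _ (hΓ γ h γ0 h0).1).2
  have hx0 : ∀ γ ∈ Γ, x γ ≠ 0 := fun γ h => norm_pos_iff.1 (by rw [hx1 γ h]; exact one_pos)
  have hy0 : ∀ γ ∈ Γ, y γ ≠ 0 := fun γ h => norm_pos_iff.1 (by rw [hy1 γ h]; exact one_pos)
  obtain ⟨γ1, g1, hmax⟩ := exists_max_image Γ
    (fun γ => (Γ.filter fun γ' => cls (x γ', y γ') = cls (x γ, y γ)).card) ⟨γ0, h0⟩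
  set Γ' := Γ.filter fun γ' => cls (x γ', y γ') = cls (x γ1, y γ1) with hΓ'
  have hcard : Γ.card ≤ Γ'.card * n := by
    refine (card_le_mul_card_image (f := fun γ => cls (x γ, y γ)) Γ Γ'.card fun a ha => ?_).trans
      (Nat.mul_le_mul_left _ ((card_le_univ _).trans_eq (Fintype.card_fin n)))
    obtain ⟨γ, hγ, rfl⟩ := mem_image.1 ha
    exact hmax γ hγ
  have hlog : ∀ γ ∈ Γ', ∃ t : ℂ_[p], ‖t‖ ≤ om s.N ∧ exp t = x γ * y γ1 / (y γ * x γ1) := by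
    intro γ hγ
    obtain ⟨a, b⟩ := mem_filter.1 hγ
    refine exists_log (h1 p).1 ω1 ?_
    rw [div_sub_one (mul_ne_zero (hy0 γ a) (hx0 γ1 g1)), norm_div, norm_mul, hy1 γ a, hx1 γ1 g1,
      mul_one, div_one]
    exact hcls _ _ _ _ (hrho _) (hrho _) (hx1 γ a) (hy1 γ a) (hx1 γ1 g1) (hy1 γ1 g1) b
  choose! t ht1 ht2 using hlog
  have hLg : ∀ γ ∈ Γ', ∀ γ' ∈ Γ', s.Lg (γ / γ') (t γ - t γ') := by
    intro γ hγ γ' hγ'
    have a := (mem_filter.1 hγ).1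
    have a' := (mem_filter.1 hγ').1
    have e := s.an.add _ (s.le (hD _ (ult_sub (ht1 γ hγ) (ht1 γ' hγ')))) _ (s.le (hD _ (ht1 γ' hγ')))
    rw [sub_add_cancel, ht2 γ hγ, ht2 γ' hγ'] at e
    have e1 : γ / γ' = γ / γ0 / (γ' / γ0) := (div_div_div_cancel_right₀ hγ0 _ _).symm
    rw [Setup.Lg, e1, map_div₀ s.τ, map_div₀ s.σ, map_div₀ s.ι, map_div₀ s.ι]
    change _ * (y γ / y γ') = x γ / x γ'
    have := hx0 γ a
    have := hy0 γ a
    have := hx0 γ' a'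
    have := hy0 γ' a'
    have := hx0 γ1 g1
    have := hy0 γ1 g1
    field_simp at e ⊢
    linear_combination -e
  refine ⟨Γ' ×ˢ {0}, fun i => t i.1, ?_, ?_, ?_, ?_⟩
  · rw [card_product, card_singleton, mul_one]
    refine le_trans (by exact_mod_cast hcard : (Γ.card : ℝ) ≤ Γ'.card * n) ?_
    gcongr
  · intro i hi k hk e
    rw [mem_coe, mem_product, mem_singleton] at hi hk
    have e1 := hLg _ hi.1 _ hk.1
    rw [show t i.1 = t k.1 from e, sub_self, Setup.Lg, exp_zero, one_mul] at e1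
    exact Prod.ext ((hΓ _ (mem_filter.1 hi.1).1 _ (mem_filter.1 hk.1).1).2
      (s.ι.injective e1).symm) (hi.2.trans hk.2.symm)
  · intro i hi
    have := (mem_product.1 hi).1
    exact ⟨(mem_filter.1 this).1, hD _ (ht1 _ this)⟩
  · intro i hi k hk
    have a := (mem_product.1 hi).1
    have b := (mem_product.1 hk).1
    refine ⟨?_, hLg _ a _ b, ?_⟩
    · rw [hψ, AddMonoidHom.zero_apply, abs_zero]
      positivity
    · rw [hW]
      exact ult_sub (ht1 _ a) (ht1 _ b)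

end Pool.Agent.Szpiro98.V2
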