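import Pool.Agent.Lib.Szpiro98.Core2
import Pool.Agent.Lib.Szpiro98.Coord2
import Pool.Agent.Lib.Szpiro98.Mid2
import Pool.Agent.Lib.Szpiro98.RefP2x
import Pool.Agent.Lib.Szpiro98.AuxP
import Pool.Agent.Lib.Szpiro98.LocT
import Pool.Agent.Lib.Szpiro98.Ell2
import Pool.Agent.Lib.Szpiro98.NumA
import Pool.Agent.Lib.Szpiro98.NumB

namespace Pool.Agent.Szpiro98.V2

open Pool.Agent.Lib.MP_cafdd5_nt

theorem main : ∃ c C : ℝ, 0 < c ∧ ∀ a b : ℤ, disc a b ≠ 0 → IsMinimalShort a b →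
    Real.log (max (|(a : ℝ)| ^ 3) ((b : ℝ) ^ 2)) ≤ C * cond a b * Real.exp (-(c * √(Real.log (cond a b)))) :=
  fin (loct aux (mid (coord core)) refp') comb irr quad red (numb numa)

end Pool.Agent.Szpiro98.V2
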