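import Pool.Agent.Lib.Szpiro98.Blue5
import Pool.Agent.Lib.Szpiro98.NumA4

/-! Block SV5: the size of the saving factor. -/

namespace Pool.Agent.Szpiro98.V5

open Finset

namespace SV

lemma pow_le {x : ℝ} (hx : 0 ≤ x) (n : ℕ) : x ^ n ≤ n.factorial * Real.exp x := by
  have := Real.pow_div_factorial_le_exp x hx n
  rwa [div_le_iff₀' (by exact_mod_cast n.factorial_pos)] at this

lemma exp_le (m : ℕ) : Real.exp m ≤ m.factorial * Real.exp 3 := by
  refine le_trans ?_ (pow_le (x := 3) (by norm_num) m)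
  rw [← Real.exp_one_pow]
  exact pow_le_pow_left₀ (Real.exp_pos _).le (by linarith [Real.exp_one_lt_d9]) m

lemma fact_le {n m : ℕ} (h : n ≤ m + 6) :
    (n.factorial : ℝ) ≤ 720 * Real.exp 9 * (m.factorial : ℝ) ^ 2 := by
  have h1 : n.factorial ≤ m.factorial * (m + 6) ^ 6 :=
    (Nat.factorial_le h).trans (by
      rw [← Nat.factorial_mul_ascFactorial]
      exact Nat.mul_le_mul_left _ (Nat.ascFactorial_le_pow_add m 6))
  have h2 : (n.factorial : ℝ) ≤ m.factorial * ((m : ℝ) + 6) ^ 6 := by exact_mod_cast h1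
  have h3 := pow_le (x := (m : ℝ) + 6) (by positivity) 6
  rw [Real.exp_add, show ((Nat.factorial 6 : ℕ) : ℝ) = 720 by norm_num [Nat.factorial]] at h3
  have h4 : Real.exp 9 = Real.exp 3 * Real.exp 6 := by rw [← Real.exp_add]; norm_num
  calc (n.factorial : ℝ) ≤ m.factorial * (720 * (Real.exp m * Real.exp 6)) :=
        h2.trans (by gcongr)
    _ ≤ m.factorial * (720 * (m.factorial * Real.exp 3 * Real.exp 6)) := by
        gcongr; exact exp_le m
    _ = _ := by rw [h4]; ring

end SV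

theorem svb : SvStmt := by
  intro ε hε
  set A : ℝ := 720 * Real.exp 9 with hA
  have hA1 : 1 ≤ A := by
    have := Real.one_le_exp (x := 9) (by norm_num)
    linarith
  set B : ℝ := A ^ 3 * Real.exp 9 * Real.exp (5 / ε) * Real.exp (ε / 5) with hB
  have hB1 : 1 ≤ B :=
    one_le_mul_of_one_le_of_one_le (one_le_mul_of_one_le_of_one_le (one_le_mul_of_one_le_of_one_le
      (one_le_pow₀ hA1) (Real.one_le_exp (by norm_num))) (Real.one_le_exp (by positivity)))
      (Real.one_le_exp (by positivity))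
  refine ⟨B ^ 5, one_le_pow₀ hB1, fun S T x hS hT hx => ?_⟩
  set m := (S \ T).card with hm
  set n := S.card + 1 with hn
  set M : ℝ := ((∏ q ∈ S \ T, q : ℕ) : ℝ) with hM
  have hnm : n ≤ m + 6 := by
    have := le_card_sdiff T S
    omega
  have h1 : (m.factorial : ℝ) ≤ M := by
    rw [hM]
    exact_mod_cast V4.NumA.fact_le _ fun q hq => (hS q (mem_sdiff.mp hq).1).one_le
  have hM0 : 0 ≤ M := Nat.cast_nonneg _
  have h2 : (n.factorial : ℝ) ≤ A * M ^ 2 := (SV.fact_le hnm).trans (by gcongr)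
  have h3 : Real.exp n ≤ M * Real.exp 9 := by
    have h4 : (n : ℝ) ≤ m + 6 := by exact_mod_cast hnm
    calc Real.exp n ≤ Real.exp m * Real.exp 6 := by rw [← Real.exp_add]; gcongr
      _ ≤ M * Real.exp 3 * Real.exp 6 := by gcongr; exact (SV.exp_le m).trans (by gcongr)
      _ = _ := by rw [mul_assoc, ← Real.exp_add]; norm_num
  have h4 : (n : ℝ) ^ n ≤ A * M ^ 2 * (M * Real.exp 9) :=
    (SV.pow_le (Nat.cast_nonneg n) n).trans (by gcongr)
  have hL := Real.log_nonneg hx
  have h5 : (1 + Real.log x) ^ n ≤ A * M ^ 2 * Real.exp (5 / ε) *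
      (A * M ^ 2 * (Real.exp (ε / 5) * x ^ (ε / 5))) := by
    have e1 : 1 + Real.log x = 5 / ε * (ε / 5 * (1 + Real.log x)) := by field_simp
    have e2 : Real.exp (ε / 5 * (1 + Real.log x)) = Real.exp (ε / 5) * x ^ (ε / 5) := by
      rw [Real.rpow_def_of_pos (by linarith), ← Real.exp_add]; congr 1; ring
    rw [e1, mul_pow, ← e2]
    exact mul_le_mul ((SV.pow_le (by positivity) n).trans (by gcongr))
      ((SV.pow_le (by positivity) n).trans (by gcongr)) (by positivity) (by positivity)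
  have h6 : ((n : ℝ) * (1 + Real.log x)) ^ n ≤ B * M ^ 7 * x ^ (ε / 5) := by
    rw [mul_pow]
    refine (mul_le_mul h4 h5 (by positivity) (by positivity)).trans_eq ?_
    rw [hB]; ring
  have h7 : (x ^ (ε / 5)) ^ 5 = x ^ ε := by
    rw [← Real.rpow_natCast, ← Real.rpow_mul (by linarith)]; congr 1; push_cast; ring
  have h8 : ((S.card : ℝ) + 1) = n := by rw [hn]; push_cast; ring
  rw [h8, mul_comm 5 n, pow_mul]
  refine (pow_le_pow_left₀ (by positivity) h6 5).trans_eq ?_
  rw [mul_pow, mul_pow, h7, ← pow_mul]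

end Pool.Agent.Szpiro98.V5
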