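import Pool.Agent.Lib.Szpiro98.Blue5

/-! Block TWON5: numerical bound for curves with one rational 2-torsion point. -/

namespace Pool.Agent.Szpiro98.V5

open Finset Pool.Agent.Lib.MP_cafdd5_nt V4 V3.RED3 RED

namespace TwoN

lemma lin {δ k c z u v a b p q m : ℝ} (δ0 : 0 < δ) (δ1 : δ ≤ 1) (k0 : 0 ≤ k) (c0 : 0 ≤ c) (z0 : 0 ≤ z)
    (p0 : 0 ≤ p) (q0 : 0 ≤ q) (h1 : u + v ≤ z) (h2 : p + a ≤ c + u) (h3 : q + b ≤ c + v)
    (h4 : m + a + b ≤ c + u + v) :
    (p / 2 + a ≤ k + 45 * c + (1 / 2 - δ / 1000) * z ∨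
      p / 2 + a + (k + 4 * p + 35 * m - δ * a / 2) ≤ k + 45 * c + (1 / 2 - δ / 1000) * z) ∨
    (q / 2 + b ≤ k + 45 * c + (1 / 2 - δ / 1000) * z ∨
      q / 2 + b + (k + 4 * q + 35 * m - δ * b / 2) ≤ k + 45 * c + (1 / 2 - δ / 1000) * z) := by
  by_contra hc
  simp only [not_or, not_le] at hc
  obtain ⟨⟨a1, a2⟩, b1, b2⟩ := hc
  have e0 : 0 ≤ 1 - δ / 2 := by linarith
  have e1 := mul_nonneg δ0.le c0
  have e2 := mul_nonneg δ0.le z0
  rcases le_total u v with e | e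
  · have := mul_le_mul_of_nonneg_left (show a ≤ c + z / 2 by linarith) e0
    linarith
  · have := mul_le_mul_of_nonneg_left (show b ≤ c + z / 2 by linarith) e0
    linarith

lemma side {C δ D x K M A t 𝓛 : ℝ} {S : Finset ℕ} (hC : 1 ≤ C) (hD : 1 ≤ D) (hx : 1 ≤ x) (hK : 1 ≤ K)
    (hM : 1 ≤ M) (hL : 3 ≤ 𝓛)
    (hA : C * (∏ q ∈ S, C * Real.log q ^ 3) * (1 + Real.log D) ^ 4 ≤ A)
    (hQ : ((S.card + 1) * (1 + Real.log x)) ^ (5 * (S.card + 1)) ≤ K * M ^ 35 * x ^ (δ / 2))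
    (ht : Real.log D / 2 + Real.log x ≤ t ∨ Real.log D / 2 + Real.log x +
      (Real.log C + Real.log K + 4 * Real.log D + 35 * Real.log M - δ * Real.log x / 2) ≤ t) :
    V4.bnd C δ S D x 𝓛 ≤ A * Real.exp t * Real.log 𝓛 ^ 3 := by
  have l0 : 0 ≤ Real.log 𝓛 ^ 3 := pow_nonneg (Real.log_nonneg (by linarith)) 3
  have P0 : 0 ≤ ∏ q ∈ S, C * Real.log q ^ 3 :=
    prod_nonneg fun q _ => mul_nonneg (by linarith) (pow_nonneg (Real.log_natCast_nonneg q) 3)
  have e1 : √D * x = Real.exp (Real.log D / 2 + Real.log x) := by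
    rw [Real.exp_add, Real.exp_log (by linarith), Real.sqrt_eq_rpow, Real.rpow_def_of_pos (by linarith)]
    congr 2
    ring
  have e2 : sv C δ S D x ≤
      Real.exp (Real.log C + Real.log K + 4 * Real.log D + 35 * Real.log M - δ * Real.log x / 2) := by
    rw [sv, div_le_iff₀ (by positivity)]
    refine (mul_le_mul_of_nonneg_left hQ (by positivity)).trans (le_of_eq ?_)
    have f1 : D ^ 4 = Real.exp (4 * Real.log D) := by
      rw [show (4 : ℝ) = (4 : ℕ) by norm_num, Real.exp_nat_mul, Real.exp_log (by linarith)]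
    have f2 : M ^ 35 = Real.exp (35 * Real.log M) := by
      rw [show (35 : ℝ) = (35 : ℕ) by norm_num, Real.exp_nat_mul, Real.exp_log (by linarith)]
    rw [f1, f2, Real.rpow_def_of_pos (by linarith), Real.rpow_def_of_pos (by linarith)]
    nth_rewrite 1 [← Real.exp_log (show 0 < C by linarith), ← Real.exp_log (show 0 < K by linarith)]
    simp only [← Real.exp_add]
    congr 1
    ring
  have e3 : √D * x * min 1 (sv C δ S D x) ≤ Real.exp t := by
    rw [e1]
    rcases ht with h | h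
    · exact (mul_le_of_le_one_right (by positivity) (min_le_left _ _)).trans (Real.exp_le_exp.2 h)
    · refine (mul_le_mul_of_nonneg_left ((min_le_right _ _).trans e2) (by positivity)).trans ?_
      rw [← Real.exp_add]
      exact Real.exp_le_exp.2 h
  have e4 : 0 ≤ min 1 (sv C δ S D x) := le_min zero_le_one (sv_nonneg (by linarith) δ S D hx)
  unfold V4.bnd Szpiro98.bnd
  refine mul_le_mul_of_nonneg_right ?_ l0
  calc _ = C * (∏ q ∈ S, C * Real.log q ^ 3) * (1 + Real.log D) ^ 4 *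
        (√D * x * min 1 (sv C δ S D x)) := by ring
    _ ≤ _ := mul_le_mul hA e3 (by positivity) (le_trans (by positivity) hA)

lemma arith {d c : ℤ} {R x : ℕ} (hd : d ≠ 0) (hc : c ≠ 0) (h : Ker d c) (hR0 : 0 < R)
    (hR : ∀ p : ℕ, p.Prime → 5 ≤ p → (p : ℤ) ∣ c → p ∣ R)
    (hx : x = 1 ∨ x.Prime ∧ (x : ℤ) ∣ c ∧ Even (padicValInt x c)) :
    1 ≤ x ∧ d.natAbs * x ≤ 72 * R ∧ ∃ s, x * s ≤ 3 * R ∧ 0 < s ∧
      ∀ q : ℕ, q.Prime → q ≠ x → q ∣ R → q ∣ s := by
  have hdv := d_dvd hd hc h hR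
  have h1 := Nat.le_of_dvd (by omega) hdv
  have x1 : 1 ≤ x := hx.elim (fun e => e.ge) fun e => e.1.one_le
  by_cases h3 : x ≤ 3
  · exact ⟨x1, by nlinarith, R, Nat.mul_le_mul_right R h3, hR0, fun q _ _ e => e⟩
  obtain ⟨hp, h2, he⟩ := hx.resolve_left (by omega)
  have h4 : x ≠ 4 := by rintro rfl; norm_num at hp
  have h5 := (h x hp).2 (by omega)
  have h6 := Nat.even_iff.1 he
  have hpd : ¬(x : ℤ) ∣ d := fun k => by
    have := (val_pos_iff hp hd).1 k
    omega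
  have hcop : Nat.Coprime d.natAbs x :=
    ((Nat.Prime.coprime_iff_not_dvd hp).2 fun k => hpd (Int.natCast_dvd.2 k)).symm
  have hpR := hR x hp (by omega) h2
  have h7 := Nat.le_of_dvd (by omega) (hcop.mul_dvd_of_dvd_of_dvd hdv (hpR.mul_left 24))
  obtain ⟨s, rfl⟩ := hpR
  refine ⟨x1, by omega, s, by omega, Nat.pos_of_mul_pos_left hR0, fun q hq ne e => ?_⟩
  exact ((Nat.Prime.dvd_mul hq).1 e).resolve_left fun k => ne ((Nat.prime_dvd_prime_iff_eq hq hp).1 k)

lemma log_le {x y c r : ℝ} (hx : 1 ≤ x) (hy : 1 ≤ y) (hc : 1 ≤ c) (hr : 1 ≤ r) (h : x * y ≤ c * r) :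
    Real.log x + Real.log y ≤ Real.log c + Real.log r := by
  rw [← Real.log_mul (by linarith) (by linarith), ← Real.log_mul (by linarith) (by linarith)]
  exact Real.log_le_log (by positivity) h

end TwoN

open TwoN in
theorem twonum (h : SvStmt) : TwoNumStmt := by
  intro C δ hC δ0 δ1
  obtain ⟨K, K1, hK⟩ := h (δ / 2) (by positivity)
  have ε0 : 0 < δ / 4000 := by positivity
  obtain ⟨K2, K3, hK2⟩ := SumB.prod_le (C := C) (by linarith) ε0
  have k0 : 0 ≤ Real.log C + Real.log K := add_nonneg (Real.log_nonneg (by linarith)) (Real.log_nonneg K1)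
  have c0 : 0 ≤ Real.log 72 := Real.log_nonneg (by norm_num)
  have K4 : 1 ≤ (1 + 4 / (δ / 4000)) ^ 4 := one_le_pow₀ (le_add_of_nonneg_right (by positivity))
  refine ⟨δ / 2000, C * (K2 * 6) * ((1 + 4 / (δ / 4000)) ^ 4 * 72) *
    Real.exp (Real.log C + Real.log K + 45 * Real.log 72), by positivity, by linarith, ?_, ?_⟩
  · refine one_le_mul_of_one_le_of_one_le (one_le_mul_of_one_le_of_one_le
      (one_le_mul_of_one_le_of_one_le (by linarith) (by linarith)) (by linarith))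
      (Real.one_le_exp (by linarith))
  intro a b e d1 d2 x y 𝓛 hD he hd1 hd2 k1 k2 hx hy hL
  have hd := disc_eq he
  have c1 : 4 * a - 3 * e ^ 2 ≠ 0 := fun k => hD (by rw [hd, k, mul_zero])
  have c2 : 3 * e ^ 2 - a ≠ 0 := fun k => hD (by rw [hd, k]; ring)
  have v1 : 4 * a - 3 * e ^ 2 ∣ disc a b := ⟨(3 * e ^ 2 - a) ^ 2, by rw [hd]; ring⟩
  have v2 : 3 * e ^ 2 - a ∣ disc a b := ⟨(3 * e ^ 2 - a) * (4 * a - 3 * e ^ 2), by rw [hd]; ring⟩
  have key : rr (disc a b) (4 * a - 3 * e ^ 2) * rr (disc a b) (3 * e ^ 2 - a) ≤ cond a b := by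
    refine rr_mul_le fun p hp h5 h1 h2 => ?_
    have h3 : (p : ℤ) ∣ 3 * a := by
      have := h1.add h2
      rwa [show 4 * a - 3 * e ^ 2 + (3 * e ^ 2 - a) = 3 * a by ring] at this
    exact (RED.cop hp Nat.prime_three (by omega)).dvd_of_dvd_mul_left h3
  have w1 := fun (p : ℕ) hp h5 k => dvd_rr hD v1 (p := p) hp h5 k
  have w2 := fun (p : ℕ) hp h5 k => dvd_rr hD v2 (p := p) hp h5 k
  have r1 := rr_pos (disc a b) (4 * a - 3 * e ^ 2)
  have r2 := rr_pos (disc a b) (3 * e ^ 2 - a)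
  generalize rr (disc a b) (4 * a - 3 * e ^ 2) = R1 at key w1 r1
  generalize rr (disc a b) (3 * e ^ 2 - a) = R2 at key w2 r2
  obtain ⟨x1, x2, s, x3, s0, x4⟩ := arith hd1 c1 k1 r1 w1 hx
  obtain ⟨y1, y2, t, y3, t0, y4⟩ := arith hd2 (mul_ne_zero (by norm_num) c2) k2 r2 (fun p hp h5 k => by
    have c16 : IsCoprime (p : ℤ) 16 := by
      rw [show (16 : ℤ) = ((2 : ℕ) : ℤ) ^ 4 by norm_num]
      exact (cop hp Nat.prime_two (by omega)).pow_right
    exact w2 p hp h5 (c16.dvd_of_dvd_mul_left k)) hy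
  have hS := SS_prime a b
  have m1 : ∏ q ∈ SS a b \ {x, y, 2, 3}, q ≤ s * t := by
    refine Nat.le_of_dvd (by positivity) (Finset.prod_primes_dvd _
      (fun q hq => (hS q (mem_sdiff.1 hq).1).prime) fun q hq => ?_)
    obtain ⟨q1, q2⟩ := mem_sdiff.1 hq
    have pq := hS q q1
    simp only [mem_insert, mem_singleton, not_or] at q2
    simp only [SS, mem_insert, q2, false_or] at q1
    have q4 : q ≠ 4 := by rintro rfl; norm_num at pq
    have q5 : 5 ≤ q := by have := pq.two_le; omega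
    have q6 := Int.natCast_dvd.2 (Nat.dvd_of_mem_primeFactors q1)
    have q7 := Nat.prime_iff_prime_int.1 pq
    rw [hd] at q6
    rcases q7.dvd_or_dvd q6 with k | k
    · exact (y4 q pq q2.2.1 (w2 q pq q5 (q7.dvd_of_dvd_pow k))).mul_left s
    · exact (x4 q pq q2.1 (w1 q pq q5 k)).mul_right t
  have m0 : 1 ≤ ∏ q ∈ SS a b \ {x, y, 2, 3}, q :=
    Finset.prod_pos fun q hq => (hS q (mem_sdiff.1 hq).1).pos
  have hQ := fun z hz => hK (SS a b) {x, y, 2, 3} z hS (card_le_four.trans (by norm_num)) hz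
  generalize ∏ q ∈ SS a b \ {x, y, 2, 3}, q = M at m0 m1 hQ
  have m2 : M * x * y ≤ 72 * R1 * R2 := by
    calc M * x * y ≤ s * t * x * y := by gcongr
      _ = x * s * (y * t) := by ring
      _ ≤ 3 * R1 * (3 * R2) := Nat.mul_le_mul x3 y3
      _ ≤ _ := by nlinarith
  have hP := hK2 (SS a b) fun q hq => (hS q hq).one_le
  have hR : ((∏ q ∈ SS a b, q : ℕ) : ℝ) ≤ 6 * (cond a b : ℝ) := by exact_mod_cast SumB.rad_le a b
  have n1 : d1.natAbs ≤ 72 * cond a b := by nlinarith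
  have n2 : d2.natAbs ≤ 72 * cond a b := by nlinarith
  have X2 := cast_le x2
  have Y2 := cast_le y2
  have N1 := cast_le (m := 1) (by simpa using n1)
  have N2 := cast_le (m := 1) (by simpa using n2)
  push_cast at X2 Y2 N1 N2
  rw [mul_one] at N1 N2
  have hN : (1 : ℝ) ≤ cond a b := by exact_mod_cast GLUE.cond_pos a b
  have D1 : (1 : ℝ) ≤ |(d1 : ℝ)| := by exact_mod_cast Int.one_le_abs hd1
  have D2 : (1 : ℝ) ≤ |(d2 : ℝ)| := by exact_mod_cast Int.one_le_abs hd2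
  have X1 : (1 : ℝ) ≤ x := by exact_mod_cast x1
  have Y1 : (1 : ℝ) ≤ y := by exact_mod_cast y1
  have M0 : (1 : ℝ) ≤ M := by exact_mod_cast m0
  have S1 : (1 : ℝ) ≤ R1 := by exact_mod_cast r1
  have S2 : (1 : ℝ) ≤ R2 := by exact_mod_cast r2
  have M2 : (M : ℝ) * x * y ≤ 72 * R1 * R2 := by exact_mod_cast m2
  have KY : (R1 : ℝ) * R2 ≤ 1 * cond a b := by rw [one_mul]; exact_mod_cast key
  generalize (cond a b : ℝ) = N at *
  have g1 := log_le S1 S2 le_rfl hN KY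
  have g2 := log_le D1 X1 (by norm_num) S1 X2
  have g3 := log_le D2 Y1 (by norm_num) S2 Y2
  have g4 := log_le (one_le_mul_of_one_le_of_one_le M0 X1) Y1 (by linarith) S2 M2
  rw [Real.log_mul (by linarith) (by linarith), Real.log_mul (by linarith) (by linarith)] at g4
  rw [Real.log_one, zero_add] at g1
  have pw : ∀ c w : ℝ, 1 ≤ c → 0 ≤ w → w ≤ c * N → w ^ (δ / 4000) ≤ c * N ^ (δ / 4000) := by
    intro c w hc w0 hw
    refine (Real.rpow_le_rpow w0 hw ε0.le).trans ?_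
    rw [Real.mul_rpow (by linarith) (by linarith)]
    exact mul_le_mul_of_nonneg_right (Real.rpow_le_self_of_one_le hc (by linarith)) (by positivity)
  have hA : ∀ D : ℝ, 1 ≤ D → D ≤ 72 * N → C * (∏ q ∈ SS a b, C * Real.log q ^ 3) * (1 + Real.log D) ^ 4 ≤
      C * (K2 * (6 * N ^ (δ / 4000))) * ((1 + 4 / (δ / 4000)) ^ 4 * (72 * N ^ (δ / 4000))) := by
    intro D e1 e2
    refine mul_le_mul (mul_le_mul_of_nonneg_left (hP.trans (mul_le_mul_of_nonneg_left
      (pw 6 _ (by norm_num) (by positivity) hR) (by linarith))) (by linarith))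
      ((SumB.one_add_log_le e1 ε0).trans (mul_le_mul_of_nonneg_left
        (pw 72 _ (by norm_num) (by linarith) e2) (by positivity))) (by positivity) (by positivity)
  have fin : C * (K2 * (6 * N ^ (δ / 4000))) * ((1 + 4 / (δ / 4000)) ^ 4 * (72 * N ^ (δ / 4000))) *
      Real.exp (Real.log C + Real.log K + 45 * Real.log 72 + (1 / 2 - δ / 1000) * Real.log N) =
      C * (K2 * 6) * ((1 + 4 / (δ / 4000)) ^ 4 * 72) *
        Real.exp (Real.log C + Real.log K + 45 * Real.log 72) * N ^ (1 / 2 - δ / 2000) := by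
    rw [Real.exp_add _ (_ * _), mul_comm (1 / 2 - δ / 1000), ← Real.rpow_def_of_pos (by linarith),
      show 1 / 2 - δ / 2000 = δ / 4000 + δ / 4000 + (1 / 2 - δ / 1000) by ring,
      Real.rpow_add (by linarith), Real.rpow_add (by linarith)]
    ring
  rw [← fin]
  rcases lin δ0 δ1 k0 c0 (Real.log_nonneg hN) (Real.log_nonneg D1) (Real.log_nonneg D2) g1 g2 g3 g4
    with g | g
  · exact (min_le_left _ _).trans (side (by linarith) D1 X1 K1 M0 hL (hA _ D1 N1) (hQ _ X1) g)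
  · exact (min_le_right _ _).trans (side (by linarith) D2 Y1 K1 M0 hL (hA _ D2 N2) (hQ _ Y1) g)

end Pool.Agent.Szpiro98.V5
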