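import Pool.Agent.Lib.Szpiro98.Main4
import Pool.Agent.Lib.Szpiro98.Qsup5
import Pool.Agent.Lib.Szpiro98.LocQ5
import Pool.Agent.Lib.Szpiro98.Sv5
import Pool.Agent.Lib.Szpiro98.AbcA5
import Pool.Agent.Lib.Szpiro98.AbcB5
import Pool.Agent.Lib.Szpiro98.Full5
import Pool.Agent.Lib.Szpiro98.Qr5
import Pool.Agent.Lib.Szpiro98.TwoN5
import Pool.Agent.Lib.Szpiro98.Glue5

namespace Pool.Agent.Szpiro98.V5

open Pool.Agent.Lib.MP_cafdd5_nt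

theorem locqt' : LocQTStmt := locqt V4.aux' V4.mid' qsup

theorem main_abc : ∃ η K : ℝ, 0 < η ∧ η ≤ 1 / 6 ∧ Abc η K := fin_abc locqt' (abc (abcnum svb))

theorem main_full : ∃ η C : ℝ, 0 < η ∧ ∀ a b : ℤ, disc a b ≠ 0 → IsMinimalShort a b →
    (∃ x y : ℚ, x ≠ y ∧ x ^ 3 - a * x - b = 0 ∧ y ^ 3 - a * y - b = 0) →
    Real.log (max (|(a : ℝ)| ^ 3) ((b : ℝ) ^ 2)) ≤ C * (cond a b : ℝ) ^ (1 / 3 - η) :=
  fin_full locqt' (abc (abcnum svb)) full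

theorem main_two : ∃ η C : ℝ, 0 < η ∧ ∀ a b : ℤ, disc a b ≠ 0 → IsMinimalShort a b →
    (∃ x : ℚ, x ^ 3 - a * x - b = 0) →
    Real.log (max (|(a : ℝ)| ^ 3) ((b : ℝ) ^ 2)) ≤ C * (cond a b : ℝ) ^ (1 / 2 - η) :=
  fin_two V4.loct' locqt' V4.quad quad3 red (two (twonum svb))

end Pool.Agent.Szpiro98.V5
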